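import Mathlib

set_option autoImplicit false

/-! Definitions for the quadratic lower bound over dihedral type groups. -/

namespace Pool.Agent.P.MP_85fe51_lc.DA

open Finset
open scoped Classical

abbrev F2 : Type := ZMod 2

abbrev Du (V : Type) [AddCommGroup V] [Module F2 V] : Type := V →ₗ[F2] F2

section
variable {V : Type} [AddCommGroup V] [Module F2 V]

/-- `γ` vanishes wherever all forms of `H` vanish. -/
def InSp (H : Finset (Du V)) (γ : Du V) : Prop := ∀ x : V, (∀ χ ∈ H, χ x = 0) → γ x = 0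

/-- every pattern of values on `H` is attained. -/
def Indep (H : Finset (Du V)) : Prop := ∀ c : Du V → F2, ∃ x : V, ∀ χ ∈ H, χ x = c χ

/-- number of coloops. -/
noncomputable def col (T : Finset (Du V)) : ℕ :=
  (T.filter (fun γ => ¬ InSp (T.erase γ) γ)).card

/-- number of forms of `T` outside the closure of `G` that are not coloops modulo `G`. -/
noncomputable def nc (G T : Finset (Du V)) : ℕ :=
  (T.filter (fun γ => ¬ InSp G γ ∧ InSp (G ∪ T.erase γ) γ)).card

/-- forms of `S` outside the closure of `G`. -/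
noncomputable def star (S G : Finset (Du V)) : Finset (Du V) := S.filter (fun γ => ¬ InSp G γ)

/-- forms of `S` that agree with another form of `S` on the kernel of `U`. -/
noncomputable def folded (S U : Finset (Du V)) : Finset (Du V) :=
  S.filter (fun γ => ∃ δ ∈ S, δ ≠ γ ∧ InSp U (γ + δ))

noncomputable def Phi (S : Finset (Du V)) (ζ : Du V → ℂ) (x : V) : ℂ :=
  ∏ χ ∈ S, if χ x = 1 then ζ χ else 1

/-- all phases on `S` are nontrivial `m`-th roots of unity. -/
def Roots (m : ℕ) (S : Finset (Du V)) (ζ : Du V → ℂ) : Prop := ∀ χ ∈ S, ζ χ ^ m = 1 ∧ ζ χ ≠ 1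

def degLt : ℕ → (V → F2) → Prop
  | 0, h => ∀ x, h x = 0
  | j + 1, h => ∀ y, degLt j (fun x => h (x + y) + h x)

noncomputable def sg (a : F2) : ℂ := if a = 1 then -1 else 1

noncomputable def Aset (S : Finset (Du V)) {k : ℕ} (j : ℕ) (y : Fin k → V) : Finset (Du V) :=
  S.filter (fun χ => ∀ i : Fin k, i.val < j → χ (y i) = 1)

def hyb {k : ℕ} (j : ℕ) (y y' : Fin k → V) : Fin k → V := fun i => if i.val < j then y i else y' i

def kerS (U : Finset (Du V)) : Submodule F2 V where
  carrier := {x | ∀ χ ∈ U, χ x = 0}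
  add_mem' := by
    intro a b ha hb χ hχ
    rw [map_add, ha χ hχ, hb χ hχ, add_zero]
  zero_mem' := by
    intro χ _
    exact map_zero χ
  smul_mem' := by
    intro c x hx χ hχ
    rw [map_smul, hx χ hχ, smul_zero]

/-- number of distinct nonzero restrictions of forms of `S` to the kernel of `U`. -/
noncomputable def img (S U : Finset (Du V)) : ℕ :=
  ((S.image (fun χ : Du V => (χ.domRestrict (kerS U) : Du (kerS U)))).erase 0).card

/-- value of a program whose instructions read linear forms. -/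
def prog {G : Type} [Group G] (l : List (Du V × G × G)) (x : V) : G :=
  (l.map (fun p => if p.1 x = 1 then p.2.1 else p.2.2)).prod

/-- a sum of terms `± c` with signs given by forms. -/
def pm {M : Type} [AddCommGroup M] (J : List (Du V × M)) (x : V) : M :=
  (J.map (fun p => if p.1 x = 1 then -p.2 else p.2)).sum

variable [Fintype V]

noncomputable def kerF (H : Finset (Du V)) : Finset V := univ.filter (fun x => ∀ χ ∈ H, χ x = 0)

noncomputable def oneF (H : Finset (Du V)) : Finset V := univ.filter (fun x => ∀ χ ∈ H, χ x = 1)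

noncomputable def cyl {k : ℕ} (Gs : Fin k → Finset (Du V)) : Finset (Fin k → V) :=
  univ.filter (fun y => ∀ i, ∀ χ ∈ Gs i, χ (y i) = 1)

noncomputable def bias (h : V → F2) (S : Finset (Du V)) (ζ : Du V → ℂ) : ℝ :=
  ‖∑ x : V, sg (h x) * Phi S ζ x‖

end

section
variable {V : Type} [AddCommGroup V] [Module F2 V]

theorem mem_star {S G : Finset (Du V)} {γ : Du V} : γ ∈ star S G ↔ γ ∈ S ∧ ¬ InSp G γ := by
  simp only [star, mem_filter]

theorem mem_folded {S U : Finset (Du V)} {γ : Du V} :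
    γ ∈ folded S U ↔ γ ∈ S ∧ ∃ δ ∈ S, δ ≠ γ ∧ InSp U (γ + δ) := by
  simp only [folded, mem_filter]

theorem mem_Aset {S : Finset (Du V)} {k j : ℕ} {y : Fin k → V} {χ : Du V} :
    χ ∈ Aset S j y ↔ χ ∈ S ∧ ∀ i : Fin k, i.val < j → χ (y i) = 1 := by
  simp only [Aset, mem_filter]

theorem mem_kerS {U : Finset (Du V)} {x : V} : x ∈ kerS U ↔ ∀ χ ∈ U, χ x = 0 := Iff.rfl

variable [Fintype V]

theorem mem_kerF {H : Finset (Du V)} {x : V} : x ∈ kerF H ↔ ∀ χ ∈ H, χ x = 0 := by
  simp only [kerF, mem_filter, mem_univ, true_and]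

theorem mem_oneF {H : Finset (Du V)} {x : V} : x ∈ oneF H ↔ ∀ χ ∈ H, χ x = 1 := by
  simp only [oneF, mem_filter, mem_univ, true_and]

theorem mem_cyl {k : ℕ} {Gs : Fin k → Finset (Du V)} {y : Fin k → V} :
    y ∈ cyl Gs ↔ ∀ i, ∀ χ ∈ Gs i, χ (y i) = 1 := by
  simp only [cyl, mem_filter, mem_univ, true_and]

end

section
variable {α : Type}

/-- expectation over a `ρ`-random subset of `X`. -/
noncomputable def Ex (ρ : ℝ) (X : Finset α) (f : Finset α → ℝ) : ℝ :=
  ∑ W ∈ X.powerset, ρ ^ W.card * (1 - ρ) ^ (X.card - W.card) * f W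

/-- expectation over a union of `t` independent `ρ`-random subsets of `X`. -/
noncomputable def ExT (ρ : ℝ) (X : Finset α) : ℕ → (Finset α → ℝ) → ℝ
  | 0, f => f ∅
  | t + 1, f => Ex ρ X (fun W => ExT ρ X t (fun R => f (W ∪ R)))

/-- every cover of `F` by subsets of its members costs at least `c`. -/
def Costly (q c : ℝ) (F : Finset (Finset α)) : Prop :=
  ∀ U : Finset (Finset α), (∀ H ∈ U, ∃ B ∈ F, H ⊆ B) → (∀ B ∈ F, ∃ H ∈ U, H ⊆ B) →
    c ≤ ∑ H ∈ U, q ^ H.card

end

end Pool.Agent.P.MP_85fe51_lc.DA
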