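import Mathlib
import Pool.Agent.P.MP_85fe51_lc.DDefs

set_option autoImplicit false

namespace Pool.Agent.P.MP_85fe51_lc.DA

open Finset
open scoped Classical

variable {V : Type} [AddCommGroup V] [Module F2 V]

theorem f2_cases (a : F2) : a = 0 ∨ a = 1 := by
  revert a
  decide

theorem f2_add_self (a : F2) : a + a = 0 := by
  revert a
  decide

theorem dlin_eq_of_add {a b : F2} (h : a + b = 0) : a = b := by
  revert a b
  decide

theorem dlin_add_one {a c : F2} (h : ¬ a = c) : a + 1 = c := by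
  revert a c
  decide

theorem dlin_add_one_ne {a c : F2} (h : a = c) : ¬ a + 1 = c := by
  revert a c
  decide

theorem v_add_self (x : V) : x + x = 0 := by
  have h : (2 : F2) = 0 := by decide
  rw [← two_smul F2 x, h, zero_smul]

theorem InSp.mono {H H' : Finset (Du V)} {γ : Du V} (hs : H ⊆ H') (h : InSp H γ) :
    InSp H' γ := by
  intro x hx
  exact h x (fun χ hχ => hx χ (hs hχ))

theorem inSp_of_mem {H : Finset (Du V)} {γ : Du V} (h : γ ∈ H) : InSp H γ := by
  intro x hx
  exact hx γ h

theorem InSp.trans {H H' : Finset (Du V)} {γ : Du V} (hs : ∀ χ ∈ H, InSp H' χ) (h : InSp H γ) :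
    InSp H' γ := by
  intro x hx
  exact h x (fun χ hχ => hs χ hχ x hx)

theorem exists_of_not_inSp {H : Finset (Du V)} {γ : Du V} (h : ¬ InSp H γ) :
    ∃ x : V, (∀ χ ∈ H, χ x = 0) ∧ γ x = 1 := by
  by_contra hne
  apply h
  intro x hx
  rcases f2_cases (γ x) with h0 | h1
  · exact h0
  · exact absurd ⟨x, hx, h1⟩ hne

theorem indep_empty : Indep (∅ : Finset (Du V)) := by
  intro c
  exact ⟨0, fun χ hχ => absurd hχ (Finset.notMem_empty χ)⟩

theorem Indep.mono {H H' : Finset (Du V)} (hs : H ⊆ H') (h : Indep H') : Indep H := by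
  intro c
  obtain ⟨x, hx⟩ := h c
  exact ⟨x, fun χ hχ => hx χ (hs hχ)⟩

theorem Indep.insert {H : Finset (Du V)} {γ : Du V} (h : Indep H) (hγ : ¬ InSp H γ) :
    Indep (insert γ H) := by
  intro c
  obtain ⟨x, hx⟩ := h c
  obtain ⟨x0, hx0, hγ0⟩ := exists_of_not_inSp hγ
  by_cases hc : γ x = c γ
  · refine ⟨x, fun χ hχ => ?_⟩
    rcases Finset.mem_insert.1 hχ with rfl | hχ
    · exact hc
    · exact hx χ hχ
  · refine ⟨x + x0, fun χ hχ => ?_⟩
    rcases Finset.mem_insert.1 hχ with rfl | hχ
    · rw [map_add, hγ0]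
      exact dlin_add_one hc
    · rw [map_add, hx0 χ hχ, add_zero]
      exact hx χ hχ

theorem Indep.not_inSp {H : Finset (Du V)} {γ : Du V} (h : Indep H) (hγ : γ ∈ H) :
    ¬ InSp (H.erase γ) γ := by
  intro hin
  obtain ⟨x, hx⟩ := h (fun χ => if χ = γ then 1 else 0)
  have h1 : γ x = 1 := by
    have := hx γ hγ
    rwa [if_pos rfl] at this
  have h0 : γ x = 0 := by
    apply hin x
    intro χ hχ
    have hm := Finset.mem_erase.1 hχ
    have := hx χ hm.2
    rwa [if_neg hm.1] at this
  rw [h0] at h1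
  exact absurd h1 (by decide)

theorem inSp_add {H : Finset (Du V)} {γ δ : Du V} (h1 : ¬ InSp H γ)
    (h2 : InSp (insert δ H) γ) : InSp H (γ + δ) := by
  obtain ⟨x0, hx0, hγ0⟩ := exists_of_not_inSp h1
  have key : ∀ x : V, (∀ χ ∈ H, χ x = 0) → δ x = 0 → γ x = 0 := by
    intro x hx hδ
    apply h2 x
    intro χ hχ
    rcases Finset.mem_insert.1 hχ with rfl | hχ
    · exact hδ
    · exact hx χ hχ
  have hδ0 : δ x0 = 1 := by
    rcases f2_cases (δ x0) with h0 | h0
    · have := key x0 hx0 h0
      rw [this] at hγ0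
      exact absurd hγ0 (by decide)
    · exact h0
  intro x hx
  rw [LinearMap.add_apply]
  rcases f2_cases (δ x) with h0 | h0
  · rw [key x hx h0, h0, add_zero]
  · have hk : γ (x + x0) = 0 := by
      apply key
      · intro χ hχ
        rw [map_add, hx χ hχ, hx0 χ hχ, add_zero]
      · rw [map_add, h0, hδ0]
        exact f2_add_self 1
    rw [map_add, hγ0] at hk
    rw [h0]
    exact hk

/-- basis extension. -/
theorem exists_basis_mod {G : Finset (Du V)} (hG : Indep G) (W : Finset (Du V)) :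
    ∃ B : Finset (Du V), B ⊆ W ∧ Disjoint B G ∧ Indep (G ∪ B) ∧ ∀ w ∈ W, InSp (G ∪ B) w := by
  induction W using Finset.induction_on with
  | empty =>
    refine ⟨∅, Finset.Subset.refl _, Finset.disjoint_empty_left _, ?_, ?_⟩
    · rwa [Finset.union_empty]
    · intro w hw
      exact absurd hw (Finset.notMem_empty w)
  | insert a W _ ih =>
    obtain ⟨B, hBW, hBG, hI, hsp⟩ := ih
    by_cases ha : InSp (G ∪ B) a
    · refine ⟨B, hBW.trans (Finset.subset_insert a W), hBG, hI, fun w hw => ?_⟩
      rcases Finset.mem_insert.1 hw with rfl | hw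
      · exact ha
      · exact hsp w hw
    · refine ⟨insert a B, Finset.insert_subset_insert a hBW, ?_, ?_, fun w hw => ?_⟩
      · rw [Finset.disjoint_insert_left]
        exact ⟨fun haG => ha (inSp_of_mem (Finset.mem_union_left _ haG)), hBG⟩
      · rw [Finset.union_insert]
        exact hI.insert ha
      · rcases Finset.mem_insert.1 hw with rfl | hw
        · exact inSp_of_mem (Finset.mem_union_right _ (Finset.mem_insert_self _ _))
        · exact (hsp w hw).mono
            (Finset.union_subset_union (Finset.Subset.refl _) (Finset.subset_insert a B))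

theorem dlin_first {G : Finset (Du V)} {γ : Du V} (h1 : ¬ InSp G γ) (W : Finset (Du V))
    (h2 : InSp (G ∪ W) γ) :
    ∃ B : Finset (Du V), B ⊆ W ∧ ∃ δ ∈ W, ¬ InSp (G ∪ B) γ ∧ InSp (insert δ (G ∪ B)) γ := by
  induction W using Finset.induction_on with
  | empty =>
    rw [Finset.union_empty] at h2
    exact absurd h2 h1
  | insert a W _ ih =>
    by_cases h : InSp (G ∪ W) γ
    · obtain ⟨B, hBW, δ, hδ, h3, h4⟩ := ih h
      exact ⟨B, hBW.trans (Finset.subset_insert a W), δ, Finset.mem_insert_of_mem hδ, h3, h4⟩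
    · refine ⟨W, Finset.subset_insert a W, a, Finset.mem_insert_self a W, h, ?_⟩
      rwa [Finset.union_insert] at h2

/-- an edge inside `W`. -/
theorem extract {G W : Finset (Du V)} {γ : Du V} (hG : Indep G) (h1 : ¬ InSp G γ)
    (h2 : InSp (G ∪ W) γ) :
    ∃ B : Finset (Du V), B ⊆ W ∧ γ ∉ B ∧ Disjoint (insert γ B) G ∧ Indep (G ∪ insert γ B) ∧
      ∃ δ ∈ W, InSp (G ∪ B) (γ + δ) := by
  obtain ⟨B1, hB1, δ, hδ, h3, h4⟩ := dlin_first h1 W h2
  obtain ⟨B, hB, hBG, hI, hsp⟩ := exists_basis_mod hG B1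
  have h5 : ¬ InSp (G ∪ B) γ := fun h =>
    h3 (h.mono (Finset.union_subset_union (Finset.Subset.refl _) hB))
  refine ⟨B, hB.trans hB1, fun h => h5 (inSp_of_mem (Finset.mem_union_right _ h)), ?_, ?_,
    δ, hδ, ?_⟩
  · rw [Finset.disjoint_insert_left]
    exact ⟨fun h => h5 (inSp_of_mem (Finset.mem_union_left _ h)), hBG⟩
  · rw [Finset.union_insert]
    exact hI.insert h5
  · refine InSp.trans (fun χ hχ => ?_) (inSp_add h3 h4)
    rcases Finset.mem_union.1 hχ with hχ | hχ
    · exact inSp_of_mem (Finset.mem_union_left _ hχ)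
    · exact hsp χ hχ

theorem img_le_star (S U : Finset (Du V)) : img S U ≤ (star S U).card := by
  unfold img
  refine le_trans (Finset.card_le_card ?_)
    (Finset.card_image_le (s := star S U)
      (f := fun χ : Du V => (χ.domRestrict (kerS U) : Du (kerS U))))
  intro b hb
  obtain ⟨hb0, hb1⟩ := Finset.mem_erase.1 hb
  obtain ⟨χ, hχ, rfl⟩ := Finset.mem_image.1 hb1
  refine Finset.mem_image.2 ⟨χ, mem_star.2 ⟨hχ, fun hin => hb0 ?_⟩, rfl⟩
  refine LinearMap.ext (fun x => ?_)
  exact hin x.1 x.2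

theorem img_le_card (S U : Finset (Du V)) : img S U ≤ S.card := by
  refine (img_le_star S U).trans (Finset.card_le_card ?_)
  intro χ hχ
  exact (mem_star.1 hχ).1

theorem dlin_fibres {α β : Type} [DecidableEq β] (f : α → β) (S P : Finset α) (hP : P ⊆ S)
    (h : ∀ a ∈ P, ∃ b ∈ S, b ≠ a ∧ f a = f b) :
    2 * (S.image f).card + P.card ≤ 2 * S.card := by
  have hS : S.card = ∑ b ∈ S.image f, (S.filter (fun a => f a = b)).card :=
    Finset.card_eq_sum_card_fiberwise (fun a ha => Finset.mem_image_of_mem f ha)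
  have hP' : P.card = ∑ b ∈ S.image f, (P.filter (fun a => f a = b)).card :=
    Finset.card_eq_sum_card_fiberwise (fun a ha => Finset.mem_image_of_mem f (hP ha))
  have h2 : 2 * (S.image f).card = ∑ _b ∈ S.image f, 2 := by
    rw [Finset.sum_const, smul_eq_mul, mul_comm]
  rw [hP', h2, hS, Finset.mul_sum, ← Finset.sum_add_distrib]
  refine Finset.sum_le_sum (fun b hb => ?_)
  obtain ⟨a0, ha0, hfa0⟩ := Finset.mem_image.1 hb
  have hpos : 0 < (S.filter (fun a => f a = b)).card :=
    Finset.card_pos.2 ⟨a0, Finset.mem_filter.2 ⟨ha0, hfa0⟩⟩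
  have hle : (P.filter (fun a => f a = b)).card ≤ (S.filter (fun a => f a = b)).card :=
    Finset.card_le_card (Finset.filter_subset_filter _ hP)
  rcases Nat.eq_zero_or_pos (P.filter (fun a => f a = b)).card with h0 | h0
  · omega
  · obtain ⟨a, ha⟩ := Finset.card_pos.1 h0
    obtain ⟨haP, hab⟩ := Finset.mem_filter.1 ha
    obtain ⟨a', ha', hne, hf⟩ := h a haP
    have h1 : 1 < (S.filter (fun a => f a = b)).card :=
      Finset.one_lt_card.2 ⟨a', Finset.mem_filter.2 ⟨ha', hf.symm.trans hab⟩, a,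
        Finset.mem_filter.2 ⟨hP haP, hab⟩, hne⟩
    omega

theorem img_add_folded (S U : Finset (Du V)) :
    2 * img S U + (folded S U).card ≤ 2 * S.card := by
  have h := dlin_fibres (fun χ : Du V => (χ.domRestrict (kerS U) : Du (kerS U))) S (folded S U)
    (fun χ hχ => (mem_folded.1 hχ).1) (by
      intro γ hγ
      obtain ⟨_, δ, hδ, hne, hin⟩ := mem_folded.1 hγ
      refine ⟨δ, hδ, hne, LinearMap.ext (fun x => ?_)⟩
      exact dlin_eq_of_add (hin x.1 x.2))
  have h1 : img S U ≤
      (S.image (fun χ : Du V => (χ.domRestrict (kerS U) : Du (kerS U)))).card :=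
    Finset.card_le_card (Finset.erase_subset _ _)
  omega

variable [Fintype V]

theorem halving {H : Finset (Du V)} {γ : Du V} (hγ : ¬ InSp H γ) (X : Finset V)
    (hX : ∀ x ∈ X, ∀ z : V, (∀ χ ∈ H, χ z = 0) → x + z ∈ X) (c : F2) :
    2 * (X.filter (fun x => γ x = c)).card = X.card := by
  obtain ⟨x0, hx0, hγ0⟩ := exists_of_not_inSp hγ
  have h1 : (X.filter (fun x => γ x = c)).card = (X.filter (fun x => ¬ γ x = c)).card := by
    refine Finset.card_nbij' (fun x => x + x0) (fun x => x + x0) ?_ ?_ ?_ ?_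
    · intro x hx
      obtain ⟨hx1, hx2⟩ := Finset.mem_filter.1 (Finset.mem_coe.1 hx)
      refine Finset.mem_coe.2 (Finset.mem_filter.2 ⟨hX x hx1 x0 hx0, ?_⟩)
      rw [map_add, hγ0]
      exact dlin_add_one_ne hx2
    · intro x hx
      obtain ⟨hx1, hx2⟩ := Finset.mem_filter.1 (Finset.mem_coe.1 hx)
      refine Finset.mem_coe.2 (Finset.mem_filter.2 ⟨hX x hx1 x0 hx0, ?_⟩)
      rw [map_add, hγ0]
      exact dlin_add_one hx2
    · intro x _
      show x + x0 + x0 = x
      rw [add_assoc, v_add_self, add_zero]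
    · intro x _
      show x + x0 + x0 = x
      rw [add_assoc, v_add_self, add_zero]
  have h2 := Finset.card_filter_add_card_filter_not (s := X) (fun x => γ x = c)
  omega

theorem dlin_kerF_insert (H : Finset (Du V)) (γ : Du V) :
    kerF (insert γ H) = (kerF H).filter (fun x => γ x = 0) := by
  ext x
  rw [Finset.mem_filter, mem_kerF, mem_kerF, Finset.forall_mem_insert, and_comm]

theorem dlin_oneF_insert (H : Finset (Du V)) (γ : Du V) :
    oneF (insert γ H) = (oneF H).filter (fun x => γ x = 1) := by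
  ext x
  rw [Finset.mem_filter, mem_oneF, mem_oneF, Finset.forall_mem_insert, and_comm]

theorem dlin_kerF_half {H : Finset (Du V)} {γ : Du V} (hγ : ¬ InSp H γ) :
    2 * (kerF (insert γ H)).card = (kerF H).card := by
  rw [dlin_kerF_insert]
  refine halving hγ (kerF H) (fun x hx z hz => mem_kerF.2 (fun χ hχ => ?_)) 0
  rw [map_add, mem_kerF.1 hx χ hχ, hz χ hχ, add_zero]

theorem card_oneF {H : Finset (Du V)} (h : Indep H) :
    (oneF H).card * 2 ^ H.card = Fintype.card V := by
  induction H using Finset.induction_on with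
  | empty =>
    have : oneF (∅ : Finset (Du V)) = Finset.univ := by
      ext x
      simp only [mem_oneF, Finset.notMem_empty, Finset.mem_univ, false_imp_iff, implies_true]
    rw [this, Finset.card_empty, pow_zero, mul_one, Finset.card_univ]
  | insert a H ha ih =>
    have hI := ih (h.mono (Finset.subset_insert a H))
    have hn : ¬ InSp H a := by
      intro hin
      refine h.not_inSp (Finset.mem_insert_self a H) (hin.mono (fun χ hχ => ?_))
      simp only [Finset.mem_erase, Finset.mem_insert]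
      exact ⟨fun he => ha (he ▸ hχ), Or.inr hχ⟩
    have hh : 2 * (oneF (insert a H)).card = (oneF H).card := by
      rw [dlin_oneF_insert]
      refine halving hn (oneF H) (fun x hx z hz => mem_oneF.2 (fun χ hχ => ?_)) 1
      rw [map_add, mem_oneF.1 hx χ hχ, hz χ hχ, add_zero]
    rw [Finset.card_insert_of_notMem ha, ← hI, ← hh, pow_succ]
    ring

theorem card_kerF_le (G I : Finset (Du V)) :
    (kerF G).card ≤ 2 ^ I.card * (kerF (G ∪ I)).card := by
  induction I using Finset.induction_on with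
  | empty => rw [Finset.union_empty, Finset.card_empty, pow_zero, one_mul]
  | insert a I ha ih =>
    have hh : (kerF (G ∪ I)).card ≤ 2 * (kerF (insert a (G ∪ I))).card := by
      by_cases hin : InSp (G ∪ I) a
      · have : (kerF (G ∪ I)).card ≤ (kerF (insert a (G ∪ I))).card := by
          refine Finset.card_le_card (fun x hx => mem_kerF.2 (fun χ hχ => ?_))
          rcases Finset.mem_insert.1 hχ with rfl | hχ
          · exact hin x (mem_kerF.1 hx)
          · exact mem_kerF.1 hx χ hχ
        omega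
      · exact (dlin_kerF_half hin).ge
    rw [Finset.union_insert, Finset.card_insert_of_notMem ha, pow_succ, mul_assoc]
    exact ih.trans (Nat.mul_le_mul_left _ hh)

theorem card_le_kerS (U : Finset (Du V)) :
    Fintype.card V ≤ 2 ^ U.card * Fintype.card (kerS U) := by
  have h := card_kerF_le (∅ : Finset (Du V)) U
  have h1 : kerF (∅ : Finset (Du V)) = Finset.univ := by
    ext x
    simp only [mem_kerF, Finset.notMem_empty, Finset.mem_univ, false_imp_iff, implies_true]
  have h2 : Fintype.card (kerS U) = (kerF U).card :=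
    Fintype.card_of_subtype (kerF U) (fun x => mem_kerF.trans mem_kerS.symm)
  rw [h1, Finset.card_univ, Finset.empty_union] at h
  rw [h2]
  exact h

theorem dlin_coloop_card (G X C : Finset (Du V))
    (hC : ∀ γ ∈ C, γ ∈ X ∧ ¬ InSp (G ∪ X.erase γ) γ) :
    2 ^ C.card * (kerF (G ∪ C)).card = (kerF G).card := by
  induction C using Finset.induction_on with
  | empty => rw [Finset.union_empty, Finset.card_empty, pow_zero, one_mul]
  | insert a C ha ih =>
    have hI := ih (fun γ hγ => hC γ (Finset.mem_insert_of_mem hγ))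
    have hn : ¬ InSp (G ∪ C) a := by
      intro hin
      refine (hC a (Finset.mem_insert_self a C)).2 (hin.mono ?_)
      refine Finset.union_subset_union (Finset.Subset.refl _) (fun γ hγ => ?_)
      refine Finset.mem_erase.2 ⟨fun he => ha (he ▸ hγ), (hC γ (Finset.mem_insert_of_mem hγ)).1⟩
    rw [Finset.union_insert, Finset.card_insert_of_notMem ha, pow_succ, mul_assoc,
      dlin_kerF_half hn, hI]

/-- coloop bound. -/
theorem coloops_le (G I X : Finset (Du V)) (hX : ∀ γ ∈ X, InSp (G ∪ I) γ) :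
    (X.filter (fun γ => ¬ InSp (G ∪ X.erase γ) γ)).card ≤ I.card := by
  set C := X.filter (fun γ => ¬ InSp (G ∪ X.erase γ) γ) with hCdef
  have hC : ∀ γ ∈ C, γ ∈ X ∧ ¬ InSp (G ∪ X.erase γ) γ := fun γ hγ => Finset.mem_filter.1 hγ
  have h1 := dlin_coloop_card G X C hC
  have h2 := card_kerF_le G I
  have h3 : (kerF (G ∪ I)).card ≤ (kerF (G ∪ C)).card := by
    refine Finset.card_le_card (fun x hx => mem_kerF.2 (fun χ hχ => ?_))
    rcases Finset.mem_union.1 hχ with hχ | hχ
    · exact mem_kerF.1 hx χ (Finset.mem_union_left _ hχ)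
    · exact hX χ (hC χ hχ).1 x (mem_kerF.1 hx)
  have h4 : 0 < (kerF (G ∪ C)).card :=
    Finset.card_pos.2 ⟨0, mem_kerF.2 (fun χ _ => map_zero χ)⟩
  have h5 : 2 ^ C.card * (kerF (G ∪ C)).card ≤ 2 ^ I.card * (kerF (G ∪ C)).card := by
    rw [h1]
    exact h2.trans (Nat.mul_le_mul_left _ h3)
  have h6 : 2 ^ C.card ≤ 2 ^ I.card := Nat.le_of_mul_le_mul_right h5 h4
  exact (Nat.pow_le_pow_iff_right (by norm_num)).1 h6

end Pool.Agent.P.MP_85fe51_lc.DA
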