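import Mathlib
import Pool.Agent.P.MP_85fe51_lc.DLin

set_option autoImplicit false

namespace Pool.Agent.P.MP_85fe51_lc.DA

open Finset
open scoped Classical

theorem dcs_norm_one {m : ℕ} (hm : Odd m) {z : ℂ} (hz : z ^ m = 1) : ‖z‖ = 1 :=
  Complex.norm_eq_one_of_pow_eq_one hz hm.pos.ne'

theorem dcs_lt_two {z : ℂ} (h1 : ‖z‖ = 1) (hz : z ≠ 1) : ‖1 + z‖ < 2 := by
  have e1 : z.re ^ 2 + z.im ^ 2 = 1 := by
    have := Complex.sq_norm z
    rw [h1, Complex.normSq_apply] at this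
    nlinarith
  have e2 : ‖1 + z‖ ^ 2 = 2 + 2 * z.re := by
    rw [Complex.sq_norm, Complex.normSq_apply]
    simp only [Complex.add_re, Complex.one_re, Complex.add_im, Complex.one_im]
    nlinarith
  have e3 : z.re < 1 := by
    by_contra hc
    push Not at hc
    have h2 : z.re = 1 := by nlinarith [sq_nonneg z.im]
    have h3 : z.im = 0 := by
      rw [h2] at e1
      nlinarith [sq_nonneg z.im]
    exact hz (Complex.ext (by simpa using h2) (by simpa using h3))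
  nlinarith [norm_nonneg (1 + z)]

theorem dcs_max {α : Type} (f : α → ℝ) (R : Finset α) :
    (∀ z ∈ R, f z < 1) → ∃ g : ℝ, 0 ≤ g ∧ g < 1 ∧ ∀ z ∈ R, f z ≤ g := by
  induction R using Finset.induction_on with
  | empty => intro _; exact ⟨0, le_rfl, one_pos, by simp⟩
  | insert a s ha ih =>
    intro h
    obtain ⟨g, h0, h1, h2⟩ := ih fun z hz => h z (mem_insert_of_mem hz)
    refine ⟨max g (f a), le_max_of_le_left h0, max_lt h1 (h a (mem_insert_self _ _)), ?_⟩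
    intro z hz
    rcases mem_insert.1 hz with rfl | hz
    · exact le_max_right _ _
    · exact le_max_of_le_left (h2 z hz)

theorem exists_gap {m : ℕ} (hm : Odd m) :
    ∃ (E0 : ℕ) (g : ℝ), 0 ≤ g ∧ g ≤ 1 ∧ g ^ E0 ≤ 1 / 2 ∧
      ∀ z : ℂ, z ^ m = 1 → z ≠ 1 → ‖1 + z‖ ≤ 2 * g := by
  obtain ⟨g, h0, h1, h2⟩ := dcs_max (fun z : ℂ => ‖1 + z‖ / 2)
    ((Polynomial.nthRootsFinset m (1 : ℂ)).erase 1) (fun z hz => by
      obtain ⟨a, b⟩ := mem_erase.1 hz
      have := dcs_lt_two (dcs_norm_one hm ((Polynomial.mem_nthRootsFinset hm.pos _).1 b)) a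
      linarith)
  obtain ⟨E0, hE⟩ := exists_pow_lt_of_lt_one (show (0 : ℝ) < 1 / 2 by norm_num) h1
  refine ⟨E0, g, h0, h1.le, hE.le, fun z hz hz1 => ?_⟩
  have := h2 z (mem_erase.2 ⟨hz1, (Polynomial.mem_nthRootsFinset hm.pos _).2 hz⟩)
  linarith

variable {V : Type} [AddCommGroup V] [Module F2 V] [Fintype V]

omit [Fintype V] in
theorem dcs_norm_Phi {m : ℕ} (hm : Odd m) {S : Finset (Du V)} {ζ : Du V → ℂ}
    (hζ : Roots m S ζ) (x : V) : ‖Phi S ζ x‖ = 1 := by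
  unfold Phi
  rw [norm_prod]
  refine prod_eq_one fun χ hχ => ?_
  split_ifs
  · exact dcs_norm_one hm (hζ χ hχ).1
  · exact norm_one

theorem dcs_split {T : Finset (Du V)} {γ : Du V} (hγ : γ ∈ T) (h : ¬ InSp (T.erase γ) γ)
    (ζ : Du V → ℂ) :
    2 * ∑ x : V, Phi T ζ x = (1 + ζ γ) * ∑ x : V, Phi (T.erase γ) ζ x := by
  obtain ⟨x0, h0, h1⟩ := exists_of_not_inSp h
  have e1 : ∀ x, Phi T ζ x = (if γ x = 1 then ζ γ else 1) * Phi (T.erase γ) ζ x := fun x =>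
    (mul_prod_erase T (fun χ : Du V => if χ x = 1 then ζ χ else 1) hγ).symm
  have e2 : ∀ x, Phi (T.erase γ) ζ (x + x0) = Phi (T.erase γ) ζ x := fun x =>
    prod_congr rfl fun χ hχ => by rw [map_add, h0 χ hχ, add_zero]
  have e3 : ∑ x : V, Phi T ζ x = ∑ x : V, Phi T ζ (x + x0) :=
    (Equiv.sum_comp (Equiv.addRight x0) (Phi T ζ)).symm
  rw [two_mul, mul_sum]
  nth_rewrite 2 [e3]
  rw [← sum_add_distrib]
  refine sum_congr rfl fun x _ => ?_
  rw [e1 x, e1 (x + x0), e2, map_add, h1, ← add_mul]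
  congr 1
  rcases f2_cases (γ x) with e | e
  · rw [e, zero_add, if_neg zero_ne_one, if_pos rfl]
  · rw [e, f2_add_self, if_neg zero_ne_one, if_pos rfl, add_comm]

theorem dcs_gen {m : ℕ} (hm : Odd m) {g : ℝ} (hg0 : 0 ≤ g)
    (hg : ∀ z : ℂ, z ^ m = 1 → z ≠ 1 → ‖1 + z‖ ≤ 2 * g) (ζ : Du V → ℂ) (C : Finset (Du V)) :
    ∀ T : Finset (Du V), C ⊆ T → (∀ γ ∈ C, ¬ InSp (T.erase γ) γ) → Roots m T ζ →
      ‖∑ x : V, Phi T ζ x‖ ≤ g ^ C.card * Fintype.card V := by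
  induction C using Finset.induction_on with
  | empty =>
    intro T _ _ hζ
    refine (norm_sum_le _ _).trans (le_of_eq ?_)
    simp [dcs_norm_Phi hm hζ]
  | insert γ C hγ ih =>
    intro T hT hC hζ
    have hγT : γ ∈ T := hT (mem_insert_self _ _)
    have h1 := ih (T.erase γ)
      (fun δ hδ => mem_erase.2 ⟨fun e => hγ (e ▸ hδ), hT (mem_insert_of_mem hδ)⟩)
      (fun δ hδ hs => hC δ (mem_insert_of_mem hδ)
        (hs.mono (erase_subset_erase δ (erase_subset γ T))))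
      (fun χ hχ => hζ χ (mem_of_mem_erase hχ))
    have h2 := congrArg norm (dcs_split hγT (hC γ (mem_insert_self _ _)) ζ)
    rw [norm_mul, norm_mul, Complex.norm_two] at h2
    have h3 := mul_le_mul (hg _ (hζ γ hγT).1 (hζ γ hγT).2) h1 (norm_nonneg _) (by positivity)
    rw [card_insert_of_notMem hγ, pow_succ]
    nlinarith

theorem norm_sum_Phi_le {m : ℕ} (hm : Odd m) {g : ℝ} (hg0 : 0 ≤ g)
    (hg : ∀ z : ℂ, z ^ m = 1 → z ≠ 1 → ‖1 + z‖ ≤ 2 * g)
    (S : Finset (Du V)) (ζ : Du V → ℂ) (hζ : Roots m S ζ) :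
    ‖∑ x : V, Phi S ζ x‖ ≤ g ^ col S * Fintype.card V :=
  dcs_gen hm hg0 hg ζ _ S (filter_subset _ _)
    (fun _ hγ hs => (mem_filter.1 hγ).2 (hs.mono fun χ hχ => by simpa using hχ)) hζ

omit [Module F2 V] in
theorem dcs_sq (f : V → ℂ) :
    ‖∑ x, f x‖ ^ 2 ≤ ∑ y : V, ‖∑ x : V, f (x + y) * (starRingEnd ℂ) (f x)‖ := by
  have e : (∑ x, f x) * (starRingEnd ℂ) (∑ x, f x) =
      ∑ y : V, ∑ x : V, f (x + y) * (starRingEnd ℂ) (f x) := by
    rw [map_sum, mul_sum, sum_comm]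
    refine sum_congr rfl fun x _ => ?_
    rw [← sum_mul]
    congr 1
    exact (Equiv.sum_comp (Equiv.addLeft x) f).symm
  calc ‖∑ x, f x‖ ^ 2 = ‖(∑ x, f x) * (starRingEnd ℂ) (∑ x, f x)‖ := by
        rw [norm_mul, Complex.norm_conj, sq]
    _ ≤ _ := by rw [e]; exact norm_sum_le _ _

theorem dcs_sg (a b : F2) : sg a * (starRingEnd ℂ) (sg b) = sg (a + b) := by
  unfold sg
  rcases f2_cases a with rfl | rfl <;> rcases f2_cases b with rfl | rfl
  · simp
  · simp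
  · simp
  · rw [f2_add_self]; simp

omit [Fintype V] in
theorem dcs_Phi {m : ℕ} (hm : Odd m) {S : Finset (Du V)} {ζ : Du V → ℂ} (hζ : Roots m S ζ)
    (x y : V) :
    Phi S ζ (x + y) * (starRingEnd ℂ) (Phi S ζ x) =
      (∏ χ ∈ S.filter (fun χ : Du V => χ y = 1), ζ χ) *
        Phi (S.filter (fun χ : Du V => χ y = 1)) (fun χ => (starRingEnd ℂ) (ζ χ) ^ 2) x := by
  unfold Phi
  rw [map_prod, ← prod_mul_distrib, ← prod_mul_distrib, prod_filter]
  refine prod_congr rfl fun χ hχ => ?_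
  have h1 : ζ χ * (starRingEnd ℂ) (ζ χ) = 1 := by
    rw [Complex.mul_conj, Complex.normSq_eq_norm_sq, dcs_norm_one hm (hζ χ hχ).1]
    simp
  rw [map_add]
  rcases f2_cases (χ x) with a | a <;> rcases f2_cases (χ y) with b | b <;> rw [a, b]
  · simp
  · simp
  · simp [h1]
  · rw [f2_add_self, if_neg zero_ne_one, if_pos rfl, if_pos rfl, if_pos rfl]
    beta_reduce
    rw [sq, ← mul_assoc, h1]

omit [Fintype V] in
theorem dcs_roots {m : ℕ} (hm : Odd m) {S : Finset (Du V)} {ζ : Du V → ℂ} (hζ : Roots m S ζ)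
    (y : V) :
    Roots m (S.filter (fun χ : Du V => χ y = 1)) (fun χ => (starRingEnd ℂ) (ζ χ) ^ 2) := by
  intro χ hχ
  obtain ⟨h1, h2⟩ := hζ χ (mem_filter.1 hχ).1
  refine ⟨?_, fun e => h2 ?_⟩
  · rw [← pow_mul, mul_comm, pow_mul, ← map_pow, h1, map_one, one_pow]
  · have e2 : ζ χ ^ 2 = 1 := by
      have := congrArg (starRingEnd ℂ) e
      simpa using this
    obtain ⟨j, rfl⟩ := hm
    rwa [pow_succ, pow_mul, e2, one_pow, one_mul] at h1

theorem dcs_step {m : ℕ} (hm : Odd m) (h : V → F2) {S : Finset (Du V)} {ζ : Du V → ℂ}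
    (hζ : Roots m S ζ) :
    bias h S ζ ^ 2 ≤ ∑ y : V, bias (fun x => h (x + y) + h x)
      (S.filter (fun χ : Du V => χ y = 1)) (fun χ => (starRingEnd ℂ) (ζ χ) ^ 2) := by
  unfold bias
  refine (dcs_sq _).trans (le_of_eq (sum_congr rfl fun y _ => ?_))
  have hu : ‖∏ χ ∈ S.filter (fun χ : Du V => χ y = 1), ζ χ‖ = 1 := by
    rw [norm_prod]
    exact prod_eq_one fun χ hχ => dcs_norm_one hm (hζ χ (mem_filter.1 hχ).1).1
  rw [← one_mul ‖∑ x : V, sg (h (x + y) + h x) * _‖, ← hu, ← norm_mul, mul_sum]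
  congr 1
  refine sum_congr rfl fun x _ => ?_
  rw [map_mul, mul_mul_mul_comm, dcs_sg, dcs_Phi hm hζ]
  ring

omit [Fintype V] in
theorem dcs_Aset (S : Finset (Du V)) (k : ℕ) (y0 : V) (y : Fin k → V) :
    Aset (S.filter (fun χ : Du V => χ y0 = 1)) k y =
      Aset S (k + 1) (Fin.cons y0 y : Fin (k + 1) → V) := by
  ext χ
  rw [mem_Aset, mem_Aset, mem_filter, Fin.forall_fin_succ]
  simp only [Fin.cons_zero, Fin.cons_succ, Fin.val_zero, Fin.val_succ, Nat.add_lt_add_iff_right,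
    Nat.zero_lt_succ, forall_const, and_assoc]

theorem cs_bound {m : ℕ} (hm : Odd m) {g : ℝ} (hg0 : 0 ≤ g)
    (hg : ∀ z : ℂ, z ^ m = 1 → z ≠ 1 → ‖1 + z‖ ≤ 2 * g) (k : ℕ) :
    ∀ (h : V → F2) (S : Finset (Du V)) (ζ : Du V → ℂ), degLt k h → Roots m S ζ →
      (bias h S ζ / Fintype.card V) ^ (2 ^ k) ≤
        (∑ y : Fin k → V, g ^ col (Aset S k y)) / (Fintype.card V : ℝ) ^ k := by
  have hN : (0 : ℝ) < Fintype.card V := by exact_mod_cast Fintype.card_pos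
  induction k with
  | zero =>
    intro h S ζ hh hζ
    have e1 : bias h S ζ = ‖∑ x : V, Phi S ζ x‖ := by
      unfold bias
      congr 1
      refine sum_congr rfl fun x _ => ?_
      rw [hh x, sg, if_neg zero_ne_one, one_mul]
    have e2 : ∀ y : Fin 0 → V, Aset S 0 y = S := fun y => by
      ext χ
      rw [mem_Aset]
      simp
    simp only [e2, pow_zero, pow_one, div_one, univ_unique, sum_const, card_singleton, one_smul]
    rw [div_le_iff₀ hN, e1]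
    exact norm_sum_Phi_le hm hg0 hg S ζ hζ
  | succ k ih =>
    intro h S ζ hh hζ
    set b : V → ℝ := fun y => bias (fun x => h (x + y) + h x)
      (S.filter (fun χ : Du V => χ y = 1)) (fun χ => (starRingEnd ℂ) (ζ χ) ^ 2) /
        Fintype.card V with hb
    have hb0 : ∀ y, 0 ≤ b y := fun y => div_nonneg (norm_nonneg _) hN.le
    have h1 : (bias h S ζ / Fintype.card V) ^ 2 ≤ ∑ y : V, (1 / Fintype.card V : ℝ) * b y := by
      rw [← mul_sum, hb, ← sum_div, div_pow, one_div_mul_eq_div, div_div, ← sq]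
      exact div_le_div_of_nonneg_right (dcs_step hm h hζ) (by positivity)
    have h2 := Real.pow_arith_mean_le_arith_mean_pow univ (fun _ : V => (1 / Fintype.card V : ℝ)) b
      (fun _ _ => by positivity) (by simp [hN.ne']) (fun y _ => hb0 y) (2 ^ k)
    have h3 : ∀ y0 : V, b y0 ^ 2 ^ k ≤
        (∑ y : Fin k → V, g ^ col (Aset S (k + 1) (Fin.cons y0 y : Fin (k + 1) → V))) /
          (Fintype.card V : ℝ) ^ k := fun y0 => by
      have := ih _ _ _ (hh y0) (dcs_roots hm hζ y0)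
      simpa only [dcs_Aset] using this
    have h4 : ∑ y : Fin (k + 1) → V, g ^ col (Aset S (k + 1) y) =
        ∑ y0 : V, ∑ y : Fin k → V, g ^ col (Aset S (k + 1) (Fin.cons y0 y : Fin (k + 1) → V)) := by
      rw [← Fintype.sum_prod_type', ← Equiv.sum_comp (Fin.consEquiv fun _ : Fin (k + 1) => V)]
      rfl
    calc (bias h S ζ / Fintype.card V) ^ 2 ^ (k + 1)
        = ((bias h S ζ / Fintype.card V) ^ 2) ^ 2 ^ k := by rw [← pow_mul, pow_succ']
      _ ≤ (∑ y : V, (1 / Fintype.card V : ℝ) * b y) ^ 2 ^ k :=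
          pow_le_pow_left₀ (sq_nonneg _) h1 _
      _ ≤ ∑ y : V, (1 / Fintype.card V : ℝ) * b y ^ 2 ^ k := h2
      _ ≤ ∑ y0 : V, (1 / Fintype.card V : ℝ) *
          ((∑ y : Fin k → V, g ^ col (Aset S (k + 1) (Fin.cons y0 y : Fin (k + 1) → V))) /
            (Fintype.card V : ℝ) ^ k) :=
          sum_le_sum fun y _ => mul_le_mul_of_nonneg_left (h3 y) (by positivity)
      _ = _ := by
          rw [← mul_sum, ← sum_div, h4, one_div_mul_eq_div, div_div, pow_succ]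

theorem bad_dense {m : ℕ} (hm : Odd m) {g : ℝ} {E0 : ℕ} (hg0 : 0 ≤ g) (hg1 : g ≤ 1)
    (hE : g ^ E0 ≤ 1 / 2) (hg : ∀ z : ℂ, z ^ m = 1 → z ≠ 1 → ‖1 + z‖ ≤ 2 * g)
    (k D : ℕ) (h : V → F2) (S : Finset (Du V)) (ζ : Du V → ℂ) (hh : degLt k h)
    (hζ : Roots m S ζ) (hb : (Fintype.card V : ℝ) ≤ 2 ^ D * bias h S ζ) :
    Fintype.card V ^ k ≤ 2 ^ (D * 2 ^ k + 1) *
      (univ.filter (fun y : Fin k → V => col (Aset S k y) < E0 * (D * 2 ^ k + 1))).card := by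
  have hN : (0 : ℝ) < Fintype.card V := by exact_mod_cast Fintype.card_pos
  have h1 := cs_bound hm hg0 hg k h S ζ hh hζ
  have h2 : (1 / 2 : ℝ) ^ D ≤ bias h S ζ / Fintype.card V := by
    rw [le_div_iff₀ hN, one_div, inv_pow, inv_mul_le_iff₀ (by positivity)]
    exact hb
  have h3 : (1 / 2 : ℝ) ^ (D * 2 ^ k) ≤ (bias h S ζ / Fintype.card V) ^ 2 ^ k := by
    rw [pow_mul]
    exact pow_le_pow_left₀ (by positivity) h2 _
  have h4 : ∑ y : Fin k → V, g ^ col (Aset S k y) ≤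
      ∑ y : Fin k → V, ((if col (Aset S k y) < E0 * (D * 2 ^ k + 1) then (1 : ℝ) else 0) +
        (1 / 2 : ℝ) ^ (D * 2 ^ k + 1)) := by
    refine sum_le_sum fun y _ => ?_
    split_ifs with hy
    · exact le_add_of_le_of_nonneg (pow_le_one₀ hg0 hg1) (by positivity)
    · rw [zero_add]
      refine (pow_le_pow_of_le_one hg0 hg1 (not_lt.1 hy)).trans ?_
      rw [pow_mul]
      exact pow_le_pow_left₀ (by positivity) hE _
  rw [sum_add_distrib, sum_boole, sum_const, card_univ, Fintype.card_fun, Fintype.card_fin,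
    nsmul_eq_mul, Nat.cast_pow] at h4
  have h5 := (le_div_iff₀ (pow_pos hN k)).1 (h3.trans h1)
  have h6 : (2 : ℝ) ^ (D * 2 ^ k + 1) * (1 / 2 : ℝ) ^ (D * 2 ^ k + 1) = 1 := by
    rw [← mul_pow]; norm_num
  have h7 : (1 / 2 : ℝ) ^ (D * 2 ^ k) = 2 * (1 / 2 : ℝ) ^ (D * 2 ^ k + 1) := by
    rw [pow_succ]; ring
  rw [h7] at h5
  have h8 : (0 : ℝ) < 2 ^ (D * 2 ^ k + 1) := by positivity
  have h9 := mul_le_mul_of_nonneg_left (h5.trans h4) h8.le
  have h10 : (Fintype.card V : ℝ) ^ k ≤ 2 ^ (D * 2 ^ k + 1) *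
      ((univ.filter (fun y : Fin k → V => col (Aset S k y) < E0 * (D * 2 ^ k + 1))).card : ℝ) := by
    generalize (1 / 2 : ℝ) ^ (D * 2 ^ k + 1) = a at h6 h9
    generalize (2 : ℝ) ^ (D * 2 ^ k + 1) = A at h6 h9 ⊢
    have e1 : A * (2 * a * (Fintype.card V : ℝ) ^ k) = 2 * (Fintype.card V : ℝ) ^ k := by
      rw [show A * (2 * a * (Fintype.card V : ℝ) ^ k) = 2 * (A * a) * (Fintype.card V : ℝ) ^ k by
        ring, h6, mul_one]
    have e2 : A * ((Fintype.card V : ℝ) ^ k * a) = (Fintype.card V : ℝ) ^ k := by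
      rw [show A * ((Fintype.card V : ℝ) ^ k * a) = (A * a) * (Fintype.card V : ℝ) ^ k by
        ring, h6, one_mul]
    rw [e1, mul_add, e2] at h9
    linarith
  exact_mod_cast h10

end Pool.Agent.P.MP_85fe51_lc.DA
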