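import Mathlib
import Pool.Agent.P.MP_85fe51_lc.DLin

set_option autoImplicit false

namespace Pool.Agent.P.MP_85fe51_lc.DA

open Finset
open scoped Classical

variable {V : Type} [AddCommGroup V] [Module F2 V]

theorem ddeg_congr {d : ℕ} {f g : V → F2} (h : ∀ x, f x = g x) (hf : degLt d f) : degLt d g := by
  have e : f = g := funext h
  rw [← e]
  exact hf

theorem degLt_zero_fun (d : ℕ) : degLt d (fun _ : V => (0 : F2)) := by
  induction d with
  | zero => intro x; rfl
  | succ d ih =>
    intro y
    exact ddeg_congr (fun _ => (add_zero (0 : F2)).symm) ih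

theorem degLt_const (c : F2) : degLt 1 (fun _ : V => c) := by
  intro y x
  exact f2_add_self c

theorem degLt_form (χ : Du V) (c : F2) : degLt 2 (fun x : V => χ x + c) := by
  intro y
  refine ddeg_congr (fun x => ?_) (degLt_const (χ y))
  have h1 := f2_add_self (χ x)
  have h2 := f2_add_self c
  show χ y = χ (x + y) + c + (χ x + c)
  rw [map_add]
  linear_combination -h1 - h2

theorem ddeg_succ {d : ℕ} {h : V → F2} (hh : degLt d h) : degLt (d + 1) h := by
  induction d generalizing h with
  | zero =>
    intro y x
    show h (x + y) + h x = 0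
    rw [hh (x + y), hh x, add_zero]
  | succ d ih =>
    intro y
    exact ih (hh y)

theorem degLt_of_le {d e : ℕ} (hde : d ≤ e) {h : V → F2} (hh : degLt d h) : degLt e h := by
  induction hde with
  | refl => exact hh
  | step _ ih => exact ddeg_succ ih

theorem degLt_add {d : ℕ} {f g : V → F2} (hf : degLt d f) (hg : degLt d g) :
    degLt d (fun x => f x + g x) := by
  induction d generalizing f g with
  | zero =>
    intro x
    show f x + g x = 0
    rw [hf x, hg x, add_zero]
  | succ d ih =>
    intro y
    refine ddeg_congr (fun x => ?_) (ih (hf y) (hg y))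
    show f (x + y) + f x + (g (x + y) + g x) = f (x + y) + g (x + y) + (f x + g x)
    ring

theorem degLt_shift {d : ℕ} {f : V → F2} (hf : degLt d f) (z : V) :
    degLt d (fun x => f (x + z)) := by
  induction d generalizing f with
  | zero =>
    intro x
    exact hf (x + z)
  | succ d ih =>
    intro y
    refine ddeg_congr (fun x => ?_) (ih (hf y))
    show f (x + z + y) + f (x + z) = f (x + y + z) + f (x + z)
    rw [add_right_comm x z y]

theorem ddeg_mul (n : ℕ) : ∀ (a b : ℕ) (f g : V → F2), a + b = n → degLt a f → degLt b g →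
    degLt n (fun x => f x * g x) := by
  induction n with
  | zero =>
    intro a b f g hab hf _
    have ha : a = 0 := by omega
    subst ha
    intro x
    show f x * g x = 0
    rw [hf x, zero_mul]
  | succ n ih =>
    intro a b f g hab hf hg
    cases a with
    | zero =>
      refine ddeg_congr (fun x => ?_) (degLt_zero_fun (n + 1))
      show (0 : F2) = f x * g x
      rw [hf x, zero_mul]
    | succ a =>
      cases b with
      | zero =>
        refine ddeg_congr (fun x => ?_) (degLt_zero_fun (n + 1))
        show (0 : F2) = f x * g x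
        rw [hg x, mul_zero]
      | succ b =>
        intro y
        have h1 := ih a (b + 1) _ _ (by omega) (hf y) (degLt_shift hg y)
        have h2 := ih (a + 1) b _ _ (by omega) hf (hg y)
        refine ddeg_congr (fun x => ?_) (degLt_add h1 h2)
        have h3 := f2_add_self (f x * g (x + y))
        show (f (x + y) + f x) * g (x + y) + f x * (g (x + y) + g x)
          = f (x + y) * g (x + y) + f x * g x
        linear_combination h3

theorem degLt_mul {a b : ℕ} {f g : V → F2} (hf : degLt a f) (hg : degLt b g) :
    degLt (a + b) (fun x => f x * g x) := by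
  exact ddeg_mul (a + b) a b f g rfl hf hg

theorem degLt_comp {W : Type} [AddCommGroup W] [Module F2 W] (φ : W →ₗ[F2] V) {d : ℕ}
    {f : V → F2} (hf : degLt d f) : degLt d (fun w => f (φ w)) := by
  induction d generalizing f with
  | zero =>
    intro x
    exact hf (φ x)
  | succ d ih =>
    intro y
    refine ddeg_congr (fun x => ?_) (ih (hf (φ y)))
    show f (φ x + φ y) + f (φ x) = f (φ (x + y)) + f (φ x)
    rw [map_add]

theorem rm_dense [Fintype V] {d : ℕ} {h : V → F2} (hh : degLt d h) (x0 : V) (h0 : h x0 = 1) :
    Fintype.card V ≤ 2 ^ d * (univ.filter (fun x => h x = 1)).card := by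
  induction d generalizing h x0 with
  | zero =>
    have e := hh x0
    rw [h0] at e
    exact absurd e one_ne_zero
  | succ d ih =>
    by_cases hex : ∃ y x1 : V, h (x1 + y) + h x1 = 1
    · obtain ⟨y, x1, hx1⟩ := hex
      have h1 := ih (hh y) x1 hx1
      have hsub : univ.filter (fun x => h (x + y) + h x = 1) ⊆
          univ.filter (fun x => h x = 1) ∪
            (univ.filter (fun x => h x = 1)).image (fun x => x - y) := by
        intro x hx
        rw [mem_filter] at hx
        rw [mem_union]
        rcases f2_cases (h x) with e | e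
        · right
          rw [mem_image]
          refine ⟨x + y, ?_, add_sub_cancel_right x y⟩
          rw [mem_filter]
          refine ⟨mem_univ _, ?_⟩
          have e2 := hx.2
          rwa [e, add_zero] at e2
        · left
          rw [mem_filter]
          exact ⟨mem_univ _, e⟩
      have h2 := (card_le_card hsub).trans (card_union_le _ _)
      have h3 : ((univ.filter (fun x => h x = 1)).image (fun x => x - y)).card ≤
          (univ.filter (fun x => h x = 1)).card := card_image_le
      have h4 : (univ.filter (fun x => h (x + y) + h x = 1)).card ≤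
          2 * (univ.filter (fun x => h x = 1)).card := by omega
      calc Fintype.card V ≤ 2 ^ d * (univ.filter (fun x => h (x + y) + h x = 1)).card := h1
        _ ≤ 2 ^ d * (2 * (univ.filter (fun x => h x = 1)).card) := Nat.mul_le_mul_left _ h4
        _ = 2 ^ (d + 1) * (univ.filter (fun x => h x = 1)).card := by ring
    · have hall : ∀ x, h x = 1 := by
        intro x
        rcases f2_cases (h x) with e | e
        · exfalso
          apply hex
          refine ⟨x - x0, x0, ?_⟩
          rw [add_sub_cancel, e, h0, zero_add]
        · exact e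
      have e : univ.filter (fun x => h x = 1) = univ := by
        ext x
        simp only [mem_filter, mem_univ, true_and, hall x]
      rw [e, card_univ]
      exact Nat.le_mul_of_pos_left _ (by positivity)

theorem prog_nil {G : Type} [Group G] (x : V) : prog ([] : List (Du V × G × G)) x = 1 := by
  simp only [prog, List.map_nil, List.prod_nil]

theorem prog_snoc {G : Type} [Group G] (l : List (Du V × G × G)) (p : Du V × G × G) (x : V) :
    prog (l ++ [p]) x = prog l x * (if p.1 x = 1 then p.2.1 else p.2.2) := by
  simp only [prog, List.map_append, List.prod_append, List.map_cons, List.map_nil,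
    List.prod_cons, List.prod_nil, mul_one]

theorem prog_map {G H : Type} [Group G] [Group H] (φ : G →* H) (l : List (Du V × G × G)) (x : V) :
    prog (l.map (fun p => (p.1, φ p.2.1, φ p.2.2))) x = φ (prog l x) := by
  induction l using List.reverseRecOn with
  | nil => rw [List.map_nil, prog_nil, prog_nil, map_one]
  | append_singleton l p ih =>
    rw [List.map_append, List.map_singleton, prog_snoc, prog_snoc, ih, map_mul]
    congr 1
    by_cases e : p.1 x = 1
    · simp only [e, if_true]
    · simp only [e, if_false]

theorem ddeg_sub {H : Type} [Group H] (z : H) (hz2 : z * z = 1) (hc : ∀ g, g * z = z * g) :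
    ∃ N : Subgroup H, N.Normal ∧ ∀ h, h ∈ N ↔ h = 1 ∨ h = z := by
  refine ⟨{ carrier := {h | h = 1 ∨ h = z}, mul_mem' := ?_, one_mem' := ?_, inv_mem' := ?_ },
    ⟨?_⟩, fun h => Iff.rfl⟩
  · intro a b ha hb
    rcases ha with ha | ha <;> rcases hb with hb | hb
    · left; rw [ha, hb, one_mul]
    · right; rw [ha, hb, one_mul]
    · right; rw [ha, hb, mul_one]
    · left; rw [ha, hb, hz2]
  · left; rfl
  · intro a ha
    rcases ha with ha | ha
    · left; rw [ha, inv_one]
    · right; rw [ha]; exact inv_eq_of_mul_eq_one_right hz2
  · intro a ha g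
    rcases ha with ha | ha
    · left; rw [ha, mul_one, mul_inv_cancel]
    · right; rw [ha, hc g, mul_assoc, mul_inv_cancel, mul_one]

theorem ddeg_step {H Q : Type} [Group H] [Group Q] (π : H →* Q) (s : Q → H) (z : H)
    (hs : ∀ q, π (s q) = q) (hker : ∀ h, π h = 1 ↔ h = 1 ∨ h = z) (hz1 : z ≠ 1)
    (hz2 : z * z = 1) (hc : ∀ g, g * z = z * g) (d : ℕ)
    (hQ : ∀ (β : Q → F2) (l : List (Du V × Q × Q)), degLt d (fun x => β (prog l x)))
    (β : H → F2) (l : List (Du V × H × H)) :
    degLt (d + 2 + d) (fun x => β (prog l x)) := by
  obtain ⟨b0, hb0, hb1⟩ : ∃ b0 : H → F2, (∀ h, h = s (π h) → b0 h = 0) ∧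
      (∀ h, h ≠ s (π h) → b0 h = 1) :=
    ⟨fun h => if h = s (π h) then 0 else 1, fun h e => if_pos e, fun h e => if_neg e⟩
  have hA : ∀ h, h ≠ s (π h) → h = s (π h) * z := by
    intro h hne
    have e : π ((s (π h))⁻¹ * h) = 1 := by
      rw [map_mul, map_inv, hs, inv_mul_cancel]
    rcases (hker _).1 e with e1 | e1
    · exact absurd (inv_mul_eq_one.1 e1).symm hne
    · rw [← e1, mul_inv_cancel_left]
  have hπz : π z = 1 := (hker z).2 (Or.inr rfl)
  have hC : ∀ u, b0 (u * z) = 1 + b0 u := by
    intro u
    have e : π (u * z) = π u := by rw [map_mul, hπz, mul_one]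
    by_cases hu : u = s (π u)
    · have hne : u * z ≠ s (π (u * z)) := by
        rw [e, ← hu]
        intro e2
        exact hz1 (mul_left_cancel (e2.trans (mul_one u).symm))
      rw [hb1 _ hne, hb0 _ hu, add_zero]
    · have e2 : u * z = s (π (u * z)) := by
        rw [e]
        have e3 := hA u hu
        calc u * z = s (π u) * z * z := by rw [← e3]
          _ = s (π u) := by rw [mul_assoc, hz2, mul_one]
      rw [hb0 _ e2, hb1 _ hu, f2_add_self]
  have hB : ∀ h g, b0 (h * g) = b0 h + b0 (s (π h) * g) := by
    intro h g
    by_cases hu : h = s (π h)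
    · rw [hb0 _ hu, zero_add, ← hu]
    · have e3 := hA h hu
      have e4 : h * g = s (π h) * g * z := by
        calc h * g = s (π h) * z * g := by rw [← e3]
          _ = s (π h) * g * z := by rw [mul_assoc, ← hc g, mul_assoc]
      rw [hb1 _ hu, e4, hC]
  have hQ' : ∀ (γ : Q → F2) (l : List (Du V × H × H)),
      degLt d (fun x => γ (π (prog l x))) := by
    intro γ l
    refine ddeg_congr (fun x => ?_) (hQ γ (l.map (fun p => (p.1, π p.2.1, π p.2.2))))
    rw [prog_map]
  have hD : ∀ l : List (Du V × H × H), degLt (d + 2) (fun x => b0 (prog l x)) := by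
    intro l
    induction l using List.reverseRecOn with
    | nil =>
      refine ddeg_congr (fun x => ?_) (degLt_of_le (by omega) (degLt_const (b0 1)))
      rw [prog_nil]
    | append_singleton l p ih =>
      have h1 := degLt_mul (hQ' (fun q => b0 (s q * p.2.1)) l) (degLt_form p.1 0)
      have h2 := degLt_mul (hQ' (fun q => b0 (s q * p.2.2)) l) (degLt_form p.1 1)
      refine ddeg_congr (fun x => ?_) (degLt_add ih (degLt_add h1 h2))
      show b0 (prog l x) + (b0 (s (π (prog l x)) * p.2.1) * (p.1 x + 0) +
        b0 (s (π (prog l x)) * p.2.2) * (p.1 x + 1)) = b0 (prog (l ++ [p]) x)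
      rw [prog_snoc, hB (prog l x)]
      rcases f2_cases (p.1 x) with e | e
      · have e1 : ¬ p.1 x = 1 := by rw [e]; exact zero_ne_one
        rw [if_neg e1, e]
        ring
      · rw [if_pos e, e, f2_add_self]
        ring
  have h1 := hQ' (fun q => β (s q)) l
  have h2 := hQ' (fun q => β (s q * z) + β (s q)) l
  have h3 := degLt_mul (hD l) h2
  refine ddeg_congr (fun x => ?_) (degLt_add (degLt_of_le (by omega) h1) h3)
  show β (s (π (prog l x))) + b0 (prog l x) * (β (s (π (prog l x)) * z) + β (s (π (prog l x))))
    = β (prog l x)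
  by_cases hu : prog l x = s (π (prog l x))
  · rw [hb0 _ hu, zero_mul, add_zero, ← hu]
  · have e3 := hA _ hu
    have e4 := f2_add_self (β (s (π (prog l x))))
    rw [hb1 _ hu, ← e3]
    linear_combination e4

/-- functions of a program over a finite 2-group have bounded degree. -/
theorem two_group_deg (n : ℕ) : ∀ (H : Type) [Group H] [Finite H], Nat.card H ≤ n → IsPGroup 2 H →
    ∃ d : ℕ, ∀ (W : Type) [AddCommGroup W] [Module F2 W] (β : H → F2) (l : List (Du W × H × H)),
      degLt d (fun x => β (prog l x)) := by
  induction n with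
  | zero =>
    intro H _ _ hc _
    have : 0 < Nat.card H := Nat.card_pos
    omega
  | succ n ih =>
    intro H _ _ hc hH
    rcases subsingleton_or_nontrivial H with hs | hs
    · refine ⟨1, fun W _ _ β l => ?_⟩
      refine ddeg_congr (fun x => ?_) (degLt_const (β 1))
      rw [Subsingleton.elim (prog l x) 1]
    · haveI : Fact (Nat.Prime 2) := ⟨Nat.prime_two⟩
      have hZ : Nontrivial (Subgroup.center H) := hH.center_nontrivial
      have hZp : IsPGroup 2 (Subgroup.center H) := hH.to_subgroup _
      obtain ⟨k, hk, hcard⟩ := hZp.nontrivial_iff_card.1 hZ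
      have hdvd : 2 ∣ Nat.card (Subgroup.center H) := by
        rw [hcard]
        exact dvd_pow_self 2 (by omega)
      obtain ⟨w, hw⟩ := exists_prime_orderOf_dvd_card' 2 hdvd
      have hw1 : (w : H) ≠ 1 := by
        intro e
        have e1 : w = 1 := Subtype.ext e
        rw [e1, orderOf_one] at hw
        omega
      have hw2 : (w : H) * w = 1 := by
        have e := pow_orderOf_eq_one w
        rw [hw, pow_two] at e
        exact congrArg Subtype.val e
      have hwc : ∀ g : H, g * w = w * g := fun g => Subgroup.mem_center_iff.1 w.2 g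
      obtain ⟨N, hN, hmem⟩ := ddeg_sub (w : H) hw2 hwc
      haveI := hN
      have hNt : Nontrivial N := by
        refine ⟨⟨w, (hmem _).2 (Or.inr rfl)⟩, 1, fun e => hw1 ?_⟩
        exact congrArg Subtype.val e
      have h2 : 1 < Nat.card N := Finite.one_lt_card
      have h3 := Subgroup.card_eq_card_quotient_mul_card_subgroup N
      have h4 : 0 < Nat.card (H ⧸ N) := Nat.card_pos
      have h5 : Nat.card (H ⧸ N) ≤ n := by nlinarith
      obtain ⟨d, hd⟩ := ih (H ⧸ N) h5 (hH.to_quotient N)
      refine ⟨d + 2 + d, fun W _ _ β l => ?_⟩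
      refine ddeg_step (QuotientGroup.mk' N) Quotient.out (w : H) ?_ ?_ hw1 hw2 hwc d
        (fun γ l' => hd W γ l') β l
      · intro q
        exact QuotientGroup.out_eq' q
      · intro h
        rw [QuotientGroup.mk'_apply, QuotientGroup.eq_one_iff, hmem]

end Pool.Agent.P.MP_85fe51_lc.DA
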