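import Mathlib
import Pool.Agent.P.MP_85fe51_lc.DDefs

set_option autoImplicit false

namespace Pool.Agent.P.MP_85fe51_lc.DA

open Finset
open scoped Classical

variable {α : Type}

theorem Ex_const (ρ : ℝ) (X : Finset α) (c : ℝ) : Ex ρ X (fun _ => c) = c := by
  rw [Ex, ← sum_mul, sum_pow_mul_eq_add_pow, add_sub_cancel, one_pow, one_mul]

theorem Ex_add (ρ : ℝ) (X : Finset α) (f g : Finset α → ℝ) :
    Ex ρ X (fun W => f W + g W) = Ex ρ X f + Ex ρ X g := by
  simp only [Ex, mul_add, sum_add_distrib]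

theorem Ex_mul (ρ : ℝ) (X : Finset α) (c : ℝ) (f : Finset α → ℝ) :
    Ex ρ X (fun W => c * f W) = c * Ex ρ X f := by
  simp only [Ex, mul_sum, mul_left_comm c]

theorem Ex_mono {ρ : ℝ} (h0 : 0 ≤ ρ) (h1 : ρ ≤ 1) (X : Finset α) {f g : Finset α → ℝ}
    (h : ∀ W, W ⊆ X → f W ≤ g W) : Ex ρ X f ≤ Ex ρ X g :=
  sum_le_sum fun W hW => mul_le_mul_of_nonneg_left (h W (mem_powerset.1 hW))
    (mul_nonneg (pow_nonneg h0 _) (pow_nonneg (sub_nonneg.2 h1) _))

theorem dex_insert (ρ : ℝ) {X : Finset α} {a : α} (ha : a ∉ X) (f : Finset α → ℝ) :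
    Ex ρ (insert a X) f = (1 - ρ) * Ex ρ X f + ρ * Ex ρ X fun W => f (insert a W) := by
  simp only [Ex, sum_powerset_insert ha, mul_sum, card_insert_of_notMem ha]
  congr 1 <;> refine sum_congr rfl fun W hW => ?_
  · rw [Nat.succ_sub (card_le_card (mem_powerset.1 hW)), pow_succ]
    ring
  · rw [card_insert_of_notMem fun h => ha (mem_powerset.1 hW h), Nat.add_sub_add_right, pow_succ]
    ring

theorem Ex_card (ρ : ℝ) (X : Finset α) : Ex ρ X (fun W => (W.card : ℝ)) = ρ * X.card := by
  induction X using Finset.induction_on with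
  | empty => simp [Ex]
  | insert a X ha ih =>
    have h : Ex ρ X (fun W => ((insert a W).card : ℝ)) = Ex ρ X fun W => (W.card : ℝ) + 1 :=
      sum_congr rfl fun W hW => by
        beta_reduce
        rw [card_insert_of_notMem fun h => ha (mem_powerset.1 hW h), Nat.cast_succ]
    rw [dex_insert ρ ha, h, Ex_add, Ex_const, ih, card_insert_of_notMem ha, Nat.cast_succ]
    ring

theorem ExT_const (ρ : ℝ) (X : Finset α) (t : ℕ) (c : ℝ) : ExT ρ X t (fun _ => c) = c := by
  induction t with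
  | zero => rfl
  | succ t ih => simp only [ExT, ih, Ex_const]

theorem ExT_add (ρ : ℝ) (X : Finset α) (t : ℕ) (f g : Finset α → ℝ) :
    ExT ρ X t (fun W => f W + g W) = ExT ρ X t f + ExT ρ X t g := by
  induction t generalizing f g with
  | zero => rfl
  | succ t ih => simp only [ExT, ih, Ex_add]

theorem ExT_mul (ρ : ℝ) (X : Finset α) (t : ℕ) (c : ℝ) (f : Finset α → ℝ) :
    ExT ρ X t (fun W => c * f W) = c * ExT ρ X t f := by
  induction t generalizing f with
  | zero => rfl
  | succ t ih => simp only [ExT, ih, Ex_mul]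

theorem ExT_sum {ι : Type} (ρ : ℝ) (X : Finset α) (t : ℕ) (I : Finset ι) (f : ι → Finset α → ℝ) :
    ExT ρ X t (fun W => ∑ i ∈ I, f i W) = ∑ i ∈ I, ExT ρ X t (f i) := by
  induction I using Finset.induction_on with
  | empty => simp only [sum_empty, ExT_const]
  | insert a I ha ih => simp only [sum_insert ha, ExT_add, ih]

theorem ExT_mono {ρ : ℝ} (h0 : 0 ≤ ρ) (h1 : ρ ≤ 1) (X : Finset α) (t : ℕ) {f g : Finset α → ℝ}
    (h : ∀ W, W ⊆ X → f W ≤ g W) : ExT ρ X t f ≤ ExT ρ X t g := by
  induction t generalizing f g with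
  | zero => exact h ∅ (empty_subset _)
  | succ t ih => exact Ex_mono h0 h1 X fun W hW => ih fun R hR => h _ (union_subset hW hR)

theorem ExT_card_le {ρ : ℝ} (h0 : 0 ≤ ρ) (h1 : ρ ≤ 1) (X : Finset α) (t : ℕ) :
    ExT ρ X t (fun W => (W.card : ℝ)) ≤ t * ρ * X.card := by
  induction t with
  | zero => simp [ExT]
  | succ t ih =>
    refine (Ex_mono h0 h1 X (g := fun W => (W.card : ℝ) + t * ρ * X.card) fun W _ => ?_).trans ?_
    · refine (ExT_mono h0 h1 X t (g := fun R => (W.card : ℝ) + R.card) fun R _ => ?_).trans ?_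
      · beta_reduce
        exact_mod_cast card_union_le W R
      · rw [ExT_add, ExT_const]
        linarith
    · rw [Ex_add, Ex_const, Ex_card, Nat.cast_succ]
      linarith

/-- selection of one set that meets half of the families. -/
theorem select_of_fail {ι : Type} {ρ : ℝ} (h0 : 0 ≤ ρ) (h1 : ρ ≤ 1) (X : Finset α) (t : ℕ)
    (Good : Finset ι) (P : ι → Finset α → Prop)
    (hP : ∀ i ∈ Good, ExT ρ X t (fun R => if P i R then 0 else 1) ≤ 1 / 7) :
    ∃ R : Finset α, R ⊆ X ∧ (R.card : ℝ) ≤ 2 * t * ρ * X.card + 2 ∧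
      Good.card ≤ 2 * (Good.filter (fun i => P i R)).card := by
  have hX : 0 ≤ t * ρ * X.card := by positivity
  rcases Good.eq_empty_or_nonempty with rfl | hG
  · exact ⟨∅, empty_subset _, by rw [card_empty, Nat.cast_zero]; linarith, by simp⟩
  have hg : (0 : ℝ) < Good.card := Nat.cast_pos.2 hG.card_pos
  have hc := ExT_card_le h0 h1 X t
  set b := t * ρ * X.card with hb
  have hf : ∀ R, ∑ i ∈ Good, (if P i R then (0 : ℝ) else 1) =
      Good.card - (Good.filter fun i => P i R).card := fun R => by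
    rw [eq_sub_iff_add_eq, card_filter, Nat.cast_sum, ← sum_add_distrib, card_eq_sum_ones,
      Nat.cast_sum]
    exact sum_congr rfl fun i _ => by split_ifs <;> simp
  by_contra hn
  have h2 := ExT_mono h0 h1 X t (f := fun _ => 2 * (b + 1) * Good.card)
    (g := fun R => 4 * (b + 1) * ∑ i ∈ Good, (if P i R then (0 : ℝ) else 1) +
      (Good.card : ℝ) * R.card) fun R hR => by
      have h3 : ((Good.filter fun i => P i R).card : ℝ) ≤ Good.card :=
        Nat.cast_le.2 (card_filter_le _ _)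
      rw [hf]
      by_cases h4 : (R.card : ℝ) ≤ 2 * t * ρ * X.card + 2
      · have h5 : (2 * (Good.filter fun i => P i R).card : ℝ) ≤ Good.card := by
          exact_mod_cast (not_le.1 fun h => hn ⟨R, hR, h4, h⟩).le
        have h6 : (0 : ℝ) ≤ Good.card * R.card := by positivity
        nlinarith
      · have h5 : 2 * (b + 1) ≤ R.card := by
          rw [hb]
          linarith
        nlinarith
  rw [ExT_const, ExT_add, ExT_mul, ExT_mul, ExT_sum] at h2
  have h3 := sum_le_card_nsmul _ _ _ hP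
  rw [nsmul_eq_mul] at h3
  nlinarith [mul_le_mul_of_nonneg_left h3 (by linarith : 0 ≤ 4 * (b + 1)),
    mul_le_mul_of_nonneg_left hc hg.le, mul_nonneg hX hg.le]

end Pool.Agent.P.MP_85fe51_lc.DA
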