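import Mathlib
import Pool.Agent.P.MP_85fe51_lc.DEx

set_option autoImplicit false

namespace Pool.Agent.P.MP_85fe51_lc.DA

open Finset
open scoped Classical

variable {α : Type}

/-- least fragments. -/
theorem exists_frag (F : Finset (Finset α)) :
    ∃ T : Finset α → Finset α → Finset α, ∀ W : Finset α, ∀ B ∈ F,
      (∃ S ∈ F, S ⊆ W ∪ B ∧ T W B = S \ W) ∧
      ∀ S ∈ F, S ⊆ W ∪ B → (T W B).card ≤ (S \ W).card := by
  have h : ∀ W B : Finset α, ∃ H : Finset α, B ∈ F →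
      ((∃ S ∈ F, S ⊆ W ∪ B ∧ H = S \ W) ∧
        ∀ S ∈ F, S ⊆ W ∪ B → H.card ≤ (S \ W).card) := by
    intro W B
    by_cases hB : B ∈ F
    · obtain ⟨S, hS, hmin⟩ := Finset.exists_min_image (F.filter (fun S => S ⊆ W ∪ B))
        (fun S => (S \ W).card) ⟨B, mem_filter.2 ⟨hB, subset_union_right⟩⟩
      rw [mem_filter] at hS
      exact ⟨S \ W, fun _ => ⟨⟨S, hS.1, hS.2, rfl⟩,
        fun S' h1 h2 => hmin S' (mem_filter.2 ⟨h1, h2⟩)⟩⟩
    · exact ⟨∅, fun h => absurd h hB⟩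
  choose T hT using h
  exact ⟨T, fun W B hB => hT W B hB⟩

theorem dpp_sum_inj {β γ : Type} (s : Finset β) (u : Finset γ) (f : β → ℝ) (g : γ → ℝ)
    (e : β → γ) (he : Set.InjOn e s) (ht : ∀ i ∈ s, e i ∈ u) (h : ∀ i ∈ s, f i ≤ g (e i))
    (hg : ∀ a ∈ u, 0 ≤ g a) : ∑ i ∈ s, f i ≤ ∑ a ∈ u, g a := by
  refine (sum_le_sum h).trans ?_
  rw [← sum_image (s := s) (g := e) (f := g) he]
  exact sum_le_sum_of_subset_of_nonneg (image_subset_iff.2 ht) (fun a ha _ => hg a ha)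

theorem dpp_shat (F : Finset (Finset α)) (n : ℕ) (hF : ∀ B ∈ F, B.card ≤ n) :
    ∃ Sh : Finset α → Finset α, ∀ Z, (Sh Z).card ≤ n ∧
      ((∃ S ∈ F, S ⊆ Z) → Sh Z ∈ F ∧ Sh Z ⊆ Z) := by
  have h : ∀ Z : Finset α, ∃ Y : Finset α, Y.card ≤ n ∧
      ((∃ S ∈ F, S ⊆ Z) → Y ∈ F ∧ Y ⊆ Z) := by
    intro Z
    by_cases hZ : ∃ S ∈ F, S ⊆ Z
    · obtain ⟨S, h1, h2⟩ := hZ
      exact ⟨S, hF S h1, fun _ => ⟨h1, h2⟩⟩
    · exact ⟨∅, by simp, fun h => absurd h hZ⟩
  choose Sh hSh using h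
  exact ⟨Sh, hSh⟩

theorem dpp_tail (t : ℕ) (Y : Finset α) (hY : Y.card ≤ 2 ^ (t + 1)) :
    ∑ H ∈ Y.powerset.filter (fun H => 2 ^ t ≤ H.card), ((1 : ℝ) / 32) ^ H.card
      ≤ (1 / 8) ^ (t + 1) := by
  have h1 : ∑ H ∈ Y.powerset.filter (fun H => 2 ^ t ≤ H.card), ((1 : ℝ) / 32) ^ H.card
      ≤ (Y.powerset.filter (fun H => 2 ^ t ≤ H.card)).card • ((1 : ℝ) / 32) ^ (2 ^ t) := by
    apply sum_le_card_nsmul
    intro H hH
    exact pow_le_pow_of_le_one (by norm_num) (by norm_num) (mem_filter.1 hH).2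
  have h2 : (Y.powerset.filter (fun H => 2 ^ t ≤ H.card)).card ≤ 4 ^ (2 ^ t) := by
    refine (card_filter_le _ _).trans ?_
    rw [card_powerset]
    calc 2 ^ Y.card ≤ 2 ^ (2 ^ (t + 1)) := Nat.pow_le_pow_right (by norm_num) hY
      _ = 4 ^ (2 ^ t) := by rw [pow_succ', pow_mul]; norm_num
  have h3 : ((Y.powerset.filter (fun H => 2 ^ t ≤ H.card)).card : ℝ) ≤ 4 ^ (2 ^ t) := by
    exact_mod_cast h2
  rw [nsmul_eq_mul] at h1
  calc _ ≤ _ := h1
    _ ≤ 4 ^ (2 ^ t) * ((1 : ℝ) / 32) ^ (2 ^ t) :=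
        mul_le_mul_of_nonneg_right h3 (by positivity)
    _ = (1 / 8) ^ (2 ^ t) := by rw [← mul_pow]; norm_num
    _ ≤ (1 / 8) ^ (t + 1) :=
        pow_le_pow_of_le_one (by norm_num) (by norm_num) (Nat.lt_two_pow_self)

theorem dpp_wt {q : ℝ} (hq : 0 ≤ q) (h1 : 32 * q ≤ 1) (n a b : ℕ) :
    (32 * q) ^ a * (1 - 32 * q) ^ (n - a) * q ^ b ≤
      (32 * q) ^ (a + b) * (1 - 32 * q) ^ (n - (a + b)) * (1 / 32) ^ b := by
  have h0 : 0 ≤ 1 - 32 * q := by linarith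
  have h2 : (1 - 32 * q) ^ (n - a) ≤ (1 - 32 * q) ^ (n - (a + b)) :=
    pow_le_pow_of_le_one h0 (by linarith) (by omega)
  have h3 : q ^ b = (32 * q) ^ b * (1 / 32) ^ b := by
    rw [← mul_pow]; congr 1; ring
  rw [h3, pow_add]
  have h4 : 0 ≤ (32 * q) ^ a * (32 * q) ^ b * (1 / 32 : ℝ) ^ b := by positivity
  calc _ = (32 * q) ^ a * (32 * q) ^ b * (1 / 32 : ℝ) ^ b * (1 - 32 * q) ^ (n - a) := by ring
    _ ≤ (32 * q) ^ a * (32 * q) ^ b * (1 / 32 : ℝ) ^ b * (1 - 32 * q) ^ (n - (a + b)) :=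
        mul_le_mul_of_nonneg_left h2 h4
    _ = _ := by ring

theorem frag_cost {q : ℝ} (hq : 0 ≤ q) (h1 : 32 * q ≤ 1) (X : Finset α) (t : ℕ)
    (F : Finset (Finset α)) (hF : ∀ B ∈ F, B ⊆ X ∧ B.card < 2 ^ (t + 1))
    (T : Finset α → Finset α → Finset α)
    (hT : ∀ W : Finset α, ∀ B ∈ F, (∃ S ∈ F, S ⊆ W ∪ B ∧ T W B = S \ W) ∧
      ∀ S ∈ F, S ⊆ W ∪ B → (T W B).card ≤ (S \ W).card) :
    Ex (32 * q) X (fun W =>
      ∑ H ∈ (F.image (T W)).filter (fun H => 2 ^ t ≤ H.card), q ^ H.card) ≤ (1 / 8) ^ (t + 1) := by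
  obtain ⟨Sh, hSh⟩ := dpp_shat F (2 ^ (t + 1)) (fun B hB => (hF B hB).2.le)
  have h0 : 0 ≤ 32 * q := by linarith
  have key : ∀ W H : Finset α, H ∈ F.image (T W) →
      Disjoint W H ∧ H ⊆ X ∧ H ⊆ Sh (W ∪ H) := by
    intro W H hH
    obtain ⟨B, hB, rfl⟩ := mem_image.1 hH
    obtain ⟨⟨S, hS, hSW, e⟩, hmin⟩ := hT W B hB
    have hZ := (hSh (W ∪ T W B)).2 ⟨S, hS, by rw [e, union_sdiff_self_eq_union]; exact subset_union_right⟩
    have hsub : W ∪ T W B ⊆ W ∪ B := by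
      rw [e]
      exact union_subset subset_union_left (sdiff_subset.trans hSW)
    have hc := hmin _ hZ.1 (hZ.2.trans hsub)
    have h2 : Sh (W ∪ T W B) \ W ⊆ T W B := by
      intro x hx
      rw [mem_sdiff] at hx
      exact (mem_union.1 (hZ.2 hx.1)).resolve_left hx.2
    have h3 := eq_of_subset_of_card_le h2 hc
    refine ⟨by rw [e]; exact disjoint_sdiff, by rw [e]; exact sdiff_subset.trans (hF S hS).1, ?_⟩
    intro x hx
    rw [← h3] at hx
    exact (mem_sdiff.1 hx).1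
  have main : Ex (32 * q) X (fun W =>
      ∑ H ∈ (F.image (T W)).filter (fun H => 2 ^ t ≤ H.card), q ^ H.card) ≤
      Ex (32 * q) X (fun Z => ∑ H ∈ (Sh Z).powerset.filter (fun H => 2 ^ t ≤ H.card),
        ((1 : ℝ) / 32) ^ H.card) := by
    simp only [Ex, mul_sum]
    rw [sum_sigma', sum_sigma']
    refine dpp_sum_inj _ _ _ _ (fun p => (⟨p.1 ∪ p.2, p.2⟩ : Σ _ : Finset α, Finset α)) ?_ ?_ ?_ ?_
    · rintro ⟨W, H⟩ hp ⟨W', H'⟩ hp' e
      rw [mem_coe, mem_sigma, mem_filter] at hp hp'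
      have d1 := (key W H hp.2.1).1
      have d2 := (key W' H' hp'.2.1).1
      simp only [Sigma.mk.injEq, heq_eq_eq] at e
      obtain ⟨e1, e2⟩ := e
      subst e2
      have : W = W' := by
        rw [← union_sdiff_cancel_right d1, e1, union_sdiff_cancel_right d2]
      rw [this]
    · rintro ⟨W, H⟩ hp
      rw [mem_sigma, mem_filter, mem_powerset] at hp
      obtain ⟨_, d2, d3⟩ := key W H hp.2.1
      rw [mem_sigma, mem_filter, mem_powerset, mem_powerset]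
      exact ⟨union_subset hp.1 d2, d3, hp.2.2⟩
    · rintro ⟨W, H⟩ hp
      rw [mem_sigma, mem_filter] at hp
      have d1 := (key W H hp.2.1).1
      dsimp only
      rw [card_union_of_disjoint d1]
      exact dpp_wt hq h1 _ _ _
    · intro a _
      have : 0 ≤ 1 - 32 * q := by linarith
      positivity
  refine main.trans ?_
  refine (Ex_mono h0 h1 X (g := fun _ => (1 / 8 : ℝ) ^ (t + 1)) ?_).trans (Ex_const _ _ _).le
  intro Z _
  exact dpp_tail t _ (hSh Z).1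

theorem dpp_costly {q c : ℝ} (hq : 0 ≤ q) (t : ℕ) (F : Finset (Finset α)) (hc : Costly q c F)
    (T : Finset α → Finset α) (W : Finset α)
    (hT : ∀ B ∈ F, ∃ S ∈ F, S ⊆ W ∪ B ∧ T B = S \ W) :
    Costly q (c - ∑ H ∈ (F.image T).filter (fun H => 2 ^ t ≤ H.card), q ^ H.card)
      ((F.image T).filter (fun H => H.card < 2 ^ t)) := by
  intro U hU1 hU2
  have hsub : ∀ H ∈ F.image T, ∃ S ∈ F, H ⊆ S := by
    intro H hH
    obtain ⟨B, hB, rfl⟩ := mem_image.1 hH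
    obtain ⟨S, hS, _, e⟩ := hT B hB
    exact ⟨S, hS, by rw [e]; exact sdiff_subset⟩
  have hB : ∀ B ∈ F, T B ⊆ B := by
    intro B hB x hx
    obtain ⟨S, _, hSW, e⟩ := hT B hB
    rw [e, mem_sdiff] at hx
    exact (mem_union.1 (hSW hx.1)).resolve_left hx.2
  have h := hc (U ∪ (F.image T).filter (fun H => 2 ^ t ≤ H.card)) ?_ ?_
  · have h2 := sum_union_inter (s₁ := U) (s₂ := (F.image T).filter (fun H => 2 ^ t ≤ H.card))
      (f := fun H => q ^ H.card)
    have h3 : 0 ≤ ∑ H ∈ U ∩ (F.image T).filter (fun H => 2 ^ t ≤ H.card), q ^ H.card :=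
      sum_nonneg fun _ _ => by positivity
    linarith
  · intro H hH
    rcases mem_union.1 hH with hH | hH
    · obtain ⟨B, hB, hHB⟩ := hU1 H hH
      obtain ⟨S, hS, hBS⟩ := hsub B (mem_filter.1 hB).1
      exact ⟨S, hS, hHB.trans hBS⟩
    · exact hsub H (mem_filter.1 hH).1
  · intro B hBF
    by_cases hs : (T B).card < 2 ^ t
    · obtain ⟨H, hH, hHB⟩ := hU2 (T B) (mem_filter.2 ⟨mem_image_of_mem _ hBF, hs⟩)
      exact ⟨H, mem_union_left _ hH, hHB.trans (hB B hBF)⟩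
    · exact ⟨T B, mem_union_right _ (mem_filter.2 ⟨mem_image_of_mem _ hBF, not_lt.1 hs⟩),
        hB B hBF⟩

theorem dpp_fail_nonneg {ρ : ℝ} (h0 : 0 ≤ ρ) (h1 : ρ ≤ 1) (X : Finset α) (t : ℕ)
    (F : Finset (Finset α)) :
    0 ≤ ExT ρ X t (fun R => if ∃ B ∈ F, B ⊆ R then 0 else 1) := by
  refine (ExT_const ρ X t 0).symm.le.trans (ExT_mono h0 h1 X t ?_)
  intro W _
  split_ifs <;> norm_num

theorem dpp_fail_le_one {ρ : ℝ} (h0 : 0 ≤ ρ) (h1 : ρ ≤ 1) (X : Finset α) (t : ℕ)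
    (F : Finset (Finset α)) :
    ExT ρ X t (fun R => if ∃ B ∈ F, B ⊆ R then 0 else 1) ≤ 1 := by
  refine le_trans (ExT_mono h0 h1 X t ?_) (ExT_const ρ X t 1).le
  intro W _
  split_ifs <;> norm_num

theorem park_pham {q : ℝ} (hq : 0 ≤ q) (h1 : 32 * q ≤ 1) (X : Finset α) (t : ℕ) :
    ∀ (F : Finset (Finset α)) (c : ℝ), (∀ B ∈ F, B ⊆ X ∧ B.card < 2 ^ t) → Costly q c F →
      c * ExT (32 * q) X t (fun R => if ∃ B ∈ F, B ⊆ R then 0 else 1) ≤ (1 - (1 / 8) ^ t) / 7 := by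
  have h0 : 0 ≤ 32 * q := by linarith
  induction t with
  | zero =>
    intro F c hF hc
    simp only [ExT, pow_zero, sub_self, zero_div]
    split_ifs with h
    · simp
    · have := hc ∅ (by simp) (fun B hB => by
        exfalso
        apply h
        have h2 := (hF B hB).2
        rw [pow_zero, Nat.lt_one_iff, card_eq_zero] at h2
        exact ⟨B, hB, by rw [h2]⟩)
      simpa using this
  | succ t ih =>
    intro F c hF hc
    rcases le_total c 0 with hc0 | hc0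
    · refine le_trans (mul_nonpos_of_nonpos_of_nonneg hc0 (dpp_fail_nonneg h0 h1 X _ F)) ?_
      have : ((1 : ℝ) / 8) ^ (t + 1) ≤ 1 := pow_le_one₀ (by norm_num) (by norm_num)
      linarith
    obtain ⟨T, hT⟩ := exists_frag F
    have hcost := frag_cost hq h1 X t F hF T hT
    rw [ExT, ← Ex_mul]
    have hstep : Ex (32 * q) X (fun W => c * ExT (32 * q) X t
        (fun R => if ∃ B ∈ F, B ⊆ W ∪ R then 0 else 1)) ≤
        Ex (32 * q) X (fun W => (1 - (1 / 8) ^ t) / 7 +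
          ∑ H ∈ (F.image (T W)).filter (fun H => 2 ^ t ≤ H.card), q ^ H.card) := by
      apply Ex_mono h0 h1
      intro W _
      have hC := dpp_costly hq t F hc (T W) W (fun B hB => (hT W B hB).1)
      obtain ⟨FW, hFW⟩ : ∃ FW, FW = (F.image (T W)).filter (fun H => H.card < 2 ^ t) := ⟨_, rfl⟩
      rw [← hFW] at hC
      have hI := ih FW _ (fun H hH => by
        rw [hFW, mem_filter] at hH
        obtain ⟨B, hB, rfl⟩ := mem_image.1 hH.1
        obtain ⟨S, hS, _, e⟩ := (hT W B hB).1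
        exact ⟨by rw [e]; exact sdiff_subset.trans (hF S hS).1, hH.2⟩) hC
      have hm : ExT (32 * q) X t (fun R => if ∃ B ∈ F, B ⊆ W ∪ R then 0 else 1) ≤
          ExT (32 * q) X t (fun R => if ∃ B ∈ FW, B ⊆ R then 0 else 1) := by
        apply ExT_mono h0 h1
        intro R _
        split_ifs with a1 a2 a2
        · exact le_rfl
        · norm_num
        · exfalso
          apply a1
          obtain ⟨H, hH, hR⟩ := a2
          rw [hFW] at hH
          obtain ⟨B, hB, rfl⟩ := mem_image.1 (mem_filter.1 hH).1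
          obtain ⟨S, hS, _, e⟩ := (hT W B hB).1
          refine ⟨S, hS, fun x hx => ?_⟩
          by_cases hxW : x ∈ W
          · exact mem_union_left _ hxW
          · exact mem_union_right _ (hR (by rw [e]; exact mem_sdiff.2 ⟨hx, hxW⟩))
        · exact le_rfl
      have e1 := dpp_fail_le_one h0 h1 X t FW
      have e2 : 0 ≤ ∑ H ∈ (F.image (T W)).filter (fun H => 2 ^ t ≤ H.card), q ^ H.card :=
        sum_nonneg fun _ _ => by positivity
      have e3 := mul_le_mul_of_nonneg_left hm hc0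
      have e4 := mul_le_mul_of_nonneg_left e1 e2
      rw [sub_mul] at hI
      linarith
    rw [Ex_add, Ex_const] at hstep
    refine hstep.trans ?_
    rw [pow_succ] at hcost ⊢
    linarith

theorem pp_select {ι : Type} {q : ℝ} (hq : 0 ≤ q) (X : Finset α) (t : ℕ) (ht : 1 ≤ t)
    (Good : Finset ι) (F : ι → Finset (Finset α))
    (hF : ∀ i ∈ Good, ∀ B ∈ F i, B ⊆ X ∧ B.card < 2 ^ t) (hc : ∀ i ∈ Good, Costly q 1 (F i)) :
    ∃ R : Finset α, R ⊆ X ∧ (R.card : ℝ) ≤ 2 * t * (32 * q) * X.card + 2 ∧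
      Good.card ≤ 2 * (Good.filter (fun i => ∃ B ∈ F i, B ⊆ R)).card := by
  have h0 : 0 ≤ 32 * q := by linarith
  rcases le_total (32 * q) 1 with h1 | h1
  · obtain ⟨R, hR, h2, h3⟩ := select_of_fail h0 h1 X t Good (fun i R => ∃ B ∈ F i, B ⊆ R) (by
      intro i hi
      have h := park_pham hq h1 X t (F i) 1 (hF i hi) (hc i hi)
      have h4 : (0 : ℝ) ≤ (1 / 8) ^ t := by positivity
      refine le_trans (ExT_mono h0 h1 X t
        (g := fun R => if ∃ B ∈ F i, B ⊆ R then 0 else 1) ?_) (by linarith)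
      intro W _
      by_cases hW : ∃ B ∈ F i, B ⊆ W
      · simp only [if_pos hW]; exact le_rfl
      · simp only [if_neg hW]; exact le_rfl)
    refine ⟨R, hR, h2, h3.trans (Nat.mul_le_mul_left 2 (card_le_card ?_))⟩
    intro i hi
    simp only [mem_filter] at hi ⊢
    exact hi
  · refine ⟨X, Subset.rfl, ?_, ?_⟩
    · have ht' : (1 : ℝ) ≤ t := by exact_mod_cast ht
      have h2 : (1 : ℝ) ≤ 2 * t * (32 * q) := by nlinarith
      have h3 : (0 : ℝ) ≤ X.card := by positivity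
      nlinarith
    · have : Good ⊆ Good.filter (fun i => ∃ B ∈ F i, B ⊆ X) := by
        intro i hi
        refine mem_filter.2 ⟨hi, ?_⟩
        by_contra hn
        have := hc i hi ∅ (by simp) (fun B hB => absurd ⟨B, hB, (hF i hi B hB).1⟩ hn)
        rw [sum_empty] at this
        linarith
      have := card_le_card this
      omega

end Pool.Agent.P.MP_85fe51_lc.DA
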