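import Mathlib
import Pool.Agent.P.MP_85fe51_lc.DLin
import Pool.Agent.P.MP_85fe51_lc.DPP

set_option autoImplicit false

namespace Pool.Agent.P.MP_85fe51_lc.DA

open Finset
open scoped Classical

variable {V : Type} [AddCommGroup V] [Module F2 V]

/-- the edges for `γ`. -/
noncomputable def edges (S G : Finset (Du V)) (γ : Du V) : Finset (Finset (Du V)) :=
  S.powerset.filter (fun B => γ ∉ B ∧ Disjoint (insert γ B) G ∧ Indep (G ∪ insert γ B) ∧
    ∃ δ ∈ S, δ ≠ γ ∧ InSp (G ∪ B) (γ + δ))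

theorem dfold_mem_edges {S G B : Finset (Du V)} {γ : Du V} :
    B ∈ edges S G γ ↔ B ⊆ S ∧ γ ∉ B ∧ Disjoint (insert γ B) G ∧ Indep (G ∪ insert γ B) ∧
      ∃ δ ∈ S, δ ≠ γ ∧ InSp (G ∪ B) (γ + δ) := by
  simp only [edges, mem_filter, mem_powerset]

theorem dfold_pow_le {p κ : ℝ} (hp : 0 < p) (hκ : 0 < κ) (hκ1 : κ ≤ 1) {n : ℕ} (hn : n ≠ 0) :
    p ^ (n + 1) ≤ κ * p / 2 * (2 * p / κ) ^ n := by
  have e : p = κ / 2 * (2 * p / κ) := by field_simp
  have hq : 0 ≤ (2 * p / κ) ^ n := by positivity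
  have h1 : (κ / 2) ^ n ≤ κ / 2 := pow_le_of_le_one (by positivity) (by linarith) hn
  calc p ^ (n + 1) = p ^ n * p := pow_succ _ _
    _ = ((κ / 2) ^ n * (2 * p / κ) ^ n) * p := by rw [← mul_pow, ← e]
    _ ≤ (κ / 2 * (2 * p / κ) ^ n) * p := by gcongr
    _ = _ := by ring

theorem dfold_sum_nc {ι : Type} (Ω : Finset ι) (A : ι → Finset (Du V))
    (S G : Finset (Du V)) (hA : ∀ ω ∈ Ω, A ω ⊆ S) :
    ∑ ω ∈ Ω, nc G (A ω) = ∑ γ ∈ star S G,
      (Ω.filter (fun ω => γ ∈ A ω ∧ InSp (G ∪ (A ω).erase γ) γ)).card := by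
  have h1 : ∀ ω ∈ Ω, nc G (A ω) = ∑ γ ∈ star S G,
      if γ ∈ A ω ∧ InSp (G ∪ (A ω).erase γ) γ then 1 else 0 := by
    intro ω hω
    rw [← card_filter, nc]
    congr 1
    ext γ
    simp only [mem_filter, mem_star]
    constructor
    · rintro ⟨a, b, c⟩
      exact ⟨⟨hA ω hω a, b⟩, a, c⟩
    · rintro ⟨⟨-, b⟩, a, c⟩
      exact ⟨a, b, c⟩
  rw [sum_congr rfl h1, sum_comm]
  refine sum_congr rfl fun γ _ => ?_
  rw [card_filter]

theorem costly_edges {ι : Type} (Ω : Finset ι) (hΩ : Ω.Nonempty) (A : ι → Finset (Du V))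
    (S G : Finset (Du V)) (hG : Indep G) (hA : ∀ ω ∈ Ω, A ω ⊆ S) {p κ : ℝ} (hp : 0 < p)
    (hκ : 0 < κ) (hκ1 : κ ≤ 1)
    (hspread : ∀ H : Finset (Du V), H ⊆ S → Disjoint H G → Indep (G ∪ H) →
      ((Ω.filter (fun ω => H ⊆ A ω)).card : ℝ) ≤ p ^ H.card * Ω.card)
    (γ : Du V) (hγ : γ ∈ star S G)
    (he : κ * p / 2 * Ω.card ≤
      ((Ω.filter (fun ω => γ ∈ A ω ∧ InSp (G ∪ (A ω).erase γ) γ)).card : ℝ)) :
    Costly (2 * p / κ) 1 (edges S G γ) := by
  intro U h1 h2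
  obtain ⟨hγS, hγG⟩ := mem_star.1 hγ
  have hq : 0 < 2 * p / κ := by positivity
  by_cases h0 : ∅ ∈ U
  · have := single_le_sum (f := fun H : Finset (Du V) => (2 * p / κ) ^ H.card)
      (fun H _ => by positivity) h0
    simpa using this
  have hsub : Ω.filter (fun ω => γ ∈ A ω ∧ InSp (G ∪ (A ω).erase γ) γ) ⊆
      U.biUnion (fun H => Ω.filter (fun ω => insert γ H ⊆ A ω)) := by
    intro ω hω
    obtain ⟨hωΩ, hγA, hsp⟩ := mem_filter.1 hω
    obtain ⟨B, b1, b2, b3, b4, δ, d1, d2⟩ := extract hG hγG hsp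
    have hBA : B ⊆ A ω := b1.trans (erase_subset _ _)
    have hB : B ∈ edges S G γ := dfold_mem_edges.2
      ⟨hBA.trans (hA ω hωΩ), b2, b3, b4, δ, hA ω hωΩ (mem_of_mem_erase d1), ne_of_mem_erase d1, d2⟩
    obtain ⟨H, hH, hHB⟩ := h2 B hB
    exact mem_biUnion.2 ⟨H, hH, mem_filter.2 ⟨hωΩ, insert_subset hγA (hHB.trans hBA)⟩⟩
  have hc : ((Ω.filter (fun ω => γ ∈ A ω ∧ InSp (G ∪ (A ω).erase γ) γ)).card : ℝ) ≤
      ∑ H ∈ U, ((Ω.filter (fun ω => insert γ H ⊆ A ω)).card : ℝ) := by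
    exact_mod_cast (card_le_card hsub).trans card_biUnion_le
  have hH : ∀ H ∈ U, ((Ω.filter (fun ω => insert γ H ⊆ A ω)).card : ℝ) ≤
      κ * p / 2 * Ω.card * (2 * p / κ) ^ H.card := by
    intro H hHU
    obtain ⟨B, hB, hHB⟩ := h1 H hHU
    obtain ⟨b1, b2, b3, b4, -⟩ := dfold_mem_edges.1 hB
    have hi : insert γ H ⊆ insert γ B := insert_subset_insert _ hHB
    have h3 := hspread (insert γ H) (insert_subset hγS (hHB.trans b1))
      (disjoint_of_subset_left hi b3) (b4.mono (union_subset_union_right hi))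
    rw [card_insert_of_notMem (fun h => b2 (hHB h))] at h3
    have hn : H.card ≠ 0 := fun h => h0 (card_eq_zero.1 h ▸ hHU)
    have h4 := dfold_pow_le hp hκ hκ1 hn
    calc _ ≤ p ^ (H.card + 1) * Ω.card := h3
      _ ≤ κ * p / 2 * (2 * p / κ) ^ H.card * Ω.card := by gcongr
      _ = _ := by ring
  have h5 := (he.trans hc).trans (sum_le_sum hH)
  rw [← mul_sum] at h5
  have hpos : 0 < κ * p / 2 * (Ω.card : ℝ) := by
    have : (0 : ℝ) < Ω.card := by exact_mod_cast hΩ.card_pos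
    positivity
  exact (le_mul_iff_one_le_right hpos).1 h5

theorem fold {ι : Type} (Ω : Finset ι) (hΩ : Ω.Nonempty) (A : ι → Finset (Du V))
    (S G : Finset (Du V)) (hG : Indep G) (hA : ∀ ω ∈ Ω, A ω ⊆ S) {p κ : ℝ} (hp : 0 < p)
    (hκ : 0 < κ) (hκ1 : κ ≤ 1)
    (hspread : ∀ H : Finset (Du V), H ⊆ S → Disjoint H G → Indep (G ∪ H) →
      ((Ω.filter (fun ω => H ⊆ A ω)).card : ℝ) ≤ p ^ H.card * Ω.card)
    (hmass : κ * p * S.card * Ω.card ≤ ∑ ω ∈ Ω, (nc G (A ω) : ℝ))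
    (t : ℕ) (ht : 1 ≤ t) (hS : S.card < 2 ^ t) :
    ∃ R : Finset (Du V), (R.card : ℝ) ≤ 2 * t * (64 * p / κ) * S.card + 2 ∧
      κ * S.card / 4 ≤ ((folded S (G ∪ R)).card : ℝ) := by
  have hΩp : (0 : ℝ) < Ω.card := by exact_mod_cast hΩ.card_pos
  set e : Du V → ℝ := fun γ =>
    ((Ω.filter (fun ω => γ ∈ A ω ∧ InSp (G ∪ (A ω).erase γ) γ)).card : ℝ) with he
  have hsum : ∑ ω ∈ Ω, (nc G (A ω) : ℝ) = ∑ γ ∈ star S G, e γ := by
    have := congrArg (Nat.cast : ℕ → ℝ) (dfold_sum_nc Ω A S G hA)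
    rwa [Nat.cast_sum, Nat.cast_sum] at this
  have hle : ∀ γ ∈ star S G, e γ ≤ p * Ω.card := by
    intro γ hγ
    obtain ⟨hγS, hγG⟩ := mem_star.1 hγ
    have h3 := hspread {γ} (singleton_subset_iff.2 hγS)
      (disjoint_singleton_left.2 fun h => hγG (inSp_of_mem h))
      ((hG.insert hγG).mono (by
        intro x hx
        rcases mem_union.1 hx with h | h
        · exact mem_insert_of_mem h
        · rw [mem_singleton.1 h]; exact mem_insert_self _ _))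
    rw [card_singleton, pow_one] at h3
    refine le_trans ?_ h3
    simp only [he]
    refine Nat.cast_le.2 (card_le_card ?_)
    intro ω hω
    obtain ⟨a, b, -⟩ := mem_filter.1 hω
    exact mem_filter.2 ⟨a, singleton_subset_iff.2 b⟩
  set Good : Finset (Du V) := (star S G).filter (fun γ => κ * p / 2 * Ω.card ≤ e γ) with hGood
  have hbig : κ * S.card / 2 ≤ (Good.card : ℝ) := by
    have h1 : ∑ γ ∈ star S G, e γ ≤ ∑ γ ∈ star S G,
        ((if κ * p / 2 * Ω.card ≤ e γ then p * Ω.card else 0) + κ * p / 2 * Ω.card) := by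
      refine sum_le_sum fun γ hγ => ?_
      have h2 := hle γ hγ
      have h3 : 0 ≤ κ * p / 2 * (Ω.card : ℝ) := by positivity
      split_ifs with h
      · linarith
      · linarith [not_le.1 h]
    rw [sum_add_distrib, ← sum_filter, sum_const, sum_const, nsmul_eq_mul, nsmul_eq_mul] at h1
    have h4 : ((star S G).card : ℝ) ≤ S.card := by
      exact_mod_cast card_le_card fun γ hγ => (mem_star.1 hγ).1
    have h5 : ((star S G).card : ℝ) * (κ * p / 2 * Ω.card) ≤ S.card * (κ * p / 2 * Ω.card) := by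
      gcongr
    have h6 : κ * S.card / 2 * (p * Ω.card) ≤ Good.card * (p * Ω.card) := by
      rw [hsum] at hmass
      linarith
    exact le_of_mul_le_mul_right h6 (by positivity)
  obtain ⟨R, -, hR2, hR3⟩ := pp_select (q := 2 * p / κ) (by positivity) S t ht Good (edges S G)
    (fun γ _ B hB => ⟨(dfold_mem_edges.1 hB).1,
      lt_of_le_of_lt (card_le_card (dfold_mem_edges.1 hB).1) hS⟩)
    (fun γ hγ => costly_edges Ω hΩ A S G hG hA hp hκ hκ1 hspread γ (mem_filter.1 hγ).1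
      (mem_filter.1 hγ).2)
  refine ⟨R, ?_, ?_⟩
  · have e1 : 64 * p / κ = 32 * (2 * p / κ) := by ring
    rw [e1]
    exact hR2
  · have h7 : Good.card ≤ 2 * (folded S (G ∪ R)).card := by
      refine hR3.trans (Nat.mul_le_mul_left _ (card_le_card ?_))
      intro γ hγ
      obtain ⟨g1, B, hB, hBR⟩ := mem_filter.1 hγ
      obtain ⟨-, -, -, -, δ, d1, d2, d3⟩ := dfold_mem_edges.1 hB
      exact mem_folded.2 ⟨(mem_star.1 (mem_filter.1 g1).1).1, δ, d1, d2,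
        d3.mono (union_subset_union_right hBR)⟩
    have h8 : (Good.card : ℝ) ≤ 2 * (folded S (G ∪ R)).card := by exact_mod_cast h7
    linarith

end Pool.Agent.P.MP_85fe51_lc.DA
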