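import Mathlib
import Pool.Agent.P.MP_85fe51_lc.DDeg

set_option autoImplicit false

namespace Pool.Agent.P.MP_85fe51_lc.DA

open Finset
open scoped Classical

theorem dgrp_comm {G : Type} [Group G] (N : Subgroup G) (hodd : Odd (Nat.card N))
    (hsq : ∀ g : G, ∀ a ∈ N, g * g * a = a * (g * g)) (a b : N) : a * b = b * a := by
  obtain ⟨k, hk⟩ := hodd
  have h1 : a ^ (k + 1) * a ^ (k + 1) = a := by
    rw [← pow_add]
    have : k + 1 + (k + 1) = Nat.card N + 1 := by omega
    rw [this, pow_succ, pow_card_eq_one', one_mul]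
  have h2 := hsq ((a ^ (k + 1) : N) : G) b b.2
  apply Subtype.ext
  have h3 : ((a ^ (k + 1) : N) : G) * ((a ^ (k + 1) : N) : G) = (a : G) := by
    rw [← Subgroup.coe_mul, h1]
  rw [h3] at h2
  simpa using h2

theorem dgrp_comm2 {Q : Type} [Group Q] (hQ : ∀ q : Q, q * q = 1) (a b : Q) : a * b = b * a := by
  have h : ∀ q : Q, q⁻¹ = q := fun q => inv_eq_of_mul_eq_one_right (hQ q)
  calc a * b = (a * b)⁻¹ := (h _).symm
    _ = b⁻¹ * a⁻¹ := mul_inv_rev a b
    _ = b * a := by rw [h, h]

theorem cocycle_data (G : Type) [Group G] [Finite G] (N : Subgroup G) [N.Normal]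
    (hodd : Odd (Nat.card N)) (h2 : IsPGroup 2 (G ⧸ N))
    (hsq : ∀ g : G, ∀ a ∈ N, g * g * a = a * (g * g)) :
    ∃ (M : Type) (_ : AddCommGroup M) (_ : Fintype M) (Q : Type) (_ : CommGroup Q)
      (α : G →* Q) (c : Q → G → M) (ν : G → M),
      Odd (Fintype.card M) ∧ (∀ q : Q, q * q = 1) ∧ ν 1 = 0 ∧
      (∀ g g' : G, ν (g * g') = ν g + c (α g) g') ∧
      ∀ g g' : G, ν g = ν g' → (g : G ⧸ N) = (g' : G ⧸ N) → g = g' := by
  have hcomm := dgrp_comm N hodd hsq
  have : Fact (Nat.Prime 2) := ⟨Nat.prime_two⟩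
  obtain ⟨e, he⟩ := IsPGroup.exists_card_eq h2
  have hcop : Nat.Coprime (Nat.card N) N.index := by
    rw [Subgroup.index_eq_card, he]
    exact Nat.Coprime.pow_right e ((Nat.coprime_two_right).mpr hodd)
  obtain ⟨H, hH⟩ := Subgroup.exists_right_complement'_of_coprime hcop
  have hex : ∀ g : G, ∃ n : N, ∃ h : H, (n : G) * (h : G) = g := by
    intro g
    obtain ⟨⟨n, h⟩, hnh⟩ := hH.2 g
    exact ⟨n, h, hnh⟩
  have huniq : ∀ (n n' : N) (h h' : H), (n : G) * (h : G) = (n' : G) * (h' : G) → n = n' := by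
    intro n n' h h' hnh
    have := hH.1 (a₁ := (n, h)) (a₂ := (n', h')) hnh
    exact congrArg Prod.fst this
  choose nu eta hne using hex
  let cN : CommGroup N := { (inferInstance : Group N) with mul_comm := hcomm }
  let A : G →* MulAut N := MulAut.conjNormal
  have hQ : ∀ q : A.range, q * q = 1 := by
    rintro ⟨q, g, rfl⟩
    apply Subtype.ext
    show A g * A g = 1
    rw [← map_mul]
    ext a
    simp only [A, MulAut.conjNormal_apply, MulAut.one_apply]
    rw [hsq g a a.2]
    group
  let cQ : CommGroup A.range :=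
    { (inferInstance : Group A.range) with mul_comm := dgrp_comm2 hQ }
  refine ⟨Additive N, Additive.addCommGroup, Fintype.ofFinite _, A.range, cQ, A.rangeRestrict,
    fun q g' => Additive.ofMul (q.1 (nu g')), fun g => Additive.ofMul (nu g), ?_, hQ, ?_, ?_, ?_⟩
  · rw [← @Nat.card_eq_fintype_card _ (Fintype.ofFinite _)]
    exact hodd
  · have : nu 1 = 1 := huniq (nu 1) 1 (eta 1) 1 (by rw [hne]; simp)
    show Additive.ofMul (nu 1) = 0
    rw [this]
    rfl
  · intro g g'
    have key : nu (g * g') = nu g * A g (nu g') := by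
      apply huniq _ _ (eta (g * g')) (eta g * eta g')
      rw [hne]
      have hc : ((nu g : N) : G) * (A g (nu g') : N) = (A g (nu g') : N) * (nu g : N) := by
        rw [← Subgroup.coe_mul, ← Subgroup.coe_mul, hcomm]
      rw [Subgroup.coe_mul, Subgroup.coe_mul, hc]
      simp only [A, MulAut.conjNormal_apply]
      have e1 := hne g
      have e2 := hne g'
      calc g * g' = g * ((nu g' : G) * (eta g' : G)) := by rw [e2]
        _ = g * (nu g' : G) * g⁻¹ * g * (eta g' : G) := by group
        _ = g * (nu g' : G) * g⁻¹ * ((nu g : G) * (eta g : G)) * (eta g' : G) := by rw [e1]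
        _ = g * (nu g' : G) * g⁻¹ * (nu g : G) * ((eta g : G) * (eta g' : G)) := by group
    show Additive.ofMul (nu (g * g')) = Additive.ofMul (nu g) + Additive.ofMul (A g (nu g'))
    rw [key]
    rfl
  · intro g g' hν hq
    have hn : nu g = nu g' := Additive.ofMul.injective hν
    have hmem : g⁻¹ * g' ∈ N := QuotientGroup.eq.mp hq
    have e1 := hne g
    have e2 := hne g'
    have e3 : g⁻¹ * g' = ((eta g)⁻¹ * eta g' : H) := by
      rw [Subgroup.coe_mul, Subgroup.coe_inv]
      calc g⁻¹ * g' = ((nu g : G) * (eta g : G))⁻¹ * ((nu g' : G) * (eta g' : G)) := by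
            rw [e1, e2]
        _ = (eta g : G)⁻¹ * (eta g' : G) := by rw [hn]; group
    have hmemH : g⁻¹ * g' ∈ H := by
      rw [e3]
      exact Subtype.property _
    have h1 : g⁻¹ * g' = 1 := Subgroup.disjoint_def.mp hH.disjoint hmem hmemH
    exact inv_mul_eq_one.mp h1

theorem dgrp_f2 (a : F2) : a = 0 ∨ a = 1 := by
  revert a
  decide

theorem dgrp_f2_add (a b : F2) : a + b = 1 ↔ ¬ (a = 1 ↔ b = 1) := by
  revert a b
  decide

theorem dgrp_f2_ne (a b : F2) (h : a ≠ b) : b = a + 1 := by
  revert a b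
  decide

theorem dgrp_f2_two (a : F2) : a + 1 + 1 = a := by
  revert a
  decide

variable {V : Type} [AddCommGroup V] [Module F2 V]

theorem dgrp_pm_append {M : Type} [AddCommGroup M] (J J' : List (Du V × M)) (x : V) :
    pm (J ++ J') x = pm J x + pm J' x := by
  simp only [pm, List.map_append, List.sum_append]

theorem dgrp_pm_cons {M : Type} [AddCommGroup M] (p : Du V × M) (J : List (Du V × M)) (x : V) :
    pm (p :: J) x = (if p.1 x = 1 then -p.2 else p.2) + pm J x := by
  simp only [pm, List.map_cons, List.sum_cons]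

theorem dgrp_pm_twist {M : Type} [AddCommGroup M] (χ : Du V) (J : List (Du V × M)) (x : V) :
    pm (J.map (fun p => (p.1 + χ, p.2))) x = if χ x = 1 then -pm J x else pm J x := by
  induction J with
  | nil => simp [pm]
  | cons p J ih =>
    rw [List.map_cons, dgrp_pm_cons, dgrp_pm_cons, ih]
    simp only [LinearMap.add_apply, dgrp_f2_add]
    by_cases h1 : χ x = 1 <;> by_cases h2 : p.1 x = 1 <;> simp [h1, h2, add_comm]

theorem junta {M : Type} [AddCommGroup M] [Fintype M] (hM : Odd (Fintype.card M))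
    (X : Finset (Du V)) : ∀ φ : V → M, (∀ x x' : V, (∀ χ ∈ X, χ x = χ x') → φ x = φ x') →
      ∃ J : List (Du V × M), J.length ≤ 2 ^ X.card ∧ ∀ x, φ x = pm J x := by
  obtain ⟨k, hk⟩ := hM
  have hhalf : ∀ c : M, (k + 1) • c + (k + 1) • c = c := by
    intro c
    rw [← add_nsmul]
    have : k + 1 + (k + 1) = Fintype.card M + 1 := by omega
    rw [this, succ_nsmul, card_nsmul_eq_zero, zero_add]
  induction X using Finset.induction_on with
  | empty =>
    intro φ hφ
    refine ⟨[(0, φ 0)], by simp, fun x => ?_⟩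
    rw [hφ x 0 (by simp)]
    simp [pm]
  | insert χ X0 hχ ih =>
    intro φ hφ
    rw [card_insert_of_notMem hχ]
    by_cases hin : InSp X0 χ
    · obtain ⟨J, hJ, hJ'⟩ := ih φ (by
        intro x x' hx
        apply hφ
        intro ψ hψ
        rcases mem_insert.mp hψ with rfl | hψ
        · have := hin (x - x') (fun ρ hρ => by rw [map_sub, hx ρ hρ, sub_self])
          rw [map_sub] at this
          exact sub_eq_zero.mp this
        · exact hx ψ hψ)
      exact ⟨J, hJ.trans (Nat.pow_le_pow_right (by norm_num) (Nat.le_succ _)), hJ'⟩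
    · simp only [InSp, not_forall] at hin
      obtain ⟨x0, hx0, hx1⟩ := hin
      have hx1' : χ x0 = 1 := (dgrp_f2 _).resolve_left hx1
      have hsame : ∀ x x' : V, (∀ ψ ∈ X0, ψ x = ψ x') → χ x = χ x' →
          φ x = φ x' ∧ φ (x + x0) = φ (x' + x0) := by
        intro x x' hx hc
        constructor
        · apply hφ
          intro ψ hψ
          rcases mem_insert.mp hψ with rfl | hψ
          · exact hc
          · exact hx ψ hψ
        · apply hφ
          intro ψ hψ
          rcases mem_insert.mp hψ with rfl | hψ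
          · rw [map_add, map_add, hc]
          · rw [map_add, map_add, hx ψ hψ]
      have hdiff : ∀ x x' : V, (∀ ψ ∈ X0, ψ x = ψ x') → χ x ≠ χ x' →
          φ x = φ (x' + x0) ∧ φ (x + x0) = φ x' := by
        intro x x' hx hc
        have hc' := dgrp_f2_ne _ _ hc
        constructor
        · apply hφ
          intro ψ hψ
          rcases mem_insert.mp hψ with rfl | hψ
          · rw [map_add, hc', hx1', dgrp_f2_two]
          · rw [map_add, hx0 ψ hψ, add_zero, hx ψ hψ]
        · apply hφ
          intro ψ hψ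
          rcases mem_insert.mp hψ with rfl | hψ
          · rw [map_add, hc', hx1']
          · rw [map_add, hx0 ψ hψ, add_zero, hx ψ hψ]
      obtain ⟨J1, hJ1, hJ1'⟩ := ih (fun x => (k + 1) • (φ x + φ (x + x0))) (by
        intro x x' hx
        by_cases hc : χ x = χ x'
        · obtain ⟨e1, e2⟩ := hsame x x' hx hc
          simp only [e1, e2]
        · obtain ⟨e1, e2⟩ := hdiff x x' hx hc
          show (k + 1) • (φ x + φ (x + x0)) = (k + 1) • (φ x' + φ (x' + x0))
          rw [e1, e2, add_comm (φ x')])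
      obtain ⟨J2, hJ2, hJ2'⟩ := ih (fun x => if χ x = 1 then -((k + 1) • (φ x - φ (x + x0)))
          else (k + 1) • (φ x - φ (x + x0))) (by
        intro x x' hx
        by_cases hc : χ x = χ x'
        · obtain ⟨e1, e2⟩ := hsame x x' hx hc
          simp only [e1, e2, hc]
        · obtain ⟨e1, e2⟩ := hdiff x x' hx hc
          have hs : (k + 1) • (φ x - φ (x + x0)) = -((k + 1) • (φ x' - φ (x' + x0))) := by
            rw [e1, e2, ← smul_neg, neg_sub]
          by_cases h1 : χ x = 1
          · have h2 : ¬ χ x' = 1 := fun h => hc (h1.trans h.symm)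
            simp only [if_pos h1, if_neg h2, hs, neg_neg]
          · have h2 : χ x' = 1 := by
              rw [dgrp_f2_ne _ _ hc, (dgrp_f2 _).resolve_right h1, zero_add]
            simp only [if_neg h1, if_pos h2, hs])
      refine ⟨J1 ++ J2.map (fun p => (p.1 + χ, p.2)), ?_, fun x => ?_⟩
      · rw [List.length_append, List.length_map, pow_succ]
        omega
      · rw [dgrp_pm_append, dgrp_pm_twist, ← hJ1' x, ← hJ2' x]
        have hfin : φ x = (k + 1) • (φ x + φ (x + x0)) + (k + 1) • (φ x - φ (x + x0)) := by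
          rw [← smul_add]
          have : φ x + φ (x + x0) + (φ x - φ (x + x0)) = φ x + φ x := by abel
          rw [this, smul_add, hhalf]
        by_cases h1 : χ x = 1
        · simp only [if_pos h1, neg_neg]
          exact hfin
        · simp only [if_neg h1]
          exact hfin

theorem dgrp_ite_add {Q : Type} [CommGroup Q] (q : Q) (hq : q * q = 1) (s t : F2) :
    (if s + t = 1 then q else 1) = (if s = 1 then q else 1) * (if t = 1 then q else 1) := by
  simp only [dgrp_f2_add]
  by_cases h1 : s = 1 <;> by_cases h2 : t = 1 <;> simp [h1, h2, hq]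

theorem dgrp_form {G Q : Type} [Group G] [Fintype G] [CommGroup Q] (α : G →* Q)
    (hQ : ∀ q : Q, q * q = 1) (l : List (Du V × G × G)) :
    ∃ (lam : G → Du V) (k : Q), ∀ x : V,
      α (prog l x) = k * ∏ g : G, if lam g x = 1 then α g else 1 := by
  induction l using List.reverseRecOn with
  | nil =>
    refine ⟨fun _ => 0, 1, fun x => ?_⟩
    rw [prog_nil]
    simp
  | append_singleton l p ih =>
    obtain ⟨lam, k, hk⟩ := ih
    refine ⟨fun g => lam g + if g = p.2.2⁻¹ * p.2.1 then p.1 else 0, k * α p.2.2, fun x => ?_⟩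
    rw [prog_snoc, map_mul, hk]
    have e1 : ∀ g : G, (if (lam g + if g = p.2.2⁻¹ * p.2.1 then p.1 else 0) x = 1 then α g else 1)
        = (if lam g x = 1 then α g else 1) *
          (if g = p.2.2⁻¹ * p.2.1 then (if p.1 x = 1 then α g else 1) else 1) := by
      intro g
      rw [LinearMap.add_apply, dgrp_ite_add _ (hQ _)]
      by_cases hg : g = p.2.2⁻¹ * p.2.1
      · simp only [if_pos hg]
      · simp only [if_neg hg, LinearMap.zero_apply, zero_ne_one, if_false]
    rw [prod_congr rfl (fun g _ => e1 g), prod_mul_distrib, prod_ite_eq']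
    simp only [mem_univ, if_true]
    have e2 : α (if p.1 x = 1 then p.2.1 else p.2.2)
        = α p.2.2 * (if p.1 x = 1 then α (p.2.2⁻¹ * p.2.1) else 1) := by
      by_cases h1 : p.1 x = 1
      · simp only [if_pos h1, ← map_mul, mul_inv_cancel_left]
      · simp only [if_neg h1, mul_one]
    rw [e2]
    ac_rfl

theorem dep_prog {G Q : Type} [Group G] [Fintype G] [CommGroup Q] (α : G →* Q)
    (hQ : ∀ q : Q, q * q = 1) (l : List (Du V × G × G)) :
    ∃ X : Finset (Du V), X.card ≤ Fintype.card G ∧
      ∀ x x' : V, (∀ χ ∈ X, χ x = χ x') → α (prog l x) = α (prog l x') := by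
  obtain ⟨lam, k, hk⟩ := dgrp_form α hQ l
  refine ⟨univ.image lam, card_image_le.trans (by rw [card_univ]), fun x x' hx => ?_⟩
  rw [hk, hk]
  congr 1
  apply prod_congr rfl
  intro g _
  rw [hx (lam g) (mem_image_of_mem _ (mem_univ g))]

theorem sparse_prog {G Q M : Type} [Group G] [Fintype G] [CommGroup Q] [AddCommGroup M] [Fintype M]
    (hM : Odd (Fintype.card M)) (α : G →* Q) (hQ : ∀ q : Q, q * q = 1) (c : Q → G → M) (ν : G → M)
    (h1 : ν 1 = 0) (hν : ∀ g g' : G, ν (g * g') = ν g + c (α g) g') (l : List (Du V × G × G)) :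
    ∃ J : List (Du V × M), J.length ≤ 2 ^ (Fintype.card G + 1) * l.length ∧
      ∀ x, ν (prog l x) = pm J x := by
  induction l using List.reverseRecOn with
  | nil =>
    refine ⟨[], by simp, fun x => ?_⟩
    rw [prog_nil, h1]
    simp [pm]
  | append_singleton l p ih =>
    obtain ⟨J, hJ, hJ'⟩ := ih
    obtain ⟨X, hX, hX'⟩ := dep_prog α hQ l
    obtain ⟨J2, hJ2, hJ2'⟩ := junta hM (insert p.1 X)
      (fun x => c (α (prog l x)) (if p.1 x = 1 then p.2.1 else p.2.2)) (by
        intro x x' hx
        have e1 := hX' x x' (fun χ hχ => hx χ (mem_insert_of_mem hχ))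
        have e2 := hx p.1 (mem_insert_self _ _)
        simp only [e1, e2])
    refine ⟨J ++ J2, ?_, fun x => ?_⟩
    · have h3 : 2 ^ (insert p.1 X).card ≤ 2 ^ (Fintype.card G + 1) :=
        Nat.pow_le_pow_right (by norm_num) ((card_insert_le _ _).trans (by omega))
      rw [List.length_append, List.length_append, List.length_singleton, Nat.mul_succ]
      omega
    · rw [prog_snoc, hν, dgrp_pm_append, ← hJ' x, ← hJ2' x]

end Pool.Agent.P.MP_85fe51_lc.DA
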