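import Mathlib
import Pool.Agent.P.MP_85fe51_lc.DLin

set_option autoImplicit false

namespace Pool.Agent.P.MP_85fe51_lc.DA

open Finset
open scoped Classical

variable {V : Type} [AddCommGroup V] [Module F2 V] [Fintype V]

theorem card_cyl {k : ℕ} (Gs : Fin k → Finset (Du V)) (h : ∀ i, Indep (Gs i)) :
    (cyl Gs).card * 2 ^ (∑ i, (Gs i).card) = Fintype.card V ^ k := by
  have e : cyl Gs = Fintype.piFinset (fun i => oneF (Gs i)) := by
    ext y
    simp only [mem_cyl, Fintype.mem_piFinset, mem_oneF]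
  rw [e, Fintype.card_piFinset, ← prod_pow_eq_pow_sum, ← prod_mul_distrib,
    prod_congr rfl fun i _ => card_oneF (h i), prod_const, card_univ, Fintype.card_fin]

theorem drest_ext {k : ℕ} (G H : Finset (Du V)) (Gs : Fin k → Finset (Du V))
    (hGs : ∀ i, Gs i ⊆ G) (hd : Disjoint H G) (P : Finset (Fin k)) :
    ∃ Gs' : Fin k → Finset (Du V), (∀ i, Gs' i ⊆ G ∪ H) ∧
      ∑ i, (Gs' i).card = ∑ i, (Gs i).card + P.card * H.card ∧
      ∀ y, y ∈ cyl Gs' ↔ y ∈ cyl Gs ∧ ∀ i ∈ P, ∀ χ ∈ H, χ (y i) = 1 := by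
  refine ⟨fun i => if i ∈ P then Gs i ∪ H else Gs i, fun i => ?_, ?_, fun y => ?_⟩
  · dsimp only
    split_ifs
    · exact union_subset_union_left (hGs i)
    · exact (hGs i).trans subset_union_left
  · have h1 : ∀ i, (if i ∈ P then Gs i ∪ H else Gs i).card =
        (Gs i).card + if i ∈ P then H.card else 0 := fun i => by
      split_ifs
      · exact card_union_of_disjoint (hd.symm.mono_left (hGs i))
      · rfl
    simp only [h1, sum_add_distrib, sum_ite_mem, univ_inter, sum_const, smul_eq_mul]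
  · simp only [mem_cyl]
    refine ⟨fun h => ⟨fun i χ hχ => h i χ ?_, fun i hi χ hχ => h i χ ?_⟩, fun h i χ hχ => ?_⟩
    · split_ifs
      · exact mem_union_left _ hχ
      · exact hχ
    · rw [if_pos hi]
      exact mem_union_right _ hχ
    · split_ifs at hχ with hi
      · exact (mem_union.1 hχ).elim (h.1 i χ) (h.2 i hi χ)
      · exact h.1 i χ hχ

theorem drest_lt {k j : ℕ} (hj : j ≤ k) : (univ.filter fun i : Fin k => i.val < j).card = j := by
  rw [Fin.card_filter_val_lt, min_eq_right hj]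

theorem drest_le (k j : ℕ) : (univ.filter fun i : Fin k => j ≤ i.val).card = k - j := by
  have h := card_filter_add_card_filter_not (s := (univ : Finset (Fin k))) fun i => i.val < j
  simp only [not_lt, Fin.card_filter_val_lt, card_univ, Fintype.card_fin] at h
  omega

theorem card_cyl_ext {k : ℕ} (G H : Finset (Du V)) (Gs : Fin k → Finset (Du V))
    (hGs : ∀ i, Gs i ⊆ G) (hd : Disjoint H G) (hi : Indep (G ∪ H)) (j : ℕ) :
    ((cyl Gs).filter (fun y => ∀ i : Fin k, j ≤ i.val → ∀ χ ∈ H, χ (y i) = 1)).card *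
      2 ^ ((k - j) * H.card) = (cyl Gs).card := by
  obtain ⟨Gs', h1, h2, h3⟩ := drest_ext G H Gs hGs hd (univ.filter fun i : Fin k => j ≤ i.val)
  have h4 := card_cyl Gs' fun i => hi.mono (h1 i)
  have h5 := card_cyl Gs fun i => hi.mono ((hGs i).trans subset_union_left)
  have e : (cyl Gs).filter (fun y => ∀ i : Fin k, j ≤ i.val → ∀ χ ∈ H, χ (y i) = 1) = cyl Gs' := by
    ext y
    simp only [h3, mem_filter, mem_univ, true_and]
  rw [h2, drest_le, ← h5, pow_add] at h4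
  refine Nat.eq_of_mul_eq_mul_right (pow_pos two_pos (∑ i, (Gs i).card)) ?_
  rw [e, ← h4]
  ring

/-- density restoring. -/
theorem restore {k v : ℕ} (S : Finset (Du V)) (Bad : Finset (Fin k → V))
    (hB : Fintype.card V ^ k ≤ 2 ^ v * Bad.card) :
    ∃ (G : Finset (Du V)) (Gs : Fin k → Finset (Du V)) (B : Finset (Fin k → V)),
      Indep G ∧ (∀ i, Gs i ⊆ G) ∧ G.card ≤ v ∧ B ⊆ Bad ∧ B ⊆ cyl Gs ∧ B.Nonempty ∧
      (cyl Gs).card ≤ 2 ^ v * B.card ∧
      ∀ j ≤ k, ∀ H : Finset (Du V), H ⊆ S → Disjoint H G → Indep (G ∪ H) →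
        (B.filter (fun y => H ⊆ Aset S j y)).card * 2 ^ (j * H.card) ≤ 2 ^ H.card * B.card := by
  let P : ℕ → Prop := fun n => ∃ (G : Finset (Du V)) (Gs : Fin k → Finset (Du V)),
    Indep G ∧ (∀ i, Gs i ⊆ G) ∧ G.card = n ∧
      2 ^ n * Bad.card ≤ (Bad ∩ cyl Gs).card * 2 ^ (∑ i, (Gs i).card)
  have hpos : 0 < Bad.card := by
    have h : 0 < Fintype.card V ^ k := pow_pos Fintype.card_pos k
    exact Nat.pos_of_mul_pos_left (h.trans_le hB)
  have h0 : P 0 := by
    refine ⟨∅, fun _ => ∅, indep_empty, fun _ => Subset.rfl, rfl, ?_⟩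
    rw [inter_eq_left.2 fun y _ => mem_cyl.2 fun i χ h => absurd h (notMem_empty χ)]
    simp
  have hv : ∀ n, P n → n ≤ v := by
    rintro n ⟨G, Gs, h1, h2, -, h4⟩
    have h5 := h4.trans (Nat.mul_le_mul_right _ (card_le_card inter_subset_right))
    rw [card_cyl Gs fun i => h1.mono (h2 i)] at h5
    exact (Nat.pow_le_pow_iff_right one_lt_two).1 (Nat.le_of_mul_le_mul_right (h5.trans hB) hpos)
  obtain ⟨n, ⟨G, Gs, h1, h2, rfl, h4⟩, hn⟩ : ∃ n, P n ∧ ∀ m, P m → m ≤ n :=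
    ⟨Nat.findGreatest P v, Nat.findGreatest_spec (Nat.zero_le v) h0,
      fun m hm => Nat.le_findGreatest (hv m hm) hm⟩
  have hw := pow_pos (two_pos (α := ℕ)) (∑ i, (Gs i).card)
  have h5 : Bad.card ≤ (Bad ∩ cyl Gs).card * 2 ^ (∑ i, (Gs i).card) :=
    (Nat.le_mul_of_pos_left _ (pow_pos two_pos _)).trans h4
  refine ⟨G, Gs, Bad ∩ cyl Gs, h1, h2, hv _ ⟨G, Gs, h1, h2, rfl, h4⟩, inter_subset_left,
    inter_subset_right, card_pos.1 (Nat.pos_of_mul_pos_right (hpos.trans_le h5)), ?_,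
    fun j hj H _ hd hi => ?_⟩
  · refine Nat.le_of_mul_le_mul_right ?_ hw
    rw [card_cyl Gs fun i => h1.mono (h2 i), mul_assoc]
    exact hB.trans (Nat.mul_le_mul_left _ h5)
  · by_contra hc
    rw [not_le] at hc
    obtain ⟨Gs', a1, a2, a3⟩ := drest_ext G H Gs h2 hd (univ.filter fun i : Fin k => i.val < j)
    have a4 : ((Bad ∩ cyl Gs).filter (fun y => H ⊆ Aset S j y)).card ≤ (Bad ∩ cyl Gs').card := by
      refine card_le_card fun y hy => ?_
      rw [mem_filter, mem_inter] at hy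
      exact mem_inter.2 ⟨hy.1.1, (a3 y).2 ⟨hy.1.2, fun i hi χ hχ =>
        (mem_Aset.1 (hy.2 hχ)).2 i (mem_filter.1 hi).2⟩⟩
    have a5 := hn _ ⟨G ∪ H, Gs', hi, a1, card_union_of_disjoint hd.symm, by
      rw [a2, drest_lt hj, pow_add, pow_add]
      calc _ = 2 ^ H.card * (2 ^ G.card * Bad.card) := by ring
        _ ≤ 2 ^ H.card * (Bad ∩ cyl Gs).card * 2 ^ (∑ i, (Gs i).card) := by
          rw [mul_assoc]
          exact Nat.mul_le_mul_left _ h4
        _ ≤ (Bad ∩ cyl Gs').card * 2 ^ (j * H.card) * 2 ^ (∑ i, (Gs i).card) :=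
          Nat.mul_le_mul_right _ (hc.le.trans (Nat.mul_le_mul_right _ a4))
        _ = _ := by ring⟩
    rw [show H.card = 0 by omega, mul_zero, pow_zero, mul_one, one_mul] at hc
    exact hc.not_ge (card_filter_le _ _)

/-- the hybrid points are spread. -/
theorem spread_hyb {k j : ℕ} (hj : j ≤ k) (S G H : Finset (Du V)) (Gs : Fin k → Finset (Du V))
    (B : Finset (Fin k → V)) (hGs : ∀ i, Gs i ⊆ G) (hd : Disjoint H G) (hi : Indep (G ∪ H))
    (hB : (B.filter (fun y => H ⊆ Aset S j y)).card * 2 ^ (j * H.card) ≤ 2 ^ H.card * B.card) :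
    ((B ×ˢ cyl Gs).filter (fun p => H ⊆ Aset S k (hyb j p.1 p.2))).card * 2 ^ (k * H.card) ≤
      2 ^ H.card * (B ×ˢ cyl Gs).card := by
  obtain ⟨C, h3, hC⟩ : ∃ C : Finset (Fin k → V), C.card * 2 ^ ((k - j) * H.card) = (cyl Gs).card ∧
      ∀ y ∈ cyl Gs, (∀ i : Fin k, j ≤ i.val → ∀ χ ∈ H, χ (y i) = 1) → y ∈ C :=
    ⟨_, card_cyl_ext G H Gs hGs hd hi j, fun y a b => by simp only [mem_filter]; exact ⟨a, b⟩⟩
  have h1 : (B ×ˢ cyl Gs).filter (fun p => H ⊆ Aset S k (hyb j p.1 p.2)) ⊆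
      B.filter (fun y => H ⊆ Aset S j y) ×ˢ C := by
    intro p hp
    rw [mem_filter, mem_product] at hp
    have h := fun χ (hχ : χ ∈ H) => mem_Aset.1 (hp.2 hχ)
    refine mem_product.2 ⟨mem_filter.2 ⟨hp.1.1, fun χ hχ => mem_Aset.2 ⟨(h χ hχ).1, fun i hi => ?_⟩⟩,
      hC _ hp.1.2 fun i hi χ hχ => ?_⟩
    · have h2 := (h χ hχ).2 i i.2
      rwa [hyb, if_pos hi] at h2
    · have h2 := (h χ hχ).2 i i.2
      rwa [hyb, if_neg hi.not_gt] at h2
  have h2 := card_le_card h1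
  have h4 : k * H.card = j * H.card + (k - j) * H.card := by
    rw [← add_mul, Nat.add_sub_cancel' hj]
  rw [card_product] at h2
  refine (Nat.mul_le_mul_right _ h2).trans ?_
  rw [card_product, h4, pow_add, mul_mul_mul_comm, h3, ← mul_assoc]
  exact Nat.mul_le_mul_right _ hB

end Pool.Agent.P.MP_85fe51_lc.DA
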