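import Mathlib
import Pool.Agent.P.MP_85fe51_lc.DRest

set_option autoImplicit false

namespace Pool.Agent.P.MP_85fe51_lc.DA

open Finset
open scoped Classical

variable {V : Type} [AddCommGroup V] [Module F2 V]

/-- no small part of `T` spans a large part of `T` modulo `G`. -/
def NonRigid (G T : Finset (Du V)) (k r : ℕ) : Prop :=
  ∀ I : Finset (Du V), I ⊆ T → I.card ≤ r →
    8 * k * (T.filter (fun γ => InSp (G ∪ I) γ)).card ≤ T.card

/-- a bad split at level `j`. -/
def BadAt (T : Finset (Du V)) {k : ℕ} (j : ℕ) (y : Fin k → V) : Prop :=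
  4 * k * (Aset T (j + 1) y).card + (Aset T j y).card < 2 * k * (Aset T j y).card

theorem big_of_no_bad (T : Finset (Du V)) {k : ℕ} (hk : 1 ≤ k) (y : Fin k → V) (j : ℕ)
    (hj : j ≤ k) (h : ∀ i < j, ¬ BadAt T i y) : T.card ≤ 2 * 2 ^ j * (Aset T j y).card := by
  have hk' : (1 : ℝ) ≤ k := by exact_mod_cast hk
  have key : ∀ i ≤ j, (2 * (k : ℝ) - i) * T.card ≤ 2 * k * 2 ^ i * (Aset T i y).card := by
    intro i
    induction i with
    | zero =>
      intro _
      have e : Aset T 0 y = T := by
        ext χ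
        simp [mem_Aset]
      simp [e]
    | succ i ih =>
      intro hi
      have h2 : 2 * (k : ℝ) * (Aset T i y).card ≤
          4 * k * (Aset T (i + 1) y).card + (Aset T i y).card := by
        exact_mod_cast not_lt.1 (h i (by omega))
      refine le_of_mul_le_mul_left ?_ (show (0 : ℝ) < 2 * k by linarith)
      have h3 := mul_le_mul_of_nonneg_left (ih (by omega)) (show (0 : ℝ) ≤ 2 * k - 1 by linarith)
      have h4 := mul_le_mul_of_nonneg_left h2 (show (0 : ℝ) ≤ 2 * k * 2 ^ i by positivity)
      have h5 : (0 : ℝ) ≤ i * T.card := by positivity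
      push_cast
      rw [pow_succ]
      linarith
  have h1 := key j le_rfl
  have h2 : (j : ℝ) ≤ k := by exact_mod_cast hj
  have h3 := mul_le_mul_of_nonneg_right h2 (Nat.cast_nonneg (α := ℝ) T.card)
  have h4 : (T.card : ℝ) ≤ 2 * 2 ^ j * (Aset T j y).card :=
    le_of_mul_le_mul_left (a := (k : ℝ)) (by linarith) (by linarith)
  exact_mod_cast h4

variable [Fintype V]

theorem split_lemma (G Gj T : Finset (Du V)) (hGj : Gj ⊆ G) {k r : ℕ} (hk : 1 ≤ k)
    (hT : NonRigid G T k r) :
    (((oneF Gj).filter (fun v =>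
        4 * k * (T.filter (fun χ => χ v = 1)).card + T.card < 2 * k * T.card)).card : ℝ) *
      (1 + 1 / (4 * (k : ℝ))) ^ r ≤ (oneF Gj).card := by
  have hk' : (0 : ℝ) < k := by exact_mod_cast hk
  set bad : V → Prop := fun v =>
    4 * k * (T.filter (fun χ => χ v = 1)).card + T.card < 2 * k * T.card with hbad
  set e : ℝ := 1 + 1 / (4 * (k : ℝ)) with he
  have he0 : 0 ≤ e := by positivity
  let X : Finset (Du V) → Finset V := fun I => (oneF Gj).filter (fun v => ∀ χ ∈ I, χ v = 0)
  have mX : ∀ I v, v ∈ X I ↔ (∀ χ ∈ Gj, χ v = 1) ∧ ∀ χ ∈ I, χ v = 0 := fun I v => by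
    simp only [X, mem_filter, mem_oneF]
  have key : ∀ (i : ℕ) (I : Finset (Du V)), I ⊆ T → I.card + i ≤ r →
      (((X I).filter bad).card : ℝ) * e ^ i ≤ (X I).card := by
    intro i
    induction i with
    | zero =>
      intro I _ _
      simpa using card_filter_le _ _
    | succ i ih =>
      intro I hI hr
      rcases T.eq_empty_or_nonempty with rfl | hne
      · have : (X I).filter bad = ∅ := filter_eq_empty_iff.2 fun v _ => by simp [hbad]
        simp [this]
      have hT0 : (0 : ℝ) < T.card := by exact_mod_cast hne.card_pos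
      set T0 := T.filter (fun γ => ¬ InSp (G ∪ I) γ) with hT0d
      set B := (X I).filter bad with hB
      have h1 : ∀ v ∈ B, e * T.card / 2 ≤ ((T0.filter (fun χ => χ v = 0)).card : ℝ) := by
        intro v hv
        have a1 : (4 * k * (T.filter (fun χ => χ v = 1)).card + T.card : ℝ) < 2 * k * T.card := by
          exact_mod_cast (mem_filter.1 hv).2
        have a2 : (8 * k * (T.filter (fun γ => InSp (G ∪ I) γ)).card : ℝ) ≤ T.card := by
          have a0 : 8 * k * (T.filter (fun γ => InSp (G ∪ I) γ)).card ≤ T.card :=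
            le_trans (Nat.mul_le_mul_left _ (card_le_card fun γ hγ => mem_filter.2
              ⟨(mem_filter.1 hγ).1, InSp.mono (fun x hx => by simpa using hx)
                (mem_filter.1 hγ).2⟩)) (hT I hI (by omega))
          exact_mod_cast a0
        have a3 : T.card ≤ (T0.filter (fun χ => χ v = 0)).card +
            (T.filter (fun χ => χ v = 1)).card + (T.filter (fun γ => InSp (G ∪ I) γ)).card := by
          refine le_trans (card_le_card fun χ hχ => ?_)
            ((card_union_le _ _).trans (Nat.add_le_add_right (card_union_le _ _) _))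
          simp only [hT0d, mem_union, mem_filter]
          have := f2_cases (χ v)
          tauto
        have a4 := mul_le_mul_of_nonneg_left (Nat.cast_le (α := ℝ).2 a3)
          (show (0 : ℝ) ≤ 8 * k by positivity)
        push_cast at a4
        refine le_of_mul_le_mul_left ?_ (show (0 : ℝ) < 8 * k by positivity)
        have a5 : 8 * (k : ℝ) * (e * T.card / 2) = (4 * k + 1) * T.card := by
          rw [he]
          field_simp
          ring
        rw [a5]
        linarith
      have h2 : ∀ χ ∈ T0, ((B.filter (fun v => χ v = 0)).card : ℝ) * e ^ i ≤ (X I).card / 2 := by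
        intro χ hχ
        obtain ⟨c1, c2⟩ := mem_filter.1 hχ
        have b1 := ih (insert χ I) (insert_subset c1 hI) (by
          have := card_insert_le χ I
          omega)
        have b2 := halving c2 (X I) (fun x hx z hz => (mX I _).2 ⟨fun ξ hξ => by
          rw [map_add, ((mX I x).1 hx).1 ξ hξ, hz ξ (mem_union_left _ (hGj hξ)), add_zero],
          fun ξ hξ => by
          rw [map_add, ((mX I x).1 hx).2 ξ hξ, hz ξ (mem_union_right _ hξ), add_zero]⟩) 0
        have b3 : (X I).filter (fun x => χ x = 0) = X (insert χ I) := by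
          ext x
          simp only [mem_filter, mX, forall_mem_insert]
          tauto
        have b4 : B.filter (fun v => χ v = 0) = (X (insert χ I)).filter bad := by
          rw [← b3, hB, filter_comm]
        rw [b3] at b2
        have b5 : (2 * (X (insert χ I)).card : ℝ) = (X I).card := by exact_mod_cast b2
        rw [b4]
        linarith
      have h3 : ∑ v ∈ B, ((T0.filter (fun χ => χ v = 0)).card : ℝ) =
          ∑ χ ∈ T0, ((B.filter (fun v => χ v = 0)).card : ℝ) := by
        simp only [card_filter, Nat.cast_sum]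
        exact sum_comm
      have h4 := card_nsmul_le_sum B _ _ h1
      have h5 := sum_le_card_nsmul T0 _ _ h2
      rw [← sum_mul, ← h3] at h5
      rw [nsmul_eq_mul] at h4 h5
      have h6 := mul_le_mul_of_nonneg_right h4 (pow_nonneg he0 i)
      have h7 : (T0.card : ℝ) ≤ T.card := Nat.cast_le.2 (card_filter_le _ _)
      have h8 := mul_le_mul_of_nonneg_right h7 (Nat.cast_nonneg (α := ℝ) (X I).card)
      refine le_of_mul_le_mul_left ?_ hT0
      rw [pow_succ]
      linarith
  have h := key r ∅ (empty_subset _) (by simp)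
  have e0 : X ∅ = oneF Gj := by
    ext v
    simp only [mX, mem_oneF, notMem_empty, false_imp_iff, implies_true, and_true]
  rwa [e0] at h

theorem few_nonrigid {k : ℕ} (hk : 1 ≤ k) (G T : Finset (Du V)) (Gs : Fin k → Finset (Du V))
    (hGs : ∀ i, Gs i ⊆ G) (j : ℕ) (hj : j < k) (u : ℕ) :
    ((cyl Gs).filter (fun y => BadAt T j y ∧ NonRigid G (Aset T j y) k (4 * k * u))).card * 2 ^ u ≤
      (cyl Gs).card := by
  have hk' : (0 : ℝ) < k := by exact_mod_cast hk
  set Pd : (Fin k → V) → Prop := fun y =>
    BadAt T j y ∧ NonRigid G (Aset T j y) k (4 * k * u) with hPd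
  let i0 : Fin k := ⟨j, hj⟩
  have u1 : ∀ (y : Fin k → V) v, Aset T j (Function.update y i0 v) = Aset T j y := fun y v => by
    ext χ
    simp only [mem_Aset]
    refine and_congr_right fun _ => forall_congr' fun i => imp_congr_right fun hi => ?_
    rw [Function.update_of_ne fun h => by simp [h, i0] at hi]
  have u2 : ∀ (y : Fin k → V) v, Aset T (j + 1) (Function.update y i0 v) =
      (Aset T j y).filter (fun χ => χ v = 1) := fun y v => by
    ext χ
    rw [← u1 y v]
    simp only [mem_Aset, mem_filter, and_assoc]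
    refine and_congr_right fun _ => ⟨fun h => ⟨fun i hi => h i (by omega), ?_⟩, fun h i hi => ?_⟩
    · simpa using h i0 (Nat.lt_succ_self j)
    · by_cases e : i = i0
      · simpa [e] using h.2
      · exact h.1 i (lt_of_le_of_ne (by omega) fun e' => e (Fin.ext e'))
  have h1 : ∀ y ∈ cyl Gs, ((oneF (Gs i0)).filter
      (fun v => Pd (Function.update y i0 v))).card * 2 ^ u ≤ (oneF (Gs i0)).card := by
    intro y _
    by_cases hy : NonRigid G (Aset T j y) k (4 * k * u)
    · have a1 := split_lemma G (Gs i0) _ (hGs i0) hk hy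
      have a2 : (2 : ℝ) ^ u ≤ (1 + 1 / (4 * (k : ℝ))) ^ (4 * k * u) := by
        rw [pow_mul]
        refine pow_le_pow_left₀ (by norm_num) (le_trans (le_of_eq ?_)
          (one_add_mul_le_pow (le_trans (by norm_num : (-2 : ℝ) ≤ 0) (by positivity)) _)) u
        push_cast
        field_simp
        norm_num
      refine Nat.cast_le (α := ℝ).1 (le_trans ?_ a1)
      push_cast
      refine mul_le_mul (Nat.cast_le.2 (card_le_card fun v hv => ?_)) a2 (by positivity)
        (by positivity)
      have a3 := (mem_filter.1 hv).2.1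
      rw [BadAt, u1, u2] at a3
      exact mem_filter.2 ⟨(mem_filter.1 hv).1, a3⟩
    · rw [filter_eq_empty_iff.2 fun v _ hv => hy (u1 y v ▸ hv.2)]
      simp
  have inv : Function.Involutive fun p : (Fin k → V) × V =>
      (Function.update p.1 i0 p.2, p.1 i0) := fun p => by simp
  have h2 : (((cyl Gs).filter Pd) ×ˢ oneF (Gs i0)).card ≤ ((cyl Gs ×ˢ oneF (Gs i0)).filter
      (fun p => Pd (Function.update p.1 i0 p.2))).card := by
    refine card_le_card_of_injOn _ (fun p hp => ?_) inv.injective.injOn
    simp only [coe_product, Set.mem_prod, mem_coe, mem_filter, mem_product, mem_cyl,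
      mem_oneF] at hp ⊢
    refine ⟨⟨fun i χ hχ => ?_, hp.1.1 i0⟩, by simpa using hp.1.2⟩
    by_cases e : i = i0
    · subst e
      simpa using hp.2 χ hχ
    · rw [Function.update_of_ne e]
      exact hp.1.1 i χ hχ
  rw [card_product, card_filter _ (_ ×ˢ _), sum_product] at h2
  replace h2 := h2.trans (le_of_eq (sum_congr rfl fun y _ => (card_filter _ _).symm))
  have h3 := sum_le_card_nsmul _ _ _ h1
  rw [← sum_mul, smul_eq_mul] at h3
  rcases (cyl Gs).eq_empty_or_nonempty with e | ⟨y, hy⟩
  · simp [e]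
  have h4 : 0 < (oneF (Gs i0)).card := card_pos.2 ⟨y i0, mem_oneF.2 (mem_cyl.1 hy i0)⟩
  refine Nat.le_of_mul_le_mul_right (le_trans ?_ h3) h4
  rw [mul_right_comm]
  exact Nat.mul_le_mul_right _ h2

/-- one class of points: large at the last level, or large and rigid at level `j`. -/
theorem classify {k v : ℕ} (hk : 1 ≤ k) (G T : Finset (Du V)) (Gs : Fin k → Finset (Du V))
    (hGs : ∀ i, Gs i ⊆ G) (B : Finset (Fin k → V)) (hB : B ⊆ cyl Gs)
    (hv : (cyl Gs).card ≤ 2 ^ v * B.card) :
    ∃ j ≤ k, ∃ B' : Finset (Fin k → V), B' ⊆ B ∧ B.card ≤ 2 * (k + 1) * B'.card ∧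
      ∀ y ∈ B', T.card ≤ 2 * 2 ^ j * (Aset T j y).card ∧
        (j = k ∨ ¬ NonRigid G (Aset T j y) k (4 * k * (v + k + 1))) := by
  have ex : ∀ y : Fin k → V, ∃ j, j = k ∨ BadAt T j y := fun y => ⟨k, Or.inl rfl⟩
  have hm : ∀ y ∈ B, Nat.find (ex y) ∈ range (k + 1) := fun y _ =>
    mem_range.2 (Nat.lt_succ_of_le (Nat.find_min' _ (Or.inl rfl)))
  obtain ⟨j, hj, hmax⟩ := exists_max_image (range (k + 1))
    (fun j => (B.filter (fun y => Nat.find (ex y) = j)).card) ⟨0, by simp⟩
  have hj' : j ≤ k := Nat.le_of_lt_succ (mem_range.1 hj)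
  have h1 := sum_le_card_nsmul _ _ _ hmax
  rw [← card_eq_sum_card_fiberwise hm, card_range, smul_eq_mul] at h1
  set C := B.filter (fun y => Nat.find (ex y) = j) with hC
  have h2 : ∀ y ∈ C, T.card ≤ 2 * 2 ^ j * (Aset T j y).card := fun y hy =>
    big_of_no_bad T hk y j hj' fun i hi hb =>
      Nat.find_min (ex y) (by rwa [(mem_filter.1 hy).2]) (Or.inr hb)
  rcases hj'.eq_or_lt with e | hlt
  · exact ⟨j, hj', C, filter_subset _ _, h1.trans (Nat.mul_le_mul_right _ (by omega)),
      fun y hy => ⟨h2 y hy, Or.inl e⟩⟩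
  refine ⟨j, hj', C.filter (fun y => ¬ NonRigid G (Aset T j y) k (4 * k * (v + k + 1))),
    (filter_subset _ _).trans (filter_subset _ _), ?_,
    fun y hy => ⟨h2 y (mem_filter.1 hy).1, Or.inr (mem_filter.1 hy).2⟩⟩
  have h3 := (few_nonrigid hk G T Gs hGs j hlt (v + k + 1)).trans hv
  set n := ((cyl Gs).filter
    (fun y => BadAt T j y ∧ NonRigid G (Aset T j y) k (4 * k * (v + k + 1)))).card with hn
  have h4 : C.card ≤ (C.filter
      (fun y => ¬ NonRigid G (Aset T j y) k (4 * k * (v + k + 1)))).card + n := by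
    refine le_trans (card_le_card fun y hy => ?_) (card_union_le _ _)
    by_cases hr : NonRigid G (Aset T j y) k (4 * k * (v + k + 1))
    · have a := Nat.find_spec (ex y)
      rw [(mem_filter.1 hy).2] at a
      exact mem_union_right _ (mem_filter.2 ⟨hB (mem_filter.1 hy).1, a.resolve_left hlt.ne, hr⟩)
    · exact mem_union_left _ (mem_filter.2 ⟨hy, hr⟩)
  have h5 : n * (2 * 2 ^ k) ≤ B.card := by
    refine Nat.le_of_mul_le_mul_left (le_trans (le_of_eq ?_) h3) (Nat.two_pow_pos v)
    ring
  have h6 := Nat.mul_le_mul_left (2 * n) (Nat.succ_le_of_lt (Nat.lt_two_pow_self (n := k)))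
  have h7 := Nat.mul_le_mul_left (k + 1) h4
  rw [Nat.succ_eq_add_one] at h6
  nlinarith

end Pool.Agent.P.MP_85fe51_lc.DA
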