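import Mathlib
import Pool.Agent.P.MP_85fe51_lc.DSplit

set_option autoImplicit false

namespace Pool.Agent.P.MP_85fe51_lc.DA

open Finset
open scoped Classical

variable {V : Type} [AddCommGroup V] [Module F2 V]

theorem nc_add_col (S G : Finset (Du V)) {k : ℕ} (y : Fin k → V) :
    (Aset (star S G) k y).card ≤ nc G (Aset S k y) + col (Aset S k y) := by
  refine le_trans (card_le_card ?_) (card_union_le _ _)
  intro γ hγ
  obtain ⟨h1, h2⟩ := mem_Aset.1 hγ
  obtain ⟨h3, h4⟩ := mem_star.1 h1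
  have h5 : γ ∈ Aset S k y := mem_Aset.2 ⟨h3, h2⟩
  by_cases h : InSp ((Aset S k y).erase γ) γ
  · exact mem_union_left _ (mem_filter.2 ⟨h5, h4, h.mono subset_union_right⟩)
  · exact mem_union_right _ (mem_filter.2 ⟨h5, h⟩)

variable [Fintype V]

theorem nc_add_rank (G I X A : Finset (Du V)) (hXA : X ⊆ A) (hX : ∀ γ ∈ X, InSp (G ∪ I) γ)
    (hG : ∀ γ ∈ X, ¬ InSp G γ) : X.card ≤ nc G A + I.card := by
  refine le_trans ?_ (Nat.add_le_add_left (coloops_le G I X hX) _)
  refine le_trans (card_le_card ?_) (card_union_le _ _)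
  intro γ hγ
  by_cases h : InSp (G ∪ X.erase γ) γ
  · refine mem_union_left _ (mem_filter.2 ⟨hXA hγ, hG γ hγ, h.mono fun x hx => ?_⟩)
    simp only [mem_union, mem_erase] at hx ⊢
    exact hx.imp_right fun a => ⟨a.1, hXA a.2⟩
  · exact mem_union_right _ (mem_filter.2 ⟨hγ, h⟩)

theorem mass_rigid {k j r : ℕ} (hk : 1 ≤ k) (hj : j ≤ k) (S G : Finset (Du V)) (hG : Indep G)
    (Gs : Fin k → Finset (Du V)) (hGs : ∀ i, Gs i ⊆ G) (y : Fin k → V)
    (hs : S.card ≤ 2 * (star S G).card)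
    (hbig : (star S G).card ≤ 2 * 2 ^ j * (Aset (star S G) j y).card)
    (hrig : ¬ NonRigid G (Aset (star S G) j y) k r) (hr : 64 * k * r * 2 ^ k ≤ S.card) :
    S.card * (cyl Gs).card ≤
      64 * k * 2 ^ k * ∑ y' ∈ cyl Gs, nc G (Aset S k (hyb j y y')) := by
  obtain ⟨I, -, hI, hT⟩ : ∃ I : Finset (Du V), I ⊆ Aset (star S G) j y ∧ I.card ≤ r ∧
      (Aset (star S G) j y).card <
        8 * k * ((Aset (star S G) j y).filter (fun γ => InSp (G ∪ I) γ)).card := by
    by_contra h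
    refine hrig fun I h1 h2 => not_lt.1 fun h3 => h ⟨I, h1, h2, h3.trans_le
      (Nat.mul_le_mul_left _ (card_le_card fun γ hγ => ?_))⟩
    refine mem_filter.2 ⟨(mem_filter.1 hγ).1, (mem_filter.1 hγ).2.mono fun x hx => ?_⟩
    simpa only [mem_union] using hx
  set T := (Aset (star S G) j y).filter (fun γ => InSp (G ∪ I) γ) with hTd
  have hm : ∀ γ ∈ T, γ ∈ S ∧ ¬ InSp G γ ∧ InSp (G ∪ I) γ ∧
      ∀ i : Fin k, i.val < j → γ (y i) = 1 := fun γ hγ => by
    obtain ⟨h1, h2⟩ := mem_filter.1 hγ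
    obtain ⟨h3, h4⟩ := mem_Aset.1 h1
    exact ⟨(mem_star.1 h3).1, (mem_star.1 h3).2, h2, h4⟩
  have h1 : ∀ y' : Fin k → V, (T.filter (fun γ => ∀ i : Fin k, j ≤ i.val → γ (y' i) = 1)).card ≤
      nc G (Aset S k (hyb j y y')) + r := fun y' => by
    refine le_trans (nc_add_rank G I _ _ (fun γ hγ => ?_)
      (fun γ hγ => (hm γ (mem_filter.1 hγ).1).2.2.1)
      fun γ hγ => (hm γ (mem_filter.1 hγ).1).2.1) (Nat.add_le_add_left hI _)
    obtain ⟨a, b⟩ := mem_filter.1 hγ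
    refine mem_Aset.2 ⟨(hm γ a).1, fun i _ => ?_⟩
    unfold hyb
    split_ifs with h
    · exact (hm γ a).2.2.2 i h
    · exact b i (not_lt.1 h)
  have h2 : ∀ γ ∈ T, ((cyl Gs).filter (fun y' => ∀ i : Fin k, j ≤ i.val → γ (y' i) = 1)).card *
      2 ^ (k - j) = (cyl Gs).card := fun γ hγ => by
    have a := (hm γ hγ).2.1
    have b := card_cyl_ext G {γ} Gs hGs (disjoint_singleton_left.2 fun h => a (inSp_of_mem h))
      ((hG.insert a).mono fun x hx => by
        simp only [mem_union, mem_insert, mem_singleton] at hx ⊢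
        exact hx.symm) j
    simpa only [mem_singleton, forall_eq, card_singleton, mul_one] using b
  have h3 : (∑ y' ∈ cyl Gs, (T.filter (fun γ => ∀ i : Fin k, j ≤ i.val → γ (y' i) = 1)).card) *
      2 ^ (k - j) = T.card * (cyl Gs).card := by
    simp only [card_filter]
    rw [sum_comm, sum_mul, ← smul_eq_mul, ← sum_const]
    refine sum_congr rfl fun γ hγ => ?_
    rw [← h2 γ hγ, card_filter]
  have h4 := sum_le_sum fun y' (_ : y' ∈ cyl Gs) => h1 y'
  rw [sum_add_distrib, sum_const, smul_eq_mul] at h4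
  have h5 : 2 ^ k = 2 ^ j * 2 ^ (k - j) := by rw [← pow_add, Nat.add_sub_cancel' hj]
  rw [h5] at hr ⊢
  generalize ∑ y' ∈ cyl Gs, nc G (Aset S k (hyb j y y')) = n at *
  generalize ∑ y' ∈ cyl Gs, (T.filter (fun γ => ∀ i : Fin k, j ≤ i.val → γ (y' i) = 1)).card = x
    at *
  generalize (cyl Gs).card = c at *
  generalize 2 ^ (k - j) = b at *
  generalize 2 ^ j = a at *
  have h6 : S.card ≤ 32 * k * a * T.card := by nlinarith [Nat.mul_le_mul_left (4 * a) hT.le]
  have h7 := Nat.mul_le_mul_right c h6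
  have h8 := Nat.mul_le_mul_right c hr
  have h9 := Nat.mul_le_mul_left (32 * k * a * b) h4
  have h10 : 32 * k * a * T.card * c = 32 * k * a * b * x := by
    rw [mul_assoc, ← h3]; ring
  nlinarith

theorem mass {k v m0 : ℕ} (hk : 1 ≤ k) (S G : Finset (Du V)) (hG : Indep G)
    (Gs : Fin k → Finset (Du V)) (hGs : ∀ i, Gs i ⊆ G) (B : Finset (Fin k → V))
    (hB : B ⊆ cyl Gs) (hv : (cyl Gs).card ≤ 2 ^ v * B.card)
    (hcol : ∀ y ∈ B, col (Aset S k y) < m0) (hs : S.card ≤ 2 * (star S G).card)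
    (h1 : 8 * m0 * 2 ^ k ≤ S.card) (h2 : 64 * k * (4 * k * (v + k + 1)) * 2 ^ k ≤ S.card) :
    ∃ j ≤ k, S.card * (B ×ˢ cyl Gs).card ≤
      256 * k ^ 2 * 2 ^ k * ∑ p ∈ B ×ˢ cyl Gs, nc G (Aset S k (hyb j p.1 p.2)) := by
  obtain ⟨j, hj, B', hB', hc, h⟩ := classify hk G (star S G) Gs hGs B hB hv
  refine ⟨j, hj, ?_⟩
  have h3 : ∀ y ∈ B', S.card * (cyl Gs).card ≤
      64 * k * 2 ^ k * ∑ y' ∈ cyl Gs, nc G (Aset S k (hyb j y y')) := fun y hy => by
    obtain ⟨a, rfl | b⟩ := h y hy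
    · have e : ∀ y', hyb j y y' = y := fun y' => funext fun i => if_pos i.2
      have b := nc_add_col S G y
      have c := (hcol y (hB' hy)).le
      simp only [e, sum_const, smul_eq_mul]
      generalize nc G (Aset S j y) = n at *
      generalize 2 ^ j = t at *
      have d : S.card ≤ 8 * t * n := by
        nlinarith [Nat.mul_le_mul_left (4 * t) (b.trans (Nat.add_le_add_left c n))]
      have f := Nat.mul_le_mul_right (cyl Gs).card d
      nlinarith [Nat.mul_le_mul_right (8 * t * n * (cyl Gs).card) hk]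
    · exact mass_rigid hk hj S G hG Gs hGs y hs a b h2
  have h4 := sum_le_sum h3
  rw [sum_const, smul_eq_mul, ← mul_sum] at h4
  have h5 := sum_le_sum_of_subset
    (f := fun y => ∑ y' ∈ cyl Gs, nc G (Aset S k (hyb j y y'))) hB'
  rw [card_product, sum_product]
  have h6 : B.card ≤ 4 * k * B'.card := hc.trans (Nat.mul_le_mul_right _ (by omega))
  calc S.card * (B.card * (cyl Gs).card) ≤ S.card * (4 * k * B'.card * (cyl Gs).card) :=
        Nat.mul_le_mul_left _ (Nat.mul_le_mul_right _ h6)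
    _ = 4 * k * (B'.card * (S.card * (cyl Gs).card)) := by ring
    _ ≤ 4 * k * (64 * k * 2 ^ k * _) :=
        Nat.mul_le_mul_left _ (h4.trans (Nat.mul_le_mul_left _ h5))
    _ = _ := by ring

end Pool.Agent.P.MP_85fe51_lc.DA
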