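import Mathlib
import Pool.Agent.P.MP_85fe51_lc.DCs
import Pool.Agent.P.MP_85fe51_lc.DMass
import Pool.Agent.P.MP_85fe51_lc.DFold
import Pool.Agent.P.MP_85fe51_lc.DDeg

set_option autoImplicit false

namespace Pool.Agent.P.MP_85fe51_lc.DA

open Finset
open scoped Classical

theorem dthma_h1 {D E k M s : ℕ} (hk : 1 ≤ k) (hM : 1 ≤ M)
    (hs : 256 * (D + 2) * (E + 1) * k ^ 2 * (M * M) ≤ s) : 8 * (E * (D * M + 1)) * M ≤ s := by
  refine le_trans ?_ hs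
  have a : D * M + 1 ≤ (D + 2) * M := by nlinarith
  have b : 1 ≤ k ^ 2 := Nat.one_le_pow _ _ hk
  calc 8 * (E * (D * M + 1)) * M ≤ 256 * ((E + 1) * ((D + 2) * M)) * M := by gcongr <;> omega
    _ = 256 * (D + 2) * (E + 1) * 1 * (M * M) := by ring
    _ ≤ _ := by gcongr

theorem dthma_h2 {D E k M s : ℕ} (hM : k + 1 ≤ M)
    (hs : 256 * (D + 2) * (E + 1) * k ^ 2 * (M * M) ≤ s) :
    64 * k * (4 * k * (D * M + 1 + k + 1)) * M ≤ s := by
  refine le_trans ?_ hs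
  have a : D * M + 1 + k + 1 ≤ (D + 2) * M := by nlinarith
  calc 64 * k * (4 * k * (D * M + 1 + k + 1)) * M ≤ 64 * k * (4 * k * ((D + 2) * M)) * M := by gcongr
    _ = 256 * (D + 2) * 1 * k ^ 2 * (M * M) := by ring
    _ ≤ _ := by gcongr; omega

theorem dthma_u {D M u R X : ℕ} (hM : 1 ≤ M) (hu : u ≤ D * M + 1 + R) (hR : R * M ≤ X + 2 * M) :
    u * M ≤ (D + 3) * (M * M) + X := by
  have a := Nat.mul_le_mul_right M hu
  have b := Nat.mul_le_mul_right M hM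
  nlinarith

theorem dthma_f {q i f s : ℕ} (h : 2 * i + f ≤ 2 * s) (hf : s ≤ 2048 * q * f) :
    4096 * q * i + s ≤ 4096 * q * s := by
  have a := Nat.mul_le_mul_left (2048 * q) h
  nlinarith

theorem dthma_fold {V : Type} [AddCommGroup V] [Module F2 V] {ι : Type} (Ω : Finset ι)
    (hΩ : Ω.Nonempty) (A : ι → Finset (Du V)) (S G : Finset (Du V)) (hG : Indep G)
    (hA : ∀ ω ∈ Ω, A ω ⊆ S) {k t : ℕ} (hk : 1 ≤ k) (ht : 1 ≤ t) (hS : S.card < 2 ^ t)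
    (hsp : ∀ H : Finset (Du V), H ⊆ S → Disjoint H G → Indep (G ∪ H) →
      (Ω.filter (fun ω => H ⊆ A ω)).card * 2 ^ (k * H.card) ≤ 2 ^ H.card * Ω.card)
    (hmass : S.card * Ω.card ≤ 256 * k ^ 2 * 2 ^ k * ∑ p ∈ Ω, nc G (A p)) :
    ∃ (U : Finset (Du V)) (R : ℕ), U.card ≤ G.card + R ∧
      R * 2 ^ k ≤ 2 ^ 17 * t * k ^ 2 * S.card + 2 * 2 ^ k ∧
      S.card ≤ 2048 * k ^ 2 * (folded S U).card := by
  have k0 : (0 : ℝ) < k := by exact_mod_cast hk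
  have k1 : (1 : ℝ) ≤ (k : ℝ) ^ 2 := by exact_mod_cast Nat.one_le_pow _ _ hk
  have M0 : (0 : ℝ) < 2 ^ k := by positivity
  obtain ⟨R, hR, hF⟩ := fold Ω hΩ A S G hG hA
    (p := 2 / 2 ^ k) (κ := 1 / (512 * (k : ℝ) ^ 2)) (by positivity) (by positivity)
    (by rw [div_le_one (by positivity)]; linarith)
    (fun H h1 h2 h3 => by
      rw [div_pow, ← pow_mul, div_mul_eq_mul_div, le_div_iff₀ (by positivity)]
      exact_mod_cast hsp H h1 h2 h3)
    (by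
      have e : 1 / (512 * (k : ℝ) ^ 2) * (2 / 2 ^ k) * S.card * Ω.card =
          (S.card : ℝ) * Ω.card / (256 * (k : ℝ) ^ 2 * 2 ^ k) := by
        field_simp
        ring
      rw [e, div_le_iff₀ (by positivity), mul_comm (∑ p ∈ _, _)]
      exact_mod_cast hmass) t ht hS
  refine ⟨G ∪ R, R.card, card_union_le _ _, ?_, ?_⟩
  · have e : (2 * t * (64 * (2 / 2 ^ k) / (1 / (512 * (k : ℝ) ^ 2))) * S.card + 2) * 2 ^ k =
        2 ^ 17 * t * (k : ℝ) ^ 2 * S.card + 2 * 2 ^ k := by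
      field_simp
      ring
    have := mul_le_mul_of_nonneg_right hR M0.le
    rw [e] at this
    exact_mod_cast this
  · have e : 1 / (512 * (k : ℝ) ^ 2) * S.card / 4 = S.card / (2048 * (k : ℝ) ^ 2) := by
      field_simp
      ring
    rw [e, div_le_iff₀ (by positivity), mul_comm] at hF
    exact_mod_cast hF

/-- one folding step at a fixed depth `k`. -/
theorem step_k {m : ℕ} (hm : Odd m) {g : ℝ} {E0 : ℕ} (hg0 : 0 ≤ g) (hg1 : g ≤ 1)
    (hE : g ^ E0 ≤ 1 / 2) (hg : ∀ z : ℂ, z ^ m = 1 → z ≠ 1 → ‖1 + z‖ ≤ 2 * g)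
    {V : Type} [AddCommGroup V] [Module F2 V] [Fintype V]
    (k D t : ℕ) (hk : 1 ≤ k) (ht : 1 ≤ t) (h : V → F2) (S : Finset (Du V)) (ζ : Du V → ℂ)
    (hh : degLt k h) (hζ : Roots m S ζ) (hb : (Fintype.card V : ℝ) ≤ 2 ^ D * bias h S ζ)
    (hS : S.card < 2 ^ t) (hs : 256 * (D + 2) * (E0 + 1) * k ^ 2 * 4 ^ k ≤ S.card) :
    ∃ U : Finset (Du V),
      U.card * 2 ^ k ≤ (D + 3) * 4 ^ k + 2 ^ 17 * t * k ^ 2 * S.card ∧
      4096 * k ^ 2 * img S U + S.card ≤ 4096 * k ^ 2 * S.card := by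
  have e4 : 4 ^ k = 2 ^ k * 2 ^ k := mul_pow 2 2 k
  have hM : k + 1 ≤ 2 ^ k := Nat.lt_two_pow_self
  have hk2 : 1 ≤ k ^ 2 := Nat.one_le_pow _ _ hk
  rw [e4] at hs ⊢
  obtain ⟨G, Gs, B, hG, hGs, hGv, hBB, hBc, hBn, hv, hsp⟩ :=
    restore S _ (bad_dense hm hg0 hg1 hE hg k D h S ζ hh hζ hb)
  by_cases c : 2 * (star S G).card < S.card
  · refine ⟨G, ?_, ?_⟩
    · exact dthma_u (R := 0) (by omega) hGv (by omega)
    · have := img_le_star S G
      exact dthma_f (f := S.card) (by omega) (Nat.le_mul_of_pos_left _ (by omega))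
  obtain ⟨j, hj, hmass⟩ := mass (m0 := E0 * (D * 2 ^ k + 1)) hk S G hG Gs hGs B hBc hv
    (fun y hy => (mem_filter.1 (hBB hy)).2) (not_lt.1 c) (dthma_h1 hk (by omega) hs)
    (dthma_h2 hM hs)
  obtain ⟨U, R, hU, hR', hF'⟩ := dthma_fold (B ×ˢ cyl Gs) (hBn.product (hBn.mono hBc))
    (fun p => Aset S k (hyb j p.1 p.2)) S G hG (fun _ _ => filter_subset _ _) hk ht hS
    (fun H h1 h2 h3 => by
      have h4 : Indep (G ∪ H) := h3.mono fun x => by simp only [mem_union]; exact id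
      refine le_trans (Nat.mul_le_mul_right _ (card_le_card fun x => ?_))
        (spread_hyb hj S G H Gs B hGs h2 h4 (hsp j hj H h1 h2 h4))
      simp only [mem_filter]
      exact id) hmass
  exact ⟨U, dthma_u (by omega) (hU.trans (Nat.add_le_add_right hGv _)) hR',
    dthma_f (img_add_folded S U) hF'⟩

theorem dthma_size {c1 D K k s u : ℕ} (hk : 1 ≤ k) (hK : k ≤ K)
    (hs : s ≤ c1 * (k + 1) ^ 2 * 4 ^ (k + 1))
    (hu : u * 2 ^ k ≤ (D + 3) * 4 ^ k + 2 ^ 17 * (2 * K + 1) * k ^ 2 * s) :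
    u ≤ (D + 3 + 3 * 2 ^ 21 * c1) * K ^ 5 * 2 ^ K := by
  have e4 : 4 ^ k = 2 ^ k * 2 ^ k := mul_pow 2 2 k
  have a : s ≤ c1 * (2 * K) ^ 2 * (2 ^ k * 2 ^ k * 4) := by
    rw [← e4, ← pow_succ]
    refine hs.trans ?_
    gcongr
    omega
  have b : 2 ^ k ≤ 2 ^ K := Nat.pow_le_pow_right (by norm_num) hK
  have c : 1 ≤ K ^ 5 := Nat.one_le_pow _ _ (by omega)
  refine Nat.le_of_mul_le_mul_right (c := 2 ^ k) (hu.trans ?_) (by positivity)
  rw [e4]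
  generalize 2 ^ K = N at *
  generalize 2 ^ k = M at *
  calc (D + 3) * (M * M) + 2 ^ 17 * (2 * K + 1) * k ^ 2 * s
      ≤ (D + 3) * (K ^ 5 * N * M) + 2 ^ 17 * (3 * K) * K ^ 2 * (c1 * (2 * K) ^ 2 * (N * M * 4)) := by
        have d : M ≤ K ^ 5 * N := by nlinarith
        have f : s ≤ c1 * (2 * K) ^ 2 * (N * M * 4) := a.trans (by gcongr)
        gcongr
        omega
    _ = _ := by ring

theorem thmA {m : ℕ} (hm : Odd m) (D d : ℕ) :
    ∃ c : ℕ, ∀ (K : ℕ) (V : Type) [AddCommGroup V] [Module F2 V] [Fintype V]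
      (h : V → F2) (S : Finset (Du V)) (ζ : Du V → ℂ), 1 ≤ K → S.card ≤ 4 ^ K →
      degLt d h → Roots m S ζ → (Fintype.card V : ℝ) ≤ 2 ^ D * bias h S ζ →
      ∃ U : Finset (Du V), U.card ≤ c * K ^ 5 * 2 ^ K ∧
        4096 * K ^ 2 * img S U + S.card ≤ 4096 * K ^ 2 * S.card := by
  obtain ⟨E0, g, hg0, hg1, hE, hg⟩ := exists_gap hm
  obtain ⟨c1, hc⟩ : ∃ c1, c1 = 256 * (D + 2) * (E0 + 1) := ⟨_, rfl⟩
  have c0 : 1 ≤ c1 := by rw [hc]; exact Nat.succ_le_of_lt (by positivity)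
  refine ⟨c1 * (d + 1) ^ 2 * 4 ^ (d + 1) + (D + 3 + 3 * 2 ^ 21 * c1), ?_⟩
  intro K V _ _ _ h S ζ hK hS hh hζ hb
  have K2 : 1 ≤ K ^ 2 := Nat.one_le_pow _ _ hK
  by_cases c : S.card < c1 * (d + 1) ^ 2 * 4 ^ (d + 1)
  · refine ⟨S, ?_, ?_⟩
    · have a : 1 ≤ K ^ 5 * 2 ^ K := Nat.succ_le_of_lt (by positivity)
      rw [mul_assoc _ (K ^ 5)]
      exact (c.le.trans (Nat.le_add_right _ _)).trans (Nat.le_mul_of_pos_right _ a)
    · have a : (star S S).card = 0 := by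
        rw [card_eq_zero, eq_empty_iff_forall_notMem]
        exact fun γ x => (mem_star.1 x).2 (inSp_of_mem (mem_star.1 x).1)
      have b := img_le_star S S
      have e : img S S = 0 := by omega
      rw [e]
      nlinarith
  have pw : ∀ k, 1 ≤ k → 4 ^ k ≤ c1 * k ^ 2 * 4 ^ k := fun k hk =>
    Nat.le_mul_of_pos_left _ (by positivity)
  have ex : ∃ k, S.card < c1 * (k + 1) ^ 2 * 4 ^ (k + 1) :=
    ⟨K, hS.trans_lt ((Nat.pow_lt_pow_right (by norm_num) (Nat.lt_succ_self K)).trans_le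
      (pw _ (by omega)))⟩
  have s1 := Nat.find_spec ex
  have s2 := fun j => Nat.find_min ex (m := j)
  generalize Nat.find ex = k at s1 s2
  have dk : d + 1 ≤ k := by
    by_contra n
    refine c (s1.trans_le ?_)
    have : k + 1 ≤ d + 1 := by omega
    gcongr
    norm_num
  have lo : c1 * k ^ 2 * 4 ^ k ≤ S.card := by
    have := not_lt.1 (s2 (k - 1) (by omega))
    rwa [Nat.sub_add_cancel (by omega)] at this
  have k1 : 1 ≤ k := le_trans (Nat.le_add_left 1 d) dk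
  have kK : k ≤ K := (Nat.pow_le_pow_iff_right (by norm_num)).1 ((pw k k1).trans (lo.trans hS))
  have ht : S.card < 2 ^ (2 * K + 1) := by
    refine hS.trans_lt ?_
    rw [pow_succ, pow_mul]
    have : 0 < 4 ^ K := by positivity
    change 4 ^ K < 4 ^ K * 2
    omega
  obtain ⟨U, u1, u2⟩ := step_k hm hg0 hg1 hE hg k D (2 * K + 1) k1 (Nat.le_add_left _ _) h S ζ
    (degLt_of_le (Nat.le_of_succ_le dk) hh) hζ hb ht (by rw [← hc]; exact lo)
  refine ⟨U, (dthma_size k1 kK s1.le u1).trans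
    (Nat.mul_le_mul_right _ (Nat.mul_le_mul_right _ (Nat.le_add_left _ _))), ?_⟩
  obtain ⟨x, hx⟩ := Nat.exists_eq_add_of_le (img_le_card S U)
  have a : k ^ 2 * x ≤ K ^ 2 * x := by gcongr
  rw [hx] at u2 ⊢
  nlinarith

end Pool.Agent.P.MP_85fe51_lc.DA
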