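import Mathlib
import Pool.Agent.P.MP_85fe51_lc.DThmA

set_option autoImplicit false

namespace Pool.Agent.P.MP_85fe51_lc.DA

open Finset
open scoped Classical

theorem dthmb_zero_ne_one : (0 : F2) ≠ 1 := by decide

/-- merging equal forms. -/
theorem rep_of_index {V : Type} [AddCommGroup V] [Module F2 V] {J : Type} (m : ℕ) (I : Finset J)
    (χ : J → Du V) (z : J → ℂ) (hz : ∀ j ∈ I, z j ^ m = 1) :
    ∃ (S : Finset (Du V)) (ζ : Du V → ℂ), S ⊆ (I.image χ).erase 0 ∧ Roots m S ζ ∧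
      ∀ x : V, Phi S ζ x = ∏ j ∈ I, if χ j x = 1 then z j else 1 := by
  refine ⟨((I.image χ).erase 0).filter
      (fun γ => (∏ j ∈ I.filter (fun j => χ j = γ), z j) ≠ 1),
    fun γ => ∏ j ∈ I.filter (fun j => χ j = γ), z j, filter_subset _ _, ?_, ?_⟩
  · intro γ hγ
    refine ⟨?_, (mem_filter.1 hγ).2⟩
    rw [← prod_pow]
    exact prod_eq_one (fun j hj => hz j (mem_filter.1 hj).1)
  · intro x
    have h1 : (∏ j ∈ I, if χ j x = 1 then z j else 1) =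
        ∏ γ ∈ I.image χ, ∏ j ∈ I.filter (fun j => χ j = γ), if χ j x = 1 then z j else 1 :=
      (prod_fiberwise_of_maps_to (fun j hj => mem_image_of_mem χ hj) _).symm
    have h2 : ∀ γ ∈ I.image χ,
        (∏ j ∈ I.filter (fun j => χ j = γ), if χ j x = 1 then z j else 1) =
          if γ x = 1 then ∏ j ∈ I.filter (fun j => χ j = γ), z j else 1 := by
      intro γ _
      by_cases hx : γ x = 1
      · rw [if_pos hx]
        refine prod_congr rfl (fun j hj => ?_)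
        rw [(mem_filter.1 hj).2, if_pos hx]
      · rw [if_neg hx]
        refine prod_eq_one (fun j hj => ?_)
        rw [(mem_filter.1 hj).2, if_neg hx]
    rw [h1, prod_congr rfl h2]
    unfold Phi
    refine prod_subset ((filter_subset _ _).trans (erase_subset _ _)) ?_
    intro γ hγ hn
    by_cases h0 : γ = 0
    · rw [if_neg]
      rw [h0, LinearMap.zero_apply]
      exact dthmb_zero_ne_one
    · have h3 : (∏ j ∈ I.filter (fun j => χ j = γ), z j) = 1 := by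
        by_contra h4
        exact hn (mem_filter.2 ⟨mem_erase.2 ⟨h0, hγ⟩, h4⟩)
      simp only [h3, ite_self]

theorem rep_restrict {V : Type} [AddCommGroup V] [Module F2 V] (m : ℕ) (S U : Finset (Du V))
    (ζ : Du V → ℂ) (hζ : Roots m S ζ) :
    ∃ (S' : Finset (Du (kerS U))) (ζ' : Du (kerS U) → ℂ), S'.card ≤ img S U ∧ Roots m S' ζ' ∧
      ∀ x : kerS U, Phi S' ζ' x = Phi S ζ (x : V) := by
  obtain ⟨S', ζ', h1, h2, h3⟩ := rep_of_index (V := kerS U) m S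
    (fun χ : Du V => (χ.domRestrict (kerS U) : Du (kerS U))) ζ (fun j hj => (hζ j hj).1)
  refine ⟨S', ζ', ?_, h2, fun x => ?_⟩
  · unfold img
    refine card_le_card (fun γ hγ => ?_)
    have h4 := h1 hγ
    rw [mem_erase, mem_image] at h4
    rw [mem_erase, mem_image]
    exact h4
  · rw [h3 x]
    unfold Phi
    refine prod_congr rfl (fun γ _ => ?_)
    exact if_congr Iff.rfl rfl rfl

theorem dthmb_Phi_zero {V : Type} [AddCommGroup V] [Module F2 V] (S : Finset (Du V))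
    (ζ : Du V → ℂ) : Phi S ζ 0 = 1 := by
  unfold Phi
  refine prod_eq_one (fun γ _ => ?_)
  rw [if_neg]
  rw [map_zero]
  exact dthmb_zero_ne_one

theorem dthmb_split {V : Type} [Fintype V] (h : V → F2) (f : V → ℂ) :
    2 * ∑ x ∈ univ.filter (fun x => h x = 1), f x =
      ∑ x : V, sg 0 * f x - ∑ x : V, sg (h x) * f x := by
  rw [sum_filter, mul_sum, ← sum_sub_distrib]
  refine sum_congr rfl (fun x _ => ?_)
  have h0 : sg 0 = 1 := by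
    unfold sg
    rw [if_neg dthmb_zero_ne_one]
  rw [h0]
  unfold sg
  by_cases hx : h x = 1
  · rw [if_pos hx, if_pos hx]
    ring
  · rw [if_neg hx, if_neg hx]
    ring

theorem dthmb_neg {Ψ : Type} [Fintype Ψ] (ψ0 : Ψ) (a : Ψ → ℝ) (z : ℝ)
    (hs : ∑ ψ, a ψ = Fintype.card Ψ) (h0 : a ψ0 = z) (hz : 2 * (Fintype.card Ψ : ℝ) ≤ z) :
    ∃ ψ, a ψ * (2 * Fintype.card Ψ) ≤ -z := by
  by_contra hc
  have hp : (0 : ℝ) < Fintype.card Ψ := by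
    have : 0 < Fintype.card Ψ := Fintype.card_pos_iff.2 ⟨ψ0⟩
    exact_mod_cast this
  have h1 : ∀ ψ, 0 ≤ a ψ * (2 * Fintype.card Ψ) + z := by
    intro ψ
    by_contra h2
    exact hc ⟨ψ, by linarith⟩
  have h2 : a ψ0 * (2 * Fintype.card Ψ) + z ≤ ∑ ψ, (a ψ * (2 * Fintype.card Ψ) + z) :=
    single_le_sum (f := fun ψ => a ψ * (2 * Fintype.card Ψ) + z) (fun ψ _ => h1 ψ) (mem_univ ψ0)
  rw [sum_add_distrib, ← sum_mul, hs, sum_const, card_univ, nsmul_eq_mul, h0] at h2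
  nlinarith

/-- a biased member of the family. -/
theorem exists_biased {V : Type} [AddCommGroup V] [Module F2 V] [Fintype V] {Ψ : Type} [Fintype Ψ]
    (ψ0 : Ψ) (d P : ℕ) (hP : Fintype.card Ψ ≤ P) (S : Ψ → Finset (Du V)) (ζ : Ψ → Du V → ℂ)
    (h : V → F2) (h0 : ∀ x, Phi (S ψ0) (ζ ψ0) x = 1) (hd : degLt d h) (hh : h 0 = 1)
    (hsum : ∀ x : V, x ≠ 0 → h x = 1 → ∑ ψ, Phi (S ψ) (ζ ψ) x = 0)
    (hV : 2 ^ (d + 1 + P) < Fintype.card V) :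
    ∃ (ψ : Ψ) (h' : V → F2), 1 ≤ (S ψ).card ∧ degLt d h' ∧
      (Fintype.card V : ℝ) ≤ 2 ^ (d + 1 + P) * bias h' (S ψ) (ζ ψ) := by
  have hrm := rm_dense hd 0 hh
  set Z : Finset V := univ.filter (fun x => h x = 1) with hZ
  have hPP : P ≤ 2 ^ P := Nat.lt_two_pow_self.le
  have hp0 : 0 < Fintype.card Ψ := Fintype.card_pos_iff.2 ⟨ψ0⟩
  have hZ1 : 2 * Fintype.card Ψ ≤ Z.card := by
    have h1 : 2 ^ d * (2 * 2 ^ P) < 2 ^ d * Z.card := by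
      calc 2 ^ d * (2 * 2 ^ P) = 2 ^ (d + 1 + P) := by ring
        _ < Fintype.card V := hV
        _ ≤ 2 ^ d * Z.card := hrm
    have h2 := Nat.lt_of_mul_lt_mul_left h1
    omega
  have h0Z : (0 : V) ∈ Z := mem_filter.2 ⟨mem_univ _, hh⟩
  have htot : ∑ ψ, ∑ x ∈ Z, Phi (S ψ) (ζ ψ) x = (Fintype.card Ψ : ℂ) := by
    rw [sum_comm, sum_eq_single_of_mem 0 h0Z
      (fun x hx hx0 => hsum x hx0 (mem_filter.1 hx).2)]
    rw [sum_congr rfl (fun ψ _ => dthmb_Phi_zero (S ψ) (ζ ψ)), sum_const, card_univ,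
      nsmul_eq_mul, mul_one]
  have hone : ∀ ψ, (∀ x, Phi (S ψ) (ζ ψ) x = 1) →
      (∑ x ∈ Z, Phi (S ψ) (ζ ψ) x).re = (Z.card : ℝ) := by
    intro ψ hψ
    rw [sum_congr rfl (fun x _ => hψ x), sum_const, nsmul_eq_mul, mul_one, Complex.natCast_re]
  have hZR : 2 * (Fintype.card Ψ : ℝ) ≤ (Z.card : ℝ) := by exact_mod_cast hZ1
  have hpR : (0 : ℝ) < Fintype.card Ψ := by exact_mod_cast hp0
  obtain ⟨ψ, hψ⟩ := dthmb_neg ψ0 (fun ψ => (∑ x ∈ Z, Phi (S ψ) (ζ ψ) x).re) (Z.card : ℝ)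
    (by rw [← Complex.re_sum, htot, Complex.natCast_re]) (hone ψ0 h0) hZR
  have hne : 1 ≤ (S ψ).card := by
    by_contra hc
    have h1 : S ψ = ∅ := card_eq_zero.1 (by omega)
    have h2 := hone ψ (fun x => by rw [h1]; unfold Phi; exact prod_empty)
    rw [h2] at hψ
    nlinarith
  have hnorm : -(∑ x ∈ Z, Phi (S ψ) (ζ ψ) x).re ≤ ‖∑ x ∈ Z, Phi (S ψ) (ζ ψ) x‖ :=
    (neg_le_abs _).trans (Complex.abs_re_le_norm _)
  have hb : 2 * ‖∑ x ∈ Z, Phi (S ψ) (ζ ψ) x‖ ≤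
      bias (fun _ => 0) (S ψ) (ζ ψ) + bias h (S ψ) (ζ ψ) := by
    have h1 := dthmb_split h (Phi (S ψ) (ζ ψ))
    have h2 : 2 * ‖∑ x ∈ Z, Phi (S ψ) (ζ ψ) x‖ = ‖2 * ∑ x ∈ Z, Phi (S ψ) (ζ ψ) x‖ := by
      rw [norm_mul, Complex.norm_two]
    rw [h2, hZ, h1]
    exact norm_sub_le _ _
  have hVR : (Fintype.card V : ℝ) ≤ 2 ^ d * (Z.card : ℝ) := by exact_mod_cast hrm
  have hPR : (Fintype.card Ψ : ℝ) ≤ 2 ^ P := by exact_mod_cast hP.trans hPP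
  have hn0 : 0 ≤ ‖∑ x ∈ Z, Phi (S ψ) (ζ ψ) x‖ := norm_nonneg _
  have hfin : (Fintype.card V : ℝ) ≤ 2 ^ (d + 1 + P) * ‖∑ x ∈ Z, Phi (S ψ) (ζ ψ) x‖ := by
    have h1 : (Z.card : ℝ) ≤ ‖∑ x ∈ Z, Phi (S ψ) (ζ ψ) x‖ * (2 * 2 ^ P) := by
      calc (Z.card : ℝ) ≤ -(∑ x ∈ Z, Phi (S ψ) (ζ ψ) x).re * (2 * Fintype.card Ψ) := by
            linarith
        _ ≤ ‖∑ x ∈ Z, Phi (S ψ) (ζ ψ) x‖ * (2 * Fintype.card Ψ) :=
            mul_le_mul_of_nonneg_right hnorm (by positivity)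
        _ ≤ ‖∑ x ∈ Z, Phi (S ψ) (ζ ψ) x‖ * (2 * 2 ^ P) :=
            mul_le_mul_of_nonneg_left (by linarith) hn0
    calc (Fintype.card V : ℝ) ≤ 2 ^ d * (Z.card : ℝ) := hVR
      _ ≤ 2 ^ d * (‖∑ x ∈ Z, Phi (S ψ) (ζ ψ) x‖ * (2 * 2 ^ P)) :=
          mul_le_mul_of_nonneg_left h1 (by positivity)
      _ = 2 ^ (d + 1 + P) * ‖∑ x ∈ Z, Phi (S ψ) (ζ ψ) x‖ := by ring
  by_cases hc : ‖∑ x ∈ Z, Phi (S ψ) (ζ ψ) x‖ ≤ bias h (S ψ) (ζ ψ)
  · exact ⟨ψ, h, hne, hd, hfin.trans (mul_le_mul_of_nonneg_left hc (by positivity))⟩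
  · refine ⟨ψ, fun _ => 0, hne, degLt_zero_fun d,
      hfin.trans (mul_le_mul_of_nonneg_left ?_ (by positivity))⟩
    linarith

/-- the potential drops by a fixed factor. -/
theorem dthmb_pot {Ψ : Type} [Fintype Ψ] (N : ℕ) (hN : 1 ≤ N) (s s' : Ψ → ℕ) (ψ1 : Ψ)
    (hle : ∀ ψ, s' ψ ≤ s ψ) (h1 : 1 ≤ s ψ1) (h2 : N * s' ψ1 + s ψ1 ≤ N * s ψ1) :
    ∏ ψ, (1 + (s' ψ : ℝ)) ≤ (∏ ψ, (1 + (s ψ : ℝ))) * (1 - 1 / (2 * (N : ℝ))) := by
  rw [← mul_prod_erase univ _ (mem_univ ψ1), ← mul_prod_erase univ _ (mem_univ ψ1)]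
  have hNR : (1 : ℝ) ≤ N := by exact_mod_cast hN
  have h1R : (1 : ℝ) ≤ s ψ1 := by exact_mod_cast h1
  have h2R : (N : ℝ) * s' ψ1 + s ψ1 ≤ N * s ψ1 := by exact_mod_cast h2
  have ha : 1 + (s' ψ1 : ℝ) ≤ (1 + (s ψ1 : ℝ)) * (1 - 1 / (2 * (N : ℝ))) := by
    have h3 : (1 + (s ψ1 : ℝ)) * (1 - 1 / (2 * (N : ℝ))) =
        ((1 + (s ψ1 : ℝ)) * (2 * N - 1)) / (2 * N) := by
      field_simp
    rw [h3, le_div_iff₀ (by linarith)]
    nlinarith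
  have hb : ∏ ψ ∈ univ.erase ψ1, (1 + (s' ψ : ℝ)) ≤ ∏ ψ ∈ univ.erase ψ1, (1 + (s ψ : ℝ)) := by
    refine prod_le_prod (fun ψ _ => by positivity) (fun ψ _ => ?_)
    have : (s' ψ : ℝ) ≤ s ψ := by exact_mod_cast hle ψ
    linarith
  have hc : 0 ≤ ∏ ψ ∈ univ.erase ψ1, (1 + (s' ψ : ℝ)) := prod_nonneg (fun ψ _ => by positivity)
  have hd : 0 ≤ 1 + (s' ψ1 : ℝ) := by positivity
  calc (1 + (s' ψ1 : ℝ)) * ∏ ψ ∈ univ.erase ψ1, (1 + (s' ψ : ℝ))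
      ≤ ((1 + (s ψ1 : ℝ)) * (1 - 1 / (2 * (N : ℝ)))) *
          ∏ ψ ∈ univ.erase ψ1, (1 + (s ψ : ℝ)) := mul_le_mul ha hb hc (hd.trans ha)
    _ = _ := by ring

/-- the iteration. -/
theorem dthmb_iter (m d P B N s0 : ℕ) (hN : 1 ≤ N) {Ψ : Type} [Fintype Ψ] (ψ0 : Ψ)
    (hP : Fintype.card Ψ ≤ P)
    (hA : ∀ (V : Type) [AddCommGroup V] [Module F2 V] [Fintype V]
      (h : V → F2) (S : Finset (Du V)) (ζ : Du V → ℂ), S.card ≤ s0 →
      degLt d h → Roots m S ζ → (Fintype.card V : ℝ) ≤ 2 ^ (d + 1 + P) * bias h S ζ →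
      ∃ U : Finset (Du V), U.card ≤ B ∧ N * img S U + S.card ≤ N * S.card) (R : ℕ) :
    ∀ (V : Type) [AddCommGroup V] [Module F2 V] [Fintype V]
      (S : Ψ → Finset (Du V)) (ζ : Ψ → Du V → ℂ) (h : V → F2),
      (∀ ψ, (S ψ).card ≤ s0) → (∀ ψ, Roots m (S ψ) (ζ ψ)) →
      (∀ x, Phi (S ψ0) (ζ ψ0) x = 1) → degLt d h → h 0 = 1 →
      (∀ x : V, x ≠ 0 → h x = 1 → ∑ ψ, Phi (S ψ) (ζ ψ) x = 0) →
      (∏ ψ, (1 + ((S ψ).card : ℝ))) * (1 - 1 / (2 * (N : ℝ))) ^ R < 1 →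
      Fintype.card V ≤ 2 ^ (d + 1 + P + R * B) := by
  induction R with
  | zero =>
    intro V _ _ _ S ζ h _ _ _ _ _ _ hpot
    exfalso
    rw [pow_zero, mul_one] at hpot
    have h1 : ∏ _ψ : Ψ, (1 : ℝ) ≤ ∏ ψ, (1 + ((S ψ).card : ℝ)) :=
      prod_le_prod (fun _ _ => zero_le_one) (fun ψ _ => le_add_of_nonneg_right (by positivity))
    rw [prod_const_one] at h1
    linarith
  | succ R ih =>
    intro V _ _ _ S ζ h hs hr h0 hd hh hsum hpot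
    by_cases hV : Fintype.card V ≤ 2 ^ (d + 1 + P)
    · exact hV.trans (Nat.pow_le_pow_right (by norm_num) (Nat.le_add_right _ _))
    obtain ⟨ψ1, h', hne, hd', hb⟩ := exists_biased ψ0 d P hP S ζ h h0 hd hh hsum (not_le.1 hV)
    obtain ⟨U, hU, hUi⟩ := hA V h' (S ψ1) (ζ ψ1) (hs ψ1) hd' (hr ψ1) hb
    choose S' ζ' hc hr' hΦ using fun ψ => rep_restrict m (S ψ) U (ζ ψ) (hr ψ)
    have hle : ∀ ψ, (S' ψ).card ≤ (S ψ).card := fun ψ => (hc ψ).trans (img_le_card _ _)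
    have hlam : (0 : ℝ) ≤ 1 - 1 / (2 * (N : ℝ)) := by
      have hNR : (1 : ℝ) ≤ N := by exact_mod_cast hN
      rw [sub_nonneg, div_le_one (by linarith)]
      linarith
    have hdrop := dthmb_pot N hN (fun ψ => (S ψ).card) (fun ψ => (S' ψ).card) ψ1 hle hne
      (le_trans (Nat.add_le_add_right (Nat.mul_le_mul_left N (hc ψ1)) _) hUi)
    have hk := ih (kerS U) S' ζ' (fun w => h ((kerS U).subtype w))
      (fun ψ => (hle ψ).trans (hs ψ)) hr' (fun x => by rw [hΦ, h0])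
      (degLt_comp (kerS U).subtype hd) (by rw [map_zero]; exact hh)
      (fun x hx0 hx => by
        rw [sum_congr rfl (fun ψ _ => hΦ ψ x)]
        exact hsum (x : V) (fun h1 => hx0 (Subtype.ext h1)) hx)
      (by
        refine lt_of_le_of_lt ?_ hpot
        rw [pow_succ', ← mul_assoc]
        exact mul_le_mul_of_nonneg_right hdrop (pow_nonneg hlam R))
    calc Fintype.card V ≤ 2 ^ U.card * Fintype.card (kerS U) := card_le_kerS U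
      _ ≤ 2 ^ B * 2 ^ (d + 1 + P + R * B) :=
          Nat.mul_le_mul (Nat.pow_le_pow_right (by norm_num) hU) hk
      _ = 2 ^ (d + 1 + P + (R + 1) * B) := by ring

theorem dthmb_lam (N : ℕ) (hN : 1 ≤ N) : (1 - 1 / (2 * (N : ℝ))) ^ (2 * N) ≤ 1 / 2 := by
  have hNR : (1 : ℝ) ≤ N := by exact_mod_cast hN
  have ht0 : (0 : ℝ) ≤ 1 / (2 * (N : ℝ)) := by positivity
  have ht1 : 1 / (2 * (N : ℝ)) ≤ 1 := by
    rw [div_le_one (by linarith)]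
    linarith
  have h1 : 1 + ((2 * N : ℕ) : ℝ) * (1 / (2 * (N : ℝ))) ≤ (1 + 1 / (2 * (N : ℝ))) ^ (2 * N) :=
    one_add_mul_le_pow (by linarith) _
  have h2 : ((2 * N : ℕ) : ℝ) * (1 / (2 * (N : ℝ))) = 1 := by
    push_cast
    field_simp
  rw [h2] at h1
  have h3 : (1 - 1 / (2 * (N : ℝ))) ^ (2 * N) * (1 + 1 / (2 * (N : ℝ))) ^ (2 * N) ≤ 1 := by
    rw [← mul_pow]
    refine pow_le_one₀ (mul_nonneg (by linarith) (by linarith)) ?_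
    nlinarith
  have h4 : 0 ≤ (1 - 1 / (2 * (N : ℝ))) ^ (2 * N) := pow_nonneg (by linarith) _
  nlinarith

theorem thmB {m : ℕ} (hm : Odd m) (d P : ℕ) :
    ∃ C : ℕ, ∀ (K : ℕ) (V : Type) [AddCommGroup V] [Module F2 V] [Fintype V]
      (Ψ : Type) [Fintype Ψ] (ψ0 : Ψ) (S : Ψ → Finset (Du V)) (ζ : Ψ → Du V → ℂ) (h : V → F2),
      1 ≤ K → Fintype.card Ψ ≤ P → (∀ ψ, (S ψ).card ≤ 4 ^ K) → (∀ ψ, Roots m (S ψ) (ζ ψ)) →
      (∀ x, Phi (S ψ0) (ζ ψ0) x = 1) → degLt d h → h 0 = 1 →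
      (∀ x : V, x ≠ 0 → h x = 1 → ∑ ψ, Phi (S ψ) (ζ ψ) x = 0) →
      Fintype.card V ≤ 2 ^ (C * K ^ 8 * 2 ^ K) := by
  obtain ⟨c, hc⟩ := thmA hm (d + 1 + P) d
  refine ⟨d + 1 + P + 8192 * (3 * P + 1) * c, ?_⟩
  intro K V _ _ _ Ψ _ ψ0 S ζ h hK hP hs hr h0 hd hh hsum
  have hK2 : 1 ≤ K ^ 2 := Nat.one_le_pow _ _ hK
  have hN : 1 ≤ 4096 * K ^ 2 := by omega
  have hlam := dthmb_lam (4096 * K ^ 2) hN
  have hlam0 : (0 : ℝ) ≤ 1 - 1 / (2 * ((4096 * K ^ 2 : ℕ) : ℝ)) := by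
    have hNR : (1 : ℝ) ≤ ((4096 * K ^ 2 : ℕ) : ℝ) := by exact_mod_cast hN
    rw [sub_nonneg, div_le_one (by linarith)]
    linarith
  have hpot : ∏ ψ, (1 + ((S ψ).card : ℝ)) ≤ 2 ^ ((2 * K + 1) * P) := by
    have h1 : ∀ ψ, 1 + ((S ψ).card : ℝ) ≤ 2 ^ (2 * K + 1) := by
      intro ψ
      have h2 : 1 + (S ψ).card ≤ 2 ^ (2 * K + 1) := by
        have h3 := hs ψ
        have h4 : 2 ^ (2 * K + 1) = 2 * 4 ^ K := by
          rw [pow_succ, pow_mul]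
          norm_num [mul_comm]
        have h5 : 1 ≤ 4 ^ K := Nat.one_le_pow _ _ (by norm_num)
        omega
      exact_mod_cast h2
    calc ∏ ψ, (1 + ((S ψ).card : ℝ)) ≤ ∏ _ψ : Ψ, (2 : ℝ) ^ (2 * K + 1) :=
          prod_le_prod (fun ψ _ => by positivity) (fun ψ _ => h1 ψ)
      _ = 2 ^ ((2 * K + 1) * Fintype.card Ψ) := by
          rw [prod_const, card_univ, ← pow_mul]
      _ ≤ 2 ^ ((2 * K + 1) * P) :=
          pow_le_pow_right₀ (by norm_num) (Nat.mul_le_mul_left _ hP)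
  have hmain := dthmb_iter m d P (c * K ^ 5 * 2 ^ K) (4096 * K ^ 2) (4 ^ K) hN ψ0 hP
    (fun W _ _ _ h1 S1 ζ1 a1 a2 a3 a4 => hc K W h1 S1 ζ1 hK a1 a2 a3 a4)
    (2 * (4096 * K ^ 2) * ((2 * K + 1) * P + 1)) V S ζ h hs hr h0 hd hh hsum
    (by
      rw [pow_mul]
      calc (∏ ψ, (1 + ((S ψ).card : ℝ))) *
            ((1 - 1 / (2 * ((4096 * K ^ 2 : ℕ) : ℝ))) ^ (2 * (4096 * K ^ 2))) ^
              ((2 * K + 1) * P + 1)
          ≤ 2 ^ ((2 * K + 1) * P) * (1 / 2) ^ ((2 * K + 1) * P + 1) :=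
            mul_le_mul hpot (pow_le_pow_left₀ (pow_nonneg hlam0 _) hlam _)
              (pow_nonneg (pow_nonneg hlam0 _) _) (by positivity)
        _ = 1 / 2 := by
            rw [pow_succ, ← mul_assoc, ← mul_pow]
            norm_num
        _ < 1 := by norm_num)
  refine hmain.trans (Nat.pow_le_pow_right (by norm_num) ?_)
  have h1 : 1 ≤ K ^ 8 * 2 ^ K :=
    Nat.mul_pos (Nat.one_le_pow _ _ hK) (Nat.one_le_pow _ _ (by norm_num))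
  have h2 : (2 * K + 1) * P + 1 ≤ (3 * P + 1) * K := by
    have h3 : P ≤ P * K := Nat.le_mul_of_pos_right _ hK
    nlinarith
  calc d + 1 + P + 2 * (4096 * K ^ 2) * ((2 * K + 1) * P + 1) * (c * K ^ 5 * 2 ^ K)
      ≤ (d + 1 + P) * (K ^ 8 * 2 ^ K) +
          2 * (4096 * K ^ 2) * ((3 * P + 1) * K) * (c * K ^ 5 * 2 ^ K) :=
        Nat.add_le_add (Nat.le_mul_of_pos_right _ h1)
          (Nat.mul_le_mul_right _ (Nat.mul_le_mul_left _ h2))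
    _ = (d + 1 + P + 8192 * (3 * P + 1) * c) * K ^ 8 * 2 ^ K := by ring

end Pool.Agent.P.MP_85fe51_lc.DA
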