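import Mathlib
import Pool.Agent.P.MP_85fe51_lc.DThmB
import Pool.Agent.P.MP_85fe51_lc.DGrp

set_option autoImplicit false

namespace Pool.Agent.P.MP_85fe51_lc.DA

open Finset
open scoped Classical

theorem dmain_pm_char {V : Type} [AddCommGroup V] [Module F2 V] {M : Type} [AddCommGroup M]
    (J : List (Du V × M)) (ψ : AddChar M ℂ) (x : V) :
    ψ (pm J x - pm J 0) =
      (J.map (fun p => if p.1 x = 1 then ψ (-p.2 - p.2) else 1)).prod := by
  induction J with
  | nil => simp [pm]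
  | cons p J ih =>
    have h0 : ¬ (p.1 (0 : V) = 1) := by
      rw [map_zero]
      exact zero_ne_one
    have e : pm (p :: J) x - pm (p :: J) 0 =
        (if p.1 x = 1 then -p.2 - p.2 else 0) + (pm J x - pm J 0) := by
      simp only [pm, List.map_cons, List.sum_cons, if_neg h0]
      split_ifs <;> abel
    rw [e, AddChar.map_add_eq_mul, ih, List.map_cons, List.prod_cons]
    split_ifs
    · rfl
    · rw [AddChar.map_zero_eq_one]

theorem char_pm {V : Type} [AddCommGroup V] [Module F2 V] {M : Type} [AddCommGroup M] [Fintype M]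
    (J : List (Du V × M)) (ψ : AddChar M ℂ) :
    ∃ (S : Finset (Du V)) (ζ : Du V → ℂ), S.card ≤ J.length ∧ Roots (Fintype.card M) S ζ ∧
      ∀ x : V, Phi S ζ x = ψ (pm J x - pm J 0) := by
  obtain ⟨S, ζ, hS, hR, hP⟩ := rep_of_index (V := V) (Fintype.card M) (univ : Finset (Fin J.length))
    (fun j => (J.get j).1) (fun j => ψ (-(J.get j).2 - (J.get j).2)) (by
      intro j _
      rw [← AddChar.map_nsmul_eq_pow, card_nsmul_eq_zero, AddChar.map_zero_eq_one])
  refine ⟨S, ζ, ?_, hR, fun x => ?_⟩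
  · calc S.card ≤ _ := card_le_card hS
      _ ≤ _ := card_erase_le
      _ ≤ (univ : Finset (Fin J.length)).card := card_image_le
      _ = J.length := by simp
  · rw [hP x, dmain_pm_char, ← List.prod_ofFn]
    have : (List.ofFn fun j : Fin J.length =>
        if (J.get j).1 x = 1 then ψ (-(J.get j).2 - (J.get j).2) else 1) =
        (List.ofFn J.get).map (fun p => if p.1 x = 1 then ψ (-p.2 - p.2) else 1) := by
      rw [List.map_ofFn]
      rfl
    rw [this, List.ofFn_get]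

/-- a program that isolates the point `0` lives on a small space. -/
theorem isolate (G : Type) [Group G] [Finite G] (N : Subgroup G) [N.Normal]
    (hodd : Odd (Nat.card N)) (h2 : IsPGroup 2 (G ⧸ N))
    (hsq : ∀ g : G, ∀ a ∈ N, g * g * a = a * (g * g)) :
    ∃ C e : ℕ, ∀ (K : ℕ) (V : Type) [AddCommGroup V] [Module F2 V] [Fintype V]
      (l : List (Du V × G × G)), 1 ≤ K → 2 ^ e * l.length ≤ 4 ^ K →
      (∀ x : V, x ≠ 0 → prog l x ≠ prog l 0) → Fintype.card V ≤ 2 ^ (C * K ^ 8 * 2 ^ K) := by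
  have : Fintype G := Fintype.ofFinite G
  obtain ⟨M, _, _, Q, _, α, c, ν, hM, hQ, hν1, hν, hinj⟩ := cocycle_data G N hodd h2 hsq
  obtain ⟨d, hd⟩ := two_group_deg (Nat.card (G ⧸ N)) (G ⧸ N) le_rfl h2
  obtain ⟨C, hC⟩ := thmB hM d (Fintype.card (AddChar M ℂ))
  refine ⟨C, Fintype.card G + 1, ?_⟩
  intro K V _ _ _ l hK hl hiso
  obtain ⟨J, hJ, hpm⟩ := sparse_prog hM α hQ c ν hν1 hν l
  choose S ζ hS hR hP using fun ψ : AddChar M ℂ => char_pm J ψ
  let π : G →* G ⧸ N := QuotientGroup.mk' N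
  let β : G ⧸ N → F2 := fun q => if q = π (prog l 0) then 1 else 0
  have hdeg := hd V β (l.map (fun p => (p.1, π p.2.1, π p.2.2)))
  have hfun : (fun x => β (prog (l.map (fun p => (p.1, π p.2.1, π p.2.2))) x)) =
      fun x => β (π (prog l x)) := by
    funext x
    rw [prog_map]
  rw [hfun] at hdeg
  refine hC K V (AddChar M ℂ) 0 S ζ (fun x => β (π (prog l x))) hK le_rfl
    (fun ψ => (hS ψ).trans (hJ.trans hl)) hR ?_ hdeg ?_ ?_
  · intro x
    rw [hP]
    rfl
  · simp [β]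
  · intro x hx hβ
    have hq : π (prog l x) = π (prog l 0) := by
      by_contra hne
      simp only [β, if_neg hne] at hβ
      exact zero_ne_one hβ
    have hne : pm J x - pm J 0 ≠ 0 := by
      intro h0
      apply hiso x hx
      refine hinj _ _ ?_ hq
      rw [hpm, hpm]
      exact sub_eq_zero.mp h0
    simp only [hP]
    exact AddChar.sum_apply_eq_zero_iff_ne_zero.mpr hne

theorem arith (C e : ℕ) : ∃ C' : ℕ, ∀ n L : ℕ,
    (∀ K : ℕ, 1 ≤ K → 2 ^ e * L ≤ 4 ^ K → n ≤ C * K ^ 8 * 2 ^ K) →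
    n ^ 2 ≤ C' * (L + 1) * (Nat.log 2 (L + 1) + 1) ^ 16 := by
  refine ⟨C ^ 2 * (e + 1) ^ 16 * 4 ^ (e + 1), fun n L h => ?_⟩
  set u := Nat.log 2 (L + 1) with hu
  have h1 : L + 1 < 2 ^ (u + 1) := Nat.lt_pow_succ_log_self (by norm_num) _
  have h2 : 2 ^ u ≤ L + 1 := Nat.pow_log_le_self 2 (by omega)
  have h4 : ∀ a : ℕ, 4 ^ a = 2 ^ (2 * a) := fun a => by
    rw [pow_mul]
    norm_num
  have hK := h (u / 2 + 1 + e) (by omega) (by
    calc 2 ^ e * L ≤ 2 ^ e * 2 ^ (u + 1) := Nat.mul_le_mul_left _ (by omega)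
      _ = 2 ^ (e + (u + 1)) := (pow_add _ _ _).symm
      _ ≤ 2 ^ (2 * (u / 2 + 1 + e)) := Nat.pow_le_pow_right (by norm_num) (by omega)
      _ = 4 ^ (u / 2 + 1 + e) := (h4 _).symm)
  set K := u / 2 + 1 + e with hKdef
  have hKle : K ≤ (e + 1) * (u + 1) := by
    have : u / 2 ≤ u := Nat.div_le_self _ _
    nlinarith [Nat.zero_le (e * u)]
  have hpow : (2 ^ K) ^ 2 ≤ 4 ^ (e + 1) * (L + 1) := by
    calc (2 ^ K) ^ 2 = 2 ^ (K * 2) := (pow_mul _ _ _).symm
      _ ≤ 2 ^ (2 * (e + 1) + u) := Nat.pow_le_pow_right (by norm_num) (by omega)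
      _ = 4 ^ (e + 1) * 2 ^ u := by rw [pow_add, h4]
      _ ≤ 4 ^ (e + 1) * (L + 1) := Nat.mul_le_mul_left _ h2
  calc n ^ 2 ≤ (C * K ^ 8 * 2 ^ K) ^ 2 := Nat.pow_le_pow_left hK 2
    _ = C ^ 2 * K ^ 16 * (2 ^ K) ^ 2 := by ring
    _ ≤ C ^ 2 * ((e + 1) * (u + 1)) ^ 16 * (4 ^ (e + 1) * (L + 1)) :=
        Nat.mul_le_mul (Nat.mul_le_mul_left _ (Nat.pow_le_pow_left hKle 16)) hpow
    _ = C ^ 2 * (e + 1) ^ 16 * 4 ^ (e + 1) * (L + 1) * (u + 1) ^ 16 := by ring

theorem main (G : Type) [Group G] [Finite G] (N : Subgroup G) [N.Normal]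
    (hodd : Odd (Nat.card N)) (h2 : IsPGroup 2 (G ⧸ N))
    (hsq : ∀ g : G, ∀ a ∈ N, g * g * a = a * (g * g)) :
    ∃ C : ℕ, ∀ (n L : ℕ) (var : Fin L → Fin n) (a b : Fin L → G) (A : Set G) (y : Fin n → Bool),
      (∀ x : Fin n → Bool, x = y ↔
        (List.ofFn (fun j : Fin L => if x (var j) then a j else b j)).prod ∈ A) →
      n ^ 2 ≤ C * (L + 1) * (Nat.log 2 (L + 1) + 1) ^ 16 := by
  obtain ⟨C, e, hC⟩ := isolate G N hodd h2 hsq
  obtain ⟨C', hC'⟩ := arith C e
  refine ⟨C', fun n L var a b A y hA => hC' n L fun K hK hL => ?_⟩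
  let inp : (Fin n → F2) → Fin n → Bool := fun x i => if x i = 1 then !(y i) else y i
  let l : List (Du (Fin n → F2) × G × G) := List.ofFn (fun j : Fin L =>
    ((LinearMap.proj (var j) : Du (Fin n → F2)), (if y (var j) then b j else a j),
      (if y (var j) then a j else b j)))
  have hprog : ∀ x : Fin n → F2, prog l x =
      (List.ofFn (fun j : Fin L => if inp x (var j) then a j else b j)).prod := by
    intro x
    simp only [prog, l, List.map_ofFn]
    congr 1
    refine congrArg List.ofFn (funext fun j => ?_)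
    simp only [Function.comp, LinearMap.proj_apply, inp]
    by_cases h1 : x (var j) = 1 <;> by_cases hy : y (var j) = true <;> simp [h1, hy]
  have hinp0 : inp 0 = y := by
    funext i
    simp [inp]
  have hlen : l.length = L := by simp [l]
  have hcard := hC K (Fin n → F2) l hK (by rw [hlen]; exact hL) (by
    intro x hx heq
    have h0 : prog l 0 ∈ A := by
      rw [hprog, hinp0]
      exact (hA y).1 rfl
    rw [← heq, hprog] at h0
    have hxy := (hA (inp x)).2 h0
    apply hx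
    funext i
    rcases f2_cases (x i) with h | h
    · exact h
    · have := congrFun hxy i
      simp only [inp, if_pos h] at this
      cases hy : y i <;> simp [hy] at this)
  have hc : Fintype.card (Fin n → F2) = 2 ^ n := by
    simp [F2]
  rw [hc] at hcard
  exact (Nat.pow_le_pow_iff_right (by norm_num)).mp hcard

end Pool.Agent.P.MP_85fe51_lc.DA
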