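import Mathlib

set_option autoImplicit false

namespace Pool.Agent.P.MP_85fe51_lc

open Finset

section words
variable {ι : Type} [DecidableEq ι] {G : Type} [Group G]

/-- product of the letters of the word whose variable lies in `S` -/
def val (w : List (ι × G)) (S : Finset ι) : G :=
  (w.map (fun p => if p.1 ∈ S then p.2 else 1)).prod

/-- number of letters of the word carrying the variable `v` -/
def occ (w : List (ι × G)) (v : ι) : ℕ := w.countP (fun p => p.1 = v)

@[simp] lemma val_nil (S : Finset ι) : val ([] : List (ι × G)) S = 1 := rfl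

@[simp] lemma val_cons (p : ι × G) (w : List (ι × G)) (S : Finset ι) :
    val (p :: w) S = (if p.1 ∈ S then p.2 else 1) * val w S := by
  simp [val]

omit [Group G] in
@[simp] lemma occ_nil (v : ι) : occ ([] : List (ι × G)) v = 0 := rfl

omit [Group G] in
lemma occ_cons (p : ι × G) (w : List (ι × G)) (v : ι) :
    occ (p :: w) v = occ w v + if p.1 = v then 1 else 0 := by
  simp [occ, List.countP_cons]

lemma val_append (w w' : List (ι × G)) (S : Finset ι) :
    val (w ++ w') S = val w S * val w' S := by
  simp [val]

omit [Group G] in
lemma occ_append (w w' : List (ι × G)) (v : ι) :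
    occ (w ++ w') v = occ w v + occ w' v := by
  simp [occ]

lemma val_congr (w : List (ι × G)) (S S' : Finset ι)
    (h : ∀ v, occ w v ≠ 0 → (v ∈ S ↔ v ∈ S')) : val w S = val w S' := by
  induction w with
  | nil => simp
  | cons p w ih =>
    rw [val_cons, val_cons, ih]
    · have := h p.1 (by simp [occ_cons])
      simp only [this]
    · intro v hv
      exact h v (by rw [occ_cons]; omega)

lemma val_empty (w : List (ι × G)) : val w (∅ : Finset ι) = 1 := by
  induction w with
  | nil => simp
  | cons p w ih => simp [ih]

lemma val_eq_one (w : List (ι × G)) (S : Finset ι) (h : ∀ v ∈ S, occ w v = 0) :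
    val w S = 1 := by
  rw [val_congr w S ∅, val_empty]
  intro v hv
  simp only [Finset.notMem_empty, iff_false]
  exact fun hs => hv (h v hs)

lemma val_flatten_ofFn {q : ℕ} (c : Fin q → List (ι × G)) (S : Finset ι) :
    val (List.ofFn c).flatten S = (List.ofFn (fun t => val (c t) S)).prod := by
  induction q with
  | zero => simp
  | succ q ih =>
    rw [List.ofFn_succ, List.ofFn_succ, List.flatten_cons, val_append, List.prod_cons, ih]

omit [Group G] in
lemma occ_flatten_ofFn {q : ℕ} (c : Fin q → List (ι × G)) (v : ι) :
    occ (List.ofFn c).flatten v = ∑ t, occ (c t) v := by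
  induction q with
  | zero => simp
  | succ q ih =>
    rw [List.ofFn_succ, List.flatten_cons, occ_append, ih, Fin.sum_univ_succ]

lemma exists_chunks {α : Type} (l : ℕ) : ∀ (q : ℕ) (w : List α), w.length ≤ q * l →
    ∃ c : Fin q → List α, (List.ofFn c).flatten = w ∧ ∀ t, (c t).length ≤ l := by
  intro q
  induction q with
  | zero =>
    intro w hw
    refine ⟨fun _ => [], ?_, fun t => t.elim0⟩
    have : w = [] := List.eq_nil_of_length_eq_zero (by omega)
    simp [this]
  | succ q ih =>
    intro w hw
    obtain ⟨c, hc, hl⟩ := ih (w.drop l) (by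
      rw [List.length_drop]; rw [Nat.succ_mul] at hw; omega)
    refine ⟨Fin.cons (w.take l) c, ?_, ?_⟩
    · rw [List.ofFn_succ, List.flatten_cons]
      simp only [Fin.cons_zero, Fin.cons_succ]
      rw [hc, List.take_append_drop]
    · intro t
      refine Fin.cases ?_ (fun t => ?_) t
      · simp
      · simpa using hl t

/-- keep the letters whose variable lies in `V` -/
def keep (w : List (ι × G)) (V : Finset ι) : List (ι × G) := w.filter (fun p => p.1 ∈ V)

lemma val_keep (w : List (ι × G)) (V S : Finset ι) (h : S ⊆ V) :
    val (keep w V) S = val w S := by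
  induction w with
  | nil => simp [keep]
  | cons p w ih =>
    unfold keep at ih ⊢
    by_cases hp : p.1 ∈ V
    · rw [List.filter_cons_of_pos (by simpa using hp), val_cons, val_cons, ih]
    · rw [List.filter_cons_of_neg (by simpa using hp), val_cons, ih, if_neg (fun h' => hp (h h')),
        one_mul]

omit [Group G] in
lemma occ_keep_le (w : List (ι × G)) (V : Finset ι) (v : ι) : occ (keep w V) v ≤ occ w v := by
  unfold occ keep
  exact List.Sublist.countP_le List.filter_sublist

omit [Group G] in
lemma length_keep (w : List (ι × G)) (V : Finset ι) :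
    (keep w V).length = ∑ v ∈ V, occ w v := by
  induction w with
  | nil => simp [keep]
  | cons p w ih =>
    unfold keep at ih ⊢
    simp only [occ_cons, Finset.sum_add_distrib, ← ih]
    by_cases hp : p.1 ∈ V
    · rw [List.filter_cons_of_pos (by simpa using hp)]
      simp [hp]
    · rw [List.filter_cons_of_neg (by simpa using hp)]
      simp [hp]

omit [Group G] in
lemma sum_occ_le (w : List (ι × G)) (V : Finset ι) : ∑ v ∈ V, occ w v ≤ w.length := by
  rw [← length_keep]
  exact List.length_filter_le _ _

omit [Group G] in
lemma card_occ_ne_le (w : List (ι × G)) (V : Finset ι) :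
    (V.filter (fun v => occ w v ≠ 0)).card ≤ w.length := by
  refine le_trans ?_ (sum_occ_le w (V.filter (fun v => occ w v ≠ 0)))
  rw [Finset.card_eq_sum_ones]
  refine Finset.sum_le_sum (fun v hv => ?_)
  have := (Finset.mem_filter.1 hv).2
  omega

lemma val_map {H : Type} [Group H] (φ : G →* H) (w : List (ι × G)) (S : Finset ι) :
    val (w.map (fun p => (p.1, φ p.2))) S = φ (val w S) := by
  induction w with
  | nil => simp
  | cons p w ih =>
    rw [List.map_cons, val_cons, val_cons, ih, map_mul]
    by_cases hp : p.1 ∈ S <;> simp [hp]

omit [Group G] in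
lemma occ_map {H : Type} (φ : G → H) (w : List (ι × G)) (v : ι) :
    occ (w.map (fun p => (p.1, φ p.2))) v = occ w v := by
  induction w with
  | nil => simp
  | cons p w ih => rw [List.map_cons, occ_cons, occ_cons, ih]

end words

end Pool.Agent.P.MP_85fe51_lc
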