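import Mathlib

set_option autoImplicit false

namespace Pool.Agent.P.MP_85fe51_lc

open Finset MvPolynomial

/-- zero sums of vectors over `ZMod p` (Olson), by Chevalley-Warning -/
lemma zero_sum_zmod (p : ℕ) [Fact p.Prime] {σ τ : Type} [Fintype σ] [Fintype τ]
    (y : σ → τ → ZMod p) (h : Fintype.card τ * (p - 1) < Fintype.card σ) :
    ∃ T : Finset σ, T.Nonempty ∧ ∀ t, ∑ a ∈ T, y a t = 0 := by
  classical
  let f : τ → MvPolynomial σ (ZMod p) := fun t => ∑ a : σ, y a t • X a ^ (p - 1)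
  have hdeg : ∑ t, (f t).totalDegree < Fintype.card σ := by
    refine lt_of_le_of_lt ?_ h
    calc ∑ t, (f t).totalDegree ≤ ∑ _t : τ, (p - 1) := by
          refine Finset.sum_le_sum (fun t _ => ?_)
          apply totalDegree_finsetSum_le
          intro i _
          exact (totalDegree_smul_le ..).trans (totalDegree_X_pow ..).le
      _ = Fintype.card τ * (p - 1) := by simp
  have hp := char_dvd_card_solutions_of_fintype_sum_lt p hdeg
  let z : {x : σ → ZMod p // ∀ t, eval x (f t) = 0} :=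
    ⟨0, by simp [f, map_sum, (Fact.out : p.Prime).one_lt, tsub_eq_zero_iff_le]⟩
  have h0 : 0 < Fintype.card {x : σ → ZMod p // ∀ t, eval x (f t) = 0} :=
    @Fintype.card_pos _ _ ⟨z⟩
  obtain ⟨x, hx⟩ := Fintype.exists_ne_of_one_lt_card ((Fact.out : p.Prime).one_lt.trans_le <|
    Nat.le_of_dvd h0 hp) z
  refine ⟨Finset.univ.filter (fun a => x.1 a ≠ 0), ?_, ?_⟩
  · rw [← Subtype.coe_ne_coe, Function.ne_iff] at hx
    obtain ⟨a, ha⟩ := hx
    exact ⟨a, Finset.mem_filter.2 ⟨Finset.mem_univ _, ha⟩⟩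
  · intro t
    simpa [f, ZMod.pow_card_sub_one, Finset.sum_filter] using x.2 t

lemma zero_sum_module (p : ℕ) [Fact p.Prime] (M : Type) [AddCommGroup M] [Module (ZMod p) M]
    [Finite M] :
    ∃ d : ℕ, ∀ (σ κ : Type) [Fintype σ] [Fintype κ] (y : σ → κ → M),
      d * Fintype.card κ < Fintype.card σ →
      ∃ T : Finset σ, T.Nonempty ∧ ∀ i, ∑ a ∈ T, y a i = 0 := by
  classical
  have : Module.Finite (ZMod p) M := Module.Finite.of_finite
  let b := Module.finBasis (ZMod p) M
  refine ⟨Module.finrank (ZMod p) M * (p - 1), ?_⟩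
  intro σ κ _ _ y h
  obtain ⟨T, hT, hsum⟩ := zero_sum_zmod p (σ := σ)
    (τ := κ × Fin (Module.finrank (ZMod p) M))
    (fun a t => b.repr (y a t.1) t.2) (by
      rw [Fintype.card_prod, Fintype.card_fin]
      calc _ = Module.finrank (ZMod p) M * (p - 1) * Fintype.card κ := by ring
        _ < _ := h)
  refine ⟨T, hT, fun i => ?_⟩
  apply b.repr.injective
  ext j
  have := hsum (i, j)
  simpa [map_sum, Finsupp.finsetSum_apply] using this

/-- zero sums in powers of a finite abelian group of prime exponent -/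
lemma zero_sum_group (N : Type) [CommGroup N] [Finite N] (p : ℕ) (hp : p.Prime)
    (hN : ∀ x : N, x ^ p = 1) :
    ∃ d : ℕ, ∀ (σ κ : Type) [Fintype σ] [Fintype κ] (y : σ → κ → N),
      d * Fintype.card κ < Fintype.card σ →
      ∃ T : Finset σ, T.Nonempty ∧ ∀ i, ∏ a ∈ T, y a i = 1 := by
  have : Fact p.Prime := ⟨hp⟩
  have hz : ∀ x : Additive N, p • x = 0 := by
    intro x
    have := hN (Additive.toMul x)
    rw [← ofMul_toMul x, ← ofMul_pow, this]
    rfl
  obtain ⟨d, hd⟩ := @zero_sum_module p _ (Additive N) _ (AddCommGroup.zmodModule hz) _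
  refine ⟨d, fun σ κ _ _ y h => ?_⟩
  obtain ⟨T, hT, hs⟩ := hd σ κ (fun a i => Additive.ofMul (y a i)) h
  refine ⟨T, hT, fun i => ?_⟩
  have := hs i
  rw [← ofMul_prod] at this
  exact this

/-- a nontrivial finite solvable group has a nontrivial normal abelian subgroup of prime exponent -/
lemma exists_elem_abelian (G : Type) [Group G] [Finite G] [Nontrivial G]
    (hG : Group.IsSolvable G) :
    ∃ (N : Subgroup G) (p : ℕ), N.Normal ∧ N ≠ ⊥ ∧ p.Prime ∧
      (∀ x ∈ N, ∀ y ∈ N, x * y = y * x) ∧ ∀ x ∈ N, x ^ p = 1 := by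
  classical
  have hex := hG.solvable
  have h0 : Nat.find hex ≠ 0 := by
    intro h
    have := Nat.find_spec hex
    rw [h, derivedSeries_zero] at this
    exact top_ne_bot this
  obtain ⟨m, hm⟩ := Nat.exists_eq_succ_of_ne_zero h0
  have hA : derivedSeries G m ≠ ⊥ := Nat.find_min hex (by omega)
  have hA2 : derivedSeries G (m + 1) = ⊥ := by
    have := Nat.find_spec hex
    rwa [hm] at this
  set A := derivedSeries G m with hAdef
  have hAn : A.Normal := derivedSeries_normal G m
  have hcomm : ∀ x ∈ A, ∀ y ∈ A, x * y = y * x := by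
    rw [derivedSeries_succ, Subgroup.commutator_eq_bot_iff_le_centralizer] at hA2
    intro x hx y hy
    exact ((Subgroup.mem_centralizer_iff.1 (hA2 hx)) y hy).symm
  have hcard : Nat.card A ≠ 1 := by
    intro h
    exact hA (Subgroup.eq_bot_of_card_eq A h)
  obtain ⟨p, hp, hdvd⟩ := Nat.exists_prime_and_dvd hcard
  have : Fact p.Prime := ⟨hp⟩
  obtain ⟨g, hg⟩ := exists_prime_orderOf_dvd_card' p hdvd
  let N : Subgroup G :=
    { carrier := {x | x ∈ A ∧ x ^ p = 1}
      mul_mem' := by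
        rintro x y ⟨hx, hx'⟩ ⟨hy, hy'⟩
        refine ⟨A.mul_mem hx hy, ?_⟩
        have : Commute x y := hcomm x hx y hy
        rw [this.mul_pow, hx', hy', one_mul]
      one_mem' := ⟨A.one_mem, one_pow _⟩
      inv_mem' := by
        rintro x ⟨hx, hx'⟩
        exact ⟨A.inv_mem hx, by rw [inv_pow, hx', inv_one]⟩ }
  refine ⟨N, p, ⟨?_⟩, ?_, hp, fun x hx y hy => hcomm x hx.1 y hy.1, fun x hx => hx.2⟩
  · rintro x ⟨hx, hx'⟩ g
    refine ⟨hAn.conj_mem x hx g, ?_⟩
    rw [conj_pow, hx', mul_one, mul_inv_cancel]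
  · intro hN
    have hmem : (g : G) ∈ N := by
      refine ⟨g.2, ?_⟩
      have : g ^ p = 1 := by rw [← hg]; exact pow_orderOf_eq_one g
      exact_mod_cast congrArg Subtype.val this
    rw [hN, Subgroup.mem_bot] at hmem
    have : g = 1 := Subtype.ext hmem
    rw [this, orderOf_one] at hg
    exact hp.one_lt.ne hg

end Pool.Agent.P.MP_85fe51_lc
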