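import Mathlib
import Pool.Agent.P.MP_85fe51_lc.Words
import Pool.Agent.P.MP_85fe51_lc.ZeroSum

set_option autoImplicit false

namespace Pool.Agent.P.MP_85fe51_lc

open Finset

lemma card_small_sets (K : Type) [Fintype K] [DecidableEq K] (k Q : ℕ) (hQ : 1 ≤ Q)
    (hK : Fintype.card K ≤ Q) :
    ((Finset.univ : Finset (Finset K)).filter (fun T => T.card ≤ k)).card ≤ (k + 1) * Q ^ k := by
  have hsub : (Finset.univ : Finset (Finset K)).filter (fun T => T.card ≤ k) ⊆
      (Finset.range (k + 1)).biUnion (fun j => Finset.powersetCard j Finset.univ) := by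
    intro T hT
    simp only [Finset.mem_filter, Finset.mem_univ, true_and] at hT
    simp only [Finset.mem_biUnion, Finset.mem_range, Finset.mem_powersetCard]
    exact ⟨T.card, by omega, Finset.subset_univ _, rfl⟩
  refine (Finset.card_le_card hsub).trans (Finset.card_biUnion_le.trans ?_)
  calc ∑ j ∈ Finset.range (k + 1), (Finset.powersetCard j (Finset.univ : Finset K)).card
      ≤ ∑ _j ∈ Finset.range (k + 1), Q ^ k := by
        refine Finset.sum_le_sum (fun j hj => ?_)
        rw [Finset.card_powersetCard, Finset.card_univ]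
        have hj' : j ≤ k := by have := Finset.mem_range.1 hj; omega
        calc (Fintype.card K).choose j ≤ (Fintype.card K) ^ j := Nat.choose_le_pow _ _
          _ ≤ Q ^ j := Nat.pow_le_pow_left hK _
          _ ≤ Q ^ k := Nat.pow_le_pow_right hQ hj'
    _ = (k + 1) * Q ^ k := by simp

/-- greedy choice of large classes with pairwise disjoint types -/
lemma greedy {ι K : Type} [DecidableEq ι] [Fintype K] [DecidableEq K] (V : Finset ι)
    (τ : ι → Finset K) (k l M R F : ℕ) (hF : 1 ≤ F)
    (hτ : ∀ v ∈ V, (τ v).card ≤ k)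
    (hl : ∀ c : K, (V.filter (fun v => c ∈ τ v)).card ≤ l)
    (hR : ((Finset.univ : Finset (Finset K)).filter (fun T => T.card ≤ k)).card ≤ R)
    (h1 : 2 * (M * k * l) ≤ V.card) (h2 : 2 * (R * F) ≤ V.card) :
    ∀ j ≤ M, ∃ T : ℕ → Finset K, (∀ a < j, ∀ b < j, a ≠ b → Disjoint (T a) (T b)) ∧
      ∀ a < j, (T a).card ≤ k ∧ F ≤ (V.filter (fun v => τ v = T a)).card := by
  intro j
  induction j with
  | zero => exact fun _ => ⟨fun _ => ∅, by simp, by simp⟩
  | succ j ih =>
    intro hj
    obtain ⟨T, hdis, hT⟩ := ih (by omega)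
    set U : Finset K := (Finset.range j).biUnion T with hU
    have hUc : U.card ≤ M * k := by
      refine Finset.card_biUnion_le.trans ?_
      calc ∑ a ∈ Finset.range j, (T a).card ≤ ∑ _a ∈ Finset.range j, k :=
            Finset.sum_le_sum (fun a ha => (hT a (Finset.mem_range.1 ha)).1)
        _ = j * k := by simp
        _ ≤ M * k := Nat.mul_le_mul_right _ (by omega)
    set B : Finset ι := U.biUnion (fun c => V.filter (fun v => c ∈ τ v)) with hB
    have hBc : B.card ≤ M * k * l := by
      refine Finset.card_biUnion_le.trans ?_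
      calc ∑ c ∈ U, (V.filter (fun v => c ∈ τ v)).card ≤ ∑ _c ∈ U, l :=
            Finset.sum_le_sum (fun c _ => hl c)
        _ = U.card * l := by simp
        _ ≤ M * k * l := Nat.mul_le_mul_right _ hUc
    have hV' : R * F ≤ (V \ B).card := by
      have := Finset.le_card_sdiff B V
      omega
    obtain ⟨T', hT'mem, hT'⟩ := Finset.exists_le_card_fiber_of_mul_le_card_of_maps_to
      (s := V \ B) (t := (Finset.univ : Finset (Finset K)).filter (fun T => T.card ≤ k))
      (f := τ) (n := F)
      (fun v hv => Finset.mem_filter.2 ⟨Finset.mem_univ _, hτ v (Finset.mem_sdiff.1 hv).1⟩)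
      ⟨∅, by simp⟩ ((Nat.mul_le_mul_right _ hR).trans hV')
    obtain ⟨v, hv⟩ : ((V \ B).filter (fun v => τ v = T')).Nonempty :=
      Finset.card_pos.1 (by omega)
    obtain ⟨hv1, hv2⟩ := Finset.mem_filter.1 hv
    obtain ⟨hvV, hvB⟩ := Finset.mem_sdiff.1 hv1
    have hd : ∀ a < j, Disjoint T' (T a) := by
      intro a ha
      rw [Finset.disjoint_left]
      intro c hc hc'
      apply hvB
      refine Finset.mem_biUnion.2 ⟨c, Finset.mem_biUnion.2 ⟨a, Finset.mem_range.2 ha, hc'⟩, ?_⟩
      exact Finset.mem_filter.2 ⟨hvV, hv2 ▸ hc⟩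
    refine ⟨fun a => if a = j then T' else T a, ?_, ?_⟩
    · intro a ha b hb hab
      by_cases haj : a = j
      · have hbj : b ≠ j := fun h => hab (haj.trans h.symm)
        simp only [haj, hbj, if_true, if_false]
        exact hd b (by omega)
      · by_cases hbj : b = j
        · simp only [haj, hbj, if_true, if_false]
          exact (hd a (by omega)).symm
        · simp only [haj, hbj, if_false]
          exact hdis a (by omega) b (by omega) hab
    · intro a ha
      by_cases haj : a = j
      · simp only [haj, if_true]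
        refine ⟨(Finset.mem_filter.1 hT'mem).2, hT'.trans (Finset.card_le_card ?_)⟩
        exact Finset.filter_subset_filter _ Finset.sdiff_subset
      · simp only [haj, if_false]
        exact hT a (by omega)

/-- `Z G ι f`: at most `k` words over `G`, and at least `f k` variables each occurring at most
`k` times in total; then some nonempty set of these variables evaluates all words to `1`. -/
def Z (G : Type) [Group G] (ι : Type) [DecidableEq ι] (f : ℕ → ℕ) : Prop :=
  ∀ (k : ℕ) (κ : Type) [Fintype κ] (w : κ → List (ι × G)) (V : Finset ι),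
    1 ≤ k → Fintype.card κ ≤ k → (∀ v ∈ V, ∑ i, occ (w i) v ≤ k) → f k ≤ V.card →
    ∃ S ⊆ V, S.Nonempty ∧ ∀ i, val (w i) S = 1

lemma step (G : Type) [Group G] (ι : Type) [DecidableEq ι] (N : Subgroup G) [N.Normal]
    (hcomm : ∀ x ∈ N, ∀ y ∈ N, x * y = y * x) (d : ℕ)
    (hd : ∀ (σ κ : Type) [Fintype σ] [Fintype κ] (y : σ → κ → N),
      d * Fintype.card κ < Fintype.card σ →
      ∃ T : Finset σ, T.Nonempty ∧ ∀ i,
        (letI : CommGroup N := { (inferInstance : Group N) with
          mul_comm := fun x y => Subtype.ext (hcomm x x.2 y y.2) }; ∏ a ∈ T, y a i) = 1)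
    (f f' : ℕ → ℕ) (hf : ∀ k, 1 ≤ f k) (hZ : Z (G ⧸ N) ι f)
    (h1 : ∀ k, 2 * ((d * k + 1) * k) ≤ f' k)
    (h2 : ∀ k, 2 * ((k + 1) * (4 * (d * k + 1) * k ^ 3) ^ k * f k) ≤ f' k) :
    Z G ι f' := by
  classical
  let _ : CommGroup N := { (inferInstance : Group N) with
          mul_comm := fun x y => Subtype.ext (hcomm x x.2 y y.2) }
  intro k κ _ w V hk hκ hocc hV
  set M := d * k + 1 with hM
  set m := V.card with hm
  set l := m / (2 * (M * k)) with hl
  set q := 4 * M * k ^ 2 with hq
  have hMk : 0 < 2 * (M * k) := by positivity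
  have hm1 : 2 * (M * k) ≤ m := (h1 k).trans hV
  have hl1 : 2 * (M * k * l) ≤ m := by
    have := Nat.mul_div_le m (2 * (M * k))
    calc 2 * (M * k * l) = 2 * (M * k) * l := by ring
      _ ≤ m := this
  have hl2 : k * m ≤ q * l := by
    have h3 : m < 2 * (M * k) * (l + 1) := Nat.lt_mul_div_succ m hMk
    have h4 : 1 ≤ l := (Nat.le_div_iff_mul_le hMk).2 (by omega)
    have h5 : m ≤ 4 * (M * k) * l := by nlinarith
    calc k * m ≤ k * (4 * (M * k) * l) := Nat.mul_le_mul_left _ h5
      _ = q * l := by rw [hq]; ring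
  -- cut the words
  have hlen : ∀ i, (keep (w i) V).length ≤ q * l := by
    intro i
    rw [length_keep]
    refine le_trans ?_ hl2
    calc ∑ v ∈ V, occ (w i) v ≤ ∑ _v ∈ V, k := by
          refine Finset.sum_le_sum (fun v hv => le_trans ?_ (hocc v hv))
          exact Finset.single_le_sum (f := fun i => occ (w i) v) (fun _ _ => Nat.zero_le _)
            (Finset.mem_univ i)
      _ = k * m := by simp [hm, mul_comm]
  choose c hc hcl using fun i => exists_chunks l q (keep (w i) V) (hlen i)
  let ch : κ × Fin q → List (ι × G) := fun t => c t.1 t.2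
  have hocc' : ∀ v ∈ V, ∑ t, occ (ch t) v ≤ k := by
    intro v hv
    refine le_trans ?_ (hocc v hv)
    rw [Fintype.sum_prod_type]
    refine Finset.sum_le_sum (fun i _ => ?_)
    have := occ_flatten_ofFn (c i) v
    rw [hc] at this
    exact (le_of_eq this.symm).trans (occ_keep_le _ _ _)
  let τ : ι → Finset (κ × Fin q) := fun v => Finset.univ.filter (fun t => occ (ch t) v ≠ 0)
  have hτ : ∀ v ∈ V, (τ v).card ≤ k := by
    intro v hv
    refine le_trans ?_ (hocc' v hv)
    rw [Finset.card_eq_sum_ones]
    calc ∑ _t ∈ τ v, 1 ≤ ∑ t ∈ τ v, occ (ch t) v := by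
          refine Finset.sum_le_sum (fun t ht => ?_)
          have := (Finset.mem_filter.1 ht).2
          omega
      _ ≤ _ := Finset.sum_le_sum_of_subset (Finset.subset_univ _)
  have hcl' : ∀ t : κ × Fin q, (V.filter (fun v => t ∈ τ v)).card ≤ l := by
    intro t
    refine le_trans ?_ ((card_occ_ne_le (ch t) V).trans (hcl t.1 t.2))
    refine Finset.card_le_card (fun v hv => ?_)
    simp only [Finset.mem_filter, τ, Finset.mem_univ, true_and] at hv ⊢
    exact hv
  have hR := card_small_sets (κ × Fin q) k (4 * M * k ^ 3)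
    (Nat.one_le_iff_ne_zero.2 (by positivity)) (by
      rw [Fintype.card_prod, Fintype.card_fin]
      calc Fintype.card κ * q ≤ k * q := Nat.mul_le_mul_right _ hκ
        _ = 4 * M * k ^ 3 := by rw [hq]; ring)
  obtain ⟨T, hdis, hT⟩ := greedy V τ k l M _ (f k) (hf k) hτ hcl' hR hl1 ((h2 k).trans hV) M le_rfl
  -- the induction hypothesis inside each class
  have hS : ∀ a : Fin M, ∃ S ⊆ V.filter (fun v => τ v = T a), S.Nonempty ∧
      ∀ t, val (ch t) S ∈ N := by
    intro a
    obtain ⟨S, hS, hne, hval⟩ := hZ k (T a)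
      (fun t => (ch t.1).map (fun p => (p.1, QuotientGroup.mk' N p.2)))
      (V.filter (fun v => τ v = T a)) hk (by simpa using (hT a a.2).1) (by
        intro v hv
        simp only [occ_map]
        rw [Finset.sum_coe_sort (T a) (fun t => occ (ch t) v)]
        exact (Finset.sum_le_sum_of_subset (Finset.subset_univ _)).trans
          (hocc' v (Finset.mem_filter.1 hv).1)) (hT a a.2).2
    refine ⟨S, hS, hne, fun t => ?_⟩
    by_cases ht : t ∈ T a
    · have := hval ⟨t, ht⟩
      rw [val_map] at this
      exact (QuotientGroup.eq_one_iff _).1 this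
    · rw [val_eq_one]
      · exact N.one_mem
      · intro v hv
        by_contra hne
        apply ht
        rw [← (Finset.mem_filter.1 (hS hv)).2]
        exact Finset.mem_filter.2 ⟨Finset.mem_univ _, hne⟩
  choose S hSsub hSne hSN using hS
  have hSocc : ∀ a t v, v ∈ S a → occ (ch t) v ≠ 0 → t ∈ T a := by
    intro a t v hv hne
    rw [← (Finset.mem_filter.1 (hSsub a hv)).2]
    exact Finset.mem_filter.2 ⟨Finset.mem_univ _, hne⟩
  let nn : Fin M → κ × Fin q → N := fun a t => ⟨val (ch t) (S a), hSN a t⟩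
  obtain ⟨T0, hT0, hprod⟩ := hd (Fin M) κ (fun a i => ∏ t : Fin q, nn a (i, t)) (by
    rw [Fintype.card_fin]
    have := Nat.mul_le_mul_left d hκ
    omega)
  have hsubV : T0.biUnion S ⊆ V := by
    intro v hv
    obtain ⟨a, _, hva⟩ := Finset.mem_biUnion.1 hv
    exact (Finset.mem_filter.1 (hSsub a hva)).1
  refine ⟨T0.biUnion S, hsubV, ?_, fun i => ?_⟩
  · obtain ⟨a, ha⟩ := hT0
    obtain ⟨v, hv⟩ := hSne a
    exact ⟨v, Finset.mem_biUnion.2 ⟨a, ha, hv⟩⟩
  have hchunk : ∀ t, val (ch t) (T0.biUnion S) = ((∏ a ∈ T0, nn a t : N) : G) := by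
    intro t
    have hone : ∀ a : Fin M, t ∉ T a → nn a t = 1 := by
      intro a ha
      apply Subtype.ext
      exact val_eq_one _ _ (fun v hv => by
        by_contra hne
        exact ha (hSocc a t v hv hne))
    by_cases h : ∃ a ∈ T0, t ∈ T a
    · obtain ⟨a, ha, hta⟩ := h
      have huniq : ∀ b : Fin M, b ≠ a → t ∉ T b := by
        intro b hb htb
        exact Finset.disjoint_left.1 (hdis b b.2 a a.2 (fun h => hb (Fin.ext h))) htb hta
      rw [Finset.prod_eq_single a (fun b _ hb => hone b (huniq b hb)) (fun h => absurd ha h)]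
      apply val_congr
      intro v hv
      constructor
      · intro h
        obtain ⟨b, _, hvb⟩ := Finset.mem_biUnion.1 h
        by_cases hb : b = a
        · exact hb ▸ hvb
        · exact absurd (hSocc b t v hvb hv) (huniq b hb)
      · exact fun h => Finset.mem_biUnion.2 ⟨a, ha, h⟩
    · push Not at h
      rw [Finset.prod_eq_one (fun a ha => hone a (h a ha))]
      refine val_eq_one _ _ (fun v hv => ?_)
      by_contra hne
      obtain ⟨b, hb, hvb⟩ := Finset.mem_biUnion.1 hv
      exact h b hb (hSocc b t v hvb hne)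
  rw [← val_keep (w i) V _ hsubV, ← hc i, val_flatten_ofFn]
  have e1 : (List.ofFn (fun t => val (c i t) (T0.biUnion S))) =
      (List.ofFn (fun t : Fin q => (∏ a ∈ T0, nn a (i, t) : N))).map N.subtype := by
    rw [List.map_ofFn]
    congr 1
    funext t
    exact hchunk (i, t)
  rw [e1, ← map_list_prod, List.prod_ofFn, Finset.prod_comm, hprod i, map_one]

end Pool.Agent.P.MP_85fe51_lc
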