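import Mathlib
import Pool.Agent.P.MP_85fe51_lc.Step

set_option autoImplicit false

namespace Pool.Agent.P.MP_85fe51_lc

open Finset

lemma num_bound (d k : ℕ) : 4 * (d * k + 1) * k ^ 3 ≤ (k + 2) ^ (d + 6) := by
  have h1 : d + 1 ≤ (k + 2) ^ d :=
    (Nat.succ_le_of_lt (Nat.lt_two_pow_self)).trans (Nat.pow_le_pow_left (by omega) d)
  have h2 : d * k + 1 ≤ (k + 2) ^ d * (k + 2) := by nlinarith
  have h3 : 4 ≤ (k + 2) ^ 2 := by nlinarith
  have h4 : k ^ 3 ≤ (k + 2) ^ 3 := Nat.pow_le_pow_left (by omega) 3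
  calc 4 * (d * k + 1) * k ^ 3 ≤ (k + 2) ^ 2 * ((k + 2) ^ d * (k + 2)) * (k + 2) ^ 3 := by
        gcongr
    _ = (k + 2) ^ (d + 6) := by ring

lemma num_bound1 (d k : ℕ) : 2 * ((d * k + 1) * k) ≤ (k + 2) ^ (d + 6) := by
  rcases Nat.eq_zero_or_pos k with rfl | hk
  · simp
  · refine le_trans ?_ (num_bound d k)
    have : k ≤ k ^ 3 := Nat.le_self_pow (by norm_num) k
    nlinarith [Nat.zero_le (d * k)]

theorem main_Z : ∀ (m : ℕ) (G : Type) [Group G] [Finite G], Nat.card G ≤ m →
    Group.IsSolvable G →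
    ∃ a : ℕ, ∀ (ι : Type) [DecidableEq ι], Z G ι (fun k => (k + 2) ^ (a * (k + 1))) := by
  intro m
  induction m with
  | zero =>
    intro G _ _ h
    have := Nat.card_pos (α := G)
    omega
  | succ m ih =>
    intro G _ _ hm hG
    rcases subsingleton_or_nontrivial G with hs | hn
    · refine ⟨0, fun ι _ k κ _ w V _ _ _ hV => ⟨V, Finset.Subset.refl _, ?_, fun i => ?_⟩⟩
      · exact Finset.card_pos.1 (by simpa using hV)
      · exact Subsingleton.elim _ _
    obtain ⟨N, p, hN, hNb, hp, hcomm, hexp⟩ := exists_elem_abelian G hG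
    have hcard : Nat.card (G ⧸ N) ≤ m := by
      have h1 := Subgroup.card_eq_card_quotient_mul_card_subgroup N
      have h2 : 1 < Nat.card N := (Subgroup.one_lt_card_iff_ne_bot N).2 hNb
      have h3 := Nat.card_pos (α := G ⧸ N)
      nlinarith
    obtain ⟨a, ha⟩ := ih (G ⧸ N) hcard inferInstance
    obtain ⟨d, hd⟩ := @zero_sum_group N { (inferInstance : Group N) with
          mul_comm := fun x y => Subtype.ext (hcomm x x.2 y y.2) } _ p hp
          (fun x => Subtype.ext (hexp x x.2))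
    refine ⟨a + (d + 6), fun ι _ => ?_⟩
    refine step G ι N hcomm d hd (fun k => (k + 2) ^ (a * (k + 1))) _
      (fun k => Nat.one_le_pow _ _ (by omega)) (ha ι) (fun k => ?_) (fun k => ?_)
    · refine (num_bound1 d k).trans (Nat.pow_le_pow_right (by omega) ?_)
      nlinarith [Nat.zero_le (a * (k + 1)), Nat.zero_le ((d + 6) * k)]
    · have h1 : (4 * (d * k + 1) * k ^ 3) ^ k ≤ ((k + 2) ^ (d + 6)) ^ k :=
        Nat.pow_le_pow_left (num_bound d k) k
      have h2 : 2 * (k + 1) ≤ (k + 2) ^ (d + 6) :=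
        le_trans (by nlinarith) (Nat.pow_le_pow_right (by omega) (by omega : 2 ≤ d + 6))
      calc 2 * ((k + 1) * (4 * (d * k + 1) * k ^ 3) ^ k * (k + 2) ^ (a * (k + 1)))
          = 2 * (k + 1) * (4 * (d * k + 1) * k ^ 3) ^ k * (k + 2) ^ (a * (k + 1)) := by ring
        _ ≤ (k + 2) ^ (d + 6) * ((k + 2) ^ (d + 6)) ^ k * (k + 2) ^ (a * (k + 1)) := by
          gcongr
        _ = (k + 2) ^ ((a + (d + 6)) * (k + 1)) := by
          rw [← pow_mul, ← pow_add, ← pow_add]; congr 1; ring

lemma exists_word {ι : Type} [DecidableEq ι] {G : Type} [Group G] :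
    ∀ (L : ℕ) (var : Fin L → ι) (g h : Fin L → G), ∃ w : List (ι × G), w.length = L ∧
      ∀ S : Finset ι, (List.ofFn (fun j => if var j ∈ S then h j else g j)).prod =
        val w S * (List.ofFn g).prod := by
  intro L
  induction L with
  | zero => exact fun _ _ _ => ⟨[], rfl, fun S => by simp⟩
  | succ L ih =>
    intro var g h
    obtain ⟨w, hw, hS⟩ := ih (fun j => var j.succ) (fun j => g j.succ) (fun j => h j.succ)
    refine ⟨(var 0, h 0 * (g 0)⁻¹) ::
      w.map (fun p => (p.1, (MulAut.conj (g 0)).toMonoidHom p.2)), by simp [hw], fun S => ?_⟩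
    rw [List.ofFn_succ, List.ofFn_succ, List.prod_cons, List.prod_cons, hS S, val_cons, val_map]
    by_cases hv : var 0 ∈ S <;> simp [hv, mul_assoc]

/-- explicit form: a program that isolates the input `y` is long -/
theorem collision (G : Type) [Group G] [Finite G] (hG : Group.IsSolvable G) :
    ∃ A : ℕ, ∀ (n L : ℕ) (var : Fin L → Fin n) (a b : Fin L → G) (y : Fin n → Bool),
      2 * (2 * L / n + 3) ^ (A * (2 * L / n + 2)) ≤ n →
      ∃ x : Fin n → Bool, x ≠ y ∧
        (List.ofFn (fun j : Fin L => if x (var j) then a j else b j)).prod =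
        (List.ofFn (fun j : Fin L => if y (var j) then a j else b j)).prod := by
  classical
  obtain ⟨A, hA⟩ := main_Z _ G le_rfl hG
  refine ⟨A, fun n L var a b y hn => ?_⟩
  obtain ⟨w, hw, hS⟩ := exists_word L var (fun j => if y (var j) then a j else b j)
    (fun j => if !y (var j) then a j else b j)
  set k := 2 * L / n + 1 with hk
  have hn0 : 0 < n := lt_of_lt_of_le (by positivity) hn
  let V : Finset (Fin n) := Finset.univ.filter (fun v => occ w v ≤ k)
  have hVc : n ≤ 2 * V.card := by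
    have h1 : V.card + (Finset.univ.filter (fun v => ¬ occ w v ≤ k)).card = n := by
      rw [Finset.card_filter_add_card_filter_not]; simp
    have h2 := sum_occ_le w (Finset.univ.filter (fun v => ¬ occ w v ≤ k))
    have h3 : (Finset.univ.filter (fun v => ¬ occ w v ≤ k)).card * k ≤
        ∑ v ∈ Finset.univ.filter (fun v => ¬ occ w v ≤ k), occ w v := by
      rw [← smul_eq_mul]
      refine Finset.card_nsmul_le_sum _ _ _ (fun v hv => ?_)
      have := (Finset.mem_filter.1 hv).2
      omega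
    have h4 : 2 * L < n * k := Nat.lt_mul_div_succ _ hn0
    have h5 : 2 * (Finset.univ.filter (fun v => ¬ occ w v ≤ k)).card * k < n * k := by
      rw [hw] at h2; nlinarith
    have h6 := Nat.lt_of_mul_lt_mul_right h5
    omega
  obtain ⟨S, -, hne, hval⟩ := hA (Fin n) k Unit (fun _ => w) V (Nat.le_add_left _ _) (by simp [hk])
    (fun v hv => by simpa using (Finset.mem_filter.1 hv).2) (by
      have e1 : k + 2 = 2 * L / n + 3 := by omega
      have e2 : k + 1 = 2 * L / n + 2 := by omega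
      simp only [e1, e2]
      omega)
  refine ⟨fun i => if i ∈ S then !y i else y i, ?_, ?_⟩
  · obtain ⟨v, hv⟩ := hne
    intro h
    have := congrFun h v
    simp [hv] at this
  · have := hS S
    rw [hval (), one_mul] at this
    rw [← this]
    congr 2
    funext j
    by_cases hj : var j ∈ S <;> simp [hj]

lemma eventually_ratio (C : ℝ) :
    ∀ᶠ n : ℕ in Filter.atTop, C * Real.log (Real.log n) ≤ Real.log n ∧ 1 ≤ Real.log (Real.log n) ∧
      1 ≤ Real.log n := by
  have hlog : Filter.Tendsto (fun n : ℕ => Real.log n) Filter.atTop Filter.atTop :=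
    Real.tendsto_log_atTop.comp tendsto_natCast_atTop_atTop
  have hll : Filter.Tendsto (fun n : ℕ => Real.log (Real.log n)) Filter.atTop Filter.atTop :=
    Real.tendsto_log_atTop.comp hlog
  have h1 : ∀ᶠ x : ℝ in Filter.atTop, C * Real.log x ≤ x := by
    have hb := Real.isLittleO_log_id_atTop.bound (c := 1 / (|C| + 1)) (by positivity)
    filter_upwards [hb, Filter.eventually_ge_atTop 1] with x hx hx1
    have hl : 0 ≤ Real.log x := Real.log_nonneg hx1
    rw [Real.norm_of_nonneg hl, id, Real.norm_of_nonneg (by linarith), one_div,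
      ← div_eq_inv_mul, le_div_iff₀ (by positivity)] at hx
    nlinarith [le_abs_self C]
  filter_upwards [hlog.eventually h1, hll.eventually_ge_atTop 1, hlog.eventually_ge_atTop 1]
    with n a b c
  exact ⟨a, b, c⟩

lemma asymptotic (A : ℕ) : ∃ c : ℝ, 0 < c ∧ ∃ n₀ : ℕ, ∀ n ≥ n₀, ∀ L : ℕ,
    (L : ℝ) ≤ c * n * Real.log n / Real.log (Real.log n) →
    2 * (2 * L / n + 3) ^ (A * (2 * L / n + 2)) ≤ n := by
  obtain ⟨n₀, hn₀⟩ := Filter.eventually_atTop.1 (eventually_ratio (6 * (A + 1)))
  refine ⟨1 / (4 * (A + 1)), by positivity, n₀, fun n hn L hL => ?_⟩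
  obtain ⟨h1, h2, h3⟩ := hn₀ n hn
  set K : ℕ := 2 * L / n + 3 with hK
  set x := Real.log n with hx
  set z := Real.log x with hz
  have hn0 : (0 : ℝ) < n := by
    rcases Nat.eq_zero_or_pos n with h | h
    · rw [hx, h] at h3; norm_num at h3
    · exact_mod_cast h
  have hA : (0 : ℝ) < A + 1 := by positivity
  have hz0 : 0 < z := by linarith
  -- `K ≤ x / ((A+1) z)`
  have hK1 : (K : ℝ) * ((A + 1) * z) ≤ x := by
    have e1 : ((2 * L / n : ℕ) : ℝ) ≤ 2 * L / n := by
      have := Nat.cast_div_le (α := ℝ) (m := 2 * L) (n := n)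
      simpa using this
    have e2 : (2 * L / n : ℝ) * ((A + 1) * z) ≤ x / 2 := by
      rw [le_div_iff₀ hz0] at hL
      rw [div_mul_eq_mul_div, div_le_iff₀ hn0]
      have : 1 / (4 * ((A : ℝ) + 1)) * n * x * (A + 1) = n * x / 4 := by field_simp
      nlinarith
    have e3 : (K : ℝ) = ((2 * L / n : ℕ) : ℝ) + 3 := by rw [hK]; push_cast; ring
    have e4 : 0 < ((A : ℝ) + 1) * z := by positivity
    rw [e3]
    nlinarith
  have hK0 : (3 : ℝ) ≤ K := by rw [hK]; push_cast; linarith [Nat.cast_nonneg (α := ℝ) (2 * L / n)]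
  have hKx : (K : ℝ) ≤ x := by
    have : 1 ≤ ((A : ℝ) + 1) * z := by nlinarith [Nat.cast_nonneg (α := ℝ) A]
    nlinarith
  have hlogK : Real.log K ≤ z := Real.log_le_log (by linarith) hKx
  have hfin : K ^ ((A + 1) * K) ≤ n := by
    have : ((K ^ ((A + 1) * K) : ℕ) : ℝ) ≤ n := by
      rw [← Real.log_le_log_iff (by positivity) hn0]
      push_cast
      rw [Real.log_pow]
      push_cast
      have : ((A : ℝ) + 1) * K * Real.log K ≤ ((A : ℝ) + 1) * K * z := by gcongr
      linarith
    exact_mod_cast this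
  refine le_trans ?_ hfin
  have hK3 : 3 ≤ K := Nat.le_add_left _ _
  have hK4 : 2 * L / n + 2 ≤ K := Nat.le_succ _
  calc 2 * K ^ (A * (2 * L / n + 2)) ≤ K ^ K * K ^ (A * K) :=
        Nat.mul_le_mul (le_trans (by omega) (Nat.le_self_pow (by omega) K))
          (Nat.pow_le_pow_right (by omega) (Nat.mul_le_mul_left _ hK4))
    _ = K ^ ((A + 1) * K) := by ring

end Pool.Agent.P.MP_85fe51_lc
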