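import Pool.Agent.P.MP_85fe51_lc.ODefs

set_option autoImplicit false

namespace Pool.Agent.P.MP_85fe51_lc.OD

open Finset
open scoped Classical

variable {ι V : Type} [DecidableEq ι] [AddCommGroup V]

/-- admissible sets are closed under disjoint unions. -/
def Clo (Kp : Finset ι → Prop) : Prop := ∀ A B, Disjoint A B → Kp A → Kp B → Kp (A ∪ B)

theorem clo_true : Clo (fun _ : Finset ι => True) := fun _ _ _ _ _ => trivial

variable {Z : AddSubgroup V} {Kp : Finset ι → Prop} {d : ℕ} {Y : Finset ι} {f g : Finset ι → V}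

theorem DL.mono_set (h : DL Z Kp d Y f) {Y' : Finset ι} (hY : Y' ⊆ Y) : DL Z Kp d Y' f := by
  induction d generalizing Y Y' f with
  | zero => exact fun A hA hKA => h A (hA.trans hY) hKA
  | succ d ih =>
    exact fun B hB hKB => ih (h B (hB.trans hY) hKB) (sdiff_subset_sdiff hY (Subset.refl _))

theorem DL.mono_pred (h : DL Z Kp d Y f) {Kp' : Finset ι → Prop} (hK : ∀ A, Kp' A → Kp A) :
    DL Z Kp' d Y f := by
  induction d generalizing Y f with
  | zero => exact fun A hA hKA => h A hA (hK A hKA)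
  | succ d ih => exact fun B hB hKB => ih (h B hB (hK B hKB))

theorem DL.mono_grp (h : DL Z Kp d Y f) {Z' : AddSubgroup V} (hZ : Z ≤ Z') : DL Z' Kp d Y f := by
  induction d generalizing Y f with
  | zero => exact fun A hA hKA => hZ (h A hA hKA)
  | succ d ih => exact fun B hB hKB => ih (h B hB hKB)

theorem odl_disj {A B Y : Finset ι} (hA : A ⊆ Y \ B) : Disjoint A B :=
  Finset.disjoint_of_subset_left hA sdiff_disjoint

theorem odl_union_sub {A B Y : Finset ι} (hA : A ⊆ Y \ B) (hB : B ⊆ Y) : A ∪ B ⊆ Y :=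
  union_subset (hA.trans sdiff_subset) hB

theorem odl_zero (hf : ∀ A, f A = 0) : DL Z Kp d Y f := by
  induction d generalizing Y f with
  | zero =>
    intro A _ _
    rw [hf A]
    exact Z.zero_mem
  | succ d ih => exact fun B _ _ => ih (fun A => by rw [hf, hf, sub_zero])

theorem odl_sub (h : DL Z Kp d Y f) (h' : DL Z Kp d Y g) : DL Z Kp d Y (fun A => f A - g A) := by
  induction d generalizing Y f g with
  | zero => exact fun A hA hKA => Z.sub_mem (h A hA hKA) (h' A hA hKA)
  | succ d ih =>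
    intro B hB hKB
    have e : (fun A => (f (A ∪ B) - g (A ∪ B)) - (f A - g A)) =
        fun A => (f (A ∪ B) - f A) - (g (A ∪ B) - g A) := by
      funext A
      abel
    have h1 := ih (h B hB hKB) (h' B hB hKB)
    rw [← e] at h1
    exact h1

theorem odl_shift (hK : Clo Kp) (h : DL Z Kp d Y f) {B : Finset ι} (hB : B ⊆ Y) (hKB : Kp B) :
    DL Z Kp d (Y \ B) (fun A => f (A ∪ B)) := by
  induction d generalizing Y f with
  | zero => exact fun A hA hKA => h _ (odl_union_sub hA hB) (hK A B (odl_disj hA) hKA hKB)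
  | succ d ih =>
    intro C hC hKC
    have hBC : B ⊆ Y \ C := subset_sdiff.2 ⟨hB, (odl_disj hC).symm⟩
    have h1 := ih (h C (hC.trans sdiff_subset) hKC) hBC
    have e1 : (Y \ C) \ B = (Y \ B) \ C := sdiff_right_comm _ _ _
    have e2 : (fun A => f (A ∪ B ∪ C) - f (A ∪ B)) = fun A => f (A ∪ C ∪ B) - f (A ∪ B) := by
      funext A
      rw [union_right_comm]
    rw [e1] at h1
    have h2 : DL Z Kp d ((Y \ B) \ C) (fun A => f (A ∪ B ∪ C) - f (A ∪ B)) := h1
    rw [e2] at h2
    exact h2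

theorem DL_of_mem (hK : Clo Kp) (h : ∀ A, A ⊆ Y → Kp A → f A ∈ Z) : DL Z Kp d Y f := by
  induction d generalizing Y f with
  | zero => exact h
  | succ d ih =>
    intro B hB hKB
    exact ih (fun A hA hKA => Z.sub_mem
      (h _ (odl_union_sub hA hB) (hK A B (odl_disj hA) hKA hKB)) (h A (hA.trans sdiff_subset) hKA))

theorem DL.succ (hK : Clo Kp) (h : DL Z Kp d Y f) : DL Z Kp (d + 1) Y f :=
  fun _ hB hKB => odl_sub (odl_shift hK h hB hKB) (h.mono_set sdiff_subset)

theorem DL.of_le (hK : Clo Kp) (h : DL Z Kp d Y f) {d' : ℕ} (hd : d ≤ d') : DL Z Kp d' Y f := by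
  induction hd with
  | refl => exact h
  | step _ ih => exact ih.succ hK

theorem DL.congr (hK : Clo Kp) (h : DL Z Kp d Y f) (hfg : ∀ A, A ⊆ Y → Kp A → f A = g A) :
    DL Z Kp d Y g := by
  induction d generalizing Y f g with
  | zero =>
    intro A hA hKA
    rw [← hfg A hA hKA]
    exact h A hA hKA
  | succ d ih =>
    intro B hB hKB
    refine ih (h B hB hKB) (fun A hA hKA => ?_)
    show f (A ∪ B) - f A = g (A ∪ B) - g A
    rw [hfg _ (odl_union_sub hA hB) (hK A B (odl_disj hA) hKA hKB),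
      hfg A (hA.trans sdiff_subset) hKA]

theorem DL_const (c : V) : DL Z Kp (d + 1) Y (fun _ => c) :=
  fun _ _ _ => odl_zero (fun _ => sub_self c)

theorem DL.add (h : DL Z Kp d Y f) (h' : DL Z Kp d Y g) : DL Z Kp d Y (fun A => f A + g A) := by
  induction d generalizing Y f g with
  | zero => exact fun A hA hKA => Z.add_mem (h A hA hKA) (h' A hA hKA)
  | succ d ih =>
    intro B hB hKB
    have e : (fun A => (f (A ∪ B) + g (A ∪ B)) - (f A + g A)) =
        fun A => (f (A ∪ B) - f A) + (g (A ∪ B) - g A) := by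
      funext A
      abel
    have h1 := ih (h B hB hKB) (h' B hB hKB)
    rw [← e] at h1
    exact h1

theorem DL.sub (h : DL Z Kp d Y f) (h' : DL Z Kp d Y g) : DL Z Kp d Y (fun A => f A - g A) :=
  odl_sub h h'

theorem DL.zsmul (h : DL Z Kp d Y f) (n : ℤ) : DL Z Kp d Y (fun A => n • f A) := by
  induction d generalizing Y f with
  | zero => exact fun A hA hKA => Z.zsmul_mem (h A hA hKA) n
  | succ d ih =>
    intro B hB hKB
    have e : (fun A => n • f (A ∪ B) - n • f A) = fun A => n • (f (A ∪ B) - f A) := by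
      funext A
      rw [smul_sub]
    have h1 := ih (h B hB hKB)
    rw [← e] at h1
    exact h1

theorem DL_sum {α : Type} (I : Finset α) (F : α → Finset ι → V) (h : ∀ i ∈ I, DL Z Kp d Y (F i)) :
    DL Z Kp d Y (fun A => ∑ i ∈ I, F i A) := by
  induction I using Finset.induction_on with
  | empty => exact odl_zero (fun _ => sum_empty)
  | insert a I ha ih =>
    have e : (fun A => ∑ i ∈ insert a I, F i A) = fun A => F a A + ∑ i ∈ I, F i A := by
      funext A
      rw [sum_insert ha]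
    rw [e]
    exact (h a (mem_insert_self _ _)).add (ih (fun i hi => h i (mem_insert_of_mem hi)))

theorem DL.map {W : Type} [AddCommGroup W] (q : V →+ W) {Z' : AddSubgroup W}
    (hq : ∀ z ∈ Z, q z ∈ Z') (h : DL Z Kp d Y f) : DL Z' Kp d Y (fun A => q (f A)) := by
  induction d generalizing Y f with
  | zero => exact fun A hA hKA => hq _ (h A hA hKA)
  | succ d ih =>
    intro B hB hKB
    have e : (fun A => q (f (A ∪ B)) - q (f A)) = fun A => q (f (A ∪ B) - f A) := by
      funext A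
      rw [map_sub]
    have h1 := ih (h B hB hKB)
    rw [← e] at h1
    exact h1

theorem DL.ker {W : Type} [AddCommGroup W] (q : V →+ W) (h : DL ⊥ Kp d Y (fun A => q (f A))) :
    DL q.ker Kp d Y f := by
  induction d generalizing Y f with
  | zero => exact fun A hA hKA => (AddMonoidHom.mem_ker).2 (AddSubgroup.mem_bot.1 (h A hA hKA))
  | succ d ih =>
    intro B hB hKB
    have e : (fun A => q (f (A ∪ B)) - q (f A)) = fun A => q (f (A ∪ B) - f A) := by
      funext A
      rw [map_sub]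
    have h1 : DL ⊥ Kp d (Y \ B) (fun A => q (f (A ∪ B)) - q (f A)) := h B hB hKB
    rw [e] at h1
    exact ih h1

theorem DL.inf {Z' : AddSubgroup V} (h : DL Z Kp d Y f) (h' : DL Z' Kp d Y f) :
    DL (Z ⊓ Z') Kp d Y f := by
  induction d generalizing Y f with
  | zero => exact fun A hA hKA => AddSubgroup.mem_inf.2 ⟨h A hA hKA, h' A hA hKA⟩
  | succ d ih => exact fun B hB hKB => ih (h B hB hKB) (h' B hB hKB)

theorem DL.prod {W : Type} [AddCommGroup W] {Z' : AddSubgroup W} {f' : Finset ι → W}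
    (h : DL Z Kp d Y f) (h' : DL Z' Kp d Y f') :
    DL (Z.prod Z') Kp d Y (fun A => (f A, f' A)) := by
  induction d generalizing Y f f' with
  | zero => exact fun A hA hKA => AddSubgroup.mem_prod.2 ⟨h A hA hKA, h' A hA hKA⟩
  | succ d ih => exact fun B hB hKB => ih (h B hB hKB) (h' B hB hKB)

theorem DL.shift (hK : Clo Kp) (h : DL Z Kp d Y f) {B : Finset ι} (hB : B ⊆ Y) (hKB : Kp B) :
    DL Z Kp d (Y \ B) (fun A => f (A ∪ B)) :=
  odl_shift hK h hB hKB

theorem odl_junta0 (Q : Finset ι) (hf : ∀ A, A ⊆ Y → f A = f (A ∩ Q)) {B : Finset ι} (hB : B ⊆ Y)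
    (hQB : Disjoint Q B) : DL Z (fun _ => True) d (Y \ B) (fun A => f (A ∪ B) - f A) := by
  refine DL_of_mem clo_true (fun A hA _ => ?_)
  have e : (A ∪ B) ∩ Q = A ∩ Q := by
    rw [union_inter_distrib_right, disjoint_iff_inter_eq_empty.1 hQB.symm, union_empty]
  show f (A ∪ B) - f A ∈ Z
  rw [hf _ (odl_union_sub hA hB), hf A (hA.trans sdiff_subset), e, sub_self]
  exact Z.zero_mem

/-- a function of at most `c` coordinates has degree at most `c`. -/
theorem DL_junta {c : ℕ} (Q : Finset ι) (hf : ∀ A, A ⊆ Y → f A = f (A ∩ Q))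
    (hc : (Q ∩ Y).card ≤ c) : DL Z (fun _ => True) (c + 1) Y f := by
  induction c generalizing Y f with
  | zero =>
    intro B hB _
    refine odl_junta0 Q hf hB ?_
    have h0 : Q ∩ Y = ∅ := card_eq_zero.1 (Nat.le_zero.1 hc)
    exact Finset.disjoint_of_subset_right hB (disjoint_iff_inter_eq_empty.2 h0)
  | succ c ih =>
    intro B hB _
    by_cases hQB : Disjoint Q B
    · exact odl_junta0 Q hf hB hQB
    · obtain ⟨x, hxQ, hxB⟩ := not_disjoint_iff.1 hQB
      refine ih (fun A hA => ?_) ?_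
      · have hA' : A ∩ Q ⊆ Y \ B := inter_subset_left.trans hA
        have e : (A ∩ Q ∪ B) ∩ Q = (A ∪ B) ∩ Q := by
          rw [union_inter_distrib_right, union_inter_distrib_right, inter_assoc, inter_self]
        show f (A ∪ B) - f A = f (A ∩ Q ∪ B) - f (A ∩ Q)
        rw [hf _ (odl_union_sub hA hB), hf A (hA.trans sdiff_subset),
          hf _ (odl_union_sub hA' hB), e]
      · have hss : Q ∩ (Y \ B) ⊂ Q ∩ Y := by
          refine ⟨inter_subset_inter (Subset.refl _) sdiff_subset, fun hs => ?_⟩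
          have := hs (mem_inter.2 ⟨hxQ, hB hxB⟩)
          exact (mem_sdiff.1 (mem_inter.1 this).2).2 hxB
        have := card_lt_card hss
        omega

theorem DL.ite_mem (h : DL Z (fun _ => True) d Y f) (i : ι) :
    DL Z (fun _ => True) (d + 1) Y (fun A => if i ∈ A then f A else 0) := by
  induction d generalizing Y f with
  | zero =>
    have h0 : ∀ A, A ⊆ Y → (if i ∈ A then f A else 0) ∈ Z := by
      intro A hA
      split_ifs
      · exact h A hA trivial
      · exact Z.zero_mem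
    exact DL_of_mem clo_true (fun A hA _ => h0 A hA)
  | succ d ih =>
    intro B hB _
    by_cases hi : i ∈ B
    · refine (odl_shift clo_true h hB trivial).congr clo_true (fun A hA _ => ?_)
      have hiA : i ∉ A := fun h' => (mem_sdiff.1 (hA h')).2 hi
      show f (A ∪ B) = (if i ∈ A ∪ B then f (A ∪ B) else 0) - (if i ∈ A then f A else 0)
      rw [if_pos (mem_union_right _ hi), if_neg hiA, sub_zero]
    · refine (ih (h B hB trivial)).congr clo_true (fun A _ _ => ?_)
      show (if i ∈ A then f (A ∪ B) - f A else 0) =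
        (if i ∈ A ∪ B then f (A ∪ B) else 0) - (if i ∈ A then f A else 0)
      by_cases hiA : i ∈ A
      · rw [if_pos hiA, if_pos hiA, if_pos (mem_union_left _ hiA)]
      · have : i ∉ A ∪ B := fun h' => (mem_union.1 h').elim hiA hi
        rw [if_neg hiA, if_neg hiA, if_neg this, sub_zero]

theorem odl_biUnion {α : Type} [DecidableEq α] (hK0 : Kp ∅) (hK : Clo Kp)
    (I : Finset α) (x : α → Finset ι) (hx : ∀ a ∈ I, Kp (x a))
    (hd : ∀ a ∈ I, ∀ b ∈ I, a ≠ b → Disjoint (x a) (x b)) : Kp (I.biUnion x) := by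
  induction I using Finset.induction_on with
  | empty => exact hK0
  | insert a I ha ih =>
    rw [biUnion_insert]
    refine hK _ _ ?_ (hx a (mem_insert_self _ _)) (ih (fun b hb => hx b (mem_insert_of_mem hb))
      (fun b hb c hc => hd b (mem_insert_of_mem hb) c (mem_insert_of_mem hc)))
    rw [disjoint_biUnion_right]
    exact fun b hb => hd a (mem_insert_self _ _) b (mem_insert_of_mem hb)
      (fun e => ha (e ▸ hb))

theorem DL_atoms {α : Type} [DecidableEq α] (hK0 : Kp ∅) (hK : Clo Kp) (h : DL Z Kp d Y f)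
    (I : Finset α) (x : α → Finset ι) (hx : ∀ a ∈ I, x a ⊆ Y ∧ Kp (x a))
    (hd : ∀ a ∈ I, ∀ b ∈ I, a ≠ b → Disjoint (x a) (x b)) :
    DL Z (fun _ => True) d I (fun G => f (G.biUnion x)) := by
  have hsub : ∀ (Y : Finset ι) (I G : Finset α), (∀ a ∈ I, x a ⊆ Y ∧ Kp (x a)) →
      (∀ a ∈ I, ∀ b ∈ I, a ≠ b → Disjoint (x a) (x b)) → G ⊆ I →
      G.biUnion x ⊆ Y ∧ Kp (G.biUnion x) := fun Y I G hx hd hG =>
    ⟨biUnion_subset.2 (fun a ha => (hx a (hG ha)).1), odl_biUnion hK0 hK G x
      (fun a ha => (hx a (hG ha)).2) (fun a ha b hb => hd a (hG ha) b (hG hb))⟩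
  induction d generalizing Y f I with
  | zero => exact fun G hG _ => h _ (hsub Y I G hx hd hG).1 (hsub Y I G hx hd hG).2
  | succ d ih =>
    intro H hH _
    have h1 := ih (h _ (hsub Y I H hx hd hH).1 (hsub Y I H hx hd hH).2) (I \ H) (fun a ha => by
      obtain ⟨haI, haH⟩ := mem_sdiff.1 ha
      refine ⟨subset_sdiff.2 ⟨(hx a haI).1, ?_⟩, (hx a haI).2⟩
      rw [disjoint_biUnion_right]
      exact fun b hb => hd a haI b (hH hb) (fun e => haH (e ▸ hb)))
      (fun a ha b hb => hd a (mem_sdiff.1 ha).1 b (mem_sdiff.1 hb).1)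
    have e : (fun G : Finset α => f (G.biUnion x ∪ H.biUnion x) - f (G.biUnion x)) =
        fun G => f ((G ∪ H).biUnion x) - f (G.biUnion x) := by
      funext G
      rw [union_biUnion]
    have h2 : DL Z (fun _ => True) d (I \ H)
        (fun G : Finset α => f (G.biUnion x ∪ H.biUnion x) - f (G.biUnion x)) := h1
    rw [e] at h2
    exact h2

theorem odl_sgn_cons {k : ℕ} (e : Bool) (ε : Fin k → Bool) :
    sgn (Fin.cons e ε : Fin (k + 1) → Bool) = (if e then -1 else 1) * sgn ε := by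
  simp only [sgn, Fin.prod_univ_succ, Fin.cons_zero, Fin.cons_succ]

theorem odl_biUnion_cons {k : ℕ} (y : Fin (k + 1) → Bool → Finset ι) (e : Bool)
    (ε : Fin k → Bool) (B : Finset ι) :
    B ∪ univ.biUnion (fun b => y b ((Fin.cons e ε : Fin (k + 1) → Bool) b)) =
      B ∪ univ.biUnion (fun b : Fin k => y b.succ (ε b)) ∪ y 0 e := by
  ext i
  simp only [mem_union, mem_biUnion, mem_univ, true_and, Fin.exists_fin_succ, Fin.cons_zero,
    Fin.cons_succ]
  tauto

theorem odl_pairs {k : ℕ} (h : DL Z (fun _ => True) k Y f) (a : Fin k → Finset ι)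
    (ha : ∀ b, a b ⊆ Y) (hd : ∀ b b', b ≠ b' → Disjoint (a b) (a b'))
    (y : Fin k → Bool → Finset ι) (hy : ∀ b e, y b e ⊆ a b) (B : Finset ι) (hB : B ⊆ Y)
    (hBa : ∀ b, Disjoint B (a b)) :
    ∑ ε : Fin k → Bool, sgn ε • f (B ∪ univ.biUnion (fun b => y b (ε b))) ∈ Z := by
  induction k generalizing Y f with
  | zero =>
    refine Z.sum_mem (fun ε _ => Z.zsmul_mem (h _ (union_subset hB ?_) trivial) _)
    exact biUnion_subset.2 (fun b _ => (hy b _).trans (ha b))
  | succ k ih =>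
    have hg : ∀ e, DL Z (fun _ => True) k (Y \ a 0) (fun A => f (A ∪ y 0 e) - f A) := fun e =>
      DL.mono_set (h (y 0 e) ((hy 0 e).trans (ha 0)) trivial)
        (sdiff_subset_sdiff (Subset.refl _) (hy 0 e))
    have h1 := ih (odl_sub (hg false) (hg true)) (fun b => a b.succ)
      (fun b => subset_sdiff.2 ⟨ha _, hd _ _ (Fin.succ_ne_zero b)⟩)
      (fun b b' hb => hd _ _ (fun e => hb (Fin.succ_injective _ e))) (fun b => y b.succ)
      (fun b e => hy _ e) (subset_sdiff.2 ⟨hB, hBa 0⟩) (fun b => hBa _)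
    rw [← (Fin.consEquiv (fun _ : Fin (k + 1) => Bool)).sum_comp, Fintype.sum_prod_type,
      Fintype.sum_bool, ← sum_add_distrib]
    refine (congrArg (· ∈ Z) (sum_congr rfl (fun ε _ => ?_))).mp h1
    show _ = sgn (Fin.cons true ε : Fin (k + 1) → Bool) •
        f (B ∪ univ.biUnion (fun b => y b ((Fin.cons true ε : Fin (k + 1) → Bool) b))) +
      sgn (Fin.cons false ε : Fin (k + 1) → Bool) •
        f (B ∪ univ.biUnion (fun b => y b ((Fin.cons false ε : Fin (k + 1) → Bool) b)))
    rw [odl_sgn_cons, odl_sgn_cons, odl_biUnion_cons, odl_biUnion_cons]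
    simp only [if_true, Bool.false_eq_true, if_false, one_mul, neg_mul, neg_smul, smul_sub]
    abel

/-- alternating sums over pairs of subsets of `k` disjoint blocks. -/
theorem DL_pairs {k : ℕ} (hk : d ≤ k) (h : DL Z (fun _ => True) d Y f) (a : Fin k → Finset ι)
    (ha : ∀ b, a b ⊆ Y) (hd : ∀ b b', b ≠ b' → Disjoint (a b) (a b'))
    (y : Fin k → Bool → Finset ι) (hy : ∀ b e, y b e ⊆ a b) (B : Finset ι) (hB : B ⊆ Y)
    (hBa : ∀ b, Disjoint B (a b)) :
    ∑ ε : Fin k → Bool, sgn ε • f (B ∪ univ.biUnion (fun b => y b (ε b))) ∈ Z :=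
  odl_pairs (h.of_le clo_true hk) a ha hd y hy B hB hBa

/-- a functional that separates `f` from all maps of low degree. -/
theorem DL_cert (hK : Clo Kp) (h : ¬ DL ⊥ Kp d Y f) :
    ∃ (Λ : Type) (_ : Fintype Λ) (n : Λ → ℤ) (z : Λ → Finset ι), (∀ l, z l ⊆ Y ∧ Kp (z l)) ∧
      ∑ l, n l • f (z l) ≠ 0 ∧
      ∀ g : Finset ι → V, DL ⊥ Kp d Y g → ∑ l, n l • g (z l) = 0 := by
  induction d generalizing Y f with
  | zero =>
    have h' : ∃ A, A ⊆ Y ∧ Kp A ∧ f A ≠ 0 := by
      by_contra hc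
      refine h (fun A hA hKA => AddSubgroup.mem_bot.2 ?_)
      by_contra h0
      exact hc ⟨A, hA, hKA, h0⟩
    obtain ⟨A, hA, hKA, h0⟩ := h'
    refine ⟨Unit, inferInstance, fun _ => 1, fun _ => A, fun _ => ⟨hA, hKA⟩, ?_, fun g hg => ?_⟩
    · simpa using h0
    · simpa using AddSubgroup.mem_bot.1 (hg A hA hKA)
  | succ d ih =>
    have h' : ∃ B, B ⊆ Y ∧ Kp B ∧ ¬ DL ⊥ Kp d (Y \ B) (fun A => f (A ∪ B) - f A) := by
      by_contra hc
      refine h (fun B hB hKB => ?_)
      by_contra h0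
      exact hc ⟨B, hB, hKB, h0⟩
    obtain ⟨B, hB, hKB, h0⟩ := h'
    obtain ⟨Λ, hΛ, n, z, hz, hne, hall⟩ := ih h0
    have key : ∀ g : Finset ι → V,
        ∑ l : Λ ⊕ Λ, Sum.elim n (fun l => -n l) l • g (Sum.elim (fun l => z l ∪ B) z l) =
          ∑ l, n l • (g (z l ∪ B) - g (z l)) := by
      intro g
      rw [Fintype.sum_sum_type, ← sum_add_distrib]
      refine sum_congr rfl (fun l _ => ?_)
      simp only [Sum.elim_inl, Sum.elim_inr, neg_smul, smul_sub]
      abel
    refine ⟨Λ ⊕ Λ, inferInstance, Sum.elim n (fun l => -n l), Sum.elim (fun l => z l ∪ B) z,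
      ?_, ?_, fun g hg => ?_⟩
    · rintro (l | l)
      · exact ⟨odl_union_sub (hz l).1 hB, hK _ _ (odl_disj (hz l).1) (hz l).2 hKB⟩
      · exact ⟨(hz l).1.trans sdiff_subset, (hz l).2⟩
    · rw [key]
      exact hne
    · rw [key]
      exact hall _ (hg B hB hKB)

end Pool.Agent.P.MP_85fe51_lc.OD
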