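import Pool.Agent.P.MP_85fe51_lc.OVal
import Pool.Agent.P.MP_85fe51_lc.ODL

set_option autoImplicit false

namespace Pool.Agent.P.MP_85fe51_lc.OD

open Finset
open scoped Classical

section
variable {A Ω : Type} {k : ℕ} {ab : Fin k → A}

theorem ocs_mix_pos (hab : Function.Injective ab) (ω : A ⊕ Fin k → Ω) {ε : Fin k → Bool}
    {b : Fin k} (h : ε b = true) : mix ab ω ε (ab b) = ω (Sum.inr b) := by
  have h' : ∃ b', ab b' = ab b ∧ ε b' = true := ⟨b, rfl, h⟩
  unfold mix
  rw [dif_pos h', hab h'.choose_spec.1]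

theorem ocs_mix_neg (ω : A ⊕ Fin k → Ω) {ε : Fin k → Bool} {a : A}
    (h : ¬ ∃ b, ab b = a ∧ ε b = true) : mix ab ω ε a = ω (Sum.inl a) := by
  unfold mix
  rw [dif_neg h]

/-- the switch vector of a set of batches. -/
def ocsE (S : Finset (Fin k)) : Fin k → Bool := fun b => decide (b ∈ S)

theorem ocsE_true {S : Finset (Fin k)} {b : Fin k} : ocsE S b = true ↔ b ∈ S := by
  simp [ocsE]

theorem ocs_sgn (S : Finset (Fin k)) : sgn (ocsE S) = (-1) ^ S.card := by
  unfold sgn
  simp only [ocsE_true]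
  rw [Finset.prod_ite_mem, Finset.univ_inter, Finset.prod_const]

variable [DecidableEq A]

theorem ocs_mix_inr (hab : Function.Injective ab) (ω : A ⊕ Fin k → Ω) {S : Finset (Fin k)}
    {b : Fin k} (hb : b ∉ S) (y : Ω) :
    mix ab (Function.update ω (Sum.inr b) y) (ocsE S) = mix ab ω (ocsE S) := by
  funext a
  by_cases h : ∃ b', ab b' = a ∧ ocsE S b' = true
  · obtain ⟨b', rfl, h'⟩ := h
    rw [ocs_mix_pos hab _ h', ocs_mix_pos hab _ h', Function.update_of_ne]
    intro e
    exact hb (Sum.inr.inj e ▸ ocsE_true.mp h')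
  · rw [ocs_mix_neg _ h, ocs_mix_neg _ h, Function.update_of_ne Sum.inl_ne_inr]

theorem ocs_mix_insert (hab : Function.Injective ab) (ω : A ⊕ Fin k → Ω) {S : Finset (Fin k)}
    {b : Fin k} (hb : b ∉ S) :
    mix ab ω (ocsE (insert b S)) =
      mix ab (Function.update ω (Sum.inl (ab b)) (ω (Sum.inr b))) (ocsE S) := by
  funext a
  by_cases ha : a = ab b
  · subst ha
    rw [ocs_mix_pos hab _ (ocsE_true.mpr (mem_insert_self b S)), ocs_mix_neg,
      Function.update_self]
    rintro ⟨b', e, h'⟩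
    exact hb (hab e ▸ ocsE_true.mp h')
  · by_cases h : ∃ b', ab b' = a ∧ ocsE S b' = true
    · obtain ⟨b', rfl, h'⟩ := h
      rw [ocs_mix_pos hab _ h',
        ocs_mix_pos hab _ (ocsE_true.mpr (mem_insert_of_mem (ocsE_true.mp h'))),
        Function.update_of_ne Sum.inr_ne_inl]
    · rw [ocs_mix_neg _ h, ocs_mix_neg, Function.update_of_ne (fun e => ha (Sum.inl.inj e))]
      rintro ⟨b', e, h'⟩
      rcases mem_insert.mp (ocsE_true.mp h') with rfl | h''
      · exact ha e.symm
      · exact h ⟨b', e, ocsE_true.mpr h''⟩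

end

theorem ocs_sq {Ω : Type} (s : Finset Ω) (g : Ω → ℂ) :
    ‖s.expect g‖ ^ 2 ≤ ‖s.expect (fun x => g x * (starRingEnd ℂ) (g x))‖ := by
  rcases s.eq_empty_or_nonempty with rfl | hs
  · simp
  have h1 : ‖s.expect g‖ ≤ s.expect (fun x => ‖g x‖ * 1) := by
    simpa using RCLike.norm_expect_le (K := ℂ) (s := s) (f := g)
  have h2 := Finset.expect_mul_sq_le_sq_mul_sq s (fun x => ‖g x‖) (fun _ => (1 : ℝ))
  have h3 : s.expect (fun x => g x * (starRingEnd ℂ) (g x)) =
      ((s.expect (fun x => ‖g x‖ ^ 2) : ℝ) : ℂ) := by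
    rw [Complex.ofReal_expect]
    refine Finset.expect_congr rfl fun x _ => ?_
    rw [Complex.mul_conj, Complex.normSq_eq_norm_sq]
  rw [h3, Complex.norm_real]
  simp only [one_pow, Finset.expect_const hs, mul_one] at h1 h2
  calc ‖s.expect g‖ ^ 2 ≤ (s.expect (fun x => ‖g x‖)) ^ 2 :=
        pow_le_pow_left₀ (norm_nonneg _) h1 2
    _ ≤ s.expect (fun x => ‖g x‖ ^ 2) := h2
    _ ≤ _ := le_abs_self _

theorem ocs_conj {Ω : Type} (s : Finset Ω) (g : Ω → ℂ) :
    (starRingEnd ℂ) (s.expect g) = s.expect (fun x => (starRingEnd ℂ) (g x)) := by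
  rw [Finset.expect_eq_sum_div_card, Finset.expect_eq_sum_div_card, map_div₀, map_sum,
    map_natCast]

/-- one Cauchy-Schwarz step. -/
theorem ocs_step {Ω κ : Type} [Fintype κ] [DecidableEq κ] (K : κ → Finset Ω) {u v : κ}
    (huv : u ≠ v) (hK : K v = K u) (F : (κ → Ω) → ℂ)
    (hF : ∀ ω y, F (Function.update ω v y) = F ω) :
    ‖(Fintype.piFinset K).expect F‖ ^ 2 ≤
      ‖(Fintype.piFinset K).expect
        (fun ω => F ω * (starRingEnd ℂ) (F (Function.update ω u (ω v))))‖ := by
  set g : (κ → Ω) → ℂ := fun ω => (K u).expect (fun y => F (Function.update ω u y)) with hg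
  have h1 : (Fintype.piFinset K).expect
      (fun ω => F ω * (starRingEnd ℂ) (F (Function.update ω u (ω v)))) =
      (Fintype.piFinset K).expect (fun ω => F ω * (starRingEnd ℂ) (g ω)) := by
    rw [expect_update K v]
    refine Finset.expect_congr rfl fun ω _ => ?_
    rw [hg, ocs_conj, Finset.mul_expect, hK]
    refine Finset.expect_congr rfl fun y _ => ?_
    rw [hF, Function.update_self, Function.update_comm huv.symm, hF]
  have h2 : (Fintype.piFinset K).expect (fun ω => F ω * (starRingEnd ℂ) (g ω)) =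
      (Fintype.piFinset K).expect (fun ω => g ω * (starRingEnd ℂ) (g ω)) := by
    rw [expect_update K u]
    refine Finset.expect_congr rfl fun ω _ => ?_
    have : ∀ y, g (Function.update ω u y) = g ω := fun y => by
      simp only [hg, Function.update_idem]
    simp only [this]
    rw [← Finset.expect_mul]
  rw [h1, h2, expect_update K u F]
  exact ocs_sq _ g

theorem ocs_marg {A B Ω : Type} [Fintype A] [DecidableEq A] [Fintype B] [DecidableEq B]
    (K : A ⊕ B → Finset Ω) (hK : ∀ b, (K (Sum.inr b)).Nonempty) (F : (A → Ω) → ℂ) :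
    (Fintype.piFinset K).expect (fun ω => F (fun a => ω (Sum.inl a))) =
      (Fintype.piFinset (fun a => K (Sum.inl a))).expect F := by
  have h : (Fintype.piFinset K).expect (fun ω => F (fun a => ω (Sum.inl a))) =
      (Fintype.piFinset (fun a => K (Sum.inl a)) ×ˢ
        Fintype.piFinset (fun b => K (Sum.inr b))).expect (fun x => F x.1) := by
    refine Finset.expect_equiv (Equiv.sumArrowEquivProdArrow A B Ω) (fun ω => ?_) (fun ω _ => rfl)
    simp only [Fintype.mem_piFinset, Finset.mem_product, Sum.forall]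
    rfl
  rw [h, Finset.expect_product]
  exact Finset.expect_congr rfl fun x _ =>
    Finset.expect_const (Fintype.piFinset_nonempty.mpr hK) (F x)

/-- box Cauchy-Schwarz inequality. -/
theorem box_cs {A Ω W : Type} [Fintype A] [DecidableEq A] [AddCommGroup W] [Fintype W]
    (Ψ : AddChar W ℂ) {k : ℕ} (ab : Fin k → A) (hab : Function.Injective ab) (K : A → Finset Ω)
    (G : (A → Ω) → W) :
    ‖(Fintype.piFinset K).expect (fun x => Ψ (G x))‖ ^ (2 ^ k) ≤
      ‖(Fintype.piFinset (fun κ : A ⊕ Fin k => K (Sum.elim id ab κ))).expect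
        (fun ω => Ψ (∑ ε : Fin k → Bool, sgn ε • G (mix ab ω ε)))‖ := by
  by_cases hne : ¬ ∀ a, (K a).Nonempty
  · have : Fintype.piFinset K = ∅ := by
      rw [← Finset.not_nonempty_iff_eq_empty, Fintype.piFinset_nonempty]
      exact hne
    rw [this, Finset.expect_empty, norm_zero, zero_pow (by positivity)]
    exact norm_nonneg _
  rw [not_not] at hne
  set K' : A ⊕ Fin k → Finset Ω := fun κ => K (Sum.elim id ab κ) with hK'
  set GS : Finset (Fin k) → (A ⊕ Fin k → Ω) → W :=
    fun S ω => ∑ U ∈ S.powerset, sgn (ocsE U) • G (mix ab ω (ocsE U)) with hGS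
  have main : ∀ S : Finset (Fin k),
      ‖(Fintype.piFinset K).expect (fun x => Ψ (G x))‖ ^ (2 ^ S.card) ≤
        ‖(Fintype.piFinset K').expect (fun ω => Ψ (GS S ω))‖ := by
    intro S
    induction S using Finset.induction_on with
    | empty =>
      have e : ∀ ω, GS ∅ ω = G (fun a => ω (Sum.inl a)) := fun ω => by
        simp only [hGS, Finset.powerset_empty, Finset.sum_singleton, ocs_sgn, Finset.card_empty,
          pow_zero, one_smul]
        congr 1
        funext a
        refine ocs_mix_neg _ ?_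
        rintro ⟨b, -, h⟩
        exact Finset.notMem_empty b (ocsE_true.mp h)
      simp only [e, Finset.card_empty, pow_zero, pow_one]
      rw [ocs_marg K' (fun b => hne _) (fun x => Ψ (G x))]
      exact le_rfl
    | insert b S hb ih =>
      have hv : ∀ ω y, GS S (Function.update ω (Sum.inr b) y) = GS S ω := fun ω y =>
        Finset.sum_congr rfl fun U hU => by
          rw [ocs_mix_inr hab ω (fun h => hb (mem_powerset.mp hU h))]
      have e : ∀ ω, GS (insert b S) ω =
          GS S ω + -GS S (Function.update ω (Sum.inl (ab b)) (ω (Sum.inr b))) := fun ω => by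
        simp only [hGS]
        rw [Finset.sum_powerset_insert hb, ← Finset.sum_neg_distrib]
        congr 1
        refine Finset.sum_congr rfl fun U hU => ?_
        have hU' : b ∉ U := fun h => hb (mem_powerset.mp hU h)
        rw [ocs_mix_insert hab ω hU', ocs_sgn, ocs_sgn, Finset.card_insert_of_notMem hU',
          pow_succ, mul_neg_one, neg_smul]
      have st := ocs_step K' (u := Sum.inl (ab b)) (v := Sum.inr b) Sum.inl_ne_inr rfl
        (fun ω => Ψ (GS S ω)) (fun ω y => by rw [hv])
      simp only [e, AddChar.map_add_eq_mul, AddChar.map_neg_eq_conj]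
      rw [Finset.card_insert_of_notMem hb, pow_succ, pow_mul]
      exact (pow_le_pow_left₀ (by positivity) ih 2).trans st
  have fin := main univ
  rw [Finset.card_univ, Fintype.card_fin] at fin
  refine fin.trans (le_of_eq ?_)
  congr 1
  refine Finset.expect_congr rfl fun ω _ => ?_
  congr 1
  refine Finset.sum_nbij' ocsE (fun ε => univ.filter (fun b => ε b = true)) (fun _ _ => mem_univ _)
    (fun _ _ => mem_powerset.mpr (subset_univ _)) (fun U _ => ?_) (fun ε _ => ?_) (fun _ _ => rfl)
  · ext b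
    simp [ocsE]
  · funext b
    simp [ocsE]

variable {p : ℕ} [Fact p.Prime] {X : Type} [Fintype X] [DecidableEq X] {T : Type} [Fintype T]
  {k j : ℕ}

theorem Ext.bias_DS (σ : Ext p X T) (P : Pat k j) (l : X → Lab k j) {V0 N : Type}
    [AddCommGroup V0] [Fintype V0] [AddCommGroup N] [Fintype N] (χ : AddChar (V0 × N) ℂ)
    (f0 : Finset X → V0) {c0 : ℕ} (hf : DL ⊥ (fun _ => True) (c0 + 1) univ f0) (hk : c0 < k)
    (phi : T → ZMod p → N) :
    ‖(Fintype.piFinset (fun a => Ker σ.U (atomSet σ.Y l a))).expect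
      (fun x => χ (f0 (P.g.biUnion x), Sf σ.lam phi (P.g.biUnion x)))‖ ^ (2 ^ k) ≤
      ‖(σ.Om P l).expect (fun x => χ (0, DS P σ.lam phi x))‖ := by
  refine (box_cs χ P.ab P.ab_inj (fun a => Ker σ.U (atomSet σ.Y l a))
    (fun x => (f0 (P.g.biUnion x), Sf σ.lam phi (P.g.biUnion x)))).trans (le_of_eq ?_)
  congr 1
  refine Finset.expect_congr rfl fun x hx => ?_
  have hs : ∀ κ, x κ ⊆ cset P σ.Y l κ := fun κ => (mem_Ker.mp (Fintype.mem_piFinset.mp hx κ)).1
  congr 1
  simp only [biUnion_mix]
  refine Prod.ext ?_ ?_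
  · rw [Prod.fst_sum]
    refine AddSubgroup.mem_bot.mp (DL_pairs (Nat.succ_le_of_lt hk) hf
      (fun b => atomSet σ.Y l (P.ab b)) (fun _ => subset_univ _)
      (fun b b' h => atomSet_disjoint _ _ (fun e => h (P.ab_inj e)))
      (fun b e => x (P.cp b e)) (fun b e => ?_) (P.Sg.biUnion (fun a => x (Sum.inl a)))
      (subset_univ _) (fun b => ?_))
    · have := hs (P.cp b e)
      rwa [cset, P.atm_cp] at this
    · rw [Finset.disjoint_biUnion_left]
      intro a ha
      exact Finset.disjoint_of_subset_left (hs (Sum.inl a))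
        (atomSet_disjoint _ _ (fun e : a = P.ab b => P.ab_not_mem_Sg b (e ▸ ha)))
  · rw [Prod.snd_sum]
    refine Finset.sum_congr rfl fun ε _ => ?_
    simp only [val_eq_dot P σ.Y l _ hs]
    rfl

theorem Ext.expect_inner (σ : Ext p X T) (P : Pat k j) (l : X → Lab k j) {V : Type}
    [AddCommGroup V] (ψ : AddChar V ℂ) (phi : T → ZMod p → V) :
    ‖(σ.Om P l).expect (fun x => ψ (DS P σ.lam phi x))‖ ≤
      (σ.Om P l).expect (fun x => ‖σ.inner P phi ψ l x‖) := by
  have h : (σ.Om P l).expect (fun x => ψ (DS P σ.lam phi x)) =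
      (σ.Om P l).expect (fun x => σ.inner P phi ψ l x) := by
    unfold Ext.Om
    rw [expect_update _ (Sum.inl P.a0), expect_update _ (Sum.inl P.a0) (fun x => σ.inner P phi ψ l x)]
    refine Finset.expect_congr rfl fun x _ => ?_
    rw [Ker_eq_fib, expect_fib_cond (H' := σ.U ⊔ co (subSet σ.Y l P.a0)ᶜ) le_sup_left]
    refine Finset.expect_congr rfl fun y _ => ?_
    simp only [Ext.inner, Function.update_self, Function.update_idem]
    rfl
  rw [h]
  exact RCLike.norm_expect_le (K := ℂ)

end Pool.Agent.P.MP_85fe51_lc.OD
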