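import Pool.Agent.P.MP_85fe51_lc.OFree
import Pool.Agent.P.MP_85fe51_lc.DEx

set_option autoImplicit false

namespace Pool.Agent.P.MP_85fe51_lc.OD

open Finset
open scoped Classical

variable {p : ℕ} [Fact p.Prime] {X : Type} [Fintype X] [DecidableEq X] {T : Type} [Fintype T]

theorem osel_Ex_sum {α ι : Type} (ρ : ℝ) (Y : Finset α) (I : Finset ι) (f : ι → Finset α → ℝ) :
    DA.Ex ρ Y (fun W => ∑ i ∈ I, f i W) = ∑ i ∈ I, DA.Ex ρ Y (f i) := by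
  simp only [DA.Ex, mul_sum]
  exact sum_comm

theorem osel_erase {α : Type} {ρ : ℝ} (h0 : 0 ≤ ρ) (h1 : ρ ≤ 1) {Y : Finset α} {e : α}
    (he : e ∈ Y) (Q : Finset α → Prop) (hQ : ∀ W, Q W → Q (insert e W)) :
    DA.Ex ρ Y (fun W => if e ∈ W ∧ Q (W.erase e) then (1 : ℝ) else 0) ≤
      ρ * DA.Ex ρ Y (fun W => if Q W then (1 : ℝ) else 0) := by
  obtain ⟨Z, hZ, rfl⟩ : ∃ Z, e ∉ Z ∧ Y = insert e Z :=
    ⟨Y.erase e, notMem_erase e Y, (insert_erase he).symm⟩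
  rw [DA.dex_insert ρ hZ, DA.dex_insert ρ hZ]
  have a1 : DA.Ex ρ Z (fun W => if e ∈ W ∧ Q (W.erase e) then (1 : ℝ) else 0) ≤
      DA.Ex ρ Z (fun _ => 0) := by
    refine DA.Ex_mono h0 h1 Z fun W hW => ?_
    rw [if_neg fun h => hZ (hW h.1)]
  have a2 : DA.Ex ρ Z (fun W => if e ∈ insert e W ∧ Q ((insert e W).erase e) then (1 : ℝ) else 0) ≤
      DA.Ex ρ Z (fun W => if Q W then (1 : ℝ) else 0) := by
    refine DA.Ex_mono h0 h1 Z fun W hW => ?_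
    rw [erase_insert fun h => hZ (hW h)]
    by_cases h : Q W
    · rw [if_pos h, if_pos ⟨mem_insert_self _ _, h⟩]
    · rw [if_neg h, if_neg fun h' => h h'.2]
  have a3 : DA.Ex ρ Z (fun W => if Q W then (1 : ℝ) else 0) ≤
      DA.Ex ρ Z (fun W => if Q (insert e W) then (1 : ℝ) else 0) := by
    refine DA.Ex_mono h0 h1 Z fun W _ => ?_
    by_cases h : Q W
    · rw [if_pos h, if_pos (hQ W h)]
    · rw [if_neg h]
      split_ifs <;> norm_num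
  rw [DA.Ex_const] at a1
  have b1 := mul_le_mul_of_nonneg_left a1 (sub_nonneg.2 h1)
  have b2 := mul_le_mul_of_nonneg_left a2 h0
  have b3 := mul_le_mul_of_nonneg_left a3 (mul_nonneg h0 h0)
  nlinarith

namespace Ext
variable (σ : Ext p X T)

theorem osel_moved_card (Ch : Finset T) (hC : ∀ e ∈ Ch, σ.Heavy e) {W : Finset T} (hW : W ⊆ Ch) :
    (Ch.filter (fun e => σ.Moved (W.biUnion σ.Mid) e)).card ≤ σ.K * σ.M4 * W.card := by
  have h1 : (W.biUnion σ.Mid).card ≤ W.card * σ.M4 :=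
    card_biUnion_le_card_mul W σ.Mid σ.M4 fun e he => σ.mid e (hC e (hW he))
  have h2 := σ.e3 (W.biUnion σ.Mid)
  have h3 : Ch.filter (fun e => σ.Moved (W.biUnion σ.Mid) e) ⊆
      univ.filter (fun e => 9 * σ.CH ≤ wtm σ.U (σ.lam e) ∧
        MovedS σ.U σ.lam σ.CH (W.biUnion σ.Mid) e) := by
    intro e he
    rw [mem_filter] at he ⊢
    exact ⟨mem_univ _, hC e he.1, he.2⟩
  calc _ ≤ _ := card_le_card h3
    _ ≤ σ.K * (W.biUnion σ.Mid).card := h2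
    _ ≤ σ.K * (W.card * σ.M4) := Nat.mul_le_mul_left _ h1
    _ = σ.K * σ.M4 * W.card := by ring

theorem select (Ch : Finset T) (hC : ∀ e ∈ Ch, σ.Heavy e) (hK : 1 ≤ σ.K * σ.M4) :
    ∃ Seq, Seq ⊆ Ch ∧ σ.SeqOK Seq ∧ Ch.card ≤ 8 * σ.K * σ.M4 * Seq.card := by
  by_contra hn
  obtain ⟨a, ha⟩ : ∃ a : ℝ, a = (σ.K * σ.M4 : ℕ) := ⟨_, rfl⟩
  have a1 : 1 ≤ a := by
    rw [ha]
    exact_mod_cast hK
  have a0 : 0 < a := by linarith
  obtain ⟨ρ, hρ⟩ : ∃ ρ : ℝ, ρ = 1 / (2 * a) := ⟨_, rfl⟩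
  have hra : ρ * a = 1 / 2 := by
    rw [hρ]
    field_simp
  have h0 : 0 ≤ ρ := by
    rw [hρ]
    positivity
  have h1 : ρ ≤ 1 := by nlinarith
  have key : ∀ W, W ⊆ Ch → 8 * a * (W.card : ℝ) + 1 ≤ Ch.card + 8 * a * ∑ e ∈ Ch,
      (if e ∈ W ∧ σ.Moved ((W.erase e).biUnion σ.Mid) e then (1 : ℝ) else 0) := by
    intro W hW
    have hok : σ.SeqOK (W.filter (fun e => ¬ σ.Moved ((W.erase e).biUnion σ.Mid) e)) := by
      intro e he
      rw [mem_filter] at he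
      refine ⟨hC e (hW he.1), fun hm => he.2 (σ.moved_mono ?_ hm)⟩
      exact biUnion_subset_biUnion_of_subset_left _ (erase_subset_erase _ (filter_subset _ _))
    have hlt : 8 * σ.K * σ.M4 *
        (W.filter (fun e => ¬ σ.Moved ((W.erase e).biUnion σ.Mid) e)).card < Ch.card :=
      not_le.1 fun h => hn ⟨_, (filter_subset _ _).trans hW, hok, h⟩
    have hs := card_filter_add_card_filter_not (s := W)
      (fun e => σ.Moved ((W.erase e).biUnion σ.Mid) e)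
    have hb : ∑ e ∈ Ch, (if e ∈ W ∧ σ.Moved ((W.erase e).biUnion σ.Mid) e then (1 : ℝ) else 0) =
        (W.filter (fun e => σ.Moved ((W.erase e).biUnion σ.Mid) e)).card := by
      rw [sum_boole]
      congr 2
      ext e
      simp only [mem_filter]
      exact ⟨fun h => h.2, fun h => ⟨hW h.1, h⟩⟩
    rw [hb, ← hs]
    have hlt' : 8 * a * ((W.filter
        (fun e => ¬ σ.Moved ((W.erase e).biUnion σ.Mid) e)).card : ℝ) + 1 ≤ Ch.card := by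
      rw [ha]
      have := Nat.succ_le_of_lt hlt
      rw [mul_assoc 8] at this
      exact_mod_cast this
    push_cast
    linarith
  have h2 := DA.Ex_mono h0 h1 Ch key
  rw [DA.Ex_add, DA.Ex_add, DA.Ex_mul, DA.Ex_mul, DA.Ex_const, DA.Ex_const, DA.Ex_card,
    osel_Ex_sum] at h2
  have h3 : ∑ e ∈ Ch, DA.Ex ρ Ch (fun W =>
      if e ∈ W ∧ σ.Moved ((W.erase e).biUnion σ.Mid) e then (1 : ℝ) else 0) ≤
      ∑ e ∈ Ch, ρ * DA.Ex ρ Ch (fun W => if σ.Moved (W.biUnion σ.Mid) e then (1 : ℝ) else 0) :=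
    sum_le_sum fun e he => osel_erase h0 h1 he (fun W => σ.Moved (W.biUnion σ.Mid) e)
      fun W h => σ.moved_mono (biUnion_subset_biUnion_of_subset_left _ (subset_insert _ _)) h
  rw [← mul_sum] at h3
  have h4 : DA.Ex ρ Ch (fun W => ∑ e ∈ Ch,
      if σ.Moved (W.biUnion σ.Mid) e then (1 : ℝ) else 0) ≤
      DA.Ex ρ Ch (fun W => a * (W.card : ℝ)) := by
    refine DA.Ex_mono h0 h1 Ch fun W hW => ?_
    rw [sum_boole, ha]
    exact_mod_cast σ.osel_moved_card Ch hC hW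
  rw [DA.Ex_mul, DA.Ex_card, osel_Ex_sum] at h4
  have h5 := h3.trans (mul_le_mul_of_nonneg_left h4 h0)
  have h6 := mul_le_mul_of_nonneg_left h5 (by positivity : (0 : ℝ) ≤ 8 * a)
  have hn0 : (0 : ℝ) ≤ Ch.card := Nat.cast_nonneg _
  have e1 : 8 * a * (ρ * (Ch.card : ℝ)) = 4 * Ch.card := by
    linear_combination (8 * (Ch.card : ℝ)) * hra
  have e2 : 8 * a * (ρ * (a * (ρ * (Ch.card : ℝ)))) = 2 * Ch.card := by
    linear_combination (8 * (Ch.card : ℝ) * (ρ * a + 1 / 2)) * hra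
  linarith

variable {σ} {Seq : Finset T}

theorem SeqOK.not_moved (h : σ.SeqOK Seq) {e : T} (he : e ∈ Seq) {Γ : Finset T}
    (hΓ : Γ ⊆ (Seq.erase e).biUnion σ.Mid) : ¬ σ.Moved Γ e :=
  fun hm => (h e he).2 (σ.moved_mono hΓ hm)

theorem SeqOK.not_moved_past (h : σ.SeqOK Seq) {e : T} (he : e ∈ Seq) :
    ¬ σ.Moved (σ.past Seq e) e := by
  refine h.not_moved he (biUnion_subset_biUnion_of_subset_left _ fun e' he' => ?_)
  rw [mem_filter] at he'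
  refine mem_erase.2 ⟨fun hh => ?_, he'.1⟩
  rw [hh] at he'
  exact lt_irrefl _ he'.2

theorem SeqOK.disjoint_Mid (h : σ.SeqOK Seq) {e e' : T} (he : e ∈ Seq) (he' : e' ∈ Seq)
    (hne : e ≠ e') : Disjoint (σ.Mid e) (σ.Mid e') := by
  refine disjoint_left.2 fun t ht ht' => ?_
  have hΓ : t ∈ (Seq.erase e).biUnion σ.Mid :=
    mem_biUnion.2 ⟨e', mem_erase.2 ⟨hne.symm, he'⟩, ht'⟩
  have h1 := σ.heavy_Ht (h e he).2
  obtain ⟨Γ, hG⟩ : ∃ Γ, Γ = (Seq.erase e).biUnion σ.Mid := ⟨_, rfl⟩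
  rw [← hG] at hΓ h1
  obtain ⟨u, hu, hw⟩ := (mem_filter.1 ht).2
  have h2 : σ.lam t ∈ σ.Ht Γ :=
    σ.U_le_Ht Γ (Submodule.mem_sup_right (mem_spn σ.lam hΓ))
  have h3 : wtm (σ.Ht Γ) (σ.lam t - u • σ.lam e) ≤ wtm σ.U (σ.lam t - u • σ.lam e) :=
    wtm_anti (le_sup_left.trans (σ.U_le_Ht Γ)) _
  have h4 : wtm (σ.Ht Γ) (σ.lam t - u • σ.lam e) = wtm (σ.Ht Γ) ((-u) • σ.lam e) := by
    refine wtm_congr ?_
    rw [neg_smul, sub_neg_eq_add, sub_add_cancel]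
    exact h2
  rw [wtm_smul _ (neg_ne_zero.2 hu)] at h4
  have h5 := σ.one_le_CH
  omega

theorem SeqOK.disjoint_Qs (h : σ.SeqOK Seq) {e e' : T} (he : e ∈ Seq) (he' : e' ∈ Seq)
    (hne : e ≠ e') : Disjoint (σ.Qs e) (σ.Qs e') := by
  refine (σ.disjoint_Qs_Jt (h e he).2).mono_right (σ.Qs_subset_Jt ?_)
  exact subset_biUnion_of_mem σ.Mid (mem_erase.2 ⟨hne.symm, he'⟩)

theorem SeqOK.safe (h : σ.SeqOK Seq) :
    Safe σ.CH ((σ.U ⊔ spn σ.lam Seq).map (off σ.Yᶜ)) ∧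
      dO (σ.U ⊔ spn σ.lam Seq) σ.Yᶜ = dO σ.U σ.Yᶜ + Seq.card := by
  have h1 : rho σ.CH σ.U + σ.CH * Seq.card ≤ rho σ.CH (σ.U ⊔ spn σ.lam Seq) := by
    refine rho_spn_ge σ.CH σ.U σ.lam Seq fun e he => ?_
    refine (σ.marg_unmoved (h.not_moved he fun t ht => ?_)).ge
    exact mem_biUnion.2 ⟨t, ht, σ.self_mem_Mid t⟩
  have h2 := rho_le σ.CH (σ.U ⊔ spn σ.lam Seq) σ.Yᶜ
  have h3 := dO_sup_spn σ.U σ.lam Seq σ.Yᶜ
  have h4 := Nat.mul_le_mul_left σ.CH h3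
  have h5 := σ.rho_U
  have h6 : σ.CH * (dO σ.U σ.Yᶜ + Seq.card) ≤ σ.CH * dO (σ.U ⊔ spn σ.lam Seq) σ.Yᶜ := by
    unfold fC at h2 h5
    rw [mul_add]
    omega
  refine ⟨safe_of_min (le_antisymm ?_ h2), le_antisymm h3 ?_⟩
  · unfold fC at h5 ⊢
    rw [mul_add] at h4
    omega
  · exact Nat.le_of_mul_le_mul_left h6 σ.one_le_CH

/-- few members are hit by a space with few generators. -/
theorem SeqOK.hit_count (h : σ.SeqOK Seq) {a : Finset X} (ha : a ⊆ σ.Y) {C' : ℕ} (hC : 1 ≤ C')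
    (h5 : SafeOn a (2 * C') ((σ.U ⊔ spn σ.lam Seq).map (off σ.Yᶜ))) (Γ : Finset T) :
    (Seq.filter (fun i => σ.Hit a C' i (σ.U ⊔ spn σ.lam Γ))).card ≤ 3 * C' * Γ.card := by
  have hc : σ.Yᶜ ⊆ aᶜ := compl_subset_compl.2 ha
  have h2C : 1 ≤ 2 * C' := by omega
  obtain ⟨s1, d1⟩ := SafeOn.restrict h2C hc h5
  obtain ⟨s0, d0⟩ := SafeOn.restrict (H := σ.U) h2C hc (h5.sub (Submodule.map_mono le_sup_left))
  have d2 := h.safe.2
  obtain ⟨H, hH⟩ : ∃ H : Sub p X, H = (σ.U ⊔ spn σ.lam Γ) ⊔ co aᶜ := ⟨_, rfl⟩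
  have dH : dO H aᶜ ≤ dO σ.U aᶜ + Γ.card := by
    rw [hH, dO_sup_co _ (Subset.refl _)]
    exact dO_sup_spn _ _ _ _
  have hJ : (Jmax C' H \ aᶜ).card ≤ 2 * C' * Γ.card := by
    refine card_Jmax hC (U := σ.U ⊔ co aᶜ) le_sup_right ?_ ?_ ?_
    · rw [map_off_sup_co]
      exact s0
    · rw [hH]
      exact sup_le_sup_right le_sup_left _
    · rw [dO_sup_co _ (Subset.refl _)]
      exact dH
  have p2 : (Seq.filter (fun i => ¬ Disjoint (σ.Qs i ∩ a) (Jmax C' H))).card ≤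
      (Jmax C' H \ aᶜ).card := by
    refine card_le_card_of_forall_subsingleton (fun i x => x ∈ σ.Qs i) ?_ ?_
    · intro i hi
      obtain ⟨x, hx, hx'⟩ := not_disjoint_iff.1 (mem_filter.1 hi).2
      rw [mem_inter] at hx
      exact ⟨x, mem_sdiff.2 ⟨hx', fun hh => mem_compl.1 hh hx.2⟩, hx.1⟩
    · intro x _ i hi i' hi'
      by_contra hne
      exact disjoint_left.1 (h.disjoint_Qs (mem_filter.1 (mem_coe.1 hi.1)).1
        (mem_filter.1 (mem_coe.1 hi'.1)).1 hne) hi.2 hi'.2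
  have r1 : fC C' ((σ.U ⊔ spn σ.lam Seq) ⊔ co aᶜ) aᶜ = rho C' ((σ.U ⊔ spn σ.lam Seq) ⊔ co aᶜ) := by
    refine min_of_safe hC le_sup_right ?_
    rw [map_off_sup_co]
    exact s1.mono (by omega)
  have r2 : rho C' ((σ.U ⊔ spn σ.lam Seq) ⊔ co aᶜ) ≤ rho C' (H ⊔ spn σ.lam Seq) := by
    refine rho_mono C' (sup_le (sup_le ?_ le_sup_right) ?_)
    · rw [hH]
      exact (le_sup_left.trans le_sup_left).trans le_sup_left
    · rw [hH]
      exact le_sup_right.trans le_sup_left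
  have r3 := rho_spn_le C' H σ.lam Seq
  have r4 := rho_le C' H aᶜ
  have r5 : ∑ e ∈ Seq, marg C' H (σ.lam e) +
      (Seq.filter (fun i => marg C' H (σ.lam i) < C')).card ≤ C' * Seq.card := by
    rw [card_filter, ← sum_add_distrib, mul_comm, ← smul_eq_mul]
    refine sum_le_card_nsmul _ _ _ fun e _ => ?_
    have := marg_le C' H (σ.lam e)
    split_ifs <;> omega
  have r6 := Nat.mul_le_mul_left C' dH
  have p1 : (Seq.filter (fun i => marg C' H (σ.lam i) < C')).card ≤ C' * Γ.card := by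
    unfold fC at r1 r4
    rw [dO_sup_co _ (Subset.refl _), d1, d2, ← d0, mul_add] at r1
    rw [mul_add] at r6
    omega
  have p0 : Seq.filter (fun i => σ.Hit a C' i (σ.U ⊔ spn σ.lam Γ)) ⊆
      Seq.filter (fun i => marg C' H (σ.lam i) < C') ∪
        Seq.filter (fun i => ¬ Disjoint (σ.Qs i ∩ a) (Jmax C' H)) := by
    intro i hi
    rw [mem_filter] at hi
    rw [mem_union, mem_filter, mem_filter, hH]
    exact hi.2.imp (fun x => ⟨hi.1, x⟩) fun x => ⟨hi.1, x⟩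
  have p3 := (card_le_card p0).trans (card_union_le _ _)
  have p4 : 3 * C' * Γ.card = C' * Γ.card + 2 * C' * Γ.card := by ring
  omega

end Ext

end Pool.Agent.P.MP_85fe51_lc.OD
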