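import Pool.Agent.P.MP_85fe51_lc.ODefs

set_option autoImplicit false

namespace Pool.Agent.P.MP_85fe51_lc.OD

open Finset
open scoped Classical

section
variable {Ω : Type}

theorem pr_nonneg (s : Finset Ω) (P : Ω → Prop) : 0 ≤ pr s P :=
  expect_nonneg fun x _ => by split_ifs <;> norm_num

theorem pr_le_one (s : Finset Ω) (P : Ω → Prop) : pr s P ≤ 1 := by
  rcases s.eq_empty_or_nonempty with rfl | hs
  · simp [pr]
  · exact expect_le hs fun x _ => by split_ifs <;> norm_num

theorem pr_mono (s : Finset Ω) {P Q : Ω → Prop} (h : ∀ x ∈ s, P x → Q x) : pr s P ≤ pr s Q := by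
  refine expect_le_expect fun x hx => ?_
  by_cases hP : P x
  · simp [hP, h x hx hP]
  · rw [if_neg hP]
    split_ifs <;> norm_num

theorem pr_eq_card (s : Finset Ω) (P : Ω → Prop) :
    pr s P = ((s.filter P).card : ℝ) / s.card := by
  rw [pr, expect_eq_sum_div_card, sum_boole]

theorem pr_or_le (s : Finset Ω) (P Q : Ω → Prop) :
    pr s (fun x => P x ∨ Q x) ≤ pr s P + pr s Q := by
  rw [pr, pr, pr, ← expect_add_distrib]
  refine expect_le_expect fun x _ => ?_
  by_cases hP : P x <;> by_cases hQ : Q x <;> simp [hP, hQ]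

theorem pr_exists_le {ι : Type} (s : Finset Ω) (I : Finset ι) (P : ι → Ω → Prop) :
    pr s (fun x => ∃ i ∈ I, P i x) ≤ ∑ i ∈ I, pr s (P i) := by
  unfold pr
  rw [← expect_sum_comm]
  refine expect_le_expect fun x _ => ?_
  have h0 : ∀ i ∈ I, (0 : ℝ) ≤ if P i x then 1 else 0 := fun i _ => by split_ifs <;> norm_num
  split_ifs with h
  · obtain ⟨i, hi, hP⟩ := h
    simpa [hP] using single_le_sum h0 hi
  · exact sum_nonneg h0

theorem pr_not (s : Finset Ω) (hs : s.Nonempty) (P : Ω → Prop) :
    pr s (fun x => ¬ P x) = 1 - pr s P := by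
  rw [eq_sub_iff_add_eq, pr, pr, ← expect_add_distrib]
  refine Eq.trans (expect_congr rfl fun x _ => ?_) (expect_const hs (1 : ℝ))
  by_cases hP : P x <;> simp [hP]

/-- Markov. -/
theorem pr_markov (s : Finset Ω) (f : Ω → ℝ) (hf : ∀ x ∈ s, 0 ≤ f x) (y : ℝ) :
    y * pr s (fun x => y ≤ f x) ≤ s.expect f := by
  rw [pr, mul_expect]
  refine expect_le_expect fun x hx => ?_
  split_ifs with h
  · simpa using h
  · simpa using hf x hx

theorem pr_filter (s : Finset Ω) (P Q : Ω → Prop) :
    pr s (fun x => P x ∧ Q x) = pr s P * pr (s.filter P) Q := by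
  rw [pr_eq_card, pr_eq_card, pr_eq_card, filter_filter]
  rcases eq_or_ne ((s.filter P).card : ℝ) 0 with h | h
  · have h1 : s.filter P = ∅ := by simpa using h
    have h2 : s.filter (fun x => P x ∧ Q x) = ∅ := by
      rw [← filter_filter, h1, filter_empty]
    rw [h]
    simp only [zero_div, zero_mul, div_eq_zero_iff, Nat.cast_eq_zero, card_eq_zero]
    left
    simpa using h2
  · rw [div_mul_div_comm, mul_comm (s.card : ℝ), mul_div_mul_left _ _ h]
    congr

/-- conditioning on the value of `D`. -/
theorem expect_cond {E Δ : Type} [RCLike E] (s : Finset Ω) (D : Ω → Δ) (F : Ω → E) :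
    s.expect F = s.expect (fun x => (s.filter (fun y => D y = D x)).expect F) := by
  simp only [expect_eq_sum_div_card]
  congr 1
  simp only [sum_div, sum_filter]
  rw [sum_comm]
  refine sum_congr rfl fun y hy => ?_
  have h1 : ∀ x ∈ s, (if D y = D x then F y else 0) / ((s.filter (fun z => D z = D x)).card : E) =
      if D x = D y then F y / ((s.filter (fun z => D z = D y)).card : E) else 0 := by
    intro x _
    by_cases h : D x = D y
    · simp [h]
    · simp [h, Ne.symm h]
  rw [sum_congr rfl h1, ← sum_filter, sum_const, nsmul_eq_mul, mul_div_cancel₀]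
  exact Nat.cast_ne_zero.2 (card_ne_zero.2 ⟨y, mem_filter.2 ⟨hy, rfl⟩⟩)

/-- a factor that is constant on the classes of `D`. -/
theorem expect_cond_mul {Δ : Type} (s : Finset Ω) (D : Ω → Δ) (F G : Ω → ℝ)
    (hF : ∀ x ∈ s, ∀ y ∈ s, D x = D y → F x = F y) :
    s.expect (fun x => F x * G x) =
      s.expect (fun x => F x * (s.filter (fun y => D y = D x)).expect G) := by
  rw [expect_cond s D]
  refine expect_congr rfl fun x hx => ?_
  rw [mul_expect]
  refine expect_congr rfl fun y hy => ?_
  rw [hF y (mem_filter.1 hy).1 x hx (mem_filter.1 hy).2]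

variable {κ : Type} [Fintype κ] [DecidableEq κ]

theorem expect_update {E : Type} [RCLike E] (K : κ → Finset Ω) (i : κ) (F : (κ → Ω) → E) :
    (Fintype.piFinset K).expect F =
      (Fintype.piFinset K).expect (fun x => (K i).expect (fun y => F (Function.update x i y))) := by
  rcases (K i).eq_empty_or_nonempty with h | h
  · have : Fintype.piFinset K = ∅ := Fintype.piFinset_eq_empty.2 ⟨i, h⟩
    simp [this]
  have hm : ∀ z ∈ Fintype.piFinset K ×ˢ K i,
      (Function.update z.1 i z.2, z.1 i) ∈ Fintype.piFinset K ×ˢ K i := by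
    intro z hz
    obtain ⟨h1, h2⟩ := mem_product.1 hz
    rw [Fintype.mem_piFinset] at h1
    refine mem_product.2 ⟨Fintype.mem_piFinset.2 fun l => ?_, h1 i⟩
    by_cases e : l = i
    · subst e
      simpa using h2
    · simpa [e] using h1 l
  rw [← expect_product' (Fintype.piFinset K) (K i) fun x y => F (Function.update x i y)]
  calc (Fintype.piFinset K).expect F
      = (Fintype.piFinset K).expect (fun x => (K i).expect (fun _ => F x)) :=
        expect_congr rfl fun x _ => (expect_const h _).symm
    _ = (Fintype.piFinset K ×ˢ K i).expect (fun z => F z.1) :=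
        (expect_product' (Fintype.piFinset K) (K i) fun x _ => F x).symm
    _ = _ := by
        refine expect_nbij' (fun z => (Function.update z.1 i z.2, z.1 i))
          (fun z => (Function.update z.1 i z.2, z.1 i)) hm hm (fun z _ => by simp)
          (fun z _ => by simp) (fun z _ => by simp)

theorem oprob_pi_prod {Ω₁ Ω₂ : Type} (S : κ → Finset Ω₁) (S' : κ → Finset Ω₂)
    (H : (κ → Ω₁) → (κ → Ω₂) → ℂ) :
    (Fintype.piFinset fun i => S i ×ˢ S' i).expect
        (fun z => H (fun i => (z i).1) (fun i => (z i).2)) =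
      (Fintype.piFinset S).expect (fun x => (Fintype.piFinset S').expect (fun x' => H x x')) := by
  rw [← expect_product']
  refine expect_nbij' (fun z => (fun i => (z i).1, fun i => (z i).2))
    (fun w i => (w.1 i, w.2 i)) ?_ ?_ (fun _ _ => rfl) (fun _ _ => rfl) (fun _ _ => rfl)
  · intro z hz
    rw [Fintype.mem_piFinset] at hz
    exact mem_product.2 ⟨Fintype.mem_piFinset.2 fun i => (mem_product.1 (hz i)).1,
      Fintype.mem_piFinset.2 fun i => (mem_product.1 (hz i)).2⟩
  · intro w hw
    obtain ⟨h1, h2⟩ := mem_product.1 hw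
    rw [Fintype.mem_piFinset] at h1 h2
    exact Fintype.mem_piFinset.2 fun i => mem_product.2 ⟨h1 i, h2 i⟩

/-- hybrid argument over the coordinates. -/
theorem hybrid {Ω₁ Ω₂ : Type} (S : κ → Finset Ω₁) (S' : κ → Finset Ω₂)
    (hS : ∀ i, (S i).Nonempty) (hS' : ∀ i, (S' i).Nonempty)
    (f : κ → Ω₁ → Ω) (g : κ → Ω₂ → Ω) (G : (κ → Ω) → ℂ) (δ : ℝ)
    (h : ∀ i, ∀ y : κ → Ω, ‖(S i).expect (fun a => G (Function.update y i (f i a))) -
      (S' i).expect (fun a => G (Function.update y i (g i a)))‖ ≤ δ) :
    ‖(Fintype.piFinset S).expect (fun x => G (fun i => f i (x i))) -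
      (Fintype.piFinset S').expect (fun x => G (fun i => g i (x i)))‖ ≤ Fintype.card κ * δ := by
  let m : Finset κ → (κ → Ω₁ × Ω₂) → κ → Ω := fun J z i =>
    if i ∈ J then g i (z i).2 else f i (z i).1
  let A : Finset κ → ℂ := fun J =>
    (Fintype.piFinset fun i => S i ×ˢ S' i).expect (fun z => G (m J z))
  have hne : (Fintype.piFinset fun i => S i ×ˢ S' i).Nonempty :=
    Fintype.piFinset_nonempty.2 fun i => (hS i).product (hS' i)
  have step : ∀ J i, i ∉ J → ‖A J - A (insert i J)‖ ≤ δ := by
    intro J i hi
    have e1 : ∀ z y, m J (Function.update z i y) = Function.update (m J z) i (f i y.1) := by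
      intro z y
      funext l
      by_cases e : l = i
      · subst e
        simp [m, hi]
      · simp [m, e]
    have e2 : ∀ z y,
        m (insert i J) (Function.update z i y) = Function.update (m J z) i (g i y.2) := by
      intro z y
      funext l
      by_cases e : l = i
      · subst e
        simp [m]
      · simp [m, e]
    have e3 : ∀ φ : Ω₁ → ℂ, (S i ×ˢ S' i).expect (fun y => φ y.1) = (S i).expect φ := by
      intro φ
      rw [expect_product' (S i) (S' i) fun a _ => φ a]
      exact expect_congr rfl fun a _ => expect_const (hS' i) _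
    have e4 : ∀ φ : Ω₂ → ℂ, (S i ×ˢ S' i).expect (fun y => φ y.2) = (S' i).expect φ := by
      intro φ
      rw [expect_product' (S i) (S' i) fun _ a => φ a]
      exact expect_const (hS i) _
    simp only [A]
    rw [expect_update _ i, expect_update _ i fun z => G (m (insert i J) z), ← expect_sub_distrib]
    refine (RCLike.norm_expect_le (K := ℂ)).trans (expect_le hne fun z _ => ?_)
    simp only [e1, e2]
    rw [e3 fun a => G (Function.update (m J z) i (f i a)),
      e4 fun a => G (Function.update (m J z) i (g i a))]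
    exact h i _
  have all : ∀ J : Finset κ, ‖A ∅ - A J‖ ≤ J.card * δ := by
    intro J
    induction J using Finset.induction_on with
    | empty => simp
    | insert i J hi ih =>
      rw [card_insert_of_notMem hi, Nat.cast_succ, add_mul, one_mul]
      exact (norm_sub_le_norm_sub_add_norm_sub _ (A J) _).trans (add_le_add ih (step J i hi))
  have a0 : A ∅ = (Fintype.piFinset S).expect (fun x => G (fun i => f i (x i))) := by
    refine Eq.trans ?_ ((oprob_pi_prod S S' fun x _ => G (fun i => f i (x i))).trans ?_)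
    · simp [A, m]
    · exact expect_congr rfl fun x _ => expect_const (Fintype.piFinset_nonempty.2 hS') _
  have a1 : A univ = (Fintype.piFinset S').expect (fun x => G (fun i => g i (x i))) := by
    refine Eq.trans ?_ ((oprob_pi_prod S S' fun _ x => G (fun i => g i (x i))).trans ?_)
    · simp [A, m]
    · exact expect_const (Fintype.piFinset_nonempty.2 hS) _
  rw [← a0, ← a1]
  exact all univ

/-- independence of disjoint pairs of coordinates. -/
theorem expect_prod_pairs {B : Type} [Fintype B] (K : κ → Finset Ω) (hK : ∀ i, (K i).Nonempty)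
    (i0 i1 : B → κ) (h0 : Function.Injective i0) (h1 : Function.Injective i1)
    (h01 : ∀ b b', i0 b ≠ i1 b') (G : B → Ω → Ω → ℝ) :
    (Fintype.piFinset K).expect (fun x => ∏ b, G b (x (i0 b)) (x (i1 b))) =
      ∏ b, (K (i0 b)).expect (fun y => (K (i1 b)).expect (fun y' => G b y y')) := by
  have all : ∀ I : Finset B,
      (Fintype.piFinset K).expect (fun x => ∏ b ∈ I, G b (x (i0 b)) (x (i1 b))) =
        ∏ b ∈ I, (K (i0 b)).expect (fun y => (K (i1 b)).expect (fun y' => G b y y')) := by
    intro I
    induction I using Finset.induction_on with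
    | empty => simpa using expect_const (Fintype.piFinset_nonempty.2 hK) (1 : ℝ)
    | insert b I hb ih =>
      have r0 : ∀ (x : κ → Ω) y, ∏ c ∈ I, G c (Function.update x (i0 b) y (i0 c))
          (Function.update x (i0 b) y (i1 c)) = ∏ c ∈ I, G c (x (i0 c)) (x (i1 c)) := by
        intro x y
        refine prod_congr rfl fun c hc => ?_
        rw [Function.update_of_ne (h01 b c).symm,
          Function.update_of_ne (h0.ne (ne_of_mem_of_not_mem hc hb))]
      have r1 : ∀ (x : κ → Ω) y, ∏ c ∈ I, G c (Function.update x (i1 b) y (i0 c))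
          (Function.update x (i1 b) y (i1 c)) = ∏ c ∈ I, G c (x (i0 c)) (x (i1 c)) := by
        intro x y
        refine prod_congr rfl fun c hc => ?_
        rw [Function.update_of_ne (h01 c b), Function.update_of_ne (h1.ne (ne_of_mem_of_not_mem hc hb))]
      simp only [prod_insert hb]
      rw [expect_update K (i1 b)]
      simp only [r1, Function.update_self, Function.update_of_ne (h01 b b), ← expect_mul]
      rw [expect_update K (i0 b)]
      simp only [r0, Function.update_self, ← expect_mul, ← mul_expect]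
      rw [ih]
  exact all univ

end

section
variable {X : Type} [DecidableEq X]

theorem expect_powerset_union {E : Type} [RCLike E] {a b : Finset X} (h : Disjoint a b)
    (F : Finset X → E) :
    (a ∪ b).powerset.expect F =
      a.powerset.expect (fun A => b.powerset.expect (fun B => F (A ∪ B))) := by
  rw [← expect_product' a.powerset b.powerset fun A B => F (A ∪ B)]
  have hu : ∀ C ∈ (a ∪ b).powerset, C ∩ a ∪ C ∩ b = C := fun C hC => by
    rw [← inter_union_distrib_left, inter_eq_left.2 (mem_powerset.1 hC)]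
  refine expect_nbij' (fun C => (C ∩ a, C ∩ b)) (fun w => w.1 ∪ w.2) ?_ ?_ hu ?_
    (fun C hC => by rw [hu C hC])
  · intro C _
    exact mem_product.2 ⟨mem_powerset.2 inter_subset_right, mem_powerset.2 inter_subset_right⟩
  · intro w hw
    obtain ⟨h1, h2⟩ := mem_product.1 hw
    exact mem_powerset.2 (union_subset_union (mem_powerset.1 h1) (mem_powerset.1 h2))
  · intro w hw
    obtain ⟨h1, h2⟩ := mem_product.1 hw
    rw [mem_powerset] at h1 h2
    have d1 : w.2 ∩ a = ∅ := disjoint_iff_inter_eq_empty.1 (h.symm.mono_left h2)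
    have d2 : w.1 ∩ b = ∅ := disjoint_iff_inter_eq_empty.1 (h.mono_left h1)
    refine Prod.ext ?_ ?_
    · simp only [union_inter_distrib_right, d1, union_empty, inter_eq_left.2 h1]
    · simp only [union_inter_distrib_right, d2, empty_union, inter_eq_left.2 h2]

theorem oprob_split {E : Type} [RCLike E] (a Q : Finset X) (F : Finset X → E) :
    a.powerset.expect F =
      (a ∩ Q).powerset.expect (fun A => (a \ Q).powerset.expect (fun B => F (A ∪ B))) := by
  rw [← expect_powerset_union (disjoint_sdiff_inter a Q).symm, union_comm, sdiff_union_inter]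

theorem oprob_facts {a Q A B : Finset X} (hA : A ∈ (a ∩ Q).powerset) (hB : B ∈ (a \ Q).powerset) :
    A ∪ B ⊆ a ∧ (A ∪ B) ∩ Q = A ∧ (A ∪ B) ∩ (a \ Q) = B := by
  rw [mem_powerset] at hA hB
  refine ⟨union_subset (hA.trans inter_subset_left) (hB.trans sdiff_subset), ?_, ?_⟩
  · ext x
    have h1 := @hA x
    have h2 := @hB x
    simp only [mem_inter, mem_union, mem_sdiff] at h1 h2 ⊢
    tauto
  · ext x
    have h1 := @hA x
    have h2 := @hB x
    simp only [mem_inter, mem_union, mem_sdiff] at h1 h2 ⊢
    tauto

theorem expect_powerset_inter {E : Type} [RCLike E] (a Q : Finset X) (F : Finset X → E)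
    (hF : ∀ A, A ⊆ a → F A = F (A ∩ Q)) :
    a.powerset.expect F = (a ∩ Q).powerset.expect F := by
  rw [oprob_split a Q]
  refine expect_congr rfl fun A hA => ?_
  rw [← expect_const (powerset_nonempty (a \ Q)) (F A)]
  refine expect_congr rfl fun B hB => ?_
  obtain ⟨h1, h2, -⟩ := oprob_facts hA hB
  rw [hF _ h1, h2]

theorem oprob_two (a Q : Finset X) (F R : Finset X → ℝ) (hF : ∀ A, A ⊆ a → F A = F (A ∩ Q))
    (hR : ∀ A, A ⊆ a → R A = R (A ∩ (a \ Q))) :
    a.powerset.expect (fun A => F A * R A) = a.powerset.expect F * a.powerset.expect R := by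
  rw [oprob_split a Q, expect_powerset_inter a Q F hF, expect_powerset_inter a _ R hR,
    inter_eq_right.2 sdiff_subset, expect_mul_expect]
  refine expect_congr rfl fun A hA => expect_congr rfl fun B hB => ?_
  obtain ⟨h1, h2, h3⟩ := oprob_facts hA hB
  rw [hF _ h1, hR _ h1, h2, h3]

theorem expect_powerset_prod {ι : Type} (a : Finset X) (I : Finset ι) (Q : ι → Finset X)
    (hQ : ∀ i ∈ I, ∀ i' ∈ I, i ≠ i' → Disjoint (Q i) (Q i')) (F : ι → Finset X → ℝ)
    (hF : ∀ i ∈ I, ∀ A, A ⊆ a → F i A = F i (A ∩ Q i)) :
    a.powerset.expect (fun A => ∏ i ∈ I, F i A) = ∏ i ∈ I, a.powerset.expect (F i) := by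
  induction I using Finset.induction_on with
  | empty => simpa using expect_const (powerset_nonempty a) (1 : ℝ)
  | insert i I hi ih =>
    simp only [prod_insert hi]
    rw [oprob_two a (Q i) (F i) (fun A => ∏ l ∈ I, F l A) (hF i (mem_insert_self _ _)),
      ih (fun l hl l' hl' => hQ l (mem_insert_of_mem hl) l' (mem_insert_of_mem hl'))
        fun l hl => hF l (mem_insert_of_mem hl)]
    intro A hA
    refine prod_congr rfl fun l hl => ?_
    have hd := hQ i (mem_insert_self _ _) l (mem_insert_of_mem hl) fun e => hi (e ▸ hl)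
    rw [hF l (mem_insert_of_mem hl) A hA,
      hF l (mem_insert_of_mem hl) (A ∩ (a \ Q i)) (inter_subset_left.trans hA)]
    congr 1
    ext x
    have h1 := @hA x
    have h2 := @disjoint_left.1 hd x
    simp only [mem_inter, mem_sdiff]
    tauto

end

end Pool.Agent.P.MP_85fe51_lc.OD
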