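import Pool.Agent.P.MP_85fe51_lc.ODot
import Pool.Agent.P.MP_85fe51_lc.OProb

set_option autoImplicit false

namespace Pool.Agent.P.MP_85fe51_lc.OD

open Finset
open scoped Classical

variable {p : ℕ} [Fact p.Prime] {V : Type} [AddCommGroup V]

theorem ost_sgn_flip {k : ℕ} (ε : Fin k → Bool) (b : Fin k) :
    sgn (Function.update ε b (!ε b)) = - sgn ε := by
  unfold sgn
  rw [← Finset.mul_prod_erase univ _ (mem_univ b),
    ← Finset.mul_prod_erase univ (fun b => if ε b then (-1 : ℤ) else 1) (mem_univ b)]
  have e : ∏ x ∈ univ.erase b, (if Function.update ε b (!ε b) x then (-1 : ℤ) else 1) =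
      ∏ x ∈ univ.erase b, (if ε x then (-1 : ℤ) else 1) := by
    refine Finset.prod_congr rfl fun x hx => ?_
    rw [Function.update_of_ne (Finset.ne_of_mem_erase hx)]
  rw [e, Function.update_self]
  cases ε b <;> simp

theorem ost_sgn_cons {k : ℕ} (c : Bool) (ε : Fin k → Bool) :
    sgn (Fin.cons c ε : Fin (k + 1) → Bool) = (if c then -1 else 1) * sgn ε := by
  unfold sgn
  rw [Fin.prod_univ_succ]
  simp only [Fin.cons_zero, Fin.cons_succ]

theorem ost_sz_add {w : ZMod p → V} (hw : SZ w) (c : ZMod p) : SZ (fun s => w (s + c)) := by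
  unfold SZ at *
  rw [← hw]
  exact Equiv.sum_comp (Equiv.addRight c) w

theorem ost_sz_sub {w w' : ZMod p → V} (hw : SZ w) (hw' : SZ w') :
    SZ (fun s => w s - w' s) := by
  unfold SZ at *
  rw [Finset.sum_sub_distrib, hw, hw', sub_zero]

theorem ost_pr_cons {Z : Type} [Fintype Z] [DecidableEq Z] {n : ℕ}
    (P : (Fin (n + 1) → Z) → Prop) :
    pr univ P = (∑ a : Z, pr univ (fun s : Fin n → Z => P (Fin.cons a s))) / Fintype.card Z := by
  unfold pr
  rw [← Fintype.expect_equiv (Fin.consEquiv (fun _ : Fin (n + 1) => Z))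
    (fun x => if P (Fin.cons x.1 x.2) then (1 : ℝ) else 0) _ (fun _ => rfl),
    ← Finset.univ_product_univ, Finset.expect_product, Finset.expect_eq_sum_div_card,
    Finset.card_univ]

variable {X : Type} [Fintype X] [DecidableEq X] {T : Type}

omit [Fintype X] in
theorem ost_dot_insert (η : Vec p X) {i : X} {A : Finset X} (hi : i ∉ A) :
    dot η (insert i A) = η i + dot η A := Finset.sum_insert hi

theorem ost_popular (Tt : Finset T) (d : T → ZMod p) :
    ∃ a, p * (Tt.filter (fun t => d t ≠ a)).card ≤ (p - 1) * Tt.card := by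
  have hsum : ∑ a : ZMod p, (Tt.filter (fun t => d t = a)).card = Tt.card :=
    (Finset.card_eq_sum_card_fiberwise (f := d) (t := univ) (fun _ _ => mem_univ _)).symm
  have hex : ∃ a : ZMod p, Tt.card ≤ p * (Tt.filter (fun t => d t = a)).card := by
    by_contra hcon
    push Not at hcon
    have := Finset.sum_lt_sum_of_nonempty (s := (univ : Finset (ZMod p))) univ_nonempty
      (fun a _ => hcon a)
    rw [← Finset.mul_sum, hsum, Finset.sum_const, Finset.card_univ, ZMod.card, smul_eq_mul] at this
    exact lt_irrefl _ this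
  obtain ⟨a, ha⟩ := hex
  refine ⟨a, ?_⟩
  have hc := Finset.card_filter_add_card_filter_not (s := Tt) (fun t => d t = a)
  have hp1 : 1 ≤ p := (Fact.out : p.Prime).one_lt.le
  obtain ⟨q, rfl⟩ : ∃ q, p = q + 1 := ⟨p - 1, by omega⟩
  rw [Nat.add_sub_cancel]
  have e : (Tt.filter (fun t => d t ≠ a)).card = (Tt.filter (fun t => ¬ d t = a)).card := rfl
  rw [e]
  nlinarith

omit [Fintype X] in
theorem ost_diff (Tt : Finset T) (w : T → ZMod p → V) (δ : T → Vec p X) {i : X} (a : ZMod p)
    {A : Finset X} (hi : i ∉ A) (y : ZMod p) :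
    ∑ t ∈ Tt.filter (fun t => δ t i ≠ a),
        (w t (y + dot (δ t) A + δ t i) - w t (y + dot (δ t) A + a)) =
      ∑ t ∈ Tt, w t (y + dot (δ t) (insert i A)) - ∑ t ∈ Tt, w t (y + a + dot (δ t) A) := by
  rw [← Finset.sum_sub_distrib, Finset.sum_filter]
  refine Finset.sum_congr rfl fun t _ => ?_
  rw [ost_dot_insert _ hi]
  have e1 : y + (δ t i + dot (δ t) A) = y + dot (δ t) A + δ t i := by ring
  have e2 : y + a + dot (δ t) A = y + dot (δ t) A + a := by ring
  rw [e1, e2]
  by_cases h : δ t i = a
  · rw [if_neg (not_not.mpr h), h, sub_self]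
  · rw [if_pos h]

omit [Fintype X] in
theorem ost_struct (X0 : Finset X) (Tt : Finset T) (w : T → ZMod p → V)
    (hw : ∀ t ∈ Tt, SZ (w t)) (δ : T → Vec p X)
    (h : ∃ A, A ⊆ X0 ∧ ∃ y, ∑ t ∈ Tt, w t (y + dot (δ t) A) ≠ 0) :
    ∃ (I : Finset X) (μ : Vec p X) (w0 : ZMod p → V), I ⊆ X0 ∧ SZ w0 ∧ w0 ≠ 0 ∧
      p ^ I.card ≤ (p - 1) ^ I.card * Tt.card ∧
      ∀ (Λ : Type) [Fintype Λ] (n : Λ → ℤ) (s : Λ → ZMod p) (A : Λ → Finset X),
        (∀ l, A l ⊆ X0 \ I) →
        (∀ β, β ⊆ I → ∀ y, ∑ l, n l • ∑ t ∈ Tt, w t (y + s l + dot (δ t) (A l ∪ β)) = 0) →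
        ∀ y, ∑ l, n l • w0 (y + s l + dot μ (A l)) = 0 := by
  induction X0 using Finset.induction_on generalizing Tt w with
  | empty =>
    obtain ⟨A, hA, y, hy⟩ := h
    rw [Finset.subset_empty.mp hA] at hy
    refine ⟨∅, 0, fun y => ∑ t ∈ Tt, w t y, Finset.Subset.refl _, ?_, ?_, ?_, ?_⟩
    · unfold SZ
      rw [Finset.sum_comm]
      exact Finset.sum_eq_zero fun t ht => hw t ht
    · intro hz
      apply hy
      have := congrFun hz y
      simpa [dot] using this
    · have : Tt.Nonempty := Finset.nonempty_of_sum_ne_zero hy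
      simpa using this
    · intro Λ _ n s A hA hβ y
      have h1 := hβ ∅ (Finset.Subset.refl _) y
      have hA' : ∀ l, A l = ∅ := fun l => by simpa using hA l
      simpa [hA', dot] using h1
  | insert i X1 hi ih =>
    obtain ⟨a, ha⟩ := ost_popular Tt (fun t => δ t i)
    by_cases hc : ∃ A, A ⊆ X1 ∧ ∃ y, ∑ t ∈ Tt.filter (fun t => δ t i ≠ a),
        (w t (y + dot (δ t) A + δ t i) - w t (y + dot (δ t) A + a)) ≠ 0
    · obtain ⟨I, μ, w0, hI, hs, h0, hcard, hfin⟩ := ih (Tt.filter (fun t => δ t i ≠ a))
        (fun t z => w t (z + δ t i) - w t (z + a))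
        (fun t ht => ost_sz_sub (ost_sz_add (hw t (Finset.mem_filter.mp ht).1) _)
          (ost_sz_add (hw t (Finset.mem_filter.mp ht).1) _)) hc
      have hiI : i ∉ I := fun hx => hi (hI hx)
      refine ⟨insert i I, μ, w0, Finset.insert_subset_insert i hI, hs, h0, ?_, ?_⟩
      · rw [Finset.card_insert_of_notMem hiI, pow_succ, pow_succ]
        calc p ^ I.card * p ≤ (p - 1) ^ I.card * (Tt.filter (fun t => δ t i ≠ a)).card * p :=
              Nat.mul_le_mul_right _ hcard
          _ = (p - 1) ^ I.card * (p * (Tt.filter (fun t => δ t i ≠ a)).card) := by ring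
          _ ≤ (p - 1) ^ I.card * ((p - 1) * Tt.card) := Nat.mul_le_mul_left _ ha
          _ = (p - 1) ^ I.card * (p - 1) * Tt.card := by ring
      · intro Λ _ n s A hA hβ
        have hA1 : ∀ l, A l ⊆ X1 \ I := by
          intro l x hx
          have := hA l hx
          simp only [Finset.mem_sdiff, Finset.mem_insert, not_or] at this ⊢
          exact ⟨this.1.resolve_left this.2.1, this.2.2⟩
        refine hfin Λ n s A hA1 fun β hb y => ?_
        have hni : ∀ l, i ∉ A l ∪ β := by
          intro l hx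
          rcases Finset.mem_union.mp hx with hx | hx
          · exact hi (Finset.mem_sdiff.mp (hA1 l hx)).1
          · exact hiI (hb hx)
        have e1 := hβ (insert i β) (Finset.insert_subset_insert i hb) y
        have e2 := hβ β (hb.trans (Finset.subset_insert i I)) (y + a)
        rw [← sub_self (0 : V)]
        nth_rewrite 1 [← e1]
        rw [← e2, ← Finset.sum_sub_distrib]
        refine Finset.sum_congr rfl fun l _ => ?_
        rw [← smul_sub, ost_diff Tt w δ a (hni l) (y + s l), Finset.union_insert]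
        have e3 : y + s l + a = y + a + s l := by ring
        rw [e3]
    · have hz : ∀ A, A ⊆ X1 → ∀ y, ∑ t ∈ Tt, w t (y + dot (δ t) (insert i A)) =
          ∑ t ∈ Tt, w t (y + a + dot (δ t) A) := by
        intro A hA y
        rw [← sub_eq_zero, ← ost_diff Tt w δ a (fun hx => hi (hA hx)) y]
        by_contra hne
        exact hc ⟨A, hA, y, hne⟩
      have hz' : ∀ A, A ⊆ insert i X1 → ∀ y, ∑ t ∈ Tt, w t (y + dot (δ t) A) =
          ∑ t ∈ Tt, w t (y + (if i ∈ A then a else 0) + dot (δ t) (A.erase i)) := by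
        intro A hA y
        by_cases hx : i ∈ A
        · rw [if_pos hx, ← hz (A.erase i) (Finset.subset_insert_iff.mp hA) y,
            Finset.insert_erase hx]
        · rw [if_neg hx, add_zero, Finset.erase_eq_of_notMem hx]
      obtain ⟨I, μ, w0, hI, hs, h0, hcard, hfin⟩ := ih Tt w hw (by
        obtain ⟨A, hA, y, hy⟩ := h
        rw [hz' A hA y] at hy
        exact ⟨A.erase i, Finset.subset_insert_iff.mp hA, _, hy⟩)
      have hiI : i ∉ I := fun hx => hi (hI hx)
      refine ⟨I, Function.update μ i a, w0, hI.trans (Finset.subset_insert i X1), hs, h0, hcard, ?_⟩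
      intro Λ _ n s A hA hβ y
      have hA1 : ∀ l, (A l).erase i ⊆ X1 \ I := by
        intro l x hx
        have h1 := Finset.mem_erase.mp hx
        have := hA l h1.2
        simp only [Finset.mem_sdiff, Finset.mem_insert] at this ⊢
        exact ⟨this.1.resolve_left h1.1, this.2⟩
      have key := hfin Λ n (fun l => s l + if i ∈ A l then a else 0) (fun l => (A l).erase i) hA1
        (by
          intro β hb y
          rw [← hβ β hb y]
          refine Finset.sum_congr rfl fun l _ => ?_
          have hsub : A l ∪ β ⊆ insert i X1 :=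
            Finset.union_subset ((hA l).trans Finset.sdiff_subset)
              ((hb.trans hI).trans (Finset.subset_insert i X1))
          have hiβ : i ∉ β := fun hx => hiI (hb hx)
          have e1 : (A l ∪ β).erase i = (A l).erase i ∪ β := by
            rw [Finset.erase_union_distrib, Finset.erase_eq_of_notMem hiβ]
          have e2 : (i ∈ A l ∪ β) ↔ i ∈ A l := by simp [hiβ]
          rw [hz' _ hsub, e1]
          simp only [e2, add_assoc]) y
      rw [← key]
      refine Finset.sum_congr rfl fun l _ => ?_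
      have e1 : dot μ ((A l).erase i) = dot (Function.update μ i a) ((A l).erase i) :=
        Finset.sum_congr rfl fun x hx => by
          rw [Function.update_of_ne (Finset.ne_of_mem_erase hx)]
      have e2 : dot (Function.update μ i a) (A l) =
          (if i ∈ A l then a else 0) + dot μ ((A l).erase i) := by
        rw [e1]
        by_cases hx : i ∈ A l
        · rw [if_pos hx]
          nth_rewrite 1 [← Finset.insert_erase hx]
          rw [ost_dot_insert _ (Finset.notMem_erase i _), Function.update_self]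
        · rw [if_neg hx, zero_add, Finset.erase_eq_of_notMem hx]
      rw [e2]
      simp only [add_assoc]

end Pool.Agent.P.MP_85fe51_lc.OD
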