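import Pool.Agent.P.MP_85fe51_lc.ODot
import Pool.Agent.P.MP_85fe51_lc.OProb
import Pool.Agent.P.MP_85fe51_lc.OSt0

set_option autoImplicit false

namespace Pool.Agent.P.MP_85fe51_lc.OD

open Finset
open scoped Classical

variable {p : ℕ} [Fact p.Prime] {V : Type} [AddCommGroup V]

theorem sum_sgn_eq_zero {k : ℕ} (F : (Fin k → Bool) → V) (b : Fin k)
    (h : ∀ ε, F (Function.update ε b true) = F (Function.update ε b false)) :
    ∑ ε, sgn ε • F ε = 0 := by
  refine Finset.sum_involution (fun ε _ => Function.update ε b (!ε b)) ?_ ?_ ?_ ?_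
  · intro ε _
    have hF : F (Function.update ε b (!ε b)) = F ε := by
      have h1 := h ε
      cases hb : ε b
      · have e : Function.update ε b false = ε := by rw [← hb]; exact Function.update_eq_self b ε
        rw [e] at h1
        simpa using h1
      · have e : Function.update ε b true = ε := by rw [← hb]; exact Function.update_eq_self b ε
        rw [e] at h1
        simpa using h1.symm
    rw [ost_sgn_flip, hF, neg_smul, add_neg_cancel]
  · intro ε _ _ he
    have := congrFun he b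
    rw [Function.update_self] at this
    cases hb : ε b <;> simp [hb] at this
  · intro ε _
    exact mem_univ _
  · intro ε _
    funext x
    by_cases hx : x = b
    · subst hx
      simp
    · simp [Function.update_of_ne hx]

theorem sum_sgn_succ {k : ℕ} (F : (Fin (k + 1) → Bool) → V) :
    ∑ ε, sgn ε • F ε = ∑ ε : Fin k → Bool, sgn ε • (F (Fin.cons false ε) - F (Fin.cons true ε)) := by
  rw [← (Fin.consEquiv (fun _ : Fin (k + 1) => Bool)).sum_comp, Fintype.sum_prod_type,
    Finset.sum_comm]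
  refine Finset.sum_congr rfl fun ε _ => ?_
  rw [Fintype.sum_bool]
  have e : ∀ c : Bool, (Fin.consEquiv (fun _ : Fin (k + 1) => Bool)) (c, ε) = Fin.cons c ε :=
    fun _ => rfl
  rw [e, e, ost_sgn_cons, ost_sgn_cons, smul_sub]
  simp only [if_true, Bool.false_eq_true, if_false, neg_mul, one_mul, neg_smul]
  abel

theorem SZ.shift {w : ZMod p → V} (hw : SZ w) {u : ZMod p} (hu : u ≠ 0) (c : ZMod p) :
    SZ (fun s => w (u * s + c)) := by
  unfold SZ at *
  rw [← hw]
  exact ((Equiv.mulLeft₀ u hu).trans (Equiv.addRight c)).sum_comp w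

theorem shift_inj (hV : NoP p V) {w : ZMod p → V} (hw : SZ w) {a b : ZMod p} (hab : a ≠ b)
    (h : ∀ y, w (y + a) = w (y + b)) : w = 0 := by
  have hd : a - b ≠ 0 := sub_ne_zero.mpr hab
  have h1 : ∀ y, w (y + (a - b)) = w y := by
    intro y
    have := h (y - b)
    rw [sub_add_cancel] at this
    rw [← this]
    congr 1
    ring
  have h2 : ∀ n : ℕ, w ((n : ZMod p) * (a - b)) = w 0 := by
    intro n
    induction n with
    | zero => simp
    | succ n ih => rw [Nat.cast_succ, add_mul, one_mul, h1, ih]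
  have h3 : ∀ y, w y = w 0 := by
    intro y
    have := h2 (y * (a - b)⁻¹).val
    rwa [ZMod.natCast_zmod_val, mul_assoc, inv_mul_cancel₀ hd, mul_one] at this
  have h4 : p • w 0 = 0 := by
    have := hw
    unfold SZ at this
    rw [Finset.sum_congr rfl (fun y _ => h3 y), Finset.sum_const, Finset.card_univ,
      ZMod.card] at this
    exact this
  funext y
  rw [h3 y]
  exact hV _ h4

theorem pd_zero {k : ℕ} (w : ZMod p → V) (α β : Fin k → ZMod p) {b : Fin k} (h : α b = β b)
    (u : ZMod p) : ∑ ε : Fin k → Bool, sgn ε • w (u + ∑ b, if ε b then β b else α b) = 0 := by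
  refine sum_sgn_eq_zero (fun ε => w (u + ∑ b, if ε b then β b else α b)) b fun ε => ?_
  have e : (∑ x, if Function.update ε b true x then β x else α x) =
      ∑ x, if Function.update ε b false x then β x else α x := by
    refine Finset.sum_congr rfl fun x _ => ?_
    by_cases hx : x = b
    · subst hx
      simp [h]
    · rw [Function.update_of_ne hx, Function.update_of_ne hx]
  simp only [e]

theorem pd_ne (hV : NoP p V) {k : ℕ} {w : ZMod p → V} (hw : SZ w) (h0 : w ≠ 0)
    (α β : Fin k → ZMod p) (h : ∀ b, α b ≠ β b) :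
    ∃ u, ∑ ε : Fin k → Bool, sgn ε • w (u + ∑ b, if ε b then β b else α b) ≠ 0 := by
  induction k generalizing w with
  | zero =>
    obtain ⟨u, hu⟩ := Function.ne_iff.mp h0
    refine ⟨u, ?_⟩
    simpa [sgn] using hu
  | succ k ih =>
    have hw' : SZ (fun y => w (y + α 0) - w (y + β 0)) :=
      ost_sz_sub (ost_sz_add hw _) (ost_sz_add hw _)
    have h0' : (fun y => w (y + α 0) - w (y + β 0)) ≠ 0 := by
      intro hz
      exact h0 (shift_inj hV hw (h 0) fun y => sub_eq_zero.mp (congrFun hz y))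
    obtain ⟨u, hu⟩ := ih hw' h0' (fun b => α b.succ) (fun b => β b.succ) (fun b => h b.succ)
    refine ⟨u, ?_⟩
    rw [sum_sgn_succ]
    intro hz
    apply hu
    rw [← hz]
    refine Finset.sum_congr rfl fun ε _ => ?_
    simp only [Fin.sum_univ_succ, Fin.cons_zero, Fin.cons_succ, if_true, Bool.false_eq_true,
      if_false]
    congr 2 <;> congr 1 <;> ring

theorem min_dist (hV : NoP p V) {n : ℕ} (f : (Fin n → Bool) → ZMod p → V) (hf : ∀ ε, SZ (f ε))
    (h0 : f ≠ 0) :
    piK p n ≤ pr univ (fun s : Fin n → ZMod p =>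
      ∃ y, ∑ ε, sgn ε • f ε (y + ∑ b, if ε b then s b else 0) ≠ 0) := by
  induction n with
  | zero =>
    obtain ⟨ε, hε⟩ := Function.ne_iff.mp h0
    obtain ⟨y, hy⟩ := Function.ne_iff.mp hε
    have hall : ∀ s : Fin 0 → ZMod p,
        ∃ y, ∑ ε, sgn ε • f ε (y + ∑ b, if ε b then s b else 0) ≠ 0 := by
      intro s
      refine ⟨y, ?_⟩
      rw [Fintype.sum_eq_single ε (fun x hx => (hx (Subsingleton.elim _ _)).elim)]
      simpa [sgn] using hy
    unfold pr piK
    rw [pow_zero]
    exact Finset.le_expect univ_nonempty fun s _ => (if_pos (hall s)).ge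
  | succ n ih =>
    let g : ZMod p → (Fin n → Bool) → ZMod p → V :=
      fun a ε y => f (Fin.cons false ε) y - f (Fin.cons true ε) (y + a)
    have hg : ∀ a ε, SZ (g a ε) := fun a ε => ost_sz_sub (hf _) (ost_sz_add (hf _) a)
    have hone : ∃ a0, ∀ a, a ≠ a0 → g a ≠ 0 := by
      by_cases hex : ∃ a0, g a0 = 0
      · obtain ⟨a0, ha0⟩ := hex
        refine ⟨a0, fun a hne ha => h0 ?_⟩
        have ht : ∀ ε, f (Fin.cons true ε) = 0 := by
          intro ε
          refine shift_inj hV (hf _) hne fun y => ?_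
          have e1 : f (Fin.cons false ε) y - f (Fin.cons true ε) (y + a) = 0 :=
            congrFun (congrFun ha ε) y
          have e2 : f (Fin.cons false ε) y - f (Fin.cons true ε) (y + a0) = 0 :=
            congrFun (congrFun ha0 ε) y
          rw [← sub_eq_zero.mp e1, ← sub_eq_zero.mp e2]
        have hfl : ∀ ε, f (Fin.cons false ε) = 0 := by
          intro ε
          funext y
          have e1 : f (Fin.cons false ε) y - f (Fin.cons true ε) (y + a) = 0 :=
            congrFun (congrFun ha ε) y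
          rw [ht ε] at e1
          simpa using e1
        funext ε
        rw [← Fin.cons_self_tail ε]
        cases ε 0
        · exact hfl _
        · exact ht _
      · exact ⟨0, fun a _ ha => hex ⟨a, ha⟩⟩
    obtain ⟨a0, ha0⟩ := hone
    rw [ost_pr_cons, ZMod.card]
    have hp : (1 : ℝ) ≤ p := by exact_mod_cast (Fact.out : p.Prime).one_lt.le
    have hstep : ∀ a ∈ univ.erase a0, piK p n ≤ pr univ (fun s : Fin n → ZMod p =>
        ∃ y, ∑ ε, sgn ε • f ε (y + ∑ b, if ε b then (Fin.cons a s : Fin (n + 1) → ZMod p) b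
          else 0) ≠ 0) := by
      intro a ha
      refine (ih (g a) (hg a) (ha0 a (Finset.ne_of_mem_erase ha))).trans (pr_mono _ ?_)
      rintro s - ⟨y, hy⟩
      refine ⟨y, ?_⟩
      rw [sum_sgn_succ]
      intro hz
      apply hy
      rw [← hz]
      refine Finset.sum_congr rfl fun ε _ => ?_
      simp only [g, Fin.sum_univ_succ, Fin.cons_zero, Fin.cons_succ, if_true, Bool.false_eq_true,
        if_false, zero_add]
      congr 3
      ring
    have hsum := Finset.card_nsmul_le_sum _ _ _ hstep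
    rw [Finset.card_erase_of_mem (mem_univ _), Finset.card_univ, ZMod.card, nsmul_eq_mul,
      Nat.cast_sub (Fact.out : p.Prime).one_lt.le, Nat.cast_one] at hsum
    have hle := Finset.sum_le_sum_of_subset_of_nonneg (Finset.erase_subset a0 univ)
      (f := fun a => pr univ (fun s : Fin n → ZMod p =>
        ∃ y, ∑ ε, sgn ε • f ε (y + ∑ b, if ε b then (Fin.cons a s : Fin (n + 1) → ZMod p) b
          else 0) ≠ 0)) (fun a _ _ => pr_nonneg _ _)
    rw [le_div_iff₀ (by linarith)]
    refine le_trans (le_of_eq ?_) (hsum.trans hle)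
    unfold piK
    rw [pow_succ]
    field_simp

theorem pow_le_of_struct {i n E1 : ℕ} {c : ℝ} (hc0 : 0 ≤ c) (h : p ^ i ≤ (p - 1) ^ i * n)
    (hc : c * ((p : ℝ) - 1) ^ E1 ≤ (p : ℝ) ^ E1) : c ^ i ≤ (n : ℝ) ^ E1 := by
  have hp1 : 1 < p := (Fact.out : p.Prime).one_lt
  have hp : (0 : ℝ) < (p : ℝ) - 1 := by
    have : (1 : ℝ) < p := by exact_mod_cast hp1
    linarith
  have h' : (p : ℝ) ^ i ≤ ((p : ℝ) - 1) ^ i * n := by
    have : ((p ^ i : ℕ) : ℝ) ≤ (((p - 1) ^ i * n : ℕ) : ℝ) := by exact_mod_cast h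
    rwa [Nat.cast_pow, Nat.cast_mul, Nat.cast_pow, Nat.cast_sub hp1.le, Nat.cast_one] at this
  have h1 : (c * ((p : ℝ) - 1) ^ E1) ^ i ≤ ((p : ℝ) ^ E1) ^ i :=
    pow_le_pow_left₀ (by positivity) hc i
  have h2 : ((p : ℝ) ^ i) ^ E1 ≤ (((p : ℝ) - 1) ^ i * n) ^ E1 :=
    pow_le_pow_left₀ (by positivity) h' E1
  rw [mul_pow, ← pow_mul, ← pow_mul] at h1
  rw [mul_pow, ← pow_mul, ← pow_mul, mul_comm i E1] at h2
  have h3 := h1.trans h2
  rw [mul_comm] at h3
  exact le_of_mul_le_mul_left h3 (by positivity)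

variable {X : Type} [Fintype X] [DecidableEq X] {T : Type}

/-- a nonzero sum of few shifted terms is controlled by one term and few coordinates. -/
theorem struct_lemma (hV : NoP p V) (X0 : Finset X) (Tt : Finset T) (w : T → ZMod p → V)
    (hw : ∀ t ∈ Tt, SZ (w t)) (δ : T → Vec p X)
    (h : ∃ A, A ⊆ X0 ∧ ∃ y, ∑ t ∈ Tt, w t (y + dot (δ t) A) ≠ 0) :
    ∃ (I : Finset X) (μ : Vec p X) (w0 : ZMod p → V), I ⊆ X0 ∧ SZ w0 ∧ w0 ≠ 0 ∧
      p ^ I.card ≤ (p - 1) ^ I.card * Tt.card ∧
      ∀ (Λ : Type) [Fintype Λ] (n : Λ → ℤ) (s : Λ → ZMod p) (A : Λ → Finset X),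
        (∀ l, A l ⊆ X0 \ I) →
        (∀ β, β ⊆ I → ∀ y, ∑ l, n l • ∑ t ∈ Tt, w t (y + s l + dot (δ t) (A l ∪ β)) = 0) →
        ∀ y, ∑ l, n l • w0 (y + s l + dot μ (A l)) = 0 :=
  ost_struct X0 Tt w hw δ h

theorem uncert (hV : NoP p V) (X0 : Finset X) (Tt : Finset T) (w : T → ZMod p → V)
    (hw : ∀ t ∈ Tt, SZ (w t)) (δ : T → Vec p X)
    (h : ∃ A, A ⊆ X0 ∧ ∃ y, ∑ t ∈ Tt, w t (y + dot (δ t) A) ≠ 0) {M E1 : ℕ} (hM : Tt.card ≤ M)
    (hE : 2 * ((p : ℝ) - 1) ^ E1 ≤ (p : ℝ) ^ E1) :
    1 / (M : ℝ) ^ E1 ≤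
      pr X0.powerset (fun A => ∃ y, ∑ t ∈ Tt, w t (y + dot (δ t) A) ≠ 0) := by
  obtain ⟨I, μ, w0, hI, -, h0, hcard, hfin⟩ := struct_lemma hV X0 Tt w hw δ h
  have h2 : (2 : ℝ) ^ I.card ≤ (M : ℝ) ^ E1 :=
    (pow_le_of_struct (by norm_num) hcard hE).trans
      (pow_le_pow_left₀ (by positivity) (by exact_mod_cast hM) E1)
  refine (one_div_le_one_div_of_le (by positivity) h2).trans ?_
  have hX : X0 = (X0 \ I) ∪ I := (Finset.sdiff_union_of_subset hI).symm
  unfold pr
  rw [hX, expect_powerset_union Finset.sdiff_disjoint]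
  refine Finset.le_expect ⟨∅, Finset.empty_mem_powerset _⟩ fun A hA => ?_
  have hex : ∃ β, β ⊆ I ∧ ∃ y, ∑ t ∈ Tt, w t (y + dot (δ t) (A ∪ β)) ≠ 0 := by
    by_contra hcon
    push Not at hcon
    have := hfin Unit (fun _ => 1) (fun _ => 0) (fun _ => A)
      (fun _ => Finset.mem_powerset.mp hA) (fun β hb y => by simpa using hcon β hb y)
    apply h0
    funext y
    simpa using this (y - dot μ A)
  obtain ⟨β, hb, hy⟩ := hex
  rw [Finset.expect_eq_sum_div_card, Finset.card_powerset, Nat.cast_pow, Nat.cast_ofNat]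
  refine div_le_div_of_nonneg_right ?_ (by positivity)
  refine le_trans ?_ (Finset.single_le_sum (fun B _ => ?_) (Finset.mem_powerset.mpr hb))
  · exact (if_pos hy).ge
  · split_ifs <;> norm_num

end Pool.Agent.P.MP_85fe51_lc.OD
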