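import Pool.Agent.P.MP_85fe51_lc.ODot
import Pool.Agent.P.MP_85fe51_lc.OSt

set_option autoImplicit false

namespace Pool.Agent.P.MP_85fe51_lc.OD

open Finset
open scoped Classical

variable {k j : ℕ}

namespace Pat
variable (P : Pat k j)

theorem ab_inj : Function.Injective P.ab := by
  intro b b' h
  exact Fin.succ_injective _ (congrArg Prod.fst h)

theorem a0_ne_ab (b : Fin k) : P.a0 ≠ P.ab b := by
  intro h
  exact Fin.succ_ne_zero b (congrArg Prod.fst h).symm

theorem a0_mem_Sg : P.a0 ∈ P.Sg := by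
  unfold Pat.Sg
  rw [mem_filter]
  exact ⟨P.mem 0, P.a0_ne_ab⟩

theorem a0_mem_g : P.a0 ∈ P.g := P.mem 0

theorem ab_not_mem_Sg (b : Fin k) : P.ab b ∉ P.Sg := by
  unfold Pat.Sg
  rw [mem_filter]
  exact fun h => h.2 b rfl

theorem cp_inj {b b' : Fin k} {e e' : Bool} (h : P.cp b e = P.cp b' e') : b = b' ∧ e = e' := by
  cases e <;> cases e'
  · exact ⟨P.ab_inj (Sum.inl_injective h), rfl⟩
  · exact absurd h Sum.inl_ne_inr
  · exact absurd h Sum.inr_ne_inl
  · exact ⟨Sum.inr_injective h, rfl⟩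

theorem cp_ne_inl (b : Fin k) (e : Bool) {a : Atom k j} (ha : a ∈ P.Sg) :
    P.cp b e ≠ Sum.inl a := by
  intro h
  cases e
  · have h' : P.ab b = a := Sum.inl_injective h
    exact P.ab_not_mem_Sg b (h' ▸ ha)
  · exact absurd h Sum.inr_ne_inl

theorem atm_cp (b : Fin k) (e : Bool) : P.atm (P.cp b e) = P.ab b := by
  cases e <;> rfl

end Pat

variable {p : ℕ} [Fact p.Prime] {X : Type} [Fintype X] [DecidableEq X]

theorem atomSet_subset (Y : Finset X) (l : X → Lab k j) (a : Atom k j) : atomSet Y l a ⊆ Y :=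
  filter_subset _ _

theorem subSet_subset (Y : Finset X) (l : X → Lab k j) (a : Atom k j) :
    subSet Y l a ⊆ atomSet Y l a := by
  intro i hi
  unfold subSet at hi
  unfold atomSet
  rw [mem_filter] at hi ⊢
  exact ⟨hi.1, Or.inr hi.2⟩

theorem atomSet_disjoint (Y : Finset X) (l : X → Lab k j) {a a' : Atom k j} (h : a ≠ a') :
    Disjoint (atomSet Y l a) (atomSet Y l a') := by
  rw [disjoint_left]
  intro i hi hi'
  unfold atomSet at hi hi'
  rw [mem_filter] at hi hi'
  apply h
  rcases hi.2 with h1 | h1 <;> rcases hi'.2 with h2 | h2 <;>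
    exact congrArg Prod.fst (Option.some_injective _ (h1.symm.trans h2))

variable (P : Pat k j)

theorem sval_add (s s' : Cp k j → ZMod p) (ε : Fin k → Bool) :
    sval P (fun κ => s κ + s' κ) ε = sval P s ε + sval P s' ε := by
  unfold sval
  rw [sum_add_distrib, sum_add_distrib]
  ring

theorem sval_mul (u : ZMod p) (s : Cp k j → ZMod p) (ε : Fin k → Bool) :
    sval P (fun κ => u * s κ) ε = u * sval P s ε := by
  unfold sval
  rw [mul_add, mul_sum, mul_sum]

theorem sval_eq (s : Cp k j → ZMod p) (ε : Fin k → Bool) :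
    sval P s ε = ∑ a ∈ P.Sg, s (Sum.inl a) +
      ∑ b, if ε b then s (P.cp b true) else s (P.cp b false) := by
  unfold sval
  refine congrArg _ (sum_congr rfl (fun b _ => ?_))
  cases ε b <;> simp

theorem sval_update_a0 (s : Cp k j → ZMod p) (c : ZMod p) (ε : Fin k → Bool) :
    sval P (Function.update s (Sum.inl P.a0) c) ε =
      c + sval P (Function.update s (Sum.inl P.a0) 0) ε := by
  have h1 : ∀ c' : ZMod p, ∑ b, Function.update s (Sum.inl P.a0) c' (P.cp b (ε b)) =
      ∑ b, s (P.cp b (ε b)) := fun c' =>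
    sum_congr rfl (fun b _ => Function.update_of_ne (P.cp_ne_inl b _ P.a0_mem_Sg) _ _)
  have h2 : ∀ c' : ZMod p, ∑ a ∈ P.Sg, Function.update s (Sum.inl P.a0) c' (Sum.inl a) =
      c' + ∑ a ∈ P.Sg.erase P.a0, s (Sum.inl a) := by
    intro c'
    rw [← add_sum_erase _ _ P.a0_mem_Sg, Function.update_self]
    refine congrArg _ (sum_congr rfl (fun a ha => Function.update_of_ne ?_ _ _))
    exact fun h => (mem_erase.1 ha).1 (Sum.inl_injective h)
  unfold sval
  rw [h1, h1, h2, h2]
  ring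

theorem oval_dot_update (v : Vec p X) (x : Cp k j → Finset X) (κ0 : Cp k j) (A : Finset X) :
    (fun κ => dot v (Function.update x κ0 A κ)) =
      Function.update (fun κ => dot v (x κ)) κ0 (dot v A) := by
  funext κ
  by_cases h : κ = κ0
  · subst h
    rw [Function.update_self, Function.update_self]
  · rw [Function.update_of_ne h, Function.update_of_ne h]

theorem val_update_a0 (v : Vec p X) (x : Cp k j → Finset X) (A : Finset X) (ε : Fin k → Bool) :
    val P v (Function.update x (Sum.inl P.a0) A) ε =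
      dot v A + val P v (Function.update x (Sum.inl P.a0) ∅) ε := by
  unfold val
  rw [oval_dot_update, oval_dot_update, dot_empty, sval_update_a0]

theorem surv_update_a0 (v : Vec p X) (x : Cp k j → Finset X) (A : Finset X) :
    Surv P v (Function.update x (Sum.inl P.a0) A) ↔ Surv P v x := by
  unfold Surv
  refine forall_congr' (fun b => ?_)
  rw [Function.update_of_ne (P.cp_ne_inl b _ P.a0_mem_Sg),
    Function.update_of_ne (P.cp_ne_inl b _ P.a0_mem_Sg)]

theorem val_eq_dot (Y : Finset X) (l : X → Lab k j) (v : Vec p X) {x : Cp k j → Finset X}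
    (hx : ∀ κ, x κ ⊆ cset P Y l κ) (ε : Fin k → Bool) : val P v x ε = dot v (useSet P x ε) := by
  have hd : ∀ κ κ', P.atm κ ≠ P.atm κ' → Disjoint (x κ) (x κ') := fun κ κ' h =>
    (atomSet_disjoint Y l h).mono (hx κ) (hx κ')
  unfold val sval useSet
  rw [dot_union, dot_biUnion, dot_biUnion]
  · intro b _ b' _ hb
    apply hd
    rw [P.atm_cp, P.atm_cp]
    exact fun h => hb (P.ab_inj h)
  · intro a _ a' _ ha
    exact hd _ _ ha
  · rw [disjoint_biUnion_left]
    intro a ha
    rw [disjoint_biUnion_right]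
    intro b _
    apply hd
    rw [P.atm_cp]
    intro h
    have h' : a = P.ab b := h
    exact P.ab_not_mem_Sg b (h' ▸ ha)

theorem oval_mix_ab (x : Cp k j → Finset X) (ε : Fin k → Bool) (b : Fin k) :
    mix P.ab x ε (P.ab b) = x (P.cp b (ε b)) := by
  unfold mix
  by_cases h : ∃ b', P.ab b' = P.ab b ∧ ε b' = true
  · rw [dif_pos h]
    have h1 := h.choose_spec
    have h2 : h.choose = b := P.ab_inj h1.1
    have h3 : ε b = true := h2 ▸ h1.2
    rw [h2, h3]
    rfl
  · rw [dif_neg h]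
    have h3 : ε b = false := by
      by_contra h4
      exact h ⟨b, rfl, by simpa using h4⟩
    rw [h3]
    rfl

theorem oval_mix_Sg (x : Cp k j → Finset X) (ε : Fin k → Bool) {a : Atom k j} (ha : a ∈ P.Sg) :
    mix P.ab x ε a = x (Sum.inl a) := by
  unfold mix
  rw [dif_neg]
  rintro ⟨b, hb, -⟩
  exact P.ab_not_mem_Sg b (hb ▸ ha)

theorem biUnion_mix (x : Cp k j → Finset X) (ε : Fin k → Bool) :
    P.g.biUnion (mix P.ab x ε) = useSet P x ε := by
  ext i
  unfold useSet
  rw [mem_union, mem_biUnion, mem_biUnion, mem_biUnion]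
  constructor
  · rintro ⟨a, ha, hi⟩
    by_cases h : ∃ b, a = P.ab b
    · obtain ⟨b, rfl⟩ := h
      rw [oval_mix_ab] at hi
      exact Or.inr ⟨b, mem_univ _, hi⟩
    · have hS : a ∈ P.Sg := by
        unfold Pat.Sg
        rw [mem_filter]
        exact ⟨ha, fun b hb => h ⟨b, hb⟩⟩
      rw [oval_mix_Sg P x ε hS] at hi
      exact Or.inl ⟨a, hS, hi⟩
  · rintro (⟨a, ha, hi⟩ | ⟨b, -, hi⟩)
    · refine ⟨a, filter_subset _ _ ha, ?_⟩
      rw [oval_mix_Sg P x ε ha]
      exact hi
    · refine ⟨P.ab b, P.mem b.succ, ?_⟩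
      rw [oval_mix_ab]
      exact hi

/-- a term with equal values on the two copies of a batch is killed. -/
theorem sum_sgn_sval {V : Type} [AddCommGroup V] (w : ZMod p → V) (s : Cp k j → ZMod p)
    {b : Fin k} (h : s (P.cp b false) = s (P.cp b true)) (y : ZMod p) :
    ∑ ε : Fin k → Bool, sgn ε • w (y + sval P s ε) = 0 := by
  have := pd_zero w (fun b => s (P.cp b false)) (fun b => s (P.cp b true)) h
    (y + ∑ a ∈ P.Sg, s (Sum.inl a))
  simpa only [sval_eq, add_assoc] using this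

theorem sum_sgn_sval_ne {V : Type} [AddCommGroup V] (hV : NoP p V) {w : ZMod p → V} (hw : SZ w)
    (h0 : w ≠ 0) (s : Cp k j → ZMod p) (h : ∀ b, s (P.cp b false) ≠ s (P.cp b true)) :
    ∃ y, ∑ ε : Fin k → Bool, sgn ε • w (y + sval P s ε) ≠ 0 := by
  obtain ⟨u, hu⟩ := pd_ne hV hw h0 (fun b => s (P.cp b false)) (fun b => s (P.cp b true)) h
  refine ⟨u - ∑ a ∈ P.Sg, s (Sum.inl a), ?_⟩
  simpa only [sval_eq, ← add_assoc, sub_add_cancel] using hu

end Pool.Agent.P.MP_85fe51_lc.OD
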