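import Pool.Agent.P.MP_85fe51_lc.ODecA
import Pool.Agent.P.MP_85fe51_lc.OSel
import Pool.Agent.P.MP_85fe51_lc.OVal

set_option autoImplicit false

namespace Pool.Agent.P.MP_85fe51_lc.OD

open Finset
open scoped Classical

variable {p : ℕ} [Fact p.Prime] {X : Type} [Fintype X] [DecidableEq X] {T : Type} [Fintype T]
  {k j : ℕ}

theorem odec_dot_inter (d : Vec p X) (A J : Finset X) : dot d (A ∩ J) = dot (d - off J d) A := by
  rw [dot_sub, dot_off, eq_sub_iff_add_eq]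
  exact Finset.sum_inter_add_sum_sdiff A J d

theorem odec_val_rep (P : Pat k j) {U : Sub p X} {x : Cp k j → Finset X} (hx : ∀ κ, KerP U (x κ))
    {v v' d : Vec p X} {u : ZMod p} (h : v - u • v' - d ∈ U) (ε : Fin k → Bool) :
    val P v x ε = u * val P v' x ε + val P d x ε := by
  unfold val
  rw [← sval_mul, ← sval_add]
  exact congrArg (fun s => sval P s ε) (funext fun κ => (hx κ).dot_rep h)

theorem odec_norm {Ω : Type} {s : Finset Ω} (hs : s.Nonempty) (F : Ω → ℂ) {M : ℝ}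
    (h : ∀ x ∈ s, ‖F x‖ ^ 2 ≤ M) : ‖s.expect F‖ ^ 2 ≤ M := by
  obtain ⟨x0, hx0⟩ := id hs
  have hM : 0 ≤ M := le_trans (sq_nonneg _) (h x0 hx0)
  have h1 : ‖s.expect F‖ ≤ √M :=
    (RCLike.norm_expect_le (K := ℂ)).trans
      (Finset.expect_le hs fun x hx => Real.le_sqrt_of_sq_le (h x hx))
  calc _ ≤ √M ^ 2 := by gcongr
    _ = M := Real.sq_sqrt hM

theorem odec_map_spn (H : Sub p X) (lam : T → Vec p X) (G : Finset T) (J : Finset X) :
    (H ⊔ spn lam G).map (off J) = H.map (off J) ⊔ spn (fun e => off J (lam e)) G := by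
  rw [Submodule.map_sup, spn, spn, Submodule.map_span, Set.image_image]

theorem odec_DS {V : Type} [AddCommGroup V] (P : Pat k j) (lam : T → Vec p X)
    (phi : T → ZMod p → V) (x : Cp k j → Finset X) :
    DS P lam phi x = ∑ t, ∑ ε : Fin k → Bool, sgn ε • phi t (val P (lam t) x ε) := by
  unfold DS
  rw [Finset.sum_comm]
  exact Finset.sum_congr rfl fun ε _ => Finset.smul_sum

theorem odec_dead {V : Type} [AddCommGroup V] (P : Pat k j) (v : Vec p X) (w : ZMod p → V)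
    (x : Cp k j → Finset X) (h : ¬ Surv P v x) (A : Finset X) :
    ∑ ε : Fin k → Bool, sgn ε • w (val P v (Function.update x (Sum.inl P.a0) A) ε) = 0 := by
  rw [← surv_update_a0 P v x A] at h
  obtain ⟨b, hb⟩ := not_forall.1 h
  have e := sum_sgn_sval P w (fun κ => dot v (Function.update x (Sum.inl P.a0) A κ))
    (not_not.1 hb) 0
  simp only [zero_add] at e
  exact e

namespace Ext
variable {σ : Ext p X T} {Seq : Finset T}

/-- the space spanned by the other terms stays safe when the unhit members are added. -/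
theorem SeqOK.unhit (hS : σ.SeqOK Seq) (a : Finset X) {C' : ℕ} (hC : 1 ≤ C') (R Gd : Finset T)
    (hG : Gd ⊆ Seq) (hR : Gd ⊆ R)
    (hh : ∀ e ∈ Gd, ¬ σ.Hit a C' e (σ.U ⊔ spn σ.lam (R \ σ.LCl e))) :
    ∃ J : Finset X, aᶜ ⊆ J ∧ (∀ e ∈ Gd, Disjoint (σ.Qs e ∩ a) J) ∧
      Safe C' (((σ.U ⊔ spn σ.lam (R \ Gd.biUnion σ.LCl)) ⊔ spn σ.lam Gd).map (off J)) ∧
      dO ((σ.U ⊔ spn σ.lam (R \ Gd.biUnion σ.LCl)) ⊔ spn σ.lam Gd) J =
        dO (σ.U ⊔ spn σ.lam (R \ Gd.biUnion σ.LCl)) J + Gd.card := by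
  obtain ⟨Hm, hHm⟩ : ∃ Hm, Hm = σ.U ⊔ spn σ.lam (R \ Gd.biUnion σ.LCl) := ⟨_, rfl⟩
  rw [← hHm]
  have h1 : ∀ e ∈ Gd, Hm ≤ σ.U ⊔ spn σ.lam (R \ σ.LCl e) := fun e he => by
    rw [hHm]
    exact sup_le_sup_left (spn_mono _ (sdiff_subset_sdiff subset_rfl
      (subset_biUnion_of_mem σ.LCl he))) _
  have h2 : aᶜ ⊆ Jmax C' (Hm ⊔ co aᶜ) := subset_Jmax hC le_sup_right
  have h3 := rho_spn_ge C' (Hm ⊔ co aᶜ) σ.lam Gd fun e he => by
    refine (not_lt.1 (not_or.1 (hh e he)).1).trans (marg_anti C' ?_ _)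
    refine sup_le (sup_le_sup_right (h1 e he) _) (le_sup_of_le_left (le_sup_of_le_right ?_))
    refine spn_mono _ fun e' he' => ?_
    obtain ⟨hne, he'⟩ := mem_erase.1 he'
    exact mem_sdiff.2 ⟨hR he', fun h => disjoint_left.1 (hS.disjoint_Mid (hG he') (hG he) hne)
      (σ.self_mem_Mid e') (σ.LCl_subset e h)⟩
  obtain ⟨J, hJ⟩ : ∃ J, J = Jmax C' (Hm ⊔ co aᶜ) := ⟨_, rfl⟩
  have h4 := fC_Jmax C' (Hm ⊔ co aᶜ)
  rw [← hJ] at h2 h4
  have h5 := rho_le C' ((Hm ⊔ co aᶜ) ⊔ spn σ.lam Gd) J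
  have h6 := dO_sup_spn (Hm ⊔ co aᶜ) σ.lam Gd J
  have h7 := Nat.mul_le_mul_left C' h6
  have h8 : fC C' ((Hm ⊔ co aᶜ) ⊔ spn σ.lam Gd) J = rho C' ((Hm ⊔ co aᶜ) ⊔ spn σ.lam Gd) := by
    refine le_antisymm ?_ h5
    unfold fC at h4 ⊢
    rw [mul_add] at h7
    omega
  have h9 : dO ((Hm ⊔ co aᶜ) ⊔ spn σ.lam Gd) J = dO (Hm ⊔ co aᶜ) J + Gd.card := by
    refine le_antisymm h6 (Nat.le_of_mul_le_mul_left ?_ hC)
    unfold fC at h4 h5
    rw [mul_add]
    omega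
  refine ⟨J, h2, fun e he => ?_, (safe_of_min h8).sub (Submodule.map_mono
    (sup_le_sup_right le_sup_left _)), ?_⟩
  · refine Disjoint.mono_right ?_ (not_not.1 (not_or.1 (hh e he)).2)
    rw [hJ]
    exact Jmax_mono C' (sup_le_sup_right (h1 e he) _)
  · rw [sup_right_comm, dO_sup_co _ h2, dO_sup_co _ h2] at h9
    exact h9

theorem SeqOK.decay (hS : σ.SeqOK Seq) {m c1 : ℕ} {θ γ : ℝ} (hθ : ThB p m c1 θ) (hγ : Gam p m γ)
    {V : Type} [AddCommGroup V] [Fintype V] (hV : ∀ v : V, m • v = 0) (hN : NoP p V)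
    (ψ : AddChar V ℂ) (hψ : ∀ v, ψ v = 1 → v = 0) (P : Pat k j) (phi : T → ZMod p → V)
    (hphi : ∀ t, SZ (phi t)) {C' E1 : ℕ} (hC : 1 ≤ C')
    (hQ : 4 * (p * (Fintype.card X + 1) : ℝ) ^ 2 * Real.sqrt θ ^ C' ≤ 1)
    (hE : 2 * ((p : ℝ) - 1) ^ E1 ≤ (p : ℝ) ^ E1) (l : X → Lab k j) {x : Cp k j → Finset X}
    (hx : x ∈ σ.Om P l) :
    ‖σ.inner P phi ψ l x‖ ^ 2 ≤ 9 * (1 - (1 - γ) / (σ.M4 : ℝ) ^ E1) ^
      (Seq.filter (fun i => σ.Act P phi c1 l i x ∧ ¬ σ.Hit (subSet σ.Y l P.a0) C' i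
        (σ.U ⊔ spn σ.lam (Rs P σ.lam x \ σ.LCl i)))).card := by
  obtain ⟨Gd, hGd⟩ : ∃ Gd, Gd = Seq.filter (fun i => σ.Act P phi c1 l i x ∧
      ¬ σ.Hit (subSet σ.Y l P.a0) C' i (σ.U ⊔ spn σ.lam (Rs P σ.lam x \ σ.LCl i))) := ⟨_, rfl⟩
  rw [← hGd]
  have hmem : ∀ e ∈ Gd, e ∈ Seq ∧ σ.Act P phi c1 l e x ∧
      ¬ σ.Hit (subSet σ.Y l P.a0) C' e (σ.U ⊔ spn σ.lam (Rs P σ.lam x \ σ.LCl e)) :=
    fun e he => mem_filter.1 (hGd ▸ he)
  obtain ⟨J, hJ1, hJ2, hJ3, hJ4⟩ := hS.unhit (subSet σ.Y l P.a0) hC (Rs P σ.lam x) Gd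
    (fun e he => (hmem e he).1)
    (fun e he => mem_filter.2 ⟨mem_univ _, (hmem e he).2.1.2.1⟩) (fun e he => (hmem e he).2.2)
  obtain ⟨Hm, hHm⟩ : ∃ Hm, Hm = σ.U ⊔ spn σ.lam (Rs P σ.lam x \ Gd.biUnion σ.LCl) := ⟨_, rfl⟩
  rw [← hHm] at hJ3 hJ4
  have hU : σ.U ≤ Hm := hHm ▸ le_sup_left
  have hxK : ∀ κ, x κ ⊆ cset P σ.Y l κ ∧ KerP σ.U (x κ) := fun κ =>
    mem_Ker.1 (Fintype.mem_piFinset.1 hx κ)
  have hx0 : x (Sum.inl P.a0) ⊆ atomSet σ.Y l P.a0 := (hxK (Sum.inl P.a0)).1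
  have hx' : ∀ κ, KerP σ.U (Function.update x (Sum.inl P.a0) ∅ κ) := fun κ => by
    by_cases h : κ = Sum.inl P.a0
    · rw [h, Function.update_self]
      exact kerP_empty _
    · rw [Function.update_of_ne h]
      exact (hxK κ).2
  have hJa : Jᶜ ⊆ subSet σ.Y l P.a0 := fun i hi => by
    by_contra h
    exact mem_compl.1 hi (hJ1 (mem_compl.2 h))
  have hb : atomSet σ.Y l P.a0 \ J = Jᶜ := by
    ext i
    simp only [mem_sdiff, mem_compl, and_iff_right_iff_imp]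
    exact fun h => subSet_subset _ _ _ (hJa (mem_compl.2 h))
  have hrep : ∀ e, ∀ t ∈ σ.LCl e, σ.uu e t ≠ 0 ∧ σ.lam t - σ.uu e t • σ.lam e - σ.dd e t ∈ σ.U :=
    fun e t ht => ⟨(σ.rep e t (σ.LCl_subset e ht)).1, (σ.rep e t (σ.LCl_subset e ht)).2.1⟩
  have hsupp : ∀ e, ∀ t ∈ σ.LCl e, supp (σ.de e t) = supp (σ.dd e t) := fun e t ht =>
    supp_smul (inv_ne_zero (hrep e t ht).1) _
  have hQs : ∀ e, ∀ t ∈ σ.LCl e, supp (σ.dd e t) ⊆ σ.Qs e := fun e t ht =>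
    subset_biUnion_of_mem (fun t => supp (σ.dd e t)) ht
  have hde : ∀ e, ∀ t ∈ σ.LCl e, ∀ B, σ.uu e t * dot (σ.de e t) B = dot (σ.dd e t) B :=
    fun e t ht B => by rw [de, dot_smul, mul_inv_cancel_left₀ (hrep e t ht).1]
  unfold inner
  rw [expect_fib_cond (H' := Hm ⊔ co J) (sup_le_sup hU (co_mono hJ1))]
  refine odec_norm ⟨_, mem_fib.2 ⟨hx0, fun _ _ => rfl⟩⟩ _ fun A1 hA1 => ?_
  obtain ⟨hA1a, hA1d⟩ := mem_fib.1 hA1
  rw [expect_fib_off le_sup_right hA1a, map_off_sup_co, hb]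
  obtain ⟨w, hw⟩ : ∃ w : T → T → ZMod p → V, w = fun e t z => ∑ ε : Fin k → Bool, sgn ε •
      phi t (σ.uu e t * z + (σ.uu e t * dot (σ.lam e) (A1 ∩ J) + dot (σ.dd e t) (A1 ∩ J) +
        val P (σ.lam t) (Function.update x (Sum.inl P.a0) ∅) ε)) := ⟨_, rfl⟩
  have key := decay_class hθ hγ hV hN ψ hψ Jᶜ (A1 \ J) (Hm.map (off J)) Gd
    (fun e => off J (σ.lam e)) (odec_map_spn Hm σ.lam Gd J ▸ map_off_le _ J) hC
    (odec_map_spn Hm σ.lam Gd J ▸ hJ3) (odec_map_spn Hm σ.lam Gd J ▸ hJ4) hQ σ.LCl w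
    (fun e _ t ht => by
      rw [hw, SZ, Finset.sum_comm]
      refine Finset.sum_eq_zero fun ε _ => ?_
      rw [← Finset.smul_sum, (hphi t).shift (hrep e t ht).1, smul_zero])
    σ.de σ.Qs (fun e he e' he' hne => hS.disjoint_Qs (hmem e he).1 (hmem e' he').1 hne)
    (fun e _ t ht => by rw [hsupp e t ht]; exact inter_subset_left.trans (hQs e t ht))
    (fun e he t ht => by
      rw [hsupp e t ht]
      exact (card_le_card (inter_subset_inter_left hJa)).trans ((hmem e he).2.1.1 t ht P.a0))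
    (M4 := σ.M4) (E1 := E1)
    (fun e he => (card_le_card (σ.LCl_subset e)).trans (σ.mid e (hS e (hmem e he).1).1)) hE
    (fun e he => by
      obtain ⟨y0, hy0⟩ := (hmem e he).2.1.2.2.2
      refine ⟨x (Sum.inl P.a0) \ J, fun i hi => mem_compl.2 (mem_sdiff.1 hi).2,
        y0 + dot (σ.lam e) (x (Sum.inl P.a0)) - dot (σ.lam e) (A1 ∩ J), fun h => hy0 ?_⟩
      rw [← h, hw, Finset.sum_comm, Phi]
      refine Finset.sum_congr rfl fun ε _ => ?_
      rw [Finset.smul_sum]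
      refine Finset.sum_congr rfl fun t ht => congrArg (fun s => sgn ε • phi t s) ?_
      have e1 : dot (σ.dd e t) (A1 ∩ J) = dot (σ.dd e t) (x (Sum.inl P.a0) ∩ J) := by
        rw [odec_dot_inter, odec_dot_inter]
        refine hA1d _ (Submodule.mem_sup_right (mem_co.2 fun i hi => ?_))
        rw [Pi.sub_apply, off_apply]
        split_ifs with hiJ
        · by_contra h0
          rw [sub_zero] at h0
          exact disjoint_left.1 (hJ2 e he) (mem_inter.2 ⟨hQs e t ht (mem_supp.2 h0),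
            not_not.1 (mt mem_compl.2 hi)⟩) hiJ
        · exact sub_self _
      have e2 : dot (σ.dd e t) (x (Sum.inl P.a0) ∩ J) + dot (σ.dd e t) (x (Sum.inl P.a0) \ J) =
          dot (σ.dd e t) (x (Sum.inl P.a0)) := Finset.sum_inter_add_sum_sdiff _ _ _
      have e3 := val_update_a0 P (σ.lam e) x (x (Sum.inl P.a0)) ε
      have e4 := val_update_a0 P (σ.dd e t) x (x (Sum.inl P.a0)) ε
      rw [Function.update_eq_self] at e3 e4
      have e5 := odec_val_rep P hx' (hrep e t ht).2 ε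
      have e6 := hde e t ht (x (Sum.inl P.a0) \ J)
      change σ.uu e t * (y0 + val P (σ.lam e) x ε) + val P (σ.dd e t) x ε = _
      rw [e3, e4, e5, e1]
      linear_combination -e2 - e6)
  obtain ⟨c, hc⟩ : ∃ c : V, c = ∑ t ∈ (Gd.biUnion σ.LCl)ᶜ, ∑ ε : Fin k → Bool,
      sgn ε • phi t (val P (σ.lam t) (Function.update x (Sum.inl P.a0) A1) ε) := ⟨_, rfl⟩
  have main : ∀ B ∈ fib (Hm.map (off J)) Jᶜ (A1 \ J),
      ψ (DS P σ.lam phi (Function.update x (Sum.inl P.a0) (A1 ∩ J ∪ B))) = ψ c *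
        ψ (∑ e ∈ Gd, ∑ t ∈ σ.LCl e, w e t (dot (off J (σ.lam e)) B + dot (σ.de e t) B)) := by
    intro B hB
    obtain ⟨hB1, hB2⟩ := mem_fib.1 hB
    have hBJ : Disjoint B J := disjoint_left.2 fun i hi => mem_compl.1 (hB1 hi)
    have hd : Disjoint (A1 ∩ J) B := hBJ.symm.mono_left inter_subset_right
    have hoff : ∀ η : Vec p X, dot (off J η) B = dot η B := fun η => by
      rw [dot_off, hBJ.sdiff_eq_left]
    have hη : ∀ η ∈ Hm, dot η (A1 ∩ J ∪ B) = dot η A1 := fun η hη => by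
      rw [dot_union η hd, ← hoff, hB2 _ (Submodule.mem_map_of_mem hη), dot_off,
        Finset.sdiff_idem]
      exact Finset.sum_inter_add_sum_sdiff _ _ _
    have hK : KerP σ.U (A1 ∩ J ∪ B) := fun η h => by
      rw [hη η (hU h), hA1d η (Submodule.mem_sup_left h)]
      exact (hxK _).2 η h
    rw [← AddChar.map_add_eq_mul, odec_DS, ← Finset.sum_compl_add_sum (Gd.biUnion σ.LCl),
      Finset.sum_biUnion fun e he e' he' hne =>
        (hS.disjoint_Mid (hmem e he).1 (hmem e' he').1 hne).mono (σ.LCl_subset e)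
          (σ.LCl_subset e'), hc]
    refine congrArg ψ (congrArg₂ (· + ·) (Finset.sum_congr rfl fun t ht => ?_)
      (Finset.sum_congr rfl fun e he => Finset.sum_congr rfl fun t ht => ?_))
    · by_cases hs : Surv P (σ.lam t) x
      · have h1 : σ.lam t ∈ Hm := hHm ▸ Submodule.mem_sup_right (mem_spn _ (mem_sdiff.2
          ⟨mem_filter.2 ⟨mem_univ _, hs⟩, mem_compl.1 ht⟩))
        refine Finset.sum_congr rfl fun ε _ => ?_
        rw [val_update_a0, val_update_a0 P _ x A1, hη _ h1]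
      · rw [odec_dead P _ _ x hs, odec_dead P _ _ x hs]
    · rw [hw]
      refine Finset.sum_congr rfl fun ε _ => congrArg (fun s => sgn ε • phi t s) ?_
      rw [val_update_a0, hK.dot_rep (hrep e t ht).2, dot_union _ hd, dot_union _ hd, hoff]
      linear_combination -hde e t ht B
  rw [Finset.expect_congr rfl main, ← Finset.mul_expect, norm_mul, AddChar.norm_apply, one_mul]
  exact key

end Ext

end Pool.Agent.P.MP_85fe51_lc.OD
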