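import Pool.Agent.P.MP_85fe51_lc.OSel
import Pool.Agent.P.MP_85fe51_lc.DPP
import Pool.Agent.P.MP_85fe51_lc.OProb

set_option autoImplicit false

namespace Pool.Agent.P.MP_85fe51_lc.OD

open Finset
open scoped Classical

variable {p : ℕ} [Fact p.Prime] {X : Type} [Fintype X] [DecidableEq X] {T : Type} [Fintype T]

namespace Ext
variable (σ : Ext p X T)

/-- `Γ` with all terms whose margin it lowers. -/
noncomputable def cl (Γ : Finset T) : Finset T :=
  Γ ∪ univ.filter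
    (fun t => marg σ.CH (σ.U ⊔ spn σ.lam Γ) (σ.lam t) < marg σ.CH σ.U (σ.lam t))

noncomputable def Fam (a : Finset X) (C' : ℕ) (G : Finset T) (i : T) : Finset (Finset T) :=
  univ.filter (fun B => Disjoint B (σ.Mid i) ∧ σ.Hit a C' i (σ.U ⊔ spn σ.lam (σ.cl (G ∪ B))))

theorem card_cl (Γ : Finset T) : (σ.cl Γ).card ≤ (σ.K1 + 1) * Γ.card := by
  have h := σ.e2 Γ
  refine (card_union_le _ _).trans ?_
  rw [add_mul, one_mul, add_comm]
  exact Nat.add_le_add_right h _

theorem cl_mono {Γ Γ' : Finset T} (h : Γ ⊆ Γ') : σ.cl Γ ⊆ σ.cl Γ' := by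
  refine union_subset_union h fun t ht => ?_
  simp only [mem_filter, mem_univ, true_and] at ht ⊢
  exact (marg_anti _ (sup_le_sup_left (spn_mono _ h) _) _).trans_lt ht

theorem ohit_mem_cl {Γ : Finset T} (h : σ.Free Γ) {t : T} (ht : t ∈ Γ ∨ ¬ σ.Free (insert t Γ)) :
    t ∈ σ.cl Γ := by
  by_cases h1 : t ∈ Γ
  · exact mem_union_left _ h1
  · refine mem_union_right _ ?_
    simp only [mem_filter, mem_univ, true_and]
    have h2 := ht.resolve_left h1
    rw [σ.free_insert_iff h h1] at h2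
    exact lt_of_le_of_ne (marg_anti _ le_sup_left _) h2

theorem ohit_not_mem {G : Finset T} {i : T} (hi : ¬ σ.Moved G i) : i ∉ G := by
  intro h
  have h1 := σ.marg_unmoved hi
  have h2 : (σ.U ⊔ spn σ.lam G) ⊔ Submodule.span (ZMod p) {σ.lam i} = σ.U ⊔ spn σ.lam G := by
    refine sup_eq_left.2 ?_
    rw [Submodule.span_singleton_le_iff_mem]
    exact Submodule.mem_sup_right (mem_spn _ h)
  rw [marg, h2, Nat.sub_self] at h1
  have := σ.one_le_CH
  omega

theorem ohit_free_insert {G : Finset T} (hG : σ.Free G) {i : T} (hi : i ∉ G)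
    (h : marg σ.CH (σ.U ⊔ spn σ.lam G) (σ.lam i) = σ.CH) : σ.Free (insert i G) := by
  rw [σ.free_insert_iff hG hi, h]
  refine le_antisymm ?_ (marg_le _ _ _)
  exact h.symm.le.trans (marg_anti _ le_sup_left _)

/-- a largest free extension of `G` inside `W`. -/
theorem ohit_max {G : Finset T} (hG : σ.Free G) (W : Finset T) :
    ∃ F, F ⊆ W ∧ σ.Free (G ∪ F) ∧ W ⊆ σ.cl (G ∪ F) := by
  obtain ⟨F, hF, hm⟩ := exists_max_image (W.powerset.filter (fun F => σ.Free (G ∪ F))) card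
    ⟨∅, mem_filter.2 ⟨empty_mem_powerset _, by rwa [union_empty]⟩⟩
  rw [mem_filter, mem_powerset] at hF
  refine ⟨F, hF.1, hF.2, fun t ht => σ.ohit_mem_cl hF.2 ?_⟩
  by_cases h1 : t ∈ F
  · exact Or.inl (mem_union_right _ h1)
  · refine Or.inr fun h2 => ?_
    have h3 := hm (insert t F) (mem_filter.2 ⟨mem_powerset.2 (insert_subset ht hF.1),
      by rwa [union_insert]⟩)
    rw [card_insert_of_notMem h1] at h3
    omega

variable {σ} {Seq : Finset T}

theorem SeqOK.costly_count (hS : σ.SeqOK Seq) {a : Finset X} (ha : a ⊆ σ.Y) {C' : ℕ} (hC : 1 ≤ C')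
    (h5 : SafeOn a (2 * C') ((σ.U ⊔ spn σ.lam Seq).map (off σ.Yᶜ))) (G : Finset T) {q : ℝ}
    (hq : 0 ≤ q) {t : ℕ} (ht1 : 1 ≤ t) (ht : Fintype.card T < 2 ^ t) :
    ((Seq.filter (fun i => DA.Costly q 1 (σ.Fam a C' G i))).card : ℝ) ≤
      6 * C' * (σ.K1 + 1) * (G.card + 64 * t * q * Fintype.card T + 2) := by
  obtain ⟨R, -, h2, h3⟩ := DA.pp_select hq (univ : Finset T) t ht1
    (Seq.filter (fun i => DA.Costly q 1 (σ.Fam a C' G i))) (σ.Fam a C' G)
    (fun i _ B _ => ⟨subset_univ _, (card_le_univ B).trans_lt ht⟩)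
    (fun i hi => (mem_filter.1 hi).2)
  have h4 := hS.hit_count ha hC h5 (σ.cl (G ∪ R))
  have h6 := h3.trans (Nat.mul_le_mul_left 2 ((card_le_card (fun i hi => by
    simp only [mem_filter] at hi ⊢
    obtain ⟨⟨h7, -⟩, B, hB, hBR⟩ := hi
    refine ⟨h7, σ.hit_mono a C' i (sup_le_sup_left (spn_mono _ (σ.cl_mono
      (union_subset_union_right hBR))) _) ?_⟩
    simp only [Fam, mem_filter] at hB
    exact hB.2.2)).trans h4))
  have h7 := (σ.card_cl (G ∪ R)).trans (Nat.mul_le_mul_left _ (card_union_le G R))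
  have h8 := h6.trans (Nat.mul_le_mul_left 2 (Nat.mul_le_mul_left _ h7))
  have h9 : ((Seq.filter (fun i => DA.Costly q 1 (σ.Fam a C' G i))).card : ℝ) ≤
      2 * (3 * C' * ((σ.K1 + 1) * (G.card + R.card))) := by exact_mod_cast h8
  rw [card_univ] at h2
  refine h9.trans ?_
  have h10 : (0 : ℝ) ≤ 6 * C' * (σ.K1 + 1) := by positivity
  have h11 := mul_le_mul_of_nonneg_left (show (G.card + R.card : ℝ) ≤
    G.card + 64 * t * q * Fintype.card T + 2 by linarith) h10
  linarith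

theorem cheap_le {Ω : Type} (s : Finset Ω) (R : Ω → Finset T) {G : Finset T} (hG : σ.Free G)
    (hGR : ∀ x ∈ s, G ⊆ R x) {π q : ℝ} (hπ : 0 ≤ π) (hq : 4 * π ≤ q) (hq0 : 0 < q) (hq1 : q ≤ 1)
    (hF : ∀ F, Disjoint G F → σ.Free (G ∪ F) → pr s (fun x => F ⊆ R x) ≤ (4 * π) ^ F.card)
    (a : Finset X) (C' : ℕ) {i : T} (hi : ¬ σ.Moved G i)
    (hc : ¬ DA.Costly q 1 (σ.Fam a C' G i)) :
    pr s (fun x => i ∈ R x ∧ (∀ t ∈ σ.Mid i, t ∉ σ.LCl i → t ∉ R x) ∧
      σ.Hit a C' i (σ.U ⊔ spn σ.lam (R x \ σ.LCl i))) ≤ (4 * π / q) ^ 2 := by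
  simp only [DA.Costly, not_forall, not_le] at hc
  obtain ⟨U, -, hU2, hU3⟩ := hc
  have hiG := σ.ohit_not_mem hi
  have h0 : 0 ≤ 4 * π / q := by positivity
  have h1 : 4 * π / q ≤ 1 := (div_le_one hq0).2 hq
  let U1 := U.filter (fun H => Disjoint G H ∧ σ.Free (G ∪ H) ∧ Disjoint H (σ.Mid i))
  have a1 : pr s (fun x => i ∈ R x ∧ (∀ t ∈ σ.Mid i, t ∉ σ.LCl i → t ∉ R x) ∧
      σ.Hit a C' i (σ.U ⊔ spn σ.lam (R x \ σ.LCl i))) ≤
      pr s (fun x => ∃ H ∈ U1, H ⊆ R x ∧ i ∈ R x) := by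
    refine pr_mono s fun x _ hx => ?_
    obtain ⟨b1, b2, b3⟩ := hx
    obtain ⟨F, c1, c2, c3⟩ := σ.ohit_max hG (R x \ (σ.Mid i ∪ G))
    have c4 : Disjoint F (σ.Mid i ∪ G) := sdiff_disjoint.mono_left c1
    have c5 : R x \ σ.LCl i ⊆ σ.cl (G ∪ F) := by
      intro t ht
      rw [mem_sdiff] at ht
      by_cases htG : t ∈ G
      · exact mem_union_left _ (mem_union_left _ htG)
      · refine c3 (mem_sdiff.2 ⟨ht.1, fun h => ?_⟩)
        rcases mem_union.1 h with h | h
        · exact b2 t h ht.2 ht.1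
        · exact htG h
    have c6 : F ∈ σ.Fam a C' G i := by
      simp only [Fam, mem_filter, mem_univ, true_and]
      exact ⟨c4.mono_right subset_union_left,
        σ.hit_mono a C' i (sup_le_sup_left (spn_mono _ c5) _) b3⟩
    obtain ⟨H, d1, d2⟩ := hU2 F c6
    refine ⟨H, mem_filter.2 ⟨d1, ((c4.mono_right subset_union_right).mono_left d2).symm,
      σ.free_subset c2 (union_subset_union_right d2),
      (c4.mono_right subset_union_left).mono_left d2⟩,
      d2.trans (c1.trans sdiff_subset), b1⟩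
  have a2 : ∀ H ∈ U1, pr s (fun x => H ⊆ R x ∧ i ∈ R x) ≤ (4 * π / q) ^ 2 * q ^ H.card := by
    intro H hH
    obtain ⟨b0, b1, b2, b3⟩ := mem_filter.1 hH
    have c0 : q ^ H.card < 1 :=
      (single_le_sum (f := fun H : Finset T => q ^ H.card) (fun _ _ => by positivity) b0).trans_lt
        hU3
    rcases Nat.lt_or_ge H.card 2 with h2 | h2
    · have c1 : H.card = 1 := by
        have : H.card ≠ 0 := fun h => by
          rw [h, pow_zero] at c0
          exact lt_irrefl _ c0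
        omega
      obtain ⟨t, rfl⟩ := card_eq_one.1 c1
      have c2 : t ∉ σ.Mid i := disjoint_singleton_left.1 b3
      have c3 : i ≠ t := fun h => c2 (h ▸ σ.self_mem_Mid i)
      have c4 : G ∪ {t} = insert t G := by
        rw [union_comm]
        rfl
      have c5 : σ.Free (insert i (insert t G)) := by
        refine σ.ohit_free_insert (c4 ▸ b2) ?_ (σ.marg_unmoved_insert hi c2)
        rw [mem_insert, not_or]
        exact ⟨c3, hiG⟩
      have c6 := hF (insert i {t}) (disjoint_insert_right.2 ⟨hiG, b1⟩)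
        (by rwa [union_insert, c4])
      rw [card_pair c3] at c6
      refine ((pr_mono s fun x _ hx => insert_subset hx.2 hx.1).trans c6).trans ?_
      rw [card_singleton, pow_one]
      have c7 : (4 * π) ^ 2 = (4 * π / q) ^ 2 * q * q := by field_simp
      rw [c7]
      exact mul_le_of_le_one_right (by positivity) hq1
    · refine ((pr_mono s fun x _ hx => hx.1).trans (hF H b1 b2)).trans ?_
      have c7 : (4 * π) ^ H.card = (4 * π / q) ^ H.card * q ^ H.card := by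
        rw [← mul_pow, div_mul_cancel₀ _ hq0.ne']
      rw [c7]
      exact mul_le_mul_of_nonneg_right (pow_le_pow_of_le_one h0 h1 h2) (by positivity)
  refine a1.trans ((pr_exists_le s U1 _).trans ((sum_le_sum a2).trans ?_))
  rw [← mul_sum]
  refine mul_le_of_le_one_right (by positivity) (le_trans ?_ hU3.le)
  exact sum_le_sum_of_subset_of_nonneg (filter_subset _ _) fun _ _ _ => by positivity

omit [Fintype T] in
theorem ohit_expect_card {Ω : Type} (s : Finset Ω) (I : Finset T) (P : T → Ω → Prop) :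
    s.expect (fun x => ((I.filter (fun i => P i x)).card : ℝ)) = ∑ i ∈ I, pr s (P i) := by
  simp only [pr, ← expect_sum_comm]
  refine expect_congr rfl fun x _ => ?_
  rw [card_filter]
  push_cast
  rfl

theorem SeqOK.hit_expect (hS : σ.SeqOK Seq) {a : Finset X} (ha : a ⊆ σ.Y) {C' : ℕ} (hC : 1 ≤ C')
    (h5 : SafeOn a (2 * C') ((σ.U ⊔ spn σ.lam Seq).map (off σ.Yᶜ))) {Ω : Type} (s : Finset Ω)
    (R : Ω → Finset T) {G : Finset T} (hG : σ.Free G) (hGR : ∀ x ∈ s, G ⊆ R x) {π q : ℝ}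
    (hπ : 0 ≤ π) (hq : 4 * π ≤ q) (hq0 : 0 < q) (hq1 : q ≤ 1)
    (hF : ∀ F, Disjoint G F → σ.Free (G ∪ F) → pr s (fun x => F ⊆ R x) ≤ (4 * π) ^ F.card)
    {t : ℕ} (ht1 : 1 ≤ t) (ht : Fintype.card T < 2 ^ t) :
    s.expect (fun x => ((Seq.filter (fun i => i ∈ R x ∧ (∀ t ∈ σ.Mid i, t ∉ σ.LCl i → t ∉ R x) ∧
      σ.Hit a C' i (σ.U ⊔ spn σ.lam (R x \ σ.LCl i)))).card : ℝ)) ≤
      σ.K * G.card + 4 * π * (6 * C' * (σ.K1 + 1) * (G.card + 64 * t * q * Fintype.card T + 2)) +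
        Seq.card * (4 * π / q) ^ 2 := by
  have a0 := ohit_expect_card s Seq (fun i x => i ∈ R x ∧ (∀ t ∈ σ.Mid i, t ∉ σ.LCl i → t ∉ R x) ∧
      σ.Hit a C' i (σ.U ⊔ spn σ.lam (R x \ σ.LCl i)))
  have a1 : ∀ i ∈ Seq, pr s (fun x => i ∈ R x ∧ (∀ t ∈ σ.Mid i, t ∉ σ.LCl i → t ∉ R x) ∧
      σ.Hit a C' i (σ.U ⊔ spn σ.lam (R x \ σ.LCl i))) ≤
      (if σ.Moved G i then (1 : ℝ) else 0) +
        4 * π * (if DA.Costly q 1 (σ.Fam a C' G i) then (1 : ℝ) else 0) + (4 * π / q) ^ 2 := by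
    intro i _
    have b0 : 0 ≤ (4 * π / q) ^ 2 := by positivity
    by_cases h1 : σ.Moved G i
    · rw [if_pos h1]
      refine (pr_le_one _ _).trans ?_
      have : 0 ≤ 4 * π * (if DA.Costly q 1 (σ.Fam a C' G i) then (1 : ℝ) else 0) := by
        split_ifs <;> positivity
      linarith
    · rw [if_neg h1]
      by_cases h2 : DA.Costly q 1 (σ.Fam a C' G i)
      · rw [if_pos h2]
        have hiG := σ.ohit_not_mem h1
        have c4 : G ∪ {i} = insert i G := by
          rw [union_comm]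
          rfl
        have c5 := hF {i} (disjoint_singleton_right.2 hiG)
          (c4 ▸ σ.ohit_free_insert hG hiG (σ.marg_unmoved h1))
        rw [card_singleton, pow_one] at c5
        refine ((pr_mono s fun x _ hx => singleton_subset_iff.2 hx.1).trans c5).trans ?_
        linarith
      · rw [if_neg h2]
        have := cheap_le s R hG hGR hπ hq hq0 hq1 hF a C' h1 h2
        linarith
  have a2 := sum_le_sum a1
  rw [sum_add_distrib, sum_add_distrib, ← mul_sum, sum_boole, sum_boole, sum_const,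
    nsmul_eq_mul] at a2
  have a3 := hS.costly_count ha hC h5 G hq0.le ht1 ht
  have a4 : (Seq.filter (fun i => σ.Moved G i)).card ≤ σ.K * G.card := by
    refine le_trans (card_le_card fun i hi => ?_) (σ.e3 G)
    simp only [mem_filter, mem_univ, true_and] at hi ⊢
    exact ⟨(hS i hi.1).1, hi.2⟩
  have a5 : ((Seq.filter (fun i => σ.Moved G i)).card : ℝ) ≤ σ.K * G.card := by exact_mod_cast a4
  have a6 := mul_le_mul_of_nonneg_left a3 (show 0 ≤ 4 * π by positivity)
  refine le_trans (le_of_eq ?_) (a0.le.trans (a2.trans (by linarith)))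
  refine expect_congr rfl fun x _ => ?_
  congr

end Ext

end Pool.Agent.P.MP_85fe51_lc.OD
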