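import Pool.Agent.P.MP_85fe51_lc.OProb

set_option autoImplicit false

namespace Pool.Agent.P.MP_85fe51_lc.OD

open Finset
open scoped Classical

/-- density restoring. -/
theorem restore {Ω T : Type} [Fintype T] (s : Finset Ω) (R : Ω → Finset T) (Fr : Finset T → Prop)
    (h0 : Fr ∅) {π : ℝ} (hπ0 : 0 < π) (hπ : 4 * π ≤ 1)
    (hF : ∀ F, Fr F → pr s (fun x => F ⊆ R x) ≤ (2 * π) ^ F.card) (Bad : Ω → Prop) {v : ℕ}
    (hB : (1 / 2 : ℝ) ^ v ≤ pr s Bad) :
    ∃ G, Fr G ∧ G.card ≤ v ∧ (2 * π) ^ v ≤ pr s (fun x => Bad x ∧ G ⊆ R x) ∧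
      ∀ F, Disjoint G F → Fr (G ∪ F) →
        pr (s.filter (fun x => Bad x ∧ G ⊆ R x)) (fun x => F ⊆ R x) ≤ (4 * π) ^ F.card := by
  have h4 : (0 : ℝ) < 4 * π := by linarith
  obtain ⟨G, hG, hmax⟩ := Finset.exists_max_image (univ.filter Fr)
    (fun G : Finset T => pr s (fun x => Bad x ∧ G ⊆ R x) / (4 * π) ^ G.card)
    ⟨∅, by simp [h0]⟩
  have hGF : Fr G := (mem_filter.mp hG).2
  have hp : (0 : ℝ) < (4 * π) ^ G.card := pow_pos h4 _
  have h1 : (1 / 2 : ℝ) ^ v * (4 * π) ^ G.card ≤ pr s (fun x => Bad x ∧ G ⊆ R x) := by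
    have h := hmax ∅ (by simp [h0])
    simp only [card_empty, pow_zero, div_one] at h
    have h2 : pr s Bad ≤ pr s (fun x => Bad x ∧ (∅ : Finset T) ⊆ R x) :=
      pr_mono s (fun x _ hx => ⟨hx, empty_subset _⟩)
    exact (le_div_iff₀ hp).mp (hB.trans (h2.trans h))
  have h2 : pr s (fun x => Bad x ∧ G ⊆ R x) ≤ (1 / 2 : ℝ) ^ G.card * (4 * π) ^ G.card := by
    have h3 : pr s (fun x => Bad x ∧ G ⊆ R x) ≤ pr s (fun x => G ⊆ R x) :=
      pr_mono s (fun x _ hx => hx.2)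
    have h5 : (1 / 2 : ℝ) ^ G.card * (4 * π) ^ G.card = (2 * π) ^ G.card := by
      rw [← mul_pow]
      congr 1
      ring
    rw [h5]
    exact h3.trans (hF G hGF)
  have hcard : G.card ≤ v := by
    have h3 : (1 / 2 : ℝ) ^ v ≤ (1 / 2 : ℝ) ^ G.card := le_of_mul_le_mul_right (h1.trans h2) hp
    exact (pow_le_pow_iff_right_of_lt_one₀ (by norm_num) (by norm_num)).mp h3
  have h6 : (2 * π) ^ v ≤ pr s (fun x => Bad x ∧ G ⊆ R x) := by
    have h5 : (2 * π) ^ v = (1 / 2 : ℝ) ^ v * (4 * π) ^ v := by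
      rw [← mul_pow]
      congr 1
      ring
    rw [h5]
    refine le_trans ?_ h1
    exact mul_le_mul_of_nonneg_left (pow_le_pow_of_le_one h4.le hπ hcard) (by positivity)
  refine ⟨G, hGF, hcard, h6, ?_⟩
  intro F hd hU
  have hpos : 0 < pr s (fun x => Bad x ∧ G ⊆ R x) :=
    lt_of_lt_of_le (pow_pos (by linarith) _) h6
  have h := hmax (G ∪ F) (mem_filter.mpr ⟨mem_univ _, hU⟩)
  rw [card_union_of_disjoint hd, pow_add, div_le_div_iff₀ (mul_pos hp (pow_pos h4 _)) hp] at h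
  have h7 : pr s (fun x => (Bad x ∧ G ⊆ R x) ∧ F ⊆ R x) ≤
      pr s (fun x => Bad x ∧ G ∪ F ⊆ R x) :=
    pr_mono s (fun x _ hx => ⟨hx.1.1, union_subset hx.1.2 hx.2⟩)
  have h8 := pr_filter s (fun x => Bad x ∧ G ⊆ R x) (fun x => F ⊆ R x)
  rw [h8] at h7
  have h9 : pr s (fun x => Bad x ∧ G ∪ F ⊆ R x) ≤
      pr s (fun x => Bad x ∧ G ⊆ R x) * (4 * π) ^ F.card := by
    refine le_of_mul_le_mul_right (h.trans (le_of_eq ?_)) hp
    ring
  have h10 := le_of_mul_le_mul_left (h7.trans h9) hpos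
  have h11 : ∀ (d1 d2 : DecidablePred (fun x => Bad x ∧ G ⊆ R x)),
      @Finset.filter _ _ d1 s = @Finset.filter _ _ d2 s := fun d1 d2 => by
    congr
  rw [h11 _ _] at h10
  exact h10

theorem pr_large {Ω : Type} (s : Finset Ω) (f : Ω → ℝ) (hf : ∀ x ∈ s, f x ≤ 1) {b : ℝ}
    (hb : 0 ≤ b) (h : 2 * b ≤ s.expect f) : b ≤ pr s (fun x => b ≤ f x) := by
  rcases s.eq_empty_or_nonempty with hs | hs
  · subst hs
    rw [expect_empty] at h
    have := pr_nonneg (∅ : Finset Ω) (fun x => b ≤ f x)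
    linarith
  · have h1 : s.expect f ≤ s.expect (fun x => b + if b ≤ f x then (1 : ℝ) else 0) := by
      refine expect_le_expect (fun x hx => ?_)
      by_cases hc : b ≤ f x
      · rw [if_pos hc]
        linarith [hf x hx]
      · rw [if_neg hc]
        linarith [not_le.mp hc]
    rw [expect_add_distrib, expect_const hs] at h1
    have h2 : pr s (fun x => b ≤ f x) = s.expect (fun x => if b ≤ f x then (1 : ℝ) else 0) := by
      unfold pr
      refine expect_congr rfl (fun x _ => ?_)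
      by_cases hc : b ≤ f x
      · simp only [if_pos hc]
      · simp only [if_neg hc]
    rw [h2]
    linarith

/-- the final counting of the bias lemma. -/
theorem count_contra {Ω : Type} (s : Finset Ω) (Bs : Ω → Prop) (nA nb : Ω → ℕ) {P0 y y1 μ : ℝ}
    (hP0 : 0 < P0) (hP : P0 ≤ pr s Bs) (hy : 0 < y)
    (hb : (s.filter Bs).expect (fun x => (nb x : ℝ)) ≤ y / 2)
    (hA : ∀ x ∈ s, Bs x → (nA x : ℝ) ≤ nb x + y1)
    (hE : s.expect (fun x => (1 / 2 : ℝ) ^ nA x) ≤ Real.exp (-μ)) (hy1 : 0 ≤ y1) :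
    P0 / 2 ≤ Real.exp (y + y1 - μ) := by
  have hne : (s.filter Bs).Nonempty := by
    rcases (s.filter Bs).eq_empty_or_nonempty with h | h
    · exfalso
      rw [pr_eq_card, h] at hP
      simp at hP
      linarith
    · exact h
  have h1 := pr_markov (s.filter Bs) (fun x => (nb x : ℝ)) (fun x _ => Nat.cast_nonneg _) y
  have h2 : pr (s.filter Bs) (fun x => y ≤ (nb x : ℝ)) ≤ 1 / 2 := by
    refine le_of_mul_le_mul_left (h1.trans (hb.trans (le_of_eq ?_))) hy
    ring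
  have h3 := pr_not (s.filter Bs) hne (fun x => y ≤ (nb x : ℝ))
  have h4 := pr_filter s Bs (fun x => ¬ y ≤ (nb x : ℝ))
  have h5 : P0 / 2 ≤ pr s (fun x => Bs x ∧ ¬ y ≤ (nb x : ℝ)) := by
    rw [h4, h3]
    have : P0 * (1 / 2) ≤ pr s Bs * (1 - pr (s.filter Bs) (fun x => y ≤ (nb x : ℝ))) :=
      mul_le_mul hP (by linarith) (by norm_num) (pr_nonneg _ _)
    linarith
  have h6 := pr_markov s (fun x => (1 / 2 : ℝ) ^ nA x) (fun x _ => by positivity)
    (Real.exp (-(y + y1)))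
  have he : Real.exp (-1) ≤ 1 / 2 := by
    rw [Real.exp_neg, one_div]
    refine inv_anti₀ (by norm_num) ?_
    have := Real.add_one_le_exp 1
    linarith
  have h7 : pr s (fun x => Bs x ∧ ¬ y ≤ (nb x : ℝ)) ≤
      pr s (fun x => Real.exp (-(y + y1)) ≤ (1 / 2 : ℝ) ^ nA x) := by
    refine pr_mono s (fun x hx hh => ?_)
    have a1 := hA x hx hh.1
    have a2 := not_le.mp hh.2
    calc Real.exp (-(y + y1)) ≤ Real.exp ((nA x : ℝ) * (-1)) :=
          Real.exp_le_exp.mpr (by linarith)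
      _ = Real.exp (-1) ^ nA x := Real.exp_nat_mul _ _
      _ ≤ (1 / 2 : ℝ) ^ nA x := pow_le_pow_left₀ (Real.exp_pos _).le he _
  have h8 : Real.exp (-(y + y1)) * (P0 / 2) ≤ Real.exp (-μ) :=
    (mul_le_mul_of_nonneg_left (h5.trans h7) (Real.exp_pos _).le).trans (h6.trans hE)
  have h9 : Real.exp (-μ) = Real.exp (-(y + y1)) * Real.exp (y + y1 - μ) := by
    rw [← Real.exp_add]
    congr 1
    ring
  rw [h9] at h8
  exact le_of_mul_le_mul_left h8 (Real.exp_pos _)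

theorem orest_sum_sub {G : Type} [AddCommGroup G] [Fintype G] (Z : AddSubgroup G)
    (χ : AddChar G ℂ) :
    ∑ z : Z, χ (z : G) = if ∀ z ∈ Z, χ z = 1 then (Nat.card Z : ℂ) else 0 := by
  have h := AddChar.sum_eq_ite (χ.compAddMonoidHom Z.subtype)
  have h1 : (χ.compAddMonoidHom Z.subtype = 0) ↔ ∀ z ∈ Z, χ z = 1 := by
    constructor
    · intro hh z hz
      have := DFunLike.congr_fun hh ⟨z, hz⟩
      simpa using this
    · intro hh
      ext z
      simpa using hh z z.2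
  by_cases hc : ∀ z ∈ Z, χ z = 1
  · rw [if_pos hc, Nat.card_eq_fintype_card]
    rw [if_pos (h1.mpr hc)] at h
    simpa using h
  · rw [if_neg hc]
    rw [if_neg (fun hh => hc (h1.mp hh))] at h
    simpa using h

theorem orest_triv {G : Type} [AddCommGroup G] [Fintype G] (Z : AddSubgroup G) (v : G) :
    (Nat.card Z : ℂ) * ∑ χ : AddChar G ℂ, (if ∀ z ∈ Z, χ z = 1 then χ v else 0) =
      if v ∈ Z then (Fintype.card G : ℂ) else 0 := by
  have h1 : (Nat.card Z : ℂ) * ∑ χ : AddChar G ℂ, (if ∀ z ∈ Z, χ z = 1 then χ v else 0) =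
      ∑ χ : AddChar G ℂ, ∑ z : Z, χ ((z : G) + v) := by
    rw [mul_sum]
    refine sum_congr rfl (fun χ _ => ?_)
    simp only [AddChar.map_add_eq_mul]
    rw [← sum_mul, orest_sum_sub]
    by_cases hc : ∀ z ∈ Z, χ z = 1
    · rw [if_pos hc, if_pos hc]
    · rw [if_neg hc, if_neg hc, mul_zero, zero_mul]
  rw [h1, sum_comm]
  simp only [AddChar.sum_apply_eq_ite]
  by_cases hv : v ∈ Z
  · rw [if_pos hv, sum_eq_single (⟨-v, Z.neg_mem hv⟩ : Z)]
    · simp
    · intro z _ hz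
      rw [if_neg]
      intro h
      exact hz (Subtype.ext (eq_neg_of_add_eq_zero_left h))
    · intro h
      exact absurd (mem_univ _) h
  · rw [if_neg hv]
    refine sum_eq_zero (fun z _ => ?_)
    rw [if_neg]
    intro h
    refine hv ?_
    rw [eq_neg_of_add_eq_zero_right h]
    exact Z.neg_mem z.2

theorem orest_point {G : Type} [AddCommGroup G] [Fintype G] (Z : AddSubgroup G) (v : G) :
    (((if v ∈ Z then (1 : ℝ) else 0) / Nat.card Z - (if v = 0 then (1 : ℝ) else 0) : ℝ) : ℂ) =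
      -(Fintype.card G : ℂ)⁻¹ *
        ∑ χ ∈ univ.filter (fun χ : AddChar G ℂ => ¬ ∀ z ∈ Z, χ z = 1), χ v := by
  have hZ : (Nat.card Z : ℂ) ≠ 0 := Nat.cast_ne_zero.mpr Nat.card_pos.ne'
  have hG : (Fintype.card G : ℂ) ≠ 0 := Nat.cast_ne_zero.mpr Fintype.card_pos.ne'
  have h1 := orest_triv Z v
  have h2 := AddChar.sum_apply_eq_ite v
  have h3 : ∑ χ ∈ univ.filter (fun χ : AddChar G ℂ => ¬ ∀ z ∈ Z, χ z = 1), χ v =
      ∑ χ : AddChar G ℂ, χ v - ∑ χ : AddChar G ℂ, (if ∀ z ∈ Z, χ z = 1 then χ v else 0) := by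
    rw [sum_filter, ← sum_sub_distrib]
    refine sum_congr rfl (fun χ _ => ?_)
    by_cases hc : ∀ z ∈ Z, χ z = 1
    · rw [if_neg (not_not.mpr hc), if_pos hc, sub_self]
    · rw [if_pos hc, if_neg hc, sub_zero]
  have h4 : ∑ χ : AddChar G ℂ, (if ∀ z ∈ Z, χ z = 1 then χ v else 0) =
      (if v ∈ Z then (Fintype.card G : ℂ) else 0) / Nat.card Z := by
    rw [eq_div_iff hZ, mul_comm]
    exact h1
  rw [h3, h2, h4]
  by_cases hv : v ∈ Z <;> by_cases h0 : v = 0 <;>
    simp only [hv, h0, if_true, if_false, Z.zero_mem] <;> push_cast <;> field_simp <;> ring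

/-- a character that is nontrivial on `Z` and biased. -/
theorem exists_char {G : Type} [AddCommGroup G] [Fintype G] (Z : AddSubgroup G) {ι Ω : Type}
    [Fintype ι] (c : ι → ℝ) (hc0 : ∀ l, 0 ≤ c l) (s : ι → Finset Ω) (v : ι → Ω → G) {β δ : ℝ}
    {n : ℕ} (hn : Nat.card Z ≤ n) (hβ : 0 ≤ β) (hδ : 0 ≤ δ)
    (h1 : β ≤ ∑ l, c l * pr (s l) (fun x => v l x ∈ Z))
    (h0 : ∑ l, c l * pr (s l) (fun x => v l x = 0) + δ < β / n) :
    ∃ χ : AddChar G ℂ, (∃ z ∈ Z, χ z ≠ 1) ∧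
      δ ≤ ∑ l, c l * ‖(s l).expect (fun x => χ (v l x))‖ := by
  by_contra hcon
  have hlt : ∀ χ ∈ univ.filter (fun χ : AddChar G ℂ => ¬ ∀ z ∈ Z, χ z = 1),
      ∑ l, c l * ‖(s l).expect (fun x => χ (v l x))‖ ≤ δ := by
    intro χ hχ
    by_contra hh
    refine hcon ⟨χ, ?_, (not_le.mp hh).le⟩
    have h2 := (mem_filter.mp hχ).2
    by_contra h3
    exact h2 (fun z hz => by
      by_contra h4
      exact h3 ⟨z, hz, h4⟩)
  set N := univ.filter (fun χ : AddChar G ℂ => ¬ ∀ z ∈ Z, χ z = 1) with hN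
  have hZ : (0 : ℝ) < Nat.card Z := Nat.cast_pos.mpr Nat.card_pos
  have hG : (0 : ℝ) < Fintype.card G := Nat.cast_pos.mpr Fintype.card_pos
  have hl : ∀ l, pr (s l) (fun x => v l x ∈ Z) / Nat.card Z - pr (s l) (fun x => v l x = 0) ≤
      (Fintype.card G : ℝ)⁻¹ * ∑ χ ∈ N, ‖(s l).expect (fun x => χ (v l x))‖ := by
    intro l
    have e1 : pr (s l) (fun x => v l x ∈ Z) / Nat.card Z - pr (s l) (fun x => v l x = 0) =
        (s l).expect (fun x => (if v l x ∈ Z then (1 : ℝ) else 0) / Nat.card Z -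
          (if v l x = 0 then (1 : ℝ) else 0)) := by
      unfold pr
      rw [expect_sub_distrib, expect_div]
    have e2 : (((s l).expect (fun x => (if v l x ∈ Z then (1 : ℝ) else 0) / Nat.card Z -
          (if v l x = 0 then (1 : ℝ) else 0)) : ℝ) : ℂ) =
        -(Fintype.card G : ℂ)⁻¹ * ∑ χ ∈ N, (s l).expect (fun x => χ (v l x)) := by
      rw [Complex.ofReal_expect, ← expect_sum_comm, mul_expect]
      exact expect_congr rfl (fun x _ => orest_point Z (v l x))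
    rw [e1]
    refine (le_abs_self _).trans ?_
    rw [← Real.norm_eq_abs, ← Complex.norm_real, e2, norm_mul, norm_neg, norm_inv,
      Complex.norm_natCast]
    exact mul_le_mul_of_nonneg_left (norm_sum_le _ _) (inv_nonneg.mpr hG.le)
  have hsum : (∑ l, c l * pr (s l) (fun x => v l x ∈ Z)) / Nat.card Z -
      ∑ l, c l * pr (s l) (fun x => v l x = 0) ≤
      (Fintype.card G : ℝ)⁻¹ * ∑ χ ∈ N, ∑ l, c l * ‖(s l).expect (fun x => χ (v l x))‖ := by
    rw [sum_comm, mul_sum, sum_div, ← sum_sub_distrib]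
    refine sum_le_sum (fun l _ => ?_)
    have := mul_le_mul_of_nonneg_left (hl l) (hc0 l)
    rw [← mul_sum]
    calc _ = c l * (pr (s l) (fun x => v l x ∈ Z) / Nat.card Z -
          pr (s l) (fun x => v l x = 0)) := by ring
      _ ≤ _ := this
      _ = _ := by ring
  have hNc : (N.card : ℝ) ≤ Fintype.card G := by
    have : N.card ≤ Fintype.card (AddChar G ℂ) := card_le_univ _
    rw [AddChar.card_eq] at this
    exact_mod_cast this
  have hb : (Fintype.card G : ℝ)⁻¹ * ∑ χ ∈ N, ∑ l, c l * ‖(s l).expect (fun x => χ (v l x))‖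
      ≤ δ := by
    have a1 : ∑ χ ∈ N, ∑ l, c l * ‖(s l).expect (fun x => χ (v l x))‖ ≤ N.card * δ := by
      have := sum_le_card_nsmul N _ δ hlt
      rwa [nsmul_eq_mul] at this
    rw [inv_mul_le_iff₀ hG]
    exact a1.trans (mul_le_mul_of_nonneg_right hNc hδ)
  have hq : β / n ≤ (∑ l, c l * pr (s l) (fun x => v l x ∈ Z)) / Nat.card Z :=
    (div_le_div_of_nonneg_left hβ hZ (by exact_mod_cast hn)).trans
      (div_le_div_of_nonneg_right h1 hZ.le)
  linarith

theorem faithful_quot {N : Type} [AddCommGroup N] [Fintype N] (ψ : AddChar N ℂ) :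
    ∃ (V : Type) (_ : AddCommGroup V) (_ : Fintype V) (q : N →+ V) (ψ' : AddChar V ℂ),
      (∀ v : V, Fintype.card N • v = 0) ∧ (∀ n, ψ' (q n) = ψ n) ∧ ∀ v, ψ' v = 1 → v = 0 := by
  let K : AddSubgroup N :=
    { carrier := {n | ψ n = 1}
      add_mem' := by
        intro a b ha hb
        have ha' : ψ a = 1 := ha
        have hb' : ψ b = 1 := hb
        show ψ (a + b) = 1
        rw [AddChar.map_add_eq_mul, ha', hb', mul_one]
      zero_mem' := ψ.map_zero_eq_one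
      neg_mem' := by
        intro a ha
        have ha' : ψ a = 1 := ha
        show ψ (-a) = 1
        rw [AddChar.map_neg_eq_inv, ha', inv_one] }
  have hwd : ∀ a b : N, (QuotientAddGroup.leftRel K) a b → ψ a = ψ b := by
    intro a b hab
    have h1 : ψ (-a + b) = 1 := QuotientAddGroup.leftRel_apply.mp hab
    have h2 : ψ b = ψ a * ψ (-a + b) := by
      rw [← AddChar.map_add_eq_mul, add_neg_cancel_left]
    rw [h2, h1, mul_one]
  let ψ' : AddChar (N ⧸ K) ℂ :=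
    { toFun := fun x => Quotient.liftOn' x ψ hwd
      map_zero_eq_one' := ψ.map_zero_eq_one
      map_add_eq_mul' := by
        intro a b
        obtain ⟨a, rfl⟩ := QuotientAddGroup.mk_surjective a
        obtain ⟨b, rfl⟩ := QuotientAddGroup.mk_surjective b
        exact ψ.map_add_eq_mul a b }
  refine ⟨N ⧸ K, inferInstance, Fintype.ofFinite _, QuotientAddGroup.mk' K, ψ', ?_, ?_, ?_⟩
  · intro v
    obtain ⟨a, rfl⟩ := QuotientAddGroup.mk_surjective v
    rw [← QuotientAddGroup.mk_nsmul, card_nsmul_eq_zero]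
    rfl
  · intro n
    rfl
  · intro v hv
    obtain ⟨a, rfl⟩ := QuotientAddGroup.mk_surjective v
    exact (QuotientAddGroup.eq_zero_iff a).mpr hv

end Pool.Agent.P.MP_85fe51_lc.OD
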