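import Pool.Agent.P.MP_85fe51_lc.OFour
import Pool.Agent.P.MP_85fe51_lc.OVal

set_option autoImplicit false

namespace Pool.Agent.P.MP_85fe51_lc.OD

open Finset
open scoped Classical

variable {p : ℕ} [Fact p.Prime] {X : Type} [Fintype X] [DecidableEq X]

theorem ou1_norm_le {ι : Type} (s : Finset ι) (hs : s.Nonempty) (f : ι → ℂ) (b : ℝ)
    (h : ∀ i ∈ s, ‖f i‖ ≤ b) : ‖s.expect f‖ ≤ b :=
  (RCLike.norm_expect_le (K := ℂ)).trans (Finset.expect_le hs h)

theorem ou1_term {m c : ℕ} {θ : ℝ} (hθ : ThB p m c θ) {V : Type} [AddCommGroup V]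
    (hV : ∀ v : V, m • v = 0) (τ : AddChar V ℂ) {a a2 : Finset X} (ha : a2 ⊆ a)
    (F : Finset X → V)
    (hF : ∀ B, B ⊆ a \ a2 → DL ⊥ (fun _ => True) (c + 1) a2 (fun A => F (B ∪ A))) (μ : Vec p X) :
    ‖a.powerset.expect (fun A => τ (F A) * ch (dot μ A))‖ ≤ θ ^ (supp μ ∩ a2).card := by
  have h1 : a = (a \ a2) ∪ a2 := (Finset.sdiff_union_of_subset ha).symm
  rw [h1, expect_powerset_union Finset.sdiff_disjoint]
  refine ou1_norm_le _ (Finset.powerset_nonempty _) _ _ fun B hB => ?_
  have hB' := Finset.mem_powerset.mp hB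
  have h2 : a2.powerset.expect (fun A => τ (F (B ∪ A)) * ch (dot μ (B ∪ A))) =
      ch (dot μ B) * a2.powerset.expect (fun A => τ (F (B ∪ A)) * ch (dot μ A)) := by
    rw [Finset.mul_expect]
    refine Finset.expect_congr rfl fun A hA => ?_
    have hd : Disjoint B A := Finset.disjoint_of_subset_left hB'
      (Finset.disjoint_of_subset_right (Finset.mem_powerset.mp hA) Finset.sdiff_disjoint)
    rw [dot_union μ hd, ch_add]
    ring
  rw [h2, norm_mul, norm_ch, one_mul]
  exact hθ.2.2 X V hV τ a2 _ μ (hF B hB')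

theorem ou1_enum {θ : ℝ} (h0 : 0 ≤ θ) {H : Sub p X} {lam : Vec p X} (hl : lam ∉ H)
    (a : Finset X) :
    ∑ z ∈ elts H ×ˢ (univ : Finset (ZMod p)), θ ^ (supp (z.2 • lam + z.1) ∩ a).card ≤
      enum θ (H ⊔ Submodule.span (ZMod p) {lam}) a := by
  have hinj : Set.InjOn (fun z : Vec p X × ZMod p => z.2 • lam + z.1)
      (elts H ×ˢ (univ : Finset (ZMod p)) : Finset (Vec p X × ZMod p)) := by
    intro z hz z' hz' h
    have h1 : z.1 ∈ H := mem_elts.mp (Finset.mem_product.mp (Finset.mem_coe.mp hz)).1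
    have h2 : z'.1 ∈ H := mem_elts.mp (Finset.mem_product.mp (Finset.mem_coe.mp hz')).1
    have h' : z.2 • lam + z.1 = z'.2 • lam + z'.1 := h
    have h3 : z.2 = z'.2 := by
      by_contra hne
      have h4 : (z.2 - z'.2) • lam = z'.1 - z.1 := by
        rw [sub_smul, sub_eq_sub_iff_add_eq_add, h', add_comm]
      exact hl ((H.smul_mem_iff (sub_ne_zero.mpr hne)).mp (h4 ▸ H.sub_mem h2 h1))
    rw [h3] at h'
    exact Prod.ext (add_left_cancel h') h3
  rw [← Finset.sum_image (f := fun η : Vec p X => θ ^ (supp η ∩ a).card) hinj, enum]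
  refine Finset.sum_le_sum_of_subset_of_nonneg ?_ fun _ _ _ => pow_nonneg h0 _
  intro η hη
  obtain ⟨z, hz, rfl⟩ := Finset.mem_image.mp hη
  have h1 : z.1 ∈ H := mem_elts.mp (Finset.mem_product.mp hz).1
  exact mem_elts.mpr (Submodule.add_mem _
    (Submodule.mem_sup_right (Submodule.smul_mem _ _ (Submodule.mem_span_singleton_self lam)))
    (Submodule.mem_sup_left h1))

theorem ou1_arith {S M : ℂ} {N ε : ℝ} (hε : ε ≤ 1 / 3) (h1 : ‖S - M‖ ≤ ε) (hM : ‖M‖ ≤ 1)
    (h2 : 1 - ε ≤ N) (h3 : N ≤ 1 + ε) : ‖S / N - M‖ ≤ 3 * ε := by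
  have hε0 : 0 ≤ ε := (norm_nonneg _).trans h1
  have hN : 0 < N := by linarith
  have hN' : (N : ℂ) ≠ 0 := by exact_mod_cast hN.ne'
  have h4 : S / N - M = ((S - M) + M * ((1 - N : ℝ) : ℂ)) / N := by
    push_cast
    field_simp
    ring
  have h5 : ‖M * ((1 - N : ℝ) : ℂ)‖ ≤ 1 * ε := by
    rw [norm_mul, Complex.norm_real, Real.norm_eq_abs]
    exact mul_le_mul hM (abs_le.mpr ⟨by linarith, by linarith⟩) (abs_nonneg _) zero_le_one
  rw [h4, norm_div, Complex.norm_real, Real.norm_of_nonneg hN.le, div_le_iff₀ hN]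
  have h6 := norm_add_le (S - M) (M * ((1 - N : ℝ) : ℂ))
  have h7 : 3 * ε * (2 / 3) ≤ 3 * ε * N := mul_le_mul_of_nonneg_left (by linarith) (by linarith)
  linarith

theorem ou1_core {m c : ℕ} {θ : ℝ} (hθ : ThB p m c θ) {V : Type} [AddCommGroup V] [Fintype V]
    (hV : ∀ v : V, m • v = 0) (τ : AddChar V ℂ) {H : Sub p X} {a a2 : Finset X} (A0 : Finset X)
    (ha : a2 ⊆ a) {lam : Vec p X} (hl : lam ∉ H) {ε : ℝ} (hε : ε ≤ 1 / 3)
    (he : enum θ (H ⊔ Submodule.span (ZMod p) {lam}) a2 ≤ 1 + ε) (c0 : ZMod p)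
    (h : ZMod p → ℂ) (hh : ∀ s, ‖h s‖ ≤ 1) (F : Finset X → ZMod p → V)
    (hF : ∀ s B, B ⊆ a \ a2 → DL ⊥ (fun _ => True) (c + 1) a2 (fun A => F (B ∪ A) s)) :
    ‖(fib H a A0).expect (fun A => h (c0 + dot lam A) * τ (F A (c0 + dot lam A))) -
      (univ : Finset (ZMod p)).expect (fun s => h s * a.powerset.expect (fun A => τ (F A s)))‖ ≤
      3 * ε := by
  have h0 : 0 ≤ θ := hθ.1
  set M : ℂ :=
    (univ : Finset (ZMod p)).expect (fun s => h s * a.powerset.expect (fun A => τ (F A s))) with hM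
  set g : Finset X → ℂ := fun A => h (c0 + dot lam A) * τ (F A (c0 + dot lam A)) with hg
  set Tm : Vec p X × ZMod p → ℂ := fun z => ch (-dot z.1 A0) * ch (z.2 * c0) *
    (univ : Finset (ZMod p)).expect (fun s => ch (-(z.2 * s)) * h s *
      a.powerset.expect (fun A => τ (F A s) * ch (dot (z.2 • lam + z.1) A))) with hTm
  have hM1 : ‖M‖ ≤ 1 := by
    refine ou1_norm_le _ univ_nonempty _ _ fun s _ => ?_
    rw [norm_mul]
    refine mul_le_one₀ (hh s) (norm_nonneg _) ?_
    exact ou1_norm_le _ (Finset.powerset_nonempty _) _ _ fun A _ => (τ.norm_apply _).le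
  have hT : ∀ z, ‖Tm z‖ ≤ θ ^ (supp (z.2 • lam + z.1) ∩ a2).card := by
    intro z
    simp only [hTm]
    rw [norm_mul, norm_mul, norm_ch, norm_ch, one_mul, one_mul]
    refine ou1_norm_le _ univ_nonempty _ _ fun s _ => ?_
    rw [norm_mul, norm_mul, norm_ch, one_mul]
    exact (mul_le_of_le_one_left (norm_nonneg _) (hh s)).trans
      (ou1_term hθ hV τ ha (fun A => F A s) (hF s) _)
  have hT0 : Tm (0, 0) = M := by
    simp only [hTm, hM, zero_smul, add_zero, dot_zero, zero_mul, neg_zero, ch_zero, one_mul,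
      mul_one]
  have hS : ∑ η ∈ elts H, ch (-dot η A0) * a.powerset.expect (fun A => g A * ch (dot η A)) =
      ∑ z ∈ elts H ×ˢ (univ : Finset (ZMod p)), Tm z := by
    rw [Finset.sum_product]
    refine Finset.sum_congr rfl fun η _ => ?_
    have h1 : ∀ A, g A * ch (dot η A) = ∑ i : ZMod p, ch (i * c0) *
        (univ : Finset (ZMod p)).expect (fun s => ch (-(i * s)) * h s *
          (τ (F A s) * ch (dot (i • lam + η) A))) := by
      intro A
      have h2 := fourier_inv (fun s => h s * τ (F A s)) (c0 + dot lam A)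
      simp only [hg]
      rw [h2, Finset.sum_mul]
      refine Finset.sum_congr rfl fun i _ => ?_
      rw [mul_assoc, Finset.expect_mul, Finset.mul_expect, Finset.mul_expect]
      refine Finset.expect_congr rfl fun s _ => ?_
      rw [dot_add, dot_smul, mul_add, ch_add, ch_add]
      ring
    simp only [h1]
    rw [Finset.expect_sum_comm, Finset.mul_sum]
    refine Finset.sum_congr rfl fun i _ => ?_
    simp only [hTm]
    rw [← Finset.mul_expect, Finset.expect_comm, ← mul_assoc]
    simp only [← Finset.mul_expect]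
  have hmem : ((0 : Vec p X), (0 : ZMod p)) ∈ elts H ×ˢ (univ : Finset (ZMod p)) :=
    Finset.mem_product.mpr ⟨mem_elts.mpr H.zero_mem, mem_univ _⟩
  have hE : ‖∑ z ∈ elts H ×ˢ (univ : Finset (ZMod p)), Tm z - M‖ ≤ ε := by
    rw [← Finset.add_sum_erase _ _ hmem, hT0, add_sub_cancel_left]
    refine (norm_sum_le _ _).trans ((Finset.sum_le_sum fun z _ => hT z).trans ?_)
    have h1 := ou1_enum h0 hl a2
    rw [← Finset.add_sum_erase _ _ hmem] at h1
    have h2 : supp ((0 : ZMod p) • lam + (0 : Vec p X)) ∩ a2 = ∅ := by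
      ext i
      simp [mem_supp]
    simp only [h2, Finset.card_empty, pow_zero] at h1
    linarith
  have hen : enum θ H a ≤ 1 + ε :=
    (enum_anti h0 hθ.2.1.le H ha).trans ((enum_mono h0 le_sup_left a2).trans he)
  have h2a : (0 : ℝ) < 2 ^ a.card := by positivity
  have hle := card_fib_le hθ.thC H a A0
  have hge := card_fib_ge hθ.thC H a A0
  set N : ℝ := (p : ℝ) ^ Module.finrank (ZMod p) ↥H * (fib H a A0).card / 2 ^ a.card with hN
  have hN1 : 1 - ε ≤ N := by
    rw [hN, le_div_iff₀ h2a]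
    exact le_trans (mul_le_mul_of_nonneg_right (by linarith) h2a.le) hge
  have hN2 : N ≤ 1 + ε := by
    rw [hN, div_le_iff₀ h2a]
    exact hle.trans (mul_le_mul_of_nonneg_right hen h2a.le)
  have hp : ((p : ℂ) ^ Module.finrank (ZMod p) ↥H) ≠ 0 :=
    pow_ne_zero _ (by exact_mod_cast (Fact.out : p.Prime).ne_zero)
  have hfin : (fib H a A0).expect g =
      (∑ z ∈ elts H ×ˢ (univ : Finset (ZMod p)), Tm z) / (N : ℂ) := by
    have h1 := sum_fib H a A0 g
    rw [hS] at h1
    have h2 : ((2 : ℂ) ^ a.card) ≠ 0 := pow_ne_zero _ two_ne_zero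
    rw [Finset.expect_eq_sum_div_card, hN]
    push_cast
    rw [div_div_eq_mul_div, mul_comm _ ((2 : ℂ) ^ a.card), ← h1, mul_div_mul_left _ _ hp]
  rw [hfin]
  exact ou1_arith hε hE hM1 hN1 hN2

/-- on a class, the value of a new vector is uniform and independent of a low degree phase. -/
theorem u1_one {m c : ℕ} {θ : ℝ} (hθ : ThB p m c θ) {V : Type} [AddCommGroup V] [Fintype V]
    (hV : ∀ v : V, m • v = 0) (τ : AddChar V ℂ) {H : Sub p X} {J a a2 A0 : Finset X}
    (hJ : co J ≤ H) (ha : a2 ⊆ a) (hA : A0 ⊆ a) {lam : Vec p X} (hl : lam ∉ H) {ε : ℝ}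
    (hε : ε ≤ 1 / 3)
    (he : enum θ ((H ⊔ Submodule.span (ZMod p) {lam}).map (off J)) a2 ≤ 1 + ε)
    (h : ZMod p → ℂ) (hh : ∀ s, ‖h s‖ ≤ 1) (F : Finset X → ZMod p → V)
    (hFJ : ∀ A s, F A s = F (A \ J) s)
    (hF : ∀ s B, Disjoint B a2 → DL ⊥ (fun _ => True) (c + 1) a2 (fun A => F (B ∪ A) s)) :
    ‖(fib H a A0).expect (fun A => h (dot lam A) * τ (F A (dot lam A))) -
      (a.powerset ×ˢ (univ : Finset (ZMod p))).expect (fun z => h z.2 * τ (F z.1 z.2))‖ ≤
      3 * ε := by
  have hl' : off J lam ∉ H.map (off J) := by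
    rw [off_mem_map_iff, sup_eq_left.mpr hJ]
    exact hl
  have he' : enum θ (H.map (off J) ⊔ Submodule.span (ZMod p) {off J lam}) (a2 \ J) ≤ 1 + ε := by
    rw [← enum_sdiff, Submodule.map_sup, Submodule.map_span, Set.image_singleton] at he
    exact he
  have key := ou1_core hθ hV τ (A0 \ J) (Finset.sdiff_subset_sdiff ha (Finset.Subset.refl J)) hl'
    hε he' (dot lam (A0 ∩ J)) h hh F (fun s B hB => (hF s B (by
      rw [Finset.disjoint_left]
      intro i hi hi2
      have h1 := Finset.mem_sdiff.mp (hB hi)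
      exact h1.2 (Finset.mem_sdiff.mpr ⟨hi2, (Finset.mem_sdiff.mp h1.1).2⟩))).mono_set
        Finset.sdiff_subset)
  have h1 : (fib H a A0).expect (fun A => h (dot lam A) * τ (F A (dot lam A))) =
      (fib (H.map (off J)) (a \ J) (A0 \ J)).expect (fun A =>
        h (dot lam (A0 ∩ J) + dot (off J lam) A) *
          τ (F A (dot lam (A0 ∩ J) + dot (off J lam) A))) := by
    rw [expect_fib_off hJ hA]
    refine Finset.expect_congr rfl fun B hB => ?_
    have hBJ : Disjoint B J :=
      Finset.disjoint_of_subset_left (mem_fib.mp hB).1 Finset.sdiff_disjoint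
    have h2 : B \ J = B := Finset.sdiff_eq_self_of_disjoint hBJ
    have h3 : (A0 ∩ J ∪ B) \ J = B := by
      rw [Finset.union_sdiff_distrib, h2,
        Finset.sdiff_eq_empty_iff_subset.mpr Finset.inter_subset_right, Finset.empty_union]
    rw [dot_off, h2, dot_union lam
      (Finset.disjoint_of_subset_left Finset.inter_subset_right hBJ.symm), hFJ (A0 ∩ J ∪ B), h3]
  have h2 : (a.powerset ×ˢ (univ : Finset (ZMod p))).expect (fun z => h z.2 * τ (F z.1 z.2)) =
      (univ : Finset (ZMod p)).expect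
        (fun s => h s * (a \ J).powerset.expect (fun A => τ (F A s))) := by
    rw [Finset.expect_product, Finset.expect_comm]
    refine Finset.expect_congr rfl fun s _ => ?_
    rw [Finset.sdiff_eq_inter_compl, ← expect_powerset_inter a Jᶜ (fun A => τ (F A s))
      (fun A _ => by rw [← Finset.sdiff_eq_inter_compl, ← hFJ]), Finset.mul_expect]
  rw [h1, h2]
  exact key

variable {T : Type} {k j : ℕ}

/-- one term of the alternating sum. -/
def ou1_tm {V : Type} (P : Pat k j) (phi : T → ZMod p → V) (u : T → ZMod p) (d : T → Vec p X)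
    (ε : Fin k → Bool) (t : T) (ω : Cp k j → Finset X × ZMod p) : ZMod p → V :=
  fun y => phi t (u t * (y + sval P (fun κ => (ω κ).2) ε) + val P (d t) (fun κ => (ω κ).1) ε)

theorem ou1_Phi {V : Type} [AddCommGroup V] (P : Pat k j) (phi : T → ZMod p → V) (Tt : Finset T)
    (u : T → ZMod p) (d : T → Vec p X) (ω : Cp k j → Finset X × ZMod p) :
    Phi P phi Tt u d ω = ∑ ε : Fin k → Bool, sgn ε • ∑ t ∈ Tt, ou1_tm P phi u d ε t ω := by
  funext y
  simp only [Phi, ou1_tm, Finset.sum_apply, Pi.smul_apply]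

theorem ou1_tm_update {V : Type} (P : Pat k j) (phi : T → ZMod p → V) (u : T → ZMod p)
    (d : T → Vec p X) (ε : Fin k → Bool) (t : T) (ω : Cp k j → Finset X × ZMod p) (κ : Cp k j)
    (s : ZMod p) {A A' : Finset X} (h : dot (d t) A = dot (d t) A') :
    ou1_tm P phi u d ε t (Function.update ω κ (A, s)) =
      ou1_tm P phi u d ε t (Function.update ω κ (A', s)) := by
  have h1 : (fun κ' => (Function.update ω κ (A, s) κ').2) =
      fun κ' => (Function.update ω κ (A', s) κ').2 := by
    funext κ'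
    by_cases hκ : κ' = κ
    · subst hκ
      simp
    · simp [Function.update_of_ne hκ]
  have h2 : (fun κ' => dot (d t) (Function.update ω κ (A, s) κ').1) =
      fun κ' => dot (d t) (Function.update ω κ (A', s) κ').1 := by
    funext κ'
    by_cases hκ : κ' = κ
    · subst hκ
      simp [h]
    · simp [Function.update_of_ne hκ]
  unfold ou1_tm val
  rw [h1, h2]

theorem ou1_Phi_update {V : Type} [AddCommGroup V] (P : Pat k j) (phi : T → ZMod p → V)
    (Tt : Finset T) (u : T → ZMod p) (d : T → Vec p X) (ω : Cp k j → Finset X × ZMod p)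
    (κ : Cp k j) (s : ZMod p) {A A' : Finset X} (h : ∀ t ∈ Tt, dot (d t) A = dot (d t) A') :
    Phi P phi Tt u d (Function.update ω κ (A, s)) =
      Phi P phi Tt u d (Function.update ω κ (A', s)) := by
  rw [ou1_Phi, ou1_Phi]
  exact Finset.sum_congr rfl fun ε _ => congrArg _
    (Finset.sum_congr rfl fun t ht => ou1_tm_update P phi u d ε t ω κ s (h t ht))

/-- the second components separate all pairs. -/
def ou1_S (P : Pat k j) (ω : Cp k j → Finset X × ZMod p) : Prop :=
  ∀ b, (ω (P.cp b false)).2 ≠ (ω (P.cp b true)).2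

theorem ou1_S_update (P : Pat k j) (ω : Cp k j → Finset X × ZMod p) (κ : Cp k j) (s : ZMod p)
    (A A' : Finset X) :
    ou1_S P (Function.update ω κ (A, s)) ↔ ou1_S P (Function.update ω κ (A', s)) := by
  have h1 : ∀ κ', (Function.update ω κ (A, s) κ').2 = (Function.update ω κ (A', s) κ').2 := by
    intro κ'
    by_cases hκ : κ' = κ
    · subst hκ
      simp
    · simp [Function.update_of_ne hκ]
  simp only [ou1_S, h1]

/-- the indicator of the event. -/
noncomputable def ou1_G {V : Type} [AddCommGroup V] (P : Pat k j) (phi : T → ZMod p → V)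
    (Tt : Finset T) (u : T → ZMod p) (d : T → Vec p X) (ω : Cp k j → Finset X × ZMod p) : ℂ :=
  if ou1_S P ω ∧ ∃ y, Phi P phi Tt u d ω y ≠ 0 then 1 else 0

theorem ou1_pr {Ω : Type} (s : Finset Ω) (Q : Ω → Prop) (G : Ω → ℂ) (h1 : ∀ x, Q x → G x = 1)
    (h0 : ∀ x, ¬ Q x → G x = 0) : ((pr s Q : ℝ) : ℂ) = s.expect G := by
  rw [pr, Complex.ofReal_expect]
  refine Finset.expect_congr rfl fun x _ => ?_
  by_cases h : Q x
  · rw [if_pos h, h1 x h, Complex.ofReal_one]
  · rw [if_neg h, h0 x h, Complex.ofReal_zero]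

theorem ou1_pf {V : Type} [AddCommGroup V] (P : Pat k j) (phi : T → ZMod p → V)
    (Tt : Finset T) (u : T → ZMod p) (d : T → Vec p X) (a : Cp k j → Finset X) :
    ((pf P phi Tt u d a : ℝ) : ℂ) =
      (Fintype.piFinset (fun κ => (a κ).powerset ×ˢ (univ : Finset (ZMod p)))).expect
        (fun x => ou1_G P phi Tt u d (fun i => id (x i))) :=
  ou1_pr _ _ _ (fun _ h => if_pos h) (fun _ h => if_neg h)

theorem ou1_G_eq {V : Type} [AddCommGroup V] [Fintype V] (P : Pat k j) (phi : T → ZMod p → V)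
    (Tt : Finset T) (u : T → ZMod p) (d : T → Vec p X) (ω : Cp k j → Finset X × ZMod p) :
    ou1_G P phi Tt u d ω = (univ : Finset (AddChar (ZMod p → V) ℂ)).expect (fun τ =>
      (if ou1_S P ω then (1 : ℂ) else 0) * (1 : AddChar (ZMod p → V) ℂ) (Phi P phi Tt u d ω) -
        (if ou1_S P ω then (1 : ℂ) else 0) * τ (Phi P phi Tt u d ω)) := by
  rw [Finset.expect_sub_distrib, ← Finset.mul_expect, ← Finset.mul_expect,
    AddChar.expect_apply_eq_ite, Finset.expect_const univ_nonempty, AddChar.one_apply, ou1_G]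
  by_cases h1 : ou1_S P ω
  · by_cases h2 : Phi P phi Tt u d ω = 0
    · rw [if_pos h1, if_pos h2, if_neg (fun h => by
        obtain ⟨y, hy⟩ := h.2
        exact hy (congrFun h2 y))]
      simp
    · rw [if_pos h1, if_neg h2, if_pos ⟨h1, Function.ne_iff.mp h2⟩]
      simp
  · rw [if_neg h1, if_neg (fun h => h1 h.1)]
    simp

theorem true_vs_free {m c : ℕ} {θ : ℝ} (hθ : ThB p m c θ) {V : Type} [AddCommGroup V] [Fintype V]
    (hV : ∀ v : V, m • v = 0) (P : Pat k j) (phi : T → ZMod p → V) (Tt : Finset T)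
    (u : T → ZMod p) (d : T → Vec p X) {H : Sub p X} {J : Finset X} (hJ : co J ≤ H)
    {lam : Vec p X} (hl : lam ∉ H) (a a2 x0 : Cp k j → Finset X) (ha : ∀ κ, a2 κ ⊆ a κ)
    (hx : ∀ κ, x0 κ ⊆ a κ) {ε : ℝ} (hε : ε ≤ 1 / 3)
    (he : ∀ κ, enum θ ((H ⊔ Submodule.span (ZMod p) {lam}).map (off J)) (a2 κ) ≤ 1 + ε)
    (hdJ : ∀ t ∈ Tt, Disjoint (supp (d t)) J) (hd : ∀ t ∈ Tt, ∀ κ, (supp (d t) ∩ a2 κ).card ≤ c) :
    pf P phi Tt u d a - 6 * Fintype.card (Cp k j) * ε ≤
      pr (Fintype.piFinset (fun κ => fib H (a κ) (x0 κ))) (fun x => Surv P lam x ∧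
        ∃ y, Phi P phi Tt u d (fun κ => (x κ, dot lam (x κ))) y ≠ 0) := by
  have key := hybrid (fun κ => fib H (a κ) (x0 κ))
    (fun κ => (a κ).powerset ×ˢ (univ : Finset (ZMod p)))
    (fun κ => ⟨x0 κ, mem_fib.mpr ⟨hx κ, fun _ _ => rfl⟩⟩)
    (fun κ => (Finset.powerset_nonempty _).product univ_nonempty)
    (fun _ A => (A, dot lam A)) (fun _ => id) (ou1_G P phi Tt u d) (6 * ε) (by
      intro κ ω
      have hone : ∀ τ : AddChar (ZMod p → V) ℂ,
          ‖(fib H (a κ) (x0 κ)).expect (fun A =>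
            (if ou1_S P (Function.update ω κ (A, dot lam A)) then (1 : ℂ) else 0) *
              τ (Phi P phi Tt u d (Function.update ω κ (A, dot lam A)))) -
          ((a κ).powerset ×ˢ (univ : Finset (ZMod p))).expect (fun z =>
            (if ou1_S P (Function.update ω κ (id z)) then (1 : ℂ) else 0) *
              τ (Phi P phi Tt u d (Function.update ω κ (id z))))‖ ≤ 3 * ε := by
        intro τ
        have h1 := u1_one hθ (V := ZMod p → V) (fun v => funext fun y => hV (v y)) τ hJ (ha κ)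
          (hx κ) hl hε (he κ)
          (fun s => if ou1_S P (Function.update ω κ (∅, s)) then (1 : ℂ) else 0)
          (fun s => by split_ifs <;> simp)
          (fun A s => Phi P phi Tt u d (Function.update ω κ (A, s)))
          (fun A s => ou1_Phi_update P phi Tt u d ω κ s fun t ht => by
            rw [Finset.sdiff_eq_inter_compl, dot_inter]
            intro i hi
            exact Finset.mem_compl.mpr
              (Finset.disjoint_left.mp (hdJ t ht) (Finset.mem_inter.mp hi).1))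
          (fun s B hB => by
            simp only [ou1_Phi]
            refine DL_sum _ _ fun e _ => DL.zsmul (DL_sum _ _ fun t ht => ?_) _
            refine DL_junta (supp (d t)) (fun A hA => ?_) (hd t ht κ)
            refine ou1_tm_update P phi u d e t ω κ s ?_
            have hBA : Disjoint B A := Finset.disjoint_of_subset_right hA hB
            rw [dot_union _ hBA,
              dot_union _ (Finset.disjoint_of_subset_right Finset.inter_subset_left hBA),
              dot_inter Finset.inter_subset_left])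
        have h2 : ∀ A s, (if ou1_S P (Function.update ω κ (A, s)) then (1 : ℂ) else 0) =
            if ou1_S P (Function.update ω κ (∅, s)) then (1 : ℂ) else 0 :=
          fun A s => if_congr (ou1_S_update P ω κ s A ∅) rfl rfl
        refine le_of_eq_of_le (congrArg norm (congrArg₂ (fun x y : ℂ => x - y) ?_ ?_)) h1
        · exact Finset.expect_congr rfl fun A _ => by rw [h2]
        · exact Finset.expect_congr rfl fun z _ => by rw [← h2 z.1 z.2]; rfl
      simp only [ou1_G_eq]
      rw [Finset.expect_comm, Finset.expect_comm ((a κ).powerset ×ˢ (univ : Finset (ZMod p))),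
        ← Finset.expect_sub_distrib]
      refine ou1_norm_le _ univ_nonempty _ _ fun τ _ => ?_
      rw [Finset.expect_sub_distrib, Finset.expect_sub_distrib, sub_sub_sub_comm]
      have h4 := hone 1
      have h5 := hone τ
      exact (norm_sub_le _ _).trans (by linarith))
  rw [← ou1_pf] at key
  have h1 : ((pr (Fintype.piFinset (fun κ => fib H (a κ) (x0 κ))) (fun x => Surv P lam x ∧
        ∃ y, Phi P phi Tt u d (fun κ => (x κ, dot lam (x κ))) y ≠ 0) : ℝ) : ℂ) =
      (Fintype.piFinset (fun κ => fib H (a κ) (x0 κ))).expect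
        (fun x => ou1_G P phi Tt u d (fun i => (x i, dot lam (x i)))) :=
    ou1_pr _ _ _ (fun _ h => if_pos h) (fun _ h => if_neg h)
  rw [← h1, ← Complex.ofReal_sub, Complex.norm_real, Real.norm_eq_abs] at key
  have h2 := (abs_le.mp key).1
  linarith

theorem pf_inter {V : Type} [AddCommGroup V] (P : Pat k j) (phi : T → ZMod p → V) (Tt : Finset T)
    (u : T → ZMod p) (d : T → Vec p X) (a : Cp k j → Finset X) (Q : Finset X)
    (hQ : ∀ t ∈ Tt, supp (d t) ⊆ Q) :
    pf P phi Tt u d a = pf P phi Tt u d (fun κ => a κ ∩ Q) := by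
  have key := hybrid (fun κ => (a κ).powerset ×ˢ (univ : Finset (ZMod p)))
    (fun κ => (a κ ∩ Q).powerset ×ˢ (univ : Finset (ZMod p)))
    (fun κ => (Finset.powerset_nonempty _).product univ_nonempty)
    (fun κ => (Finset.powerset_nonempty _).product univ_nonempty)
    (fun _ => id) (fun _ => id) (ou1_G P phi Tt u d) 0 (by
      intro κ ω
      rw [norm_le_zero_iff, sub_eq_zero, Finset.expect_product, Finset.expect_product]
      refine expect_powerset_inter (a κ) Q _ fun A _ => Finset.expect_congr rfl fun s _ => ?_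
      have h1 := ou1_Phi_update P phi Tt u d ω κ s (A := A) (A' := A ∩ Q) fun t ht =>
        (dot_inter (Finset.inter_subset_left.trans (hQ t ht))).symm
      simp only [id, ou1_G, h1]
      exact if_congr (and_congr (ou1_S_update P ω κ s A (A ∩ Q)) Iff.rfl) rfl rfl)
  rw [mul_zero, norm_le_zero_iff, sub_eq_zero, ← ou1_pf, ← ou1_pf] at key
  exact_mod_cast key

variable [Fintype T]

theorem Ext.pfe_congr {V : Type} [AddCommGroup V] (σ : Ext p X T) (P : Pat k j)
    (phi : T → ZMod p → V) (e : T) {l l' : X → Lab k j} (h : ∀ i ∈ σ.Qs e, l i = l' i) :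
    σ.pfe P phi e l = σ.pfe P phi e l' := by
  have hQ : ∀ t ∈ σ.LCl e, supp (σ.dd e t) ⊆ σ.Qs e := fun t ht =>
    Finset.subset_biUnion_of_mem (fun t => supp (σ.dd e t)) ht
  unfold Ext.pfe
  rw [pf_inter P phi _ _ _ (cset P σ.Y l) _ hQ, pf_inter P phi _ _ _ (cset P σ.Y l') _ hQ]
  refine congrArg _ (funext fun κ => ?_)
  ext i
  simp only [cset, atomSet, Finset.mem_inter, Finset.mem_filter]
  constructor
  · rintro ⟨h1, h2⟩
    rw [h i h2] at h1
    exact ⟨h1, h2⟩
  · rintro ⟨h1, h2⟩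
    rw [← h i h2] at h1
    exact ⟨h1, h2⟩

theorem Ext.good_congr (σ : Ext p X T) (c1 : ℕ) (e : T) {l l' : X → Lab k j}
    (h : ∀ i ∈ σ.Qs e, l i = l' i) : σ.Good c1 l e ↔ σ.Good c1 l' e := by
  have h1 : ∀ t ∈ σ.LCl e, ∀ a : Atom k j,
      supp (σ.dd e t) ∩ subSet σ.Y l a = supp (σ.dd e t) ∩ subSet σ.Y l' a := by
    intro t ht a
    ext i
    simp only [subSet, Finset.mem_inter, Finset.mem_filter]
    refine and_congr_right fun hi => ?_
    rw [h i (Finset.subset_biUnion_of_mem (fun t => supp (σ.dd e t)) ht hi)]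
  exact forall_congr' fun t => forall_congr' fun ht => forall_congr' fun a => by rw [h1 t ht a]

end Pool.Agent.P.MP_85fe51_lc.OD
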