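import Pool.Agent.P.MP_85fe51_lc.OSel
import Pool.Agent.P.MP_85fe51_lc.OU1

set_option autoImplicit false

namespace Pool.Agent.P.MP_85fe51_lc.OD

open Finset
open scoped Classical

variable {p : ℕ} [Fact p.Prime] {X : Type} [Fintype X] [DecidableEq X] {T : Type} [Fintype T]
  {k j : ℕ} {V : Type} [AddCommGroup V] [Fintype V]

theorem oseqb_pow {x : ℝ} {n : ℕ} (h : n * x ≤ 1 / 2) (hx : 0 ≤ x) : (1 + x) ^ n ≤ 2 := by
  have h1 : (1 + x) ^ n ≤ Real.exp x ^ n :=
    pow_le_pow_left₀ (by linarith) (by linarith [Real.add_one_le_exp x]) n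
  rw [← Real.exp_nat_mul] at h1
  have h2 : Real.exp (n * x) ≤ Real.exp (1 / 2) := Real.exp_le_exp.2 h
  have h3 : Real.exp (1 / 2) * Real.exp (1 / 2) = Real.exp 1 := by
    rw [← Real.exp_add]; norm_num
  have h4 := Real.exp_one_lt_d9
  have h5 := Real.exp_pos (1 / 2)
  have h6 : Real.exp (1 / 2) ≤ 2 := by nlinarith
  linarith

theorem oseqb_expect_le {Ω : Type} (s : Finset Ω) (f : Ω → ℝ) {c : ℝ} (hc : 0 ≤ c)
    (h : ∀ x ∈ s, f x ≤ c) : s.expect f ≤ c := by
  rcases s.eq_empty_or_nonempty with rfl | hs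
  · simpa using hc
  · exact Finset.expect_le hs h

/-- two vectors survive together with probability about `piK ^ 2`. -/
theorem oseqb_pair (P : Pat k j) {θ ε : ℝ} (hθ : ThC p θ) (hε0 : 0 ≤ ε)
    (hεk : 4 * p ^ 2 * k * ε ≤ 1) {H : Sub p X} {J : Finset X} (hJ : co J ≤ H)
    (a x : Cp k j → Finset X) (hx : ∀ κ, x κ ⊆ a κ) (v v' : Vec p X)
    (he : ∀ b, enum θ (H.map (off J)) (a (P.cp b true)) ≤ 3 / 2)
    (hc : ∀ b, ∀ u u' : ZMod p, (u ≠ 0 ∨ u' ≠ 0) →
      cenum θ (off J (u • v + u' • v')) (H.map (off J)) (a (P.cp b true)) ≤ ε) :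
    pr (Fintype.piFinset (fun κ => fib H (a κ) (x κ))) (fun y => Surv P v y ∧ Surv P v' y) ≤
      2 * piK p k ^ 2 := by
  have hne : ∀ κ, (fib H (a κ) (x κ)).Nonempty := fun κ =>
    ⟨x κ, mem_fib.2 ⟨hx κ, fun _ _ => rfl⟩⟩
  have key := expect_prod_pairs (fun κ => fib H (a κ) (x κ)) hne (fun b => P.cp b false)
    (fun b => P.cp b true) (fun b b' h => (P.cp_inj h).1) (fun b b' h => (P.cp_inj h).1)
    (fun b b' h => by simpa using (P.cp_inj h).2)
    (fun _ y y' => if dot v y' ≠ dot v y ∧ dot v' y' ≠ dot v' y then (1 : ℝ) else 0)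
  have e1 : pr (Fintype.piFinset (fun κ => fib H (a κ) (x κ)))
      (fun y => Surv P v y ∧ Surv P v' y) =
      (Fintype.piFinset (fun κ => fib H (a κ) (x κ))).expect (fun y => ∏ b,
        if dot v (y (P.cp b true)) ≠ dot v (y (P.cp b false)) ∧
          dot v' (y (P.cp b true)) ≠ dot v' (y (P.cp b false)) then (1 : ℝ) else 0) := by
    unfold pr
    refine Finset.expect_congr rfl (fun y _ => ?_)
    by_cases h : Surv P v y ∧ Surv P v' y
    · rw [if_pos h]
      symm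
      refine Finset.prod_eq_one (fun b _ => ?_)
      rw [if_pos ⟨(h.1 b).symm, (h.2 b).symm⟩]
    · rw [if_neg h]
      symm
      by_contra hn
      refine h ⟨fun b => ?_, fun b => ?_⟩
      · intro hb
        exact hn (Finset.prod_eq_zero (mem_univ b) (if_neg (fun h' => h'.1 hb.symm)))
      · intro hb
        exact hn (Finset.prod_eq_zero (mem_univ b) (if_neg (fun h' => h'.2 hb.symm)))
  rw [e1, key]
  have hx0 : (0 : ℝ) ≤ 2 * (p : ℝ) ^ 2 * ε := by positivity
  have hc0 : (0 : ℝ) ≤ (1 - 1 / (p : ℝ)) ^ 2 * (1 + 2 * (p : ℝ) ^ 2 * ε) := by positivity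
  calc _ ≤ ∏ _b : Fin k, (1 - 1 / (p : ℝ)) ^ 2 * (1 + 2 * (p : ℝ) ^ 2 * ε) := by
        refine Finset.prod_le_prod (fun b _ => ?_) (fun b _ => ?_)
        · refine Finset.expect_nonneg (fun y _ => Finset.expect_nonneg (fun y' _ => ?_))
          split_ifs <;> norm_num
        · refine oseqb_expect_le _ _ hc0 (fun y _ => ?_)
          have h2 := pair_le hθ hJ (hx (P.cp b true)) (he b) v v' (hc b) (dot v y) (dot v' y)
          refine le_trans (le_of_eq ?_) h2
          unfold pr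
          refine Finset.expect_congr rfl (fun y' _ => ?_)
          by_cases h : dot v y' ≠ dot v y ∧ dot v' y' ≠ dot v' y
          · rw [if_pos h, if_pos h]
          · rw [if_neg h, if_neg h]
    _ = piK p k ^ 2 * (1 + 2 * (p : ℝ) ^ 2 * ε) ^ k := by
        rw [Finset.prod_const, card_univ, Fintype.card_fin, mul_pow, piK, ← pow_mul, ← pow_mul,
          mul_comm 2 k]
    _ ≤ piK p k ^ 2 * 2 := by
        refine mul_le_mul_of_nonneg_left (oseqb_pow ?_ hx0) (by positivity)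
        nlinarith
    _ = 2 * piK p k ^ 2 := mul_comm _ _

theorem oseqb_surv_congr (P : Pat k j) {v : Vec p X} {x y : Cp k j → Finset X}
    (h : ∀ κ, dot v (x κ) = dot v (y κ)) : Surv P v x ↔ Surv P v y := by
  unfold Surv
  simp only [h]

namespace Ext
variable (σ : Ext p X T) (P : Pat k j) (phi : T → ZMod p → V) {Seq : Finset T} {θ ε μ : ℝ}
  {m c1 C' : ℕ} {l : X → Lab k j}

theorem oseqb_mem_Om {x : Cp k j → Finset X} :
    x ∈ σ.Om P l ↔ ∀ κ, x κ ⊆ cset P σ.Y l κ ∧ KerP σ.U (x κ) := by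
  unfold Om
  rw [Fintype.mem_piFinset]
  simp only [mem_Ker]

/-- the conditional probability of being active, given the past. -/
theorem act_ge (hθ : ThB p m c1 θ) (hV : ∀ v : V, m • v = 0) (hS : σ.SeqOK Seq)
    (hT : σ.Typ P phi Seq θ ε μ c1 C' l) (hε0 : 0 ≤ ε) (hε : ε ≤ 1 / 3)
    (hεk : 4 * p ^ 2 * k * ε ≤ 1) {i : T} (hi : i ∈ Seq) {x : Cp k j → Finset X}
    (hx : x ∈ σ.Om P l) :
    (if σ.Good c1 l i then σ.pfe P phi i l else 0) -
      (6 * Fintype.card (Cp k j) * ε + 2 * σ.M4 * piK p k ^ 2) ≤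
      pr (Fintype.piFinset (fun κ => fib (σ.Ht (σ.past Seq i)) (cset P σ.Y l κ) (x κ)))
        (σ.Act P phi c1 l i) := by
  by_cases hG : σ.Good c1 l i
  swap
  · rw [if_neg hG]
    refine le_trans ?_ (pr_nonneg _ _)
    have : (0 : ℝ) ≤ 6 * Fintype.card (Cp k j) * ε + 2 * σ.M4 * piK p k ^ 2 := by positivity
    linarith
  rw [if_pos hG]
  have hxa : ∀ κ, x κ ⊆ cset P σ.Y l κ := fun κ => ((σ.oseqb_mem_Om P).1 hx κ).1
  have hnm := hS.not_moved_past hi
  have hl : σ.lam i ∉ σ.Ht (σ.past Seq i) := by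
    intro h
    have h1 := σ.heavy_Ht hnm
    have h2 := wtm_eq_zero.2 h
    have h3 := σ.one_le_CH
    omega
  have hdJ : ∀ t ∈ σ.LCl i, Disjoint (supp (σ.dd i t)) (σ.Jt (σ.past Seq i)) := fun t ht =>
    (σ.disjoint_Qs_Jt hnm).mono_left
      (Finset.subset_biUnion_of_mem (fun t => supp (σ.dd i t)) ht)
  have h1 := true_vs_free hθ hV P phi (σ.LCl i) (σ.uu i) (σ.dd i) (σ.co_Jt_le (σ.past Seq i)) hl
    (cset P σ.Y l) (fun κ => subSet σ.Y l (P.atm κ)) x (fun κ => subSet_subset _ _ _) hxa hε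
    (fun κ => hT.t2 i hi _) hdJ (fun t ht κ => hG t ht _)
  set S := Fintype.piFinset (fun κ => fib (σ.Ht (σ.past Seq i)) (cset P σ.Y l κ) (x κ)) with hSd
  have h2 : pr S (fun x => Surv P (σ.lam i) x ∧ ∃ y, Phi P phi (σ.LCl i) (σ.uu i) (σ.dd i)
      (fun κ => (x κ, dot (σ.lam i) (x κ))) y ≠ 0) ≤
      pr S (fun x => σ.Act P phi c1 l i x ∨ ∃ t ∈ σ.Mid i \ σ.LCl i,
        Surv P (σ.lam i) x ∧ Surv P (σ.lam t) x) := by
    refine pr_mono _ (fun y _ hy => ?_)
    by_cases h : ∃ t ∈ σ.Mid i \ σ.LCl i, Surv P (σ.lam i) y ∧ Surv P (σ.lam t) y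
    · exact Or.inr h
    · refine Or.inl ⟨hG, hy.1, fun t ht ht' hs => h ⟨t, ?_, hy.1, hs⟩, hy.2⟩
      exact Finset.mem_sdiff.2 ⟨ht, ht'⟩
  have h3 := pr_or_le S (fun x => σ.Act P phi c1 l i x)
    (fun x => ∃ t ∈ σ.Mid i \ σ.LCl i, Surv P (σ.lam i) x ∧ Surv P (σ.lam t) x)
  have h4 := pr_exists_le S (σ.Mid i \ σ.LCl i)
    (fun t x => Surv P (σ.lam i) x ∧ Surv P (σ.lam t) x)
  have hcs : ∀ b, cset P σ.Y l (P.cp b true) = atomSet σ.Y l (P.ab b) := fun b => by
    unfold cset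
    rw [P.atm_cp]
  have h5 : ∀ t ∈ σ.Mid i \ σ.LCl i,
      pr S (fun x => Surv P (σ.lam i) x ∧ Surv P (σ.lam t) x) ≤ 2 * piK p k ^ 2 := by
    intro t ht
    rw [Finset.mem_sdiff] at ht
    refine oseqb_pair P hθ.thC hε0 hεk (σ.co_Jt_le (σ.past Seq i)) (cset P σ.Y l) x hxa _ _
      (fun b => ?_) (fun b u u' hu => ?_)
    · rw [hcs]
      have e1 := enum_anti hθ.1 hθ.2.1.le
        ((σ.Ht (σ.past Seq i)).map (off (σ.Jt (σ.past Seq i)))) (subSet_subset σ.Y l (P.ab b))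
      have e2 := enum_mono hθ.1 (Submodule.map_mono (f := off (σ.Jt (σ.past Seq i)))
        (le_sup_left : σ.Ht (σ.past Seq i) ≤
          σ.Ht (σ.past Seq i) ⊔ Submodule.span (ZMod p) {σ.lam i})) (subSet σ.Y l (P.ab b))
      have e3 := hT.t2 i hi (P.ab b)
      linarith
    · rw [hcs]
      exact hT.t3 i hi t ht.1 ht.2 u u' hu b
  have h6 := Finset.sum_le_card_nsmul _ _ _ h5
  have h7 : (σ.Mid i \ σ.LCl i).card ≤ σ.M4 :=
    (Finset.card_le_card Finset.sdiff_subset).trans (σ.mid i (hS i hi).1)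
  have h8 : ((σ.Mid i \ σ.LCl i).card : ℝ) * (2 * piK p k ^ 2) ≤ σ.M4 * (2 * piK p k ^ 2) :=
    mul_le_mul_of_nonneg_right (by exact_mod_cast h7) (by positivity)
  rw [nsmul_eq_mul] at h6
  have h9 : σ.pfe P phi i l = pf P phi (σ.LCl i) (σ.uu i) (σ.dd i) (cset P σ.Y l) := rfl
  have h10 : pr S (fun x => σ.Act P phi c1 l i x) = pr S (σ.Act P phi c1 l i) := rfl
  rw [h9]
  linarith

/-- activity of `e` is read off the values of a space that contains its cluster. -/
theorem oseqb_act_congr {Γ : Finset T} {e : T} (hΓ : σ.Mid e ⊆ Γ) {x y : Cp k j → Finset X}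
    (h : ∀ κ, ∀ η ∈ σ.Ht Γ, dot η (x κ) = dot η (y κ)) :
    σ.Act P phi c1 l e x ↔ σ.Act P phi c1 l e y := by
  have hm : ∀ t ∈ σ.Mid e, σ.lam t ∈ σ.Ht Γ := fun t ht =>
    σ.U_le_Ht Γ (Submodule.mem_sup_right (mem_spn σ.lam (hΓ ht)))
  have he := hm e (σ.self_mem_Mid e)
  have hd : ∀ t ∈ σ.Mid e, σ.dd e t ∈ σ.Ht Γ := by
    intro t ht
    have h1 : σ.lam t - σ.uu e t • σ.lam e - σ.dd e t ∈ σ.Ht Γ :=
      σ.U_le_Ht Γ (Submodule.mem_sup_left (σ.rep e t ht).2.1)
    have h2 : σ.lam t - σ.uu e t • σ.lam e ∈ σ.Ht Γ :=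
      Submodule.sub_mem _ (hm t ht) (Submodule.smul_mem _ _ he)
    have h3 := Submodule.sub_mem _ h2 h1
    rwa [sub_sub_cancel] at h3
  have hP : ∀ u, Phi P phi (σ.LCl e) (σ.uu e) (σ.dd e)
      (fun κ => (x κ, dot (σ.lam e) (x κ))) u =
      Phi P phi (σ.LCl e) (σ.uu e) (σ.dd e) (fun κ => (y κ, dot (σ.lam e) (y κ))) u := by
    intro u
    unfold Phi
    refine Finset.sum_congr rfl (fun ep _ => ?_)
    refine congrArg _ (Finset.sum_congr rfl (fun t ht => ?_))
    have e1 : (fun κ => dot (σ.lam e) (x κ)) = fun κ => dot (σ.lam e) (y κ) :=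
      funext (fun κ => h κ _ he)
    have e2 : (fun κ => dot (σ.dd e t) (x κ)) = fun κ => dot (σ.dd e t) (y κ) :=
      funext (fun κ => h κ _ (hd t (σ.LCl_subset e ht)))
    unfold val
    simp only [e1, e2]
  unfold Act
  rw [oseqb_surv_congr P (fun κ => h κ _ he)]
  simp only [hP]
  refine and_congr Iff.rfl (and_congr Iff.rfl (and_congr ?_ Iff.rfl))
  refine forall_congr' (fun t => forall_congr' (fun ht => ?_))
  rw [oseqb_surv_congr P (fun κ => h κ _ (hm t ht))]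

theorem oseqb_class (Γ : Finset T) {x : Cp k j → Finset X} (hx : x ∈ σ.Om P l)
    {y : Cp k j → Finset X} :
    (y ∈ σ.Om P l ∧ (fun κ (η : σ.Ht Γ) => dot η.1 (y κ)) =
      fun κ (η : σ.Ht Γ) => dot η.1 (x κ)) ↔
      y ∈ Fintype.piFinset (fun κ => fib (σ.Ht Γ) (cset P σ.Y l κ) (x κ)) := by
  rw [Fintype.mem_piFinset, oseqb_mem_Om]
  simp only [mem_fib]
  constructor
  · rintro ⟨h1, h2⟩ κ
    exact ⟨(h1 κ).1, fun η hη => congrFun (congrFun h2 κ) ⟨η, hη⟩⟩
  · intro h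
    refine ⟨fun κ => ⟨(h κ).1, fun η hη => ?_⟩, ?_⟩
    · rw [(h κ).2 η (σ.U_le_Ht Γ (Submodule.mem_sup_left hη))]
      exact ((σ.oseqb_mem_Om P).1 hx κ).2 η hη
    · funext κ η
      exact (h κ).2 η.1 η.2

theorem oseqb_g_le (i : T) : (if σ.Good c1 l i then σ.pfe P phi i l else 0) ≤ 1 := by
  split_ifs
  · exact pr_le_one _ _
  · norm_num

theorem oseqb_prod (hθ : ThB p m c1 θ) (hV : ∀ v : V, m • v = 0) (hS : σ.SeqOK Seq)
    (hT : σ.Typ P phi Seq θ ε μ c1 C' l) (hε0 : 0 ≤ ε) (hε : ε ≤ 1 / 3)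
    (hεk : 4 * p ^ 2 * k * ε ≤ 1) (S : Finset T) (hSS : S ⊆ Seq) :
    (σ.Om P l).expect (fun x => ∏ i ∈ S, if σ.Act P phi c1 l i x then (1 / 2 : ℝ) else 1) ≤
      ∏ i ∈ S, ((1 - (if σ.Good c1 l i then σ.pfe P phi i l else 0) / 2) *
        (1 + (6 * Fintype.card (Cp k j) * ε + 2 * σ.M4 * piK p k ^ 2))) := by
  have hδ : (0 : ℝ) ≤ 6 * Fintype.card (Cp k j) * ε + 2 * σ.M4 * piK p k ^ 2 := by positivity
  induction S using Finset.induction_on_max_value (fun e => Fintype.equivFin T e) with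
  | empty =>
    simp only [Finset.prod_empty]
    exact oseqb_expect_le _ _ zero_le_one (fun _ _ => le_rfl)
  | insert i S hiS hmax ih =>
    have hi : i ∈ Seq := hSS (mem_insert_self _ _)
    have hS' : S ⊆ Seq := (Finset.subset_insert _ _).trans hSS
    have ih' := ih hS'
    have hsub : ∀ e ∈ S, σ.Mid e ⊆ σ.past Seq i := by
      intro e he
      refine Finset.subset_biUnion_of_mem σ.Mid (Finset.mem_filter.2 ⟨hS' he, ?_⟩)
      refine lt_of_le_of_ne (hmax e he) (fun h => hiS ?_)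
      rw [← (Fintype.equivFin T).injective h]
      exact he
    simp only [Finset.prod_insert hiS]
    set c : ℝ := (1 - (if σ.Good c1 l i then σ.pfe P phi i l else 0) / 2) *
      (1 + (6 * Fintype.card (Cp k j) * ε + 2 * σ.M4 * piK p k ^ 2)) with hc
    have hg := σ.oseqb_g_le P phi (c1 := c1) (l := l) i
    have hc0 : 0 ≤ c := mul_nonneg (by linarith) (by linarith)
    have key := expect_cond_mul (σ.Om P l)
      (fun x => fun κ (η : σ.Ht (σ.past Seq i)) => dot η.1 (x κ))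
      (fun x => ∏ e ∈ S, if σ.Act P phi c1 l e x then (1 / 2 : ℝ) else 1)
      (fun x => if σ.Act P phi c1 l i x then (1 / 2 : ℝ) else 1) (by
        intro x _ y _ hxy
        refine Finset.prod_congr rfl (fun e he => ?_)
        have := σ.oseqb_act_congr P phi (c1 := c1) (l := l) (hsub e he) (x := x) (y := y)
          (fun κ η hη => congrFun (congrFun hxy κ) ⟨η, hη⟩)
        by_cases h : σ.Act P phi c1 l e x
        · rw [if_pos h, if_pos (this.1 h)]
        · rw [if_neg h, if_neg (fun h' => h (this.2 h'))])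
    calc _ = (σ.Om P l).expect (fun x =>
          (∏ e ∈ S, if σ.Act P phi c1 l e x then (1 / 2 : ℝ) else 1) *
            (if σ.Act P phi c1 l i x then (1 / 2 : ℝ) else 1)) :=
          Finset.expect_congr rfl (fun x _ => mul_comm _ _)
      _ = _ := key
      _ ≤ (σ.Om P l).expect (fun x => c *
          ∏ e ∈ S, if σ.Act P phi c1 l e x then (1 / 2 : ℝ) else 1) := by
          refine Finset.expect_le_expect (fun x hx => ?_)
          rw [mul_comm c]
          refine mul_le_mul_of_nonneg_left ?_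
            (Finset.prod_nonneg (fun e _ => by split_ifs <;> norm_num))
          have ha := σ.act_ge P phi hθ hV hS hT hε0 hε hεk hi hx
          set W := Fintype.piFinset
            (fun κ => fib (σ.Ht (σ.past Seq i)) (cset P σ.Y l κ) (x κ)) with hW
          have hWne : W.Nonempty :=
            ⟨x, (σ.oseqb_class P (σ.past Seq i) hx).1 ⟨hx, rfl⟩⟩
          have e1 : W.expect (fun y => if σ.Act P phi c1 l i y then (1 / 2 : ℝ) else 1) =
              1 - pr W (σ.Act P phi c1 l i) / 2 := by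
            unfold pr
            rw [Finset.expect_div, ← Finset.expect_const hWne (1 : ℝ),
              ← Finset.expect_sub_distrib]
            refine Finset.expect_congr rfl (fun y _ => ?_)
            simp only [Finset.expect_const hWne]
            split_ifs <;> norm_num
          refine le_trans (le_of_eq (Finset.expect_congr ?_ (fun _ _ => rfl))) (e1.le.trans ?_)
          · ext y
            exact (@Finset.mem_filter _ _ (fun _ => Classical.propDecidable _) _ _).trans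
              (σ.oseqb_class P (σ.past Seq i) hx)
          · rw [hc]
            nlinarith
      _ = c * (σ.Om P l).expect (fun x =>
          ∏ e ∈ S, if σ.Act P phi c1 l e x then (1 / 2 : ℝ) else 1) := by
          rw [Finset.mul_expect]
      _ ≤ _ := mul_le_mul_of_nonneg_left ih' hc0

theorem seq_prod_le (hθ : ThB p m c1 θ) (hV : ∀ v : V, m • v = 0) (hS : σ.SeqOK Seq)
    (hT : σ.Typ P phi Seq θ ε μ c1 C' l) (hε0 : 0 ≤ ε) (hε : ε ≤ 1 / 3)
    (hεk : 4 * p ^ 2 * k * ε ≤ 1) :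
    (σ.Om P l).expect
      (fun x => (1 / 2 : ℝ) ^ (Seq.filter (fun i => σ.Act P phi c1 l i x)).card) ≤
      Real.exp (-μ / 8 +
        Seq.card * (6 * Fintype.card (Cp k j) * ε + 2 * σ.M4 * piK p k ^ 2)) := by
  have hδ : (0 : ℝ) ≤ 6 * Fintype.card (Cp k j) * ε + 2 * σ.M4 * piK p k ^ 2 := by positivity
  have h1 := σ.oseqb_prod P phi hθ hV hS hT hε0 hε hεk Seq (Finset.Subset.refl _)
  rw [Finset.prod_mul_distrib, Finset.prod_const] at h1
  have h2 := hT.t6
  have h3 : (1 + (6 * Fintype.card (Cp k j) * ε + 2 * σ.M4 * piK p k ^ 2)) ^ Seq.card ≤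
      Real.exp (Seq.card * (6 * Fintype.card (Cp k j) * ε + 2 * σ.M4 * piK p k ^ 2)) := by
    rw [Real.exp_nat_mul]
    exact pow_le_pow_left₀ (by linarith) (by
      linarith [Real.add_one_le_exp
        (6 * Fintype.card (Cp k j) * ε + 2 * σ.M4 * piK p k ^ 2)]) _
  rw [Real.exp_add]
  refine le_trans (le_of_eq ?_) (h1.trans (mul_le_mul h2 h3 (by positivity) (Real.exp_pos _).le))
  refine Finset.expect_congr rfl (fun x _ => ?_)
  rw [← Finset.prod_filter, Finset.prod_const]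

end Ext

end Pool.Agent.P.MP_85fe51_lc.OD
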