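import Pool.Agent.P.MP_85fe51_lc.OTypA
import Pool.Agent.P.MP_85fe51_lc.OU1

set_option autoImplicit false

namespace Pool.Agent.P.MP_85fe51_lc.OD

open Finset
open scoped Classical

variable {p : ℕ} [Fact p.Prime] {X : Type} [Fintype X] [DecidableEq X] {T : Type} [Fintype T]
  {k j : ℕ} {V : Type} [AddCommGroup V]

namespace Ext
variable (σ : Ext p X T) (P : Pat k j) (phi : T → ZMod p → V) {Seq : Finset T} {θ τ ε ζ : ℝ}

theorem otyp_pfe_nonneg (e : T) (l : X → Lab k j) : 0 ≤ σ.pfe P phi e l := pr_nonneg _ _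

theorem otyp_pfe_le (e : T) (l : X → Lab k j) : σ.pfe P phi e l ≤ 1 := pr_le_one _ _

theorem otyp_bad (hk : 1 ≤ k) (hj : 1 ≤ j) (hτ0 : 0 ≤ τ) (hτ1 : τ ≤ 1) (c1 : ℕ) {e : T}
    (he : σ.Heavy e) :
    Pw (fun _ : X => nu k j τ) (fun l => ¬ σ.Good c1 l e) ≤ σ.M4 * (σ.r * τ) ^ (c1 + 1) := by
  have hw := isW_nu X hk hj hτ0 hτ1
  have h1 : Pw (fun _ : X => nu k j τ) (fun l => ¬ σ.Good c1 l e) ≤
      Pw (fun _ : X => nu k j τ) (fun l => ∃ t ∈ σ.LCl e, c1 + 1 ≤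
        ((supp (σ.dd e t)).filter (fun i => ∃ a, l i = some (a, true))).card) := by
    refine Pw_mono hw ?_
    intro l _ h
    unfold Good at h
    push Not at h
    obtain ⟨t, ht, a, ha⟩ := h
    refine ⟨t, ht, le_trans ha (card_le_card ?_)⟩
    intro i hi
    rw [mem_inter] at hi
    rw [mem_filter]
    exact ⟨hi.1, a, (mem_filter.1 hi.2).2⟩
  refine h1.trans ((Pw_exists_le hw _ _).trans ?_)
  have h2 : ∀ t ∈ σ.LCl e, Pw (fun _ : X => nu k j τ) (fun l => c1 + 1 ≤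
      ((supp (σ.dd e t)).filter (fun i => ∃ a, l i = some (a, true))).card) ≤
      (σ.r * τ) ^ (c1 + 1) := by
    intro t ht
    have h3 := Pw_many hw (supp (σ.dd e t)) (fun b : Lab k j => ∃ a, b = some (a, true)) hτ0
      (fun _ _ => by
        refine le_trans (le_of_eq (sum_congr ?_ (fun _ _ => rfl))) (nu_sub_all (τ := τ) hk hj hτ0)
        ext b
        simp only [mem_filter]) (c1 + 1)
    have h4 : ((supp (σ.dd e t)).card : ℝ) ≤ σ.r := by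
      have := (mem_filter.1 ht).2
      exact_mod_cast this
    refine le_trans (Pw_mono hw ?_) (h3.trans ?_)
    · intro l _ h
      refine h.trans (card_le_card ?_)
      intro i hi
      simp only [mem_filter] at hi ⊢
      exact hi
    · exact pow_le_pow_left₀ (by positivity) (mul_le_mul_of_nonneg_right h4 hτ0) _
  refine (sum_le_card_nsmul _ _ _ h2).trans ?_
  rw [nsmul_eq_mul]
  refine mul_le_mul_of_nonneg_right ?_ (by positivity)
  have h5 : (σ.LCl e).card ≤ σ.M4 := (card_le_card (σ.LCl_subset e)).trans (σ.mid e he)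
  exact_mod_cast h5

theorem otyp_one (hk : 1 ≤ k) (hj : 1 ≤ j) (hτ0 : 0 ≤ τ) (hτ1 : τ ≤ 1) {pmin : ℝ} {c1 : ℕ}
    {e : T} (he : σ.Heavy e) (hch : pmin ≤ σ.abar P phi τ e)
    (hc : σ.M4 * (σ.r * τ) ^ (c1 + 1) ≤ pmin / 2) :
    Ew (fun _ : X => nu k j τ)
      (fun l => 1 - (if σ.Good c1 l e then σ.pfe P phi e l else 0) / 2) ≤
      Real.exp (-(pmin / 4)) := by
  have hw := isW_nu X hk hj hτ0 hτ1
  have h1 := σ.otyp_bad hk hj hτ0 hτ1 c1 he
  have h2 : Ew (fun _ : X => nu k j τ)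
      (fun l => 1 - (if σ.Good c1 l e then σ.pfe P phi e l else 0) / 2) ≤
      Ew (fun _ : X => nu k j τ) (fun l => (1 - (1 / 2) * σ.pfe P phi e l) +
        (1 / 2) * (if ¬ σ.Good c1 l e then (1 : ℝ) else 0)) := by
    refine Ew_mono hw ?_
    intro l _
    have := σ.otyp_pfe_le P phi e l
    by_cases h : σ.Good c1 l e
    · rw [if_pos h, if_neg (not_not.2 h)]
      linarith
    · rw [if_neg h, if_pos h]
      linarith
  refine h2.trans ?_
  rw [Ew_add, Ew_sub, Ew_const hw, Ew_mul, Ew_mul]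
  have h3 : Ew (fun _ : X => nu k j τ) (fun l => if ¬ σ.Good c1 l e then (1 : ℝ) else 0) =
      Pw (fun _ : X => nu k j τ) (fun l => ¬ σ.Good c1 l e) := by
    unfold Pw
    congr 1
    funext l
    congr
  have h4 : Ew (fun _ : X => nu k j τ) (fun l => σ.pfe P phi e l) = σ.abar P phi τ e := rfl
  rw [h3, h4]
  have h5 := Real.add_one_le_exp (-(pmin / 4))
  linarith

theorem fail_t6 (hS : σ.SeqOK Seq) (hk : 1 ≤ k) (hj : 1 ≤ j) (hτ0 : 0 ≤ τ) (hτ1 : τ ≤ 1)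
    {pmin : ℝ} {c1 : ℕ} (hch : ∀ e ∈ Seq, pmin ≤ σ.abar P phi τ e)
    (hc : σ.M4 * (σ.r * τ) ^ (c1 + 1) ≤ pmin / 2) :
    Pw (fun _ : X => nu k j τ) (fun l =>
      ¬ ∏ i ∈ Seq, (1 - (if σ.Good c1 l i then σ.pfe P phi i l else 0) / 2) ≤
        Real.exp (-(Seq.card * pmin) / 8)) ≤ Real.exp (-(Seq.card * pmin) / 8) := by
  have hw := isW_nu X hk hj hτ0 hτ1
  have hF : ∀ i l, 0 ≤ 1 - (if σ.Good c1 l i then σ.pfe P phi i l else 0) / 2 := by
    intro i l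
    have := σ.otyp_pfe_le P phi i l
    split_ifs <;> linarith
  have h1 := Ew_indep hw Seq σ.Qs (fun i hi i' hi' h => hS.disjoint_Qs hi hi' h)
    (fun i l => 1 - (if σ.Good c1 l i then σ.pfe P phi i l else 0) / 2) (by
      intro i _ l l' h
      rw [σ.pfe_congr P phi i h]
      by_cases hg : σ.Good c1 l i
      · rw [if_pos hg, if_pos ((σ.good_congr c1 i h).1 hg)]
      · rw [if_neg hg, if_neg (fun h' => hg ((σ.good_congr c1 i h).2 h'))])
  have h2 : ∏ i ∈ Seq, Ew (fun _ : X => nu k j τ)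
      (fun l => 1 - (if σ.Good c1 l i then σ.pfe P phi i l else 0) / 2) ≤
      ∏ _i ∈ Seq, Real.exp (-(pmin / 4)) :=
    prod_le_prod (fun i _ => Ew_nonneg hw (hF i))
      (fun i hi => σ.otyp_one P phi hk hj hτ0 hτ1 (hS i hi).1 (hch i hi) hc)
  rw [prod_const, ← Real.exp_nat_mul, ← h1] at h2
  have h3 := Ew_markov hw
    (fun l => ∏ i ∈ Seq, (1 - (if σ.Good c1 l i then σ.pfe P phi i l else 0) / 2))
    (fun l => prod_nonneg (fun i _ => hF i l)) (Real.exp (-(Seq.card * pmin) / 8))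
  have h4 : Real.exp (Seq.card * -(pmin / 4)) =
      Real.exp (-(Seq.card * pmin) / 8) * Real.exp (-(Seq.card * pmin) / 8) := by
    rw [← Real.exp_add]
    congr 1
    ring
  have h5 := h3.trans h2
  rw [h4] at h5
  refine le_trans (Pw_mono hw ?_) (le_of_mul_le_mul_left h5 (Real.exp_pos _))
  intro l _ h
  exact (not_le.1 h).le

/-- typical labels with a large bias exist. -/
theorem exists_typ (hS : σ.SeqOK Seq) (hk : 1 ≤ k) (hj : 1 ≤ j) (hθ0 : 0 ≤ θ) (hθ1 : θ ≤ 1)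
    (hτ0 : 0 ≤ τ) (hτ1 : τ ≤ 1) (hε : 0 < ε) (hε1 : ε ≤ 1) {pmin β : ℝ} {c1 C' g : ℕ}
    (hC : 1 ≤ C') (hg1 : 1 ≤ g) (hβ : 0 < β)
    (hch : ∀ e ∈ Seq, pmin ≤ σ.abar P phi τ e) (hc : σ.M4 * (σ.r * τ) ^ (c1 + 1) ≤ pmin / 2)
    (z1 : ζ ≤ τ / (4 * j * k) * (1 - θ) * σ.CH / 2) (z2 : ζ ≤ 1 / (4 * j * k) * (1 - θ) * σ.r)
    (z3 : ζ ≤ 1 / (4 * j * k) * (1 - θ) * σ.CH / (4 * k * g : ℕ))
    (z4 : ζ ≤ τ / (4 * j * k) / (8 * C') * σ.CH)
    (hbig : 400 * (p * (Fintype.card X + 1) : ℝ) ^ 2 * (Fintype.card T + 1) ^ 2 * p ^ 2 *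
      (k + 1) * j * g * Real.exp (-ζ) ≤ ε * β)
    (hg : 48 * k * Fintype.card T ≤ β * 2 ^ g) (hμ : Real.exp (-(Seq.card * pmin) / 8) ≤ β / 8)
    (bias : (X → Lab k j) → ℝ) (hb1 : ∀ l, bias l ≤ 1)
    (hb : β ≤ Ew (fun _ : X => nu k j τ) bias) :
    ∃ l, β / 2 ≤ bias l ∧ σ.Typ P phi Seq θ ε (Seq.card * pmin) c1 C' l := by
  have hw := isW_nu X hk hj hτ0 hτ1
  have hβ1 : β ≤ 1 := by
    have := Ew_mono hw (F := bias) (G := fun _ => 1) (fun l _ => hb1 l)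
    rw [Ew_const hw] at this
    exact hb.trans this
  have hp : (1 : ℝ) ≤ p := by exact_mod_cast (Fact.out : p.Prime).one_le
  have hk' : (1 : ℝ) ≤ k := by exact_mod_cast hk
  have hj' : (1 : ℝ) ≤ j := by exact_mod_cast hj
  have hg' : (1 : ℝ) ≤ g := by exact_mod_cast hg1
  have hX : (0 : ℝ) ≤ Fintype.card X := Nat.cast_nonneg _
  have hL : (0 : ℝ) ≤ Fintype.card T := Nat.cast_nonneg _
  have hE : 0 < Real.exp (-ζ) := Real.exp_pos _
  have hQ1 : (1 : ℝ) ≤ p * (Fintype.card X + 1) := one_le_mul_of_one_le_of_one_le hp (by linarith)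
  have hεβ : ε * β ≤ 1 := mul_le_one₀ hε1 hβ.le hβ1
  have hεβ' : ε * β ≤ β := mul_le_of_le_one_left hβ.le hε1
  obtain ⟨A, hA⟩ : ∃ A : ℝ, A = (p * (Fintype.card X + 1) : ℝ) ^ 2 * Real.exp (-ζ) := ⟨_, rfl⟩
  have hA0 : 0 ≤ A := by rw [hA]; positivity
  have key : ∀ c : ℝ, c ≤ (Fintype.card T + 1) ^ 2 * p ^ 2 * (k + 1) * j * g →
      400 * (c * A) ≤ ε * β := by
    intro c hc'
    refine le_trans ?_ hbig
    have := mul_le_mul_of_nonneg_right hc' hA0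
    rw [hA] at this ⊢
    linarith
  have hL2 : (1 : ℝ) ≤ (Fintype.card T + 1) ^ 2 := one_le_pow₀ (by linarith)
  have hp2 : (1 : ℝ) ≤ (p : ℝ) ^ 2 := one_le_pow₀ hp
  have gen : ∀ a b c d e : ℝ, 0 ≤ a → 0 ≤ b → 0 ≤ c → 0 ≤ d → 0 ≤ e →
      a ≤ (Fintype.card T + 1) ^ 2 → b ≤ (p : ℝ) ^ 2 → c ≤ k + 1 → d ≤ j → e ≤ g →
      400 * (a * b * c * d * e * A) ≤ ε * β := by
    intro a b c d e ha hb' hc' hd he ha1 hb1' hc1 hd1 he1
    refine key _ ?_
    gcongr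
  have k0 := gen 1 1 1 1 1 zero_le_one zero_le_one zero_le_one zero_le_one zero_le_one hL2 hp2
    (by linarith) hj' hg'
  have k1 := gen 1 1 (k + 1) j 1 zero_le_one zero_le_one (by linarith) (by linarith) zero_le_one
    hL2 hp2 le_rfl le_rfl hg'
  have k2 := gen (Fintype.card T) 1 (k + 1) j 1 hL zero_le_one (by linarith) (by linarith)
    zero_le_one (by nlinarith) hp2 le_rfl le_rfl hg'
  have k3 := gen ((Fintype.card T : ℝ) ^ 2) ((p : ℝ) ^ 2) k 1 1 (by positivity) (by positivity)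
    (by linarith) zero_le_one zero_le_one (by nlinarith) le_rfl (by linarith) hj' hg'
  have k4 := gen 1 1 k 1 g zero_le_one zero_le_one (by linarith) zero_le_one (by linarith)
    hL2 hp2 (by linarith) hj' le_rfl
  have hQ : (p * (Fintype.card X + 1) : ℝ) * Real.exp (-ζ) ≤ 1 / 2 := by
    have h1 : (p * (Fintype.card X + 1) : ℝ) ≤ (p * (Fintype.card X + 1) : ℝ) ^ 2 := by nlinarith
    have h2 := mul_le_mul_of_nonneg_right h1 hE.le
    rw [← hA] at h2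
    linarith
  have hgT : Fintype.card T ≤ 2 ^ g := by
    have h1 : β * 2 ^ g ≤ 2 ^ g := mul_le_of_le_one_left (by positivity) hβ1
    have h2 : (Fintype.card T : ℝ) ≤ 48 * k * Fintype.card T :=
      le_mul_of_one_le_left hL (by linarith)
    have h3 : (Fintype.card T : ℝ) ≤ 2 ^ g := by linarith
    exact_mod_cast h3
  have hQ4 : 2 * (p * (Fintype.card X + 1) : ℝ) ^ 2 * Real.exp (-ζ) ≤ 1 / (4 * k * g : ℕ) := by
    have h0 : (0 : ℝ) < (4 * k * g : ℕ) := by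
      have : 0 < 4 * k * g := by positivity
      exact_mod_cast this
    rw [le_div_iff₀ h0, mul_assoc 2, ← hA]
    push_cast
    linarith
  have f1 := σ.fail_t1 hk hj hθ0 hθ1 hτ0 hτ1 hε z1 hQ
  have f2 := σ.fail_t2 hS hk hj hθ0 hθ1 hτ0 hτ1 hε z1 hQ
  have f3 := σ.fail_t3 P hS hk hj hθ0 hθ1 hτ0 hτ1 hε z1 z2 hQ
  have f4 := σ.fail_t4 P hk hj hθ0 hθ1 hτ0 hτ1 hg1 hgT z3 hQ4
  have f5 := σ.fail_t5 P hS hk hj hτ0 hτ1 hC z4 hQ
  have f6 := (σ.fail_t6 P phi hS hk hj hτ0 hτ1 hch hc).trans hμ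
  rw [mul_assoc 2, ← hA] at f1 f2
  rw [mul_assoc 3, ← hA] at f3
  rw [mul_assoc 4, ← hA] at f5
  have g1 := le_of_mul_le_mul_left (f1.trans (show _ ≤ ε * (β / 200) by linarith)) hε
  have g2 := le_of_mul_le_mul_left (f2.trans (show _ ≤ ε * (β / 200) by linarith)) hε
  have g3 := le_of_mul_le_mul_left (f3.trans (show _ ≤ ε * (β / 100) by
    have := mul_pos hε hβ
    linarith)) hε
  have g4 := f4.trans (show _ ≤ β / 8 by
    rw [div_le_iff₀ (by positivity)]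
    linarith)
  have g5 := f5.trans (show _ ≤ β / 100 by linarith)
  have u1 := Pw_or_le hw _ _ |>.trans (add_le_add g5 f6)
  have u2 := Pw_or_le hw _ _ |>.trans (add_le_add g4 u1)
  have u3 := Pw_or_le hw _ _ |>.trans (add_le_add g3 u2)
  have u4 := Pw_or_le hw _ _ |>.trans (add_le_add g2 u3)
  have u5 := Pw_or_le hw _ _ |>.trans (add_le_add g1 u4)
  obtain ⟨l, hl, hn⟩ := Ew_exists_off hw bias hb1 _ hb (lt_of_le_of_lt u5 (by linarith))
  simp only [not_or, not_not] at hn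
  exact ⟨l, hl, hn.1, hn.2.1, hn.2.2.1, hn.2.2.2.1, hn.2.2.2.2.1, hn.2.2.2.2.2⟩

end Ext

end Pool.Agent.P.MP_85fe51_lc.OD
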