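import Pool.Agent.P.MP_85fe51_lc.OSurv
import Pool.Agent.P.MP_85fe51_lc.OSeqB
import Pool.Agent.P.MP_85fe51_lc.OCs
import Pool.Agent.P.MP_85fe51_lc.ORest
import Pool.Agent.P.MP_85fe51_lc.OHit
import Pool.Agent.P.MP_85fe51_lc.ODecay
import Pool.Agent.P.MP_85fe51_lc.OTyp

set_option autoImplicit false

namespace Pool.Agent.P.MP_85fe51_lc.OD

open Finset
open scoped Classical

variable {p : ℕ} [Fact p.Prime] {X : Type} [Fintype X] [DecidableEq X] {T : Type} [Fintype T]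
  {k j : ℕ} {V : Type} [AddCommGroup V] [Fintype V]

theorem obias_half : Real.exp (-1) < 1 / 2 := by
  rw [Real.exp_neg, one_div]
  exact inv_strictAnti₀ two_pos (by linarith [Real.add_one_lt_exp (one_ne_zero (α := ℝ))])

theorem obias_pow (v : ℕ) : Real.exp (-(v : ℝ)) ≤ (1 / 2) ^ v := by
  rw [show (-(v : ℝ)) = v * (-1) by ring, Real.exp_nat_mul]
  exact pow_le_pow_left₀ (Real.exp_pos _).le obias_half.le v

theorem obias_decay {v g : ℕ} {x : ℝ} (h1 : x ≤ 1)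
    (h : ((1 / 2 : ℝ) ^ v) ^ 2 ≤ 9 * (1 - x) ^ g) : x * g ≤ 2 * (v + 2) := by
  have a : (1 - x) ^ g ≤ Real.exp (g * (-x)) := by
    rw [Real.exp_nat_mul]
    exact pow_le_pow_left₀ (by linarith) (by linarith [Real.add_one_le_exp (-x)]) g
  have b : (9 : ℝ) ≤ Real.exp (2 + 2) := by
    rw [Real.exp_add]
    nlinarith [Real.add_one_le_exp 2]
  have c : Real.exp (-(v : ℝ)) ^ 2 ≤ Real.exp (2 + 2) * Real.exp (g * (-x)) :=
    ((pow_le_pow_left₀ (Real.exp_pos _).le (obias_pow v) 2).trans h).trans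
      (mul_le_mul b a (pow_nonneg (by linarith) g) (Real.exp_pos _).le)
  rw [← Real.exp_nat_mul, ← Real.exp_add, Real.exp_le_exp] at c
  push_cast at c
  linarith

theorem obias_pi (k v : ℕ) : Real.exp (-(k * v + 1 : ℝ)) < (2 * piK p k) ^ v / 2 := by
  have hp : (2 : ℝ) ≤ p := by exact_mod_cast (Fact.out : p.Prime).two_le
  have a : (1 / 2 : ℝ) ^ k ≤ piK p k :=
    pow_le_pow_left₀ (by norm_num) (by linarith [one_div_le_one_div_of_le two_pos hp]) k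
  have b : Real.exp (-(k : ℝ)) ^ v ≤ (2 * piK p k) ^ v :=
    pow_le_pow_left₀ (Real.exp_pos _).le
      (by linarith [obias_pow k, Real.exp_pos (-(k : ℝ))]) v
  rw [← Real.exp_nat_mul] at b
  rw [show (-(k * v + 1) : ℝ) = v * (-(k : ℝ)) + -1 by ring, Real.exp_add]
  nlinarith [obias_half, Real.exp_pos (v * (-(k : ℝ)))]

namespace Ext
variable (σ : Ext p X T) (P : Pat k j)

/-- typical labels carry no bias. -/
theorem bias_contra (phi : T → ZMod p → V) (hphi : ∀ t, SZ (phi t)) {m c1 C' v t E1 : ℕ}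
    {θ γ ε q pmin μ : ℝ} (hθ : ThB p m c1 θ) (hγ : Gam p m γ) (hV : ∀ v : V, m • v = 0)
    (hN : NoP p V) (ψ : AddChar V ℂ) (hψ : ∀ v, ψ v = 1 → v = 0) {Seq : Finset T}
    (hS : σ.SeqOK Seq) {l : X → Lab k j} (hT : σ.Typ P phi Seq θ ε (Seq.card * pmin) c1 C' l)
    (hb : 2 * (1 / 2 : ℝ) ^ v ≤ ‖(σ.Om P l).expect (fun x => ψ (DS P σ.lam phi x))‖)
    (hε0 : 0 ≤ ε) (hεk : 8 * (p : ℝ) ^ 2 * (k + 1) * ε ≤ 1) (hC : 1 ≤ C')
    (hQ : 4 * (p * (Fintype.card X + 1) : ℝ) ^ 2 * Real.sqrt θ ^ C' ≤ 1)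
    (hE : 2 * ((p : ℝ) - 1) ^ E1 ≤ (p : ℝ) ^ E1) (hq0 : 0 < q) (hq1 : q ≤ 1)
    (hq : 4 * piK p k ≤ q) (ht1 : 1 ≤ t) (ht : Fintype.card T < 2 ^ t)
    (hμ : μ ≤ Seq.card * pmin)
    (hδ : 6 * (((k + 1) * j + k : ℕ) : ℝ) * ε + 2 * σ.M4 * piK p k ^ 2 ≤ pmin / 32)
    (hq2 : 2 * (4 * piK p k / q) ^ 2 ≤ pmin / 64)
    (hy : 2 * (σ.K * v + 4 * piK p k *
      (6 * C' * (σ.K1 + 1) * (v + 64 * t * q * Fintype.card T + 2))) +
      2 * (v + 2) * (σ.M4 : ℝ) ^ E1 / (1 - γ) ≤ μ / 64)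
    (hk : k * v + 1 ≤ μ / 16) : False := by
  have hp : (2 : ℝ) ≤ p := by exact_mod_cast (Fact.out : p.Prime).two_le
  have hk0 : (0 : ℝ) ≤ k := Nat.cast_nonneg k
  have hv0 : (0 : ℝ) ≤ v := Nat.cast_nonneg v
  have hp2 : (4 : ℝ) ≤ (p : ℝ) ^ 2 := by nlinarith
  have hkε : 0 ≤ k * ε := mul_nonneg hk0 hε0
  have hpε : 0 ≤ ((p : ℝ) ^ 2 - 4) * ε := mul_nonneg (by linarith) hε0
  have hpkε : 0 ≤ ((p : ℝ) ^ 2 - 4) * (k * ε) := mul_nonneg (by linarith) hkε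
  have e1 : ε ≤ 1 / 3 := by nlinarith
  have e2 : 8 * k * ε ≤ 1 := by nlinarith
  have e3 : 4 * (p : ℝ) ^ 2 * k * ε ≤ 1 := by nlinarith
  have hπ : 0 < piK p k := piK_pos k
  have hμ0 : 16 ≤ μ := by nlinarith [mul_nonneg hk0 hv0]
  have hne : Seq.Nonempty := by
    rw [Finset.nonempty_iff_ne_empty]
    rintro rfl
    simp only [Finset.card_empty, Nat.cast_zero, zero_mul] at hμ
    linarith
  have hn : (0 : ℝ) < Seq.card := by exact_mod_cast hne.card_pos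
  have hM : (1 : ℝ) ≤ (σ.M4 : ℝ) ^ E1 := by
    obtain ⟨e, he⟩ := hne
    refine one_le_pow₀ ?_
    exact_mod_cast (Finset.card_pos.2 ⟨e, σ.self_mem_Mid e⟩).trans_le (σ.mid e (hS e he).1)
  have hγ1 : 0 < 1 - γ := by linarith [hγ.2.1]
  have hB : (1 / 2 : ℝ) ^ v ≤ pr (σ.Om P l) fun x => (1 / 2 : ℝ) ^ v ≤ ‖σ.inner P phi ψ l x‖ := by
    refine pr_large _ _ (fun x _ => ?_) (by positivity) (hb.trans (σ.expect_inner P l ψ phi))
    refine (RCLike.norm_expect_le (K := ℂ)).trans (le_trans (le_of_eq ?_)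
      (pr_le_one (fib (σ.U ⊔ co (subSet σ.Y l P.a0)ᶜ) (atomSet σ.Y l P.a0) (x (Sum.inl P.a0)))
        fun _ => True))
    exact Finset.expect_congr rfl fun A _ => by rw [ψ.norm_apply, if_pos trivial]
  obtain ⟨G, g1, g2, g3, g4⟩ := restore (σ.Om P l) (Rs P σ.lam) σ.Free σ.free_empty hπ
    (hq.trans hq1) (fun F hF => σ.surv_le P hθ.thC hε0 (by linarith) e2 l hT.t1 hT.t4 hF) _ hB
  have h1 := hS.hit_expect (a := subSet σ.Y l P.a0) (Finset.filter_subset _ _) hC hT.t5 _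
    (Rs P σ.lam) g1 (fun x hx => (Finset.mem_filter.1 hx).2.2) hπ.le hq hq0 hq1 g4 ht1 ht
  have g2' : (G.card : ℝ) ≤ v := by exact_mod_cast g2
  have h2 := σ.seq_prod_le P phi hθ hV hS hT hε0 e1 e3
  have hcard : Fintype.card (Cp k j) = (k + 1) * j + k := by simp
  rw [hcard, ← neg_neg (-(Seq.card * pmin) / 8 + _)] at h2
  have h3 := count_contra (σ.Om P l)
    (fun x => (1 / 2 : ℝ) ^ v ≤ ‖σ.inner P phi ψ l x‖ ∧ G ⊆ Rs P σ.lam x)
    (fun x => (Seq.filter (fun i => σ.Act P phi c1 l i x)).card)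
    (fun x => (Seq.filter (fun i => i ∈ Rs P σ.lam x ∧
      (∀ t ∈ σ.Mid i, t ∉ σ.LCl i → t ∉ Rs P σ.lam x) ∧ σ.Hit (subSet σ.Y l P.a0) C' i
        (σ.U ⊔ spn σ.lam (Rs P σ.lam x \ σ.LCl i)))).card)
    (y := 2 * (σ.K * v + 4 * piK p k *
      (6 * C' * (σ.K1 + 1) * (v + 64 * t * q * Fintype.card T + 2)) +
        Seq.card * (4 * piK p k / q) ^ 2))
    (y1 := 2 * (v + 2) * (σ.M4 : ℝ) ^ E1 / (1 - γ)) (by positivity) g3 (by positivity)
    ?_ (fun x hx hB => ?_) h2 (by positivity)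
  · refine (obias_pi (p := p) k v).not_ge (h3.trans (Real.exp_le_exp.2 ?_))
    have a := mul_le_mul_of_nonneg_left hδ hn.le
    have b := mul_le_mul_of_nonneg_left hq2 hn.le
    linarith
  · rw [mul_div_cancel_left₀ _ (two_ne_zero (α := ℝ))]
    refine le_trans (le_of_eq ?_) (h1.trans ?_)
    · congr
    · gcongr
  · have a := hS.decay hθ hγ hV hN ψ hψ P phi hphi hC hQ hE l hx
    have b := obias_decay ((div_le_one (by linarith)).2 (by linarith [hγ.1]))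
      ((pow_le_pow_left₀ (by positivity) hB.1 2).trans a)
    rw [div_mul_eq_mul_div, div_le_iff₀ (by linarith), mul_comm, ← le_div_iff₀ hγ1] at b
    refine le_trans ?_ (add_le_add le_rfl b)
    rw [← Nat.cast_add, Nat.cast_le]
    refine le_trans (Finset.card_le_card fun i hi => ?_) (Finset.card_union_le _ _)
    obtain ⟨c1, c2⟩ := Finset.mem_filter.1 hi
    rw [Finset.mem_union, Finset.mem_filter, Finset.mem_filter]
    by_cases c : σ.Hit (subSet σ.Y l P.a0) C' i (σ.U ⊔ spn σ.lam (Rs P σ.lam x \ σ.LCl i))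
    · refine Or.inl ⟨c1, ?_, fun t d1 d2 d3 => c2.2.2.1 t d1 d2 (Finset.mem_filter.1 d3).2, c⟩
      exact Finset.mem_filter.2 ⟨Finset.mem_univ _, c2.2.1⟩
    · exact Or.inr ⟨c1, c2, c⟩

end Ext

end Pool.Agent.P.MP_85fe51_lc.OD
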