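import Pool.Agent.P.MP_85fe51_lc.ODot
import Pool.Agent.P.MP_85fe51_lc.OProb
import Pool.Agent.P.MP_85fe51_lc.ODL

set_option autoImplicit false

namespace Pool.Agent.P.MP_85fe51_lc.OD

open Finset
open scoped Classical

variable {p : ℕ} [Fact p.Prime]

theorem obour_bound (s : Finset ℝ) : ∃ γ : ℝ, 0 ≤ γ ∧ γ < 1 ∧ ∀ x ∈ s, x < 1 → x ≤ γ := by
  induction s using Finset.induction_on with
  | empty => exact ⟨0, le_rfl, one_pos, by simp⟩
  | insert a s _ ih =>
    obtain ⟨γ, h0, h1, h⟩ := ih
    by_cases ha : a < 1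
    · refine ⟨max γ a, le_max_of_le_left h0, max_lt h1 ha, fun x hx hx1 => ?_⟩
      rcases mem_insert.1 hx with rfl | hx
      · exact le_max_right _ _
      · exact le_max_of_le_left (h x hx hx1)
    · refine ⟨γ, h0, h1, fun x hx hx1 => ?_⟩
      rcases mem_insert.1 hx with rfl | hx
      · exact absurd hx1 ha
      · exact h x hx hx1

theorem obour_pos {m : ℕ} (hm : Nat.Coprime m p) : 0 < m := by
  refine Nat.pos_of_ne_zero fun h => ?_
  rw [h, Nat.coprime_zero_left] at hm
  exact (Fact.out : p.Prime).ne_one hm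

theorem obour_cast {m : ℕ} (hm : Nat.Coprime m p) : (m : ZMod p) ≠ 0 := by
  rw [Ne, ZMod.natCast_eq_zero_iff]
  exact ((Fact.out : p.Prime).coprime_iff_not_dvd).1 hm.symm

theorem obour_pow {V : Type} [AddCommGroup V] {m : ℕ} (hV : ∀ v : V, m • v = 0)
    (τ : AddChar V ℂ) (v : V) : τ v ^ m = 1 := by
  rw [← AddChar.map_nsmul_eq_pow, hV, AddChar.map_zero_eq_one]

theorem obour_ch_sum {ι : Type} (I : Finset ι) (f : ι → ZMod p) :
    ch (∑ i ∈ I, f i) = ∏ i ∈ I, ch (f i) := by
  induction I using Finset.induction_on with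
  | empty => simp [ch_zero]
  | insert a s ha ih => rw [sum_insert ha, prod_insert ha, ch_add, ih]

theorem obour_tau_sum {V ι : Type} [AddCommGroup V] (τ : AddChar V ℂ) (I : Finset ι) (f : ι → V) :
    τ (∑ i ∈ I, f i) = ∏ i ∈ I, τ (f i) := by
  induction I using Finset.induction_on with
  | empty => simp
  | insert a s ha ih => rw [sum_insert ha, prod_insert ha, AddChar.map_add_eq_mul, ih]

theorem obour_norm {Ω : Type} (s : Finset Ω) (f : Ω → ℂ) :
    ‖s.expect f‖ ≤ s.expect (fun x => ‖f x‖) := by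
  rw [expect_eq_sum_div_card, expect_eq_sum_div_card, norm_div, Complex.norm_natCast]
  exact div_le_div_of_nonneg_right (norm_sum_le _ _) (Nat.cast_nonneg _)

section
variable {X : Type} [DecidableEq X]

theorem obour_split {K : Type} [Field K] [CharZero K] (a : Finset X) (f g : X → K) :
    a.powerset.expect (fun A => (∏ i ∈ A, f i) * ∏ i ∈ a \ A, g i) =
      ∏ i ∈ a, (f i + g i) / 2 := by
  rw [expect_eq_sum_div_card, ← prod_add, card_powerset, prod_div_distrib, prod_const]
  push_cast
  rfl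

theorem obour_out {a T : Finset X} (hT : T ⊆ a) (θ : ℝ) :
    a.powerset.expect (fun A => θ ^ (T \ A).card) = ((1 + θ) / 2) ^ T.card := by
  have h := obour_split a (fun _ => (1 : ℝ)) (fun i => if i ∈ T then θ else 1)
  have e1 : ∀ A : Finset X, (∏ _i ∈ A, (1 : ℝ)) * ∏ i ∈ a \ A, (if i ∈ T then θ else 1) =
      θ ^ (T \ A).card := by
    intro A
    rw [prod_const_one, one_mul, prod_ite_mem, prod_const]
    congr 2
    ext i
    simp only [mem_inter, mem_sdiff]
    exact ⟨fun h => ⟨h.2, h.1.2⟩, fun h => ⟨⟨hT h.1, h.2⟩, h.1⟩⟩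
  have e2 : ∀ i : X, ((1 : ℝ) + if i ∈ T then θ else 1) / 2 =
      if i ∈ T then (1 + θ) / 2 else 1 := by
    intro i
    split_ifs <;> norm_num
  simp only [e1, e2] at h
  rw [h, prod_ite_mem, prod_const, inter_eq_right.2 hT]

theorem obour_outs {m : ℕ} {a T : Finset X} (hT : T ⊆ a) (J : Finset (Fin m)) : ∀ θ : ℝ,
    (Fintype.piFinset fun _ : Fin m => a.powerset).expect
      (fun x => θ ^ (T \ J.biUnion x).card) = (1 - (1 - θ) / 2 ^ J.card) ^ T.card := by
  have hne : (Fintype.piFinset fun _ : Fin m => a.powerset).Nonempty :=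
    Fintype.piFinset_nonempty.2 fun _ => ⟨∅, empty_mem_powerset a⟩
  induction J using Finset.induction_on with
  | empty =>
    intro θ
    simp only [biUnion_empty, sdiff_empty, card_empty, pow_zero, div_one, sub_sub_cancel]
    exact expect_const hne _
  | insert j J hj ih =>
    intro θ
    rw [expect_update _ j]
    have e : ∀ x : Fin m → Finset X, a.powerset.expect
        (fun y => θ ^ (T \ (insert j J).biUnion (Function.update x j y)).card) =
          ((1 + θ) / 2) ^ (T \ J.biUnion x).card := by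
      intro x
      rw [← obour_out (sdiff_subset.trans hT) θ]
      refine expect_congr rfl fun y _ => ?_
      have e1 : J.biUnion (Function.update x j y) = J.biUnion x :=
        biUnion_congr rfl fun i hi => Function.update_of_ne (fun h : i = j => hj (h ▸ hi)) _ _
      rw [biUnion_insert, Function.update_self, e1, union_comm, sdiff_sdiff_left]
      rfl
    simp only [e]
    rw [ih, card_insert_of_notMem hj]
    congr 1
    rw [pow_succ]
    field_simp
    ring

/-- the coordinates of `a` on which all the sets agree. -/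
noncomputable def obourS {m : ℕ} (a : Finset X) (x : Fin m → Finset X) : Finset X :=
  a.filter fun i => ∀ j j', i ∈ x j → i ∈ x j'

theorem obour_class {m : ℕ} (hm : 0 < m) (a : Finset X) (G : (Fin m → Finset X) → ℂ) :
    (Fintype.piFinset fun _ : Fin m => a.powerset).expect G =
      (Fintype.piFinset fun _ : Fin m => a.powerset).expect (fun x =>
        (obourS a x).powerset.expect fun C => G fun j => C ∪ (x j \ obourS a x)) := by
  rw [expect_cond _ (fun x => (obourS a x, fun j => x j \ obourS a x)) G]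
  refine expect_congr rfl fun x hx => ?_
  have hxa : ∀ j, x j ⊆ a := fun j => mem_powerset.1 (Fintype.mem_piFinset.1 hx j)
  have hS : obourS a x ⊆ a := filter_subset _ _
  let j0 : Fin m := ⟨0, hm⟩
  have hinj : Set.InjOn (fun (C : Finset X) (j : Fin m) => C ∪ (x j \ obourS a x))
      ((obourS a x).powerset : Set (Finset X)) := by
    intro C hC C' hC' h
    have h1 : C ⊆ obourS a x := mem_powerset.1 hC
    have h2 : C' ⊆ obourS a x := mem_powerset.1 hC'
    have h3 : C ∪ (x j0 \ obourS a x) = C' ∪ (x j0 \ obourS a x) := congrFun h j0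
    ext i
    have h4 := congrArg (fun s => i ∈ s) h3
    simp only [mem_union, mem_sdiff, eq_iff_iff] at h4
    have := @h1 i
    have := @h2 i
    tauto
  rw [← expect_image hinj]
  refine expect_congr ?_ fun _ _ => rfl
  ext y
  simp only [mem_filter, mem_image, Fintype.mem_piFinset, mem_powerset, Prod.mk.injEq]
  constructor
  · rintro ⟨-, h1, h2⟩
    refine ⟨y j0 ∩ obourS a x, inter_subset_right, funext fun j => ?_⟩
    have h3 : y j \ obourS a y = x j \ obourS a x := congrFun h2 j
    rw [← h3, ← h1]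
    ext i
    simp only [mem_union, mem_inter, mem_sdiff]
    by_cases hi : i ∈ obourS a y
    · have h4 := (mem_filter.1 hi).2
      have := h4 j j0
      have := h4 j0 j
      tauto
    · tauto
  · rintro ⟨C, hC, rfl⟩
    have h1 : obourS a (fun j => C ∪ (x j \ obourS a x)) = obourS a x := by
      ext i
      by_cases hi : i ∈ obourS a x
      · refine iff_of_true (mem_filter.2 ⟨hS hi, fun j j' h => ?_⟩) hi
        simp only [mem_union, mem_sdiff] at h ⊢
        tauto
      · refine iff_of_false (fun h => hi (mem_filter.2 ⟨(mem_filter.1 h).1, fun j j' h' => ?_⟩)) hi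
        have h2 := (mem_filter.1 h).2 j j'
        simp only [mem_union, mem_sdiff] at h2
        have := @hC i
        tauto
    refine ⟨fun j => union_subset (hC.trans hS) (sdiff_subset.trans (hxa j)), h1, ?_⟩
    funext j
    rw [h1]
    ext i
    simp only [mem_union, mem_sdiff]
    have := @hC i
    tauto

end

theorem obour_zero {m : ℕ} (hm : Nat.Coprime m p) : ∃ θ, ThB p m 0 θ := by
  obtain ⟨θ, h0, h1, h⟩ := obour_bound (univ.image fun s : ZMod p => ‖(ch s + 1) / 2‖)
  refine ⟨θ, h0, h1, fun X _ _ V _ hV τ a P μ hP => ?_⟩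
  have hc : ∀ B, B ⊆ a → P B = P ∅ := by
    intro B hB
    have h2 : P (∅ ∪ B) - P ∅ ∈ (⊥ : AddSubgroup V) := hP B hB trivial ∅ (empty_subset _) trivial
    rw [AddSubgroup.mem_bot, empty_union, sub_eq_zero] at h2
    exact h2
  have e : a.powerset.expect (fun A => τ (P A) * ch (dot μ A)) =
      τ (P ∅) * ∏ i ∈ a, (ch (μ i) + 1) / 2 := by
    rw [← obour_split a (fun i => ch (μ i)) (fun _ => 1), mul_expect]
    refine expect_congr rfl fun A hA => ?_
    rw [hc A (mem_powerset.1 hA), dot, obour_ch_sum, prod_const_one, mul_one]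
  rw [e, norm_mul, Complex.norm_eq_one_of_pow_eq_one (obour_pow hV τ _) (obour_pos hm).ne',
    one_mul, norm_prod, inter_comm, ← prod_const, ← prod_ite_mem]
  refine prod_le_prod (fun _ _ => norm_nonneg _) fun i _ => ?_
  split_ifs with hi
  · refine h _ (mem_image.2 ⟨μ i, mem_univ _, rfl⟩) ?_
    have h2 : ch (μ i) ≠ 1 := fun h => (mem_filter.1 hi).2 (ch_eq_one.1 h)
    have h3 := norm_add_le (ch (μ i)) 1
    have h4 : ‖ch (μ i) + 1‖ ≠ ‖ch (μ i)‖ + ‖(1 : ℂ)‖ := fun h =>
      h2 (eq_of_norm_eq_of_norm_add_eq (by rw [norm_ch, norm_one]) h)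
    have h5 := lt_of_le_of_ne h3 h4
    rw [norm_ch, norm_one] at h5
    rw [norm_div, Complex.norm_ofNat]
    linarith
  · have h3 := norm_add_le (ch (μ i)) 1
    rw [norm_ch, norm_one] at h3
    rw [norm_div, Complex.norm_ofNat]
    linarith

theorem obour_step {m : ℕ} (hm : Nat.Coprime m p) {c : ℕ} {θ : ℝ} (h : ThB p m c θ) :
    ∃ θ', ThB p m (c + 1) θ' := by
  obtain ⟨h0, h1, h⟩ := h
  have hm0 := obour_pos hm
  have hm1 : (1 : ℝ) ≤ m := by exact_mod_cast hm0
  set δ : ℝ := (1 - θ) / 2 ^ m with hδ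
  have hδ0 : 0 < δ := div_pos (by linarith) (by positivity)
  have hδ1 : δ ≤ 1 := by
    rw [hδ, div_le_one (by positivity)]
    have : (1 : ℝ) ≤ 2 ^ m := one_le_pow₀ (by norm_num)
    linarith
  have hq0 : 0 < δ / m := by positivity
  have hq1 : δ / m ≤ 1 := by
    rw [div_le_one (by linarith)]
    linarith
  refine ⟨1 - δ / m, by linarith, by linarith, fun X _ _ V _ hV τ a P μ hP => ?_⟩
  have hb : 1 - δ ≤ (1 - δ / m) ^ m := by
    have h2 := one_add_mul_le_pow (a := -(δ / m)) (by linarith) m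
    have h3 : (m : ℝ) * -(δ / m) = -δ := by field_simp
    rw [h3] at h2
    simpa only [sub_eq_add_neg] using h2
  refine le_of_pow_le_pow_left₀ hm0.ne' (pow_nonneg (by linarith) _) ?_
  rw [← pow_mul, mul_comm, pow_mul, ← norm_pow, expect_pow, obour_class hm0]
  refine (obour_norm _ _).trans (le_trans ?_ (pow_le_pow_left₀ (by linarith) hb _))
  have h2 := obour_outs (m := m) (T := supp μ ∩ a) inter_subset_right univ θ
  rw [card_univ, Fintype.card_fin] at h2
  rw [hδ, ← h2]
  refine expect_le_expect fun x hx => ?_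
  have hxa : ∀ j, x j ⊆ a := fun j => mem_powerset.1 (Fintype.mem_piFinset.1 hx j)
  have hS : obourS a x ⊆ a := filter_subset _ _
  have hD : DL ⊥ (fun _ => True) (c + 1) (obourS a x)
      (fun C => ∑ j, (P (C ∪ (x j \ obourS a x)) - P C)) :=
    DL_sum _ _ fun j _ => DL.mono_set (hP _ (sdiff_subset.trans (hxa j)) trivial) fun i hi =>
      mem_sdiff.2 ⟨hS hi, fun h' => (mem_sdiff.1 h').2 hi⟩
  have h3 := h X V hV τ _ _ ((m : ZMod p) • μ) hD
  have e : (obourS a x).powerset.expect (fun C => ∏ j, τ (P (C ∪ (x j \ obourS a x))) *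
      ch (dot μ (C ∪ (x j \ obourS a x)))) = ch (∑ j, dot μ (x j \ obourS a x)) *
        (obourS a x).powerset.expect (fun C => τ (∑ j, (P (C ∪ (x j \ obourS a x)) - P C)) *
          ch (dot ((m : ZMod p) • μ) C)) := by
    rw [mul_expect]
    refine expect_congr rfl fun C hC => ?_
    have hd : ∀ j, dot μ (C ∪ (x j \ obourS a x)) = dot μ C + dot μ (x j \ obourS a x) := fun j =>
      dot_union μ (disjoint_left.2 fun i hi h' => (mem_sdiff.1 h').2 (mem_powerset.1 hC hi))
    simp only [hd]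
    rw [prod_mul_distrib, ← obour_tau_sum, ← obour_ch_sum, sum_sub_distrib, sum_const, card_univ,
      Fintype.card_fin, hV, sub_zero, sum_add_distrib, sum_const, card_univ, Fintype.card_fin,
      nsmul_eq_mul, ch_add, dot_smul]
    ring
  rw [e, norm_mul, norm_ch, one_mul]
  refine h3.trans (pow_le_pow_of_le_one h0 h1.le (card_le_card fun i hi => ?_))
  obtain ⟨hi1, hi2⟩ := mem_sdiff.1 hi
  obtain ⟨hi3, hi4⟩ := mem_inter.1 hi1
  refine mem_inter.2 ⟨mem_filter.2 ⟨mem_univ _, ?_⟩, mem_filter.2 ⟨hi4, fun j _ hj => ?_⟩⟩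
  · exact mul_ne_zero (obour_cast hm) (mem_filter.1 hi3).2
  · exact absurd (mem_biUnion.2 ⟨j, mem_univ _, hj⟩) hi2

theorem exists_thB {m : ℕ} (hm : Nat.Coprime m p) (c : ℕ) : ∃ θ, ThB p m c θ := by
  induction c with
  | zero => exact obour_zero hm
  | succ c ih =>
    obtain ⟨θ, h⟩ := ih
    exact obour_step hm h

theorem obour_eq {Ω : Type} [Fintype Ω] (z : Ω → ℂ) (hz : ∀ s, ‖z s‖ = 1)
    (h : 1 ≤ ‖(univ : Finset Ω).expect z‖) (s t : Ω) : z s = z t := by
  by_contra hne
  have hst : s ≠ t := fun e => hne (e ▸ rfl)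
  have h1 : ‖z s + z t‖ < 2 := by
    have h3 := norm_add_le (z s) (z t)
    have h4 : ‖z s + z t‖ ≠ ‖z s‖ + ‖z t‖ := fun h =>
      hne (eq_of_norm_eq_of_norm_add_eq (by rw [hz, hz]) h)
    have h5 := lt_of_le_of_ne h3 h4
    rw [hz, hz] at h5
    linarith
  have hsub : ({s, t} : Finset Ω) ⊆ univ := subset_univ _
  have h2 : ‖∑ x ∈ univ \ {s, t}, z x‖ ≤ ((univ \ {s, t} : Finset Ω).card : ℝ) := by
    refine (norm_sum_le _ _).trans (le_of_eq ?_)
    simp only [hz, sum_const, nsmul_eq_mul, mul_one]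
  have h3 : ((univ \ {s, t} : Finset Ω).card : ℝ) + 2 = (univ : Finset Ω).card := by
    have := card_sdiff_add_card_eq_card hsub
    rw [card_pair hst] at this
    exact_mod_cast this
  have h4 : (0 : ℝ) < (univ : Finset Ω).card := by
    have : (0 : ℝ) ≤ ((univ \ {s, t} : Finset Ω).card : ℝ) := Nat.cast_nonneg _
    linarith
  rw [expect_eq_sum_div_card, norm_div, Complex.norm_natCast, one_le_div h4, ← sum_sdiff hsub,
    sum_pair hst] at h
  have h5 := norm_add_le (∑ x ∈ univ \ {s, t}, z x) (z s + z t)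
  linarith

theorem exists_gam {m : ℕ} (hm : Nat.Coprime m p) : ∃ γ, Gam p m γ := by
  have hm0 := obour_pos hm
  obtain ⟨γ, h0, h1, h⟩ := obour_bound
    (((Fintype.piFinset fun _ : ZMod p => Polynomial.nthRootsFinset m (1 : ℂ)) ×ˢ
      (univ : Finset (ZMod p))).image fun q =>
        ‖(univ : Finset (ZMod p)).expect (fun s => ch (-(q.2 * s)) * q.1 s)‖)
  refine ⟨γ, h0, h1, fun V _ hV ψ hψ w hw hw0 i => ?_⟩
  refine h _ (mem_image.2 ⟨(fun s => ψ (w s), i), mem_product.2 ⟨Fintype.mem_piFinset.2 fun s =>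
    (Polynomial.mem_nthRootsFinset hm0 1).2 (obour_pow hV ψ _), mem_univ _⟩, rfl⟩) ?_
  by_contra hn
  have hz := obour_eq (fun s => ch (-(i * s)) * ψ (w s)) (fun s => by
    rw [norm_mul, norm_ch, Complex.norm_eq_one_of_pow_eq_one (obour_pow hV ψ _) hm0.ne', one_mul])
    (not_lt.1 hn)
  have hi : i = 0 := by
    have h2 := congrArg (fun z => z ^ m) (hz 1 0)
    simp only [mul_pow, obour_pow hV, mul_one, mul_zero, neg_zero, ch_zero, one_pow] at h2
    have h3 : ch (∑ _j : Fin m, -i) = 1 := by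
      rw [obour_ch_sum, prod_const, card_univ, Fintype.card_fin, h2]
    rw [ch_eq_one, sum_const, card_univ, Fintype.card_fin, nsmul_eq_mul, mul_eq_zero] at h3
    exact neg_eq_zero.1 (h3.resolve_left (obour_cast hm))
  have hc : ∀ s, w s = w 0 := by
    intro s
    have h2 := hz s 0
    simp only [hi, zero_mul, neg_zero, ch_zero, one_mul] at h2
    refine sub_eq_zero.1 (hψ _ ?_)
    have h3 : ψ (w s - w 0) * ψ (w 0) = ψ (w 0) := by
      rw [← AddChar.map_add_eq_mul, sub_add_cancel, h2]
    have h4 : ψ (w 0) ≠ 0 := fun e => by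
      have := obour_pow hV ψ (w 0)
      rw [e, zero_pow hm0.ne'] at this
      exact zero_ne_one this
    exact mul_right_cancel₀ h4 (by rw [h3, one_mul])
  have h5 : w 0 = 0 := by
    refine noP_of_coprime hm hV _ ?_
    have h6 : ∑ s, w s = ∑ _s : ZMod p, w 0 := sum_congr rfl fun s _ => hc s
    rw [sum_const, card_univ, ZMod.card] at h6
    rw [← h6]
    exact hw
  exact hw0 (funext fun s => (hc s).trans h5)

end Pool.Agent.P.MP_85fe51_lc.OD
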