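import Pool.Agent.P.MP_85fe51_lc.ODefs

set_option autoImplicit false

namespace Pool.Agent.P.MP_85fe51_lc.OD

open Finset
open scoped Classical

/-- the core statement for sums of ridge functions. -/
def Core (p : ℕ) [Fact p.Prime] : Prop :=
  ∀ (N V0 : Type) [AddCommGroup N] [Fintype N] [AddCommGroup V0] [Fintype V0],
    Nat.Coprime (Fintype.card N) p → ∀ c0 : ℕ, ∃ B y0 : ℕ, 1 ≤ B ∧ ∀ y, y0 ≤ y →
      ∀ (X T : Type) [Fintype X] [DecidableEq X] [Fintype T] (lam : T → Vec p X)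
        (phi : T → ZMod p → N) (f0 : Finset X → V0), (∀ t, SZ (phi t)) →
        (2 ^ y) ^ B ≤ Fintype.card X → Fintype.card X ≤ (2 ^ y) ^ (B + 1) →
        Fintype.card T ≤ (2 ^ y) ^ (B + 1) → DL ⊥ (fun _ => True) (c0 + 1) univ f0 →
        ∃ A : Finset X, A.Nonempty ∧ Sf lam phi A = Sf lam phi ∅ ∧ f0 A = f0 ∅

end Pool.Agent.P.MP_85fe51_lc.OD
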