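import Pool.Agent.P.MP_85fe51_lc.ODefs

set_option autoImplicit false

namespace Pool.Agent.P.MP_85fe51_lc.OD

open Finset
open scoped Classical

variable {X L : Type} [Fintype X] [DecidableEq X] [Fintype L]

theorem Ew_prod (w g : X → L → ℝ) :
    Ew w (fun l => ∏ i, g i (l i)) = ∏ i, ∑ a, w i a * g i a := by
  unfold Ew
  rw [Finset.prod_univ_sum, Fintype.piFinset_univ]
  exact Finset.sum_congr rfl fun l _ => (Finset.prod_mul_distrib).symm

theorem oew_one {w : X → L → ℝ} (hw : IsW w) : ∑ l : X → L, ∏ i, w i (l i) = 1 := by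
  have h := Ew_prod w fun _ _ => 1
  simpa [Ew, hw.2] using h

theorem oew_nonneg {w : X → L → ℝ} (hw : IsW w) (l : X → L) : 0 ≤ ∏ i, w i (l i) :=
  Finset.prod_nonneg fun i _ => hw.1 i _

theorem Ew_const {w : X → L → ℝ} (hw : IsW w) (c : ℝ) : Ew w (fun _ => c) = c := by
  unfold Ew
  rw [← Finset.sum_mul, oew_one hw, one_mul]

theorem Ew_mono {w : X → L → ℝ} (hw : IsW w) {F G : (X → L) → ℝ}
    (h : ∀ l, (∀ i, w i (l i) ≠ 0) → F l ≤ G l) : Ew w F ≤ Ew w G := by
  refine Finset.sum_le_sum fun l _ => ?_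
  by_cases a : ∀ i, w i (l i) ≠ 0
  · exact mul_le_mul_of_nonneg_left (h l a) (oew_nonneg hw l)
  · push Not at a
    obtain ⟨i, a⟩ := a
    rw [Finset.prod_eq_zero (Finset.mem_univ i) a, zero_mul, zero_mul]

theorem Ew_add (w : X → L → ℝ) (F G : (X → L) → ℝ) :
    Ew w (fun l => F l + G l) = Ew w F + Ew w G := by
  simp only [Ew, mul_add, Finset.sum_add_distrib]

theorem Ew_sub (w : X → L → ℝ) (F G : (X → L) → ℝ) :
    Ew w (fun l => F l - G l) = Ew w F - Ew w G := by
  simp only [Ew, mul_sub, Finset.sum_sub_distrib]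

theorem Ew_mul (w : X → L → ℝ) (c : ℝ) (F : (X → L) → ℝ) :
    Ew w (fun l => c * F l) = c * Ew w F := by
  simp only [Ew, Finset.mul_sum, mul_left_comm]

theorem Ew_sum {ι : Type} (w : X → L → ℝ) (I : Finset ι) (F : ι → (X → L) → ℝ) :
    Ew w (fun l => ∑ i ∈ I, F i l) = ∑ i ∈ I, Ew w (F i) := by
  simp only [Ew, Finset.mul_sum]
  exact Finset.sum_comm

theorem Ew_nonneg {w : X → L → ℝ} (hw : IsW w) {F : (X → L) → ℝ} (h : ∀ l, 0 ≤ F l) :
    0 ≤ Ew w F :=   Finset.sum_nonneg fun l _ => mul_nonneg (oew_nonneg hw l) (h l)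

theorem Pw_nonneg {w : X → L → ℝ} (hw : IsW w) (P : (X → L) → Prop) : 0 ≤ Pw w P :=   Ew_nonneg hw fun l => by split_ifs <;> norm_num

theorem Pw_le_one {w : X → L → ℝ} (hw : IsW w) (P : (X → L) → Prop) : Pw w P ≤ 1 :=   (Ew_mono hw fun l _ => by split_ifs <;> norm_num).trans (Ew_const hw 1).le

theorem Pw_mono {w : X → L → ℝ} (hw : IsW w) {P Q : (X → L) → Prop}
    (h : ∀ l, (∀ i, w i (l i) ≠ 0) → P l → Q l) : Pw w P ≤ Pw w Q := by
  refine Ew_mono hw fun l a => ?_
  by_cases b : P l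
  · rw [if_pos b, if_pos (h l a b)]
  · rw [if_neg b]
    split_ifs <;> norm_num

theorem Pw_or_le {w : X → L → ℝ} (hw : IsW w) (P Q : (X → L) → Prop) :
    Pw w (fun l => P l ∨ Q l) ≤ Pw w P + Pw w Q := by
  unfold Pw
  rw [← Ew_add]
  refine Ew_mono hw fun l _ => ?_
  by_cases a : P l <;> by_cases b : Q l <;> simp [a, b]

theorem Pw_exists_le {ι : Type} {w : X → L → ℝ} (hw : IsW w) (I : Finset ι)
    (P : ι → (X → L) → Prop) : Pw w (fun l => ∃ i ∈ I, P i l) ≤ ∑ i ∈ I, Pw w (P i) := by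
  unfold Pw
  rw [← Ew_sum]
  refine Ew_mono hw fun l _ => ?_
  have h0 : ∀ i ∈ I, (0 : ℝ) ≤ if P i l then 1 else 0 := fun i _ => by split_ifs <;> norm_num
  split_ifs with a
  · obtain ⟨i, hi, a⟩ := a
    exact le_trans (if_pos a).ge (Finset.single_le_sum h0 hi)
  · exact Finset.sum_nonneg h0

theorem Pw_exists_not {w : X → L → ℝ} (hw : IsW w) {P : (X → L) → Prop} (h : Pw w P < 1) :
    ∃ l, ¬ P l := by
  by_contra a
  push Not at a
  have e : Pw w P = 1 := by
    unfold Pw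
    simp only [a, if_true]
    exact Ew_const hw 1
  exact h.ne e

theorem Ew_markov {w : X → L → ℝ} (hw : IsW w) (F : (X → L) → ℝ) (hF : ∀ l, 0 ≤ F l) (y : ℝ) :
    y * Pw w (fun l => y ≤ F l) ≤ Ew w F := by
  unfold Pw
  rw [← Ew_mul]
  refine Ew_mono hw fun l _ => ?_
  split_ifs with a
  · rwa [mul_one]
  · rw [mul_zero]
    exact hF l

/-- a bounded function with a large mean is large off a rare event. -/
theorem Ew_exists_off {w : X → L → ℝ} (hw : IsW w) (F : (X → L) → ℝ) (hF : ∀ l, F l ≤ 1)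
    (P : (X → L) → Prop) {β : ℝ} (hβ : β ≤ Ew w F) (hP : Pw w P < β / 2) :
    ∃ l, β / 2 ≤ F l ∧ ¬ P l := by
  by_contra a
  push Not at a
  have h0 := Pw_nonneg hw P
  have h1 : Ew w F ≤ Ew w fun l => β / 2 + if P l then 1 else 0 := by
    refine Ew_mono hw fun l _ => ?_
    split_ifs with b
    · linarith [hF l]
    · have := mt (a l) b
      linarith [not_le.1 this]
  rw [Ew_add, Ew_const hw] at h1
  change Ew w F ≤ β / 2 + Pw w P at h1
  linarith

theorem Ew_exists {w : X → L → ℝ} (hw : IsW w) (F G : (X → L) → ℝ) (h : Ew w F < Ew w G) :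
    ∃ l, (∀ i, w i (l i) ≠ 0) ∧ F l < G l := by
  by_contra a
  push Not at a
  exact h.not_ge (Ew_mono hw a)

theorem oew_two {w : X → L → ℝ} (hw : IsW w) (Q : Finset X) (F G : (X → L) → ℝ)
    (hF : ∀ l l', (∀ x ∈ Q, l x = l' x) → F l = F l')
    (hG : ∀ l l', (∀ x ∉ Q, l x = l' x) → G l = G l') :
    Ew w (fun l => F l * G l) = Ew w F * Ew w G := by
  let σ : (X → L) × (X → L) → (X → L) × (X → L) := fun a =>
    (fun x => if x ∈ Q then a.1 x else a.2 x, fun x => if x ∈ Q then a.2 x else a.1 x)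
  have hσ : Function.Involutive σ := fun a => by
    refine Prod.ext (funext fun x => ?_) (funext fun x => ?_) <;>
      by_cases h : x ∈ Q <;> simp [σ, h]
  rw [← mul_one (Ew w fun l => F l * G l), ← oew_one hw]
  unfold Ew
  rw [Finset.sum_mul_sum, Finset.sum_mul_sum, ← Fintype.sum_prod_type',
    ← Fintype.sum_prod_type', ← Equiv.sum_comp (hσ.toPerm σ)]
  refine Finset.sum_congr rfl fun a _ => ?_
  change (∏ i, w i ((σ a).1 i)) * (F (σ a).1 * G (σ a).1) * ∏ i, w i ((σ a).2 i) = _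
  have e : (∏ i, w i ((σ a).1 i)) * ∏ i, w i ((σ a).2 i) =
      (∏ i, w i (a.1 i)) * ∏ i, w i (a.2 i) := by
    rw [← Finset.prod_mul_distrib, ← Finset.prod_mul_distrib]
    refine Finset.prod_congr rfl fun x _ => ?_
    by_cases h : x ∈ Q <;> simp [σ, h, mul_comm]
  rw [hF (σ a).1 a.1 fun x h => if_pos h, hG (σ a).1 a.2 fun x h => if_neg h]
  linear_combination (F a.1 * G a.2) * e

/-- independence of functions of disjoint coordinate sets. -/
theorem Ew_indep {ι : Type} {w : X → L → ℝ} (hw : IsW w) (I : Finset ι) (Q : ι → Finset X)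
    (hQ : ∀ i ∈ I, ∀ i' ∈ I, i ≠ i' → Disjoint (Q i) (Q i')) (F : ι → (X → L) → ℝ)
    (hF : ∀ i ∈ I, ∀ l l', (∀ x ∈ Q i, l x = l' x) → F i l = F i l') :
    Ew w (fun l => ∏ i ∈ I, F i l) = ∏ i ∈ I, Ew w (F i) := by
  induction I using Finset.induction_on with
  | empty => simpa using Ew_const hw 1
  | insert a I ha ih =>
    simp only [Finset.prod_insert ha]
    rw [oew_two hw (Q a) (F a) _ (hF a (Finset.mem_insert_self _ _)) fun l l' h =>
      Finset.prod_congr rfl fun i hi => hF i (Finset.mem_insert_of_mem hi) l l' fun x hx =>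
        h x (Finset.disjoint_right.1 (hQ a (Finset.mem_insert_self _ _) i
          (Finset.mem_insert_of_mem hi) fun e => ha (e ▸ hi)) hx),
      ih (fun i hi i' hi' => hQ i (Finset.mem_insert_of_mem hi) i' (Finset.mem_insert_of_mem hi'))
        fun i hi => hF i (Finset.mem_insert_of_mem hi)]

theorem Ew_mix (α : ℝ) (w₁ w₀ : L → ℝ) (F : (X → L) → ℝ) :
    Ew (fun _ a => α * w₁ a + (1 - α) * w₀ a) F =
      Ew (fun (_ : X) (b : Bool) => if b then α else 1 - α)
        (fun β => Ew (fun i => if β i then w₁ else w₀) F) := by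
  unfold Ew
  simp only [Finset.mul_sum]
  rw [Finset.sum_comm]
  refine Finset.sum_congr rfl fun l _ => ?_
  have e : ∀ i, α * w₁ (l i) + (1 - α) * w₀ (l i) =
      ∑ b : Bool, (if b then α else 1 - α) * (if b then w₁ else w₀) (l i) := fun i => by simp
  simp only [e]
  rw [Finset.prod_univ_sum, Fintype.piFinset_univ, Finset.sum_mul]
  exact Finset.sum_congr rfl fun β _ => by rw [Finset.prod_mul_distrib, mul_assoc]

theorem Ew_swap {L' : Type} [Fintype L'] (w : X → L → ℝ) (w' : X → L' → ℝ)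
    (F : (X → L) → (X → L') → ℝ) :
    Ew w (fun l => Ew w' (fun l' => F l l')) = Ew w' (fun l' => Ew w (fun l => F l l')) := by
  simp only [Ew, Finset.mul_sum]
  rw [Finset.sum_comm]
  exact Finset.sum_congr rfl fun _ _ => Finset.sum_congr rfl fun _ _ => mul_left_comm _ _ _

theorem Ew_pair {L' : Type} [Fintype L'] (w : X → L → ℝ) (w' : X → L' → ℝ)
    (F : (X → L) → (X → L') → ℝ) :
    Ew w (fun l => Ew w' (fun l' => F l l')) =
      Ew (fun i (a : L × L') => w i a.1 * w' i a.2)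
        (fun l => F (fun i => (l i).1) (fun i => (l i).2)) := by
  simp only [Ew, Finset.mul_sum]
  rw [← Fintype.sum_prod_type', ← Equiv.sum_comp (Equiv.arrowProdEquivProdArrow X
    (fun _ => L) fun _ => L')]
  exact Finset.sum_congr rfl fun l _ => by rw [Finset.prod_mul_distrib, mul_assoc]; rfl

theorem isW_pair {L' : Type} [Fintype L'] {w : X → L → ℝ} {w' : X → L' → ℝ} (hw : IsW w)
    (hw' : IsW w') : IsW (fun i (a : L × L') => w i a.1 * w' i a.2) :=   ⟨fun i a => mul_nonneg (hw.1 i _) (hw'.1 i _), fun i => by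
    rw [Fintype.sum_prod_type' fun a b => w i a * w' i b, ← Finset.sum_mul_sum, hw.2, hw'.2,
      one_mul]⟩

theorem oew_on {w : X → L → ℝ} (hw : IsW w) (I : Finset X) (g : L → ℝ) :
    Ew w (fun l => ∏ i ∈ I, g (l i)) = ∏ i ∈ I, ∑ a, w i a * g a := by
  have h := Ew_prod w fun i a => if i ∈ I then g a else 1
  simp only [Finset.prod_ite_mem, Finset.univ_inter] at h
  rw [h, ← Finset.univ_inter I, ← Finset.prod_ite_mem, Finset.univ_inter]
  refine Finset.prod_congr rfl fun i _ => ?_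
  split_ifs
  · rfl
  · simp [hw.2]

theorem oew_p0 {w : X → L → ℝ} (hw : IsW w) (S : L → Prop) (i : X) :
    0 ≤ ∑ a ∈ univ.filter S, w i a := Finset.sum_nonneg fun a _ => hw.1 i a

theorem oew_p1 {w : X → L → ℝ} (hw : IsW w) (S : L → Prop) (i : X) :
    ∑ a ∈ univ.filter S, w i a ≤ 1 :=
  (Finset.sum_le_sum_of_subset_of_nonneg (Finset.filter_subset _ _)
    fun a _ _ => hw.1 i a).trans (hw.2 i).le

/-- all coordinates of `I` get a label in `S`. -/
theorem Pw_all {w : X → L → ℝ} (hw : IsW w) (I : Finset X) (S : L → Prop) :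
    Pw w (fun l => ∀ i ∈ I, S (l i)) = ∏ i ∈ I, ∑ a ∈ univ.filter S, w i a := by
  have h := oew_on hw I fun a => if S a then 1 else 0
  simp only [mul_ite, mul_one, mul_zero, ← Finset.sum_filter] at h
  rw [← h]
  unfold Pw
  congr 1
  funext l
  rw [Finset.prod_boole]
  congr

/-- many points of `D` get a label in `S`. -/
theorem Pw_many {w : X → L → ℝ} (hw : IsW w) (D : Finset X) (S : L → Prop) {ρ : ℝ} (hρ : 0 ≤ ρ)
    (h : ∀ i ∈ D, ∑ a ∈ univ.filter S, w i a ≤ ρ) (c : ℕ) :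
    Pw w (fun l => c ≤ (D.filter (fun i => S (l i))).card) ≤ (D.card * ρ) ^ c := by
  calc _ ≤ Pw w (fun l => ∃ J ∈ D.powersetCard c, ∀ i ∈ J, S (l i)) := by
        refine Pw_mono hw fun l _ a => ?_
        obtain ⟨J, h1, h2⟩ := Finset.exists_subset_card_eq a
        exact ⟨J, Finset.mem_powersetCard.2 ⟨h1.trans (Finset.filter_subset _ _), h2⟩,
          fun i hi => (Finset.mem_filter.1 (h1 hi)).2⟩
    _ ≤ ∑ J ∈ D.powersetCard c, Pw w (fun l => ∀ i ∈ J, S (l i)) := Pw_exists_le hw _ _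
    _ ≤ ∑ _J ∈ D.powersetCard c, ρ ^ c := by
        refine Finset.sum_le_sum fun J hJ => ?_
        obtain ⟨h1, h2⟩ := Finset.mem_powersetCard.1 hJ
        rw [Pw_all hw, ← h2, ← Finset.prod_const]
        exact Finset.prod_le_prod (fun i _ => oew_p0 hw S i) fun i hi => h i (h1 hi)
    _ ≤ (D.card * ρ) ^ c := by
        rw [Finset.sum_const, Finset.card_powersetCard, nsmul_eq_mul, mul_pow]
        refine mul_le_mul_of_nonneg_right ?_ (pow_nonneg hρ c)
        exact_mod_cast Nat.choose_le_pow _ _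

theorem oew_pow {w : X → L → ℝ} (hw : IsW w) (D : Finset X) (S : L → Prop) (θ : ℝ) :
    Ew w (fun l => θ ^ (D.filter (fun i => S (l i))).card) =
      ∏ i ∈ D, (1 + (∑ a ∈ univ.filter S, w i a) * (θ - 1)) := by
  have h := oew_on hw D fun a => if S a then θ else 1
  simp only [← Finset.prod_filter, Finset.prod_const] at h
  rw [h]
  refine Finset.prod_congr rfl fun i _ => ?_
  rw [Finset.sum_filter, Finset.sum_mul]
  nth_rewrite 2 [← hw.2 i]
  rw [← Finset.sum_add_distrib]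
  refine Finset.sum_congr rfl fun a _ => ?_
  split_ifs <;> ring

theorem Ew_pow_card_le {w : X → L → ℝ} (hw : IsW w) (D : Finset X) (S : L → Prop) {ρ θ : ℝ}
    (hθ0 : 0 ≤ θ) (hθ1 : θ ≤ 1) (h : ∀ i ∈ D, ρ ≤ ∑ a ∈ univ.filter S, w i a) :
    Ew w (fun l => θ ^ (D.filter (fun i => S (l i))).card) ≤
      Real.exp (-(ρ * (1 - θ)) * D.card) := by
  rw [oew_pow hw, mul_comm, Real.exp_nat_mul, ← Finset.prod_const]
  refine Finset.prod_le_prod (fun i _ => ?_) fun i hi => ?_
  · nlinarith [oew_p0 hw S i, oew_p1 hw S i]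
  · nlinarith [h i hi, Real.add_one_le_exp (-(ρ * (1 - θ)))]

theorem Ew_pow_card_ge_one {w : X → L → ℝ} (hw : IsW w) (D : Finset X) (S : L → Prop) {ρ θ : ℝ}
    (hθ : 1 ≤ θ) (h : ∀ i ∈ D, ∑ a ∈ univ.filter S, w i a ≤ ρ) :
    Ew w (fun l => θ ^ (D.filter (fun i => S (l i))).card) ≤ (1 + ρ * (θ - 1)) ^ D.card := by
  rw [oew_pow hw, ← Finset.prod_const]
  refine Finset.prod_le_prod (fun i _ => ?_) fun i hi => ?_
  · nlinarith [oew_p0 hw S i]
  · nlinarith [h i hi]

/-- few points of `D` get a label in `S`. -/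
theorem Pw_few {w : X → L → ℝ} (hw : IsW w) (D : Finset X) (S : L → Prop) {ρ : ℝ}
    (h : ∀ i ∈ D, ρ ≤ ∑ a ∈ univ.filter S, w i a) :
    Pw w (fun l => ((D.filter (fun i => S (l i))).card : ℝ) < ρ * D.card / 4) ≤
      Real.exp (-(ρ * D.card / 4)) := by
  have hD : (0 : ℝ) ≤ D.card := Nat.cast_nonneg _
  rcases le_total ρ 0 with hρ | hρ
  · exact (Pw_le_one hw _).trans (Real.one_le_exp (by nlinarith))
  have h1 : Real.exp (-1) ≤ 1 / 2 := by
    rw [Real.exp_neg, one_div]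
    exact inv_anti₀ two_pos (by linarith [Real.add_one_le_exp 1])
  have h2 := Ew_pow_card_le hw D S (Real.exp_pos (-1)).le (by linarith) h
  have h3 := Ew_markov hw (fun l => Real.exp (-1) ^ (D.filter (fun i => S (l i))).card)
    (fun l => by positivity) (Real.exp (-(ρ * D.card / 4)))
  have h4 : Pw w (fun l => ((D.filter (fun i => S (l i))).card : ℝ) < ρ * D.card / 4) ≤
      Pw w (fun l => Real.exp (-(ρ * D.card / 4)) ≤
        Real.exp (-1) ^ (D.filter (fun i => S (l i))).card) := by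
    refine Pw_mono hw fun l _ a => ?_
    rw [← Real.exp_nat_mul]
    exact Real.exp_le_exp.2 (by linarith)
  refine h4.trans (le_of_mul_le_mul_left ((h3.trans h2).trans ?_) (Real.exp_pos _))
  rw [← Real.exp_add]
  exact Real.exp_le_exp.2 (by nlinarith [mul_nonneg hρ hD])

/-- half of `D` gets a rare label. -/
theorem Pw_half {w : X → L → ℝ} (hw : IsW w) (D : Finset X) (S : L → Prop)
    (h : ∀ i ∈ D, ∑ a ∈ univ.filter S, w i a ≤ 1 / 16) :
    Pw w (fun l => D.card ≤ 2 * (D.filter (fun i => S (l i))).card) ≤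
      Real.exp (-(D.card / 2 : ℝ)) := by
  have h2 := Ew_pow_card_ge_one hw D S (θ := 4) (by norm_num) h
  have h3 := Ew_markov hw (fun l => (4 : ℝ) ^ (D.filter (fun i => S (l i))).card)
    (fun l => by positivity) (2 ^ D.card)
  have h4 : Pw w (fun l => D.card ≤ 2 * (D.filter (fun i => S (l i))).card) ≤
      Pw w (fun l => (2 : ℝ) ^ D.card ≤ 4 ^ (D.filter (fun i => S (l i))).card) := by
    refine Pw_mono hw fun l _ a => ?_
    rw [show (4 : ℝ) = 2 ^ 2 by norm_num, ← pow_mul]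
    exact pow_le_pow_right₀ one_le_two a
  have h5 : (19 / 32 : ℝ) ≤ Real.exp (-(1 / 2)) := by
    refine le_of_pow_le_pow_left₀ (n := 2) two_ne_zero (Real.exp_pos _).le ?_
    rw [← Real.exp_nat_mul, show ((2 : ℕ) : ℝ) * -(1 / 2) = -1 by norm_num]
    linarith [Real.exp_neg_one_gt_d9]
  refine h4.trans (le_of_mul_le_mul_left ((h3.trans h2).trans ?_)
    (by positivity : (0 : ℝ) < 2 ^ D.card))
  rw [show (-(D.card / 2) : ℝ) = D.card * -(1 / 2) by ring, Real.exp_nat_mul, ← mul_pow]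
  exact pow_le_pow_left₀ (by norm_num) (by linarith) _

theorem oew_coef {k j : ℕ} (hk : 1 ≤ k) (hj : 1 ≤ j) :
    ∑ a : Atom k j, (if a.1 = 0 then 1 / (4 * j : ℝ) else 1 / (4 * j * k : ℝ)) = 1 / 2 := by
  have h1 : (k : ℝ) ≠ 0 := by positivity
  have h2 : (j : ℝ) ≠ 0 := by positivity
  rw [Fintype.sum_prod_type, Fin.sum_univ_succ]
  simp only [if_true, Fin.succ_ne_zero, if_false, Finset.sum_const, Finset.card_univ,
    Fintype.card_fin, nsmul_eq_mul]
  field_simp
  ring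

theorem oew_coef_ge {k j : ℕ} (hk : 1 ≤ k) (hj : 1 ≤ j) (a : Atom k j) :
    1 / (4 * j * k : ℝ) ≤ if a.1 = 0 then 1 / (4 * j : ℝ) else 1 / (4 * j * k : ℝ) := by
  have h1 : (1 : ℝ) ≤ k := by exact_mod_cast hk
  have h2 : (0 : ℝ) < j := by exact_mod_cast hj
  split_ifs
  · exact one_div_le_one_div_of_le (by positivity) (by nlinarith)
  · exact le_rfl

theorem isW_nu (X : Type) {k j : ℕ} (hk : 1 ≤ k) (hj : 1 ≤ j) {τ : ℝ} (h0 : 0 ≤ τ) (h1 : τ ≤ 1) :
    IsW (fun _ : X => nu k j τ) := by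
  refine ⟨fun _ l => ?_, fun _ => ?_⟩
  · rcases l with _ | ⟨a, e⟩
    · simp [nu]
    · exact mul_nonneg (by split_ifs <;> positivity) (by split_ifs <;> linarith)
  · rw [Fintype.sum_option, Fintype.sum_prod_type]
    have e : ∀ a : Atom k j, ∑ e : Bool, nu k j τ (some (a, e)) =
        if a.1 = 0 then 1 / (4 * j : ℝ) else 1 / (4 * j * k : ℝ) := fun a => by
      simp only [Fintype.sum_bool, nu, if_true, Bool.false_eq_true, if_false]
      ring
    simp only [e]
    rw [oew_coef hk hj]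
    norm_num [nu]

theorem nu_sub {k j : ℕ} (hk : 1 ≤ k) (hj : 1 ≤ j) {τ : ℝ} (h0 : 0 ≤ τ) (a : Atom k j) :
    τ / (4 * j * k) ≤ ∑ b ∈ univ.filter (fun b : Lab k j => b = some (a, true)), nu k j τ b := by
  rw [Finset.sum_eq_single_of_mem (some (a, true)) (by simp) fun b hb h =>
    (h (Finset.mem_filter.1 hb).2).elim]
  simp only [nu, if_true]
  rw [div_eq_inv_mul, ← one_div]
  exact mul_le_mul_of_nonneg_right (oew_coef_ge hk hj a) h0

theorem nu_atom {k j : ℕ} (hk : 1 ≤ k) (hj : 1 ≤ j) (τ : ℝ) (a : Atom k j) :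
    1 / (4 * j * k : ℝ) ≤
      ∑ b ∈ univ.filter (fun b : Lab k j => b = some (a, false) ∨ b = some (a, true)),
        nu k j τ b := by
  have e : (univ.filter fun b : Lab k j => b = some (a, false) ∨ b = some (a, true)) =
      {some (a, false), some (a, true)} := by
    ext b
    simp
  rw [e, Finset.sum_pair (by simp)]
  simp only [nu, if_true, Bool.false_eq_true, if_false]
  rw [← mul_add, sub_add_cancel, mul_one]
  exact oew_coef_ge hk hj a

theorem nu_sub_all {k j : ℕ} (hk : 1 ≤ k) (hj : 1 ≤ j) {τ : ℝ} (h0 : 0 ≤ τ) :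
    ∑ b ∈ univ.filter (fun b : Lab k j => ∃ a, b = some (a, true)), nu k j τ b ≤ τ := by
  rw [Finset.sum_filter, Fintype.sum_option, Fintype.sum_prod_type]
  have e : ∀ a : Atom k j, (∑ e : Bool, if ∃ a', (some (a, e) : Lab k j) = some (a', true) then
      nu k j τ (some (a, e)) else 0) =
        (if a.1 = 0 then 1 / (4 * j : ℝ) else 1 / (4 * j * k : ℝ)) * τ := fun a => by
    rw [Fintype.sum_bool, if_pos ⟨a, rfl⟩, if_neg (by simp), add_zero]
    simp only [nu, if_true]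
  simp only [e]
  rw [← Finset.sum_mul, oew_coef hk hj, if_neg (by simp)]
  linarith

end Pool.Agent.P.MP_85fe51_lc.OD
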