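import Pool.Agent.P.MP_85fe51_lc.OSafe
import Pool.Agent.P.MP_85fe51_lc.OEw

set_option autoImplicit false

namespace Pool.Agent.P.MP_85fe51_lc.OD

open Finset
open scoped Classical

variable {p : ℕ} [Fact p.Prime] {X : Type} [Fintype X] [DecidableEq X]

theorem mem_elts {H : Sub p X} {η : Vec p X} : η ∈ elts H ↔ η ∈ H := by
  simp [elts]

theorem card_elts (H : Sub p X) : (elts H).card = p ^ Module.finrank (ZMod p) ↥H := by
  have h1 := Module.natCard_eq_pow_finrank (K := ZMod p) (V := ↥H)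
  rw [Nat.card_zmod] at h1
  rw [← h1, ← Nat.card_eq_finsetCard]
  exact Nat.card_congr (Equiv.subtypeEquivRight fun η => mem_elts)

theorem ocount_low (C t d : ℕ) : ∀ H : Sub p X, Safe C H → Module.finrank (ZMod p) ↥H ≤ d →
    ((elts H).filter (fun η => wt η ≤ C * t)).card ≤ p ^ t * (max d t).choose t := by
  have hp : 1 ≤ p := (Fact.out : p.Prime).one_le
  have base : ∀ d, d ≤ t → ∀ H : Sub p X, Module.finrank (ZMod p) ↥H ≤ d →
      ((elts H).filter (fun η => wt η ≤ C * t)).card ≤ p ^ t * (max d t).choose t := by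
    intro d hd H hH
    rw [max_eq_right hd, Nat.choose_self, mul_one]
    refine (card_filter_le _ _).trans ?_
    rw [card_elts]
    exact Nat.pow_le_pow_right hp (hH.trans hd)
  induction d with
  | zero => exact fun H _ hH => base 0 (Nat.zero_le _) H hH
  | succ d ih =>
    intro H hs hH
    by_cases hd : d + 1 ≤ t
    · exact base _ hd H hH
    have htd : t ≤ d := by omega
    rw [max_eq_left htd] at ih
    rw [max_eq_left (by omega)]
    by_cases hH' : Module.finrank (ZMod p) ↥H ≤ d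
    · exact (ih H hs hH').trans (Nat.mul_le_mul_left _ (Nat.choose_le_choose _ (Nat.le_succ _)))
    have hD : Module.finrank (ZMod p) ↥H = d + 1 := by omega
    obtain ⟨S, hS⟩ : ∃ S : Finset X, ∀ i, i ∈ S ↔ ∃ η ∈ H, η i ≠ 0 :=
      ⟨univ.filter (fun i => ∃ η ∈ H, η i ≠ 0), fun i => by simp⟩
    obtain ⟨A, hA⟩ : ∃ A, A = (elts H).filter (fun η => wt η ≤ C * t) := ⟨_, rfl⟩
    rw [← hA]
    have hle : H ≤ co S := fun η hη i hi => by
      by_contra h0
      exact hi ((hS i).2 ⟨η, hη, h0⟩)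
    have hCS : C * (d + 1) ≤ S.card := by
      have := hs S
      rwa [inf_eq_left.2 hle, hD] at this
    have hpos : 0 < S.card := by
      rw [card_pos]
      by_contra hn
      have : H = ⊥ := by
        refine eq_bot_iff.2 fun η hη => ?_
        rw [Submodule.mem_bot]
        funext i
        exact hle hη i fun hi => hn ⟨i, hi⟩
      rw [this, finrank_bot] at hD
      omega
    have h1 : ∀ i ∈ S, (A.filter (fun η => η i = 0)).card ≤ p ^ t * d.choose t := by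
      intro i hi
      have hlt : H ⊓ co {i}ᶜ < H := by
        refine lt_of_le_of_ne inf_le_left fun e => ?_
        obtain ⟨η, hη, h0⟩ := (hS i).1 hi
        rw [← e] at hη
        exact h0 (hη.2 i (by simp))
      have h2 := Submodule.finrank_lt_finrank_of_lt hlt
      refine le_trans (card_le_card fun η hη => ?_)
        (ih (H ⊓ co {i}ᶜ) (hs.sub inf_le_left) (by omega))
      rw [hA, mem_filter, mem_filter, mem_elts] at hη
      rw [mem_filter, mem_elts]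
      refine ⟨⟨hη.1.1, fun j hj => ?_⟩, hη.1.2⟩
      have : j = i := by simpa using hj
      rw [this]; exact hη.2
    have h2 : ∀ η ∈ A, S.card ≤ (S.filter (fun i => η i = 0)).card + C * t := by
      intro η hη
      rw [hA, mem_filter] at hη
      have h3 := card_filter_add_card_filter_not (s := S) (fun i => η i = 0)
      have h4 : (S.filter (fun i => ¬ η i = 0)).card ≤ wt η :=
        card_le_card fun i hi => mem_supp.2 (mem_filter.1 hi).2
      omega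
    have h3 : ∑ η ∈ A, (S.filter (fun i => η i = 0)).card =
        ∑ i ∈ S, (A.filter (fun η => η i = 0)).card := by
      simp only [card_filter]
      exact sum_comm
    have h4 := sum_le_sum h2
    rw [sum_add_distrib, h3, sum_const, sum_const, smul_eq_mul, smul_eq_mul] at h4
    have h5 := sum_le_sum h1
    rw [sum_const, smul_eq_mul] at h5
    have h6 := Nat.choose_mul_succ_eq d t
    obtain ⟨e, he⟩ : ∃ e, d + 1 = t + (e + 1) := ⟨d - t, by omega⟩
    rw [show d + 1 - t = e + 1 by omega] at h6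
    generalize (d + 1).choose t = c' at h6 ⊢
    generalize d.choose t = c at h5 h6
    generalize p ^ t = P at h5 ⊢
    generalize A.card = a at h4 ⊢
    generalize S.card = s at h4 h5 hCS hpos
    have h7 : a * s ≤ s * (P * c) + a * (C * t) := by omega
    have h8 : s * (a * (d + 1)) ≤ s * (P * c * (d + 1) + a * t) := by
      have h9 := Nat.mul_le_mul_right (d + 1) h7
      have h10 := Nat.mul_le_mul_left (a * t) hCS
      nlinarith
    have h9 := Nat.le_of_mul_le_mul_left h8 hpos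
    rw [mul_assoc, h6, he] at h9
    refine Nat.le_of_mul_le_mul_right (c := e + 1) ?_ (Nat.succ_pos _)
    nlinarith

theorem card_low {C : ℕ} {H : Sub p X} (h : Safe C H) (t : ℕ) :
    ((elts H).filter (fun η => wt η ≤ C * t)).card ≤ (p * (Fintype.card X + 1)) ^ t := by
  have h1 : Module.finrank (ZMod p) ↥H ≤ Fintype.card X := by
    have := Submodule.finrank_le H
    rwa [Module.finrank_fintype_fun_eq_card] at this
  refine (ocount_low C t _ H h h1).trans ?_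
  rw [mul_pow]
  refine Nat.mul_le_mul_left _ ?_
  rcases le_total (Fintype.card X) t with h2 | h2
  · rw [max_eq_right h2, Nat.choose_self]
    exact Nat.one_le_pow _ _ (Nat.succ_pos _)
  · rw [max_eq_left h2]
    exact (Nat.choose_le_pow _ _).trans (Nat.pow_le_pow_left (Nat.le_succ _) _)

theorem ocount_tail {C : ℕ} (hC : 1 ≤ C) {H : Sub p X} (h : Safe C H) {θ : ℝ} (h0 : 0 ≤ θ)
    (h1 : θ ≤ 1) (hQ : (p * (Fintype.card X + 1) : ℝ) * θ ^ C ≤ 1 / 2) :
    ∑ η ∈ (elts H).erase 0, θ ^ wt η ≤ 2 * (p * (Fintype.card X + 1) : ℝ) ^ 2 * θ ^ C := by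
  obtain ⟨Q, hQ'⟩ : ∃ Q : ℝ, Q = p * (Fintype.card X + 1) := ⟨_, rfl⟩
  rw [← hQ'] at hQ ⊢
  have hQ0 : 0 ≤ Q := by rw [hQ']; positivity
  have hm : ∀ η ∈ (elts H).erase 0, wt η / C ∈ Ico 1 (Fintype.card X + 1) := by
    intro η hη
    rw [mem_erase, mem_elts] at hη
    rw [mem_Ico]
    refine ⟨(Nat.one_le_div_iff hC).2 (h.le_wt hη.2 hη.1), Nat.lt_succ_of_le ?_⟩
    exact (Nat.div_le_self _ _).trans (card_le_univ _)
  rw [← sum_fiberwise_of_maps_to hm]
  have h2 : ∀ t ∈ Ico 1 (Fintype.card X + 1),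
      ∑ η ∈ ((elts H).erase 0).filter (fun η => wt η / C = t), θ ^ wt η ≤
        Q * (Q * θ ^ C) ^ t := by
    intro t _
    have h3 : ∀ η ∈ ((elts H).erase 0).filter (fun η => wt η / C = t),
        θ ^ wt η ≤ θ ^ (C * t) := fun η hη =>
      pow_le_pow_of_le_one h0 h1 ((mem_filter.1 hη).2 ▸ Nat.mul_div_le _ _)
    refine (sum_le_card_nsmul _ _ _ h3).trans ?_
    have h4 : (((elts H).erase 0).filter (fun η => wt η / C = t)).card ≤
        (p * (Fintype.card X + 1)) ^ (t + 1) := by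
      refine le_trans (card_le_card fun η hη => ?_) (card_low h (t + 1))
      rw [mem_filter] at hη ⊢
      refine ⟨mem_of_mem_erase hη.1, ?_⟩
      rw [← hη.2]
      exact (Nat.lt_mul_div_succ _ hC).le
    have h5 : ((((elts H).erase 0).filter (fun η => wt η / C = t)).card : ℝ) ≤ Q ^ (t + 1) := by
      rw [hQ']; exact_mod_cast h4
    rw [nsmul_eq_mul, mul_pow, ← pow_mul, ← mul_assoc, ← pow_succ']
    exact mul_le_mul_of_nonneg_right h5 (pow_nonneg h0 _)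
  refine (sum_le_sum h2).trans ?_
  rw [← mul_sum]
  have hx : 0 ≤ Q * θ ^ C := mul_nonneg hQ0 (pow_nonneg h0 _)
  have h3 := geom_sum_Ico_le_of_lt_one (m := 1) (n := Fintype.card X + 1) hx (by linarith)
  have h4 : (Q * θ ^ C) ^ 1 / (1 - Q * θ ^ C) ≤ 2 * (Q * θ ^ C) := by
    rw [div_le_iff₀ (by linarith)]
    nlinarith
  have h5 := mul_le_mul_of_nonneg_left (h3.trans h4) hQ0
  linarith

theorem sum_pow_wt {C : ℕ} (hC : 1 ≤ C) {H : Sub p X} (h : Safe C H) {θ : ℝ} (h0 : 0 ≤ θ)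
    (h1 : θ ≤ 1) (hQ : (p * (Fintype.card X + 1) : ℝ) * θ ^ C ≤ 1 / 2) :
    ∑ η ∈ elts H, θ ^ wt η ≤ 1 + 2 * (p * (Fintype.card X + 1) : ℝ) ^ 2 * θ ^ C := by
  rw [← add_sum_erase _ _ (mem_elts.2 H.zero_mem)]
  have h2 : wt (0 : Vec p X) = 0 := by simp [wt, supp]
  rw [h2, pow_zero]
  exact add_le_add le_rfl (ocount_tail hC h h0 h1 hQ)

theorem sum_pow_coset {C : ℕ} (hC : 1 ≤ C) {H : Sub p X} (h : Safe C H) {θ : ℝ} (h0 : 0 ≤ θ)
    (h1 : θ ≤ 1) (hQ : (p * (Fintype.card X + 1) : ℝ) * θ ^ C ≤ 1 / 2) (μ : Vec p X) (w0 : ℕ)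
    (hw : ∀ η ∈ H, w0 ≤ wt (μ + η)) :
    ∑ η ∈ elts H, (θ ^ 2) ^ wt (μ + η) ≤
      (θ ^ 2) ^ w0 + 2 * (p * (Fintype.card X + 1) : ℝ) ^ 2 * θ ^ C := by
  obtain ⟨η0, h2, h3⟩ := exists_min_image (elts H) (fun η => wt (μ + η)) ⟨0, mem_elts.2 H.zero_mem⟩
  rw [← add_sum_erase _ _ h2]
  refine add_le_add (pow_le_pow_of_le_one (pow_nonneg h0 _) (pow_le_one₀ h0 h1)
    (hw _ (mem_elts.1 h2))) (le_trans ?_ (ocount_tail hC h h0 h1 hQ))
  have h4 : ∑ η ∈ (elts H).erase η0, θ ^ wt (η - η0) = ∑ η ∈ (elts H).erase 0, θ ^ wt η := by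
    refine sum_equiv (Equiv.subRight η0) (fun η => ?_) fun η _ => rfl
    rw [mem_erase, mem_erase, mem_elts, mem_elts, Equiv.subRight_apply, Ne, Ne, sub_eq_zero,
      H.sub_mem_iff_left (mem_elts.1 h2)]
  rw [← h4]
  refine sum_le_sum fun η hη => ?_
  rw [← pow_mul]
  refine pow_le_pow_of_le_one h0 h1 ?_
  have h5 := wt_sub_le (μ + η) (μ + η0)
  have h6 := h3 η (mem_of_mem_erase hη)
  rw [add_sub_add_left_eq_sub] at h5
  omega

theorem one_le_enum {θ : ℝ} (h0 : 0 ≤ θ) (H : Sub p X) (a : Finset X) : 1 ≤ enum θ H a := by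
  have h1 := single_le_sum (f := fun η : Vec p X => θ ^ (supp η ∩ a).card)
    (fun η _ => pow_nonneg h0 _) (mem_elts.2 H.zero_mem)
  have h2 : supp (0 : Vec p X) = ∅ := by simp [supp]
  simp only [h2, empty_inter, card_empty, pow_zero] at h1
  exact h1

theorem cenum_nonneg {θ : ℝ} (h0 : 0 ≤ θ) (μ : Vec p X) (H : Sub p X) (a : Finset X) :
    0 ≤ cenum θ μ H a := sum_nonneg fun _ _ => pow_nonneg h0 _

theorem enum_anti {θ : ℝ} (h0 : 0 ≤ θ) (h1 : θ ≤ 1) (H : Sub p X) {a a' : Finset X} (h : a ⊆ a') :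
    enum θ H a' ≤ enum θ H a :=
  sum_le_sum fun _ _ => pow_le_pow_of_le_one h0 h1 (card_le_card (inter_subset_inter_left h))

theorem enum_mono {θ : ℝ} (h0 : 0 ≤ θ) {H H' : Sub p X} (h : H ≤ H') (a : Finset X) :
    enum θ H a ≤ enum θ H' a :=
  sum_le_sum_of_subset_of_nonneg (fun _ hη => mem_elts.2 (h (mem_elts.1 hη)))
    fun _ _ _ => pow_nonneg h0 _

theorem ocount_off (J a : Finset X) (η : Vec p X) :
    supp (off J η) ∩ (a \ J) = supp (off J η) ∩ a := by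
  rw [supp_off]
  ext i
  simp only [mem_inter, mem_sdiff]
  tauto

theorem enum_sdiff (θ : ℝ) (H : Sub p X) (J a : Finset X) :
    enum θ (H.map (off J)) (a \ J) = enum θ (H.map (off J)) a := by
  refine sum_congr rfl fun η hη => ?_
  obtain ⟨η, -, rfl⟩ := mem_elts.1 hη
  rw [ocount_off]

theorem cenum_sdiff (θ : ℝ) (μ : Vec p X) (H : Sub p X) (J a : Finset X) :
    cenum θ (off J μ) (H.map (off J)) (a \ J) = cenum θ (off J μ) (H.map (off J)) a := by
  refine sum_congr rfl fun η hη => ?_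
  obtain ⟨η, -, rfl⟩ := mem_elts.1 hη
  rw [← map_add, ocount_off]

theorem safeOn_of_enum {C : ℕ} {θ : ℝ} (h0 : 0 ≤ θ) (h1 : θ ≤ 1) (hθ : 3 / 4 ≤ θ ^ C)
    {H : Sub p X} {a : Finset X} (h : enum θ H a < 3 / 2) : SafeOn a C H := by
  intro N hN
  by_contra hn
  rw [not_le] at hn
  obtain ⟨d, hd⟩ : ∃ d, Module.finrank (ZMod p) ↥N = d + 1 :=
    Nat.exists_eq_succ_of_ne_zero fun e => by rw [e] at hn; omega
  have h2 : ∀ η ∈ elts N, θ ^ (C * (d + 1)) ≤ θ ^ (supp η ∩ a).card := by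
    intro η hη
    refine pow_le_pow_of_le_one h0 h1 (le_trans (card_le_card fun i hi => ?_) (hd ▸ hn.le))
    rw [mem_inter, mem_supp] at hi
    exact mem_filter.2 ⟨hi.2, η, mem_elts.1 hη, hi.1⟩
  have h3 := card_nsmul_le_sum _ _ _ h2
  rw [card_elts, hd, nsmul_eq_mul, pow_mul, Nat.cast_pow, ← mul_pow] at h3
  have hp : (2 : ℝ) ≤ p := by exact_mod_cast (Fact.out : p.Prime).two_le
  have h4 : (3 / 2 : ℝ) ≤ p * θ ^ C := by nlinarith
  have h5 : p * θ ^ C ≤ (p * θ ^ C) ^ (d + 1) := le_self_pow₀ (by linarith) (Nat.succ_ne_zero _)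
  have h6 := enum_mono h0 hN a
  unfold enum at h h6
  linarith

variable {L : Type} [Fintype L]

theorem ocount_term {w : X → L → ℝ} (hw : IsW w) (Y : Finset X) (S : L → Prop) {ρ θ : ℝ}
    (hθ0 : 0 ≤ θ) (hθ1 : θ ≤ 1) (hρ : ∀ i ∈ Y, ρ ≤ ∑ a ∈ univ.filter S, w i a)
    {η : Vec p X} (hη : supp η ⊆ Y) :
    Ew w (fun l => θ ^ (supp η ∩ Y.filter (fun i => S (l i))).card) ≤
      Real.exp (-(ρ * (1 - θ)) * wt η) := by
  have h1 : ∀ l : X → L, supp η ∩ Y.filter (fun i => S (l i)) =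
      (supp η).filter (fun i => S (l i)) := fun l => by
    ext i
    simp only [mem_inter, mem_filter]
    exact ⟨fun h => ⟨h.1, h.2.2⟩, fun h => ⟨h.1, hη h.1, h.2⟩⟩
  simp only [h1]
  exact Ew_pow_card_le hw (supp η) S hθ0 hθ1 fun i hi => hρ i (hη hi)

theorem ocount_exp {ρ θ : ℝ} (hρ0 : 0 ≤ ρ) (hθ1 : θ ≤ 1) {m : ℝ} (hm : 0 ≤ m) :
    Real.exp (-(ρ * (1 - θ)) / m) ≤ 1 := by
  rw [Real.exp_le_one_iff]
  exact div_nonpos_of_nonpos_of_nonneg (neg_nonpos.2 (mul_nonneg hρ0 (by linarith))) hm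

theorem ocount_pow (κ m : ℝ) (n : ℕ) : Real.exp (κ / m) ^ n = Real.exp (κ * n / m) := by
  rw [← Real.exp_nat_mul]
  congr 1
  ring

/-- mean enumerator on a random part of `Y`. -/
theorem Ew_enum {w : X → L → ℝ} (hw : IsW w) (Y : Finset X) (S : L → Prop) {ρ θ : ℝ}
    (hρ0 : 0 ≤ ρ) (hθ0 : 0 ≤ θ) (hθ1 : θ ≤ 1) (hρ : ∀ i ∈ Y, ρ ≤ ∑ a ∈ univ.filter S, w i a)
    {C : ℕ} (hC : 1 ≤ C) {H : Sub p X} (hs : Safe C H) (hY : H ≤ co Y)
    (hQ : (p * (Fintype.card X + 1) : ℝ) * Real.exp (-(ρ * (1 - θ)) * C) ≤ 1 / 2) :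
    Ew w (fun l => enum θ H (Y.filter (fun i => S (l i))) - 1) ≤
      2 * (p * (Fintype.card X + 1) : ℝ) ^ 2 * Real.exp (-(ρ * (1 - θ)) * C) := by
  have h1 := sum_pow_wt hC hs (Real.exp_pos _).le (ocount_exp hρ0 hθ1 zero_le_one)
    (by rw [ocount_pow, div_one]; exact hQ)
  simp only [ocount_pow] at h1
  simp only [div_one] at h1
  unfold enum
  rw [Ew_sub, Ew_const hw, Ew_sum]
  have h2 := sum_le_sum fun η (hη : η ∈ elts H) =>
    ocount_term hw Y S hθ0 hθ1 hρ (mem_co_iff.1 (hY (mem_elts.1 hη)))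
  linarith

theorem Ew_cenum {w : X → L → ℝ} (hw : IsW w) (Y : Finset X) (S : L → Prop) {ρ θ : ℝ}
    (hρ0 : 0 ≤ ρ) (hθ0 : 0 ≤ θ) (hθ1 : θ ≤ 1) (hρ : ∀ i ∈ Y, ρ ≤ ∑ a ∈ univ.filter S, w i a)
    {C : ℕ} (hC : 1 ≤ C) {H : Sub p X} (hs : Safe C H) (hY : H ≤ co Y)
    (hQ : (p * (Fintype.card X + 1) : ℝ) * Real.exp (-(ρ * (1 - θ)) * C / 2) ≤ 1 / 2)
    (μ : Vec p X) (hμ : supp μ ⊆ Y) (w0 : ℕ) (hw0 : ∀ η ∈ H, w0 ≤ wt (μ + η)) :
    Ew w (fun l => cenum θ μ H (Y.filter (fun i => S (l i)))) ≤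
      Real.exp (-(ρ * (1 - θ)) * w0) +
        2 * (p * (Fintype.card X + 1) : ℝ) ^ 2 * Real.exp (-(ρ * (1 - θ)) * C / 2) := by
  have h1 := sum_pow_coset hC hs (Real.exp_pos _).le (ocount_exp hρ0 hθ1 zero_le_two)
    (by rw [ocount_pow]; exact hQ) μ w0 hw0
  have h0 : ∀ n : ℕ, (Real.exp (-(ρ * (1 - θ)) / 2) ^ 2) ^ n = Real.exp (-(ρ * (1 - θ)) * n) := by
    intro n
    rw [← pow_mul, ocount_pow]
    congr 1
    push_cast
    ring
  simp only [h0] at h1
  rw [ocount_pow] at h1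
  unfold cenum
  rw [Ew_sum]
  refine le_trans (sum_le_sum fun η hη => ocount_term hw Y S hθ0 hθ1 hρ ?_) h1
  exact mem_co_iff.1 ((co Y).add_mem (mem_co_iff.2 hμ) (hY (mem_elts.1 hη)))

theorem Ew_enum_pow {w : X → L → ℝ} (hw : IsW w) (Y : Finset X) (S : L → Prop) {ρ θ : ℝ}
    (hρ0 : 0 ≤ ρ) (hθ0 : 0 ≤ θ) (hθ1 : θ ≤ 1) (hρ : ∀ i ∈ Y, ρ ≤ ∑ a ∈ univ.filter S, w i a)
    {C : ℕ} (hC : 1 ≤ C) {H : Sub p X} (hs : Safe C H) (hY : H ≤ co Y) {m : ℕ} (hm : 1 ≤ m)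
    (hQ : 2 * (p * (Fintype.card X + 1) : ℝ) ^ 2 * Real.exp (-(ρ * (1 - θ)) * C / m) ≤ 1 / m) :
    Ew w (fun l => enum θ H (Y.filter (fun i => S (l i))) ^ m) ≤ 3 := by
  have hm1 : (1 : ℝ) ≤ m := by exact_mod_cast hm
  have hm0 : (0 : ℝ) < m := by linarith
  have hp : (2 : ℝ) ≤ p := by exact_mod_cast (Fact.out : p.Prime).two_le
  have hn : (0 : ℝ) ≤ Fintype.card X := Nat.cast_nonneg _
  have hQ1 : (1 : ℝ) ≤ p * (Fintype.card X + 1) := by nlinarith
  have hmi : 1 / (m : ℝ) ≤ 1 := by rw [div_le_one hm0]; exact hm1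
  have h1 := sum_pow_wt hC hs (Real.exp_pos _).le (ocount_exp hρ0 hθ1 hm0.le) (by
    rw [ocount_pow]
    have := mul_le_mul_of_nonneg_right hQ1 (mul_nonneg (zero_le_one.trans hQ1)
      (Real.exp_pos (-(ρ * (1 - θ)) * C / m)).le)
    nlinarith)
  rw [ocount_pow] at h1
  obtain ⟨c, hc⟩ : ∃ c : Vec p X → ℝ, ∀ η, c η = Real.exp (-(ρ * (1 - θ)) / m) ^ wt η :=
    ⟨_, fun _ => rfl⟩
  have hc0 : ∀ η, 0 < c η := fun η => by rw [hc]; positivity
  have hcm : ∀ η, c η ^ m = Real.exp (-(ρ * (1 - θ)) * wt η) := fun η => by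
    rw [hc, ← pow_mul, ocount_pow]
    congr 1
    push_cast
    field_simp
  simp only [← hc] at h1
  obtain ⟨Sc, hSc⟩ : ∃ Sc, Sc = ∑ η ∈ elts H, c η := ⟨_, rfl⟩
  have hS0 : 0 < Sc := hSc ▸ sum_pos (fun η _ => hc0 η) ⟨0, mem_elts.2 H.zero_mem⟩
  have hS1 : ∑ η ∈ elts H, c η / Sc = 1 := by rw [← sum_div, ← hSc, div_self hS0.ne']
  have h2 : ∀ l : X → L, enum θ H (Y.filter (fun i => S (l i))) ^ m ≤
      ∑ η ∈ elts H, c η / Sc * (Sc / c η) ^ m *
        θ ^ (supp η ∩ Y.filter (fun i => S (l i))).card := by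
    intro l
    have h3 := Real.pow_arith_mean_le_arith_mean_pow (elts H) (fun η => c η / Sc)
      (fun η => Sc / c η * θ ^ (supp η ∩ Y.filter (fun i => S (l i))).card)
      (fun η _ => (div_pos (hc0 η) hS0).le) hS1
      (fun η _ => mul_nonneg (div_pos hS0 (hc0 η)).le (pow_nonneg hθ0 _)) m
    have h4 : enum θ H (Y.filter (fun i => S (l i))) = ∑ η ∈ elts H, c η / Sc *
        (Sc / c η * θ ^ (supp η ∩ Y.filter (fun i => S (l i))).card) := by
      refine sum_congr rfl fun η _ => ?_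
      have := (hc0 η).ne'
      field_simp
    rw [h4]
    refine h3.trans (sum_le_sum fun η _ => ?_)
    rw [mul_pow, mul_assoc]
    refine mul_le_mul_of_nonneg_left (mul_le_mul_of_nonneg_left ?_
      (pow_nonneg (div_pos hS0 (hc0 η)).le _)) (div_pos (hc0 η) hS0).le
    exact pow_le_of_le_one (pow_nonneg hθ0 _) (pow_le_one₀ hθ0 hθ1) (by omega)
  refine (Ew_mono hw fun l _ => h2 l).trans ?_
  rw [Ew_sum]
  have h5 : ∀ η ∈ elts H, Ew w (fun l => c η / Sc * (Sc / c η) ^ m *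
      θ ^ (supp η ∩ Y.filter (fun i => S (l i))).card) ≤ c η / Sc * Sc ^ m := by
    intro η hη
    rw [Ew_mul]
    refine (mul_le_mul_of_nonneg_left
      (ocount_term hw Y S hθ0 hθ1 hρ (mem_co_iff.1 (hY (mem_elts.1 hη))))
      (mul_nonneg (div_pos (hc0 η) hS0).le (pow_nonneg (div_pos hS0 (hc0 η)).le _))).trans ?_
    rw [← hcm, mul_assoc, ← mul_pow, div_mul_cancel₀ _ (hc0 η).ne']
  refine (sum_le_sum h5).trans ?_
  rw [← sum_mul, hS1, one_mul]
  have h6 : Sc ≤ Real.exp (1 / m) := by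
    have := Real.add_one_le_exp (1 / (m : ℝ))
    rw [hSc]; linarith
  refine (pow_le_pow_left₀ hS0.le h6 m).trans ?_
  rw [ocount_pow, one_mul, div_self hm0.ne']
  exact Real.exp_one_lt_three.le

end Pool.Agent.P.MP_85fe51_lc.OD
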