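import Pool.Agent.P.MP_85fe51_lc.OFour
import Pool.Agent.P.MP_85fe51_lc.OSt

set_option autoImplicit false

namespace Pool.Agent.P.MP_85fe51_lc.OD

open Finset
open scoped Classical

theorem odeca_map_sum {V : Type} [AddCommGroup V] (ψ : AddChar V ℂ) {ι : Type} (I : Finset ι)
    (f : ι → V) : ψ (∑ i ∈ I, f i) = ∏ i ∈ I, ψ (f i) := by
  induction I using Finset.induction_on with
  | empty => simp
  | insert a s ha ih => rw [sum_insert ha, prod_insert ha, AddChar.map_add_eq_mul, ih]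

theorem odeca_norm_expect {Ω : Type} (s : Finset Ω) (f : Ω → ℂ) :
    ‖s.expect f‖ ≤ s.expect (fun x => ‖f x‖) := RCLike.norm_expect_le (K := ℂ)

/-- the value `γ` on the event and `1` off it. -/
noncomputable def odecaF (γ : ℝ) (P : Prop) : ℝ := 1 - (1 - γ) * (if P then 1 else 0)

theorem odecaF_pos {γ : ℝ} {P : Prop} (h : P) : odecaF γ P = γ := by
  unfold odecaF
  rw [if_pos h]
  ring

theorem odecaF_neg {γ : ℝ} {P : Prop} (h : ¬ P) : odecaF γ P = 1 := by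
  unfold odecaF
  rw [if_neg h]
  ring

theorem odecaF_nonneg {γ : ℝ} (h0 : 0 ≤ γ) (P : Prop) : 0 ≤ odecaF γ P := by
  by_cases h : P
  · rw [odecaF_pos h]
    exact h0
  · rw [odecaF_neg h]
    exact zero_le_one

theorem odeca_expect_F {Ω : Type} (s : Finset Ω) (hs : s.Nonempty) (P : Ω → Prop) (γ : ℝ) :
    s.expect (fun x => odecaF γ (P x)) = 1 - (1 - γ) * pr s P := by
  unfold odecaF pr
  rw [expect_sub_distrib, expect_const hs, mul_expect]

variable {p : ℕ} [Fact p.Prime]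

theorem odeca_ch_sum {ι : Type} (I : Finset ι) (f : ι → ZMod p) :
    ch (∑ i ∈ I, f i) = ∏ i ∈ I, ch (f i) :=
  odeca_map_sum (ZMod.stdAddChar (N := p)) I f

/-- a Fourier coefficient of a phase. -/
noncomputable def odecaG {V : Type} [AddCommGroup V] (ψ : AddChar V ℂ) (Ξ : ZMod p → V)
    (i : ZMod p) : ℂ :=
  (univ : Finset (ZMod p)).expect (fun s => ch (-(i * s)) * ψ (Ξ s))

theorem odecaG_le_one {V : Type} [AddCommGroup V] [Fintype V] (ψ : AddChar V ℂ) (Ξ : ZMod p → V)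
    (i : ZMod p) : ‖odecaG ψ Ξ i‖ ≤ 1 := by
  refine (odeca_norm_expect _ _).trans (expect_le univ_nonempty ?_)
  intro s _
  rw [norm_mul, norm_ch, AddChar.norm_apply, one_mul]

theorem odecaG_le_F {m : ℕ} {γ : ℝ} (hγ : Gam p m γ) {V : Type} [AddCommGroup V] [Fintype V]
    (hV : ∀ v : V, m • v = 0) (ψ : AddChar V ℂ) (hψ : ∀ v, ψ v = 1 → v = 0) (Ξ : ZMod p → V)
    (hΞ : SZ Ξ) (i : ZMod p) : ‖odecaG ψ Ξ i‖ ≤ odecaF γ (∃ y, Ξ y ≠ 0) := by
  by_cases h : ∃ y, Ξ y ≠ 0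
  · rw [odecaF_pos h]
    refine hγ.2.2 V hV ψ hψ Ξ hΞ ?_ i
    obtain ⟨y, hy⟩ := h
    intro h0
    exact hy (by rw [h0]; rfl)
  · rw [odecaF_neg h]
    exact odecaG_le_one ψ Ξ i

/-- expansion of a product of phases into characters. -/
theorem odeca_expand {V : Type} [AddCommGroup V] (ψ : AddChar V ℂ) {ι : Type} [Fintype ι]
    [DecidableEq ι] (Ξ : ι → ZMod p → V) (x : ι → ZMod p) :
    ψ (∑ e, Ξ e (x e)) =
      ∑ j : ι → ZMod p, (∏ e, odecaG ψ (Ξ e) (j e)) * ch (∑ e, j e * x e) := by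
  rw [odeca_map_sum]
  have h1 : ∀ e, ψ (Ξ e (x e)) = ∑ i : ZMod p, ch (i * x e) * odecaG ψ (Ξ e) i := fun e =>
    fourier_inv (fun s => ψ (Ξ e s)) (x e)
  simp only [h1]
  rw [Fintype.prod_sum]
  refine sum_congr rfl fun j _ => ?_
  rw [prod_mul_distrib, odeca_ch_sum, mul_comm]

/-- a product of coefficients is an average of phases. -/
theorem odeca_prodG {V : Type} [AddCommGroup V] (ψ : AddChar V ℂ) {ι : Type} [Fintype ι]
    [DecidableEq ι] (Ξ : ι → ZMod p → V) (j : ι → ZMod p) :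
    ∏ e, odecaG ψ (Ξ e) (j e) =
      ∑ s : ι → ZMod p, (∏ e, (ch (-(j e * s e)) / (p : ℂ))) * ψ (∑ e, Ξ e (s e)) := by
  have h1 : ∀ e, odecaG ψ (Ξ e) (j e) =
      ∑ s : ZMod p, ch (-(j e * s)) / (p : ℂ) * ψ (Ξ e s) := by
    intro e
    unfold odecaG
    rw [expect_eq_sum_div_card, card_univ, ZMod.card, sum_div]
    refine sum_congr rfl fun s _ => ?_
    ring
  simp only [h1]
  rw [Fintype.prod_sum]
  refine sum_congr rfl fun s _ => ?_
  rw [prod_mul_distrib, odeca_map_sum]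

variable {X : Type} [Fintype X] [DecidableEq X]

/-- the bound of one term by the weight of its character. -/
theorem odeca_term_wt {m c : ℕ} {θ : ℝ} (hθ : ThB p m c θ) {V : Type} [AddCommGroup V]
    (hV : ∀ v : V, m • v = 0) (ψ : AddChar V ℂ) {ι : Type} [Fintype ι] [DecidableEq ι]
    (b : Finset X) (Ξ : ι → Finset X → ZMod p → V)
    (hΞ : ∀ e y, DL ⊥ (fun _ => True) (c + 1) b (fun A => Ξ e A y)) (j : ι → ZMod p)
    (μ : Vec p X) :
    ‖b.powerset.expect (fun A => (∏ e, odecaG ψ (Ξ e A) (j e)) * ch (dot μ A))‖ ≤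
      θ ^ (supp μ ∩ b).card := by
  have hp : (0 : ℝ) < p := by exact_mod_cast (Fact.out : p.Prime).pos
  have h1 : ∀ A, (∏ e, odecaG ψ (Ξ e A) (j e)) * ch (dot μ A) =
      ∑ s : ι → ZMod p, (∏ e, (ch (-(j e * s e)) / (p : ℂ))) *
        (ψ (∑ e, Ξ e A (s e)) * ch (dot μ A)) := by
    intro A
    rw [odeca_prodG ψ (fun e => Ξ e A) j, sum_mul]
    refine sum_congr rfl fun s _ => ?_
    ring
  simp only [h1]
  rw [expect_sum_comm]
  refine (norm_sum_le _ _).trans ?_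
  have h2 : ∀ s : ι → ZMod p,
      ‖b.powerset.expect (fun A => (∏ e, (ch (-(j e * s e)) / (p : ℂ))) *
        (ψ (∑ e, Ξ e A (s e)) * ch (dot μ A)))‖ ≤
        (1 / (p : ℝ)) ^ Fintype.card ι * θ ^ (supp μ ∩ b).card := by
    intro s
    rw [← mul_expect, norm_mul, norm_prod]
    have h3 : ∏ e, ‖ch (-(j e * s e)) / (p : ℂ)‖ = (1 / (p : ℝ)) ^ Fintype.card ι := by
      rw [← card_univ, ← prod_const]
      refine prod_congr rfl fun e _ => ?_
      rw [norm_div, norm_ch, Complex.norm_natCast]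
    rw [h3]
    refine mul_le_mul_of_nonneg_left ?_ (by positivity)
    exact hθ.2.2 X V hV ψ b (fun A => ∑ e, Ξ e A (s e)) μ
      (DL_sum univ (fun e A => Ξ e A (s e)) (fun e _ => hΞ e (s e)))
  refine (sum_le_sum fun s _ => h2 s).trans ?_
  rw [sum_const, card_univ, Fintype.card_fun, ZMod.card, nsmul_eq_mul, ← mul_assoc]
  push_cast
  rw [← mul_pow, mul_one_div_cancel hp.ne', one_pow, one_mul]

/-- the bound of one term by the clusters that do not vanish. -/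
theorem odeca_term_cl {m : ℕ} {γ : ℝ} (hγ : Gam p m γ) {V : Type} [AddCommGroup V] [Fintype V]
    (hV : ∀ v : V, m • v = 0) (ψ : AddChar V ℂ) (hψ : ∀ v, ψ v = 1 → v = 0) {ι : Type}
    [Fintype ι] [DecidableEq ι] (b : Finset X) (Ξ : ι → Finset X → ZMod p → V)
    (hΞ : ∀ e A, SZ (Ξ e A)) (Q : ι → Finset X) (hQ : ∀ e e', e ≠ e' → Disjoint (Q e) (Q e'))
    (hloc : ∀ e A, A ⊆ b → Ξ e A = Ξ e (A ∩ Q e)) (j : ι → ZMod p) (μ : Vec p X) :
    ‖b.powerset.expect (fun A => (∏ e, odecaG ψ (Ξ e A) (j e)) * ch (dot μ A))‖ ≤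
      ∏ e, (1 - (1 - γ) * pr b.powerset (fun A => ∃ y, Ξ e A y ≠ 0)) := by
  refine (odeca_norm_expect _ _).trans ?_
  have h1 : b.powerset.expect (fun A => ‖(∏ e, odecaG ψ (Ξ e A) (j e)) * ch (dot μ A)‖) ≤
      b.powerset.expect (fun A => ∏ e, odecaF γ (∃ y, Ξ e A y ≠ 0)) := by
    refine expect_le_expect fun A _ => ?_
    rw [norm_mul, norm_ch, mul_one, norm_prod]
    exact prod_le_prod (fun e _ => norm_nonneg _)
      (fun e _ => odecaG_le_F hγ hV ψ hψ (Ξ e A) (hΞ e A) (j e))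
  refine h1.trans (le_of_eq ?_)
  rw [expect_powerset_prod b univ Q (fun e _ e' _ h => hQ e e' h)
    (fun e A => odecaF γ (∃ y, Ξ e A y ≠ 0)) (fun e _ A hA => by rw [← hloc e A hA])]
  refine prod_congr rfl fun e _ => ?_
  exact odeca_expect_F b.powerset (powerset_nonempty b) (fun A => ∃ y, Ξ e A y ≠ 0) γ

/-- pairs of a vector of `H` and coefficients list the vectors of the larger space. -/
theorem odeca_sum_pairs {T : Type} (H : Sub p X) (Gd : Finset T) (lam : T → Vec p X)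
    (hdim : Module.finrank (ZMod p) ↥(H ⊔ spn lam Gd) = Module.finrank (ZMod p) ↥H + Gd.card)
    (f : Vec p X → ℝ) :
    ∑ η ∈ elts H, ∑ j : Gd → ZMod p, f (∑ e : Gd, j e • lam e + η) =
      ∑ μ ∈ elts (H ⊔ spn lam Gd), f μ := by
  rw [← sum_product' (elts H) univ (fun η (j : Gd → ZMod p) => f (∑ e : Gd, j e • lam e + η))]
  have hmap : Set.MapsTo (fun x : Vec p X × (Gd → ZMod p) => ∑ e : Gd, x.2 e • lam e + x.1)
      (↑(elts H ×ˢ (univ : Finset (Gd → ZMod p))) : Set _) (↑(elts (H ⊔ spn lam Gd)) : Set _) := by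
    intro x hx
    have hx1 : x.1 ∈ H := mem_elts.1 (mem_product.1 (mem_coe.1 hx)).1
    refine mem_coe.2 (mem_elts.2 (Submodule.add_mem _ ?_ (Submodule.mem_sup_left hx1)))
    exact Submodule.mem_sup_right
      ((Submodule.mem_span_image_finset_iff_exists_fun (ZMod p)).2 ⟨x.2, rfl⟩)
  have hsurj : Set.SurjOn (fun x : Vec p X × (Gd → ZMod p) => ∑ e : Gd, x.2 e • lam e + x.1)
      (↑(elts H ×ˢ (univ : Finset (Gd → ZMod p))) : Set _) (↑(elts (H ⊔ spn lam Gd)) : Set _) := by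
    intro μ hμ
    obtain ⟨η, hη, z, hz, rfl⟩ := Submodule.mem_sup.1 (mem_elts.1 (mem_coe.1 hμ))
    obtain ⟨c, hc⟩ := (Submodule.mem_span_image_finset_iff_exists_fun (ZMod p)).1 hz
    refine ⟨(η, c), mem_coe.2 (mem_product.2 ⟨mem_elts.2 hη, mem_univ _⟩), ?_⟩
    simp only [hc]
    exact add_comm _ _
  have hcard : (elts H ×ˢ (univ : Finset (Gd → ZMod p))).card ≤ (elts (H ⊔ spn lam Gd)).card := by
    rw [card_product, card_elts, card_elts, hdim, card_univ, Fintype.card_fun, ZMod.card,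
      Fintype.card_coe, pow_add]
  exact sum_nbij _ hmap (injOn_of_surjOn_of_card_le _ hmap hsurj hcard) hsurj (fun _ _ => rfl)

theorem odeca_le_sqrt {x a θ : ℝ} {n : ℕ} (hx : 0 ≤ x) (hθ : 0 ≤ θ) (h1 : x ≤ a)
    (h2 : x ≤ θ ^ n) : x ≤ Real.sqrt a * Real.sqrt θ ^ n := by
  have ha : 0 ≤ a := hx.trans h1
  have h3 : Real.sqrt θ ^ n = Real.sqrt (θ ^ n) := by
    rw [Real.sqrt_eq_rpow, Real.sqrt_eq_rpow, ← Real.rpow_natCast, ← Real.rpow_natCast,
      ← Real.rpow_mul hθ, ← Real.rpow_mul hθ, mul_comm]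
  rw [h3, ← Real.sqrt_mul ha]
  refine Real.le_sqrt_of_sq_le ?_
  rw [sq]
  exact mul_le_mul h1 h2 hx ha

/-- decay of the bias on one class: every cluster that is not zero costs a factor. -/
theorem decay_class {m c : ℕ} {θ γ : ℝ} (hθ : ThB p m c θ) (hγ : Gam p m γ) {V : Type}
    [AddCommGroup V] [Fintype V] (hV : ∀ v : V, m • v = 0) (hN : NoP p V) (ψ : AddChar V ℂ)
    (hψ : ∀ v, ψ v = 1 → v = 0) {T : Type} (b B0 : Finset X) (H : Sub p X) (Gd : Finset T)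
    (lam : T → Vec p X) (hb : H ⊔ spn lam Gd ≤ co b) {C' : ℕ} (hC : 1 ≤ C')
    (hs : Safe C' (H ⊔ spn lam Gd))
    (hdim : Module.finrank (ZMod p) ↥(H ⊔ spn lam Gd) = Module.finrank (ZMod p) ↥H + Gd.card)
    (hQ : 4 * (p * (Fintype.card X + 1) : ℝ) ^ 2 * Real.sqrt θ ^ C' ≤ 1)
    (Tt : T → Finset T) (w : T → T → ZMod p → V) (hw : ∀ e ∈ Gd, ∀ t ∈ Tt e, SZ (w e t))
    (δ : T → T → Vec p X) (Q : T → Finset X)
    (hdis : ∀ e ∈ Gd, ∀ e' ∈ Gd, e ≠ e' → Disjoint (Q e) (Q e'))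
    (hδQ : ∀ e ∈ Gd, ∀ t ∈ Tt e, supp (δ e t) ∩ b ⊆ Q e)
    (hδc : ∀ e ∈ Gd, ∀ t ∈ Tt e, (supp (δ e t) ∩ b).card ≤ c) {M4 E1 : ℕ}
    (hM : ∀ e ∈ Gd, (Tt e).card ≤ M4) (hE : 2 * ((p : ℝ) - 1) ^ E1 ≤ (p : ℝ) ^ E1)
    (hne : ∀ e ∈ Gd, ∃ B, B ⊆ b ∧ ∃ y, ∑ t ∈ Tt e, w e t (y + dot (δ e t) B) ≠ 0) :
    ‖(fib H b B0).expect (fun B =>
      ψ (∑ e ∈ Gd, ∑ t ∈ Tt e, w e t (dot (lam e) B + dot (δ e t) B)))‖ ^ 2 ≤
      9 * (1 - (1 - γ) / (M4 : ℝ) ^ E1) ^ Gd.card := by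
  have hθ0 : 0 ≤ θ := hθ.1
  have hs0 : 0 ≤ Real.sqrt θ := Real.sqrt_nonneg θ
  have hs1 : Real.sqrt θ ≤ 1 := Real.sqrt_le_one.2 hθ.2.1.le
  have hθs : θ ≤ Real.sqrt θ := by
    have := Real.mul_self_sqrt hθ0
    nlinarith
  have hp1 : (1 : ℝ) ≤ p := by exact_mod_cast (Fact.out : p.Prime).one_lt.le
  have hQ1 : (1 : ℝ) ≤ p * (Fintype.card X + 1) := by
    have : (0 : ℝ) ≤ Fintype.card X := Nat.cast_nonneg _
    nlinarith
  have hsC : 0 ≤ Real.sqrt θ ^ C' := pow_nonneg hs0 _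
  have hsum : ∑ μ ∈ elts (H ⊔ spn lam Gd), Real.sqrt θ ^ wt μ ≤ 3 / 2 := by
    have h1 : (p * (Fintype.card X + 1) : ℝ) * Real.sqrt θ ^ C' ≤ 1 / 2 := by
      have h2 : (p * (Fintype.card X + 1) : ℝ) ≤ (p * (Fintype.card X + 1) : ℝ) ^ 2 := by
        nlinarith
      have h3 := mul_le_mul_of_nonneg_right h2 hsC
      linarith
    have h4 := sum_pow_wt hC hs hs0 hs1 h1
    linarith
  have hwt : ∀ μ ∈ H ⊔ spn lam Gd, (supp μ ∩ b).card = wt μ := by
    intro μ hμ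
    rw [inter_eq_left.2 (mem_co_iff.1 (hb hμ))]
    rfl
  have henum : enum θ H b ≤ 3 / 2 := by
    refine (enum_mono hθ0 (le_sup_left : H ≤ H ⊔ spn lam Gd) b).trans (le_trans ?_ hsum)
    refine sum_le_sum fun μ hμ => ?_
    rw [hwt μ (mem_elts.1 hμ)]
    exact pow_le_pow_left₀ hθ0 hθs _
  -- the clusters
  set Ξ : Gd → Finset X → ZMod p → V :=
    fun e A y => ∑ t ∈ Tt e, w e t (y + dot (δ e t) A) with hΞ
  have hSZ : ∀ e A, SZ (Ξ e A) := by
    intro e A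
    unfold SZ
    simp only [hΞ]
    rw [sum_comm]
    refine sum_eq_zero fun t ht => ?_
    have h1 := SZ.shift (hw e e.2 t ht) (u := 1) one_ne_zero (dot (δ e t) A)
    unfold SZ at h1
    simpa only [one_mul] using h1
  have hloc : ∀ (e : Gd) A, A ⊆ b → Ξ e A = Ξ e (A ∩ Q e) := by
    intro e A hA
    funext y
    simp only [hΞ]
    refine sum_congr rfl fun t ht => ?_
    rw [dot_inter ((inter_subset_inter_left hA).trans (hδQ e e.2 t ht))]
  have hDL : ∀ (e : Gd) y, DL ⊥ (fun _ => True) (c + 1) b (fun A => Ξ e A y) := by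
    intro e y
    refine DL_sum (Tt e) (fun t A => w e t (y + dot (δ e t) A)) fun t ht => ?_
    refine DL_junta (supp (δ e t)) (fun A _ => ?_) (hδc e e.2 t ht)
    rw [dot_inter inter_subset_left]
  set a : ℝ := ∏ e : Gd, (1 - (1 - γ) * pr b.powerset (fun A => ∃ y, Ξ e A y ≠ 0)) with ha
  have hfac : ∀ e : Gd, 0 ≤ 1 - (1 - γ) * pr b.powerset (fun A => ∃ y, Ξ e A y ≠ 0) := by
    intro e
    have h1 := pr_le_one b.powerset (fun A => ∃ y, Ξ e A y ≠ 0)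
    have h2 := pr_nonneg b.powerset (fun A => ∃ y, Ξ e A y ≠ 0)
    have h3 := hγ.1
    have h4 := hγ.2.1
    nlinarith
  have ha0 : 0 ≤ a := prod_nonneg fun e _ => hfac e
  have hale : a ≤ (1 - (1 - γ) / (M4 : ℝ) ^ E1) ^ Gd.card := by
    rw [← Fintype.card_coe Gd, ← card_univ, ← prod_const]
    refine prod_le_prod (fun e _ => hfac e) fun e _ => ?_
    have h1 := uncert hN b (Tt e) (w e) (hw e e.2) (δ e) (hne e e.2) (hM e e.2) hE
    have h2 : 0 ≤ 1 - γ := sub_nonneg.2 hγ.2.1.le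
    have h3 := mul_le_mul_of_nonneg_left h1 h2
    rw [mul_one_div] at h3
    exact sub_le_sub_left h3 1
  -- expansion of the integrand
  have hexp : ∀ (η : Vec p X) (A : Finset X),
      ψ (∑ e ∈ Gd, ∑ t ∈ Tt e, w e t (dot (lam e) A + dot (δ e t) A)) * ch (dot η A) =
        ∑ j : Gd → ZMod p, (∏ e, odecaG ψ (Ξ e A) (j e)) *
          ch (dot (∑ e : Gd, j e • lam e + η) A) := by
    intro η A
    rw [← sum_coe_sort Gd (fun e => ∑ t ∈ Tt e, w e t (dot (lam e) A + dot (δ e t) A))]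
    have h1 := odeca_expand ψ (fun e : Gd => Ξ e A) (fun e => dot (lam e) A)
    simp only [hΞ] at h1
    rw [h1, sum_mul]
    refine sum_congr rfl fun j _ => ?_
    rw [dot_add, ch_add, dot_sum, mul_assoc]
    simp only [dot_smul, hΞ]
  have hterm : ∀ η ∈ elts H,
      ‖b.powerset.expect (fun A =>
        ψ (∑ e ∈ Gd, ∑ t ∈ Tt e, w e t (dot (lam e) A + dot (δ e t) A)) * ch (dot η A))‖ ≤
        ∑ j : Gd → ZMod p, Real.sqrt a * Real.sqrt θ ^ wt (∑ e : Gd, j e • lam e + η) := by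
    intro η hη
    simp only [hexp]
    rw [expect_sum_comm]
    refine (norm_sum_le _ _).trans (sum_le_sum fun j _ => ?_)
    have hμ : ∑ e : Gd, j e • lam e + η ∈ H ⊔ spn lam Gd :=
      Submodule.add_mem _ (Submodule.mem_sup_right
        ((Submodule.mem_span_image_finset_iff_exists_fun (ZMod p)).2 ⟨j, rfl⟩))
        (Submodule.mem_sup_left (mem_elts.1 hη))
    refine odeca_le_sqrt (norm_nonneg _) hθ0 ?_ ?_
    · exact odeca_term_cl hγ hV ψ hψ b Ξ hSZ (fun e => Q e)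
        (fun e e' h => hdis e e.2 e' e'.2 (fun h' => h (Subtype.ext h'))) hloc j _
    · rw [← hwt _ hμ]
      exact odeca_term_wt hθ hV ψ b Ξ hDL j _
  have hmain := norm_expect_fib hθ.thC henum B0
    (fun B => ψ (∑ e ∈ Gd, ∑ t ∈ Tt e, w e t (dot (lam e) B + dot (δ e t) B)))
  have hsum2 := sum_le_sum hterm
  rw [odeca_sum_pairs H Gd lam hdim (fun μ => Real.sqrt a * Real.sqrt θ ^ wt μ),
    ← mul_sum] at hsum2
  have hsa : 0 ≤ Real.sqrt a := Real.sqrt_nonneg a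
  have hfin : ‖(fib H b B0).expect (fun B =>
      ψ (∑ e ∈ Gd, ∑ t ∈ Tt e, w e t (dot (lam e) B + dot (δ e t) B)))‖ ≤ 3 * Real.sqrt a := by
    have h1 := mul_le_mul_of_nonneg_left hsum hsa
    linarith
  have hsq := pow_le_pow_left₀ (norm_nonneg _) hfin 2
  rw [mul_pow, Real.sq_sqrt ha0] at hsq
  linarith

end Pool.Agent.P.MP_85fe51_lc.OD
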