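import Mathlib

set_option autoImplicit false

/-! Definitions for the superlinear bound over abelian-by-p-groups. -/

namespace Pool.Agent.P.MP_85fe51_lc.OD

open Finset
open scoped Classical

abbrev Vec (p : ℕ) (X : Type) : Type := X → ZMod p

abbrev Sub (p : ℕ) (X : Type) : Type := Submodule (ZMod p) (X → ZMod p)

/-- probability of `P` under the uniform law on `s`. -/
noncomputable def pr {Ω : Type} (s : Finset Ω) (P : Ω → Prop) : ℝ :=
  s.expect (fun x => if P x then (1 : ℝ) else 0)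

/-- expectation under the product of the weights `w i`. -/
noncomputable def Ew {X L : Type} [Fintype X] [DecidableEq X] [Fintype L] (w : X → L → ℝ)
    (F : (X → L) → ℝ) : ℝ :=
  ∑ l : X → L, (∏ i, w i (l i)) * F l

/-- probability under the product of the weights `w i`. -/
noncomputable def Pw {X L : Type} [Fintype X] [DecidableEq X] [Fintype L] (w : X → L → ℝ)
    (P : (X → L) → Prop) : ℝ :=
  Ew w (fun l => if P l then 1 else 0)

/-- every `w i` is a probability vector. -/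
def IsW {X L : Type} [Fintype L] (w : X → L → ℝ) : Prop :=
  (∀ i l, 0 ≤ w i l) ∧ ∀ i, ∑ l, w i l = 1

/-- all `d`-fold differences along disjoint admissible subsets of `Y` lie in `Z`. -/
def DL {ι V : Type} [DecidableEq ι] [AddCommGroup V] (Z : AddSubgroup V) (Kp : Finset ι → Prop) :
    ℕ → Finset ι → (Finset ι → V) → Prop
  | 0, Y, f => ∀ A, A ⊆ Y → Kp A → f A ∈ Z
  | d + 1, Y, f => ∀ B, B ⊆ Y → Kp B → DL Z Kp d (Y \ B) (fun A => f (A ∪ B) - f A)

def sgn {k : ℕ} (ε : Fin k → Bool) : ℤ := ∏ b, if ε b then -1 else 1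

def NoP (p : ℕ) (V : Type) [AddCommGroup V] : Prop := ∀ v : V, p • v = 0 → v = 0

noncomputable def piK (p k : ℕ) : ℝ := (1 - 1 / (p : ℝ)) ^ k

section
variable {p : ℕ} [Fact p.Prime]

noncomputable def ch (s : ZMod p) : ℂ := ZMod.stdAddChar s

def SZ {V : Type} [AddCommGroup V] (w : ZMod p → V) : Prop := ∑ s, w s = 0

variable {X : Type} [Fintype X] [DecidableEq X]

def dot (η : Vec p X) (A : Finset X) : ZMod p := ∑ i ∈ A, η i

def supp (η : Vec p X) : Finset X := univ.filter (fun i => η i ≠ 0)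

def wt (η : Vec p X) : ℕ := (supp η).card

def co (J : Finset X) : Sub p X where
  carrier := {η | ∀ i, i ∉ J → η i = 0}
  add_mem' := by
    intro a b ha hb i hi
    rw [Pi.add_apply, ha i hi, hb i hi, add_zero]
  zero_mem' := by
    intro i _
    rfl
  smul_mem' := by
    intro c x hx i hi
    rw [Pi.smul_apply, hx i hi, smul_zero]

def off (J : Finset X) : Vec p X →ₗ[ZMod p] Vec p X where
  toFun η := fun i => if i ∈ J then 0 else η i
  map_add' a b := by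
    funext i
    by_cases h : i ∈ J <;> simp [h]
  map_smul' c a := by
    funext i
    by_cases h : i ∈ J <;> simp [h]

noncomputable def wtm (H : Sub p X) (v : Vec p X) : ℕ := sInf {n | ∃ η ∈ H, wt (v + η) = n}

noncomputable def dO (H : Sub p X) (J : Finset X) : ℕ := Module.finrank (ZMod p) ↥(H.map (off J))

noncomputable def fC (C : ℕ) (H : Sub p X) (J : Finset X) : ℕ := J.card + C * dO H J

noncomputable def rho (C : ℕ) (H : Sub p X) : ℕ := sInf {n | ∃ J, fC C H J = n}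

noncomputable def Jmax (C : ℕ) (H : Sub p X) : Finset X :=
  univ.filter (fun i => ∃ J, fC C H J = rho C H ∧ i ∈ J)

noncomputable def marg (C : ℕ) (H : Sub p X) (v : Vec p X) : ℕ :=
  rho C (H ⊔ Submodule.span (ZMod p) {v}) - rho C H

def Safe (C : ℕ) (H : Sub p X) : Prop :=
  ∀ J : Finset X, C * Module.finrank (ZMod p) ↥(H ⊓ co J) ≤ J.card

def SafeOn (a : Finset X) (C : ℕ) (H : Sub p X) : Prop :=
  ∀ N : Sub p X, N ≤ H →
    C * Module.finrank (ZMod p) ↥N ≤ (a.filter (fun i => ∃ η ∈ N, η i ≠ 0)).card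

noncomputable def elts (H : Sub p X) : Finset (Vec p X) := univ.filter (fun η => η ∈ H)

noncomputable def cenum (θ : ℝ) (μ : Vec p X) (H : Sub p X) (a : Finset X) : ℝ :=
  ∑ η ∈ elts H, θ ^ (supp (μ + η) ∩ a).card

noncomputable def enum (θ : ℝ) (H : Sub p X) (a : Finset X) : ℝ :=
  ∑ η ∈ elts H, θ ^ (supp η ∩ a).card

def KerP (U : Sub p X) (A : Finset X) : Prop := ∀ η ∈ U, dot η A = 0

noncomputable def Ker (U : Sub p X) (a : Finset X) : Finset (Finset X) :=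
  a.powerset.filter (fun A => KerP U A)

noncomputable def fib (H : Sub p X) (a A0 : Finset X) : Finset (Finset X) :=
  a.powerset.filter (fun A => ∀ η ∈ H, dot η A = dot η A0)

variable {T : Type}

def spn (lam : T → Vec p X) (F : Finset T) : Sub p X :=
  Submodule.span (ZMod p) (lam '' (F : Set T))

def Sf [Fintype T] {V : Type} [AddCommGroup V] (lam : T → Vec p X) (phi : T → ZMod p → V)
    (A : Finset X) : V := ∑ t, phi t (dot (lam t) A)

end

/-- decay of characters on the cube. -/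
def ThC (p : ℕ) [Fact p.Prime] (θ : ℝ) : Prop :=
  0 ≤ θ ∧ θ < 1 ∧ ∀ (X : Type) [Fintype X] [DecidableEq X] (a : Finset X) (μ : Vec p X),
    ‖a.powerset.expect (fun A => ch (dot μ A))‖ ≤ θ ^ (supp μ ∩ a).card

/-- decay of characters twisted by a low degree phase of exponent `m`. -/
def ThB (p : ℕ) [Fact p.Prime] (m c : ℕ) (θ : ℝ) : Prop :=
  0 ≤ θ ∧ θ < 1 ∧ ∀ (X : Type) [Fintype X] [DecidableEq X] (V : Type) [AddCommGroup V],
    (∀ v : V, m • v = 0) → ∀ (τ : AddChar V ℂ) (a : Finset X) (P : Finset X → V) (μ : Vec p X),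
      DL ⊥ (fun _ => True) (c + 1) a P →
      ‖a.powerset.expect (fun A => τ (P A) * ch (dot μ A))‖ ≤ θ ^ (supp μ ∩ a).card

/-- Fourier coefficients of a nonzero sum-zero phase. -/
def Gam (p : ℕ) [Fact p.Prime] (m : ℕ) (γ : ℝ) : Prop :=
  0 ≤ γ ∧ γ < 1 ∧ ∀ (V : Type) [AddCommGroup V], (∀ v : V, m • v = 0) →
    ∀ (ψ : AddChar V ℂ), (∀ v, ψ v = 1 → v = 0) → ∀ w : ZMod p → V, SZ w → w ≠ 0 →
      ∀ i : ZMod p, ‖(univ : Finset (ZMod p)).expect (fun s => ch (-(i * s)) * ψ (w s))‖ ≤ γ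

/-- low degree maps on `j` bits repeat their value at the empty set. -/
def OlsJ (c M0 j : ℕ) : Prop :=
  ∀ (V : Type) [AddCommGroup V] [Fintype V], Fintype.card V ≤ M0 →
    ∀ (Z : AddSubgroup V) (ι : Type) [DecidableEq ι] (I : Finset ι) (f : Finset ι → V),
      j ≤ I.card → DL Z (fun _ => True) (c + 1) I f → ∃ g, g ⊆ I ∧ g.Nonempty ∧ f g - f ∅ ∈ Z

abbrev Atom (k j : ℕ) : Type := Fin (k + 1) × Fin j

abbrev Lab (k j : ℕ) : Type := Option (Atom k j × Bool)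

abbrev Cp (k j : ℕ) : Type := Atom k j ⊕ Fin k

/-- a set of atoms with a chosen member in every batch. -/
structure Pat (k j : ℕ) where
  g : Finset (Atom k j)
  ix : Fin (k + 1) → Fin j
  mem : ∀ b, (b, ix b) ∈ g

namespace Pat
variable {k j : ℕ} (P : Pat k j)

def a0 : Atom k j := (0, P.ix 0)

def ab (b : Fin k) : Atom k j := (b.succ, P.ix b.succ)

def Sg : Finset (Atom k j) := P.g.filter (fun a => ∀ b, a ≠ P.ab b)

def cp (b : Fin k) (e : Bool) : Cp k j := if e then Sum.inr b else Sum.inl (P.ab b)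

def atm : Cp k j → Atom k j := Sum.elim id P.ab

end Pat

noncomputable def nu (k j : ℕ) (τ : ℝ) : Lab k j → ℝ
  | none => 1 / 2
  | some (a, e) => (if a.1 = 0 then 1 / (4 * j : ℝ) else 1 / (4 * j * k : ℝ)) *
      (if e then τ else 1 - τ)

/-- second copies replace the first ones where `ε` is true. -/
noncomputable def mix {A Ω : Type} {k : ℕ} (ab : Fin k → A) (ω : A ⊕ Fin k → Ω)
    (ε : Fin k → Bool) : A → Ω :=
  fun a => if h : ∃ b, ab b = a ∧ ε b = true then ω (Sum.inr h.choose) else ω (Sum.inl a)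

section
variable {p : ℕ} [Fact p.Prime] {X : Type} [Fintype X] [DecidableEq X] {T : Type} {k j : ℕ}

def atomSet (Y : Finset X) (l : X → Lab k j) (a : Atom k j) : Finset X :=
  Y.filter (fun i => l i = some (a, false) ∨ l i = some (a, true))

def subSet (Y : Finset X) (l : X → Lab k j) (a : Atom k j) : Finset X :=
  Y.filter (fun i => l i = some (a, true))

def cset (P : Pat k j) (Y : Finset X) (l : X → Lab k j) (κ : Cp k j) : Finset X :=
  atomSet Y l (P.atm κ)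

def sval (P : Pat k j) (s : Cp k j → ZMod p) (ε : Fin k → Bool) : ZMod p :=
  ∑ a ∈ P.Sg, s (Sum.inl a) + ∑ b, s (P.cp b (ε b))

def val (P : Pat k j) (v : Vec p X) (x : Cp k j → Finset X) (ε : Fin k → Bool) : ZMod p :=
  sval P (fun κ => dot v (x κ)) ε

def Surv (P : Pat k j) (v : Vec p X) (x : Cp k j → Finset X) : Prop :=
  ∀ b, dot v (x (P.cp b false)) ≠ dot v (x (P.cp b true))

def Phi {V : Type} [AddCommGroup V] (P : Pat k j) (phi : T → ZMod p → V) (Tt : Finset T)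
    (u : T → ZMod p) (d : T → Vec p X) (ω : Cp k j → Finset X × ZMod p) (y : ZMod p) : V :=
  ∑ ε : Fin k → Bool, sgn ε • ∑ t ∈ Tt,
    phi t (u t * (y + sval P (fun κ => (ω κ).2) ε) + val P (d t) (fun κ => (ω κ).1) ε)

/-- the sample space of the free model. -/
def FSp (p : ℕ) [Fact p.Prime] (a : Cp k j → Finset X) : Finset (Cp k j → Finset X × ZMod p) :=
  Fintype.piFinset (fun κ => (a κ).powerset ×ˢ (univ : Finset (ZMod p)))

def FSurv (P : Pat k j) (δ : Vec p X) (ω : Cp k j → Finset X × ZMod p) : Prop :=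
  ∀ b, (ω (P.cp b false)).2 + dot δ (ω (P.cp b false)).1 ≠
    (ω (P.cp b true)).2 + dot δ (ω (P.cp b true)).1

def useSet (P : Pat k j) (x : Cp k j → Finset X) (ε : Fin k → Bool) : Finset X :=
  P.Sg.biUnion (fun a => x (Sum.inl a)) ∪ univ.biUnion (fun b => x (P.cp b (ε b)))

/-- the free probability of a cluster. -/
noncomputable def pf {V : Type} [AddCommGroup V] (P : Pat k j) (phi : T → ZMod p → V)
    (Tt : Finset T) (u : T → ZMod p) (d : T → Vec p X) (a : Cp k j → Finset X) : ℝ :=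
  pr (FSp p a)
    (fun ω => (∀ b, (ω (P.cp b false)).2 ≠ (ω (P.cp b true)).2) ∧ ∃ y, Phi P phi Tt u d ω y ≠ 0)

variable [Fintype T]

def DS {V : Type} [AddCommGroup V] (P : Pat k j) (lam : T → Vec p X) (phi : T → ZMod p → V)
    (x : Cp k j → Finset X) : V :=
  ∑ ε : Fin k → Bool, sgn ε • ∑ t, phi t (val P (lam t) x ε)

noncomputable def Rs (P : Pat k j) (lam : T → Vec p X) (x : Cp k j → Finset X) : Finset T :=
  univ.filter (fun t => Surv P (lam t) x)

noncomputable def MidS (U : Sub p X) (lam : T → Vec p X) (CH : ℕ) (e : T) : Finset T :=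
  univ.filter (fun t => ∃ u : ZMod p, u ≠ 0 ∧ wtm U (lam t - u • lam e) ≤ 4 * CH)

noncomputable def JtS (U : Sub p X) (lam : T → Vec p X) (CH : ℕ) (Γ : Finset T) : Finset X :=
  Jmax (2 * CH) (U ⊔ spn lam Γ)

noncomputable def HtS (U : Sub p X) (lam : T → Vec p X) (CH : ℕ) (Γ : Finset T) : Sub p X :=
  (U ⊔ spn lam Γ) ⊔ co (JtS U lam CH Γ)

def MovedS (U : Sub p X) (lam : T → Vec p X) (CH : ℕ) (Γ : Finset T) (e : T) : Prop :=
  wtm (HtS U lam CH Γ) (lam e) < 9 * CH ∨ ∃ t, ∃ u : ZMod p, u ≠ 0 ∧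
    min (4 * CH + 1) (wtm (HtS U lam CH Γ) (lam t - u • lam e)) <
      min (4 * CH + 1) (wtm U (lam t - u • lam e))

end

/-- an extremal state. -/
structure Ext (p : ℕ) [Fact p.Prime] (X : Type) [Fintype X] [DecidableEq X] (T : Type)
    [Fintype T] where
  lam : T → Vec p X
  Y : Finset X
  U : Sub p X
  CH : ℕ
  r : ℕ
  M4 : ℕ
  K1 : ℕ
  K : ℕ
  uu : T → T → ZMod p
  dd : T → T → Vec p X
  dl : T → Vec p X
  hr : 8 * r < CH
  hY : co Yᶜ ≤ U
  safe : Safe (4 * CH) (U.map (off Yᶜ))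
  mid : ∀ e, 9 * CH ≤ wtm U (lam e) → (MidS U lam CH e).card ≤ M4
  e2 : ∀ Γ : Finset T,
    (univ.filter (fun t => marg CH (U ⊔ spn lam Γ) (lam t) < marg CH U (lam t))).card ≤ K1 * Γ.card
  e3 : ∀ Γ : Finset T,
    (univ.filter (fun e => 9 * CH ≤ wtm U (lam e) ∧ MovedS U lam CH Γ e)).card ≤ K * Γ.card
  rep : ∀ e, ∀ t ∈ MidS U lam CH e, uu e t ≠ 0 ∧ lam t - uu e t • lam e - dd e t ∈ U ∧
    supp (dd e t) ⊆ Y ∧ wt (dd e t) = wtm U (lam t - uu e t • lam e) ∧ wt (dd e t) ≤ 4 * CH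
  repl : ∀ t, lam t - dl t ∈ U ∧ supp (dl t) ⊆ Y ∧ wt (dl t) = wtm U (lam t)

namespace Ext
variable {p : ℕ} [Fact p.Prime] {X : Type} [Fintype X] [DecidableEq X] {T : Type} [Fintype T]
  (σ : Ext p X T)

def Heavy (e : T) : Prop := 9 * σ.CH ≤ wtm σ.U (σ.lam e)

noncomputable def Mid (e : T) : Finset T := MidS σ.U σ.lam σ.CH e

noncomputable def Jt (Γ : Finset T) : Finset X := JtS σ.U σ.lam σ.CH Γ

noncomputable def Ht (Γ : Finset T) : Sub p X := HtS σ.U σ.lam σ.CH Γ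

def Moved (Γ : Finset T) (e : T) : Prop := MovedS σ.U σ.lam σ.CH Γ e

noncomputable def LCl (e : T) : Finset T := (σ.Mid e).filter (fun t => wt (σ.dd e t) ≤ σ.r)

noncomputable def Qs (e : T) : Finset X := (σ.LCl e).biUnion (fun t => supp (σ.dd e t))

def Free (F : Finset T) : Prop :=
  rho σ.CH (σ.U ⊔ spn σ.lam F) = rho σ.CH σ.U + ∑ t ∈ F, marg σ.CH σ.U (σ.lam t)

def Lt (t : T) : Prop := wtm σ.U (σ.lam t) < σ.CH

noncomputable def JF (F : Finset T) : Finset X :=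
  σ.Yᶜ ∪ (F.filter σ.Lt).biUnion (fun t => supp (σ.dl t))

noncomputable def HF (F : Finset T) : Sub p X := (σ.U ⊔ spn σ.lam F).map (off (σ.JF F))

noncomputable def U' : Sub p X := σ.U.map (off σ.Yᶜ)

/-- a separated family of heavy terms. -/
def SeqOK (Seq : Finset T) : Prop :=
  ∀ e ∈ Seq, σ.Heavy e ∧ ¬ σ.Moved ((Seq.erase e).biUnion σ.Mid) e

noncomputable def past (Seq : Finset T) (i : T) : Finset T :=
  (Seq.filter (fun e => Fintype.equivFin T e < Fintype.equivFin T i)).biUnion σ.Mid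

def Hit (a : Finset X) (C' : ℕ) (e : T) (H : Sub p X) : Prop :=
  marg C' (H ⊔ co aᶜ) (σ.lam e) < C' ∨ ¬ Disjoint (σ.Qs e ∩ a) (Jmax C' (H ⊔ co aᶜ))

variable {k j : ℕ} {V : Type} [AddCommGroup V]

noncomputable def pfe (P : Pat k j) (phi : T → ZMod p → V) (e : T) (l : X → Lab k j) : ℝ :=
  pf P phi (σ.LCl e) (σ.uu e) (σ.dd e) (cset P σ.Y l)

noncomputable def abar (P : Pat k j) (phi : T → ZMod p → V) (τ : ℝ) (e : T) : ℝ :=
  Ew (fun _ => nu k j τ) (σ.pfe P phi e)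

def Good (c1 : ℕ) (l : X → Lab k j) (e : T) : Prop :=
  ∀ t ∈ σ.LCl e, ∀ a : Atom k j, (supp (σ.dd e t) ∩ subSet σ.Y l a).card ≤ c1

noncomputable def Om (P : Pat k j) (l : X → Lab k j) : Finset (Cp k j → Finset X) :=
  Fintype.piFinset (fun κ => Ker σ.U (cset P σ.Y l κ))

def Act (P : Pat k j) (phi : T → ZMod p → V) (c1 : ℕ) (l : X → Lab k j) (e : T)
    (x : Cp k j → Finset X) : Prop :=
  σ.Good c1 l e ∧ Surv P (σ.lam e) x ∧
    (∀ t ∈ σ.Mid e, t ∉ σ.LCl e → ¬ Surv P (σ.lam t) x) ∧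
    ∃ y, Phi P phi (σ.LCl e) (σ.uu e) (σ.dd e) (fun κ => (x κ, dot (σ.lam e) (x κ))) y ≠ 0

noncomputable def inner (P : Pat k j) (phi : T → ZMod p → V) (ψ : AddChar V ℂ)
    (l : X → Lab k j) (x : Cp k j → Finset X) : ℂ :=
  (fib (σ.U ⊔ co (subSet σ.Y l P.a0)ᶜ) (atomSet σ.Y l P.a0) (x (Sum.inl P.a0))).expect
    (fun A => ψ (DS P σ.lam phi (Function.update x (Sum.inl P.a0) A)))

noncomputable def de (e t : T) : Vec p X := (σ.uu e t)⁻¹ • σ.dd e t

/-- a functional supported in `Tp` that sees the cluster of `t0` only. -/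
def Cert (phi : T → ZMod p → V) (Tp : Finset X) (t0 : T) : Prop :=
  ∃ (Λ : Type) (_ : Fintype Λ) (n : Λ → ℤ) (s : Λ → ZMod p) (z : Λ → Finset X),
    (∀ l, z l ⊆ Tp ∩ σ.Y) ∧
    (∃ y, ∑ l, n l • ∑ t ∈ σ.LCl t0,
      phi t (σ.uu t0 t * (y + s l) + dot (σ.dd t0 t) (z l)) ≠ 0) ∧
    ∀ t ∈ σ.Mid t0, t ∉ σ.LCl t0 → ∀ y,
      ∑ l, n l • phi t (σ.uu t0 t * (y + s l) + dot (σ.dd t0 t) (z l)) = 0

/-- typical labels. -/
structure Typ (P : Pat k j) (phi : T → ZMod p → V) (Seq : Finset T) (θ ε μ : ℝ) (c1 C' : ℕ)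
    (l : X → Lab k j) : Prop where
  t1 : ∀ a, enum θ σ.U' (subSet σ.Y l a) ≤ 1 + ε
  t2 : ∀ i ∈ Seq, ∀ a, enum θ ((σ.Ht (σ.past Seq i) ⊔ Submodule.span (ZMod p) {σ.lam i}).map
    (off (σ.Jt (σ.past Seq i)))) (subSet σ.Y l a) ≤ 1 + ε
  t3 : ∀ i ∈ Seq, ∀ t ∈ σ.Mid i, t ∉ σ.LCl i → ∀ u u' : ZMod p, (u ≠ 0 ∨ u' ≠ 0) → ∀ b,
    cenum θ (off (σ.Jt (σ.past Seq i)) (u • σ.lam i + u' • σ.lam t))
      ((σ.Ht (σ.past Seq i)).map (off (σ.Jt (σ.past Seq i)))) (atomSet σ.Y l (P.ab b)) ≤ ε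
  t4 : ∀ F : Finset T, σ.Free F → F.Nonempty → ∀ b,
    enum θ (σ.HF F) (atomSet σ.Y l (P.ab b)) ^ (4 * k) ≤ 2 ^ F.card
  t5 : SafeOn (subSet σ.Y l P.a0) (2 * C') ((σ.U ⊔ spn σ.lam Seq).map (off σ.Yᶜ))
  t6 : ∏ i ∈ Seq, (1 - (if σ.Good c1 l i then σ.pfe P phi i l else 0) / 2) ≤ Real.exp (-μ / 8)

end Ext

def prog {X G : Type} [DecidableEq X] [Group G] (l : List (X × G × G)) (A : Finset X) : G :=
  (l.map (fun q => if q.1 ∈ A then q.2.1 else q.2.2)).prod

end Pool.Agent.P.MP_85fe51_lc.OD
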