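import Pool.Agent.P.MP_85fe51_lc.ODL

set_option autoImplicit false

namespace Pool.Agent.P.MP_85fe51_lc.OD

open Finset
open scoped Classical

theorem prog_nil {X G : Type} [DecidableEq X] [Group G] (A : Finset X) :
    prog ([] : List (X × G × G)) A = 1 := by
  simp only [prog, List.map_nil, List.prod_nil]

theorem prog_snoc {X G : Type} [DecidableEq X] [Group G] (l : List (X × G × G)) (q : X × G × G)
    (A : Finset X) : prog (l ++ [q]) A = prog l A * (if q.1 ∈ A then q.2.1 else q.2.2) := by
  simp only [prog, List.map_append, List.prod_append, List.map_cons, List.map_nil,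
    List.prod_cons, List.prod_nil, mul_one]

theorem prog_map {X G H : Type} [DecidableEq X] [Group G] [Group H] (φ : G →* H)
    (l : List (X × G × G)) (A : Finset X) :
    prog (l.map (fun q => (q.1, φ q.2.1, φ q.2.2))) A = φ (prog l A) := by
  induction l using List.reverseRecOn with
  | nil => rw [List.map_nil, prog_nil, prog_nil, map_one]
  | append_singleton l q ih =>
    rw [List.map_append, List.map_singleton, prog_snoc, prog_snoc, ih, map_mul]
    congr 1
    by_cases e : q.1 ∈ A
    · simp only [e, if_true]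
    · simp only [e, if_false]

/-- left translation of functions on a group. -/
def odeg_act {H R : Type} [Group H] [AddCommGroup R] (g : H) : (H → R) →+ (H → R) where
  toFun v := fun h => v (g⁻¹ * h)
  map_zero' := rfl
  map_add' _ _ := rfl

theorem odeg_act_one {H R : Type} [Group H] [AddCommGroup R] (v : H → R) :
    odeg_act (1 : H) v = v := by
  funext h
  show v (1⁻¹ * h) = v h
  rw [inv_one, one_mul]

theorem odeg_act_mul {H R : Type} [Group H] [AddCommGroup R] (g g' : H) (v : H → R) :
    odeg_act (g * g') v = odeg_act g (odeg_act g' v) := by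
  funext h
  show v ((g * g')⁻¹ * h) = v (g'⁻¹ * (g⁻¹ * h))
  rw [mul_inv_rev, mul_assoc]

/-- the ascending filtration by iterated invariants. -/
def odeg_fil (H R : Type) [Group H] [AddCommGroup R] : ℕ → AddSubgroup (H → R)
  | 0 => ⊥
  | i + 1 => ⨅ g : H, (odeg_fil H R i).comap (odeg_act g - AddMonoidHom.id (H → R))

theorem odeg_mem_succ {H R : Type} [Group H] [AddCommGroup R] (i : ℕ) (v : H → R) :
    v ∈ odeg_fil H R (i + 1) ↔ ∀ g : H, odeg_act g v - v ∈ odeg_fil H R i := by
  show v ∈ (⨅ g : H, (odeg_fil H R i).comap (odeg_act g - AddMonoidHom.id (H → R))) ↔ _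
  rw [AddSubgroup.mem_iInf]
  exact Iff.rfl

theorem odeg_fil_le {H R : Type} [Group H] [AddCommGroup R] (i : ℕ) :
    odeg_fil H R i ≤ odeg_fil H R (i + 1) := by
  induction i with
  | zero => exact bot_le
  | succ i ih =>
    intro v hv
    rw [odeg_mem_succ] at hv ⊢
    exact fun g => ih (hv g)

theorem odeg_fil_inv {H R : Type} [Group H] [AddCommGroup R] (i : ℕ) (g : H) (v : H → R)
    (hv : v ∈ odeg_fil H R i) : odeg_act g v ∈ odeg_fil H R i := by
  have h1 := (odeg_mem_succ i v).1 (odeg_fil_le i hv) g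
  have h2 := (odeg_fil H R i).add_mem h1 hv
  rwa [sub_add_cancel] at h2

/-- a proper invariant subgroup misses a vector that is fixed modulo it. -/
theorem odeg_fix {p : ℕ} [hp : Fact p.Prime] {H : Type} [Group H] [Fintype H] (hH : IsPGroup p H)
    (S : AddSubgroup (H → ZMod p)) (hS : ∀ (g : H) (v : H → ZMod p), v ∈ S → odeg_act g v ∈ S)
    (hne : S ≠ ⊤) : ∃ w : H → ZMod p, w ∉ S ∧ ∀ g : H, odeg_act g w - w ∈ S := by
  have : NeZero p := ⟨hp.out.ne_zero⟩
  let _ : MulAction H ((H → ZMod p) ⧸ S) :=
    { smul := fun g x => QuotientAddGroup.map S S (odeg_act g) (fun v hv => hS g v hv) x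
      one_smul := by
        intro x
        induction x using QuotientAddGroup.induction_on with
        | H v =>
          show ((odeg_act (1 : H) v : H → ZMod p) : (H → ZMod p) ⧸ S) = _
          rw [odeg_act_one]
      mul_smul := by
        intro g g' x
        induction x using QuotientAddGroup.induction_on with
        | H v =>
          show ((odeg_act (g * g') v : H → ZMod p) : (H → ZMod p) ⧸ S) =
            ((odeg_act g (odeg_act g' v) : H → ZMod p) : (H → ZMod p) ⧸ S)
          rw [odeg_act_mul] }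
  have hsm : ∀ (g : H) (v : H → ZMod p),
      g • (v : (H → ZMod p) ⧸ S) = ((odeg_act g v : H → ZMod p) : (H → ZMod p) ⧸ S) :=
    fun _ _ => rfl
  obtain ⟨v, hv⟩ : ∃ v : H → ZMod p, v ∉ S := by
    by_contra hcon
    apply hne
    rw [AddSubgroup.eq_top_iff']
    intro v
    by_contra hv
    exact hcon ⟨v, hv⟩
  have hv0 : (v : (H → ZMod p) ⧸ S) ≠ 0 := fun e => hv ((QuotientAddGroup.eq_zero_iff v).1 e)
  have hpv : p • (v : (H → ZMod p) ⧸ S) = 0 := by
    have e : p • v = 0 := by
      funext h
      show p • v h = 0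
      rw [nsmul_eq_mul, ZMod.natCast_self, zero_mul]
    rw [← QuotientAddGroup.mk_nsmul, e, QuotientAddGroup.mk_zero]
  have hord : addOrderOf (v : (H → ZMod p) ⧸ S) = p := addOrderOf_eq_prime hpv hv0
  have hdvd : p ∣ Nat.card ((H → ZMod p) ⧸ S) := by
    have e := addOrderOf_dvd_natCard (v : (H → ZMod p) ⧸ S)
    rwa [hord] at e
  have h0 : (0 : (H → ZMod p) ⧸ S) ∈ MulAction.fixedPoints H ((H → ZMod p) ⧸ S) := by
    intro g
    rw [← QuotientAddGroup.mk_zero, hsm, map_zero]
  obtain ⟨b, hb, hb0⟩ :=
    hH.exists_fixed_point_of_prime_dvd_card_of_fixed_point ((H → ZMod p) ⧸ S) hdvd h0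
  induction b using QuotientAddGroup.induction_on with
  | H w =>
    refine ⟨w, fun hw => hb0 ((QuotientAddGroup.eq_zero_iff w).2 hw).symm, fun g => ?_⟩
    have e := hb g
    rw [hsm] at e
    rw [← QuotientAddGroup.eq_iff_sub_mem]
    exact e

theorem odeg_fil_top {p : ℕ} [hp : Fact p.Prime] {H : Type} [Group H] [Fintype H]
    (hH : IsPGroup p H) : ∃ d : ℕ, odeg_fil H (ZMod p) d = ⊤ := by
  have : NeZero p := ⟨hp.out.ne_zero⟩
  by_contra hcon
  have hlt : ∀ i, odeg_fil H (ZMod p) i < odeg_fil H (ZMod p) (i + 1) := by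
    intro i
    obtain ⟨w, hw, hw'⟩ := odeg_fix hH (odeg_fil H (ZMod p) i) (odeg_fil_inv i)
      (fun e => hcon ⟨i, e⟩)
    refine lt_of_le_of_ne (odeg_fil_le i) (fun e => hw ?_)
    rw [e]
    exact (odeg_mem_succ i w).2 hw'
  have hsm : StrictMono (odeg_fil H (ZMod p)) := strictMono_nat_of_lt_succ hlt
  exact not_injective_infinite_finite _ hsm.injective

theorem odeg_deg {H R X : Type} [Group H] [AddCommGroup R] [DecidableEq X] (Y : Finset X)
    (i : ℕ) : ∀ (l : List (X × H × H)) (v : H → R), v ∈ odeg_fil H R i →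
      DL ⊥ (fun _ => True) i Y (fun A => odeg_act (prog l A) v) := by
  induction i with
  | zero =>
    intro l v hv A _ _
    have e : v = 0 := AddSubgroup.mem_bot.1 hv
    show odeg_act (prog l A) v ∈ (⊥ : AddSubgroup (H → R))
    rw [e, map_zero]
    exact AddSubgroup.zero_mem _
  | succ i ih =>
    intro l v hv
    induction l using List.reverseRecOn with
    | nil =>
      refine DL.congr clo_true (DL_const v) (fun A _ _ => ?_)
      rw [prog_nil, odeg_act_one]
    | append_singleton l q ihl =>
      have h1 := ih l _ ((odeg_mem_succ i v).1 hv q.2.1)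
      have h2 := ih l _ ((odeg_mem_succ i v).1 hv q.2.2)
      have h3 := (ihl.add (h1.ite_mem q.1)).add ((h2.succ clo_true).sub (h2.ite_mem q.1))
      refine DL.congr clo_true h3 (fun A _ _ => ?_)
      rw [prog_snoc, odeg_act_mul]
      by_cases e : q.1 ∈ A
      · simp only [e, if_true, map_sub]
        abel
      · simp only [e, if_false, map_sub]
        abel

/-- programs over a `p`-group have bounded degree. -/
theorem p_group_deg {p : ℕ} [Fact p.Prime] (H : Type) [Group H] [Fintype H] (hH : IsPGroup p H) :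
    ∃ d : ℕ, ∀ (X : Type) [DecidableEq X] (Y : Finset X) (l : List (X × H × H)),
      DL ⊥ (fun _ => True) (d + 1) Y
        (fun A => (fun h => if h = prog l A then 1 else 0 : H → ZMod p)) := by
  obtain ⟨d, hd⟩ := odeg_fil_top hH
  refine ⟨d, fun X _ Y l => ?_⟩
  have hv : (fun h => if h = 1 then 1 else 0 : H → ZMod p) ∈ odeg_fil H (ZMod p) d := by
    rw [hd]
    exact AddSubgroup.mem_top _
  refine DL.congr clo_true ((odeg_deg Y d l _ hv).succ clo_true) (fun A _ _ => ?_)
  funext h
  show (if (prog l A)⁻¹ * h = 1 then (1 : ZMod p) else 0) = if h = prog l A then 1 else 0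
  by_cases e : h = prog l A
  · rw [if_pos e, if_pos (by rw [e, inv_mul_cancel])]
  · rw [if_neg e, if_neg (fun e' => e (inv_mul_eq_one.1 e').symm)]

end Pool.Agent.P.MP_85fe51_lc.OD
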