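import Pool.Agent.P.MP_85fe51_lc.ORho
import Pool.Agent.P.MP_85fe51_lc.OProb

set_option autoImplicit false
set_option linter.unusedSectionVars false

namespace Pool.Agent.P.MP_85fe51_lc.OD

open Finset
open scoped Classical

variable {p : ℕ} [Fact p.Prime]

theorem ch_add (a b : ZMod p) : ch (a + b) = ch a * ch b :=
  AddChar.map_add_eq_mul _ a b

theorem ch_zero : ch (0 : ZMod p) = 1 := AddChar.map_zero_eq_one _

theorem norm_ch (a : ZMod p) : ‖ch a‖ = 1 := by
  unfold ch
  rw [ZMod.stdAddChar_apply]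
  exact Circle.norm_coe _

theorem ch_eq_one {a : ZMod p} : ch a = 1 ↔ a = 0 := by
  constructor
  · intro h
    apply ZMod.injective_stdAddChar
    rw [AddChar.map_zero_eq_one]
    exact h
  · rintro rfl
    exact ch_zero

theorem sum_ch_mul (a : ZMod p) : ∑ i : ZMod p, ch (i * a) = if a = 0 then (p : ℂ) else 0 := by
  have h := AddChar.sum_mulShift a (ZMod.isPrimitive_stdAddChar p)
  unfold ch
  rw [h, ZMod.card]
  split_ifs <;> simp

/-- Fourier inversion on the prime field. -/
theorem fourier_inv (g : ZMod p → ℂ) (s : ZMod p) :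
    g s = ∑ i : ZMod p, ch (i * s) *
      (univ : Finset (ZMod p)).expect (fun s' => ch (-(i * s')) * g s') := by
  have hp : (p : ℂ) ≠ 0 := Nat.cast_ne_zero.mpr (Fact.out : p.Prime).ne_zero
  simp only [Finset.expect_eq_sum_div_card, Finset.card_univ, ZMod.card]
  have h1 : ∀ i : ZMod p, ch (i * s) * ((∑ s' : ZMod p, ch (-(i * s')) * g s') / (p : ℂ)) =
      ∑ s' : ZMod p, ch (i * (s - s')) * g s' / (p : ℂ) := by
    intro i
    rw [Finset.sum_div, Finset.mul_sum]
    refine Finset.sum_congr rfl (fun s' _ => ?_)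
    rw [show i * (s - s') = i * s + -(i * s') by ring, ch_add]
    ring
  rw [Finset.sum_congr rfl (fun i _ => h1 i), Finset.sum_comm]
  have h2 : ∀ s' : ZMod p, ∑ i : ZMod p, ch (i * (s - s')) * g s' / (p : ℂ) =
      if s = s' then g s' else 0 := by
    intro s'
    rw [← Finset.sum_div, ← Finset.sum_mul, sum_ch_mul]
    by_cases h : s = s'
    · rw [if_pos (sub_eq_zero.mpr h), if_pos h]
      field_simp
    · rw [if_neg (fun h' => h (sub_eq_zero.mp h')), if_neg h]
      simp
  rw [Finset.sum_congr rfl (fun s' _ => h2 s')]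
  simp

theorem piK_pos (k : ℕ) : 0 < piK p k := by
  have h : (1 : ℝ) < p := by exact_mod_cast (Fact.out : p.Prime).one_lt
  unfold piK
  apply pow_pos
  rw [sub_pos, div_lt_one (by linarith)]
  exact h

theorem piK_le_one (k : ℕ) : piK p k ≤ 1 := by
  have h : (1 : ℝ) < p := by exact_mod_cast (Fact.out : p.Prime).one_lt
  unfold piK
  apply pow_le_one₀
  · rw [sub_nonneg, div_le_one (by linarith)]
    exact h.le
  · have : (0 : ℝ) ≤ 1 / (p : ℝ) := by positivity
    linarith

theorem noP_of_coprime {V : Type} [AddCommGroup V] {m : ℕ} (hm : Nat.Coprime m p)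
    (hV : ∀ v : V, m • v = 0) : NoP p V := by
  intro v hv
  have h1 : addOrderOf v ∣ m := addOrderOf_dvd_of_nsmul_eq_zero (hV v)
  have h2 : addOrderOf v ∣ p := addOrderOf_dvd_of_nsmul_eq_zero hv
  have h3 : addOrderOf v = 1 := Nat.eq_one_of_dvd_coprimes hm h1 h2
  exact AddMonoid.addOrderOf_eq_one_iff.mp h3

variable {X : Type} [Fintype X] [DecidableEq X]

theorem dot_empty (η : Vec p X) : dot η ∅ = 0 := Finset.sum_empty

theorem dot_zero (A : Finset X) : dot (0 : Vec p X) A = 0 := by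
  simp [dot]

theorem dot_add (η η' : Vec p X) (A : Finset X) : dot (η + η') A = dot η A + dot η' A := by
  simp [dot, Finset.sum_add_distrib]

theorem dot_sub (η η' : Vec p X) (A : Finset X) : dot (η - η') A = dot η A - dot η' A := by
  simp [dot, Finset.sum_sub_distrib]

theorem dot_smul (u : ZMod p) (η : Vec p X) (A : Finset X) : dot (u • η) A = u * dot η A := by
  simp [dot, Finset.mul_sum]

theorem dot_sum {ι : Type} (I : Finset ι) (η : ι → Vec p X) (A : Finset X) :
    dot (∑ i ∈ I, η i) A = ∑ i ∈ I, dot (η i) A := by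
  simp only [dot, Finset.sum_apply]
  exact Finset.sum_comm

theorem dot_union (η : Vec p X) {A B : Finset X} (h : Disjoint A B) :
    dot η (A ∪ B) = dot η A + dot η B := Finset.sum_union h

theorem dot_biUnion {ι : Type} (η : Vec p X) (I : Finset ι) (x : ι → Finset X)
    (h : ∀ a ∈ I, ∀ b ∈ I, a ≠ b → Disjoint (x a) (x b)) :
    dot η (I.biUnion x) = ∑ a ∈ I, dot η (x a) :=
  Finset.sum_biUnion (fun a ha b hb hab => h a ha b hb hab)

theorem dot_inter {η : Vec p X} {Q A : Finset X} (h : supp η ∩ A ⊆ Q) :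
    dot η (A ∩ Q) = dot η A := by
  unfold dot
  refine Finset.sum_subset Finset.inter_subset_left (fun i hi hn => ?_)
  by_contra h0
  have h1 : i ∈ supp η := by
    simp only [supp, mem_filter, mem_univ, true_and]
    exact h0
  exact hn (mem_inter.mpr ⟨hi, h (mem_inter.mpr ⟨h1, hi⟩)⟩)

theorem dot_off (J : Finset X) (η : Vec p X) (A : Finset X) : dot (off J η) A = dot η (A \ J) := by
  unfold dot
  rw [Finset.sdiff_eq_filter, Finset.sum_filter]
  refine Finset.sum_congr rfl (fun i _ => ?_)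
  rw [off_apply]
  by_cases h : i ∈ J <;> simp [h]

theorem dot_of_disjoint {η : Vec p X} {A : Finset X} (h : Disjoint (supp η) A) : dot η A = 0 := by
  unfold dot
  refine Finset.sum_eq_zero (fun i hi => ?_)
  by_contra h0
  have h1 : i ∈ supp η := by
    simp only [supp, mem_filter, mem_univ, true_and]
    exact h0
  exact Finset.disjoint_left.mp h h1 hi

theorem mem_Ker {U : Sub p X} {a A : Finset X} : A ∈ Ker U a ↔ A ⊆ a ∧ KerP U A := by
  simp only [Ker, mem_filter, mem_powerset]

theorem mem_fib {H : Sub p X} {a A0 A : Finset X} :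
    A ∈ fib H a A0 ↔ A ⊆ a ∧ ∀ η ∈ H, dot η A = dot η A0 := by
  simp only [fib, mem_filter, mem_powerset]

theorem empty_mem_Ker (U : Sub p X) (a : Finset X) : ∅ ∈ Ker U a :=
  mem_Ker.mpr ⟨Finset.empty_subset _, fun η _ => dot_empty η⟩

theorem Ker_eq_fib (U : Sub p X) (a : Finset X) : Ker U a = fib U a ∅ := by
  ext A
  rw [mem_Ker, mem_fib]
  simp only [KerP, dot_empty]

theorem kerP_empty (U : Sub p X) : KerP U ∅ := fun η _ => dot_empty η

theorem kerP_union {U : Sub p X} {A B : Finset X} (h : Disjoint A B) (hA : KerP U A)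
    (hB : KerP U B) : KerP U (A ∪ B) := by
  intro η hη
  rw [dot_union η h, hA η hη, hB η hη, add_zero]

theorem KerP.dot_rep {U : Sub p X} {A : Finset X} (hA : KerP U A) {v v' d : Vec p X} {u : ZMod p}
    (h : v - u • v' - d ∈ U) : dot v A = u * dot v' A + dot d A := by
  have h1 := hA _ h
  rw [dot_sub, dot_sub, dot_smul] at h1
  linear_combination h1

theorem odot_split (η : Vec p X) (A J : Finset X) :
    dot η A = dot η (A ∩ J) + dot η (A \ J) := by
  rw [← dot_union η (Finset.disjoint_sdiff_inter A J).symm]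
  congr 1
  ext i
  by_cases h : i ∈ J <;> simp [h]

theorem odot_single (i : X) (A : Finset X) :
    dot (Pi.single i (1 : ZMod p) : Vec p X) A = if i ∈ A then 1 else 0 := by
  unfold dot
  simp [Finset.sum_pi_single']

theorem odot_inter_eq {H : Sub p X} {J a A0 A : Finset X} (hJ : co J ≤ H)
    (h : A ∈ fib H a A0) : A ∩ J = A0 ∩ J := by
  have key : ∀ i ∈ J, (i ∈ A ↔ i ∈ A0) := by
    intro i hi
    have h1 : (Pi.single i (1 : ZMod p) : Vec p X) ∈ (co J : Sub p X) := by
      intro j hj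
      have : j ≠ i := fun e => hj (e ▸ hi)
      exact Pi.single_eq_of_ne this _
    have h2 := (mem_fib.mp h).2 _ (hJ h1)
    rw [odot_single, odot_single] at h2
    by_cases hA : i ∈ A <;> by_cases hB : i ∈ A0 <;> simp_all
  ext i
  simp only [mem_inter]
  exact ⟨fun x => ⟨(key i x.2).mp x.1, x.2⟩, fun x => ⟨(key i x.2).mpr x.1, x.2⟩⟩

theorem odot_fwd {H : Sub p X} {J a A0 A : Finset X} (hJ : co J ≤ H) (h : A ∈ fib H a A0) :
    A \ J ∈ fib (H.map (off J)) (a \ J) (A0 \ J) := by
  have e := odot_inter_eq hJ h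
  rw [mem_fib] at h ⊢
  refine ⟨Finset.sdiff_subset_sdiff h.1 (subset_refl _), ?_⟩
  rintro _ ⟨η, hη, rfl⟩
  rw [dot_off, dot_off, Finset.sdiff_idem, Finset.sdiff_idem]
  have h1 := h.2 η hη
  rw [odot_split η A J, odot_split η A0 J, e] at h1
  exact add_left_cancel h1

theorem odot_disj {J a A0 B : Finset X} (h : B ⊆ a \ J) : Disjoint (A0 ∩ J) B :=
  Finset.disjoint_left.mpr (fun _ hi hb => (mem_sdiff.mp (h hb)).2 (mem_inter.mp hi).2)

theorem odot_bwd {H : Sub p X} {J a A0 B : Finset X} (hA : A0 ⊆ a)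
    (h : B ∈ fib (H.map (off J)) (a \ J) (A0 \ J)) : A0 ∩ J ∪ B ∈ fib H a A0 := by
  rw [mem_fib] at h ⊢
  refine ⟨Finset.union_subset (Finset.inter_subset_left.trans hA)
    (h.1.trans Finset.sdiff_subset), fun η hη => ?_⟩
  have h1 := h.2 (off J η) ⟨η, hη, rfl⟩
  have h2 : B \ J = B := by
    ext i
    simp only [mem_sdiff]
    exact ⟨fun x => x.1, fun x => ⟨x, (mem_sdiff.mp (h.1 x)).2⟩⟩
  rw [dot_off, dot_off, Finset.sdiff_idem, h2] at h1
  rw [dot_union η (odot_disj h.1), h1, ← odot_split]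

theorem odot_left {H : Sub p X} {J a A0 A : Finset X} (hJ : co J ≤ H) (h : A ∈ fib H a A0) :
    A0 ∩ J ∪ A \ J = A := by
  rw [← odot_inter_eq hJ h]
  ext i
  by_cases h : i ∈ J <;> simp [h]

theorem odot_right {J a A0 B : Finset X} (h : B ⊆ a \ J) : (A0 ∩ J ∪ B) \ J = B := by
  ext i
  simp only [mem_sdiff, mem_union, mem_inter]
  constructor
  · rintro ⟨h1 | h1, h2⟩
    · exact absurd h1.2 h2
    · exact h1
  · intro x
    exact ⟨Or.inr x, (mem_sdiff.mp (h x)).2⟩

/-- a class of a space containing `co J` is a class off `J`. -/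
theorem expect_fib_off {E : Type} [RCLike E] {H : Sub p X} {J a A0 : Finset X} (hJ : co J ≤ H)
    (hA : A0 ⊆ a) (g : Finset X → E) :
    (fib H a A0).expect g =
      (fib (H.map (off J)) (a \ J) (A0 \ J)).expect (fun B => g (A0 ∩ J ∪ B)) := by
  refine Finset.expect_nbij' (fun A => A \ J) (fun B => A0 ∩ J ∪ B) ?_ ?_ ?_ ?_ ?_
  · exact fun A hA' => odot_fwd hJ hA'
  · exact fun B hB => odot_bwd hA hB
  · exact fun A hA' => odot_left hJ hA'
  · exact fun B hB => odot_right (mem_fib.mp hB).1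
  · intro A hA'
    rw [odot_left hJ hA']

theorem card_fib_off {H : Sub p X} {J a A0 : Finset X} (hJ : co J ≤ H) (hA : A0 ⊆ a) :
    (fib H a A0).card = (fib (H.map (off J)) (a \ J) (A0 \ J)).card := by
  refine Finset.card_nbij' (fun A => A \ J) (fun B => A0 ∩ J ∪ B) ?_ ?_ ?_ ?_
  · exact fun A hA' => odot_fwd hJ hA'
  · exact fun B hB => odot_bwd hA hB
  · exact fun A hA' => odot_left hJ hA'
  · exact fun B hB => odot_right (mem_fib.mp hB).1

/-- conditioning a class on the class of a larger space. -/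
theorem expect_fib_cond {E : Type} [RCLike E] {H H' : Sub p X} (h : H ≤ H') (a A0 : Finset X)
    (g : Finset X → E) :
    (fib H a A0).expect g = (fib H a A0).expect (fun A => (fib H' a A).expect g) := by
  rw [expect_cond (fib H a A0) (fun A => fun η : H' => dot (η : Vec p X) A) g]
  refine Finset.expect_congr rfl (fun A hA => ?_)
  congr 1
  ext B
  simp only [mem_filter, mem_fib]
  constructor
  · rintro ⟨h1, h2⟩
    exact ⟨h1.1, fun η hη => congrFun h2 ⟨η, hη⟩⟩
  · rintro ⟨h1, h2⟩
    refine ⟨⟨h1, fun η hη => ?_⟩, funext (fun η => h2 η.1 η.2)⟩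
    rw [h2 η (h hη)]
    exact (mem_fib.mp hA).2 η hη

end Pool.Agent.P.MP_85fe51_lc.OD
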