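import Pool.Agent.P.MP_85fe51_lc.ODot
import Pool.Agent.P.MP_85fe51_lc.OCount
import Pool.Agent.P.MP_85fe51_lc.OProb
import Pool.Agent.P.MP_85fe51_lc.ODL

set_option autoImplicit false

namespace Pool.Agent.P.MP_85fe51_lc.OD

open Finset
open scoped Classical

variable {p : ℕ} [Fact p.Prime]

theorem ThB.thC {m c : ℕ} {θ : ℝ} (h : ThB p m c θ) : ThC p θ := by
  refine ⟨h.1, h.2.1, fun X _ _ a μ => ?_⟩
  have h1 := h.2.2 X PUnit (fun v => Subsingleton.elim _ _) 0 a (fun _ => 0) μ (DL_const _)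
  simpa using h1

variable {X : Type} [Fintype X] [DecidableEq X]

theorem ofour_orth (H : Sub p X) (A A0 : Finset X) :
    ∑ η ∈ elts H, ch (-dot η A0) * ch (dot η A) =
      if (∀ η ∈ H, dot η A = dot η A0) then (p : ℂ) ^ Module.finrank (ZMod p) ↥H else 0 := by
  split_ifs with h
  · rw [sum_congr rfl (g := fun _ => (1 : ℂ))]
    · rw [sum_const, card_elts, nsmul_eq_mul, mul_one, Nat.cast_pow]
    · intro η hη
      rw [← ch_add, h η (mem_elts.1 hη), neg_add_cancel, ch_zero]
  · push Not at h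
    obtain ⟨η0, h0, hne⟩ := h
    have key : ∑ η ∈ elts H, ch (-dot η A0) * ch (dot η A) =
        ∑ η ∈ elts H, ch (-dot (η0 + η) A0) * ch (dot (η0 + η) A) := by
      symm
      refine sum_bij' (fun η _ => η0 + η) (fun η _ => η - η0) ?_ ?_ ?_ ?_ ?_
      · intro η hη
        exact mem_elts.2 (H.add_mem h0 (mem_elts.1 hη))
      · intro η hη
        exact mem_elts.2 (H.sub_mem (mem_elts.1 hη) h0)
      · intro η _
        exact add_sub_cancel_left _ _
      · intro η _
        exact add_sub_cancel _ _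
      · intro η _
        rfl
    have key2 : ∑ η ∈ elts H, ch (-dot (η0 + η) A0) * ch (dot (η0 + η) A) =
        ch (dot η0 A - dot η0 A0) * ∑ η ∈ elts H, ch (-dot η A0) * ch (dot η A) := by
      rw [mul_sum]
      refine sum_congr rfl fun η _ => ?_
      rw [← ch_add, ← ch_add, ← ch_add, dot_add, dot_add]
      congr 1
      ring
    have hc : ch (dot η0 A - dot η0 A0) ≠ 1 := fun e => hne (sub_eq_zero.1 (ch_eq_one.1 e))
    rw [key2] at key
    have h3 : (1 - ch (dot η0 A - dot η0 A0)) * ∑ η ∈ elts H, ch (-dot η A0) * ch (dot η A) = 0 := by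
      linear_combination key
    rcases mul_eq_zero.1 h3 with h4 | h4
    · exact absurd (sub_eq_zero.1 h4).symm hc
    · exact h4

omit [Fintype X] [DecidableEq X] in
theorem ofour_sum_pow (a : Finset X) (F : Finset X → ℂ) :
    2 ^ a.card * a.powerset.expect F = ∑ A ∈ a.powerset, F A := by
  rw [expect_eq_sum_div_card, card_powerset]
  push_cast
  field_simp

theorem sum_fib (H : Sub p X) (a A0 : Finset X) (g : Finset X → ℂ) :
    (p : ℂ) ^ Module.finrank (ZMod p) ↥H * ∑ A ∈ fib H a A0, g A =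
      2 ^ a.card * ∑ η ∈ elts H,
        ch (-dot η A0) * a.powerset.expect (fun A => g A * ch (dot η A)) := by
  have h1 : ∀ η : Vec p X, (2 : ℂ) ^ a.card *
      (ch (-dot η A0) * a.powerset.expect (fun A => g A * ch (dot η A))) =
      ∑ A ∈ a.powerset, g A * (ch (-dot η A0) * ch (dot η A)) := by
    intro η
    rw [mul_left_comm, ofour_sum_pow, mul_sum]
    exact sum_congr rfl fun A _ => by ring
  rw [mul_sum (elts H), sum_congr rfl (fun η _ => h1 η), sum_comm, fib, sum_filter, mul_sum]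
  refine sum_congr rfl fun A _ => ?_
  rw [← mul_sum, ofour_orth]
  split_ifs <;> ring

variable {θ : ℝ}

theorem ofour_card (H : Sub p X) (a A0 : Finset X) :
    (((p : ℝ) ^ Module.finrank (ZMod p) ↥H * (fib H a A0).card : ℝ) : ℂ) =
      2 ^ a.card * ∑ η ∈ elts H, ch (-dot η A0) * a.powerset.expect (fun A => ch (dot η A)) := by
  have h := sum_fib H a A0 (fun _ => 1)
  simp only [one_mul, sum_const, nsmul_eq_mul, mul_one] at h
  rw [← h]
  push_cast
  rfl

theorem ofour_term (hθ : ThC p θ) (a A0 : Finset X) (η : Vec p X) :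
    ‖ch (-dot η A0) * a.powerset.expect (fun A => ch (dot η A))‖ ≤ θ ^ (supp η ∩ a).card := by
  rw [norm_mul, norm_ch, one_mul]
  exact hθ.2.2 X a η

theorem card_fib_le (hθ : ThC p θ) (H : Sub p X) (a A0 : Finset X) :
    (p : ℝ) ^ Module.finrank (ZMod p) ↥H * (fib H a A0).card ≤ enum θ H a * 2 ^ a.card := by
  have h := congrArg norm (ofour_card H a A0)
  rw [Complex.norm_real, Real.norm_of_nonneg (by positivity), norm_mul, norm_pow,
    Complex.norm_ofNat] at h
  rw [h, mul_comm]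
  refine mul_le_mul_of_nonneg_right ?_ (by positivity)
  exact (norm_sum_le _ _).trans (sum_le_sum fun η _ => ofour_term hθ a A0 η)

theorem card_fib_ge (hθ : ThC p θ) (H : Sub p X) (a A0 : Finset X) :
    (2 - enum θ H a) * 2 ^ a.card ≤ (p : ℝ) ^ Module.finrank (ZMod p) ↥H * (fib H a A0).card := by
  have h := congrArg norm (ofour_card H a A0)
  rw [Complex.norm_real, Real.norm_of_nonneg (by positivity), norm_mul, norm_pow,
    Complex.norm_ofNat] at h
  rw [h, mul_comm]
  refine mul_le_mul_of_nonneg_left ?_ (by positivity)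
  have h0 : (0 : Vec p X) ∈ elts H := mem_elts.2 H.zero_mem
  have e0 : ch (-dot (0 : Vec p X) A0) *
      a.powerset.expect (fun A => ch (dot (0 : Vec p X) A)) = 1 := by
    simp only [dot_zero, neg_zero, ch_zero, one_mul]
    exact expect_const ⟨∅, empty_mem_powerset a⟩ _
  have e1 : θ ^ (supp (0 : Vec p X) ∩ a).card = 1 := by
    have : supp (0 : Vec p X) = ∅ := by
      ext i
      simp [supp]
    rw [this, empty_inter, card_empty, pow_zero]
  rw [enum, ← add_sum_erase _ _ h0, ← add_sum_erase _ _ h0, e0, e1]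
  have h2 : ‖∑ η ∈ (elts H).erase 0,
      ch (-dot η A0) * a.powerset.expect (fun A => ch (dot η A))‖ ≤
      ∑ η ∈ (elts H).erase 0, θ ^ (supp η ∩ a).card :=
    (norm_sum_le _ _).trans (sum_le_sum fun η _ => ofour_term hθ a A0 η)
  have h3 := norm_sub_le (1 + ∑ η ∈ (elts H).erase 0,
      ch (-dot η A0) * a.powerset.expect (fun A => ch (dot η A)))
      (∑ η ∈ (elts H).erase 0, ch (-dot η A0) * a.powerset.expect (fun A => ch (dot η A)))
  rw [add_sub_cancel_right, norm_one] at h3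
  linarith

theorem card_Ker_ge (hθ : ThC p θ) {U : Sub p X} {Y a : Finset X} (hY : co Yᶜ ≤ U) (ha : a ⊆ Y) :
    (2 - enum θ (U.map (off Yᶜ)) a) * 2 ^ a.card ≤ (p : ℝ) ^ dO U Yᶜ * (Ker U a).card := by
  have e : a \ Yᶜ = a := by
    ext i
    simp only [mem_sdiff, mem_compl, not_not]
    exact ⟨fun h => h.1, fun h => ⟨h, ha h⟩⟩
  rw [Ker_eq_fib, card_fib_off hY (empty_subset a), e]
  exact card_fib_ge hθ _ a _

theorem norm_expect_fib (hθ : ThC p θ) {H : Sub p X} {a : Finset X} (he : enum θ H a ≤ 3 / 2)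
    (A0 : Finset X) (g : Finset X → ℂ) :
    ‖(fib H a A0).expect g‖ ≤
      2 * ∑ η ∈ elts H, ‖a.powerset.expect (fun A => g A * ch (dot η A))‖ := by
  have h1 := card_fib_ge hθ H a A0
  have h2 := congrArg norm (sum_fib H a A0 g)
  rw [norm_mul, norm_mul, norm_pow, norm_pow, Complex.norm_natCast, Complex.norm_ofNat] at h2
  have h3 : ‖∑ η ∈ elts H, ch (-dot η A0) * a.powerset.expect (fun A => g A * ch (dot η A))‖ ≤
      ∑ η ∈ elts H, ‖a.powerset.expect (fun A => g A * ch (dot η A))‖ :=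
    (norm_sum_le _ _).trans (sum_le_sum fun η _ => by rw [norm_mul, norm_ch, one_mul])
  have hS : 0 ≤ ∑ η ∈ elts H, ‖a.powerset.expect (fun A => g A * ch (dot η A))‖ :=
    sum_nonneg fun _ _ => norm_nonneg _
  have hp : (0 : ℝ) < (p : ℝ) ^ Module.finrank (ZMod p) ↥H :=
    pow_pos (Nat.cast_pos.2 (Fact.out : p.Prime).pos) _
  have h2p : (0 : ℝ) < 2 ^ a.card := by positivity
  have h4 : (2 : ℝ) ^ a.card ≤ 2 * ((p : ℝ) ^ Module.finrank (ZMod p) ↥H * (fib H a A0).card) := by
    nlinarith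
  have hc : (0 : ℝ) < (fib H a A0).card := by
    by_contra hc
    have : ((fib H a A0).card : ℝ) = 0 := le_antisymm (not_lt.1 hc) (Nat.cast_nonneg _)
    rw [this] at h4
    linarith
  rw [expect_eq_sum_div_card, norm_div, Complex.norm_natCast, div_le_iff₀ hc]
  refine le_of_mul_le_mul_left ?_ hp
  rw [h2]
  calc _ ≤ (2 : ℝ) ^ a.card * ∑ η ∈ elts H, ‖a.powerset.expect (fun A => g A * ch (dot η A))‖ :=
        mul_le_mul_of_nonneg_left h3 h2p.le
    _ ≤ (2 * ((p : ℝ) ^ Module.finrank (ZMod p) ↥H * (fib H a A0).card)) *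
          ∑ η ∈ elts H, ‖a.powerset.expect (fun A => g A * ch (dot η A))‖ :=
        mul_le_mul_of_nonneg_right h4 hS
    _ = _ := by ring

theorem norm_expect_ch (hθ : ThC p θ) {H : Sub p X} {J a A0 : Finset X} (hJ : co J ≤ H)
    (hA : A0 ⊆ a) (he : enum θ (H.map (off J)) a ≤ 3 / 2) (μ : Vec p X) :
    ‖(fib H a A0).expect (fun A => ch (dot μ A))‖ ≤ 2 * cenum θ (off J μ) (H.map (off J)) a := by
  rw [expect_fib_off hJ hA, ← cenum_sdiff]
  rw [← enum_sdiff] at he
  refine (norm_expect_fib hθ he _ _).trans ?_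
  refine mul_le_mul_of_nonneg_left (sum_le_sum fun η _ => ?_) (by norm_num)
  have e : (a \ J).powerset.expect (fun B => ch (dot μ (A0 ∩ J ∪ B)) * ch (dot η B)) =
      ch (dot μ (A0 ∩ J)) * (a \ J).powerset.expect (fun B => ch (dot (off J μ + η) B)) := by
    rw [mul_expect]
    refine expect_congr rfl fun B hB => ?_
    have hBJ : Disjoint B J := by
      refine disjoint_left.2 fun i hi hj => ?_
      exact (mem_sdiff.1 (mem_powerset.1 hB hi)).2 hj
    have hd : Disjoint (A0 ∩ J) B := (hBJ.mono_right inter_subset_right).symm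
    rw [dot_union μ hd, dot_add, dot_off, sdiff_eq_self_of_disjoint hBJ, ch_add, ch_add, mul_assoc]
  rw [e, norm_mul, norm_ch, one_mul]
  exact hθ.2.2 X _ _

omit [Fintype X] [DecidableEq X] in
/-- a probability from a character expansion of the indicator. -/
theorem ofour_pr_le {ι : Type} (I : Finset ι) (s : Finset (Finset X)) (P : Finset X → Prop)
    (c : ι → ℂ) (w : ι → Vec p X)
    (h : ∀ A, (if P A then (1 : ℂ) else 0) = ∑ i ∈ I, c i * ch (dot (w i) A)) :
    pr s P ≤ ∑ i ∈ I, ‖c i‖ * ‖s.expect (fun A => ch (dot (w i) A))‖ := by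
  have e : ((pr s P : ℝ) : ℂ) = ∑ i ∈ I, c i * s.expect (fun A => ch (dot (w i) A)) := by
    rw [pr, Complex.ofReal_expect]
    have e1 : ∀ A, (((if P A then (1 : ℝ) else 0 : ℝ)) : ℂ) =
        ∑ i ∈ I, c i * ch (dot (w i) A) := by
      intro A
      rw [← h A]
      split_ifs <;> simp
    rw [expect_congr rfl (fun A _ => e1 A), expect_sum_comm]
    exact sum_congr rfl fun i _ => (mul_expect _ _ _).symm
  have e2 := congrArg norm e
  rw [Complex.norm_real, Real.norm_of_nonneg (pr_nonneg s P)] at e2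
  rw [e2]
  exact (norm_sum_le _ _).trans (sum_le_sum fun i _ => (norm_mul _ _).le)

theorem ofour_zero (s : Finset (Finset X)) :
    ‖s.expect (fun A => ch (dot (0 : Vec p X) A))‖ ≤ 1 := by
  simp only [dot_zero, ch_zero]
  rcases s.eq_empty_or_nonempty with rfl | hs
  · simp
  · rw [expect_const hs, norm_one]

theorem ofour_ind (x c : ZMod p) :
    (if x = c then (1 : ℂ) else 0) = ∑ u : ZMod p, (1 / p * ch (-(u * c))) * ch (u * x) := by
  have hp : (p : ℂ) ≠ 0 := Nat.cast_ne_zero.2 (Fact.out : p.Prime).ne_zero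
  have e : ∀ u : ZMod p, (1 / (p : ℂ) * ch (-(u * c))) * ch (u * x) = 1 / p * ch (u * (x - c)) := by
    intro u
    rw [mul_assoc, ← ch_add]
    congr 2
    ring
  rw [sum_congr rfl (fun u _ => e u), ← mul_sum, sum_ch_mul]
  by_cases h : x = c
  · rw [if_pos h, if_pos (sub_eq_zero.2 h)]
    field_simp
  · rw [if_neg h, if_neg (fun e => h (sub_eq_zero.1 e)), mul_zero]

/-- coefficients of the indicator of `x ≠ c`. -/
noncomputable def ofour_co (c u : ZMod p) : ℂ :=
  (if u = 0 then 1 else 0) - 1 / p * ch (-(u * c))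

theorem ofour_ind_ne (x c : ZMod p) :
    (if x ≠ c then (1 : ℂ) else 0) = ∑ u : ZMod p, ofour_co c u * ch (u * x) := by
  have e : ∀ u : ZMod p, ofour_co c u * ch (u * x) =
      (if u = 0 then ch (u * x) else 0) - (1 / p * ch (-(u * c))) * ch (u * x) := by
    intro u
    unfold ofour_co
    split_ifs <;> ring
  rw [sum_congr rfl (fun u _ => e u), sum_sub_distrib, ← ofour_ind, sum_ite_eq' univ (0 : ZMod p),
    if_pos (mem_univ _), zero_mul, ch_zero]
  by_cases h : x = c
  · rw [if_neg (not_not.2 h), if_pos h, sub_self]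
  · rw [if_pos h, if_neg h, sub_zero]

theorem ofour_co_le (c u : ZMod p) : ‖ofour_co c u‖ ≤ 1 - 1 / (p : ℝ) := by
  have hp2 : (2 : ℝ) ≤ p := by exact_mod_cast (Fact.out : p.Prime).two_le
  have h1 : 1 / (p : ℝ) ≤ 1 / 2 := one_div_le_one_div_of_le (by norm_num) hp2
  unfold ofour_co
  split_ifs with h
  · rw [h, zero_mul, neg_zero, ch_zero, mul_one]
    have e : (1 : ℂ) - 1 / p = ((1 - 1 / (p : ℝ) : ℝ) : ℂ) := by push_cast; rfl
    rw [e, Complex.norm_real, Real.norm_of_nonneg (by linarith)]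
  · rw [zero_sub, norm_neg, norm_mul, norm_ch, mul_one, norm_div, norm_one, Complex.norm_natCast]
    linarith

theorem single_le (hθ : ThC p θ) {H : Sub p X} {J a A0 : Finset X} (hJ : co J ≤ H)
    (hA : A0 ⊆ a) (he : enum θ (H.map (off J)) a ≤ 3 / 2) (v : Vec p X) {ε : ℝ}
    (hc : ∀ u : ZMod p, u ≠ 0 → cenum θ (off J (u • v)) (H.map (off J)) a ≤ ε) (c : ZMod p) :
    pr (fib H a A0) (fun A => dot v A = c) ≤ 1 / p + 2 * ε := by
  have hp : (0 : ℝ) < p := Nat.cast_pos.2 (Fact.out : p.Prime).pos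
  have hε : 0 ≤ ε := (cenum_nonneg hθ.1 _ _ _).trans (hc 1 one_ne_zero)
  have h := ofour_pr_le univ (fib H a A0) (fun A => dot v A = c)
    (fun u : ZMod p => 1 / (p : ℂ) * ch (-(u * c))) (fun u => u • v) (fun A => by
      have := ofour_ind (dot v A) c
      simp only [dot_smul]
      rw [← this]
      congr)
  refine h.trans ?_
  have hb : ∀ u : ZMod p, ‖1 / (p : ℂ) * ch (-(u * c))‖ *
      ‖(fib H a A0).expect (fun A => ch (dot (u • v) A))‖ ≤
      (if u = 0 then 1 / (p : ℝ) else 0) + 1 / p * (2 * ε) := by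
    intro u
    rw [norm_mul, norm_ch, mul_one, norm_div, norm_one, Complex.norm_natCast]
    have h0 : (0 : ℝ) ≤ 1 / p := by positivity
    split_ifs with hu
    · rw [hu, zero_smul]
      have h1 := mul_le_mul_of_nonneg_left (ofour_zero (p := p) (fib H a A0)) h0
      have h2 : 0 ≤ 1 / (p : ℝ) * (2 * ε) := by positivity
      linarith
    · rw [zero_add]
      refine mul_le_mul_of_nonneg_left ((norm_expect_ch hθ hJ hA he _).trans ?_) h0
      have := hc u hu
      linarith
  refine (sum_le_sum fun u _ => hb u).trans (le_of_eq ?_)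
  rw [sum_add_distrib, sum_ite_eq' univ (0 : ZMod p), if_pos (mem_univ _), sum_const, card_univ,
    ZMod.card, nsmul_eq_mul]
  field_simp

theorem pair_le (hθ : ThC p θ) {H : Sub p X} {J a A0 : Finset X} (hJ : co J ≤ H)
    (hA : A0 ⊆ a) (he : enum θ (H.map (off J)) a ≤ 3 / 2) (v v' : Vec p X) {ε : ℝ}
    (hc : ∀ u u' : ZMod p, (u ≠ 0 ∨ u' ≠ 0) →
      cenum θ (off J (u • v + u' • v')) (H.map (off J)) a ≤ ε) (c c' : ZMod p) :
    pr (fib H a A0) (fun A => dot v A ≠ c ∧ dot v' A ≠ c') ≤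
      (1 - 1 / (p : ℝ)) ^ 2 * (1 + 2 * (p : ℝ) ^ 2 * ε) := by
  have hε : 0 ≤ ε := (cenum_nonneg hθ.1 _ _ _).trans (hc 1 0 (Or.inl one_ne_zero))
  have h := ofour_pr_le univ (fib H a A0) (fun A => dot v A ≠ c ∧ dot v' A ≠ c')
    (fun u : ZMod p × ZMod p => ofour_co c u.1 * ofour_co c' u.2)
    (fun u => u.1 • v + u.2 • v') (fun A => by
      have e : ∀ u : ZMod p × ZMod p,
          ofour_co c u.1 * ofour_co c' u.2 * ch (dot (u.1 • v + u.2 • v') A) =
          (ofour_co c u.1 * ch (u.1 * dot v A)) * (ofour_co c' u.2 * ch (u.2 * dot v' A)) := by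
        intro u
        rw [dot_add, dot_smul, dot_smul, ch_add]
        ring
      rw [sum_congr rfl (fun u _ => e u), Fintype.sum_prod_type]
      dsimp only
      rw [← sum_mul_sum, ← ofour_ind_ne, ← ofour_ind_ne]
      by_cases h1 : dot v A = c <;> by_cases h2 : dot v' A = c' <;> simp [h1, h2])
  refine h.trans ?_
  have hq : 0 ≤ 1 - 1 / (p : ℝ) := (norm_nonneg _).trans (ofour_co_le c 0)
  have hb : ∀ u : ZMod p × ZMod p, ‖ofour_co c u.1 * ofour_co c' u.2‖ *
      ‖(fib H a A0).expect (fun A => ch (dot (u.1 • v + u.2 • v') A))‖ ≤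
      (1 - 1 / (p : ℝ)) ^ 2 * ((if u = 0 then 1 else 0) + 2 * ε) := by
    intro u
    have h1 : ‖ofour_co c u.1 * ofour_co c' u.2‖ ≤ (1 - 1 / (p : ℝ)) ^ 2 := by
      rw [norm_mul, sq]
      exact mul_le_mul (ofour_co_le _ _) (ofour_co_le _ _) (norm_nonneg _) hq
    refine mul_le_mul h1 ?_ (norm_nonneg _) (sq_nonneg _)
    split_ifs with hu
    · rw [hu, Prod.fst_zero, Prod.snd_zero, zero_smul, zero_smul, add_zero]
      have := ofour_zero (p := p) (fib H a A0)
      linarith
    · have hu' : u.1 ≠ 0 ∨ u.2 ≠ 0 := by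
        by_contra hh
        push Not at hh
        exact hu (Prod.ext hh.1 hh.2)
      have h2 := hc u.1 u.2 hu'
      have h3 := norm_expect_ch hθ hJ hA he (u.1 • v + u.2 • v')
      linarith
  refine (sum_le_sum fun u _ => hb u).trans (le_of_eq ?_)
  rw [← mul_sum, sum_add_distrib, sum_ite_eq' univ (0 : ZMod p × ZMod p), if_pos (mem_univ _),
    sum_const, card_univ, Fintype.card_prod, ZMod.card, nsmul_eq_mul]
  push_cast
  ring

end Pool.Agent.P.MP_85fe51_lc.OD
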