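import Pool.Agent.P.MP_85fe51_lc.OSafe

set_option autoImplicit false

namespace Pool.Agent.P.MP_85fe51_lc.OD

open Finset
open scoped Classical

variable {p : ℕ} [Fact p.Prime] {X : Type} [Fintype X] [DecidableEq X] {T : Type} [Fintype T]

namespace Ext
variable (σ : Ext p X T)

theorem one_le_CH : 1 ≤ σ.CH := by
  have := σ.hr
  omega

theorem rho_U : rho σ.CH σ.U = fC σ.CH σ.U σ.Yᶜ :=
  (min_of_safe σ.one_le_CH σ.hY (σ.safe.mono (by omega))).symm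

theorem marg_U (t : T) : marg σ.CH σ.U (σ.lam t) = min σ.CH (wtm σ.U (σ.lam t)) :=
  marg_eq_min σ.one_le_CH σ.hY (σ.safe.mono (by omega)) _

theorem U'_le : σ.U' ≤ co σ.Y := by
  have := map_off_le σ.U σ.Yᶜ
  rwa [compl_compl] at this

theorem free_empty : σ.Free ∅ := by
  unfold Free
  rw [spn_empty, sup_bot_eq, sum_empty, add_zero]

theorem free_subset {F F' : Finset T} (h : σ.Free F) (hF : F' ⊆ F) : σ.Free F' := by
  unfold Free at h ⊢
  have h1 := rho_spn_le σ.CH σ.U σ.lam F'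
  have h2 := rho_spn_le σ.CH (σ.U ⊔ spn σ.lam F') σ.lam (F \ F')
  have h3 : rho σ.CH (σ.U ⊔ spn σ.lam F) ≤ rho σ.CH (σ.U ⊔ spn σ.lam F' ⊔ spn σ.lam (F \ F')) := by
    refine rho_mono _ (sup_le (le_sup_left.trans le_sup_left) (spn_le fun t ht => ?_))
    by_cases c : t ∈ F'
    · exact Submodule.mem_sup_left (Submodule.mem_sup_right (mem_spn _ c))
    · exact Submodule.mem_sup_right (mem_spn _ (mem_sdiff.mpr ⟨ht, c⟩))
  have h4 : ∑ e ∈ F \ F', marg σ.CH (σ.U ⊔ spn σ.lam F') (σ.lam e) ≤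
      ∑ e ∈ F \ F', marg σ.CH σ.U (σ.lam e) :=
    sum_le_sum fun e _ => marg_anti _ le_sup_left _
  have h5 := sum_sdiff (f := fun e => marg σ.CH σ.U (σ.lam e)) hF
  omega

theorem free_insert_iff {F : Finset T} (h : σ.Free F) {t : T} (ht : t ∉ F) :
    σ.Free (insert t F) ↔
      marg σ.CH (σ.U ⊔ spn σ.lam F) (σ.lam t) = marg σ.CH σ.U (σ.lam t) := by
  unfold Free at h ⊢
  rw [spn_insert, ← sup_assoc, ← marg_add, sum_insert ht, h]
  omega

theorem ofree_disj {ι : Type} (L : Finset ι) (f : ι → Finset X)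
    (h : ∑ t ∈ L, (f t).card ≤ (L.biUnion f).card) {t t' : ι} (ht : t ∈ L) (ht' : t' ∈ L)
    (hne : t ≠ t') : Disjoint (f t) (f t') := by
  have h1 : t' ∈ L.erase t := mem_erase.mpr ⟨hne.symm, ht'⟩
  have h2 := add_sum_erase L (fun t => (f t).card) ht
  have h3 := add_sum_erase (L.erase t) (fun t => (f t).card) h1
  have h4 : L.biUnion f ⊆ (f t ∪ f t') ∪ ((L.erase t).erase t').biUnion f := by
    intro i hi
    obtain ⟨s, hs, c⟩ := mem_biUnion.mp hi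
    by_cases e : s = t
    · exact mem_union_left _ (mem_union_left _ (e ▸ c))
    · by_cases e' : s = t'
      · exact mem_union_left _ (mem_union_right _ (e' ▸ c))
      · exact mem_union_right _
          (mem_biUnion.mpr ⟨s, mem_erase.mpr ⟨e', mem_erase.mpr ⟨e, hs⟩⟩, c⟩)
  have h5 := (card_le_card h4).trans (card_union_le _ _)
  have h6 := card_biUnion_le (s := (L.erase t).erase t') (t := f)
  have h7 := card_union_add_card_inter (f t) (f t')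
  rw [disjoint_iff_inter_eq_empty, ← card_eq_zero]
  omega

theorem free_struct {F : Finset T} (h : σ.Free F) :
    (∀ t ∈ F, ∀ t' ∈ F, σ.Lt t → σ.Lt t' → t ≠ t' → Disjoint (supp (σ.dl t)) (supp (σ.dl t'))) ∧
      Safe σ.CH (σ.HF F) ∧
      dO (σ.U ⊔ spn σ.lam F) (σ.JF F) = dO σ.U σ.Yᶜ + (F.filter (fun t => ¬ σ.Lt t)).card := by
  have hC := σ.one_le_CH
  have h1 : (σ.JF F).card ≤
      σ.Yᶜ.card + ((F.filter σ.Lt).biUnion (fun t => supp (σ.dl t))).card := card_union_le _ _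
  have h1' : ((F.filter σ.Lt).biUnion (fun t => supp (σ.dl t))).card ≤
      ∑ t ∈ F.filter σ.Lt, (supp (σ.dl t)).card := card_biUnion_le
  have h2 : dO (σ.U ⊔ spn σ.lam F) (σ.JF F) ≤
      dO σ.U σ.Yᶜ + (F.filter (fun t => ¬ σ.Lt t)).card := by
    have a1 : σ.U ⊔ spn σ.lam F ≤
        (σ.U ⊔ spn σ.lam (F.filter (fun t => ¬ σ.Lt t))) ⊔ co (σ.JF F) := by
      refine sup_le (le_sup_left.trans le_sup_left) (spn_le fun t ht => ?_)
      by_cases c : σ.Lt t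
      · have a2 : σ.dl t ∈ (co (σ.JF F) : Sub p X) := mem_co_iff.mpr fun i hi =>
          mem_union_right _ (mem_biUnion.mpr ⟨t, mem_filter.mpr ⟨ht, c⟩, hi⟩)
        have := Submodule.add_mem_sup
          (Submodule.mem_sup_left (T := spn σ.lam (F.filter (fun t => ¬ σ.Lt t))) (σ.repl t).1) a2
        rwa [sub_add_cancel] at this
      · exact Submodule.mem_sup_left (Submodule.mem_sup_right (mem_spn _ (mem_filter.mpr ⟨ht, c⟩)))
    have a2 := dO_mono a1 (σ.JF F)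
    rw [dO_sup_co _ subset_rfl] at a2
    have a3 := dO_sup_spn σ.U σ.lam (F.filter (fun t => ¬ σ.Lt t)) (σ.JF F)
    have a4 : dO σ.U (σ.JF F) ≤ dO σ.U σ.Yᶜ := dO_anti _ subset_union_left
    omega
  have h3 : ∑ t ∈ F, marg σ.CH σ.U (σ.lam t) = ∑ t ∈ F.filter σ.Lt, (supp (σ.dl t)).card +
      σ.CH * (F.filter (fun t => ¬ σ.Lt t)).card := by
    rw [← sum_filter_add_sum_filter_not F σ.Lt]
    congr 1
    · refine sum_congr rfl fun t ht => ?_
      have a1 : wtm σ.U (σ.lam t) < σ.CH := (mem_filter.mp ht).2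
      rw [σ.marg_U, min_eq_right a1.le, ← (σ.repl t).2.2]
      rfl
    · rw [mul_comm, ← smul_eq_mul, ← sum_const]
      refine sum_congr rfl fun t ht => ?_
      have a1 : ¬ wtm σ.U (σ.lam t) < σ.CH := (mem_filter.mp ht).2
      rw [σ.marg_U, min_eq_left (not_lt.mp a1)]
  have h4 := rho_le σ.CH (σ.U ⊔ spn σ.lam F) (σ.JF F)
  have h5 : rho σ.CH (σ.U ⊔ spn σ.lam F) = _ := h
  have h6 := Nat.mul_le_mul_left σ.CH h2
  rw [σ.rho_U, h3] at h5
  rw [mul_add] at h6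
  have h7 : fC σ.CH (σ.U ⊔ spn σ.lam F) (σ.JF F) = rho σ.CH (σ.U ⊔ spn σ.lam F) := by
    unfold fC at h4 h5 ⊢
    omega
  unfold fC at h4 h5
  refine ⟨fun t ht t' ht' c c' hne => ofree_disj (F.filter σ.Lt) (fun t => supp (σ.dl t))
    (by omega) (mem_filter.mpr ⟨ht, c⟩) (mem_filter.mpr ⟨ht', c'⟩) hne, safe_of_min h7, ?_⟩
  refine Nat.eq_of_mul_eq_mul_left hC ?_
  rw [mul_add]
  omega

theorem HF_le (F : Finset T) : σ.HF F ≤ co σ.Y := by
  refine (map_off_le _ _).trans (co_mono fun i hi => ?_)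
  by_contra c
  exact mem_compl.mp hi (mem_union_left _ (mem_compl.mpr c))

theorem self_mem_Mid (e : T) : e ∈ σ.Mid e := by
  refine mem_filter.mpr ⟨mem_univ _, 1, one_ne_zero, ?_⟩
  rw [one_smul, sub_self, wtm_eq_zero.mpr (Submodule.zero_mem _)]
  exact Nat.zero_le _

/-- short representatives along the line of a heavy term are unique. -/
theorem rep_unique {e t : T} (he : σ.Heavy e) {u : ZMod p} (hu : u ≠ 0) {d : Vec p X}
    (hd : σ.lam t - u • σ.lam e - d ∈ σ.U) (hY : supp d ⊆ σ.Y) (hw : wt d < 2 * σ.CH) :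
    t ∈ σ.Mid e ∧ σ.uu e t = u ∧ σ.dd e t = d := by
  have h0 := wtm_le hd
  have hm : t ∈ σ.Mid e := mem_filter.mpr ⟨mem_univ _, u, hu, by omega⟩
  obtain ⟨-, r2, r3, r4, r5⟩ := σ.rep e t hm
  have h1 : (σ.uu e t - u) • σ.lam e - (d - σ.dd e t) ∈ σ.U := by
    have := σ.U.sub_mem hd r2
    have e1 : σ.lam t - u • σ.lam e - d - (σ.lam t - σ.uu e t • σ.lam e - σ.dd e t) =
        (σ.uu e t - u) • σ.lam e - (d - σ.dd e t) := by
      rw [sub_smul]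
      abel
    rwa [e1] at this
  have h2 : σ.uu e t = u := by
    by_contra c
    have a1 := wtm_le h1
    rw [wtm_smul _ (sub_ne_zero.mpr c)] at a1
    have a2 := wt_sub_le d (σ.dd e t)
    have a3 : 9 * σ.CH ≤ wtm σ.U (σ.lam e) := he
    omega
  refine ⟨hm, h2, ?_⟩
  rw [h2, sub_self, zero_smul, zero_sub, neg_sub] at h1
  rw [h2] at r4
  by_contra c
  have a1 : off σ.Yᶜ (σ.dd e t - d) = σ.dd e t - d := by
    funext i
    rw [off_apply]
    split_ifs with hi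
    · have b1 : σ.dd e t i = 0 := by
        by_contra b
        exact mem_compl.mp hi (r3 (mem_supp.mpr b))
      have b2 : d i = 0 := by
        by_contra b
        exact mem_compl.mp hi (hY (mem_supp.mpr b))
      rw [Pi.sub_apply, b1, b2, sub_zero]
    · rfl
  have a2 := σ.safe.le_wt (Submodule.mem_map_of_mem (f := off σ.Yᶜ) h1)
    (by rw [a1]; exact sub_ne_zero.mpr c)
  rw [a1] at a2
  have a3 := wt_sub_le (σ.dd e t) d
  omega

theorem LCl_subset (e : T) : σ.LCl e ⊆ σ.Mid e := filter_subset _ _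

theorem Qs_subset (e : T) : σ.Qs e ⊆ σ.Y :=
  biUnion_subset.mpr fun t ht => (σ.rep e t (σ.LCl_subset e ht)).2.2.1

theorem U_le_Ht (Γ : Finset T) : σ.U ⊔ spn σ.lam Γ ≤ σ.Ht Γ := le_sup_left

theorem co_Jt_le (Γ : Finset T) : co (σ.Jt Γ) ≤ σ.Ht Γ := le_sup_right

theorem compl_subset_Jt (Γ : Finset T) : σ.Yᶜ ⊆ σ.Jt Γ :=
  subset_Jmax (by have := σ.one_le_CH; omega) (σ.hY.trans le_sup_left)

theorem safe_Ht (Γ : Finset T) : Safe (2 * σ.CH) ((σ.Ht Γ).map (off (σ.Jt Γ))) := by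
  have h := safe_of_min (fC_Jmax (2 * σ.CH) (σ.U ⊔ spn σ.lam Γ))
  rw [← map_off_sup_co] at h
  exact h

theorem Ht_mono {Γ Γ' : Finset T} (h : Γ ⊆ Γ') : σ.Ht Γ ≤ σ.Ht Γ' :=
  sup_le_sup (sup_le_sup_left (spn_mono _ h) _)
    (co_mono (Jmax_mono _ (sup_le_sup_left (spn_mono _ h) _)))

theorem moved_mono {Γ Γ' : Finset T} (h : Γ ⊆ Γ') {e : T} (he : σ.Moved Γ e) : σ.Moved Γ' e := by
  rcases he with h1 | ⟨t, u, hu, h2⟩
  · exact Or.inl ((wtm_anti (σ.Ht_mono h) _).trans_lt h1)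
  · exact Or.inr ⟨t, u, hu, (min_le_min_left _ (wtm_anti (σ.Ht_mono h) _)).trans_lt h2⟩

theorem Qs_subset_Jt {Γ : Finset T} {e : T} (h : σ.Mid e ⊆ Γ) : σ.Qs e ⊆ σ.Jt Γ := by
  refine biUnion_subset.mpr fun t ht => ?_
  have hm := σ.LCl_subset e ht
  have hr : wt (σ.dd e t) ≤ σ.r := (mem_filter.mp ht).2
  have h1 : σ.dd e t ∈ σ.Ht Γ := by
    have a1 : σ.lam t ∈ σ.Ht Γ := σ.U_le_Ht Γ (Submodule.mem_sup_right (mem_spn _ (h hm)))
    have a2 : σ.lam e ∈ σ.Ht Γ :=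
      σ.U_le_Ht Γ (Submodule.mem_sup_right (mem_spn _ (h (σ.self_mem_Mid e))))
    have a3 := σ.U_le_Ht Γ (Submodule.mem_sup_left (σ.rep e t hm).2.1)
    have := (σ.Ht Γ).sub_mem ((σ.Ht Γ).sub_mem a1 ((σ.Ht Γ).smul_mem (σ.uu e t) a2)) a3
    rwa [sub_sub_cancel] at this
  have h2 : off (σ.Jt Γ) (σ.dd e t) = 0 := by
    by_contra c
    have a1 := (σ.safe_Ht Γ).le_wt (Submodule.mem_map_of_mem (f := off (σ.Jt Γ)) h1) c
    have a2 : wt (off (σ.Jt Γ) (σ.dd e t)) ≤ wt (σ.dd e t) := by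
      unfold wt
      rw [supp_off]
      exact card_le_card sdiff_subset
    have := σ.hr
    omega
  intro i hi
  by_contra c
  have a1 := congrFun h2 i
  rw [off_apply, if_neg c] at a1
  exact mem_supp.mp hi a1

theorem heavy_Ht {Γ : Finset T} {e : T} (h : ¬ σ.Moved Γ e) :
    9 * σ.CH ≤ wtm (σ.Ht Γ) (σ.lam e) :=
  not_lt.mp fun c => h (Or.inl c)

theorem ofree_keep {Γ : Finset T} {e : T} (h : ¬ σ.Moved Γ e) (t : T) {u : ZMod p} (hu : u ≠ 0) :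
    min (4 * σ.CH + 1) (wtm σ.U (σ.lam t - u • σ.lam e)) ≤
      wtm (σ.Ht Γ) (σ.lam t - u • σ.lam e) :=
  (not_lt.mp fun c => h (Or.inr ⟨t, u, hu, c⟩)).trans (min_le_right _ _)

theorem disjoint_Qs_Jt {Γ : Finset T} {e : T} (h : ¬ σ.Moved Γ e) :
    Disjoint (σ.Qs e) (σ.Jt Γ) := by
  refine (disjoint_biUnion_left _ _ _).mpr fun t ht => ?_
  obtain ⟨r1, r2, -, r4, r5⟩ := σ.rep e t (σ.LCl_subset e ht)
  by_contra c
  have a1 := wtm_drop (σ.co_Jt_le Γ) (σ.U_le_Ht Γ (Submodule.mem_sup_left r2)) c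
  have a2 := σ.ofree_keep h t r1
  omega

theorem far_Ht {Γ : Finset T} {e t : T} (he : σ.Heavy e) (h : ¬ σ.Moved Γ e) (ht : t ∈ σ.Mid e)
    (ht' : t ∉ σ.LCl e) (u u' : ZMod p) (hu : u ≠ 0 ∨ u' ≠ 0) :
    σ.r < wtm (σ.Ht Γ) (u • σ.lam e + u' • σ.lam t) := by
  have hH := σ.heavy_Ht h
  have hr := σ.hr
  obtain ⟨r1, r2, -, r4, r5⟩ := σ.rep e t ht
  have h1 : σ.r < wt (σ.dd e t) := not_le.mp fun c => ht' (mem_filter.mpr ⟨ht, c⟩)
  by_cases c : u' = 0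
  · rw [c, zero_smul, add_zero, wtm_smul _ (hu.resolve_right (not_not.mpr c))]
    omega
  have e1 : u • σ.lam e + u' • σ.lam t = u' • (σ.lam t - (-(u'⁻¹ * u)) • σ.lam e) := by
    rw [neg_smul, sub_neg_eq_add, smul_add, smul_smul, ← mul_assoc, mul_inv_cancel₀ c, one_mul,
      add_comm]
  rw [e1, wtm_smul _ c]
  generalize -(u'⁻¹ * u) = v
  by_cases c' : σ.uu e t = v
  · have a2 := σ.ofree_keep h t r1
    rw [← c']
    omega
  · have a1 : wtm (σ.Ht Γ) (-(σ.lam t - σ.uu e t • σ.lam e)) ≤ wt (-σ.dd e t) := by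
      refine wtm_le ?_
      rw [← neg_sub', neg_mem_iff]
      exact σ.U_le_Ht Γ (Submodule.mem_sup_left r2)
    have a2 := wtm_add_le (σ.Ht Γ) (σ.lam t - v • σ.lam e) (-(σ.lam t - σ.uu e t • σ.lam e))
    have e2 : σ.lam t - v • σ.lam e + -(σ.lam t - σ.uu e t • σ.lam e) =
        (σ.uu e t - v) • σ.lam e := by
      rw [sub_smul]
      abel
    rw [e2, wtm_smul _ (sub_ne_zero.mpr c')] at a2
    rw [wt_neg] at a1
    omega

/-- an unmoved term keeps its full margin. -/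
theorem marg_unmoved {Γ : Finset T} {e : T} (h : ¬ σ.Moved Γ e) :
    marg σ.CH (σ.U ⊔ spn σ.lam Γ) (σ.lam e) = σ.CH := by
  have h1 := marg_anti σ.CH (σ.U_le_Ht Γ) (σ.lam e)
  have h2 := marg_le σ.CH (σ.U ⊔ spn σ.lam Γ) (σ.lam e)
  have h3 := σ.heavy_Ht h
  rw [marg_eq_min σ.one_le_CH (σ.co_Jt_le Γ) (σ.safe_Ht Γ)] at h1
  omega

theorem marg_unmoved_insert {Γ : Finset T} {e t : T} (h : ¬ σ.Moved Γ e) (ht : t ∉ σ.Mid e) :
    marg σ.CH (σ.U ⊔ spn σ.lam (insert t Γ)) (σ.lam e) = σ.CH := by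
  have h0 : σ.U ⊔ spn σ.lam (insert t Γ) ≤ σ.Ht Γ ⊔ Submodule.span (ZMod p) {σ.lam t} := by
    rw [spn_insert, ← sup_assoc]
    exact sup_le_sup_right (σ.U_le_Ht Γ) _
  have h1 := marg_anti σ.CH h0 (σ.lam e)
  have h2 := marg_le σ.CH (σ.U ⊔ spn σ.lam (insert t Γ)) (σ.lam e)
  have h3 := σ.heavy_Ht h
  rw [marg_nbhd σ.one_le_CH (σ.co_Jt_le Γ) (σ.safe_Ht Γ) (σ.lam e) (σ.lam t) fun i => ?_] at h1
  · omega
  by_cases c : i = 0
  · rw [c, zero_smul, add_zero]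
    omega
  have e1 : σ.lam e + i • σ.lam t = i • (σ.lam t - (-i⁻¹) • σ.lam e) := by
    rw [neg_smul, sub_neg_eq_add, smul_add, smul_smul, mul_inv_cancel₀ c, one_smul, add_comm]
  have hu : -i⁻¹ ≠ 0 := neg_ne_zero.mpr (inv_ne_zero c)
  have a1 := σ.ofree_keep h t hu
  have a2 : ¬ wtm σ.U (σ.lam t - (-i⁻¹) • σ.lam e) ≤ 4 * σ.CH := fun b =>
    ht (mem_filter.mpr ⟨mem_univ _, _, hu, b⟩)
  rw [e1, wtm_smul _ c]
  omega

theorem hit_mono (a : Finset X) (C' : ℕ) (e : T) {H H' : Sub p X} (h : H ≤ H')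
    (hh : σ.Hit a C' e H) : σ.Hit a C' e H' := by
  have h1 : H ⊔ co aᶜ ≤ H' ⊔ co aᶜ := sup_le_sup_right h _
  rcases hh with c | c
  · exact Or.inl ((marg_anti _ h1 _).trans_lt c)
  · exact Or.inr fun b => c (b.mono_right (Jmax_mono _ h1))

end Ext

end Pool.Agent.P.MP_85fe51_lc.OD
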