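import Pool.Agent.P.MP_85fe51_lc.OOls
import Pool.Agent.P.MP_85fe51_lc.OFour
import Pool.Agent.P.MP_85fe51_lc.OVal
import Pool.Agent.P.MP_85fe51_lc.ORest
import Pool.Agent.P.MP_85fe51_lc.OFree

set_option autoImplicit false

namespace Pool.Agent.P.MP_85fe51_lc.OD

open Finset
open scoped Classical

variable {p : ℕ} [Fact p.Prime] {X : Type} [Fintype X] [DecidableEq X] {T : Type} [Fintype T]
  {k j : ℕ} {V0 N : Type} [AddCommGroup V0] [Fintype V0] [AddCommGroup N] [Fintype N]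

theorem oexp_pi_nonempty (U : Sub p X) (a : Atom k j → Finset X) :
    (Fintype.piFinset (fun b => Ker U (a b))).Nonempty :=
  ⟨fun _ => ∅, Fintype.mem_piFinset.2 (fun b => empty_mem_Ker U (a b))⟩

theorem oexp_pr_one {Ω : Type} {s : Finset Ω} (hs : s.Nonempty) {Q : Ω → Prop}
    (h : ∀ x ∈ s, Q x) : pr s Q = 1 := by
  rw [pr_eq_card, filter_true_of_mem h, div_self]
  exact_mod_cast hs.card_pos.ne'

theorem oexp_pr_zero {Ω : Type} {s : Finset Ω} {Q : Ω → Prop}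
    (h : ∀ x ∈ s, ¬ Q x) : pr s Q = 0 := by
  rw [pr_eq_card, filter_false_of_mem h]
  simp

omit [Fintype X] in
theorem oexp_pr_empty (K : Atom k j → Finset (Finset X)) (hK : ∀ a, ∅ ∈ K a) (a0 : Atom k j) :
    pr (Fintype.piFinset K) (fun x => x a0 = ∅) = 1 / (K a0).card := by
  have hne : (Fintype.piFinset K).Nonempty := ⟨fun _ => ∅, Fintype.mem_piFinset.2 hK⟩
  unfold pr
  rw [expect_update K a0]
  simp only [Function.update_self]
  rw [expect_const hne, expect_eq_sum_div_card]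
  congr 1
  rw [sum_eq_single_of_mem ∅ (hK a0)]
  · simp
  · intro b _ hb
    simp [hb]

theorem oexp_nu_a0 (P : Pat k j) (τ : ℝ) :
    1 / (4 * j : ℝ) ≤ ∑ b ∈ univ.filter
      (fun b : Lab k j => b = some (P.a0, false) ∨ b = some (P.a0, true)), nu k j τ b := by
  have h : univ.filter (fun b : Lab k j => b = some (P.a0, false) ∨ b = some (P.a0, true)) =
      {some (P.a0, false), some (P.a0, true)} := by
    ext b
    simp
  rw [h, sum_pair (by simp)]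
  simp only [nu, Pat.a0, if_true, Bool.false_eq_true, if_false]
  apply le_of_eq
  ring

omit [Fintype V0] in
theorem oexp_card_Z (N0 : AddSubgroup N) :
    Nat.card ((⊥ : AddSubgroup V0).prod N0) ≤ Fintype.card N := by
  rw [← Nat.card_eq_fintype_card]
  refine Nat.card_le_card_of_injective (fun z => z.1.2) ?_
  intro z z' h
  have h1 := (AddSubgroup.mem_prod.1 z.2).1
  have h2 := (AddSubgroup.mem_prod.1 z'.2).1
  rw [AddSubgroup.mem_bot] at h1 h2
  exact Subtype.ext (Prod.ext (h1.trans h2.symm) h)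

theorem oexp_norm_shift {G Ω : Type} [AddCommGroup G] [Fintype G] (χ : AddChar G ℂ)
    (s : Finset Ω) (v : Ω → G) (b : G) :
    ‖s.expect (fun x => χ (v x - b))‖ = ‖s.expect (fun x => χ (v x))‖ := by
  have h : ∀ x, χ (v x - b) = χ (v x) * χ (-b) := fun x => by
    rw [sub_eq_add_neg, AddChar.map_add_eq_mul]
  simp only [h]
  rw [← expect_mul, norm_mul, AddChar.norm_apply, mul_one]

namespace Ext
variable (σ : Ext p X T)

theorem exists_pat (f0 : Finset X → V0) (phi : T → ZMod p → N) (N0 : AddSubgroup N) {c : ℕ}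
    (hj : OlsJ c (Fintype.card (V0 × N)) j) (hf : DL ⊥ (fun _ => True) (c + 1) univ f0)
    (hS : DL N0 (KerP σ.U) (c + 1) σ.Y (Sf σ.lam phi)) {w : X → Lab k j → ℝ} (hw : IsW w) :
    ∃ P : Pat k j, (1 / 2 : ℝ) ^ (j * (k + 1)) ≤ Ew w (fun l =>
      pr (Fintype.piFinset (fun a => Ker σ.U (atomSet σ.Y l a))) (fun x =>
        (f0 (P.g.biUnion x), Sf σ.lam phi (P.g.biUnion x)) - (f0 ∅, Sf σ.lam phi ∅) ∈
          (⊥ : AddSubgroup V0).prod N0)) := by
  let Q : Finset (Atom k j) → (Atom k j → Finset X) → Prop := fun g x =>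
    (f0 (g.biUnion x), Sf σ.lam phi (g.biUnion x)) - (f0 ∅, Sf σ.lam phi ∅) ∈
      (⊥ : AddSubgroup V0).prod N0
  let s : (X → Lab k j) → Finset (Atom k j → Finset X) := fun l =>
    Fintype.piFinset (fun a => Ker σ.U (atomSet σ.Y l a))
  let E : Finset (Atom k j) → ℝ := fun g =>
    Ew w (fun l => pr (s l) (fun x => (∃ P : Pat k j, P.g = g) ∧ Q g x))
  have hall : ∀ l, ∀ x ∈ s l, ∃ g ∈ (univ : Finset (Finset (Atom k j))),
      (∃ P : Pat k j, P.g = g) ∧ Q g x := by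
    intro l x hx
    have hx' : ∀ a, x a ⊆ atomSet σ.Y l a ∧ KerP σ.U (x a) := fun a =>
      mem_Ker.1 (Fintype.mem_piFinset.1 hx a)
    have hd : ∀ a ∈ (univ : Finset (Atom k j)), ∀ b ∈ (univ : Finset (Atom k j)), a ≠ b →
        Disjoint (x a) (x b) := fun a _ b _ hab =>
      (atomSet_disjoint σ.Y l hab).mono (hx' a).1 (hx' b).1
    have h1 := DL_atoms (Kp := fun _ => True) trivial clo_true hf univ x
      (fun a _ => ⟨subset_univ _, trivial⟩) hd
    have h2 := DL_atoms (kerP_empty σ.U) (fun A B h hA hB => kerP_union h hA hB) hS univ x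
      (fun a _ => ⟨(hx' a).1.trans (atomSet_subset _ _ _), (hx' a).2⟩) hd
    obtain ⟨P, hP⟩ := walk hj le_rfl _ _ (h1.prod h2)
    refine ⟨P.g, mem_univ _, ⟨P, rfl⟩, ?_⟩
    simpa only [biUnion_empty] using hP
  have hsum : 1 ≤ ∑ g : Finset (Atom k j), E g := by
    rw [← Ew_sum, ← Ew_const hw 1]
    refine Ew_mono hw (fun l _ => ?_)
    refine le_trans ?_ (pr_exists_le (s l) univ (fun g x => (∃ P : Pat k j, P.g = g) ∧ Q g x))
    exact (oexp_pr_one (oexp_pi_nonempty _ _) (hall l)).ge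
  have hcard : ∑ _g : Finset (Atom k j), (1 / 2 : ℝ) ^ (j * (k + 1)) = 1 := by
    rw [sum_const, card_univ, Fintype.card_finset, Fintype.card_prod, Fintype.card_fin,
      Fintype.card_fin, nsmul_eq_mul, mul_comm (k + 1) j]
    push_cast
    rw [← mul_pow]
    norm_num
  obtain ⟨g, -, hg⟩ := exists_le_of_sum_le (univ_nonempty (α := Finset (Atom k j)))
    (hcard.le.trans hsum)
  by_cases hP : ∃ P : Pat k j, P.g = g
  · obtain ⟨P, rfl⟩ := hP
    exact ⟨P, hg.trans (Ew_mono hw (fun l _ => pr_mono _ (fun x _ hx => hx.2)))⟩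
  · exfalso
    have h0 : E g = 0 := by
      have : (fun l => pr (s l) (fun x => (∃ P : Pat k j, P.g = g) ∧ Q g x)) = fun _ => 0 :=
        funext fun l => oexp_pr_zero (fun x _ hx => hP hx.1)
      simp only [E, this]
      exact Ew_const hw 0
    rw [h0] at hg
    exact absurd hg (not_le.2 (by positivity))

theorem empty_le (P : Pat k j) {θ τ ζ : ℝ} (hθ : ThC p θ) (hk : 1 ≤ k) (hj : 1 ≤ j) (hτ0 : 0 ≤ τ)
    (hτ1 : τ ≤ 1) {n0 : ℕ} (hn : 16 * j * n0 ≤ σ.Y.card) (hζ : ζ ≤ 1 / (4 * j) * (1 - θ) * σ.CH)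
    (hQ : (p * (Fintype.card X + 1) : ℝ) * Real.exp (-ζ) ≤ 1 / 2) :
    Ew (fun _ : X => nu k j τ) (fun l =>
      pr (Fintype.piFinset (fun a => Ker σ.U (atomSet σ.Y l a))) (fun x => x P.a0 = ∅)) ≤
      4 * (p * (Fintype.card X + 1) : ℝ) ^ 2 * Real.exp (-ζ) + Real.exp (-(n0 : ℝ)) +
        2 * (p : ℝ) ^ dO σ.U σ.Yᶜ / 2 ^ n0 := by
  have hw := isW_nu X hk hj hτ0 hτ1
  have hj0 : (0 : ℝ) < j := by exact_mod_cast hj
  let S : Lab k j → Prop := fun b => b = some (P.a0, false) ∨ b = some (P.a0, true)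
  have hmass : ∀ i ∈ σ.Y, 1 / (4 * j : ℝ) ≤
      ∑ b ∈ @filter _ S (fun _ => Classical.propDecidable _) univ,
        (fun _ : X => nu k j τ) i b := by
    intro i _
    have h := oexp_nu_a0 P τ
    rwa [filter_congr_decidable] at h ⊢
  have hset : ∀ l : X → Lab k j,
      @filter _ (fun i => S (l i)) (fun _ => Classical.propDecidable _) σ.Y =
        atomSet σ.Y l P.a0 := by
    intro l
    ext i
    simp only [atomSet, mem_filter, S]
  have hexp : Real.exp (-(1 / (4 * j : ℝ) * (1 - θ)) * σ.CH) ≤ Real.exp (-ζ) :=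
    Real.exp_le_exp.2 (by linarith)
  have hQ0 : (0 : ℝ) ≤ p * (Fintype.card X + 1) := by positivity
  have h1 := Ew_enum hw σ.Y S (by positivity) hθ.1 hθ.2.1.le hmass σ.one_le_CH
    (σ.safe.mono (by omega)) σ.U'_le ((mul_le_mul_of_nonneg_left hexp hQ0).trans hQ)
  have h2 := Pw_few hw σ.Y S hmass
  simp only [hset] at h1 h2
  have hn' : (n0 : ℝ) ≤ 1 / (4 * j : ℝ) * σ.Y.card / 4 := by
    have : (16 * j * n0 : ℝ) ≤ σ.Y.card := by exact_mod_cast hn
    rw [le_div_iff₀ (by norm_num), one_div, inv_mul_eq_div, le_div_iff₀ (by positivity)]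
    linarith
  have hpt : ∀ l : X → Lab k j,
      pr (Fintype.piFinset (fun a => Ker σ.U (atomSet σ.Y l a))) (fun x => x P.a0 = ∅) ≤
        2 * (enum θ σ.U' (atomSet σ.Y l P.a0) - 1) +
          (if ((atomSet σ.Y l P.a0).card : ℝ) < 1 / (4 * j : ℝ) * σ.Y.card / 4 then 1 else 0) +
          2 * (p : ℝ) ^ dO σ.U σ.Yᶜ / 2 ^ n0 := by
    intro l
    have he := one_le_enum hθ.1 σ.U' (atomSet σ.Y l P.a0)
    have hc : (0 : ℝ) ≤ 2 * (p : ℝ) ^ dO σ.U σ.Yᶜ / 2 ^ n0 := by positivity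
    have hle := pr_le_one (Fintype.piFinset (fun a => Ker σ.U (atomSet σ.Y l a)))
      (fun x => x P.a0 = ∅)
    split_ifs with hlt
    · linarith
    by_cases h32 : 3 / 2 ≤ enum θ σ.U' (atomSet σ.Y l P.a0)
    · linarith
    have hK := card_Ker_ge hθ σ.hY (atomSet_subset σ.Y l P.a0)
    have hn0 : n0 ≤ (atomSet σ.Y l P.a0).card := by
      exact_mod_cast hn'.trans (not_lt.1 hlt)
    have hpow : (2 : ℝ) ^ n0 ≤ 2 ^ (atomSet σ.Y l P.a0).card :=
      pow_le_pow_right₀ (by norm_num) hn0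
    have hKpos : (0 : ℝ) < (Ker σ.U (atomSet σ.Y l P.a0)).card := by
      exact_mod_cast card_pos.2 ⟨∅, empty_mem_Ker _ _⟩
    have h3 : 1 / ((Ker σ.U (atomSet σ.Y l P.a0)).card : ℝ) ≤
        2 * (p : ℝ) ^ dO σ.U σ.Yᶜ / 2 ^ n0 := by
      rw [div_le_div_iff₀ hKpos (by positivity)]
      have h4 : (1 / 2 : ℝ) * 2 ^ (atomSet σ.Y l P.a0).card ≤
          (2 - enum θ (σ.U.map (off σ.Yᶜ)) (atomSet σ.Y l P.a0)) *
            2 ^ (atomSet σ.Y l P.a0).card := by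
        refine mul_le_mul_of_nonneg_right ?_ (by positivity)
        have h5 : enum θ (σ.U.map (off σ.Yᶜ)) (atomSet σ.Y l P.a0) < 3 / 2 := not_le.1 h32
        linarith
      linarith
    rw [oexp_pr_empty _ (fun a => empty_mem_Ker _ _)]
    linarith
  refine (Ew_mono hw (fun l _ => hpt l)).trans ?_
  rw [Ew_add, Ew_add, Ew_mul, Ew_const hw]
  have h6 : Real.exp (-(1 / (4 * j : ℝ) * σ.Y.card / 4)) ≤ Real.exp (-(n0 : ℝ)) :=
    Real.exp_le_exp.2 (by linarith)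
  have h7 := mul_le_mul_of_nonneg_left hexp
    (show (0 : ℝ) ≤ 2 * (p * (Fintype.card X + 1) : ℝ) ^ 2 by positivity)
  have h8 : Ew (fun _ : X => nu k j τ) (fun l =>
      if ((atomSet σ.Y l P.a0).card : ℝ) < 1 / (4 * j : ℝ) * σ.Y.card / 4 then 1 else 0) ≤
      Real.exp (-(n0 : ℝ)) := by
    refine le_trans (le_of_eq ?_) (h2.trans h6)
    unfold Pw
    congr 1
  have h9 : Ew (fun _ : X => nu k j τ) (fun l => enum θ σ.U' (atomSet σ.Y l P.a0) - 1) ≤
      2 * (p * (Fintype.card X + 1) : ℝ) ^ 2 * Real.exp (-ζ) := h1.trans h7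
  linarith

/-- without a solution some character that is nontrivial on `N0` is biased. -/
theorem exists_bias (f0 : Finset X → V0) (phi : T → ZMod p → N) (N0 : AddSubgroup N) {c : ℕ}
    (hj : OlsJ c (Fintype.card (V0 × N)) j) (hf : DL ⊥ (fun _ => True) (c + 1) univ f0)
    (hS : DL N0 (KerP σ.U) (c + 1) σ.Y (Sf σ.lam phi)) {θ τ ζ β : ℝ} (hθ : ThC p θ) (hk : 1 ≤ k)
    (hj1 : 1 ≤ j) (hτ0 : 0 ≤ τ) (hτ1 : τ ≤ 1) {n0 : ℕ} (hn : 16 * j * n0 ≤ σ.Y.card)
    (hζ : ζ ≤ 1 / (4 * j) * (1 - θ) * σ.CH) (hβ : 0 < β)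
    (hβ1 : 4 * Fintype.card N * β ≤ (1 / 2 : ℝ) ^ (j * (k + 1)))
    (hβ2 : 4 * (p * (Fintype.card X + 1) : ℝ) ^ 2 * Real.exp (-ζ) + Real.exp (-(n0 : ℝ)) +
      2 * (p : ℝ) ^ dO σ.U σ.Yᶜ / 2 ^ n0 ≤ 2 * β)
    (hno : ∀ A : Finset X, Sf σ.lam phi A = Sf σ.lam phi ∅ → f0 A = f0 ∅ → A = ∅) :
    ∃ (P : Pat k j) (χ : AddChar (V0 × N) ℂ), (∃ n ∈ N0, χ (0, n) ≠ 1) ∧
      β ≤ Ew (fun _ : X => nu k j τ) (fun l =>
        ‖(Fintype.piFinset (fun a => Ker σ.U (atomSet σ.Y l a))).expect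
          (fun x => χ (f0 (P.g.biUnion x), Sf σ.lam phi (P.g.biUnion x)))‖) := by
  have hw := isW_nu X hk hj1 hτ0 hτ1
  obtain ⟨P, hP⟩ := σ.exists_pat f0 phi N0 hj hf hS hw
  have hN : (1 : ℝ) ≤ Fintype.card N := by exact_mod_cast Fintype.card_pos
  have hb1 : (1 / 2 : ℝ) ^ (j * (k + 1)) ≤ 1 := pow_le_one₀ (by norm_num) (by norm_num)
  have hβ4 : 4 * β ≤ 1 := by nlinarith
  have hp1 : (1 : ℝ) ≤ p := by exact_mod_cast (Fact.out : p.Prime).one_lt.le
  have hQ1 : (1 : ℝ) ≤ p * (Fintype.card X + 1) := by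
    have : (0 : ℝ) ≤ Fintype.card X := by positivity
    nlinarith
  have hQ : (p * (Fintype.card X + 1) : ℝ) * Real.exp (-ζ) ≤ 1 / 2 := by
    have e1 := Real.exp_pos (-ζ)
    have e2 := Real.exp_pos (-(n0 : ℝ))
    have e3 : (0 : ℝ) ≤ 2 * (p : ℝ) ^ dO σ.U σ.Yᶜ / 2 ^ n0 := by positivity
    have e4 : (p * (Fintype.card X + 1) : ℝ) ≤ (p * (Fintype.card X + 1) : ℝ) ^ 2 := by nlinarith
    have e5 := mul_le_mul_of_nonneg_right e4 e1.le
    linarith
  have hE := (σ.empty_le P hθ hk hj1 hτ0 hτ1 hn hζ hQ).trans hβ2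
  have h0 : Ew (fun _ : X => nu k j τ) (fun l =>
      pr (Fintype.piFinset (fun a => Ker σ.U (atomSet σ.Y l a))) (fun x =>
        (f0 (P.g.biUnion x), Sf σ.lam phi (P.g.biUnion x)) - (f0 ∅, Sf σ.lam phi ∅) = 0)) ≤
      2 * β := by
    refine le_trans (Ew_mono hw (fun l _ => pr_mono _ (fun x _ hx => ?_))) hE
    rw [sub_eq_zero, Prod.mk.injEq] at hx
    have h1 := hno _ hx.2 hx.1
    exact subset_empty.1 (h1 ▸ subset_biUnion_of_mem x P.a0_mem_g)
  have hlt : 2 * β + β < (1 / 2 : ℝ) ^ (j * (k + 1)) / (Fintype.card N : ℕ) := by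
    rw [lt_div_iff₀ (by linarith)]
    nlinarith
  obtain ⟨χ, ⟨z, hz, hχ⟩, hb⟩ := exists_char ((⊥ : AddSubgroup V0).prod N0)
    (fun l : X → Lab k j => ∏ i, nu k j τ (l i))
    (fun l => prod_nonneg (fun i _ => hw.1 i (l i)))
    (fun l => Fintype.piFinset (fun a => Ker σ.U (atomSet σ.Y l a)))
    (fun _ x => (f0 (P.g.biUnion x), Sf σ.lam phi (P.g.biUnion x)) - (f0 ∅, Sf σ.lam phi ∅))
    (oexp_card_Z N0) (by positivity) hβ.le hP
    (lt_of_le_of_lt (add_le_add h0 le_rfl) hlt)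
  refine ⟨P, χ, ⟨z.2, (AddSubgroup.mem_prod.1 hz).2, ?_⟩, ?_⟩
  · have h1 := (AddSubgroup.mem_prod.1 hz).1
    rw [AddSubgroup.mem_bot] at h1
    rw [← h1]
    exact hχ
  · simp only [oexp_norm_shift] at hb
    exact hb

end Ext

end Pool.Agent.P.MP_85fe51_lc.OD
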