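import Pool.Agent.P.MP_85fe51_lc.OSafe

set_option autoImplicit false

namespace Pool.Agent.P.MP_85fe51_lc.OD

open Finset
open scoped Classical

variable {p : ℕ} [Fact p.Prime] {X : Type} [Fintype X] [DecidableEq X] {T : Type} [Fintype T]

/-- closeness of all terms to the line of `e`. -/
noncomputable def oextPsi (lam : T → Vec p X) (CH : ℕ) (H : Sub p X) (e : T) : ℕ :=
  ∑ t, ∑ u ∈ (univ : Finset (ZMod p)).filter (fun u => u ≠ 0),
    (4 * CH + 1 - wtm H (lam t - u • lam e))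

/-- the part of the potential that belongs to one term. -/
noncomputable def oextTerm (lam : T → Vec p X) (CH M : ℕ) (H : Sub p X) (t : T) : ℕ :=
  M * min (9 * CH) (wtm H (lam t)) + (4 * M * p * (4 * CH + 1) + 1 - oextPsi lam CH H t) +
    marg CH H (lam t)

theorem oext_psi_mono (lam : T → Vec p X) (CH : ℕ) {H H' : Sub p X} (h : H ≤ H') (e : T) :
    oextPsi lam CH H e ≤ oextPsi lam CH H' e := by
  unfold oextPsi
  refine sum_le_sum fun t _ => sum_le_sum fun u _ => ?_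
  have := wtm_anti h (lam t - u • lam e)
  omega

theorem oext_psi_lt (lam : T → Vec p X) (CH : ℕ) {H H' : Sub p X} (h : H ≤ H') (e t : T)
    {u : ZMod p} (hu : u ≠ 0)
    (hlt : min (4 * CH + 1) (wtm H' (lam t - u • lam e)) <
      min (4 * CH + 1) (wtm H (lam t - u • lam e))) :
    oextPsi lam CH H e < oextPsi lam CH H' e := by
  unfold oextPsi
  refine sum_lt_sum (fun t _ => sum_le_sum fun u _ => ?_) ⟨t, mem_univ _, ?_⟩
  · have := wtm_anti h (lam t - u • lam e)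
    omega
  · refine sum_lt_sum (fun u _ => ?_) ⟨u, mem_filter.2 ⟨mem_univ _, hu⟩, ?_⟩
    · have := wtm_anti h (lam t - u • lam e)
      omega
    · omega

omit [DecidableEq X] in
theorem oext_psi_le (lam : T → Vec p X) (CH : ℕ) (H : Sub p X) (e : T) :
    oextPsi lam CH H e ≤ (MidS H lam CH e).card * (p * (4 * CH + 1)) := by
  unfold oextPsi
  rw [← sum_subset (subset_univ (MidS H lam CH e))]
  · rw [← smul_eq_mul]
    refine sum_le_card_nsmul _ _ _ fun t _ => ?_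
    have h1 : ∑ u ∈ (univ : Finset (ZMod p)).filter (fun u => u ≠ 0),
        (4 * CH + 1 - wtm H (lam t - u • lam e)) ≤
        ((univ : Finset (ZMod p)).filter (fun u => u ≠ 0)).card • (4 * CH + 1) :=
      sum_le_card_nsmul _ _ _ fun u _ => Nat.sub_le _ _
    have h2 : ((univ : Finset (ZMod p)).filter (fun u => u ≠ 0)).card ≤ p := by
      refine (card_filter_le _ _).trans ?_
      rw [card_univ, ZMod.card]
    rw [smul_eq_mul] at h1
    exact h1.trans (Nat.mul_le_mul_right _ h2)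
  · intro t _ ht
    refine sum_eq_zero fun u hu => ?_
    have hu0 : u ≠ 0 := (mem_filter.1 hu).2
    have : ¬ wtm H (lam t - u • lam e) ≤ 4 * CH := fun hh =>
      ht (mem_filter.2 ⟨mem_univ _, u, hu0, hh⟩)
    omega

theorem oext_term_anti (lam : T → Vec p X) (CH M : ℕ) {H H' : Sub p X} (h : H ≤ H') (t : T) :
    M * min (9 * CH) (wtm H' (lam t)) ≤ M * min (9 * CH) (wtm H (lam t)) ∧
      oextPsi lam CH H t ≤ oextPsi lam CH H' t ∧ marg CH H' (lam t) ≤ marg CH H (lam t) :=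
  ⟨Nat.mul_le_mul_left _ (min_le_min le_rfl (wtm_anti h _)), oext_psi_mono lam CH h t,
    marg_anti CH h _⟩

theorem oext_pot_drop (lam : T → Vec p X) (CH M : ℕ) {H H' : Sub p X} (h : H ≤ H')
    (S : Finset T) (c : ℕ) (hS : ∀ t ∈ S, oextTerm lam CH M H' t + c ≤ oextTerm lam CH M H t) :
    ∑ t, oextTerm lam CH M H' t + c * S.card ≤ ∑ t, oextTerm lam CH M H t := by
  have h1 : c * S.card = ∑ t : T, if t ∈ S then c else 0 := by
    rw [← sum_filter, sum_const, smul_eq_mul, mul_comm]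
    congr 2
    ext t
    simp
  rw [h1, ← sum_add_distrib]
  refine sum_le_sum fun t _ => ?_
  by_cases ht : t ∈ S
  · rw [if_pos ht]
    exact hS t ht
  · rw [if_neg ht]
    obtain ⟨a, b, c'⟩ := oext_term_anti lam CH M h t
    unfold oextTerm
    omega

theorem oext_pot_le (lam : T → Vec p X) {CH M : ℕ} (hC : 1 ≤ CH) (hM : 1 ≤ M) (H : Sub p X) :
    ∑ t, oextTerm lam CH M H t ≤ 31 * p * CH * M * Fintype.card T := by
  have hp : 1 ≤ p := (Fact.out : p.Prime).one_le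
  rw [mul_comm _ (Fintype.card T), ← card_univ, ← smul_eq_mul]
  refine sum_le_card_nsmul _ _ _ fun t _ => ?_
  have h1 : M * min (9 * CH) (wtm H (lam t)) ≤ M * (9 * CH) :=
    Nat.mul_le_mul_left _ (min_le_left _ _)
  have h2 := marg_le CH H (lam t)
  have h3 : M * CH ≤ p * (M * CH) := Nat.le_mul_of_pos_left _ hp
  have h4 : CH ≤ M * CH := Nat.le_mul_of_pos_left _ hM
  have h5 : p * M ≤ p * (M * CH) := Nat.mul_le_mul_left _ (Nat.le_mul_of_pos_right _ hC)
  have h6 : 4 * M * p * (4 * CH + 1) = 16 * (p * (M * CH)) + 4 * (p * M) := by ring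
  have h7 : 31 * p * CH * M = 31 * (p * (M * CH)) := by ring
  have h8 : M * (9 * CH) = 9 * (M * CH) := by ring
  unfold oextTerm
  omega

theorem oext_compl_sdiff (Y J : Finset X) : (Y \ J)ᶜ = Yᶜ ∪ J := by
  ext i
  simp only [mem_compl, mem_sdiff, mem_union]
  tauto

theorem oext_card_sdiff (Y Y' J : Finset X) :
    (Y \ (Y' \ J)).card ≤ (Y \ Y').card + (J \ Y'ᶜ).card := by
  refine le_trans (card_le_card ?_) (card_union_le _ _)
  intro i
  simp only [mem_compl, mem_sdiff, mem_union]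
  tauto

/-- a minimizer of the energy. -/
theorem oext_min (lam : T → Vec p X) (Y : Finset X) (U : Sub p X) (hY : co Yᶜ ≤ U)
    (CH M : ℕ) :
    ∃ (Y' : Finset X) (U' : Sub p X), Y' ⊆ Y ∧ U ≤ U' ∧ co Y'ᶜ ≤ U' ∧
      ∀ (Y2 : Finset X) (U2 : Sub p X), Y2 ⊆ Y → U ≤ U2 → co Y2ᶜ ≤ U2 →
        ∑ t, oextTerm lam CH M U' t + 4 * CH * M ^ 2 * dO U' Y'ᶜ + M ^ 2 * (Y \ Y').card ≤
          ∑ t, oextTerm lam CH M U2 t + 4 * CH * M ^ 2 * dO U2 Y2ᶜ + M ^ 2 * (Y \ Y2).card := by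
  have hne : Set.Nonempty {n : ℕ | ∃ (Y2 : Finset X) (U2 : Sub p X),
      Y2 ⊆ Y ∧ U ≤ U2 ∧ co Y2ᶜ ≤ U2 ∧
        ∑ t, oextTerm lam CH M U2 t + 4 * CH * M ^ 2 * dO U2 Y2ᶜ + M ^ 2 * (Y \ Y2).card = n} :=
    ⟨_, Y, U, Subset.refl _, le_rfl, hY, rfl⟩
  obtain ⟨Y', U', h1, h2, h3, h4⟩ := Nat.sInf_mem hne
  refine ⟨Y', U', h1, h2, h3, fun Y2 U2 g1 g2 g3 => ?_⟩
  rw [h4]
  exact Nat.sInf_le ⟨Y2, U2, g1, g2, g3, rfl⟩

theorem oext_mid_drop (lam : T → Vec p X) (CH M : ℕ) (H : Sub p X) {e t : T}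
    (he : 9 * CH ≤ wtm H (lam e)) (ht : t ∈ MidS H lam CH e) :
    oextTerm lam CH M (H ⊔ Submodule.span (ZMod p) {lam e}) t + M * CH ≤
      oextTerm lam CH M H t := by
  obtain ⟨u, hu, hw⟩ := (mem_filter.1 ht).2
  have hle : H ≤ H ⊔ Submodule.span (ZMod p) {lam e} := le_sup_left
  obtain ⟨-, b, c⟩ := oext_term_anti lam CH M hle t
  have h1 : wtm (H ⊔ Submodule.span (ZMod p) {lam e}) (lam t) ≤ 4 * CH := by
    have hm : lam t - (lam t - u • lam e) ∈ H ⊔ Submodule.span (ZMod p) {lam e} := by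
      rw [sub_sub_cancel]
      exact Submodule.mem_sup_right
        (Submodule.smul_mem _ _ (Submodule.mem_span_singleton_self _))
    rw [wtm_congr hm]
    exact (wtm_anti hle _).trans hw
  have h2 : 5 * CH ≤ wtm H (lam t) := by
    have e1 : u • lam e = lam t + (-1 : ZMod p) • (lam t - u • lam e) := by
      rw [neg_one_smul]
      abel
    have e2 := wtm_add_le H (lam t) ((-1 : ZMod p) • (lam t - u • lam e))
    rw [← e1, wtm_smul H hu, wtm_smul H (neg_ne_zero.2 one_ne_zero)] at e2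
    omega
  have h3 : min (9 * CH) (wtm (H ⊔ Submodule.span (ZMod p) {lam e}) (lam t)) + CH ≤
      min (9 * CH) (wtm H (lam t)) := by omega
  have h4 := Nat.mul_le_mul_left M h3
  rw [mul_add] at h4
  unfold oextTerm
  omega

/-- existence of an extremal state below a given state. -/
theorem exists_ext (lam : T → Vec p X) (Y : Finset X) (U : Sub p X) (hY : co Yᶜ ≤ U)
    {CH r M : ℕ} (hr : 8 * r < CH) (hM : 1 ≤ M) :
    ∃ σ : Ext p X T, σ.lam = lam ∧ σ.CH = CH ∧ σ.r = r ∧ σ.M4 = 4 * M ∧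
      σ.K1 = 4 * CH * M ^ 2 ∧ σ.K = 8 * CH * M ^ 2 ∧ σ.Y ⊆ Y ∧ U ≤ σ.U ∧
      4 * CH * M ^ 2 * dO σ.U σ.Yᶜ + M ^ 2 * (Y \ σ.Y).card ≤
        31 * p * CH * M * Fintype.card T + 4 * CH * M ^ 2 * dO U Yᶜ := by
  have hC : 1 ≤ CH := by omega
  have hM2 : 0 < M ^ 2 := pow_pos hM 2
  obtain ⟨Y', U', hY1, hU1, hco, hmin⟩ := oext_min lam Y U hY CH M
  -- deleting coordinates
  have hdel : ∀ (H : Sub p X) (J : Finset X), U' ≤ H →
      ∑ t, oextTerm lam CH M U' t + 4 * CH * M ^ 2 * dO U' Y'ᶜ ≤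
        ∑ t, oextTerm lam CH M (H ⊔ co J) t + 4 * CH * M ^ 2 * dO H (Y'ᶜ ∪ J) +
          M ^ 2 * (J \ Y'ᶜ).card := by
    intro H J hH
    have h1 := hmin (Y' \ J) (H ⊔ co J) (sdiff_subset.trans hY1)
      ((hU1.trans hH).trans le_sup_left) (by
        rw [oext_compl_sdiff, co_union]
        exact sup_le_sup_right (hco.trans hH) _)
    rw [oext_compl_sdiff, dO_sup_co H subset_union_right] at h1
    have h2 := Nat.mul_le_mul_left (M ^ 2) (oext_card_sdiff Y Y' J)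
    rw [mul_add] at h2
    omega
  -- adding vectors
  have hadd : ∀ (H : Sub p X) (y : ℕ), U' ≤ H → dO H Y'ᶜ ≤ dO U' Y'ᶜ + y →
      ∑ t, oextTerm lam CH M U' t ≤ ∑ t, oextTerm lam CH M H t + 4 * CH * M ^ 2 * y := by
    intro H y hH hy
    have h1 := hmin Y' H hY1 (hU1.trans hH) (hco.trans hH)
    have h2 := Nat.mul_le_mul_left (4 * CH * M ^ 2) hy
    rw [mul_add] at h2
    omega
  have hsafe : Safe (4 * CH) (U'.map (off Y'ᶜ)) := by
    intro J
    have h1 := hdel U' J le_rfl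
    have h2 := oext_pot_drop lam CH M (le_sup_left : U' ≤ U' ⊔ co J) ∅ 0 (by simp)
    have h3 := congrArg (fun n => 4 * CH * M ^ 2 * n) (dO_union U' Y'ᶜ J)
    simp only [mul_add] at h3
    have h4 := Nat.mul_le_mul_left (M ^ 2) (card_le_card (sdiff_subset : J \ Y'ᶜ ⊆ J))
    have h5 : M ^ 2 * (4 * CH * Module.finrank (ZMod p) ↥(U'.map (off Y'ᶜ) ⊓ co J)) =
        4 * CH * M ^ 2 * Module.finrank (ZMod p) ↥(U'.map (off Y'ᶜ) ⊓ co J) := by ring
    have h6 : 4 * CH * Module.finrank (ZMod p) ↥(U'.map (off Y'ᶜ) ⊓ co J) ≤ J.card := by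
      refine Nat.le_of_mul_le_mul_left ?_ hM2
      omega
    exact h6
  have hmid : ∀ e, 9 * CH ≤ wtm U' (lam e) → (MidS U' lam CH e).card ≤ 4 * M := by
    intro e he
    have h1 := hadd (U' ⊔ Submodule.span (ZMod p) {lam e}) 1 le_sup_left (dO_sup_span _ _ _)
    have h2 := oext_pot_drop lam CH M
      (le_sup_left : U' ≤ U' ⊔ Submodule.span (ZMod p) {lam e}) (MidS U' lam CH e) (M * CH)
      (fun t ht => oext_mid_drop lam CH M U' he ht)
    have h3 : M * CH * (4 * M) = 4 * CH * M ^ 2 * 1 := by ring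
    refine Nat.le_of_mul_le_mul_left ?_ (Nat.mul_pos hM hC)
    omega
  have he2 : ∀ Γ : Finset T,
      (univ.filter (fun t => marg CH (U' ⊔ spn lam Γ) (lam t) < marg CH U' (lam t))).card ≤
        4 * CH * M ^ 2 * Γ.card := by
    intro Γ
    have h1 := hadd (U' ⊔ spn lam Γ) Γ.card le_sup_left (dO_sup_spn _ _ _ _)
    have h2 := oext_pot_drop lam CH M (le_sup_left : U' ≤ U' ⊔ spn lam Γ)
      (univ.filter (fun t => marg CH (U' ⊔ spn lam Γ) (lam t) < marg CH U' (lam t))) 1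
      (fun t ht => by
        have h3 := (mem_filter.1 ht).2
        obtain ⟨a, b, -⟩ := oext_term_anti lam CH M (le_sup_left : U' ≤ U' ⊔ spn lam Γ) t
        unfold oextTerm
        omega)
    omega
  have he3 : ∀ Γ : Finset T,
      (univ.filter (fun e => 9 * CH ≤ wtm U' (lam e) ∧ MovedS U' lam CH Γ e)).card ≤
        8 * CH * M ^ 2 * Γ.card := by
    intro Γ
    have hle : U' ≤ HtS U' lam CH Γ := le_sup_left.trans le_sup_left
    have h1 := hdel (U' ⊔ spn lam Γ) (JtS U' lam CH Γ) le_sup_left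
    have h2 : dO (U' ⊔ spn lam Γ) (Y'ᶜ ∪ JtS U' lam CH Γ) ≤ dO U' Y'ᶜ + Γ.card :=
      (dO_anti _ subset_union_left).trans (dO_sup_spn _ _ _ _)
    have h3 : (JtS U' lam CH Γ \ Y'ᶜ).card ≤ 2 * (2 * CH) * Γ.card :=
      card_Jmax (C := 2 * CH) (by omega) hco (hsafe.mono (by omega)) le_sup_left
        (dO_sup_spn _ _ _ _)
    have h4 := oext_pot_drop lam CH M hle
      (univ.filter (fun e => 9 * CH ≤ wtm U' (lam e) ∧ MovedS U' lam CH Γ e)) 1
      (fun e he => by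
        obtain ⟨g1, g2⟩ := (mem_filter.1 he).2
        obtain ⟨a, b, c⟩ := oext_term_anti lam CH M hle e
        rcases g2 with g2 | ⟨t, u, hu, g2⟩
        · have g3 : min (9 * CH) (wtm (HtS U' lam CH Γ) (lam e)) + 1 ≤
              min (9 * CH) (wtm U' (lam e)) := by omega
          have g4 := Nat.mul_le_mul_left M g3
          rw [mul_add] at g4
          unfold oextTerm
          omega
        · have g3 := oext_psi_lt lam CH hle e t hu g2
          have g4 := (oext_psi_le lam CH U' e).trans (Nat.mul_le_mul_right _ (hmid e g1))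
          have g5 : 4 * M * (p * (4 * CH + 1)) = 4 * M * p * (4 * CH + 1) := by ring
          unfold oextTerm
          omega)
    have h5 := Nat.mul_le_mul_left (4 * CH * M ^ 2) h2
    have h6 := Nat.mul_le_mul_left (M ^ 2) h3
    have h7 : M ^ 2 * (2 * (2 * CH) * Γ.card) = 4 * CH * M ^ 2 * Γ.card := by ring
    have h8 : 8 * CH * M ^ 2 * Γ.card = 2 * (4 * CH * M ^ 2 * Γ.card) := by ring
    rw [mul_add] at h5
    change _ ≤ ∑ t, oextTerm lam CH M (HtS U' lam CH Γ) t + _ + _ at h1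
    omega
  have hsupp : ∀ d : Vec p X, Disjoint (supp d) Y'ᶜ → supp d ⊆ Y' := by
    intro d hd i hi
    by_contra hn
    exact disjoint_left.1 hd hi (mem_compl.2 hn)
  have hrep : ∀ e t : T, ∃ (u : ZMod p) (d : Vec p X), t ∈ MidS U' lam CH e →
      u ≠ 0 ∧ lam t - u • lam e - d ∈ U' ∧ supp d ⊆ Y' ∧
        wt d = wtm U' (lam t - u • lam e) ∧ wt d ≤ 4 * CH := by
    intro e t
    by_cases ht : t ∈ MidS U' lam CH e
    · obtain ⟨u, hu, hw⟩ := (mem_filter.1 ht).2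
      obtain ⟨d, h1, h2, h3⟩ := exists_rep hco (lam t - u • lam e)
      exact ⟨u, d, fun _ => ⟨hu, h1, hsupp d h2, h3, h3.le.trans hw⟩⟩
    · exact ⟨0, 0, fun h => absurd h ht⟩
  have hrepl : ∀ t : T, ∃ d : Vec p X,
      lam t - d ∈ U' ∧ supp d ⊆ Y' ∧ wt d = wtm U' (lam t) := by
    intro t
    obtain ⟨d, h1, h2, h3⟩ := exists_rep hco (lam t)
    exact ⟨d, h1, hsupp d h2, h3⟩
  choose uu dd hud using hrep
  choose dl hdl using hrepl
  refine ⟨⟨lam, Y', U', CH, r, 4 * M, 4 * CH * M ^ 2, 8 * CH * M ^ 2, uu, dd, dl, hr, hco, hsafe,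
    hmid, he2, he3, fun e t ht => hud e t ht, hdl⟩, rfl, rfl, rfl, rfl, rfl, rfl, hY1, hU1, ?_⟩
  have h1 := hmin Y U (Subset.refl _) le_rfl hY
  have h2 := oext_pot_le lam hC hM U
  rw [sdiff_self] at h1
  change 4 * CH * M ^ 2 * dO U' Y'ᶜ + M ^ 2 * (Y \ Y').card ≤ _
  simp only [bot_eq_empty, card_empty, mul_zero, add_zero] at h1
  omega

end Pool.Agent.P.MP_85fe51_lc.OD
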