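import Pool.Agent.P.MP_85fe51_lc.OLinkA
import Pool.Agent.P.MP_85fe51_lc.OEw

set_option autoImplicit false
set_option linter.unusedSectionVars false

namespace Pool.Agent.P.MP_85fe51_lc.OD

open Finset
open scoped Classical

variable {p : ℕ} [Fact p.Prime] {X : Type} [Fintype X] [DecidableEq X] {T : Type} [Fintype T]
  {k j : ℕ} {V : Type} [AddCommGroup V]

theorem olink_sv_update (P : Pat k j) (δ : Vec p X) (ω : Cp k j → Finset X × ZMod p)
    (B : Finset X) (s0 : ZMod p) (ε : Fin k → Bool) :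
    sval P (fun κ => (Function.update ω (Sum.inl P.a0) (B, s0) κ).2 +
      dot δ (Function.update ω (Sum.inl P.a0) (B, s0) κ).1) ε =
    s0 + dot δ B +
      sval P (Function.update (fun κ => (ω κ).2 + dot δ (ω κ).1) (Sum.inl P.a0) 0) ε := by
  rw [← sval_update_a0]
  congr 1
  funext κ
  by_cases h : κ = Sum.inl P.a0
  · subst h
    simp
  · simp [Function.update_of_ne h]

theorem olink_fsurv_update (P : Pat k j) (δ : Vec p X) (ω : Cp k j → Finset X × ZMod p)
    (y : Finset X × ZMod p) :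
    FSurv P δ (Function.update ω (Sum.inl P.a0) y) ↔ FSurv P δ ω := by
  unfold FSurv
  refine forall_congr' (fun b => ?_)
  rw [Function.update_of_ne (P.cp_ne_inl b false P.a0_mem_Sg),
    Function.update_of_ne (P.cp_ne_inl b true P.a0_mem_Sg)]

theorem olink_single_le {Ω : Type} (s : Finset Ω) (g : Ω → ℝ) (hg : ∀ x ∈ s, 0 ≤ g x) {x0 : Ω}
    (hx : x0 ∈ s) : g x0 / s.card ≤ s.expect g := by
  rw [Finset.expect_eq_sum_div_card]
  exact div_le_div_of_nonneg_right (Finset.single_le_sum hg hx) (Nat.cast_nonneg _)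

theorem olink_pr_update {Ω κ : Type} [Fintype κ] [DecidableEq κ] (K : κ → Finset Ω) (i : κ)
    (S E : (κ → Ω) → Prop) {c : ℝ}
    (h : ∀ ω ∈ Fintype.piFinset K, S ω → c ≤ pr (K i) (fun y => E (Function.update ω i y))) :
    pr (Fintype.piFinset K) S * c ≤ pr (Fintype.piFinset K) E := by
  have h1 : pr (Fintype.piFinset K) E = (Fintype.piFinset K).expect
      (fun ω => pr (K i) (fun y => E (Function.update ω i y))) := expect_update K i _
  rw [h1]
  unfold pr at h ⊢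
  rw [Finset.expect_mul]
  refine Finset.expect_le_expect (fun ω hω => ?_)
  by_cases hs : S ω
  · rw [if_pos hs, one_mul]
    exact h ω hω hs
  · rw [if_neg hs, zero_mul]
    exact pr_nonneg (K i) (fun y => E (Function.update ω i y))

theorem olink_pr_prod {Ω Ω' : Type} (A : Finset Ω) (B : Finset Ω') (hB : B.Nonempty)
    (E : Ω × Ω' → Prop) {c : ℝ} (h : ∀ b ∈ B, c ≤ pr A (fun a => E (a, b))) :
    c ≤ pr (A ×ˢ B) E := by
  unfold pr at h ⊢
  rw [Finset.expect_product, Finset.expect_comm]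
  exact Finset.le_expect hB h

theorem olink_pr_union {a b : Finset X} (hab : Disjoint a b) (E : Finset X → Prop) {c : ℝ}
    (h : ∀ R, R ⊆ a → c ≤ pr b.powerset (fun B => E (R ∪ B))) :
    c ≤ pr (a ∪ b).powerset E := by
  have h1 : pr (a ∪ b).powerset E = a.powerset.expect
      (fun R => pr b.powerset (fun B => E (R ∪ B))) := expect_powerset_union hab _
  rw [h1]
  exact Finset.le_expect (powerset_nonempty _) (fun R hR => h R (mem_powerset.1 hR))

theorem olink_pr_single {a b : Finset X} (hab : Disjoint a b) (E : Finset X → Prop) {c : ℝ}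
    {R : Finset X} (hR : R ⊆ a) (h : c ≤ pr b.powerset (fun B => E (R ∪ B))) :
    (1 / 2) ^ a.card * c ≤ pr (a ∪ b).powerset E := by
  have h1 : pr (a ∪ b).powerset E = a.powerset.expect
      (fun R => pr b.powerset (fun B => E (R ∪ B))) := expect_powerset_union hab _
  rw [h1]
  refine le_trans ?_ (olink_single_le _ _ (fun β _ => pr_nonneg _ _) (mem_powerset.2 hR))
  rw [card_powerset, one_div_pow, mul_comm, mul_one_div]
  push_cast
  exact div_le_div_of_nonneg_right h (by positivity)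

theorem olink_SZ_sum {Λ : Type} (L : Finset Λ) (n : Λ → ℤ) (f : Λ → ZMod p → V)
    (hf : ∀ l ∈ L, SZ (f l)) : SZ (fun y => ∑ l ∈ L, n l • f l y) := by
  unfold SZ
  rw [Finset.sum_comm]
  refine Finset.sum_eq_zero (fun l hl => ?_)
  rw [← Finset.smul_sum, hf l hl, smul_zero]

theorem olink_use_subset (P : Pat k j) (Y : Finset X) (l : X → Lab k j) {J : Finset X}
    (hJ : J ⊆ atomSet Y l P.a0) (x : Cp k j → Finset X) (hx : ∀ κ, x κ ⊆ cset P Y l κ)
    (h0 : Disjoint (x (Sum.inl P.a0)) J) (ε : Fin k → Bool) : useSet P x ε ⊆ Y \ J := by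
  intro i hi
  unfold useSet at hi
  rw [mem_union, mem_biUnion, mem_biUnion] at hi
  rw [mem_sdiff]
  rcases hi with ⟨a, _, hi⟩ | ⟨b, _, hi⟩
  · have h1 : i ∈ atomSet Y l a := hx (Sum.inl a) hi
    refine ⟨atomSet_subset Y l a h1, fun hJi => ?_⟩
    by_cases ha : a = P.a0
    · subst ha
      exact disjoint_left.1 h0 hi hJi
    · exact disjoint_left.1 (atomSet_disjoint Y l ha) h1 (hJ hJi)
  · have h1 : i ∈ atomSet Y l (P.ab b) := by
      have := hx _ hi
      unfold cset at this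
      rwa [P.atm_cp] at this
    exact ⟨atomSet_subset Y l _ h1, fun hJi =>
      disjoint_left.1 (atomSet_disjoint Y l (P.a0_ne_ab b)) (hJ hJi) h1⟩

namespace Ext
variable (σ : Ext p X T) (P : Pat k j) (phi : T → ZMod p → V)

theorem olink_supp_de {t0 t : T} (ht : t ∈ σ.Mid t0) : supp (σ.de t0 t) ⊆ σ.Y := by
  intro i hi
  refine (σ.rep t0 t ht).2.2.1 ?_
  rw [mem_supp] at hi ⊢
  intro h
  apply hi
  unfold de
  rw [Pi.smul_apply, h, smul_zero]

theorem olink_mul_dot {t0 t : T} (ht : t ∈ σ.Mid t0) (A : Finset X) :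
    σ.uu t0 t * dot (σ.de t0 t) A = dot (σ.dd t0 t) A := by
  unfold de
  rw [dot_smul, ← mul_assoc, mul_inv_cancel₀ (σ.rep t0 t ht).1, one_mul]

/-- the last step: a nonzero certificate value makes `Phi` nonzero on many subsets of `Tp`. -/
theorem olink_last (hphi : ∀ t, SZ (phi t)) (hN : NoP p V) (Tp : Finset X) {t0 : T}
    (h0 : σ.Heavy t0) {E1 : ℕ} (hE : 2 * ((p : ℝ) - 1) ^ E1 ≤ (p : ℝ) ^ E1)
    {Λ : Type} [Fintype Λ] (n : Λ → ℤ) (s : Λ → ZMod p) (z : Λ → Finset X)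
    (hz : ∀ l, z l ⊆ Tp ∩ σ.Y) (W : T → ZMod p → V)
    (hW : ∀ t y, W t y = ∑ l, n l • phi t (σ.uu t0 t * (y + s l) + dot (σ.dd t0 t) (z l)))
    (hW0 : ∀ t ∈ σ.Mid t0, t ∉ σ.LCl t0 → ∀ y, W t y = 0)
    (ω : Cp k j → Finset X × ZMod p) (B : Finset X) (s0 : ZMod p) (hB : Disjoint B (Tp ∩ σ.Y))
    (base : T → (Fin k → Bool) → ZMod p)
    (hbase : ∀ t ε, base t ε = sval P (Function.update
      (fun κ => (ω κ).2 + dot (σ.de t0 t) (ω κ).1) (Sum.inl P.a0) 0) ε)
    {y0 : ZMod p} (hy : ∑ ε : Fin k → Bool, sgn ε • ∑ t ∈ σ.LCl t0,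
      W t (y0 + (s0 + dot (σ.de t0 t) B + base t ε)) ≠ 0) :
    1 / (σ.M4 : ℝ) ^ E1 ≤ pr (Tp ∩ σ.Y).powerset (fun Z =>
      (∃ t ∈ σ.LCl t0, FSurv P (σ.de t0 t) (Function.update ω (Sum.inl P.a0) (B ∪ Z, s0))) ∧
        ∃ y, Phi P phi (σ.Mid t0) (σ.uu t0) (σ.dd t0)
          (Function.update ω (Sum.inl P.a0) (B ∪ Z, s0)) y ≠ 0) := by
  have hu : ∀ t ∈ σ.Mid t0, σ.uu t0 t ≠ 0 := fun t ht => (σ.rep t0 t ht).1
  have hsurv : ∃ t ∈ σ.LCl t0, FSurv P (σ.de t0 t) ω := by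
    by_contra hcon
    apply hy
    simp only [Finset.smul_sum]
    rw [Finset.sum_comm]
    refine Finset.sum_eq_zero (fun t ht => ?_)
    have h1 : ¬ FSurv P (σ.de t0 t) ω := fun h => hcon ⟨t, ht, h⟩
    unfold FSurv at h1
    rw [not_forall] at h1
    obtain ⟨b, hb⟩ := h1
    rw [not_not] at hb
    have h2 := sum_sgn_sval P (W t) (Function.update
      (fun κ => (ω κ).2 + dot (σ.de t0 t) (ω κ).1) (Sum.inl P.a0) 0) (b := b) (by
        rw [Function.update_of_ne (P.cp_ne_inl b false P.a0_mem_Sg),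
          Function.update_of_ne (P.cp_ne_inl b true P.a0_mem_Sg)]
        exact hb) (y0 + (s0 + dot (σ.de t0 t) B))
    rw [← h2]
    refine Finset.sum_congr rfl (fun ε _ => ?_)
    rw [hbase, add_assoc y0]
  let w' : T → ZMod p → V := fun t y => ∑ ε : Fin k → Bool, sgn ε •
    phi t (σ.uu t0 t * (y + (s0 + dot (σ.de t0 t) B + base t ε)))
  have hw' : ∀ t ∈ σ.Mid t0, SZ (w' t) := by
    intro t ht
    refine olink_SZ_sum univ sgn (fun ε y =>
      phi t (σ.uu t0 t * (y + (s0 + dot (σ.de t0 t) B + base t ε)))) (fun ε _ => ?_)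
    have := (hphi t).shift (hu t ht) (σ.uu t0 t * (s0 + dot (σ.de t0 t) B + base t ε))
    simpa only [mul_add] using this
  have hex : ∃ A, A ⊆ Tp ∩ σ.Y ∧ ∃ y, ∑ t ∈ σ.Mid t0, w' t (y + dot (σ.de t0 t) A) ≠ 0 := by
    by_contra hcon
    apply hy
    have h1 : ∀ l, ∑ t ∈ σ.Mid t0, w' t (y0 + s l + dot (σ.de t0 t) (z l)) = 0 := by
      intro l
      by_contra h
      exact hcon ⟨z l, hz l, y0 + s l, h⟩
    have h2 : ∑ l, n l • ∑ t ∈ σ.Mid t0, w' t (y0 + s l + dot (σ.de t0 t) (z l)) = 0 :=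
      Finset.sum_eq_zero (fun l _ => by rw [h1 l, smul_zero])
    have h3 : ∀ t ∈ σ.Mid t0, ∑ l, n l • w' t (y0 + s l + dot (σ.de t0 t) (z l)) =
        ∑ ε : Fin k → Bool, sgn ε • W t (y0 + (s0 + dot (σ.de t0 t) B + base t ε)) := by
      intro t ht
      simp only [w', hW, Finset.smul_sum]
      rw [Finset.sum_comm]
      refine Finset.sum_congr rfl (fun ε _ => Finset.sum_congr rfl (fun l _ => ?_))
      rw [smul_comm, ← σ.olink_mul_dot ht]
      congr 3
      ring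
    simp only [Finset.smul_sum] at h2 ⊢
    rw [Finset.sum_comm] at h2 ⊢
    rw [← h2, Finset.sum_congr rfl h3]
    refine Finset.sum_subset (σ.LCl_subset t0) (fun t ht ht' => ?_)
    exact Finset.sum_eq_zero (fun ε _ => by rw [hW0 t ht ht', smul_zero])
  refine (uncert hN (Tp ∩ σ.Y) (σ.Mid t0) w' hw' (σ.de t0) hex (σ.mid t0 h0) hE).trans ?_
  refine pr_mono _ (fun Z hZ hy' => ?_)
  rw [mem_powerset] at hZ
  obtain ⟨t, ht, hs⟩ := hsurv
  refine ⟨⟨t, ht, (olink_fsurv_update P _ ω _).2 hs⟩, ?_⟩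
  obtain ⟨y, hy'⟩ := hy'
  refine ⟨y, ?_⟩
  rw [Phi_eq P phi _ _ hu]
  refine fun h => hy' ?_
  rw [← h]
  refine Finset.sum_congr rfl (fun t _ => Finset.sum_congr rfl (fun ε _ => ?_))
  have h4 := olink_sv_update P (σ.de t0 t) ω (B ∪ Z) s0 ε
  unfold de at h4
  rw [h4, dot_union _ (hB.mono_right hZ), hbase]
  unfold de
  congr 3
  ring

end Ext

end Pool.Agent.P.MP_85fe51_lc.OD
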