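import Pool.Agent.P.MP_85fe51_lc.OLinkA
import Pool.Agent.P.MP_85fe51_lc.OEw
import Pool.Agent.P.MP_85fe51_lc.OLink0

set_option autoImplicit false

namespace Pool.Agent.P.MP_85fe51_lc.OD

open Finset
open scoped Classical

variable {p : ℕ} [Fact p.Prime] {X : Type} [Fintype X] [DecidableEq X] {T : Type} [Fintype T]
  {k j : ℕ} {V : Type} [AddCommGroup V]

namespace Ext
variable (σ : Ext p X T) (P : Pat k j) (phi : T → ZMod p → V)

/-- the certificate for fixed labels. -/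
theorem link_fix (hphi : ∀ t, SZ (phi t)) (hN : NoP p V) (Tp : Finset X) {t0 : T}
    (h0 : σ.Heavy t0) (hc : σ.Cert phi Tp t0) {E1 : ℕ}
    (hE : 2 * ((p : ℝ) - 1) ^ E1 ≤ (p : ℝ) ^ E1) :
    ∃ I : Finset X, I ⊆ σ.Y \ Tp ∧ p ^ I.card ≤ (p - 1) ^ I.card * σ.M4 ∧
      ∀ l : X → Lab k j, (∀ i ∈ Tp, l i = some (P.a0, false)) →
        (∀ i ∈ I, l i = some (P.a0, false)) →
        piK p k * (1 / 2) ^ I.card / (σ.M4 : ℝ) ^ E1 ≤ pr (FSp p (cset P σ.Y l)) (fun ω =>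
          (∃ t ∈ σ.LCl t0, FSurv P (σ.de t0 t) ω) ∧
            ∃ y, Phi P phi (σ.Mid t0) (σ.uu t0) (σ.dd t0) ω y ≠ 0) := by
  obtain ⟨Λ, _, n, s, z, hz, ⟨y1, hy1⟩, hk⟩ := hc
  have hu : ∀ t ∈ σ.Mid t0, σ.uu t0 t ≠ 0 := fun t ht => (σ.rep t0 t ht).1
  let W : T → ZMod p → V := fun t y =>
    ∑ l, n l • phi t (σ.uu t0 t * (y + s l) + dot (σ.dd t0 t) (z l))
  have hWs : ∀ t ∈ σ.LCl t0, SZ (W t) := by
    intro t ht
    refine olink_SZ_sum univ n (fun l y =>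
      phi t (σ.uu t0 t * (y + s l) + dot (σ.dd t0 t) (z l))) (fun l _ => ?_)
    have := (hphi t).shift (hu t (σ.LCl_subset t0 ht))
      (σ.uu t0 t * s l + dot (σ.dd t0 t) (z l))
    simpa only [mul_add, add_assoc] using this
  obtain ⟨I, μ, w0, hI, hw0, hw0', hcard, hst⟩ := struct_lemma hN (σ.Y \ Tp) (σ.LCl t0) W hWs
    (σ.de t0) ⟨∅, empty_subset _, y1, by
      simp only [dot_empty, add_zero, W]
      rw [Finset.sum_comm]
      simpa only [Finset.smul_sum] using hy1⟩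
  have hL : (σ.LCl t0).card ≤ σ.M4 := (card_le_card (σ.LCl_subset t0)).trans (σ.mid t0 h0)
  refine ⟨I, hI, hcard.trans (Nat.mul_le_mul_left _ hL), fun l hl1 hl2 => ?_⟩
  have hIT : Disjoint I (Tp ∩ σ.Y) := disjoint_left.2 (fun i hi hi' =>
    (mem_sdiff.1 (hI hi)).2 (mem_inter.1 hi').1)
  have hJ : I ∪ Tp ∩ σ.Y ⊆ atomSet σ.Y l P.a0 := by
    intro i hi
    unfold atomSet
    rw [mem_filter]
    rcases mem_union.1 hi with h | h
    · exact ⟨(mem_sdiff.1 (hI h)).1, Or.inl (hl2 i h)⟩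
    · exact ⟨(mem_inter.1 h).2, Or.inl (hl1 i (mem_inter.1 h).1)⟩
  rw [mul_div_assoc, ← fsurv_eq P (cset P σ.Y l) μ]
  unfold FSp
  refine olink_pr_update _ (Sum.inl P.a0) _ _ (fun ω hω hs => ?_)
  refine olink_pr_prod _ _ univ_nonempty _ (fun s0 _ => ?_)
  have hset : cset P σ.Y l (Sum.inl P.a0) =
      (atomSet σ.Y l P.a0 \ (I ∪ Tp ∩ σ.Y)) ∪ (I ∪ Tp ∩ σ.Y) := (sdiff_union_of_subset hJ).symm
  rw [hset]
  refine olink_pr_union sdiff_disjoint _ (fun R hR => ?_)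
  have hRJ : Disjoint R (I ∪ Tp ∩ σ.Y) := sdiff_disjoint.mono_left hR
  have hx : ∀ κ, (Function.update ω (Sum.inl P.a0) (R, s0) κ).1 ⊆ cset P σ.Y l κ := by
    intro κ
    by_cases h : κ = Sum.inl P.a0
    · subst h
      rw [Function.update_self]
      exact hR.trans sdiff_subset
    · rw [Function.update_of_ne h]
      exact mem_powerset.1 (mem_product.1 (Fintype.mem_piFinset.1 hω κ)).1
  have hA : ∀ ε, useSet P (fun κ => (Function.update ω (Sum.inl P.a0) (R, s0) κ).1) ε ⊆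
      (σ.Y \ Tp) \ I := by
    intro ε i hi
    have h1 := olink_use_subset P σ.Y l hJ _ hx (by rw [Function.update_self]; exact hRJ) ε hi
    simp only [mem_sdiff, mem_union, mem_inter, not_or, not_and] at h1 ⊢
    exact ⟨⟨h1.1, fun h => h1.2.2 h h1.1⟩, h1.2.1⟩
  have hsv : ∀ (δ : Vec p X) ε,
      sval P (fun κ => (Function.update ω (Sum.inl P.a0) (R, s0) κ).2) ε +
        dot δ (useSet P (fun κ => (Function.update ω (Sum.inl P.a0) (R, s0) κ).1) ε) =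
      sval P (fun κ => (Function.update ω (Sum.inl P.a0) (R, s0) κ).2 +
        dot δ (Function.update ω (Sum.inl P.a0) (R, s0) κ).1) ε := by
    intro δ ε
    rw [sval_add, ← val_eq_dot P σ.Y l δ hx]
    rfl
  have hβ : ∃ β, β ⊆ I ∧ ∃ y, ∑ ε : Fin k → Bool, sgn ε • ∑ t ∈ σ.LCl t0,
      W t (y + sval P (fun κ => (Function.update ω (Sum.inl P.a0) (R, s0) κ).2) ε +
        dot (σ.de t0 t)
          (useSet P (fun κ => (Function.update ω (Sum.inl P.a0) (R, s0) κ).1) ε ∪ β)) ≠ 0 := by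
    by_contra hcon
    have h1 := hst (Fin k → Bool) sgn
      (fun ε => sval P (fun κ => (Function.update ω (Sum.inl P.a0) (R, s0) κ).2) ε) _ hA
      (fun β hβ y => by
        by_contra h
        exact hcon ⟨β, hβ, y, h⟩)
    obtain ⟨y, hy⟩ := sum_sgn_sval_ne P hN hw0 hw0'
      (fun κ => (Function.update ω (Sum.inl P.a0) (R, s0) κ).2 +
        dot μ (Function.update ω (Sum.inl P.a0) (R, s0) κ).1)
      ((olink_fsurv_update P μ ω (R, s0)).2 hs)
    apply hy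
    rw [← h1 y]
    refine Finset.sum_congr rfl (fun ε _ => ?_)
    rw [add_assoc, hsv]
  obtain ⟨β, hβ, y0, hy0⟩ := hβ
  have hRβ : Disjoint R β := hRJ.mono_right (hβ.trans subset_union_left)
  have hlast := σ.olink_last P phi hphi hN Tp h0 hE n s z hz W (fun _ _ => rfl) hk ω (R ∪ β) s0
    (disjoint_union_left.2 ⟨hRJ.mono_right subset_union_right, hIT.mono_left hβ⟩)
    _ (fun _ _ => rfl) (y0 := y0) (by
      refine fun h => hy0 ?_
      rw [← h]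
      refine Finset.sum_congr rfl (fun ε _ => ?_)
      congr 1
      refine Finset.sum_congr rfl (fun t _ => ?_)
      have hd : Disjoint
          (useSet P (fun κ => (Function.update ω (Sum.inl P.a0) (R, s0) κ).1) ε) β :=
        disjoint_left.2 (fun i hi hi' => (mem_sdiff.1 (hA ε hi)).2 (hβ hi'))
      rw [dot_union _ hd, ← add_assoc, add_assoc y0, hsv, olink_sv_update, dot_union _ hRβ]
      congr 1
      ring)
  rw [div_eq_mul_one_div]
  refine olink_pr_single hIT _ hβ ?_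
  simpa only [union_assoc] using hlast

theorem link (hphi : ∀ t, SZ (phi t)) (hN : NoP p V) (Tp : Finset X) {w : X → Lab k j → ℝ}
    (hw : IsW w) (hw1 : ∀ i ∈ Tp, ∀ a, w i a ≠ 0 → a = some (P.a0, false)) {α ρ : ℝ}
    (hα0 : 0 < α) (hα1 : α ≤ 1) (hρ1 : ρ ≤ 1) (hw0 : ∀ i, i ∉ Tp → α ≤ w i (some (P.a0, false)))
    (hwρ : ∀ i, i ∉ Tp → ∀ b, ρ ≤ w i (some (P.ab b, false)) + w i (some (P.ab b, true)))
    {E1 : ℕ} (hE : 2 / α * ((p : ℝ) - 1) ^ E1 ≤ (p : ℝ) ^ E1) {t0 : T}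
    (h0 : 9 * σ.CH + σ.r ≤ wtm σ.U (σ.lam t0))
    (hfar : ∀ t ∈ σ.Mid t0, ∀ t' ∈ σ.Mid t0, σ.r < wt (σ.de t0 t - σ.de t0 t') →
      σ.r ≤ 2 * (supp (σ.de t0 t - σ.de t0 t') \ Tp).card)
    (hc : σ.Cert phi Tp t0) :
    ∃ t1 ∈ σ.LCl t0, σ.Heavy t1 ∧ piK p k / (σ.M4 : ℝ) ^ (2 * E1 + 1) -
      σ.M4 * ((1 - 3 / (2 * p : ℝ)) ^ k + k * (1 - ρ) ^ (σ.r / 2)) ≤ Ew w (σ.pfe P phi t1) := by
  have hH : σ.Heavy t0 := le_trans (Nat.le_add_right _ _) h0
  have hu : ∀ t ∈ σ.Mid t0, σ.uu t0 t ≠ 0 := fun t ht => (σ.rep t0 t ht).1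
  have hp2 : (2 : ℝ) ≤ p := by exact_mod_cast (Fact.out : p.Prime).two_le
  have h2α : (2 : ℝ) ≤ 2 / α := by
    rw [le_div_iff₀ hα0]
    linarith
  have hE' : 2 * ((p : ℝ) - 1) ^ E1 ≤ (p : ℝ) ^ E1 :=
    le_trans (mul_le_mul_of_nonneg_right h2α (pow_nonneg (by linarith) _)) hE
  obtain ⟨I, hI, hcard, hfix⟩ := σ.link_fix P phi hphi hN Tp hH hc hE'
  have hM : (σ.Mid t0).card ≤ σ.M4 := σ.mid t0 hH
  have hM1 : (1 : ℝ) ≤ σ.M4 := by
    have : 1 ≤ σ.M4 := le_trans (card_pos.2 ⟨t0, σ.self_mem_Mid t0⟩) hM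
    exact_mod_cast this
  have hM0 : (0 : ℝ) < σ.M4 := by linarith
  have hpow : (2 / α) ^ I.card ≤ (σ.M4 : ℝ) ^ E1 := pow_le_of_struct (by linarith) hcard hE
  have hπ : 0 < piK p k := piK_pos k
  have hP : α ^ I.card ≤ Pw w (fun l => ∀ i ∈ I, l i = some (P.a0, false)) := by
    rw [Pw_all hw I (fun a => a = some (P.a0, false)), ← Finset.prod_const]
    refine Finset.prod_le_prod (fun _ _ => hα0.le) (fun i hi => ?_)
    refine (hw0 i (mem_sdiff.1 (hI hi)).2).trans ?_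
    exact Finset.single_le_sum (f := w i) (fun a _ => hw.1 i a) (by simp)
  let q : T → (X → Lab k j) → ℝ := fun t l => pr (FSp p (cset P σ.Y l)) (fun ω =>
    FSurv P (σ.de t0 t) ω ∧ ∃ y, Phi P phi (σ.Mid t0) (σ.uu t0) (σ.dd t0) ω y ≠ 0)
  have h1 : piK p k / (σ.M4 : ℝ) ^ (2 * E1) ≤ ∑ t ∈ σ.LCl t0, Ew w (q t) := by
    rw [← Ew_sum]
    have h2 : Ew w (fun l => piK p k * (1 / 2) ^ I.card / (σ.M4 : ℝ) ^ E1 *
        (if ∀ i ∈ I, l i = some (P.a0, false) then 1 else 0)) ≤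
        Ew w (fun l => ∑ t ∈ σ.LCl t0, q t l) := by
      refine Ew_mono hw (fun l hl => ?_)
      split_ifs with h
      · rw [mul_one]
        refine (hfix l (fun i hi => hw1 i hi _ (hl i)) h).trans ?_
        refine le_trans (pr_mono _ ?_) (pr_exists_le _ (σ.LCl t0) (fun t ω =>
          FSurv P (σ.de t0 t) ω ∧ ∃ y, Phi P phi (σ.Mid t0) (σ.uu t0) (σ.dd t0) ω y ≠ 0))
        rintro ω _ ⟨⟨t, ht, hs⟩, hy⟩
        exact ⟨t, ht, hs, hy⟩
      · rw [mul_zero]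
        exact Finset.sum_nonneg (fun t _ => pr_nonneg _ _)
    refine le_trans ?_ h2
    rw [Ew_mul]
    unfold Pw at hP
    have h3 : piK p k / (σ.M4 : ℝ) ^ (2 * E1) ≤
        piK p k * (1 / 2) ^ I.card / (σ.M4 : ℝ) ^ E1 * α ^ I.card := by
      have h4 : 1 / (σ.M4 : ℝ) ^ E1 ≤ (1 / 2) ^ I.card * α ^ I.card := by
        rw [← mul_pow]
        have h5 : (1 / 2 * α : ℝ) = 1 / (2 / α) := by field_simp
        rw [h5, one_div_pow]
        exact one_div_le_one_div_of_le (by positivity) hpow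
      calc piK p k / (σ.M4 : ℝ) ^ (2 * E1)
          = piK p k / (σ.M4 : ℝ) ^ E1 * (1 / (σ.M4 : ℝ) ^ E1) := by
            rw [two_mul, pow_add]
            field_simp
        _ ≤ piK p k / (σ.M4 : ℝ) ^ E1 * ((1 / 2) ^ I.card * α ^ I.card) :=
            mul_le_mul_of_nonneg_left h4 (by positivity)
        _ = _ := by ring
    refine h3.trans (mul_le_mul_of_nonneg_left (hP.trans (le_of_eq ?_)) (by positivity))
    congr 1
    funext l
    congr
  have h6 : ∃ t1 ∈ σ.LCl t0, piK p k / (σ.M4 : ℝ) ^ (2 * E1 + 1) ≤ Ew w (q t1) := by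
    by_contra hcon
    have hlt : ∀ t ∈ σ.LCl t0, Ew w (q t) < piK p k / (σ.M4 : ℝ) ^ (2 * E1 + 1) :=
      fun t ht => not_le.1 (fun h => hcon ⟨t, ht, h⟩)
    have hpos : 0 < piK p k / (σ.M4 : ℝ) ^ (2 * E1) := by positivity
    rcases (σ.LCl t0).eq_empty_or_nonempty with he | hne
    · rw [he, Finset.sum_empty] at h1
      linarith
    · have h7 := Finset.sum_lt_sum_of_nonempty hne hlt
      rw [Finset.sum_const, nsmul_eq_mul] at h7
      have h8 : ((σ.LCl t0).card : ℝ) ≤ σ.M4 := by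
        exact_mod_cast (card_le_card (σ.LCl_subset t0)).trans hM
      have h9 : ((σ.LCl t0).card : ℝ) * (piK p k / (σ.M4 : ℝ) ^ (2 * E1 + 1)) ≤
          piK p k / (σ.M4 : ℝ) ^ (2 * E1) := by
        refine (mul_le_mul_of_nonneg_right h8 (by positivity)).trans (le_of_eq ?_)
        rw [pow_succ]
        field_simp
      linarith
  obtain ⟨t1, ht1, h6⟩ := h6
  have ht1' : t1 ∈ σ.Mid t0 := σ.LCl_subset t0 ht1
  refine ⟨t1, ht1, (σ.recentre P phi h0 ht1 (fun _ => none)).1, ?_⟩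
  let Far : Finset T := (σ.Mid t0).filter (fun t => σ.r < wt (σ.de t0 t - σ.de t0 t1))
  let q2 : T → (X → Lab k j) → ℝ := fun t l => pr (FSp p (cset P σ.Y l)) (fun ω =>
    FSurv P (σ.de t0 t) ω ∧ FSurv P (σ.de t0 t1) ω)
  have hb0 : (0 : ℝ) ≤ (1 - 3 / (2 * p : ℝ)) ^ k + k * (1 - ρ) ^ (σ.r / 2) := by
    have : (3 : ℝ) / (2 * p) ≤ 1 := by
      rw [div_le_one (by linarith)]
      linarith
    exact add_nonneg (pow_nonneg (by linarith) _)
      (mul_nonneg (Nat.cast_nonneg _) (pow_nonneg (by linarith) _))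
  have h10 : ∀ t ∈ Far, Ew w (q2 t) ≤ (1 - 3 / (2 * p : ℝ)) ^ k + k * (1 - ρ) ^ (σ.r / 2) := by
    intro t ht
    obtain ⟨ht', hr⟩ := mem_filter.1 ht
    have h11 := hfar t ht' t1 ht1' hr
    obtain ⟨D, hD, hDc⟩ := Finset.exists_subset_card_eq
      (s := supp (σ.de t0 t - σ.de t0 t1) \ Tp) (n := σ.r / 2) (by omega)
    rw [← hDc]
    refine pair_label P σ.Y hw D hρ1 _ _ (fun i hi => ?_)
      (fun i hi b => hwρ i (mem_sdiff.1 (hD hi)).2 b)
    have h12 := (mem_sdiff.1 (hD hi)).1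
    refine mem_inter.2 ⟨h12, ?_⟩
    by_contra hY
    rw [mem_supp] at h12
    apply h12
    have h13 : σ.de t0 t i = 0 := by
      by_contra h
      exact hY (σ.olink_supp_de ht' (mem_supp.2 h))
    have h14 : σ.de t0 t1 i = 0 := by
      by_contra h
      exact hY (σ.olink_supp_de ht1' (mem_supp.2 h))
    rw [Pi.sub_apply, h13, h14, sub_zero]
  have h15 : Ew w (q t1) ≤ Ew w (fun l => σ.pfe P phi t1 l + ∑ t ∈ Far, q2 t l) := by
    refine Ew_mono hw (fun l _ => ?_)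
    rw [(σ.recentre P phi h0 ht1 l).2]
    refine le_trans ?_ (add_le_add le_rfl (pr_exists_le _ Far (fun t ω =>
      FSurv P (σ.de t0 t) ω ∧ FSurv P (σ.de t0 t1) ω)))
    refine le_trans (pr_mono _ ?_) (pr_or_le _ _ _)
    rintro ω _ ⟨hs, y, hy⟩
    by_cases hf : ∃ t ∈ Far, FSurv P (σ.de t0 t) ω ∧ FSurv P (σ.de t0 t1) ω
    · exact Or.inr hf
    · refine Or.inl ⟨hs, y, ?_⟩
      rw [← Phi_subset P phi (filter_subset _ _) (σ.uu t0) hu (σ.dd t0) ω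
        (fun t ht ht' hst => hf ⟨t, mem_filter.2 ⟨ht,
          not_le.1 (fun h => ht' (mem_filter.2 ⟨ht, h⟩))⟩, hst, hs⟩) y]
      exact hy
  rw [Ew_add, Ew_sum] at h15
  have h16 : ∑ t ∈ Far, Ew w (q2 t) ≤
      σ.M4 * ((1 - 3 / (2 * p : ℝ)) ^ k + k * (1 - ρ) ^ (σ.r / 2)) := by
    refine (Finset.sum_le_card_nsmul _ _ _ h10).trans ?_
    rw [nsmul_eq_mul]
    refine mul_le_mul_of_nonneg_right ?_ hb0
    exact_mod_cast (card_le_card (filter_subset _ _)).trans hM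
  linarith

end Ext

end Pool.Agent.P.MP_85fe51_lc.OD
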