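import Pool.Agent.P.MP_85fe51_lc.OFree
import Pool.Agent.P.MP_85fe51_lc.OFour
import Pool.Agent.P.MP_85fe51_lc.OSt

set_option autoImplicit false

namespace Pool.Agent.P.MP_85fe51_lc.OD

open Finset
open scoped Classical

variable {p : ℕ} [Fact p.Prime] {X : Type} [Fintype X] [DecidableEq X]
  {V : Type} [AddCommGroup V]

theorem olong_pr_pi {Ω κ : Type} [Fintype κ] [DecidableEq κ] (K : κ → Finset Ω)
    (P : κ → Ω → Prop) :
    pr (Fintype.piFinset K) (fun ω => ∀ β, P β (ω β)) = ∏ β, pr (K β) (P β) := by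
  simp only [pr_eq_card]
  have h : (Fintype.piFinset K).filter (fun ω => ∀ β, P β (ω β)) =
      Fintype.piFinset (fun β => (K β).filter (P β)) := by
    ext ω
    simp only [mem_filter, Fintype.mem_piFinset]
    exact ⟨fun h β => ⟨h.1 β, h.2 β⟩, fun h => ⟨fun β => (h β).1, fun β => (h β).2⟩⟩
  rw [prod_div_distrib, ← Nat.cast_prod, ← Nat.cast_prod, ← Fintype.card_piFinset,
    ← Fintype.card_piFinset, ← h]
  congr

theorem olong_avoid (a a' : ZMod p) :
    pr (univ : Finset (ZMod p)) (fun s => s ≠ a ∧ s ≠ a') ≤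
      1 - 2 / (p : ℝ) + 1 / (p : ℝ) * (if a - a' = 0 then 1 else 0) := by
  have hp : (0 : ℝ) < p := by exact_mod_cast (Fact.out : p.Prime).pos
  have h1 := pr_not (univ : Finset (ZMod p)) univ_nonempty (fun s => s ∈ ({a, a'} : Finset _))
  have h2 : pr (univ : Finset (ZMod p)) (fun s => s ≠ a ∧ s ≠ a') ≤
      pr (univ : Finset (ZMod p)) (fun s => ¬ s ∈ ({a, a'} : Finset _)) :=
    pr_mono _ fun s _ h => by simpa [not_or] using h
  have h3 : pr (univ : Finset (ZMod p)) (fun s => s ∈ ({a, a'} : Finset _)) =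
      (({a, a'} : Finset (ZMod p)).card : ℝ) / p := by
    rw [pr_eq_card, card_univ, ZMod.card]
    congr 2
    congr 1
    ext s
    simp
  rw [h1, h3] at h2
  refine h2.trans (le_of_eq ?_)
  by_cases h : a - a' = 0
  · rw [if_pos h, sub_eq_zero.mp h]
    simp
    ring
  · rw [if_neg h, card_pair (sub_ne_zero.mp h)]
    simp

theorem olong_fub {Ω κ : Type} [Fintype κ] [DecidableEq κ] (K : κ → Finset Ω)
    (Q : (κ → Ω) → (κ → ZMod p) → Prop) :
    pr (Fintype.piFinset (fun β => K β ×ˢ (univ : Finset (ZMod p))))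
        (fun ω => Q (fun β => (ω β).1) (fun β => (ω β).2)) =
      (Fintype.piFinset K).expect (fun x => pr univ (Q x)) := by
  unfold pr
  rw [← expect_product']
  refine expect_nbij' (fun ω => (fun β => (ω β).1, fun β => (ω β).2))
    (fun q β => (q.1 β, q.2 β)) ?_ ?_ ?_ ?_ ?_
  · intro ω hω
    simp only [Fintype.mem_piFinset, mem_product, mem_univ, and_true] at hω ⊢
    exact hω
  · intro q hq
    simp only [Fintype.mem_piFinset, mem_product, mem_univ, and_true] at hq ⊢
    exact hq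
  · intro ω _
    rfl
  · intro q _
    rfl
  · intro ω _
    rfl

/-- the set used by the sign vector `ε`. -/
def olongA {n' : ℕ} (z : Finset X) (x : Fin n' → Finset X) (ε : Fin n' → Bool) : Finset X :=
  z ∪ (univ.filter (fun β => ε β = false)).biUnion x

theorem olong_dot {n' : ℕ} (v : Vec p X) {z : Finset X} {x : Fin n' → Finset X}
    (h1 : ∀ β, Disjoint z (x β)) (h2 : ∀ β β', β ≠ β' → Disjoint (x β) (x β'))
    (ε : Fin n' → Bool) :
    dot v (olongA z x ε) = dot v z + ∑ β, if ε β then 0 else dot v (x β) := by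
  unfold olongA
  rw [dot_union v ((disjoint_biUnion_right _ _ _).mpr fun β _ => h1 β),
    dot_biUnion v _ x (fun a _ b _ h => h2 a b h), sum_filter]
  congr 1
  refine sum_congr rfl fun β _ => ?_
  cases ε β <;> simp

/-- the contribution of one character. -/
def olongT {n' : ℕ} {Λ : Type} [Fintype Λ] (w : ZMod p → V) (v : Vec p X) (n : Λ → ℤ)
    (z : Λ → Finset X) (x : Fin n' → Finset X) (s : Fin n' → ZMod p) (b y : ZMod p) : V :=
  ∑ ε : Fin n' → Bool, sgn ε • ∑ l, n l •
    w (b⁻¹ * (y + ∑ β, if ε β then s β else 0) + dot v (olongA (z l) x ε))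

theorem olongT_dead {n' : ℕ} {Λ : Type} [Fintype Λ] (w : ZMod p → V) (v : Vec p X) (n : Λ → ℤ)
    {z : Λ → Finset X} {x : Fin n' → Finset X} (s : Fin n' → ZMod p) {b : ZMod p} (hb : b ≠ 0)
    (h1 : ∀ l β, Disjoint (z l) (x β)) (h2 : ∀ β β', β ≠ β' → Disjoint (x β) (x β'))
    {β : Fin n'} (h : s β = dot (b • v) (x β)) (y : ZMod p) : olongT w v n z x s b y = 0 := by
  rw [← pd_zero (fun c => ∑ l, n l • w (b⁻¹ * c + dot v (z l))) (fun β => dot (b • v) (x β)) s
    h.symm y]
  unfold olongT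
  refine sum_congr rfl fun ε _ => congrArg _ (sum_congr rfl fun l _ => congrArg _ (congrArg _ ?_))
  have e : ∑ β, (if ε β then s β else dot (b • v) (x β)) =
      ∑ β, (if ε β then s β else 0) + b * ∑ β, (if ε β then 0 else dot v (x β)) := by
    rw [mul_sum, ← sum_add_distrib]
    refine sum_congr rfl fun β _ => ?_
    cases ε β <;> simp [dot_smul]
  rw [olong_dot v (h1 l) h2, e]
  field_simp
  ring

theorem olongT_light {n' : ℕ} {Λ : Type} [Fintype Λ] (w : ZMod p → V) (v : Vec p X) (n : Λ → ℤ)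
    {z : Λ → Finset X} {x : Fin n' → Finset X} (s : Fin n' → ZMod p) (b : ZMod p)
    (h1 : ∀ l β, Disjoint (z l) (x β)) (h2 : ∀ β β', β ≠ β' → Disjoint (x β) (x β'))
    (h : ∀ c, ∑ l, n l • w (c + dot v (z l)) = 0) (y : ZMod p) : olongT w v n z x s b y = 0 := by
  unfold olongT
  refine sum_eq_zero fun ε _ => ?_
  have e := h (b⁻¹ * (y + ∑ β, if ε β then s β else 0) + ∑ β, if ε β then 0 else dot v (x β))
  refine Eq.trans (congrArg (fun c => sgn ε • c) (Eq.trans ?_ e)) (smul_zero _)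
  refine sum_congr rfl fun l _ => congrArg _ (congrArg _ ?_)
  rw [olong_dot v (h1 l) h2]
  ring

/-- the embedding of `V` in the sum-zero maps. -/
def olongI (p : ℕ) (v : V) (y : ZMod p) : V := (if y = 0 then p • v else 0) - v

theorem olongI_sz (v : V) : SZ (olongI p v) := by
  unfold SZ olongI
  rw [sum_sub_distrib, sum_ite_eq' univ (0 : ZMod p), if_pos (mem_univ _), sum_const, card_univ,
    ZMod.card, sub_self]

end Pool.Agent.P.MP_85fe51_lc.OD
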