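import Pool.Agent.P.MP_85fe51_lc.OFree
import Pool.Agent.P.MP_85fe51_lc.OFour
import Pool.Agent.P.MP_85fe51_lc.OSt
import Pool.Agent.P.MP_85fe51_lc.OLong0

set_option autoImplicit false

namespace Pool.Agent.P.MP_85fe51_lc.OD

open Finset
open scoped Classical

variable {p : ℕ} [Fact p.Prime] {X : Type} [Fintype X] [DecidableEq X] {T : Type} [Fintype T]
  {V : Type} [AddCommGroup V]

theorem sum_inv_shift {w : ZMod p → V} (hw : SZ w) (y s : ZMod p) :
    ∑ b ∈ univ.erase (0 : ZMod p), w (b⁻¹ * y + s) = (if y = 0 then p • w s else 0) - w s := by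
  by_cases hy : y = 0
  · subst hy
    simp only [mul_zero, zero_add, sum_const, if_true]
    rw [card_erase_of_mem (mem_univ _), card_univ, ZMod.card, eq_sub_iff_add_eq, ← succ_nsmul,
      Nat.sub_add_cancel (Fact.out : p.Prime).one_le]
  · rw [if_neg hy, zero_sub]
    have h1 : ∑ b ∈ univ.erase (0 : ZMod p), w (b⁻¹ * y + s) = ∑ c ∈ univ.erase s, w c := by
      refine sum_nbij' (fun b => b⁻¹ * y + s) (fun c => (c - s)⁻¹ * y) ?_ ?_ ?_ ?_ ?_
      · intro b hb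
        have hb0 : b ≠ 0 := (mem_erase.mp hb).1
        refine mem_erase.mpr ⟨?_, mem_univ _⟩
        intro h
        exact mul_ne_zero (inv_ne_zero hb0) hy (add_eq_right.mp h)
      · intro c hc
        have hc0 : c - s ≠ 0 := sub_ne_zero.mpr (mem_erase.mp hc).1
        exact mem_erase.mpr ⟨mul_ne_zero (inv_ne_zero hc0) hy, mem_univ _⟩
      · intro b hb
        have hb0 : b ≠ 0 := (mem_erase.mp hb).1
        rw [add_sub_cancel_right]
        field_simp
      · intro c hc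
        have hc0 : c - s ≠ 0 := sub_ne_zero.mpr (mem_erase.mp hc).1
        field_simp
        ring
      · intro b _
        rfl
    have h2 := add_sum_erase univ w (mem_univ s)
    rw [h1, eq_neg_iff_add_eq_zero, add_comm, h2]
    exact hw

omit [Fintype X] [DecidableEq X] in
theorem olongI_Sf (lam : T → Vec p X) (phi : T → ZMod p → V) (hphi : ∀ t, SZ (phi t))
    (A : Finset X) (y : ZMod p) :
    olongI p (Sf lam phi A) y =
      ∑ t, ∑ b ∈ univ.erase (0 : ZMod p), phi t (b⁻¹ * y + dot (lam t) A) := by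
  simp only [sum_inv_shift (hphi _)]
  unfold olongI Sf
  rw [sum_sub_distrib]
  congr 1
  split_ifs
  · rw [smul_sum]
  · rw [sum_const_zero]

omit [Fintype X] in
theorem olong_total {n' : ℕ} {Λ : Type} [Fintype Λ] (lam : T → Vec p X) (phi : T → ZMod p → V)
    (hphi : ∀ t, SZ (phi t)) (n : Λ → ℤ) (z : Λ → Finset X) (x : Fin n' → Finset X)
    (s : Fin n' → ZMod p) (y : ZMod p) :
    ∑ ε : Fin n' → Bool, sgn ε • ∑ l, n l •
        olongI p (Sf lam phi (olongA (z l) x ε)) (y + ∑ β, if ε β then s β else 0) =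
      ∑ t, ∑ b ∈ univ.erase (0 : ZMod p), olongT (phi t) (lam t) n z x s b y := by
  unfold olongT
  simp only [olongI_Sf lam phi hphi, smul_sum]
  symm
  refine (sum_congr rfl fun t _ => sum_comm).trans (sum_comm.trans ?_)
  refine sum_congr rfl fun ε _ => ?_
  exact (sum_congr rfl fun t _ => sum_comm).trans sum_comm

theorem olong_nz (hN : NoP p V) {n' : ℕ} {Λ : Type} [Fintype Λ] (lam : T → Vec p X)
    (phi : T → ZMod p → V) (hphi : ∀ t, SZ (phi t)) (n : Λ → ℤ) (z : Λ → Finset X)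
    (h0 : ∑ l, n l • Sf lam phi (z l) ≠ 0) (x : Fin n' → Finset X) :
    piK p n' ≤ pr univ (fun s : Fin n' → ZMod p => ∃ y,
      ∑ t, ∑ b ∈ univ.erase (0 : ZMod p), olongT (phi t) (lam t) n z x s b y ≠ 0) := by
  have h := min_dist hN (fun (ε : Fin n' → Bool) (y : ZMod p) =>
    ∑ l, n l • olongI p (Sf lam phi (olongA (z l) x ε)) y) (by
      intro ε
      unfold SZ
      rw [sum_comm]
      refine sum_eq_zero fun l _ => ?_
      rw [← smul_sum, olongI_sz, smul_zero]) (by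
      intro h
      have h1 := congrFun (congrFun h (fun _ => true)) 1
      apply h0
      simp only [olongI, olongA, one_ne_zero, if_false, zero_sub, smul_neg, sum_neg_distrib,
        Pi.zero_apply, neg_eq_zero] at h1
      simpa using h1)
  refine h.trans (pr_mono _ ?_)
  rintro s _ ⟨y, hy⟩
  exact ⟨y, by rw [← olong_total lam phi hphi]; exact hy⟩

namespace Ext
variable (σ : Ext p X T)

/-- two characters at a large distance rarely survive together. -/
theorem both_le {θ ε : ℝ} (hθ : ThC p θ) (hε : ε ≤ 1 / 12) {n' : ℕ} (bb : Fin n' → Finset X)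
    (hb : ∀ β, bb β ⊆ σ.Y) (he : ∀ β, enum θ σ.U' (bb β) ≤ 1 + ε) (v v' : Vec p X)
    (hc : ∀ β, ∀ u : ZMod p, u ≠ 0 → cenum θ (off σ.Yᶜ (u • (v - v'))) σ.U' (bb β) ≤ ε) :
    pr (Fintype.piFinset (fun β => Ker σ.U (bb β) ×ˢ (univ : Finset (ZMod p))))
      (fun ω => ∀ β, (ω β).2 ≠ dot v (ω β).1 ∧ (ω β).2 ≠ dot v' (ω β).1) ≤
      (1 - 4 / (3 * p : ℝ)) ^ n' := by
  rw [olong_pr_pi (fun β => Ker σ.U (bb β) ×ˢ (univ : Finset (ZMod p)))
    (fun _ q => q.2 ≠ dot v q.1 ∧ q.2 ≠ dot v' q.1)]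
  have hp : (2 : ℝ) ≤ p := by exact_mod_cast (Fact.out : p.Prime).two_le
  have key : ∀ β, pr (Ker σ.U (bb β) ×ˢ (univ : Finset (ZMod p)))
      (fun q => q.2 ≠ dot v q.1 ∧ q.2 ≠ dot v' q.1) ≤ 1 - 4 / (3 * p : ℝ) := by
    intro β
    have h1 := single_le hθ σ.hY (empty_subset (bb β)) ((he β).trans (by linarith)) (v - v')
      (hc β) 0
    rw [← Ker_eq_fib] at h1
    have hne : (Ker σ.U (bb β)).Nonempty := ⟨∅, empty_mem_Ker _ _⟩
    have h2 : pr (Ker σ.U (bb β) ×ˢ (univ : Finset (ZMod p)))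
        (fun q => q.2 ≠ dot v q.1 ∧ q.2 ≠ dot v' q.1) ≤
        (Ker σ.U (bb β)).expect (fun A => 1 - 2 / (p : ℝ) +
          1 / (p : ℝ) * (if dot (v - v') A = 0 then 1 else 0)) := by
      unfold pr
      rw [expect_product]
      refine expect_le_expect fun A _ => ?_
      rw [dot_sub]
      exact olong_avoid (dot v A) (dot v' A)
    rw [expect_add_distrib, expect_const hne, ← mul_expect] at h2
    have h3 : (Ker σ.U (bb β)).expect (fun A => if dot (v - v') A = 0 then (1 : ℝ) else 0) ≤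
        2 / 3 := by
      have h4 : 1 / (p : ℝ) ≤ 1 / 2 := one_div_le_one_div_of_le (by norm_num) hp
      refine le_trans (le_of_eq ?_) (h1.trans (by linarith))
      unfold pr
      exact expect_congr rfl fun A _ => by congr
    have h5 := mul_le_mul_of_nonneg_left h3 (show 0 ≤ 1 / (p : ℝ) by positivity)
    have h6 : 1 - 2 / (p : ℝ) + 1 / (p : ℝ) * (2 / 3) = 1 - 4 / (3 * p : ℝ) := by
      field_simp
      ring
    linarith
  refine (prod_le_prod (fun β _ => pr_nonneg _ _) (fun β _ => key β)).trans (le_of_eq ?_)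
  rw [prod_const, card_univ, Fintype.card_fin]

/-- the certificate built from a good sample. -/
theorem olong_cert (phi : T → ZMod p → V) (Tp : Finset X) {n' : ℕ} {Λ : Type} [Fintype Λ]
    (n : Λ → ℤ) (z : Λ → Finset X) (x : Fin n' → Finset X) (s : Fin n' → ZMod p)
    (hA : ∀ l ε, olongA (z l) x ε ⊆ Tp ∩ σ.Y ∧ KerP σ.U (olongA (z l) x ε)) {t0 : T}
    (hh : σ.Heavy t0) {b0 : ZMod p} (hb0 : b0 ≠ 0) (y0 : ZMod p)
    (h0 : ∑ t, ∑ b ∈ univ.erase (0 : ZMod p), olongT (phi t) (σ.lam t) n z x s b y0 ≠ 0)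
    (hnear : ∀ t b y, b ≠ 0 → olongT (phi t) (σ.lam t) n z x s b y ≠ 0 →
      wtm σ.U (b • σ.lam t - b0 • σ.lam t0) ≤ σ.r) : σ.Cert phi Tp t0 := by
  have hw : ∀ t b y, b ≠ 0 → olongT (phi t) (σ.lam t) n z x s b y ≠ 0 →
      wtm σ.U (σ.lam t - (b⁻¹ * b0) • σ.lam t0) ≤ σ.r := by
    intro t b y hb h
    have e : b • σ.lam t - b0 • σ.lam t0 = b • (σ.lam t - (b⁻¹ * b0) • σ.lam t0) := by
      rw [smul_sub, smul_smul, mul_inv_cancel_left₀ hb]
    rw [← wtm_smul σ.U hb, ← e]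
    exact hnear t b y hb h
  have hterm : ∀ t ∈ σ.Mid t0, ∀ y, ∑ q : (Fin n' → Bool) × Λ, (sgn q.1 * n q.2) •
      phi t (σ.uu t0 t * (y + (b0⁻¹ * (∑ β, if q.1 β then s β else 0) +
        dot (σ.lam t0) (olongA (z q.2) x q.1))) + dot (σ.dd t0 t) (olongA (z q.2) x q.1)) =
      olongT (phi t) (σ.lam t) n z x s (b0 * (σ.uu t0 t)⁻¹) (b0 * y) := by
    intro t ht y
    obtain ⟨hu, hr, -⟩ := σ.rep t0 t ht
    unfold olongT
    rw [Fintype.sum_prod_type]
    refine sum_congr rfl fun ε _ => ?_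
    rw [smul_sum]
    refine sum_congr rfl fun l _ => ?_
    rw [mul_smul, (hA l ε).2.dot_rep hr]
    refine congrArg _ (congrArg _ (congrArg _ ?_))
    field_simp
    ring
  refine ⟨(Fin n' → Bool) × Λ, inferInstance, fun q => sgn q.1 * n q.2,
    fun q => b0⁻¹ * (∑ β, if q.1 β then s β else 0) + dot (σ.lam t0) (olongA (z q.2) x q.1),
    fun q => olongA (z q.2) x q.1, fun q => (hA q.2 q.1).1, ⟨b0⁻¹ * y0, ?_⟩, ?_⟩
  · have hrep : ∀ t b, b ≠ 0 → olongT (phi t) (σ.lam t) n z x s b y0 ≠ 0 →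
        t ∈ σ.LCl t0 ∧ b = b0 * (σ.uu t0 t)⁻¹ := by
      intro t b hb h
      have h1 := hw t b y0 hb h
      obtain ⟨d, hd, hdY, hdw⟩ := exists_rep σ.hY (σ.lam t - (b⁻¹ * b0) • σ.lam t0)
      have hY : supp d ⊆ σ.Y := fun i hi => by
        by_contra hi'
        exact disjoint_left.mp hdY hi (mem_compl.mpr hi')
      have hr := σ.hr
      obtain ⟨m1, m2, m3⟩ := σ.rep_unique hh (mul_ne_zero (inv_ne_zero hb) hb0) hd hY (by omega)
      refine ⟨mem_filter.mpr ⟨m1, by rw [m3, hdw]; exact h1⟩, ?_⟩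
      rw [m2]
      field_simp
    have e : ∑ t, ∑ b ∈ univ.erase (0 : ZMod p), olongT (phi t) (σ.lam t) n z x s b y0 =
        ∑ t ∈ σ.LCl t0, olongT (phi t) (σ.lam t) n z x s (b0 * (σ.uu t0 t)⁻¹) y0 := by
      rw [← sum_subset (subset_univ (σ.LCl t0))]
      · refine sum_congr rfl fun t ht => sum_eq_single_of_mem _ ?_ ?_
        · exact mem_erase.mpr ⟨mul_ne_zero hb0
            (inv_ne_zero (σ.rep t0 t (σ.LCl_subset t0 ht)).1), mem_univ _⟩
        · intro b hb hne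
          by_contra h
          exact hne (hrep t b (mem_erase.mp hb).1 h).2
      · intro t _ ht
        refine sum_eq_zero fun b hb => ?_
        by_contra h
        exact ht (hrep t b (mem_erase.mp hb).1 h).1
    simp only [smul_sum]
    rw [sum_comm, sum_congr rfl fun t ht => hterm t (σ.LCl_subset t0 ht) (b0⁻¹ * y0),
      mul_inv_cancel_left₀ hb0, ← e]
    exact h0
  · intro t ht ht' y
    rw [hterm t ht y]
    by_contra h
    obtain ⟨hu, -, -, hwt, -⟩ := σ.rep t0 t ht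
    have h1 := hw t _ _ (mul_ne_zero hb0 (inv_ne_zero hu)) h
    have e : (b0 * (σ.uu t0 t)⁻¹)⁻¹ * b0 = σ.uu t0 t := by field_simp
    rw [e, ← hwt] at h1
    exact ht' (mem_filter.mpr ⟨ht, h1⟩)

/-- isolating one cluster by long differences. -/
theorem long (phi : T → ZMod p → V) (hphi : ∀ t, SZ (phi t)) (hN : NoP p V) {θ ε : ℝ}
    (hθ : ThC p θ) (hε : ε ≤ 1 / 12) (Tp T2 : Finset X) {n' : ℕ} (bb : Fin n' → Finset X)
    (hT2 : T2 ⊆ Tp ∩ σ.Y) (hb : ∀ β, bb β ⊆ Tp ∩ σ.Y)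
    (hbb : ∀ β β', β ≠ β' → Disjoint (bb β) (bb β')) (hTb : ∀ β, Disjoint T2 (bb β))
    (he : ∀ β, enum θ σ.U' (bb β) ≤ 1 + ε)
    (hc : ∀ β t t', ∀ u u' : ZMod p, σ.r < wtm σ.U (u • σ.lam t - u' • σ.lam t') →
      cenum θ (off σ.Yᶜ (u • σ.lam t - u' • σ.lam t')) σ.U' (bb β) ≤ ε)
    (hn : (p * Fintype.card T : ℝ) ^ 2 * (1 - 4 / (3 * p : ℝ)) ^ n' < piK p n')
    (Li : T → Prop) (hL : ∀ t, ¬ Li t → σ.Heavy t) {Λ : Type} [Fintype Λ] (n : Λ → ℤ)
    (z : Λ → Finset X) (hz : ∀ l, z l ⊆ T2 ∧ KerP σ.U (z l))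
    (h0 : ∑ l, n l • Sf σ.lam phi (z l) ≠ 0)
    (hk : ∀ t, Li t → ∀ c, ∑ l, n l • phi t (c + dot (σ.lam t) (z l)) = 0) :
    ∃ t0, ¬ Li t0 ∧ σ.Cert phi Tp t0 := by
  have h1 : piK p n' ≤ pr (Fintype.piFinset (fun β => Ker σ.U (bb β) ×ˢ (univ : Finset (ZMod p))))
      (fun ω => ∃ y, ∑ t, ∑ b ∈ univ.erase (0 : ZMod p),
        olongT (phi t) (σ.lam t) n z (fun β => (ω β).1) (fun β => (ω β).2) b y ≠ 0) := by
    rw [olong_fub (fun β => Ker σ.U (bb β)) (fun x s => ∃ y, ∑ t, ∑ b ∈ univ.erase (0 : ZMod p),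
      olongT (phi t) (σ.lam t) n z x s b y ≠ 0)]
    exact le_expect ⟨fun _ => ∅, Fintype.mem_piFinset.mpr fun β => empty_mem_Ker _ _⟩
      fun x _ => olong_nz hN σ.lam phi hphi n z h0 x
  have hp : (2 : ℝ) ≤ p := by exact_mod_cast (Fact.out : p.Prime).two_le
  have hq : 0 ≤ (1 - 4 / (3 * p : ℝ)) ^ n' := by
    refine pow_nonneg (sub_nonneg.mpr ?_) _
    rw [div_le_one (by linarith)]
    linarith
  have h2 : pr (Fintype.piFinset (fun β => Ker σ.U (bb β) ×ˢ (univ : Finset (ZMod p))))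
      (fun ω => ∃ q ∈ (univ : Finset ((ZMod p × T) × (ZMod p × T))),
        σ.r < wtm σ.U (q.1.1 • σ.lam q.1.2 - q.2.1 • σ.lam q.2.2) ∧
        ∀ β, (ω β).2 ≠ dot (q.1.1 • σ.lam q.1.2) (ω β).1 ∧
          (ω β).2 ≠ dot (q.2.1 • σ.lam q.2.2) (ω β).1) < piK p n' := by
    refine lt_of_le_of_lt ((pr_exists_le _ _ _).trans ?_) hn
    refine (sum_le_card_nsmul _ _ ((1 - 4 / (3 * p : ℝ)) ^ n') ?_).trans (le_of_eq ?_)
    · rintro ⟨⟨b, t⟩, ⟨b', t'⟩⟩ _
      by_cases hf : σ.r < wtm σ.U (b • σ.lam t - b' • σ.lam t')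
      · refine (pr_mono _ fun ω _ h => h.2).trans (σ.both_le hθ hε bb
          (fun β => (hb β).trans inter_subset_right) he _ _ ?_)
        intro β u hu
        have e : u • (b • σ.lam t - b' • σ.lam t') = (u * b) • σ.lam t - (u * b') • σ.lam t' := by
          rw [smul_sub, smul_smul, smul_smul]
        rw [e]
        refine hc β t t' _ _ ?_
        rw [← e, wtm_smul σ.U hu]
        exact hf
      · refine le_trans (le_of_eq ?_) hq
        unfold pr
        exact expect_eq_zero fun ω _ => if_neg fun h => hf h.1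
    · simp only [card_univ, Fintype.card_prod, ZMod.card, nsmul_eq_mul]
      push_cast
      ring
  by_contra hcon
  refine absurd (h1.trans (pr_mono _ ?_)) (not_le.mpr h2)
  rintro ω hω ⟨y0, hy0⟩
  by_contra hgood
  apply hcon
  have hx : ∀ β, (ω β).1 ⊆ bb β ∧ KerP σ.U (ω β).1 := fun β =>
    mem_Ker.mp (mem_product.mp (Fintype.mem_piFinset.mp hω β)).1
  have d1 : ∀ l β, Disjoint (z l) (ω β).1 := fun l β => (hTb β).mono (hz l).1 (hx β).1
  have d2 : ∀ β β', β ≠ β' → Disjoint (ω β).1 (ω β').1 := fun β β' h =>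
    (hbb β β' h).mono (hx β).1 (hx β').1
  have hsurv : ∀ t b y, b ≠ 0 →
      olongT (phi t) (σ.lam t) n z (fun β => (ω β).1) (fun β => (ω β).2) b y ≠ 0 →
      ∀ β, (ω β).2 ≠ dot (b • σ.lam t) (ω β).1 := fun t b y hb0 h β hβ =>
    h (olongT_dead _ _ n _ hb0 d1 d2 hβ y)
  obtain ⟨t0, -, ht0⟩ := exists_ne_zero_of_sum_ne_zero hy0
  obtain ⟨b0, hb0, ht0⟩ := exists_ne_zero_of_sum_ne_zero ht0
  have hb0' : b0 ≠ 0 := (mem_erase.mp hb0).1
  have hLi : ¬ Li t0 := fun h => ht0 (olongT_light _ _ n _ b0 d1 d2 (hk t0 h) y0)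
  refine ⟨t0, hLi, σ.olong_cert phi Tp n z _ _ ?_ (hL t0 hLi) hb0' y0 hy0 ?_⟩
  · intro l ε
    constructor
    · exact union_subset ((hz l).1.trans hT2)
        (biUnion_subset.mpr fun β _ => (hx β).1.trans (hb β))
    · intro η hη
      rw [olong_dot η (d1 l) d2, (hz l).2 η hη, zero_add]
      refine sum_eq_zero fun β _ => ?_
      rw [(hx β).2 η hη, ite_self]
  · intro t b y hb1 h
    by_contra hfar
    exact hgood ⟨((b, t), (b0, t0)), mem_univ _, not_le.mp hfar,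
      fun β => ⟨hsurv t b y hb1 h β, hsurv t0 b0 y0 hb0' ht0 β⟩⟩

end Ext

end Pool.Agent.P.MP_85fe51_lc.OD
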