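import Pool.Agent.P.MP_85fe51_lc.OFinA
import Pool.Agent.P.MP_85fe51_lc.OLong
import Pool.Agent.P.MP_85fe51_lc.OLink
import Pool.Agent.P.MP_85fe51_lc.ODL

set_option autoImplicit false

namespace Pool.Agent.P.MP_85fe51_lc.OD

open Finset
open scoped Classical

variable {p : ℕ} [Fact p.Prime] {X : Type} [Fintype X] [DecidableEq X] {T : Type} [Fintype T]
  {k j : ℕ} {V : Type} [AddCommGroup V]

namespace Ext
variable (σ : Ext p X T) (P : Pat k j) (phi : T → ZMod p → V)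

/-- with few charged terms the sum has low degree on a new state. -/
theorem finish (hphi : ∀ t, SZ (phi t)) (hN : NoP p V) (hk : 1 ≤ k) (hj : 1 ≤ j)
    {θ τ ε ζ ξ pmin p' : ℝ} (hθ : ThC p θ) (h0 : 0 ≤ τ) (h1 : τ ≤ 1 / 2) (hε : 0 < ε)
    (hε1 : ε ≤ 1 / 12) (hξ0 : 0 < ξ) (hξ1 : ξ ≤ 1 / 2) (hp : 0 < p') {n1 n' c E1 : ℕ}
    (hn1 : 1 ≤ n1) (hn' : 1 ≤ n') (hm : 8 * Fintype.card T * pmin ≤ p' * n1)
    (hr : (Fintype.card T : ℝ) ^ 3 * Real.exp (-(σ.r / 2 : ℝ)) ≤ 1 / 8)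
    (hζ : ζ ≤ 1 / (32 * j * n') * (1 - θ) * σ.r)
    (hbig : 40 * n' * (Fintype.card T + 1) ^ 2 * p ^ 2 * (p * (Fintype.card X + 1) : ℝ) ^ 2 *
      Real.exp (-ζ) ≤ ε)
    (hY : 192 * j ≤ ξ * σ.Y.card)
    (hdel : Fintype.card T * (10 * σ.CH) * (10 * σ.CH * ξ) ^ (c + 1) ≤ ξ * σ.Y.card / (1024 * j))
    (hn : (p * Fintype.card T : ℝ) ^ 2 * (1 - 4 / (3 * p : ℝ)) ^ n' < piK p n')
    (hE : 32 * j * ((p : ℝ) - 1) ^ E1 ≤ (p : ℝ) ^ E1)
    (hp' : p' ≤ piK p k / (σ.M4 : ℝ) ^ (2 * E1 + 1) -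
      σ.M4 * ((1 - 3 / (2 * p : ℝ)) ^ k + k * (1 - 1 / (4 * j * k : ℝ)) ^ (σ.r / 2)))
    (hch : (univ.filter (fun e => σ.Heavy e ∧ pmin ≤ σ.abar P phi τ e)).card ≤ n1) :
    ∃ (Y2 : Finset X) (U2 : Sub p X), Y2 ⊆ σ.Y ∧ σ.U ≤ U2 ∧ co Y2ᶜ ≤ U2 ∧
      ξ / (128 * j) * σ.Y.card ≤ Y2.card ∧ dO U2 Y2ᶜ ≤ dO σ.U σ.Yᶜ + 2 * n1 ∧
      DL ⊥ (KerP U2) (c + 1) Y2 (Sf σ.lam phi) := by
  obtain ⟨Tp, T2, bb, hT2, hbb, hbd, hTb, hAdd, hfar, he, hc, hsize, hlight⟩ :=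
    σ.exists_types P phi hk hj hθ.1 hθ.2.1.le h0 h1 hε (hε1.trans (by norm_num)) hξ0 hξ1 hp hn1 hn'
      hm hr hζ hbig hY hdel hch
  set U1 : Sub p X := σ.U ⊔ spn σ.lam (σ.Add P phi τ p' Tp) with hU1
  have hT2Y : T2 ⊆ σ.Y := hT2.trans inter_subset_right
  have hUU1 : σ.U ≤ U1 := le_sup_left
  have hU12 : U1 ≤ U1 ⊔ co T2ᶜ := le_sup_left
  refine ⟨T2, U1 ⊔ co T2ᶜ, hT2Y, hUU1.trans hU12, le_sup_right, hsize, ?_, ?_⟩
  · rw [dO_sup_co U1 (Subset.refl _)]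
    have h2 := dO_sup_spn σ.U σ.lam (σ.Add P phi τ p' Tp) T2ᶜ
    have h3 := dO_anti σ.U (compl_subset_compl.2 hT2Y)
    rw [← hU1] at h2
    omega
  by_contra hnot
  have hclo : Clo (KerP (U1 ⊔ co T2ᶜ)) := fun A B hAB hA hB => kerP_union hAB hA hB
  obtain ⟨Λ, _, n, z, hz, hne, hkill⟩ := DL_cert hclo hnot
  have hr8 := σ.hr
  have hheavy : ∀ t, ¬ wtm U1 (σ.lam t) ≤ 10 * σ.CH → 10 * σ.CH < wtm σ.U (σ.lam t) := by
    intro t ht
    have h2 := wtm_anti hUU1 (σ.lam t)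
    omega
  obtain ⟨t0, ht0, hcert⟩ := σ.long phi hphi hN hθ hε1 Tp T2 bb hT2 hbb hbd hTb he hc hn
    (fun t => wtm U1 (σ.lam t) ≤ 10 * σ.CH)
    (fun t ht => by
      have h2 := hheavy t ht
      unfold Heavy
      omega) n z
    (fun l => ⟨(hz l).1, fun η hη => (hz l).2 η (hU12 (hUU1 hη))⟩) hne
    (fun t ht c0 => by
      obtain ⟨d, hd, hdc⟩ := hlight t ht
      have hDL : DL (⊥ : AddSubgroup V) (fun _ => True) (c + 1) T2
          (fun A => phi t (c0 + dot d A)) :=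
        DL_junta (supp d) (fun A _ => by rw [dot_inter inter_subset_left]) hdc
      have h2 := hkill _ (hDL.mono_pred (fun _ _ => trivial))
      rw [← h2]
      refine sum_congr rfl fun l _ => ?_
      have h3 := (hz l).2 _ (hU12 hd)
      rw [dot_sub, sub_eq_zero] at h3
      rw [h3])
  have hj1 : (1 : ℝ) ≤ j := by exact_mod_cast hj
  have hk1 : (1 : ℝ) ≤ k := by exact_mod_cast hk
  have hbig0 := hheavy t0 ht0
  obtain ⟨t1, ht1, hh1, hle⟩ := σ.link P phi hphi hN Tp (isW_nuT P hk hj h0 h1 Tp)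
    (fun i hi a ha => by
      unfold nuT at ha
      rw [if_pos hi] at ha
      by_contra hne'
      exact ha (if_neg hne'))
    (α := 1 / (16 * j : ℝ)) (ρ := 1 / (4 * j * k : ℝ)) (by positivity)
    ((div_le_one (by positivity)).2 (by linarith))
    ((div_le_one (by positivity)).2 (by nlinarith))
    (fun i hi => by
      unfold nuT
      rw [if_neg hi]
      exact nu0_a0 P hj h1)
    (fun i hi b => by
      unfold nuT
      rw [if_neg hi]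
      exact nu0_ab P hj τ b)
    (E1 := E1) (by
      have h2 : (2 : ℝ) / (1 / (16 * j : ℝ)) = 32 * j := by
        field_simp
        norm_num
      rw [h2]
      exact hE)
    (t0 := t0) (by omega) (hfar t0) hcert
  have hmem : t1 ∈ σ.Add P phi τ p' Tp := by
    unfold Add
    exact mem_filter.2 ⟨mem_univ _, hh1, hp'.trans hle⟩
  have hlam1 : σ.lam t1 ∈ U1 := Submodule.mem_sup_right (mem_spn σ.lam hmem)
  obtain ⟨hu, hrep, -, -, -⟩ := σ.rep t0 t1 (σ.LCl_subset t0 ht1)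
  have hwt : wt (σ.dd t0 t1) ≤ σ.r := by
    unfold LCl at ht1
    exact (mem_filter.1 ht1).2
  have hin : σ.uu t0 t1 • σ.lam t0 - -σ.dd t0 t1 ∈ U1 := by
    have h2 := U1.sub_mem hlam1 (hUU1 hrep)
    have h3 : σ.lam t1 - (σ.lam t1 - σ.uu t0 t1 • σ.lam t0 - σ.dd t0 t1) =
        σ.uu t0 t1 • σ.lam t0 - -σ.dd t0 t1 := by abel
    rwa [h3] at h2
  have h4 := wtm_le hin
  rw [wtm_smul U1 hu, wt_neg] at h4
  exact ht0 (by omega)

end Ext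

end Pool.Agent.P.MP_85fe51_lc.OD
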