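import Pool.Agent.P.MP_85fe51_lc.OFree
import Pool.Agent.P.MP_85fe51_lc.OCount

set_option autoImplicit false

namespace Pool.Agent.P.MP_85fe51_lc.OD

open Finset
open scoped Classical

section
variable {X L L' : Type} [Fintype X] [DecidableEq X] [Fintype L] [Fintype L']

theorem ofina_union {ι : Type} {w : X → L → ℝ} (hw : IsW w) (I : Finset ι)
    (Q : ι → (X → L) → Prop) (R : (X → L) → Prop) {ε B : ℝ} (hε : 0 ≤ ε)
    (hR : ∀ l, R l → ∃ i ∈ I, Q i l) (h : ∀ i ∈ I, ε * Pw w (Q i) ≤ B) :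
    ε * Pw w R ≤ I.card * B := by
  have h1 : Pw w R ≤ ∑ i ∈ I, Pw w (Q i) :=
    (Pw_mono hw (fun l _ hl => hR l hl)).trans (Pw_exists_le hw I Q)
  calc ε * Pw w R ≤ ε * ∑ i ∈ I, Pw w (Q i) := mul_le_mul_of_nonneg_left h1 hε
    _ = ∑ i ∈ I, ε * Pw w (Q i) := Finset.mul_sum _ _ _
    _ ≤ ∑ _i ∈ I, B := Finset.sum_le_sum h
    _ = I.card * B := by rw [Finset.sum_const, nsmul_eq_mul]

theorem ofina_mass_ge {v : L → ℝ} (hv : ∀ a, 0 ≤ v a) (a0 : L) :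
    v a0 ≤ ∑ a ∈ univ.filter (fun a => a = a0), v a :=
  single_le_sum (fun a _ => hv a) (mem_filter.2 ⟨mem_univ _, rfl⟩)

theorem ofina_mass_le {v : L → ℝ} (hv : ∀ a, 0 ≤ v a) (a0 : L) :
    ∑ a ∈ univ.filter (fun a => a = a0), v a ≤ v a0 :=
  calc ∑ a ∈ univ.filter (fun a => a = a0), v a ≤ ∑ a ∈ {a0}, v a :=
        sum_le_sum_of_subset_of_nonneg (fun _ ha => mem_singleton.2 (mem_filter.1 ha).2)
          (fun a _ _ => hv a)
    _ = v a0 := sum_singleton _ _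

theorem ofina_pair_le {w : X → L → ℝ} (w' : X → L' → ℝ) (hw : IsW w)
    (F : (X → L) → (X → L') → ℝ) {c : ℝ} (h : ∀ l, Ew w' (F l) ≤ c) :
    Ew (fun i (a : L × L') => w i a.1 * w' i a.2)
      (fun l => F (fun i => (l i).1) (fun i => (l i).2)) ≤ c := by
  rw [← Ew_pair w w' F]
  exact (Ew_mono hw (fun l _ => h l)).trans (Ew_const hw c).le

theorem ofina_pair_fst (w : X → L → ℝ) {w' : X → L' → ℝ} (hw' : IsW w') (Q : (X → L) → Prop) :
    Pw (fun i (a : L × L') => w i a.1 * w' i a.2) (fun l => Q (fun i => (l i).1)) = Pw w Q := by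
  have h := Ew_pair w w' (fun l _ => if Q l then (1 : ℝ) else 0)
  unfold Pw
  rw [← h]
  exact congrArg (Ew w) (funext fun l => Ew_const hw' _)

/-- the points of `Y` with label `a0`. -/
noncomputable def ofina_blk {X L : Type} (Y : Finset X) (l : X → L) (a0 : L) : Finset X :=
  Y.filter (fun i => l i = a0)

theorem ofina_mem_blk {X L : Type} {Y : Finset X} {l : X → L} {a0 : L} {i : X} :
    i ∈ ofina_blk Y l a0 ↔ i ∈ Y ∧ l i = a0 := mem_filter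

theorem ofina_few {w : X → L → ℝ} (hw : IsW w) (D : Finset X) (a0 : L) {ρ : ℝ}
    (h : ∀ i, ρ ≤ w i a0) :
    Pw w (fun l => ((ofina_blk D l a0).card : ℝ) < ρ * D.card / 4) ≤
      Real.exp (-(ρ * D.card / 4)) :=
  Pw_few hw D (fun a => a = a0) (fun i _ => (h i).trans (ofina_mass_ge (hw.1 i) a0))

theorem ofina_many {w : X → L → ℝ} (hw : IsW w) (D : Finset X) (a0 : L) {ρ : ℝ} (hρ : 0 ≤ ρ)
    (h : ∀ i, w i a0 ≤ ρ) (c : ℕ) :
    Pw w (fun l => c ≤ (ofina_blk D l a0).card) ≤ (D.card * ρ) ^ c :=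
  Pw_many hw D (fun a => a = a0) hρ (fun i _ => (ofina_mass_le (hw.1 i) a0).trans (h i)) c

theorem ofina_half {w : X → L → ℝ} (hw : IsW w) (D : Finset X) (a0 : L)
    (h : ∀ i, w i a0 ≤ 1 / 16) :
    Pw w (fun l => D.card ≤ 2 * (ofina_blk D l a0).card) ≤ Real.exp (-(D.card / 2 : ℝ)) :=
  Pw_half hw D (fun a => a = a0) (fun i _ => (ofina_mass_le (hw.1 i) a0).trans (h i))

variable {p : ℕ} [Fact p.Prime]

theorem ofina_enum {w : X → L → ℝ} (hw : IsW w) (Y : Finset X) (a0 : L) {ρ θ ζ : ℝ} (ε : ℝ)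
    (hρ0 : 0 ≤ ρ) (hθ0 : 0 ≤ θ) (hθ1 : θ ≤ 1) (hρ : ∀ i, ρ ≤ w i a0) {C : ℕ} (hC : 1 ≤ C)
    {H : Sub p X} (hs : Safe C H) (hY : H ≤ co Y) (hζ : ζ ≤ ρ * (1 - θ) * C)
    (hQ : (p * (Fintype.card X + 1) : ℝ) * Real.exp (-ζ) ≤ 1 / 2) :
    ε * Pw w (fun l => ε ≤ enum θ H (ofina_blk Y l a0) - 1) ≤
      2 * (p * (Fintype.card X + 1) : ℝ) ^ 2 * Real.exp (-ζ) := by
  have hQ0 : (0 : ℝ) ≤ (p * (Fintype.card X + 1) : ℝ) := by positivity
  have hexp : Real.exp (-(ρ * (1 - θ)) * C) ≤ Real.exp (-ζ) := by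
    apply Real.exp_le_exp.2
    linarith
  have h1 := Ew_markov hw (fun l => enum θ H (ofina_blk Y l a0) - 1)
    (fun l => sub_nonneg.2 (one_le_enum hθ0 _ _)) ε
  have h2 := Ew_enum hw Y (fun a => a = a0) hρ0 hθ0 hθ1
    (fun i _ => (hρ i).trans (ofina_mass_ge (hw.1 i) a0)) hC hs hY
    ((mul_le_mul_of_nonneg_left hexp hQ0).trans hQ)
  exact h1.trans (h2.trans (mul_le_mul_of_nonneg_left hexp (by positivity)))

theorem ofina_one_le_Q : (1 : ℝ) ≤ (p * (Fintype.card X + 1) : ℝ) := by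
  have hp : (1 : ℝ) ≤ p := by exact_mod_cast (Fact.out : p.Prime).one_lt.le
  have hx : (0 : ℝ) ≤ Fintype.card X := Nat.cast_nonneg _
  nlinarith

theorem ofina_cenum {w : X → L → ℝ} (hw : IsW w) (Y : Finset X) (a0 : L) {ρ θ ζ : ℝ} (ε : ℝ)
    (hρ0 : 0 ≤ ρ) (hθ0 : 0 ≤ θ) (hθ1 : θ ≤ 1) (hρ : ∀ i, ρ ≤ w i a0) {C : ℕ} (hC : 1 ≤ C)
    {H : Sub p X} (hs : Safe C H) (hY : H ≤ co Y) (hζ : ζ ≤ ρ * (1 - θ) * C / 2)
    (hQ : (p * (Fintype.card X + 1) : ℝ) * Real.exp (-ζ) ≤ 1 / 2) (μ : Vec p X)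
    (hμ : supp μ ⊆ Y) (w0 : ℕ) (hw0 : ∀ η ∈ H, w0 ≤ wt (μ + η)) (hζ' : ζ ≤ ρ * (1 - θ) * w0) :
    ε * Pw w (fun l => ε ≤ cenum θ μ H (ofina_blk Y l a0)) ≤
      3 * (p * (Fintype.card X + 1) : ℝ) ^ 2 * Real.exp (-ζ) := by
  have hQ1 : (1 : ℝ) ≤ (p * (Fintype.card X + 1) : ℝ) := ofina_one_le_Q
  have hexp : Real.exp (-(ρ * (1 - θ)) * C / 2) ≤ Real.exp (-ζ) := by
    apply Real.exp_le_exp.2
    linarith
  have hexp' : Real.exp (-(ρ * (1 - θ)) * w0) ≤ Real.exp (-ζ) := by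
    apply Real.exp_le_exp.2
    linarith
  have h1 := Ew_markov hw (fun l => cenum θ μ H (ofina_blk Y l a0))
    (fun l => cenum_nonneg hθ0 _ _ _) ε
  have h2 := Ew_cenum hw Y (fun a => a = a0) hρ0 hθ0 hθ1
    (fun i _ => (hρ i).trans (ofina_mass_ge (hw.1 i) a0)) hC hs hY
    ((mul_le_mul_of_nonneg_left hexp (by linarith)).trans hQ) μ hμ w0 hw0
  refine h1.trans (h2.trans ?_)
  have h3 : (1 : ℝ) ≤ (p * (Fintype.card X + 1) : ℝ) ^ 2 := one_le_pow₀ hQ1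
  have h4 := mul_le_mul_of_nonneg_left hexp
    (by positivity : (0 : ℝ) ≤ 2 * (p * (Fintype.card X + 1) : ℝ) ^ 2)
  have h5 := mul_le_mul_of_nonneg_right h3 (Real.exp_pos (-ζ)).le
  linarith

/-- long vectors keep many points outside the random set. -/
theorem ofina_long {ι : Type} [Fintype ι] {w : X → Bool → ℝ} (hw : IsW w)
    (h : ∀ i, w i true ≤ 1 / 16) (δ : ι → Vec p X) (r : ℕ) (tp : (X → Bool) → Finset X)
    (htp : ∀ l i, i ∈ tp l ↔ l i = true) :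
    Pw w (fun l => ∃ q, r < wt (δ q) ∧ 2 * (supp (δ q) \ tp l).card < r) ≤
      Fintype.card ι * Real.exp (-(r / 2 : ℝ)) := by
  have h1 := ofina_union hw (univ.filter (fun q : ι => r < wt (δ q)))
    (fun q l => (supp (δ q)).card ≤ 2 * (ofina_blk (supp (δ q)) l true).card)
    (fun l => ∃ q, r < wt (δ q) ∧ 2 * (supp (δ q) \ tp l).card < r) (ε := 1)
    (B := Real.exp (-(r / 2 : ℝ))) zero_le_one
    (fun l ⟨q, hq, hq'⟩ => ⟨q, mem_filter.2 ⟨mem_univ _, hq⟩, by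
      have e : ofina_blk (supp (δ q)) l true = supp (δ q) ∩ tp l := by
        ext i
        rw [ofina_mem_blk, mem_inter, htp]
      have e2 := card_sdiff_add_card_inter (supp (δ q)) (tp l)
      unfold wt at hq
      rw [e]
      omega⟩)
    (fun q hq => by
      rw [one_mul]
      refine (ofina_half hw _ true h).trans (Real.exp_le_exp.2 ?_)
      have : (r : ℝ) ≤ (supp (δ q)).card := by exact_mod_cast (mem_filter.1 hq).2.le
      linarith)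
  rw [one_mul] at h1
  refine h1.trans (mul_le_mul_of_nonneg_right ?_ (Real.exp_pos _).le)
  exact_mod_cast card_le_univ _

variable {T : Type} [Fintype T]

/-- the deleted points. -/
noncomputable def ofina_del (d : T → Vec p X) (R c : ℕ) (l : X → L') (a0 : L') : Finset X :=
  (univ.filter (fun t => wt (d t) ≤ R ∧ c + 1 ≤ (ofina_blk (supp (d t)) l a0).card)).biUnion
    (fun t => supp (d t))

theorem ofina_del_le {w : X → L' → ℝ} (hw : IsW w) (d : T → Vec p X) (R c : ℕ) (a0 : L') {ξ : ℝ}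
    (hξ : 0 ≤ ξ) (h : ∀ i, w i a0 ≤ ξ) :
    Ew w (fun l => ((ofina_del d R c l a0).card : ℝ)) ≤
      Fintype.card T * R * (R * ξ) ^ (c + 1) := by
  have h1 : ∀ l : X → L', ((ofina_del d R c l a0).card : ℝ) ≤
      ∑ t ∈ univ.filter (fun t => wt (d t) ≤ R), (R : ℝ) *
        (if c + 1 ≤ (ofina_blk (supp (d t)) l a0).card then 1 else 0) := by
    intro l
    have e1 : (ofina_del d R c l a0).card ≤ ∑ t ∈ univ.filter (fun t => wt (d t) ≤ R ∧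
        c + 1 ≤ (ofina_blk (supp (d t)) l a0).card), (supp (d t)).card := card_biUnion_le
    have e2 : ((ofina_del d R c l a0).card : ℝ) ≤ ∑ t ∈ univ.filter (fun t => wt (d t) ≤ R ∧
        c + 1 ≤ (ofina_blk (supp (d t)) l a0).card), (R : ℝ) := by
      have e3 := e1.trans (sum_le_sum (g := fun _ => R) (fun t ht => (mem_filter.1 ht).2.1))
      exact_mod_cast e3
    refine e2.trans (le_of_eq ?_)
    rw [sum_filter, sum_filter]
    refine sum_congr rfl (fun t _ => ?_)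
    by_cases a1 : wt (d t) ≤ R <;>
      by_cases a2 : c + 1 ≤ (ofina_blk (supp (d t)) l a0).card <;> simp [a1, a2]
  refine (Ew_mono hw (fun l _ => h1 l)).trans ?_
  rw [Ew_sum]
  have h2 : ∀ t ∈ univ.filter (fun t => wt (d t) ≤ R), Ew w (fun l => (R : ℝ) *
      (if c + 1 ≤ (ofina_blk (supp (d t)) l a0).card then 1 else 0)) ≤
      R * (R * ξ) ^ (c + 1) := by
    intro t ht
    rw [Ew_mul]
    refine mul_le_mul_of_nonneg_left ?_ (Nat.cast_nonneg _)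
    have e1 := ofina_many hw (supp (d t)) a0 hξ h (c + 1)
    have e2 : ((supp (d t)).card : ℝ) ≤ R := by exact_mod_cast (mem_filter.1 ht).2
    have e3 : (((supp (d t)).card : ℝ) * ξ) ^ (c + 1) ≤ (R * ξ) ^ (c + 1) :=
      pow_le_pow_left₀ (by positivity) (mul_le_mul_of_nonneg_right e2 hξ) _
    refine le_trans (le_of_eq ?_) (e1.trans e3)
    unfold Pw
    refine congrArg (Ew w) (funext fun l => ?_)
    by_cases a2 : c + 1 ≤ (ofina_blk (supp (d t)) l a0).card <;> simp [a2]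
  refine (sum_le_sum h2).trans ?_
  rw [sum_const, nsmul_eq_mul, mul_assoc]
  refine mul_le_mul_of_nonneg_right ?_ (by positivity)
  exact_mod_cast card_le_univ _

theorem ofina_del_card (d : T → Vec p X) {R : ℕ} (c : ℕ) (l : X → L') (a0 : L') {t : T}
    (ht : wt (d t) ≤ R) {Z : Finset X} (hZ : ∀ i ∈ Z, l i = a0) :
    (supp (d t) ∩ (Z \ ofina_del d R c l a0)).card ≤ c := by
  by_cases h : c + 1 ≤ (ofina_blk (supp (d t)) l a0).card
  · have e : supp (d t) ∩ (Z \ ofina_del d R c l a0) = ∅ := by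
      refine eq_empty_of_forall_notMem (fun i hi => ?_)
      refine (mem_sdiff.1 (mem_inter.1 hi).2).2 ?_
      exact mem_biUnion.2 ⟨t, mem_filter.2 ⟨mem_univ _, ht, h⟩, (mem_inter.1 hi).1⟩
    rw [e]
    exact Nat.zero_le _
  · have e : supp (d t) ∩ (Z \ ofina_del d R c l a0) ⊆ ofina_blk (supp (d t)) l a0 :=
      fun i hi => ofina_mem_blk.2 ⟨(mem_inter.1 hi).1, hZ i (mem_sdiff.1 (mem_inter.1 hi).2).1⟩
    have := card_le_card e
    omega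

end

/-- the law of the indicator of the random set. -/
noncomputable def ofina_w1 (X : Type) (j : ℕ) : X → Bool → ℝ :=
  fun _ b => if b then 1 / (16 * j : ℝ) else 1 - 1 / (16 * j : ℝ)

/-- the law of the types. -/
noncomputable def ofina_w2 (X : Type) (n' : ℕ) (ξ : ℝ) : X → Option (Fin n') → ℝ :=
  fun _ o => o.elim ξ (fun _ => (1 - ξ) / n')

theorem ofina_al {j : ℕ} (hj : 1 ≤ j) : 0 < 1 / (16 * j : ℝ) ∧ 1 / (16 * j : ℝ) ≤ 1 / 16 := by
  have h : (1 : ℝ) ≤ j := by exact_mod_cast hj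
  exact ⟨by positivity, one_div_le_one_div_of_le (by norm_num) (by linarith)⟩

theorem ofina_isW1 (X : Type) {j : ℕ} (hj : 1 ≤ j) : IsW (ofina_w1 X j) := by
  obtain ⟨h0, h1⟩ := ofina_al hj
  refine ⟨fun i b => ?_, fun i => ?_⟩
  · cases b
    · show 0 ≤ 1 - 1 / (16 * j : ℝ)
      linarith
    · exact h0.le
  · rw [Fintype.sum_bool]
    show 1 / (16 * j : ℝ) + (1 - 1 / (16 * j : ℝ)) = 1
    ring

theorem ofina_isW2 (X : Type) {n' : ℕ} (hn : 1 ≤ n') {ξ : ℝ} (h0 : 0 ≤ ξ) (h1 : ξ ≤ 1) :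
    IsW (ofina_w2 X n' ξ) := by
  have h : (1 : ℝ) ≤ n' := by exact_mod_cast hn
  refine ⟨fun i o => ?_, fun i => ?_⟩
  · cases o
    · exact h0
    · exact div_nonneg (by linarith) (by linarith)
  · rw [Fintype.sum_option]
    show ξ + ∑ _b : Fin n', (1 - ξ) / n' = 1
    rw [sum_const, card_univ, Fintype.card_fin, nsmul_eq_mul]
    field_simp
    ring

theorem ofina_rho (X : Type) {j n' : ℕ} (hj : 1 ≤ j) (hn' : 1 ≤ n') {ξ : ℝ} (hξ1 : ξ ≤ 1 / 2)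
    (β : Fin n') (i : X) :
    1 / (32 * j * n' : ℝ) ≤ ofina_w1 X j i true * ofina_w2 X n' ξ i (some β) := by
  have hj' : (1 : ℝ) ≤ j := by exact_mod_cast hj
  have hn : (1 : ℝ) ≤ n' := by exact_mod_cast hn'
  show 1 / (32 * j * n' : ℝ) ≤ 1 / (16 * j : ℝ) * ((1 - ξ) / n')
  have e : 1 / (32 * j * n' : ℝ) = 1 / (16 * j : ℝ) * ((1 / 2) / n') := by
    field_simp
    norm_num
  rw [e]
  exact mul_le_mul_of_nonneg_left (div_le_div_of_nonneg_right (by linarith) (by linarith))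
    (by positivity)

theorem ofina_exp3 {x : ℝ} (h : 3 ≤ x) : Real.exp (-x) ≤ 1 / 8 := by
  have h1 : (2 : ℝ) ≤ Real.exp 1 := by linarith [Real.add_one_le_exp 1]
  have h2 : Real.exp 1 ^ 3 ≤ Real.exp x := by
    rw [← Real.exp_nat_mul]
    exact Real.exp_le_exp.2 (by push_cast; linarith)
  have h3 : (2 : ℝ) ^ 3 ≤ Real.exp 1 ^ 3 := pow_le_pow_left₀ (by norm_num) h1 3
  rw [Real.exp_neg, ← one_div]
  exact one_div_le_one_div_of_le (by norm_num) (by linarith)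

theorem ofina_num {n L q Q e ε : ℝ} (hn : 1 ≤ n) (hL : 0 ≤ L) (hq : 1 ≤ q) (hQ : 1 ≤ Q)
    (he : 0 ≤ e) (hε1 : ε ≤ 1) (h : 40 * n * (L + 1) ^ 2 * q ^ 2 * Q ^ 2 * e ≤ ε) :
    Q * e ≤ 1 / 2 ∧
      n * (2 * Q ^ 2 * e) + n * (L ^ 2 * q ^ 2) * (3 * Q ^ 2 * e) ≤ ε * (1 / 8) := by
  obtain ⟨E, hE⟩ : ∃ E, E = Q ^ 2 * e := ⟨_, rfl⟩
  obtain ⟨M, hM⟩ : ∃ M, M = (L + 1) ^ 2 * q ^ 2 := ⟨_, rfl⟩
  have hE0 : 0 ≤ E := by rw [hE]; positivity
  have hM1 : 1 ≤ M := by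
    rw [hM]
    exact one_le_mul_of_one_le_of_one_le (one_le_pow₀ (by linarith)) (one_le_pow₀ hq)
  have hM2 : L ^ 2 * q ^ 2 ≤ M := by
    rw [hM]
    exact mul_le_mul_of_nonneg_right (by nlinarith) (by positivity)
  have h1 : 40 * (n * M * E) ≤ ε := by
    rw [hE, hM]
    linarith
  have h2 : n * E ≤ n * M * E :=
    mul_le_mul_of_nonneg_right (le_mul_of_one_le_right (by linarith) hM1) hE0
  have h3 : E ≤ n * E := le_mul_of_one_le_left hE0 hn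
  have h4 : Q * e ≤ E := by
    rw [hE]
    exact mul_le_mul_of_nonneg_right (by nlinarith) he
  have h5 : n * (L ^ 2 * q ^ 2) * E ≤ n * M * E :=
    mul_le_mul_of_nonneg_right (mul_le_mul_of_nonneg_left hM2 (by linarith)) hE0
  refine ⟨by linarith, ?_⟩
  rw [mul_assoc 2, mul_assoc 3, ← hE]
  linarith

/-- the enumerators on the blocks. -/
theorem Ext.ofina_blocks {p : ℕ} [Fact p.Prime] {X T L : Type} [Fintype X] [DecidableEq X]
    [Fintype T] [Fintype L] (σ : Ext p X T) {w : X → L → ℝ} (hw : IsW w) {n' : ℕ}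
    (a : Fin n' → L) {θ ε ζ ρ : ℝ} (hθ0 : 0 ≤ θ) (hθ1 : θ ≤ 1) (hε : 0 < ε) (hε1 : ε ≤ 1)
    (hn' : 1 ≤ n') (hρ0 : 0 ≤ ρ) (hρ : ∀ β i, ρ ≤ w i (a β)) (hζ : ζ ≤ ρ * (1 - θ) * σ.r)
    (hbig : 40 * n' * (Fintype.card T + 1) ^ 2 * p ^ 2 * (p * (Fintype.card X + 1) : ℝ) ^ 2 *
      Real.exp (-ζ) ≤ ε) :
    Pw w (fun l => (∃ β, ε ≤ enum θ σ.U' (ofina_blk σ.Y l (a β)) - 1) ∨
        ∃ β t t', ∃ u u' : ZMod p, σ.r < wtm σ.U (u • σ.lam t - u' • σ.lam t') ∧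
          ε ≤ cenum θ (off σ.Yᶜ (u • σ.lam t - u' • σ.lam t')) σ.U' (ofina_blk σ.Y l (a β))) ≤
      1 / 8 := by
  have hn : (1 : ℝ) ≤ n' := by exact_mod_cast hn'
  have hp : (1 : ℝ) ≤ p := by exact_mod_cast (Fact.out : p.Prime).one_lt.le
  obtain ⟨hQ, hnum⟩ := ofina_num hn (Nat.cast_nonneg _) hp ofina_one_le_Q (Real.exp_pos _).le
    hε1 hbig
  have hx : 0 ≤ ρ * (1 - θ) := mul_nonneg hρ0 (by linarith)
  have hrC : (8 * σ.r : ℝ) ≤ σ.CH := by exact_mod_cast σ.hr.le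
  have hr0 : (0 : ℝ) ≤ σ.r := Nat.cast_nonneg _
  have hζ2 : ζ ≤ ρ * (1 - θ) * σ.CH / 2 := by
    have := mul_le_mul_of_nonneg_left (by linarith : (σ.r : ℝ) ≤ σ.CH / 2) hx
    linarith
  have hζ1 : ζ ≤ ρ * (1 - θ) * σ.CH :=
    hζ.trans (mul_le_mul_of_nonneg_left (by linarith : (σ.r : ℝ) ≤ σ.CH) hx)
  have hs : Safe σ.CH σ.U' := σ.safe.mono (by omega)
  have h1 := ofina_union hw (univ : Finset (Fin n'))
    (fun β l => ε ≤ enum θ σ.U' (ofina_blk σ.Y l (a β)) - 1)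
    (fun l => ∃ β, ε ≤ enum θ σ.U' (ofina_blk σ.Y l (a β)) - 1) hε.le
    (fun l ⟨β, hβ⟩ => ⟨β, mem_univ _, hβ⟩)
    (fun β _ => ofina_enum hw σ.Y (a β) ε hρ0 hθ0 hθ1 (hρ β) σ.one_le_CH hs σ.U'_le hζ1 hQ)
  obtain ⟨v, hv⟩ : ∃ v : Fin n' × T × T × ZMod p × ZMod p → Vec p X, ∀ β t t' u u',
      v (β, t, t', u, u') = u • σ.lam t - u' • σ.lam t' :=
    ⟨fun q => q.2.2.2.1 • σ.lam q.2.1 - q.2.2.2.2 • σ.lam q.2.2.1, fun _ _ _ _ _ => rfl⟩
  have h2 := ofina_union hw (univ.filter (fun q => σ.r < wtm σ.U (v q)))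
    (fun q l => ε ≤ cenum θ (off σ.Yᶜ (v q)) σ.U' (ofina_blk σ.Y l (a q.1)))
    (fun l => ∃ β t t', ∃ u u' : ZMod p, σ.r < wtm σ.U (u • σ.lam t - u' • σ.lam t') ∧
      ε ≤ cenum θ (off σ.Yᶜ (u • σ.lam t - u' • σ.lam t')) σ.U' (ofina_blk σ.Y l (a β))) hε.le
    (fun l ⟨β, t, t', u, u', h, h'⟩ => ⟨(β, t, t', u, u'),
      mem_filter.2 ⟨mem_univ _, by rw [hv]; exact h⟩, by rw [hv]; exact h'⟩)
    (fun q hq => ofina_cenum hw σ.Y (a q.1) ε hρ0 hθ0 hθ1 (hρ q.1) σ.one_le_CH hs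
      σ.U'_le hζ2 hQ _
      (fun i hi => by
        rw [supp_off] at hi
        exact not_not.1 (fun h => (mem_sdiff.1 hi).2 (mem_compl.2 h)))
      σ.r (fun η hη => (mem_filter.1 hq).2.le.trans (wtm_le_off σ.hY _ hη)) hζ)
  rw [card_univ, Fintype.card_fin] at h1
  have h3 : ((univ.filter (fun q => σ.r < wtm σ.U (v q))).card : ℝ) ≤
      n' * (Fintype.card T ^ 2 * p ^ 2) := by
    refine le_trans (Nat.cast_le.2 (card_le_univ _)) (le_of_eq ?_)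
    simp only [Fintype.card_prod, Fintype.card_fin, ZMod.card]
    push_cast
    ring
  replace h2 := h2.trans (mul_le_mul_of_nonneg_right h3 (by positivity))
  refine (Pw_or_le hw _ _).trans (le_of_mul_le_mul_left ?_ hε)
  rw [mul_add]
  exact (add_le_add h1 h2).trans hnum

end Pool.Agent.P.MP_85fe51_lc.OD
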