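import Pool.Agent.P.MP_85fe51_lc.OFree
import Pool.Agent.P.MP_85fe51_lc.OCount
import Pool.Agent.P.MP_85fe51_lc.OVal
import Pool.Agent.P.MP_85fe51_lc.OProb
import Pool.Agent.P.MP_85fe51_lc.OFinA0

set_option autoImplicit false

namespace Pool.Agent.P.MP_85fe51_lc.OD

open Finset
open scoped Classical

section
variable {k j : ℕ}

/-- the point mass at the plain label of the atom `a0`. -/
noncomputable def nu1 (P : Pat k j) : Lab k j → ℝ := fun a => if a = some (P.a0, false) then 1 else 0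

/-- the label law after removing the fraction `1 / (16 j)` of `nu1`. -/
noncomputable def nu0 (P : Pat k j) (τ : ℝ) : Lab k j → ℝ :=
  fun a => (nu k j τ a - 1 / (16 * j : ℝ) * nu1 P a) / (1 - 1 / (16 * j : ℝ))

noncomputable def nuT {X : Type} (P : Pat k j) (τ : ℝ) (Tp : Finset X) : X → Lab k j → ℝ :=
  fun i => if i ∈ Tp then nu1 P else nu0 P τ

theorem ofina_nu_a0 (P : Pat k j) (τ : ℝ) :
    nu k j τ (some (P.a0, false)) = 4 * (1 / (16 * j : ℝ)) * (1 - τ) := by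
  have h : nu k j τ (some (P.a0, false)) = 1 / (4 * j : ℝ) * (1 - τ) := by
    simp [nu, Pat.a0]
  rw [h]
  ring

theorem ofina_sum_nu1 (P : Pat k j) : ∑ a, nu1 P a = 1 := by
  simp [nu1]

theorem isW_nuT {X : Type} (P : Pat k j) (hk : 1 ≤ k) (hj : 1 ≤ j) {τ : ℝ} (h0 : 0 ≤ τ)
    (h1 : τ ≤ 1 / 2) (Tp : Finset X) : IsW (nuT P τ Tp) := by
  obtain ⟨a0, a1⟩ := ofina_al hj
  have hw := isW_nu Unit hk hj h0 (by linarith : τ ≤ 1)
  refine ⟨fun i a => ?_, fun i => ?_⟩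
  · unfold nuT
    split_ifs
    · unfold nu1
      split_ifs <;> norm_num
    · refine div_nonneg ?_ (by linarith)
      unfold nu1
      split_ifs with ha
      · rw [ha, ofina_nu_a0]
        nlinarith
      · have := hw.1 () a
        linarith
  · unfold nuT
    split_ifs
    · exact ofina_sum_nu1 P
    · unfold nu0
      rw [← sum_div, sum_sub_distrib, ← mul_sum, ofina_sum_nu1, hw.2 (), mul_one]
      exact div_self (by linarith)

theorem nu0_a0 (P : Pat k j) (hj : 1 ≤ j) {τ : ℝ} (h1 : τ ≤ 1 / 2) :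
    1 / (16 * j : ℝ) ≤ nu0 P τ (some (P.a0, false)) := by
  obtain ⟨a0, a1⟩ := ofina_al hj
  unfold nu0 nu1
  rw [if_pos rfl, ofina_nu_a0, le_div_iff₀ (by linarith)]
  nlinarith

theorem nu0_ab (P : Pat k j) (hj : 1 ≤ j) (τ : ℝ) (b : Fin k) :
    1 / (4 * j * k : ℝ) ≤ nu0 P τ (some (P.ab b, false)) + nu0 P τ (some (P.ab b, true)) := by
  obtain ⟨a0, a1⟩ := ofina_al hj
  have e1 : nu1 P (some (P.ab b, false)) = 0 :=
    if_neg (fun h => P.a0_ne_ab b (congrArg Prod.fst (Option.some.inj h)).symm)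
  have e2 : nu1 P (some (P.ab b, true)) = 0 :=
    if_neg (fun h => P.a0_ne_ab b (congrArg Prod.fst (Option.some.inj h)).symm)
  have e3 : nu k j τ (some (P.ab b, false)) = 1 / (4 * j * k : ℝ) * (1 - τ) := by
    simp [nu, Pat.ab]
  have e4 : nu k j τ (some (P.ab b, true)) = 1 / (4 * j * k : ℝ) * τ := by
    simp [nu, Pat.ab]
  have e5 : (0 : ℝ) ≤ 1 / (4 * j * k : ℝ) := by positivity
  unfold nu0
  rw [e1, e2, e3, e4, ← add_div, le_div_iff₀ (by linarith)]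
  nlinarith [mul_nonneg e5 a0.le]

theorem ofina_mix (P : Pat k j) (hj : 1 ≤ j) (τ : ℝ) (a : Lab k j) :
    nu k j τ a = 1 / (16 * j : ℝ) * nu1 P a + (1 - 1 / (16 * j : ℝ)) * nu0 P τ a := by
  obtain ⟨a0, a1⟩ := ofina_al hj
  unfold nu0
  rw [mul_div_cancel₀ _ (by linarith)]
  ring

end

variable {p : ℕ} [Fact p.Prime] {X : Type} [Fintype X] [DecidableEq X] {T : Type} [Fintype T]
  {k j : ℕ} {V : Type} [AddCommGroup V]

namespace Ext
variable (σ : Ext p X T) (P : Pat k j) (phi : T → ZMod p → V)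

noncomputable def Add (τ p' : ℝ) (Tp : Finset X) : Finset T :=
  univ.filter (fun e => σ.Heavy e ∧ p' ≤ Ew (nuT P τ Tp) (σ.pfe P phi e))

theorem ofina_pfe_nonneg (e : T) (l : X → Lab k j) : 0 ≤ σ.pfe P phi e l := pr_nonneg _ _

theorem ofina_abar (hj : 1 ≤ j) (τ : ℝ) (e : T) :
    σ.abar P phi τ e = Ew (ofina_w1 X j)
      (fun l => Ew (nuT P τ (univ.filter (fun i => l i = true))) (σ.pfe P phi e)) := by
  have h := Ew_mix (X := X) (1 / (16 * j : ℝ)) (nu1 P) (nu0 P τ) (σ.pfe P phi e)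
  have e1 : (fun _ : X => nu k j τ) =
      fun _ a => 1 / (16 * j : ℝ) * nu1 P a + (1 - 1 / (16 * j : ℝ)) * nu0 P τ a :=
    funext fun _ => funext fun a => ofina_mix P hj τ a
  unfold abar
  rw [e1, h]
  refine congrArg (Ew (ofina_w1 X j)) (funext fun l => ?_)
  refine congrArg (fun w => Ew w (σ.pfe P phi e)) (funext fun i => ?_)
  unfold nuT
  by_cases hi : l i = true <;> simp [hi]

/-- few terms are added for a random set `Tp`. -/
theorem fail_add (hk : 1 ≤ k) (hj : 1 ≤ j) {τ pmin p' : ℝ} (h0 : 0 ≤ τ) (h1 : τ ≤ 1 / 2)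
    (hp : 0 < p') {n1 : ℕ} (hn1 : 1 ≤ n1) (hm : 8 * Fintype.card T * pmin ≤ p' * n1)
    (hch : (univ.filter (fun e => σ.Heavy e ∧ pmin ≤ σ.abar P phi τ e)).card ≤ n1) :
    Pw (fun (_ : X) (b : Bool) => if b then 1 / (16 * j : ℝ) else 1 - 1 / (16 * j : ℝ))
      (fun l => 2 * n1 < (σ.Add P phi τ p' (univ.filter (fun i => l i = true))).card) ≤ 1 / 8 := by
  have hw := ofina_isW1 X hj
  have hν := isW_nu X hk hj h0 (by linarith : τ ≤ 1)
  have hn : (1 : ℝ) ≤ n1 := by exact_mod_cast hn1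
  have hy : 0 < p' * n1 := by positivity
  obtain ⟨S, hS⟩ : ∃ S : Finset T, ∀ e, e ∈ S ↔ σ.abar P phi τ e < pmin :=
    ⟨univ.filter (fun e => σ.abar P phi τ e < pmin), fun e => by simp⟩
  obtain ⟨G, hG⟩ : ∃ G : T → (X → Bool) → ℝ, ∀ e l, G e l =
      Ew (nuT P τ (univ.filter (fun i => l i = true))) (σ.pfe P phi e) := ⟨_, fun _ _ => rfl⟩
  have hG0 : ∀ e l, 0 ≤ G e l := fun e l => by
    rw [hG]
    exact Ew_nonneg (isW_nuT P hk hj h0 h1 _) (σ.ofina_pfe_nonneg P phi e)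
  have hE : Ew (ofina_w1 X j) (fun l => ∑ e ∈ S, G e l) ≤ p' * n1 / 8 := by
    rw [Ew_sum]
    have e1 : ∀ e ∈ S, Ew (ofina_w1 X j) (G e) ≤ pmin := fun e he => by
      have e2 : G e = _ := funext (hG e)
      rw [e2, ← σ.ofina_abar P phi hj τ e]
      exact ((hS e).1 he).le
    refine (sum_le_sum e1).trans ?_
    rw [sum_const, nsmul_eq_mul]
    rcases S.eq_empty_or_nonempty with h | ⟨e, he⟩
    · rw [h, card_empty, Nat.cast_zero, zero_mul]
      positivity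
    · have e3 : 0 ≤ σ.abar P phi τ e := Ew_nonneg hν (σ.ofina_pfe_nonneg P phi e)
      have e4 : 0 ≤ pmin := e3.trans ((hS e).1 he).le
      have e5 : (S.card : ℝ) ≤ Fintype.card T := by exact_mod_cast card_le_univ S
      have e6 := mul_le_mul_of_nonneg_right e5 e4
      linarith
  have hM := Ew_markov hw (fun l => ∑ e ∈ S, G e l) (fun l => sum_nonneg fun e _ => hG0 e l)
    (p' * n1)
  have hP : Pw (ofina_w1 X j)
      (fun l => 2 * n1 < (σ.Add P phi τ p' (univ.filter (fun i => l i = true))).card) ≤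
      Pw (ofina_w1 X j) (fun l => p' * n1 ≤ ∑ e ∈ S, G e l) := by
    refine Pw_mono hw (fun l _ hl => ?_)
    obtain ⟨A, hA⟩ : ∃ A, A = σ.Add P phi τ p' (univ.filter (fun i => l i = true)) := ⟨_, rfl⟩
    have hA' : ∀ e ∈ A, σ.Heavy e ∧ p' ≤ G e l := fun e he => by
      rw [hA] at he
      rw [hG]
      exact (mem_filter.1 he).2
    rw [← hA] at hl
    have e1 : A \ S ⊆ univ.filter (fun e => σ.Heavy e ∧ pmin ≤ σ.abar P phi τ e) := fun e he =>
      mem_filter.2 ⟨mem_univ _, (hA' e (mem_sdiff.1 he).1).1,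
        not_lt.1 (fun h => (mem_sdiff.1 he).2 ((hS e).2 h))⟩
    have e2 := card_le_card e1
    have e3 := card_sdiff_add_card_inter A S
    have e4 : (n1 : ℝ) ≤ (A ∩ S).card := by exact_mod_cast (by omega : n1 ≤ (A ∩ S).card)
    calc p' * n1 ≤ (A ∩ S).card * p' := by nlinarith
      _ = ∑ _e ∈ A ∩ S, p' := by rw [sum_const, nsmul_eq_mul]
      _ ≤ ∑ e ∈ A ∩ S, G e l := sum_le_sum fun e he => (hA' e (mem_inter.1 he).1).2
      _ ≤ ∑ e ∈ S, G e l :=
        sum_le_sum_of_subset_of_nonneg inter_subset_right (fun e _ _ => hG0 e l)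
  refine hP.trans (le_of_mul_le_mul_left ?_ hy)
  linarith

/-- the choice of `Tp`, of the new ground set and of the blocks. -/
theorem exists_types (hk : 1 ≤ k) (hj : 1 ≤ j) {θ τ ε ζ ξ pmin p' : ℝ} (hθ0 : 0 ≤ θ)
    (hθ1 : θ ≤ 1) (h0 : 0 ≤ τ) (h1 : τ ≤ 1 / 2) (hε : 0 < ε) (hε1 : ε ≤ 1) (hξ0 : 0 < ξ)
    (hξ1 : ξ ≤ 1 / 2) (hp : 0 < p') {n1 n' c : ℕ} (hn1 : 1 ≤ n1) (hn' : 1 ≤ n')
    (hm : 8 * Fintype.card T * pmin ≤ p' * n1)
    (hr : (Fintype.card T : ℝ) ^ 3 * Real.exp (-(σ.r / 2 : ℝ)) ≤ 1 / 8)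
    (hζ : ζ ≤ 1 / (32 * j * n') * (1 - θ) * σ.r)
    (hbig : 40 * n' * (Fintype.card T + 1) ^ 2 * p ^ 2 * (p * (Fintype.card X + 1) : ℝ) ^ 2 *
      Real.exp (-ζ) ≤ ε)
    (hY : 192 * j ≤ ξ * σ.Y.card)
    (hdel : Fintype.card T * (10 * σ.CH) * (10 * σ.CH * ξ) ^ (c + 1) ≤ ξ * σ.Y.card / (1024 * j))
    (hch : (univ.filter (fun e => σ.Heavy e ∧ pmin ≤ σ.abar P phi τ e)).card ≤ n1) :
    ∃ (Tp T2 : Finset X) (bb : Fin n' → Finset X), T2 ⊆ Tp ∩ σ.Y ∧ (∀ β, bb β ⊆ Tp ∩ σ.Y) ∧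
      (∀ β β', β ≠ β' → Disjoint (bb β) (bb β')) ∧ (∀ β, Disjoint T2 (bb β)) ∧
      (σ.Add P phi τ p' Tp).card ≤ 2 * n1 ∧
      (∀ t0, ∀ t ∈ σ.Mid t0, ∀ t' ∈ σ.Mid t0, σ.r < wt (σ.de t0 t - σ.de t0 t') →
        σ.r ≤ 2 * (supp (σ.de t0 t - σ.de t0 t') \ Tp).card) ∧
      (∀ β, enum θ σ.U' (bb β) ≤ 1 + ε) ∧
      (∀ β t t', ∀ u u' : ZMod p, σ.r < wtm σ.U (u • σ.lam t - u' • σ.lam t') →
        cenum θ (off σ.Yᶜ (u • σ.lam t - u' • σ.lam t')) σ.U' (bb β) ≤ ε) ∧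
      ξ / (128 * j) * σ.Y.card ≤ T2.card ∧
      ∀ t, wtm (σ.U ⊔ spn σ.lam (σ.Add P phi τ p' Tp)) (σ.lam t) ≤ 10 * σ.CH →
        ∃ d, σ.lam t - d ∈ σ.U ⊔ spn σ.lam (σ.Add P phi τ p' Tp) ∧ (supp d ∩ T2).card ≤ c := by
  have hw1 := ofina_isW1 X hj
  have hw2 := ofina_isW2 X hn' hξ0.le (by linarith)
  have hw := isW_pair hw1 hw2
  obtain ⟨a0, a1⟩ := ofina_al hj
  have hj' : (1 : ℝ) ≤ j := by exact_mod_cast hj
  obtain ⟨tp, htp0⟩ : ∃ tp : (X → Bool) → Finset X, ∀ l, tp l = univ.filter (fun i => l i = true) :=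
    ⟨_, fun _ => rfl⟩
  have htp : ∀ l i, i ∈ tp l ↔ l i = true := fun l i => by simp [htp0]
  have hrep : ∀ (Tp : Finset X) (t : T), ∃ d, σ.lam t - d ∈ σ.U ⊔ spn σ.lam (σ.Add P phi τ p' Tp) ∧
      wt d = wtm (σ.U ⊔ spn σ.lam (σ.Add P phi τ p' Tp)) (σ.lam t) := fun Tp t => by
    obtain ⟨d, d1, _, d3⟩ := exists_rep (σ.hY.trans le_sup_left :
      co σ.Yᶜ ≤ σ.U ⊔ spn σ.lam (σ.Add P phi τ p' Tp)) (σ.lam t)
    exact ⟨d, d1, d3⟩
  choose D hD1 hD2 using hrep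
  have f1 := (ofina_pair_fst (ofina_w1 X j) hw2
    (fun l => 2 * n1 < (σ.Add P phi τ p' (tp l)).card)).le.trans (by
      simp only [htp0]
      exact σ.fail_add P phi hk hj h0 h1 hp hn1 hm hch)
  have f2 := (ofina_pair_fst (ofina_w1 X j) hw2 _).le.trans ((ofina_long hw1 (fun _ => a1)
    (fun q : T × T × T => σ.de q.1 q.2.1 - σ.de q.1 q.2.2) σ.r tp htp).trans (by
      refine le_trans (le_of_eq ?_) hr
      simp only [Fintype.card_prod]
      push_cast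
      ring))
  have f3 := σ.ofina_blocks hw (fun β : Fin n' => (true, some β)) hθ0 hθ1 hε hε1 hn'
    (by positivity) (fun β i => ofina_rho X hj hn' hξ1 β i) hζ hbig
  obtain ⟨y, hy⟩ : ∃ y : ℝ, y = ξ / (128 * j) * σ.Y.card := ⟨_, rfl⟩
  have hy1 : 1 / (16 * j : ℝ) * ξ * σ.Y.card / 4 = 2 * y := by
    rw [hy]
    field_simp
    ring
  have hy2 : ξ * σ.Y.card / (1024 * j) = y / 8 := by
    rw [hy]
    field_simp
    ring
  have hy3 : 3 ≤ 2 * y := by
    have e : 2 * y = ξ * σ.Y.card / (64 * j) := by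
      rw [hy]
      field_simp
      ring
    rw [e, le_div_iff₀ (by positivity)]
    linarith
  have f4 := ofina_few hw σ.Y (true, none) (ρ := 1 / (16 * j : ℝ) * ξ) (fun _ => le_rfl)
  rw [hy1] at f4
  replace f4 := f4.trans (ofina_exp3 hy3)
  have f5 := (Ew_markov hw (fun l => ((ofina_del (D (tp fun i => (l i).1)) (10 * σ.CH) c
      (fun i => (l i).2) none).card : ℝ)) (fun _ => Nat.cast_nonneg _) y).trans
    (ofina_pair_le (ofina_w2 X n' ξ) hw1
      (fun l l' => ((ofina_del (D (tp l)) (10 * σ.CH) c l' none).card : ℝ)) (c := y / 8)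
      (fun l => (ofina_del_le hw2 _ _ c none hξ0.le (fun _ => le_rfl)).trans (by
        rw [← hy2]
        push_cast
        exact hdel)))
  replace f5 := le_of_mul_le_mul_left (f5.trans (le_of_eq (by ring : y / 8 = y * (1 / 8))))
    (by linarith)
  have f := (Pw_or_le hw _ _).trans (add_le_add f1 ((Pw_or_le hw _ _).trans (add_le_add f2
    ((Pw_or_le hw _ _).trans (add_le_add f3 ((Pw_or_le hw _ _).trans (add_le_add f4 f5)))))))
  obtain ⟨l, hl⟩ := Pw_exists_not hw (f.trans_lt (by norm_num))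
  simp only [not_or, not_exists, not_and, not_lt, not_le] at hl
  obtain ⟨g1, g2, ⟨g3, g3'⟩, g4, g5⟩ := hl
  have hsub : ∀ o, ofina_blk σ.Y l (true, o) ⊆ (tp fun i => (l i).1) ∩ σ.Y := fun o i hi =>
    mem_inter.2 ⟨(htp _ i).2 (congrArg Prod.fst (ofina_mem_blk.1 hi).2), (ofina_mem_blk.1 hi).1⟩
  have hdis : ∀ o o', o ≠ o' → Disjoint (ofina_blk σ.Y l (true, o)) (ofina_blk σ.Y l (true, o')) :=
    fun o o' h => disjoint_left.2 fun i hi hi' => h (congrArg Prod.snd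
      ((ofina_mem_blk.1 hi).2.symm.trans (ofina_mem_blk.1 hi').2))
  refine ⟨tp fun i => (l i).1, ofina_blk σ.Y l (true, none) \
      ofina_del (D (tp fun i => (l i).1)) (10 * σ.CH) c (fun i => (l i).2) none,
    fun β => ofina_blk σ.Y l (true, some β), sdiff_subset.trans (hsub _), fun β => hsub _,
    fun β β' h => hdis _ _ (fun e => h (Option.some.inj e)),
    fun β => (hdis none (some β) (Option.some_ne_none β).symm).mono_left sdiff_subset, g1,
    fun t0 t _ t' _ h => g2 (t0, t, t') h, fun β => by linarith [g3 β],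
    fun β t t' u u' h => (g3' β t t' u u' h).le, ?_, fun t ht => ⟨D _ t, hD1 _ t, ?_⟩⟩
  · have e : ((ofina_blk σ.Y l (true, none)).card : ℝ) ≤ (ofina_blk σ.Y l (true, none) \
        ofina_del (D (tp fun i => (l i).1)) (10 * σ.CH) c (fun i => (l i).2) none).card +
        (ofina_del (D (tp fun i => (l i).1)) (10 * σ.CH) c (fun i => (l i).2) none).card := by
      exact_mod_cast card_le_card_sdiff_add_card
    rw [← hy]
    linarith
  · exact ofina_del_card _ c _ none ((hD2 _ t).le.trans ht)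
      (fun i hi => congrArg Prod.snd (ofina_mem_blk.1 hi).2)

end Ext

end Pool.Agent.P.MP_85fe51_lc.OD
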