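import Pool.Agent.P.MP_85fe51_lc.ODeg
import Pool.Agent.P.MP_85fe51_lc.ODot

set_option autoImplicit false

namespace Pool.Agent.P.MP_85fe51_lc.OD

open Finset
open scoped Classical

variable {p : ℕ} [Fact p.Prime]

theorem ogrp_shift {ι M : Type} [Fintype ι] [DecidableEq ι] [AddCommGroup M]
    (a a' : ι → ZMod p) (h : a' ≠ a) (m : M) :
    ∑ ℓ : ι → ZMod p, (if ∑ i, ℓ i * a' i = ∑ i, ℓ i * a i then m else 0) =
      ∑ ℓ : ι → ZMod p, (if ∑ i, ℓ i * a' i = ∑ i, ℓ i * a i + 1 then m else 0) := by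
  obtain ⟨i0, hi0⟩ := Function.ne_iff.mp h
  have hd : a' i0 - a i0 ≠ 0 := sub_ne_zero.mpr hi0
  refine Fintype.sum_equiv (Equiv.addRight (Pi.single i0 (a' i0 - a i0)⁻¹)) _ _ ?_
  intro ℓ
  have e1 : ∀ b : ι → ZMod p,
      ∑ i, (Equiv.addRight (Pi.single i0 (a' i0 - a i0)⁻¹ : ι → ZMod p) ℓ) i * b i
        = ∑ i, ℓ i * b i + (a' i0 - a i0)⁻¹ * b i0 := by
    intro b
    simp only [Equiv.coe_addRight, Pi.add_apply, add_mul, sum_add_distrib]
    congr 1
    rw [sum_eq_single i0]
    · rw [Pi.single_eq_same]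
    · intro i _ hi
      rw [Pi.single_eq_of_ne hi, zero_mul]
    · intro hh
      exact absurd (mem_univ _) hh
  rw [e1, e1]
  have e2 : (a' i0 - a i0)⁻¹ * a' i0 = (a' i0 - a i0)⁻¹ * a i0 + 1 := by
    rw [← inv_mul_cancel₀ hd]
    ring
  rw [e2, add_assoc]
  simp only [add_left_inj]

/-- every map on a vector space over the prime field is a sum of sum-zero ridge functions. -/
theorem radon {ι M : Type} [Fintype ι] [DecidableEq ι] [AddCommGroup M] [Fintype M]
    (hM : Nat.Coprime (Fintype.card M) p) (φ : (ι → ZMod p) → M) :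
    ∃ ψ : (ι → ZMod p) → ZMod p → M, (∀ ℓ, SZ (ψ ℓ)) ∧
      ∀ a, φ a = ∑ ℓ : ι → ZMod p, ψ ℓ (∑ i, ℓ i * a i) := by
  have hcop : Nat.Coprime (Nat.card M) (Fintype.card (ι → ZMod p)) := by
    rw [Nat.card_eq_fintype_card, Fintype.card_fun, ZMod.card]
    exact Nat.Coprime.pow_right _ hM
  have hex : ∀ a, ∃ m : M, Fintype.card (ι → ZMod p) • m = φ a := fun a =>
    (nsmulCoprime hcop).surjective (φ a)
  choose φ' hφ' using hex
  refine ⟨fun ℓ s => ∑ a' : ι → ZMod p,
    ((if ∑ i, ℓ i * a' i = s then φ' a' else 0) -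
      (if ∑ i, ℓ i * a' i = s + 1 then φ' a' else 0)), ?_, ?_⟩
  · intro ℓ
    unfold SZ
    rw [sum_comm]
    apply sum_eq_zero
    intro a' _
    rw [sum_sub_distrib, sum_ite_eq, if_pos (mem_univ _)]
    have h1 : ∀ s : ZMod p, (∑ i, ℓ i * a' i = s + 1) ↔ (∑ i, ℓ i * a' i - 1 = s) := fun s =>
      sub_eq_iff_eq_add.symm
    simp only [h1]
    rw [sum_ite_eq, if_pos (mem_univ _), sub_self]
  · intro a
    rw [sum_comm, sum_eq_single a]
    · rw [← hφ' a]
      have h1 : ∀ s : ZMod p, ¬ (s = s + 1) := fun s h => by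
        simp at h
      simp only [h1, if_true, if_false, sub_zero, sum_const, card_univ]
    · intro a' _ ha'
      rw [sum_sub_distrib, ogrp_shift a a' ha' (φ' a'), sub_self]
    · intro h
      exact absurd (mem_univ a) h

theorem cocycle_data (G : Type) [Group G] [Finite G] (N : Subgroup G) [N.Normal]
    (hN : Nat.Coprime (Nat.card N) p) (hP : IsPGroup p (G ⧸ N))
    (hpow : ∀ g : G, ∀ a ∈ N, g ^ p * a = a * g ^ p)
    (hcom : ∀ g h : G, ∀ a ∈ N, g * h * g⁻¹ * h⁻¹ * a = a * (g * h * g⁻¹ * h⁻¹)) :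
    ∃ (M : Type) (_ : AddCommGroup M) (_ : Fintype M) (Q : Type) (_ : CommGroup Q)
      (α : G →* Q) (c : Q → G → M) (ν : G → M),
      Nat.Coprime (Fintype.card M) p ∧ (∀ q : Q, q ^ p = 1) ∧ ν 1 = 0 ∧
      (∀ g g' : G, ν (g * g') = ν g + c (α g) g') ∧
      ∀ g g' : G, ν g = ν g' → (g : G ⧸ N) = (g' : G ⧸ N) → g = g' := by
  have hcomm : ∀ a b : N, a * b = b * a := by
    intro a b
    obtain ⟨a0, rfl⟩ := (powCoprime hN).surjective a
    apply Subtype.ext
    have h2 := hpow (a0 : G) b b.2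
    simpa using h2
  obtain ⟨e, he⟩ := IsPGroup.exists_card_eq hP
  have hcop : Nat.Coprime (Nat.card N) N.index := by
    rw [Subgroup.index_eq_card, he]
    exact Nat.Coprime.pow_right e hN
  obtain ⟨H, hH⟩ := Subgroup.exists_right_complement'_of_coprime hcop
  have hex : ∀ g : G, ∃ n : N, ∃ h : H, (n : G) * (h : G) = g := by
    intro g
    obtain ⟨⟨n, h⟩, hnh⟩ := hH.2 g
    exact ⟨n, h, hnh⟩
  have huniq : ∀ (n n' : N) (h h' : H), (n : G) * (h : G) = (n' : G) * (h' : G) → n = n' := by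
    intro n n' h h' hnh
    have := hH.1 (a₁ := (n, h)) (a₂ := (n', h')) hnh
    exact congrArg Prod.fst this
  choose nu eta hne using hex
  let cN : CommGroup N := { (inferInstance : Group N) with mul_comm := hcomm }
  let A : G →* MulAut N := MulAut.conjNormal
  have hker : ∀ g : G, (∀ a ∈ N, g * a = a * g) → A g = 1 := by
    intro g hg
    ext a
    simp only [A, MulAut.conjNormal_apply, MulAut.one_apply]
    rw [hg a a.2]
    group
  have hQ : ∀ q : A.range, q ^ p = 1 := by
    rintro ⟨q, g, rfl⟩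
    apply Subtype.ext
    show A g ^ p = 1
    rw [← map_pow]
    exact hker _ (hpow g)
  have hQc : ∀ q q' : A.range, q * q' = q' * q := by
    rintro ⟨q, g, rfl⟩ ⟨q', g', rfl⟩
    apply Subtype.ext
    show A g * A g' = A g' * A g
    have h1 := hker _ (hcom g g')
    rw [map_mul, map_mul, map_mul, map_inv, map_inv] at h1
    calc A g * A g' = A g * A g' * (A g)⁻¹ * (A g')⁻¹ * (A g' * A g) := by group
      _ = A g' * A g := by rw [h1, one_mul]
  let cQ : CommGroup A.range :=
    { (inferInstance : Group A.range) with mul_comm := hQc }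
  refine ⟨Additive N, Additive.addCommGroup, Fintype.ofFinite _, A.range, cQ, A.rangeRestrict,
    fun q g' => Additive.ofMul (q.1 (nu g')), fun g => Additive.ofMul (nu g), ?_, hQ, ?_, ?_, ?_⟩
  · rw [← @Nat.card_eq_fintype_card _ (Fintype.ofFinite _)]
    exact hN
  · have : nu 1 = 1 := huniq (nu 1) 1 (eta 1) 1 (by rw [hne]; simp)
    show Additive.ofMul (nu 1) = 0
    rw [this]
    rfl
  · intro g g'
    have key : nu (g * g') = nu g * A g (nu g') := by
      apply huniq _ _ (eta (g * g')) (eta g * eta g')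
      rw [hne]
      have hc : ((nu g : N) : G) * (A g (nu g') : N) = (A g (nu g') : N) * (nu g : N) := by
        rw [← Subgroup.coe_mul, ← Subgroup.coe_mul, hcomm]
      rw [Subgroup.coe_mul, Subgroup.coe_mul, hc]
      simp only [A, MulAut.conjNormal_apply]
      have e1 := hne g
      have e2 := hne g'
      calc g * g' = g * ((nu g' : G) * (eta g' : G)) := by rw [e2]
        _ = g * (nu g' : G) * g⁻¹ * g * (eta g' : G) := by group
        _ = g * (nu g' : G) * g⁻¹ * ((nu g : G) * (eta g : G)) * (eta g' : G) := by rw [e1]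
        _ = g * (nu g' : G) * g⁻¹ * (nu g : G) * ((eta g : G) * (eta g' : G)) := by group
    show Additive.ofMul (nu (g * g')) = Additive.ofMul (nu g) + Additive.ofMul (A g (nu g'))
    rw [key]
    rfl
  · intro g g' hν hq
    have hn : nu g = nu g' := Additive.ofMul.injective hν
    have hmem : g⁻¹ * g' ∈ N := QuotientGroup.eq.mp hq
    have e1 := hne g
    have e2 := hne g'
    have e3 : g⁻¹ * g' = ((eta g)⁻¹ * eta g' : H) := by
      rw [Subgroup.coe_mul, Subgroup.coe_inv]
      calc g⁻¹ * g' = ((nu g : G) * (eta g : G))⁻¹ * ((nu g' : G) * (eta g' : G)) := by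
            rw [e1, e2]
        _ = (eta g : G)⁻¹ * (eta g' : G) := by rw [hn]; group
    have hmemH : g⁻¹ * g' ∈ H := by
      rw [e3]
      exact Subtype.property _
    have h1 : g⁻¹ * g' = 1 := Subgroup.disjoint_def.mp hH.disjoint hmem hmemH
    exact inv_mul_eq_one.mp h1

theorem ogrp_pow_add {Q : Type} [CommGroup Q] (q : Q) (hq : q ^ p = 1) (s t : ZMod p) :
    q ^ (s + t).val = q ^ s.val * q ^ t.val := by
  rw [ZMod.val_add, ← pow_eq_pow_mod _ hq, pow_add]

theorem ogrp_dot_single {X : Type} [Fintype X] [DecidableEq X] (x : X) (A : Finset X) :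
    dot (Pi.single x (1 : ZMod p) : Vec p X) A = if x ∈ A then 1 else 0 := by
  unfold dot
  simp only [Pi.single_apply]
  rw [sum_ite_eq']

theorem ogrp_form {G Q X : Type} [Group G] [Fintype G] [CommGroup Q] [Fintype X] [DecidableEq X]
    (α : G →* Q) (hQ : ∀ q : Q, q ^ p = 1) (l : List (X × G × G)) :
    ∃ (lam : G → Vec p X) (k : Q), ∀ A : Finset X,
      α (prog l A) = k * ∏ g : G, α g ^ (dot (lam g) A).val := by
  induction l using List.reverseRecOn with
  | nil =>
    refine ⟨fun _ => 0, 1, fun A => ?_⟩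
    rw [prog_nil]
    simp [dot_zero]
  | append_singleton l q ih =>
    obtain ⟨lam, k, hk⟩ := ih
    refine ⟨fun g => lam g + if g = q.2.2⁻¹ * q.2.1 then Pi.single q.1 1 else 0, k * α q.2.2,
      fun A => ?_⟩
    rw [prog_snoc, map_mul, hk]
    have e1 : ∀ g : G,
        α g ^ (dot (lam g + if g = q.2.2⁻¹ * q.2.1 then (Pi.single q.1 1 : Vec p X) else 0) A).val
        = α g ^ (dot (lam g) A).val *
          (if g = q.2.2⁻¹ * q.2.1 then (if q.1 ∈ A then α g else 1) else 1) := by
      intro g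
      rw [dot_add, ogrp_pow_add _ (hQ _)]
      congr 1
      by_cases hg : g = q.2.2⁻¹ * q.2.1
      · rw [if_pos hg, if_pos hg, ogrp_dot_single]
        by_cases hA : q.1 ∈ A
        · rw [if_pos hA, if_pos hA, ZMod.val_one, pow_one]
        · rw [if_neg hA, if_neg hA, ZMod.val_zero, pow_zero]
      · rw [if_neg hg, if_neg hg, dot_zero, ZMod.val_zero, pow_zero]
    rw [prod_congr rfl (fun g _ => e1 g), prod_mul_distrib, prod_ite_eq']
    simp only [mem_univ, if_true]
    have e2 : α (if q.1 ∈ A then q.2.1 else q.2.2)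
        = α q.2.2 * (if q.1 ∈ A then α (q.2.2⁻¹ * q.2.1) else 1) := by
      by_cases h1 : q.1 ∈ A
      · simp only [if_pos h1, ← map_mul, mul_inv_cancel_left]
      · simp only [if_neg h1, mul_one]
    rw [e2]
    ac_rfl

theorem ogrp_sparse {G Q M X : Type} [Group G] [Fintype G] [CommGroup Q] [AddCommGroup M]
    [Fintype M] [Fintype X] [DecidableEq X] (hM : Nat.Coprime (Fintype.card M) p) (α : G →* Q)
    (hQ : ∀ q : Q, q ^ p = 1) (c : Q → G → M) (ν : G → M) (h1 : ν 1 = 0)
    (hν : ∀ g g' : G, ν (g * g') = ν g + c (α g) g') (l : List (X × G × G)) :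
    ∃ (T : Type) (_ : Fintype T) (lam : T → Vec p X) (phi : T → ZMod p → M),
      Fintype.card T ≤ Fintype.card (Option G → ZMod p) * l.length ∧ (∀ t, SZ (phi t)) ∧
      ∀ A, ν (prog l A) = Sf lam phi A := by
  induction l using List.reverseRecOn with
  | nil =>
    refine ⟨Empty, inferInstance, fun t => t.elim, fun t => t.elim, by simp, fun t => t.elim,
      fun A => ?_⟩
    rw [prog_nil, h1]
    simp [Sf]
  | append_singleton l q ih =>
    obtain ⟨T, iT, lam, phi, hT, hSZ, hS⟩ := ih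
    obtain ⟨mu, k, hk⟩ := ogrp_form α hQ l
    obtain ⟨ψ, hψ, hψ'⟩ := radon hM (fun a : Option G → ZMod p =>
      c (k * ∏ g : G, α g ^ (a (some g)).val) (if a none = 1 then q.2.1 else q.2.2))
    let L : Option G → Vec p X := fun o => o.elim (Pi.single q.1 1) mu
    refine ⟨T ⊕ (Option G → ZMod p), inferInstance, Sum.elim lam (fun ℓ => ∑ o, ℓ o • L o),
      Sum.elim phi ψ, ?_, ?_, fun A => ?_⟩
    · rw [Fintype.card_sum, List.length_append, List.length_singleton, Nat.mul_succ]
      omega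
    · rintro (t | t)
      · exact hSZ t
      · exact hψ t
    · rw [prog_snoc, hν, hS A, hk A]
      unfold Sf
      rw [Fintype.sum_sum_type]
      simp only [Sum.elim_inl, Sum.elim_inr]
      congr 1
      have e1 : ∀ ℓ : Option G → ZMod p,
          dot (∑ o, ℓ o • L o) A = ∑ o, ℓ o * dot (L o) A := by
        intro ℓ
        rw [dot_sum]
        exact sum_congr rfl (fun o _ => dot_smul _ _ _)
      simp only [e1]
      rw [← hψ' (fun o => dot (L o) A)]
      have e2 : (dot (L none) A = 1) ↔ q.1 ∈ A := by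
        show dot (Pi.single q.1 1 : Vec p X) A = 1 ↔ _
        rw [ogrp_dot_single]
        by_cases hA : q.1 ∈ A <;> simp [hA]
      simp only [e2]
      rfl

/-- the normal part of a program value is a short sum of ridge functions. -/
theorem group_data (G : Type) [Group G] [Finite G] (N : Subgroup G) [N.Normal]
    (hN : Nat.Coprime (Nat.card N) p) (hP : IsPGroup p (G ⧸ N))
    (hpow : ∀ g : G, ∀ a ∈ N, g ^ p * a = a * g ^ p)
    (hcom : ∀ g h : G, ∀ a ∈ N, g * h * g⁻¹ * h⁻¹ * a = a * (g * h * g⁻¹ * h⁻¹)) :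
    ∃ (M : Type) (_ : AddCommGroup M) (_ : Fintype M) (ν : G → M) (C : ℕ),
      Nat.Coprime (Fintype.card M) p ∧
      (∀ g g' : G, ν g = ν g' → (g : G ⧸ N) = (g' : G ⧸ N) → g = g') ∧
      ∀ (X : Type) [Fintype X] [DecidableEq X] (l : List (X × G × G)),
        ∃ (T : Type) (_ : Fintype T) (lam : T → Vec p X) (phi : T → ZMod p → M),
          Fintype.card T ≤ C * l.length ∧ (∀ t, SZ (phi t)) ∧
          ∀ A, ν (prog l A) = Sf lam phi A := by
  obtain ⟨M, iM, fM, Q, iQ, α, c, ν, hM, hQ, h1, hν, hinj⟩ := cocycle_data G N hN hP hpow hcom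
  have : Fintype G := Fintype.ofFinite G
  refine ⟨M, iM, fM, ν, Fintype.card (Option G → ZMod p), hM, hinj, ?_⟩
  intro X _ _ l
  exact ogrp_sparse hM α hQ c ν h1 hν l

end Pool.Agent.P.MP_85fe51_lc.OD
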