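import Pool.Agent.P.MP_85fe51_lc.OFree
import Pool.Agent.P.MP_85fe51_lc.OVal
import Pool.Agent.P.MP_85fe51_lc.OEw

set_option autoImplicit false
set_option linter.unusedSectionVars false

namespace Pool.Agent.P.MP_85fe51_lc.OD

open Finset
open scoped Classical

variable {p : ℕ} [Fact p.Prime] {X : Type} [Fintype X] [DecidableEq X] {T : Type} {k j : ℕ}
  (P : Pat k j)

/-- the indicator of a proposition. -/
noncomputable def olaInd (q : Prop) : ℝ := if q then 1 else 0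

theorem olaInd_nonneg (q : Prop) : 0 ≤ olaInd q := by
  unfold olaInd; split_ifs <;> norm_num

theorem olaInd_pos {q : Prop} (h : q) : olaInd q = 1 := if_pos h

theorem olaInd_neg {q : Prop} (h : ¬ q) : olaInd q = 0 := if_neg h

theorem ola_pr {Ω : Type} (s : Finset Ω) (Q : Ω → Prop) :
    pr s Q = s.expect (fun x => olaInd (Q x)) := rfl

theorem ola_all {B : Type} [Fintype B] (q : B → Prop) :
    olaInd (∀ b, q b) = ∏ b, olaInd (q b) := by
  by_cases h : ∀ b, q b
  · rw [olaInd_pos h, Finset.prod_eq_one (fun b _ => olaInd_pos (h b))]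
  · rw [olaInd_neg h]
    obtain ⟨b, hb⟩ := not_forall.1 h
    exact (Finset.prod_eq_zero (mem_univ b) (olaInd_neg hb)).symm

theorem ola_pairs (a : Cp k j → Finset X) (G : Fin k → Finset X × ZMod p → Finset X × ZMod p → Prop) :
    pr (FSp p a) (fun ω => ∀ b, G b (ω (P.cp b false)) (ω (P.cp b true))) =
      ∏ b, ((a (P.cp b false)).powerset ×ˢ (univ : Finset (ZMod p))).expect (fun y =>
        ((a (P.cp b true)).powerset ×ˢ (univ : Finset (ZMod p))).expect (fun y' =>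
          olaInd (G b y y'))) := by
  rw [ola_pr]
  simp only [ola_all]
  exact expect_prod_pairs (fun κ => (a κ).powerset ×ˢ (univ : Finset (ZMod p)))
    (fun _ => (powerset_nonempty _).product univ_nonempty) (fun b => P.cp b false)
    (fun b => P.cp b true) (fun b b' h => (P.cp_inj h).1) (fun b b' h => (P.cp_inj h).1)
    (fun b b' h => Bool.false_ne_true (P.cp_inj h).2) (fun b y y' => olaInd (G b y y'))

theorem ola_eq (c d : ZMod p) :
    (univ : Finset (ZMod p)).expect (fun s => olaInd (c = s + d)) = 1 / (p : ℝ) := by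
  rw [expect_eq_sum_div_card, card_univ, ZMod.card,
    Finset.sum_eq_single (c - d) (fun s _ hs => olaInd_neg (fun h => hs (by rw [h]; ring)))
      (fun h => absurd (mem_univ _) h), olaInd_pos (by ring)]

theorem ola_ne (c d : ZMod p) :
    (univ : Finset (ZMod p)).expect (fun s => olaInd (c ≠ s + d)) = 1 - 1 / (p : ℝ) := by
  have h : ∀ s : ZMod p, olaInd (c ≠ s + d) = 1 - olaInd (c = s + d) := by
    intro s
    by_cases h : c = s + d
    · rw [olaInd_pos h, olaInd_neg (fun h' => h' h)]; norm_num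
    · rw [olaInd_neg h, olaInd_pos h]; norm_num
  simp only [h]
  rw [expect_sub_distrib, ola_eq, Finset.expect_const univ_nonempty]

theorem ola_ne_two (c d c' d' : ZMod p) :
    (univ : Finset (ZMod p)).expect (fun s => olaInd (c ≠ s + d ∧ c' ≠ s + d')) ≤
      1 - 2 / (p : ℝ) + 1 / (p : ℝ) * olaInd (c - c' = d - d') := by
  by_cases h : c - c' = d - d'
  · rw [olaInd_pos h]
    have h1 : (univ : Finset (ZMod p)).expect (fun s => olaInd (c ≠ s + d ∧ c' ≠ s + d')) ≤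
        (univ : Finset (ZMod p)).expect (fun s => olaInd (c ≠ s + d)) := by
      refine expect_le_expect (fun s _ => ?_)
      by_cases h2 : c ≠ s + d ∧ c' ≠ s + d'
      · rw [olaInd_pos h2, olaInd_pos h2.1]
      · rw [olaInd_neg h2]; exact olaInd_nonneg _
    rw [ola_ne] at h1
    refine h1.trans (le_of_eq ?_)
    ring
  · rw [olaInd_neg h]
    have h1 : ∀ s : ZMod p, olaInd (c ≠ s + d ∧ c' ≠ s + d') =
        1 - olaInd (c = s + d) - olaInd (c' = s + d') := by
      intro s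
      by_cases h2 : c = s + d
      · have h3 : ¬ c' = s + d' := fun h3 => h (by rw [h2, h3]; ring)
        rw [olaInd_pos h2, olaInd_neg h3, olaInd_neg (fun h' => h'.1 h2)]; norm_num
      · by_cases h3 : c' = s + d'
        · rw [olaInd_neg h2, olaInd_pos h3, olaInd_neg (fun h' => h'.2 h3)]; norm_num
        · rw [olaInd_neg h2, olaInd_neg h3, olaInd_pos ⟨h2, h3⟩]; norm_num
    simp only [h1]
    rw [expect_sub_distrib, expect_sub_distrib, ola_eq, ola_eq, Finset.expect_const univ_nonempty]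
    refine le_of_eq ?_
    ring

theorem ola_half (a : Finset X) (η : Vec p X) (h : ¬ Disjoint (supp η) a) (c : ZMod p) :
    a.powerset.expect (fun A => olaInd (dot η A = c)) ≤ 1 / 2 := by
  obtain ⟨i, hi, hia⟩ := Finset.not_disjoint_iff.1 h
  have hd : Disjoint (a.erase i) {i} := disjoint_singleton_right.2 (notMem_erase i a)
  have ha : a = a.erase i ∪ {i} := by
    rw [union_comm, ← insert_eq, insert_erase hia]
  rw [ha, expect_powerset_union hd]
  refine expect_le (powerset_nonempty _) (fun A hA => ?_)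
  have hA' : Disjoint A {i} := Disjoint.mono_left (mem_powerset.1 hA) hd
  have hp : ({i} : Finset X).powerset = {∅, {i}} := by
    ext B; simp [subset_singleton_iff]
  have hne : (∅ : Finset X) ≠ {i} := (singleton_ne_empty i).symm
  rw [hp, expect_eq_sum_div_card, sum_pair hne, card_pair hne, union_empty, dot_union η hA']
  have h1 : dot η {i} = η i := by simp [dot]
  have h2 : olaInd (dot η A = c) + olaInd (dot η A + dot η {i} = c) ≤ 1 := by
    by_cases h3 : dot η A = c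
    · have h4 : ¬ dot η A + dot η {i} = c := by
        rw [h1, h3]; intro h4; exact mem_supp.1 hi (by simpa using h4)
      rw [olaInd_pos h3, olaInd_neg h4]; norm_num
    · rw [olaInd_neg h3, zero_add]; unfold olaInd; split_ifs <;> norm_num
  push_cast
  linarith

theorem fsurv_eq (a : Cp k j → Finset X) (δ : Vec p X) : pr (FSp p a) (FSurv P δ) = piK p k := by
  have h := ola_pairs P a (fun _ (y y' : Finset X × ZMod p) => y.2 + dot δ y.1 ≠ y'.2 + dot δ y'.1)
  refine h.trans ?_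
  have h1 : ∀ (s : Finset X) (y : Finset X × ZMod p),
      (s.powerset ×ˢ (univ : Finset (ZMod p))).expect
        (fun y' => olaInd (y.2 + dot δ y.1 ≠ y'.2 + dot δ y'.1)) = 1 - 1 / (p : ℝ) := by
    intro s y
    rw [expect_product]
    simp only [ola_ne]
    exact Finset.expect_const (powerset_nonempty _) _
  simp only [h1]
  rw [Finset.prod_congr rfl (fun b _ =>
    Finset.expect_const ((powerset_nonempty _).product univ_nonempty) _)]
  simp [piK]

theorem ola_base : (0 : ℝ) ≤ 1 - 3 / (2 * p : ℝ) := by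
  have h : (2 : ℝ) ≤ p := by exact_mod_cast (Fact.out : p.Prime).two_le
  rw [sub_nonneg, div_le_one (by linarith)]
  linarith

theorem pair_free (a : Cp k j → Finset X) (δ δ' : Vec p X)
    (h : ∀ b, ¬ Disjoint (supp (δ - δ')) (a (P.cp b false))) :
    pr (FSp p a) (fun ω => FSurv P δ ω ∧ FSurv P δ' ω) ≤ (1 - 3 / (2 * p : ℝ)) ^ k := by
  have h0 := ola_pairs P a (fun _ (y y' : Finset X × ZMod p) =>
    y.2 + dot δ y.1 ≠ y'.2 + dot δ y'.1 ∧ y.2 + dot δ' y.1 ≠ y'.2 + dot δ' y'.1)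
  have h1 : (fun ω : Cp k j → Finset X × ZMod p => FSurv P δ ω ∧ FSurv P δ' ω) = fun ω => ∀ b,
      (ω (P.cp b false)).2 + dot δ (ω (P.cp b false)).1 ≠
        (ω (P.cp b true)).2 + dot δ (ω (P.cp b true)).1 ∧
      (ω (P.cp b false)).2 + dot δ' (ω (P.cp b false)).1 ≠
        (ω (P.cp b true)).2 + dot δ' (ω (P.cp b true)).1 := by
    funext ω
    exact propext forall_and.symm
  rw [h1, h0]
  have hp : (0 : ℝ) < p := by exact_mod_cast (Fact.out : p.Prime).pos
  calc _ ≤ ∏ _b : Fin k, (1 - 3 / (2 * p : ℝ)) := by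
        refine Finset.prod_le_prod (fun b _ => expect_nonneg (fun y _ =>
          expect_nonneg (fun y' _ => olaInd_nonneg _))) (fun b _ => ?_)
        have h2 : ∀ y : Finset X × ZMod p,
            ((a (P.cp b true)).powerset ×ˢ (univ : Finset (ZMod p))).expect (fun y' => olaInd
              (y.2 + dot δ y.1 ≠ y'.2 + dot δ y'.1 ∧ y.2 + dot δ' y.1 ≠ y'.2 + dot δ' y'.1)) ≤
            (a (P.cp b true)).powerset.expect (fun B => 1 - 2 / (p : ℝ) +
              1 / (p : ℝ) * olaInd (dot (δ - δ') y.1 = dot (δ - δ') B)) := by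
          intro y
          rw [expect_product]
          refine expect_le_expect (fun B _ => ?_)
          have h5 := ola_ne_two (y.2 + dot δ y.1) (dot δ B) (y.2 + dot δ' y.1) (dot δ' B)
          rw [add_sub_add_left_eq_sub, ← dot_sub, ← dot_sub] at h5
          exact h5
        refine (expect_le_expect (fun y _ => h2 y)).trans ?_
        rw [expect_comm]
        refine expect_le (powerset_nonempty _) (fun B _ => ?_)
        rw [expect_product]
        simp only [Finset.expect_const (univ_nonempty (α := ZMod p))]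
        rw [expect_add_distrib, Finset.expect_const (powerset_nonempty _), ← mul_expect]
        have h3 := mul_le_mul_of_nonneg_left (ola_half _ _ (h b) (dot (δ - δ') B))
          (one_div_pos.2 hp).le
        have h4 : 1 - 2 / (p : ℝ) + 1 / (p : ℝ) * (1 / 2) = 1 - 3 / (2 * p : ℝ) := by
          field_simp; ring
        linarith
    _ = _ := by simp

/-- `Phi` as a sum over the terms, each written with the quotient `δ t = (u t)⁻¹ • d t`. -/
theorem Phi_eq {V : Type} [AddCommGroup V] (phi : T → ZMod p → V) (Tt : Finset T)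
    (u : T → ZMod p) (hu : ∀ t ∈ Tt, u t ≠ 0) (d : T → Vec p X) (ω : Cp k j → Finset X × ZMod p)
    (y : ZMod p) :
    Phi P phi Tt u d ω y = ∑ t ∈ Tt, ∑ ε : Fin k → Bool, sgn ε •
      phi t (u t * (y + sval P (fun κ => (ω κ).2 + dot ((u t)⁻¹ • d t) (ω κ).1) ε)) := by
  unfold Phi
  rw [sum_comm]
  refine sum_congr rfl (fun ε _ => ?_)
  rw [smul_sum]
  refine sum_congr rfl (fun t ht => ?_)
  have h1 : sval P (fun κ => (ω κ).2 + dot ((u t)⁻¹ • d t) (ω κ).1) ε =
      sval P (fun κ => (ω κ).2) ε + (u t)⁻¹ * val P (d t) (fun κ => (ω κ).1) ε := by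
    rw [sval_add P (fun κ => (ω κ).2) (fun κ => dot ((u t)⁻¹ • d t) (ω κ).1)]
    simp only [dot_smul]
    rw [sval_mul P (u t)⁻¹ (fun κ => dot (d t) (ω κ).1)]
    rfl
  have h2 : u t * (y + (sval P (fun κ => (ω κ).2) ε +
      (u t)⁻¹ * val P (d t) (fun κ => (ω κ).1) ε)) =
      u t * (y + sval P (fun κ => (ω κ).2) ε) + val P (d t) (fun κ => (ω κ).1) ε := by
    have := hu t ht
    field_simp
    ring
  rw [h1, h2]

theorem Phi_subset {V : Type} [AddCommGroup V] (phi : T → ZMod p → V) {Tt Tt' : Finset T}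
    (hT : Tt' ⊆ Tt) (u : T → ZMod p) (hu : ∀ t ∈ Tt, u t ≠ 0) (d : T → Vec p X)
    (ω : Cp k j → Finset X × ZMod p)
    (h : ∀ t ∈ Tt, t ∉ Tt' → ¬ FSurv P ((u t)⁻¹ • d t) ω) (y : ZMod p) :
    Phi P phi Tt u d ω y = Phi P phi Tt' u d ω y := by
  rw [Phi_eq P phi Tt u hu, Phi_eq P phi Tt' u (fun t ht => hu t (hT ht))]
  refine (sum_subset hT (fun t ht ht' => ?_)).symm
  obtain ⟨b, hb⟩ := not_forall.1 (h t ht ht')
  exact sum_sgn_sval P (fun z => phi t (u t * z))
    (fun κ => (ω κ).2 + dot ((u t)⁻¹ • d t) (ω κ).1) (not_not.1 hb) y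

theorem pair_label (Y : Finset X) {w : X → Lab k j → ℝ} (hw : IsW w) (D : Finset X) {ρ : ℝ}
    (hρ1 : ρ ≤ 1) (δ δ' : Vec p X) (hD : D ⊆ supp (δ - δ') ∩ Y)
    (hρ : ∀ i ∈ D, ∀ b, ρ ≤ w i (some (P.ab b, false)) + w i (some (P.ab b, true))) :
    Ew w (fun l => pr (FSp p (cset P Y l)) (fun ω => FSurv P δ ω ∧ FSurv P δ' ω)) ≤
      (1 - 3 / (2 * p : ℝ)) ^ k + k * (1 - ρ) ^ D.card := by
  have h0 : (0 : ℝ) ≤ (1 - 3 / (2 * p : ℝ)) ^ k := pow_nonneg ola_base k
  have h1 : ∀ l : X → Lab k j,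
      pr (FSp p (cset P Y l)) (fun ω => FSurv P δ ω ∧ FSurv P δ' ω) ≤
        (1 - 3 / (2 * p : ℝ)) ^ k + ∑ b : Fin k, olaInd (∀ i ∈ D,
          ¬ (l i = some (P.ab b, false) ∨ l i = some (P.ab b, true))) := by
    intro l
    by_cases h : ∀ b, ¬ Disjoint (supp (δ - δ')) (cset P Y l (P.cp b false))
    · exact (pair_free P _ δ δ' h).trans
        (le_add_of_nonneg_right (sum_nonneg (fun b _ => olaInd_nonneg _)))
    · obtain ⟨b, hb⟩ := not_forall.1 h
      have h2 : ∀ i ∈ D, ¬ (l i = some (P.ab b, false) ∨ l i = some (P.ab b, true)) := by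
        intro i hi hl
        refine hb (Finset.not_disjoint_iff.2 ⟨i, (mem_inter.1 (hD hi)).1, ?_⟩)
        rw [cset, P.atm_cp, atomSet]
        exact mem_filter.2 ⟨(mem_inter.1 (hD hi)).2, hl⟩
      have h3 := Finset.single_le_sum (f := fun b : Fin k => olaInd (∀ i ∈ D,
          ¬ (l i = some (P.ab b, false) ∨ l i = some (P.ab b, true))))
        (fun b _ => olaInd_nonneg _) (mem_univ b)
      rw [olaInd_pos h2] at h3
      linarith [pr_le_one (FSp p (cset P Y l)) (fun ω => FSurv P δ ω ∧ FSurv P δ' ω)]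
  refine (Ew_mono hw (fun l _ => h1 l)).trans ?_
  rw [Ew_add, Ew_const hw, Ew_sum]
  refine add_le_add le_rfl ?_
  calc _ ≤ ∑ _b : Fin k, (1 - ρ) ^ D.card := by
        refine sum_le_sum (fun b _ => ?_)
        have h4 := Pw_all hw D
          (fun a => ¬ (a = some (P.ab b, false) ∨ a = some (P.ab b, true)))
        refine (le_of_eq h4).trans ?_
        rw [← prod_const]
        refine Finset.prod_le_prod (fun i _ => sum_nonneg (fun a _ => hw.1 i a)) (fun i hi => ?_)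
        have hne : (some (P.ab b, false) : Lab k j) ≠ some (P.ab b, true) := by simp
        have h5 := Finset.sum_sdiff (f := w i)
          (subset_univ ({some (P.ab b, false), some (P.ab b, true)} : Finset (Lab k j)))
        rw [sum_pair hne, hw.2 i] at h5
        have h6 := hρ i hi b
        refine (le_of_eq (sum_congr (s₂ := univ \ {some (P.ab b, false), some (P.ab b, true)})
          ?_ (fun _ _ => rfl))).trans (by linarith)
        ext a
        simp
    _ = _ := by simp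

variable [Fintype T]

theorem ola_cluster (σ : Ext p X T) {t0 t1 : T} (h0 : 9 * σ.CH + σ.r ≤ wtm σ.U (σ.lam t0))
    (h1 : t1 ∈ σ.LCl t0) :
    σ.Heavy t1 ∧ σ.LCl t1 = (σ.Mid t0).filter (fun t => wt (σ.de t0 t - σ.de t0 t1) ≤ σ.r) ∧
      ∀ t ∈ σ.LCl t1, σ.uu t0 t = σ.uu t1 t * σ.uu t0 t1 ∧
        σ.dd t0 t = σ.dd t1 t + σ.uu t1 t • σ.dd t0 t1 := by
  obtain ⟨hm, hw1⟩ := mem_filter.1 h1
  obtain ⟨hu1, hU1, hY1, -, -⟩ := σ.rep t0 t1 hm
  have hr := σ.hr
  have hH0 : σ.Heavy t0 := le_trans (Nat.le_add_right _ _) h0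
  have hH1 : σ.Heavy t1 := by
    have e1 : wtm σ.U (σ.uu t0 t1 • σ.lam t0) = wtm σ.U (σ.lam t1 + -σ.dd t0 t1) := by
      refine wtm_congr ?_
      have := σ.U.neg_mem hU1
      have e : σ.uu t0 t1 • σ.lam t0 - (σ.lam t1 + -σ.dd t0 t1) =
          -(σ.lam t1 - σ.uu t0 t1 • σ.lam t0 - σ.dd t0 t1) := by abel
      rw [e]; exact this
    have e2 := wtm_add_le σ.U (σ.lam t1) (-σ.dd t0 t1)
    have e3 : wtm σ.U (-σ.dd t0 t1) ≤ wt (-σ.dd t0 t1) := wtm_le (by simp)
    rw [wt_neg] at e3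
    rw [wtm_smul _ hu1] at e1
    unfold Ext.Heavy
    omega
  have hA : ∀ t ∈ σ.LCl t1, t ∈ σ.Mid t0 ∧ σ.uu t0 t = σ.uu t1 t * σ.uu t0 t1 ∧
      σ.dd t0 t = σ.dd t1 t + σ.uu t1 t • σ.dd t0 t1 := by
    intro t ht
    obtain ⟨hm', hw'⟩ := mem_filter.1 ht
    obtain ⟨hu, hU, hY, -, -⟩ := σ.rep t1 t hm'
    refine σ.rep_unique hH0 (mul_ne_zero hu hu1) ?_ ?_ ?_
    · have e : σ.lam t - (σ.uu t1 t * σ.uu t0 t1) • σ.lam t0 -
          (σ.dd t1 t + σ.uu t1 t • σ.dd t0 t1) = (σ.lam t - σ.uu t1 t • σ.lam t1 - σ.dd t1 t) +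
          σ.uu t1 t • (σ.lam t1 - σ.uu t0 t1 • σ.lam t0 - σ.dd t0 t1) := by
        module
      rw [e]; exact σ.U.add_mem hU (σ.U.smul_mem _ hU1)
    · exact mem_co_iff.1 ((co σ.Y).add_mem (mem_co_iff.2 hY)
        ((co σ.Y).smul_mem _ (mem_co_iff.2 hY1)))
    · have e := wt_add_le (σ.dd t1 t) (σ.uu t1 t • σ.dd t0 t1)
      rw [wt_smul hu] at e
      omega
  refine ⟨hH1, ?_, fun t ht => (hA t ht).2⟩
  ext t
  constructor
  · intro ht
    obtain ⟨a1, a2, a3⟩ := hA t ht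
    obtain ⟨hm', hw'⟩ := mem_filter.1 ht
    have hu := (σ.rep t1 t hm').1
    refine mem_filter.2 ⟨a1, ?_⟩
    have e : σ.de t0 t - σ.de t0 t1 = (σ.uu t1 t * σ.uu t0 t1)⁻¹ • σ.dd t1 t := by
      unfold Ext.de
      rw [a2, a3, smul_add, smul_smul]
      have : (σ.uu t1 t * σ.uu t0 t1)⁻¹ * σ.uu t1 t = (σ.uu t0 t1)⁻¹ := by field_simp
      rw [this, add_sub_cancel_right]
    rw [e, wt_smul (inv_ne_zero (mul_ne_zero hu hu1))]
    exact hw'
  · intro ht
    obtain ⟨hm', hw'⟩ := mem_filter.1 ht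
    obtain ⟨hu, hU, hY, -, -⟩ := σ.rep t0 t hm'
    have e : σ.uu t0 t • (σ.de t0 t - σ.de t0 t1) =
        σ.dd t0 t - (σ.uu t0 t * (σ.uu t0 t1)⁻¹) • σ.dd t0 t1 := by
      unfold Ext.de
      rw [smul_sub, smul_smul, smul_smul, mul_inv_cancel₀ hu, one_smul]
    have hw2 : wt (σ.dd t0 t - (σ.uu t0 t * (σ.uu t0 t1)⁻¹) • σ.dd t0 t1) ≤ σ.r := by
      rw [← e, wt_smul hu]; exact hw'
    have hco : σ.dd t0 t - (σ.uu t0 t * (σ.uu t0 t1)⁻¹) • σ.dd t0 t1 ∈ (co σ.Y : Sub p X) :=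
      Submodule.sub_mem _ (mem_co_iff.2 hY) (Submodule.smul_mem _ _ (mem_co_iff.2 hY1))
    obtain ⟨a1, -, a3⟩ := σ.rep_unique (e := t1) (t := t) hH1
      (u := σ.uu t0 t * (σ.uu t0 t1)⁻¹) (mul_ne_zero hu (inv_ne_zero hu1))
      (d := σ.dd t0 t - (σ.uu t0 t * (σ.uu t0 t1)⁻¹) • σ.dd t0 t1) (by
        have e2 : σ.lam t - (σ.uu t0 t * (σ.uu t0 t1)⁻¹) • σ.lam t1 -
            (σ.dd t0 t - (σ.uu t0 t * (σ.uu t0 t1)⁻¹) • σ.dd t0 t1) =
            (σ.lam t - σ.uu t0 t • σ.lam t0 - σ.dd t0 t) - (σ.uu t0 t * (σ.uu t0 t1)⁻¹) •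
              (σ.lam t1 - σ.uu t0 t1 • σ.lam t0 - σ.dd t0 t1) := by
          rw [smul_sub, smul_sub, smul_smul, inv_mul_cancel_right₀ hu1]
          abel
        rw [e2]; exact σ.U.sub_mem hU (σ.U.smul_mem _ hU1))
      (mem_co_iff.1 hco) (by omega)
    exact mem_filter.2 ⟨a1, by rw [a3]; exact hw2⟩

/-- moving the centre of a cluster. -/
theorem Ext.recentre (σ : Ext p X T) {V : Type} [AddCommGroup V] (phi : T → ZMod p → V)
    {t0 t1 : T} (h0 : 9 * σ.CH + σ.r ≤ wtm σ.U (σ.lam t0)) (h1 : t1 ∈ σ.LCl t0)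
    (l : X → Lab k j) :
    σ.Heavy t1 ∧ σ.pfe P phi t1 l = pr (FSp p (cset P σ.Y l)) (fun ω => FSurv P (σ.de t0 t1) ω ∧
      ∃ y, Phi P phi ((σ.Mid t0).filter (fun t => wt (σ.de t0 t - σ.de t0 t1) ≤ σ.r))
        (σ.uu t0) (σ.dd t0) ω y ≠ 0) := by
  obtain ⟨hH, hL, hA⟩ := ola_cluster σ h0 h1
  have hu1 : σ.uu t0 t1 ≠ 0 := (σ.rep t0 t1 (mem_filter.1 h1).1).1
  refine ⟨hH, ?_⟩
  rw [← hL]
  unfold Ext.pfe pf
  rw [ola_pr, ola_pr]
  symm
  refine expect_nbij'
    (fun ω κ => ((ω κ).1, σ.uu t0 t1 * (ω κ).2 + dot (σ.dd t0 t1) (ω κ).1))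
    (fun ω κ => ((ω κ).1, (σ.uu t0 t1)⁻¹ * ((ω κ).2 - dot (σ.dd t0 t1) (ω κ).1)))
    (fun ω hω => Fintype.mem_piFinset.2 (fun κ => mem_product.2
      ⟨(mem_product.1 (Fintype.mem_piFinset.1 hω κ)).1, mem_univ _⟩))
    (fun ω hω => Fintype.mem_piFinset.2 (fun κ => mem_product.2
      ⟨(mem_product.1 (Fintype.mem_piFinset.1 hω κ)).1, mem_univ _⟩))
    (fun ω _ => funext (fun κ => Prod.ext rfl (by
      simp only [add_sub_cancel_right]; exact inv_mul_cancel_left₀ hu1 _)))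
    (fun ω _ => funext (fun κ => Prod.ext rfl (by
      simp only [mul_inv_cancel_left₀ hu1, sub_add_cancel])))
    (fun ω _ => congrArg olaInd (propext (and_congr ?_ ?_)))
  · refine forall_congr' (fun b => not_congr ?_)
    have e : ∀ z : Finset X × ZMod p, σ.uu t0 t1 * z.2 + dot (σ.dd t0 t1) z.1 =
        σ.uu t0 t1 * (z.2 + dot (σ.de t0 t1) z.1) := by
      intro z
      unfold Ext.de
      rw [dot_smul, mul_add, mul_inv_cancel_left₀ hu1]
    simp only [e]
    exact (mul_right_inj' hu1).symm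
  · have e : ∀ y, Phi P phi (σ.LCl t1) (σ.uu t1) (σ.dd t1)
        (fun κ => ((ω κ).1, σ.uu t0 t1 * (ω κ).2 + dot (σ.dd t0 t1) (ω κ).1)) (σ.uu t0 t1 * y) =
        Phi P phi (σ.LCl t1) (σ.uu t0) (σ.dd t0) ω y := by
      intro y
      unfold Phi
      refine sum_congr rfl (fun ε _ => congrArg _ (sum_congr rfl (fun t ht => congrArg _ ?_)))
      obtain ⟨a2, a3⟩ := hA t ht
      rw [a2, a3]
      unfold val
      simp only [dot_add, dot_smul]
      rw [sval_add P (fun κ => σ.uu t0 t1 * (ω κ).2) (fun κ => dot (σ.dd t0 t1) (ω κ).1),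
        sval_mul P (σ.uu t0 t1) (fun κ => (ω κ).2),
        sval_add P (fun κ => dot (σ.dd t1 t) (ω κ).1)
          (fun κ => σ.uu t1 t * dot (σ.dd t0 t1) (ω κ).1),
        sval_mul P (σ.uu t1 t) (fun κ => dot (σ.dd t0 t1) (ω κ).1)]
      ring
    constructor
    · rintro ⟨y, hy⟩
      exact ⟨σ.uu t0 t1 * y, by rw [e]; exact hy⟩
    · rintro ⟨y, hy⟩
      refine ⟨(σ.uu t0 t1)⁻¹ * y, ?_⟩
      rw [← e, mul_inv_cancel_left₀ hu1]
      exact hy

end Pool.Agent.P.MP_85fe51_lc.OD
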