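import Pool.Agent.P.MP_85fe51_lc.OCore
import Pool.Agent.P.MP_85fe51_lc.OGrp

set_option autoImplicit false

namespace Pool.Agent.P.MP_85fe51_lc.OD

open Finset
open scoped Classical

theorem arith (B y0 C : ℕ) (hB : 1 ≤ B) : ∃ B' n0 : ℕ, 1 ≤ B' ∧ ∀ n L : ℕ, n0 ≤ n →
    (∀ y, y0 ≤ y → (2 ^ y) ^ B ≤ n → n ≤ (2 ^ y) ^ (B + 1) → (2 ^ y) ^ (B + 1) < C * L) →
    n ^ (B' + 1) ≤ L ^ B' := by
  refine ⟨2 * B, (2 ^ B) ^ (y0 + 2 * B + 1 + 2 * C), by omega, fun n L hn h => ?_⟩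
  have hb : 1 < 2 ^ B := Nat.one_lt_two_pow (by omega)
  have hn0 : n ≠ 0 := by
    have : 0 < (2 ^ B) ^ (y0 + 2 * B + 1 + 2 * C) := by positivity
    omega
  obtain ⟨y, hy⟩ : ∃ y, y = Nat.log (2 ^ B) n := ⟨_, rfl⟩
  have h1 : (2 ^ B) ^ y ≤ n := hy ▸ Nat.pow_log_le_self _ hn0
  have h2 : n < (2 ^ B) ^ (y + 1) := hy ▸ Nat.lt_pow_succ_log_self hb n
  have h3 : y0 + 2 * B + 1 + 2 * C ≤ y := hy ▸ Nat.le_log_of_pow_le hb hn
  have h4 : n ≤ 2 ^ (B * (y + 1)) := by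
    rw [pow_mul]
    exact h2.le
  have h5 := h y (by omega) (by rw [← pow_mul, mul_comm, pow_mul]; exact h1) (by
    rw [← pow_mul]
    refine h4.trans (Nat.pow_le_pow_right (by norm_num) ?_)
    have : B ≤ y := by omega
    nlinarith)
  have hC : C ≤ y * (B + 1) := by
    have : C ≤ y := by omega
    nlinarith [Nat.zero_le (y * B)]
  obtain ⟨w, hw⟩ := Nat.exists_eq_add_of_le hC
  have h6 : 2 ^ w ≤ L := by
    rw [← pow_mul, hw, pow_add] at h5
    have h7 : C * L ≤ 2 ^ C * L := Nat.mul_le_mul_right _ (Nat.lt_two_pow_self).le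
    exact (Nat.lt_of_mul_lt_mul_left (h5.trans_le h7)).le
  have h8 : (y + 1) * (2 * B + 1) ≤ 2 * w := by
    have : 2 * B + 1 + 2 * C ≤ y := by omega
    nlinarith
  calc n ^ (2 * B + 1) ≤ (2 ^ (B * (y + 1))) ^ (2 * B + 1) := Nat.pow_le_pow_left h4 _
    _ = 2 ^ (B * ((y + 1) * (2 * B + 1))) := by rw [← pow_mul, mul_assoc]
    _ ≤ 2 ^ (B * (2 * w)) := Nat.pow_le_pow_right (by norm_num) (Nat.mul_le_mul_left _ h8)
    _ = (2 ^ w) ^ (2 * B) := by
      rw [← pow_mul]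
      congr 1
      ring
    _ ≤ L ^ (2 * B) := Nat.pow_le_pow_left h6 _

/-- a program that isolates the empty set is long. -/
theorem omain_isolate {p : ℕ} [Fact p.Prime] (hc : Core p) (G : Type) [Group G] [Finite G]
    (N : Subgroup G) [N.Normal] (hN : Nat.Coprime (Nat.card N) p) (hP : IsPGroup p (G ⧸ N))
    (hpow : ∀ g : G, ∀ a ∈ N, g ^ p * a = a * g ^ p)
    (hcom : ∀ g h : G, ∀ a ∈ N, g * h * g⁻¹ * h⁻¹ * a = a * (g * h * g⁻¹ * h⁻¹)) :
    ∃ B y0 C : ℕ, 1 ≤ B ∧ ∀ (n : ℕ) (l : List (Fin n × G × G)),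
      (∀ S : Finset (Fin n), S.Nonempty → prog l S ≠ prog l ∅) →
      ∀ y, y0 ≤ y → (2 ^ y) ^ B ≤ n → n ≤ (2 ^ y) ^ (B + 1) →
        (2 ^ y) ^ (B + 1) < C * l.length := by
  have : NeZero p := ⟨(Fact.out : p.Prime).ne_zero⟩
  have : Fintype (G ⧸ N) := Fintype.ofFinite _
  obtain ⟨M, _, _, ν, C, hM, hinj, hdata⟩ := group_data G N hN hP hpow hcom
  obtain ⟨d, hd⟩ := p_group_deg (G ⧸ N) hP
  obtain ⟨B, y0, hB, hcore⟩ := hc M (G ⧸ N → ZMod p) hM d
  refine ⟨B, y0, C, hB, fun n l hiso y hy h1 h2 => ?_⟩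
  by_contra hlt
  obtain ⟨T, _, lam, phi, hT, hSZ, hν⟩ := hdata (Fin n) l
  let π : G →* G ⧸ N := QuotientGroup.mk' N
  obtain ⟨S, hS, hS1, hS2⟩ := hcore y hy (Fin n) T lam phi _ hSZ (by simpa using h1)
    (by simpa using h2) (hT.trans (not_lt.mp hlt))
    (hd (Fin n) univ (l.map (fun q => (q.1, π q.2.1, π q.2.2))))
  refine hiso S hS (hinj _ _ (by rw [hν, hν, hS1]) ?_)
  have h3 := congrFun hS2 (π (prog l S))
  simp only [prog_map, if_true] at h3
  by_contra hne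
  have hne' : ¬ π (prog l S) = π (prog l ∅) := hne
  rw [if_neg hne'] at h3
  exact one_ne_zero h3

theorem main_of_core {p : ℕ} [Fact p.Prime] (hc : Core p) (G : Type) [Group G] [Finite G]
    (N : Subgroup G) [N.Normal] (hN : Nat.Coprime (Nat.card N) p) (hP : IsPGroup p (G ⧸ N))
    (hpow : ∀ g : G, ∀ a ∈ N, g ^ p * a = a * g ^ p)
    (hcom : ∀ g h : G, ∀ a ∈ N, g * h * g⁻¹ * h⁻¹ * a = a * (g * h * g⁻¹ * h⁻¹)) :
    ∃ B n0 : ℕ, 1 ≤ B ∧ ∀ (n L : ℕ) (var : Fin L → Fin n) (a b : Fin L → G) (A : Set G)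
      (y : Fin n → Bool), n0 ≤ n →
      (∀ x : Fin n → Bool, x = y ↔
        (List.ofFn (fun j : Fin L => if x (var j) then a j else b j)).prod ∈ A) →
      n ^ (B + 1) ≤ L ^ B := by
  obtain ⟨B, y0, C, hB, hC⟩ := omain_isolate hc G N hN hP hpow hcom
  obtain ⟨B', n0, hB', hC'⟩ := arith B y0 C hB
  refine ⟨B', n0, hB', fun n L var a b A y hn hA => hC' n L hn ?_⟩
  let inp : Finset (Fin n) → Fin n → Bool := fun S i => if i ∈ S then !(y i) else y i
  let l : List (Fin n × G × G) := List.ofFn (fun j : Fin L =>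
    (var j, (if y (var j) then b j else a j), (if y (var j) then a j else b j)))
  have hprog : ∀ S : Finset (Fin n), prog l S =
      (List.ofFn (fun j : Fin L => if inp S (var j) then a j else b j)).prod := by
    intro S
    simp only [prog, l, List.map_ofFn]
    congr 1
    refine congrArg List.ofFn (funext fun j => ?_)
    simp only [Function.comp, inp]
    by_cases h1 : var j ∈ S <;> by_cases hy : y (var j) = true <;> simp [h1, hy]
  have hinp0 : inp ∅ = y := by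
    funext i
    simp [inp]
  have hlen : l.length = L := by simp [l]
  rw [← hlen]
  refine hC n l ?_
  rintro S ⟨i, hi⟩ heq
  have h0 : prog l ∅ ∈ A := by
    rw [hprog, hinp0]
    exact (hA y).1 rfl
  rw [← heq, hprog] at h0
  have := congrFun ((hA (inp S)).2 h0) i
  simp only [inp, if_pos hi] at this
  cases hy : y i <;> simp [hy] at this

end Pool.Agent.P.MP_85fe51_lc.OD
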