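import Pool.Agent.P.MP_85fe51_lc.ODefs

set_option autoImplicit false

namespace Pool.Agent.P.MP_85fe51_lc.OD

open Finset
open scoped Classical

/-- the numerical parameters of one phase; `s, n, L` are the orders of the group, of the ground
set and of the set of terms. -/
structure Num (p s n L c c1 j E1 : ℕ) (θ γ : ℝ) where
  k : ℕ
  CH : ℕ
  r : ℕ
  M : ℕ
  C' : ℕ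
  g : ℕ
  t : ℕ
  v : ℕ
  n' : ℕ
  n0 : ℕ
  n1 : ℕ
  W : ℕ
  Ylo : ℕ
  τ : ℝ
  ε : ℝ
  ζ : ℝ
  q : ℝ
  ξ : ℝ
  pmin : ℝ
  p' : ℝ
  β : ℝ
  μ : ℝ
  hk : c < k
  hr : 8 * r < CH
  hM : 1 ≤ M
  hC : 1 ≤ C'
  hg1 : 1 ≤ g
  ht1 : 1 ≤ t
  ht : L < 2 ^ t
  hn'1 : 1 ≤ n'
  hn1 : 1 ≤ n1
  hW1 : 1 ≤ W
  hτ0 : 0 ≤ τ
  hτ1 : τ ≤ 1 / 2
  hε0 : 0 < ε
  hεk : 8 * (p : ℝ) ^ 2 * (k + 1) * ε ≤ 1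
  hβ0 : 0 < β
  hq0 : 0 < q
  hq1 : q ≤ 1
  hξ0 : 0 < ξ
  hξ1 : ξ ≤ 1 / 2
  hp0 : 0 < p'
  hpm : 0 ≤ pmin
  xA : 4 * (31 * p * CH * M * L + 4 * CH * M ^ 2 * (3 * s * n1)) ≤ M ^ 2 * Ylo
  xB : 31 * p * CH * M * L ≤ 4 * CH * M ^ 2 * n1
  xW : W ^ s * Ylo ≤ n
  xW2 : 512 * (j : ℝ) ≤ 3 * W * ξ
  e1 : 64 * j * n0 ≤ 3 * Ylo
  e2 : 4 * s * β ≤ (1 / 2 : ℝ) ^ (j * (k + 1))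
  e3 : 4 * (p * (n + 1) : ℝ) ^ 2 * Real.exp (-ζ) + Real.exp (-(n0 : ℝ)) +
    2 * (p : ℝ) ^ ((3 * s + 1) * n1) / 2 ^ n0 ≤ 2 * β
  tc : (4 * M : ℕ) * (r * τ) ^ (c1 + 1) ≤ pmin / 2
  z1 : ζ ≤ τ / (4 * j * k) * (1 - θ) * CH / 2
  z2 : ζ ≤ 1 / (4 * j * k) * (1 - θ) * r
  z3 : ζ ≤ 1 / (4 * j * k) * (1 - θ) * CH / (4 * k * g : ℕ)
  z4 : ζ ≤ τ / (4 * j * k) / (8 * C') * CH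
  z5 : ζ ≤ 1 / (32 * j * n') * (1 - θ) * r
  tbig : 400 * (p * (n + 1) : ℝ) ^ 2 * (L + 1) ^ 2 * p ^ 2 * (k + 1) * j * g * Real.exp (-ζ) ≤ ε * β
  tg : 48 * k * L ≤ β * 2 ^ g
  tμ : Real.exp (-μ / 8) ≤ β / 8
  hμ : 8 * (8 * CH * M ^ 2 : ℕ) * (4 * M : ℕ) * μ ≤ n1 * pmin
  bv : 2 * (1 / 2 : ℝ) ^ v ≤ (β / 2) ^ (2 ^ k)
  bQ : 4 * (p * (n + 1) : ℝ) ^ 2 * Real.sqrt θ ^ C' ≤ 1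
  bq : 4 * piK p k ≤ q
  bδ : 6 * (((k + 1) * j + k : ℕ) : ℝ) * ε + 2 * (4 * M : ℕ) * piK p k ^ 2 ≤ pmin / 32
  bq2 : 2 * (4 * piK p k / q) ^ 2 ≤ pmin / 64
  by1 : 2 * ((8 * CH * M ^ 2 : ℕ) * v + 4 * piK p k *
    (6 * C' * ((4 * CH * M ^ 2 : ℕ) + 1) * (v + 64 * t * q * L + 2))) +
    2 * (v + 2) * ((4 * M : ℕ) : ℝ) ^ E1 / (1 - γ) ≤ μ / 64
  bk : k * v + 1 ≤ μ / 16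
  fm : 8 * L * pmin ≤ p' * n1
  fr : (L : ℝ) ^ 3 * Real.exp (-(r / 2 : ℝ)) ≤ 1 / 8
  fbig : 40 * n' * (L + 1) ^ 2 * p ^ 2 * (p * (n + 1) : ℝ) ^ 2 * Real.exp (-ζ) ≤ ε
  fY : 384 * (j : ℝ) ≤ ξ * Ylo
  fdel : L * (10 * CH) * (10 * CH * ξ) ^ (c + 1) ≤ ξ * Ylo / (2048 * j)
  fn : (p * L : ℝ) ^ 2 * (1 - 4 / (3 * p : ℝ)) ^ n' < piK p n'
  fp : p' ≤ piK p k / ((4 * M : ℕ) : ℝ) ^ (2 * E1 + 1) -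
    (4 * M : ℕ) * ((1 - 3 / (2 * p : ℝ)) ^ k + k * (1 - 1 / (4 * j * k : ℝ)) ^ (r / 2))

end Pool.Agent.P.MP_85fe51_lc.OD
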