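import Pool.Agent.P.MP_85fe51_lc.ODL

set_option autoImplicit false

namespace Pool.Agent.P.MP_85fe51_lc.OD

open Finset
open scoped Classical

theorem ools_pi {ι V α : Type} [DecidableEq ι] [AddCommGroup V] {Z : AddSubgroup V}
    {Kp : Finset ι → Prop} (d : ℕ) : ∀ (Y : Finset ι) (F : α → Finset ι → V),
      (∀ a, DL Z Kp d Y (F a)) →
      DL (AddSubgroup.pi Set.univ (fun _ : α => Z)) Kp d Y (fun A a => F a A) := by
  induction d with
  | zero =>
    intro Y F h A hA hK
    rw [AddSubgroup.mem_pi]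
    intro a _
    exact h a A hA hK
  | succ d ih =>
    intro Y F h B hB hK
    exact ih (Y \ B) (fun a A => F a (A ∪ B) - F a A) (fun a => h a B hB hK)

/-- either a return to the value at the empty set, or `r` sets with distinct values. -/
theorem ools_focus {c M0 : ℕ} (ih : ∀ M, ∃ j, 1 ≤ j ∧ OlsJ c M j) (r : ℕ) :
    ∃ j, ∀ (V : Type) [AddCommGroup V] [Fintype V], Fintype.card V ≤ M0 →
      ∀ (Z : AddSubgroup V) (ι : Type) [DecidableEq ι] (I : Finset ι) (f : Finset ι → V),
        j ≤ I.card → DL Z (fun _ => True) (c + 1 + 1) I f →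
        (∃ g, g ⊆ I ∧ g.Nonempty ∧ f g - f ∅ ∈ Z) ∨
        ∃ U : Fin r → Finset ι, (∀ a, U a ⊆ I) ∧ (∀ a, f (U a) - f ∅ ∉ Z) ∧
          ∀ a b, a ≠ b → f (U a) - f (U b) ∉ Z := by
  induction r with
  | zero =>
    refine ⟨0, fun V _ _ _ Z ι _ I f _ _ => Or.inr ⟨Fin.elim0, ?_, ?_, ?_⟩⟩
    · exact fun a => a.elim0
    · exact fun a => a.elim0
    · exact fun a => a.elim0
  | succ r ihr =>
    obtain ⟨j1, hj1⟩ := ihr
    obtain ⟨j2, -, hj2⟩ := ih (M0 ^ r)
    refine ⟨j1 + j2, fun V _ _ hV Z ι _ I f hI hf => ?_⟩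
    obtain ⟨I1, hI1, hc1⟩ := exists_subset_card_eq (show j1 ≤ I.card by omega)
    rcases hj1 V hV Z ι I1 f hc1.ge (hf.mono_set hI1) with ⟨g, hg, hne, hz⟩ | ⟨U, hU, hU0, hUU⟩
    · exact Or.inl ⟨g, hg.trans hI1, hne, hz⟩
    have hc2 : j2 ≤ (I \ I1).card := by
      rw [card_sdiff_of_subset hI1]; omega
    have hcard : Fintype.card (Fin r → V) ≤ M0 ^ r := by
      rw [Fintype.card_fun, Fintype.card_fin]
      exact Nat.pow_le_pow_left hV r
    have hF : DL (AddSubgroup.pi Set.univ (fun _ : Fin r => Z)) (fun _ => True) (c + 1) (I \ I1)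
        (fun A a => f (A ∪ U a) - f A) := by
      refine ools_pi (c + 1) (I \ I1) (fun a A => f (A ∪ U a) - f A) (fun a => ?_)
      exact DL.mono_set (hf (U a) ((hU a).trans hI1) trivial) (sdiff_subset_sdiff subset_rfl (hU a))
    obtain ⟨G, hG, hGne, hGz⟩ := hj2 (Fin r → V) hcard _ ι (I \ I1) _ hc2 hF
    have hGI : G ⊆ I := hG.trans sdiff_subset
    have key : ∀ a, f (G ∪ U a) - f G - (f (U a) - f ∅) ∈ Z := by
      intro a
      have h := (AddSubgroup.mem_pi _).1 hGz a (Set.mem_univ a)
      simpa only [Pi.sub_apply, empty_union] using h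
    by_cases h1 : f G - f ∅ ∈ Z
    · exact Or.inl ⟨G, hGI, hGne, h1⟩
    by_cases h2 : ∃ a, f (G ∪ U a) - f ∅ ∈ Z
    · obtain ⟨a, ha⟩ := h2
      exact Or.inl ⟨G ∪ U a, union_subset hGI ((hU a).trans hI1),
        hGne.mono subset_union_left, ha⟩
    have h3 : ∀ a, f (G ∪ U a) - f G ∉ Z := by
      intro a ha
      apply hU0 a
      have := Z.sub_mem ha (key a)
      rwa [sub_sub_cancel] at this
    refine Or.inr ⟨Fin.cons G (fun a => G ∪ U a), ?_, ?_, ?_⟩
    · intro a
      refine Fin.cases ?_ (fun a => ?_) a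
      · exact hGI
      · exact union_subset hGI ((hU a).trans hI1)
    · intro a
      refine Fin.cases ?_ (fun a => ?_) a
      · exact h1
      · exact fun ha => h2 ⟨a, ha⟩
    · intro a b
      refine Fin.cases ?_ (fun a => ?_) a
      · refine Fin.cases ?_ (fun b => ?_) b
        · exact fun h => absurd rfl h
        · intro _ hz
          apply h3 b
          have := Z.neg_mem hz
          rwa [neg_sub] at this
      · refine Fin.cases ?_ (fun b => ?_) b
        · exact fun _ hz => h3 a hz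
        · intro hab hz
          have hab' : a ≠ b := fun h => hab (by rw [h])
          apply hUU a b hab'
          have hz' : f (G ∪ U a) - f (G ∪ U b) ∈ Z := hz
          have := Z.add_mem (Z.sub_mem hz' (key a)) (key b)
          have e : f (G ∪ U a) - f (G ∪ U b) - (f (G ∪ U a) - f G - (f (U a) - f ∅)) +
              (f (G ∪ U b) - f G - (f (U b) - f ∅)) = f (U a) - f (U b) := by abel
          rwa [e] at this

theorem ools_exists (c : ℕ) : ∀ M0 : ℕ, ∃ j, 1 ≤ j ∧ OlsJ c M0 j := by
  induction c with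
  | zero =>
    intro M0
    refine ⟨1, le_rfl, fun V _ _ _ Z ι _ I f hI hf => ?_⟩
    have hne : I.Nonempty := card_pos.1 hI
    have h := hf I subset_rfl trivial ∅ (empty_subset _) trivial
    exact ⟨I, subset_rfl, hne, by simpa only [empty_union] using h⟩
  | succ c ih =>
    intro M0
    obtain ⟨j, hj⟩ := ools_focus (M0 := M0) ih (M0 + 1)
    refine ⟨j + 1, by omega, fun V _ _ hV Z ι _ I f hI hf => ?_⟩
    rcases hj V hV Z ι I f (by omega) hf with h | ⟨U, -, -, hUU⟩
    · exact h
    · exfalso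
      have hinj : Function.Injective (fun a => f (U a)) := by
        intro a b hab
        by_contra hne
        apply hUU a b hne
        have hab' : f (U a) = f (U b) := hab
        rw [hab', sub_self]
        exact Z.zero_mem
      have := Fintype.card_le_of_injective _ hinj
      rw [Fintype.card_fin] at this
      omega

theorem exists_olsJ (c M0 : ℕ) : ∃ j, 1 ≤ j ∧ OlsJ c M0 j := ools_exists c M0

theorem ools_walk {c M0 j k : ℕ} (hj : OlsJ c M0 j) {V : Type} [AddCommGroup V] [Fintype V]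
    (hV : Fintype.card V ≤ M0) (Z : AddSubgroup V) (f : Finset (Atom k j) → V)
    (hf : DL Z (fun _ => True) (c + 1) univ f) (S : Finset (Fin (k + 1))) :
    ∃ g : Finset (Atom k j), (∀ a ∈ g, a.1 ∈ S) ∧ (∀ b ∈ S, ∃ i, (b, i) ∈ g) ∧ f g - f ∅ ∈ Z := by
  induction S using Finset.induction_on with
  | empty => exact ⟨∅, by simp, by simp, by simp⟩
  | insert b S hb ih =>
    obtain ⟨g, hg, hgS, hz⟩ := ih
    have hsub : ({b} ×ˢ (univ : Finset (Fin j))) ⊆ univ \ g := by
      intro a ha
      rw [mem_product, mem_singleton] at ha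
      rw [mem_sdiff]
      exact ⟨mem_univ _, fun hag => hb (ha.1 ▸ hg a hag)⟩
    have hD := (hf.shift clo_true (subset_univ g) trivial).mono_set hsub
    obtain ⟨g', hg', hne, hz'⟩ := hj V hV Z (Atom k j) _ _ (by simp) hD
    have hg'b : ∀ a ∈ g', a.1 = b := by
      intro a ha
      have := hg' ha
      rw [mem_product, mem_singleton] at this
      exact this.1
    refine ⟨g' ∪ g, ?_, ?_, ?_⟩
    · intro a ha
      rcases mem_union.1 ha with ha | ha
      · rw [hg'b a ha]; exact mem_insert_self _ _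
      · exact mem_insert_of_mem (hg a ha)
    · intro b' hb'
      rcases mem_insert.1 hb' with rfl | hb'
      · obtain ⟨a, ha⟩ := hne
        refine ⟨a.2, mem_union_left _ ?_⟩
        rw [← hg'b a ha]
        exact ha
      · obtain ⟨i, hi⟩ := hgS b' hb'
        exact ⟨i, mem_union_right _ hi⟩
    · have := Z.add_mem hz' hz
      simpa only [empty_union, sub_add_sub_cancel] using this

/-- walking through the batches. -/
theorem walk {c M0 j k : ℕ} (hj : OlsJ c M0 j) {V : Type} [AddCommGroup V] [Fintype V]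
    (hV : Fintype.card V ≤ M0) (Z : AddSubgroup V) (f : Finset (Atom k j) → V)
    (hf : DL Z (fun _ => True) (c + 1) univ f) : ∃ P : Pat k j, f P.g - f ∅ ∈ Z := by
  obtain ⟨g, -, hg, hz⟩ := ools_walk hj hV Z f hf univ
  choose ix hix using fun b => hg b (mem_univ b)
  exact ⟨⟨g, ix, hix⟩, hz⟩

end Pool.Agent.P.MP_85fe51_lc.OD
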