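import Pool.Agent.P.MP_85fe51_lc.OParD

set_option autoImplicit false

namespace Pool.Agent.P.MP_85fe51_lc.OD

namespace Dat.OK
variable {d : Dat}

theorem oparb_z_pos (h : d.OK) : (0 : ℝ) < d.z := lt_of_lt_of_le one_pos h.one_le_z

theorem oparb_z_big (h : d.OK) : (1000 : ℝ) ≤ d.z := by
  have h1 : 1000 ≤ d.z := le_trans (by norm_num) h.z_ge
  exact_mod_cast h1

theorem oparb_w_pos (h : d.OK) : (0 : ℝ) < d.w := lt_of_lt_of_le (by norm_num) h.w0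

theorem oparb_exp (h : d.OK) {a : ℝ} {N K : ℕ} (ha : a ≤ (d.z : ℝ) ^ N)
    (hNK : N + K ≤ parX d.s d.E1 d.k0 d.j) : a * Real.exp (-(d.z : ℝ)) ≤ 1 / (d.z : ℝ) ^ K := by
  have hz := h.oparb_z_pos
  have h1 : a * Real.exp (-(d.z : ℝ)) ≤
      (d.z : ℝ) ^ N * (1 / (d.z : ℝ) ^ parX d.s d.E1 d.k0 d.j) :=
    mul_le_mul ha h.exp_le (Real.exp_pos _).le (by positivity)
  refine h1.trans ?_
  rw [mul_one_div, div_le_div_iff₀ (by positivity) (by positivity), one_mul, ← pow_add]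
  exact pow_le_pow_right₀ h.one_le_z hNK

theorem oparb_X : parX d.s d.E1 d.k0 d.j =
    4 * d.B + 12 + d.k0 + (d.m + 1) * (d.E + 1) + d.j * d.k0 := rfl

theorem oparb_succ (h : d.OK) {a : ℝ} (ha0 : 0 < a) (ha : a ≤ 1000) (K : ℕ) :
    1 / (d.z : ℝ) ^ (K + 1) ≤ 1 / (d.z : ℝ) ^ K / a := by
  have hz := h.oparb_z_pos
  rw [div_div, pow_succ]
  refine one_div_le_one_div_of_le (by positivity) ?_
  exact mul_le_mul_of_nonneg_left (ha.trans h.oparb_z_big) (by positivity)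

theorem oparb_Q2 (h : d.OK) : (d.p * (d.n + 1) : ℝ) ^ 2 ≤ (d.z : ℝ) ^ (2 * d.B + 4) := by
  have h1 := pow_le_pow_left₀ (by positivity) h.Q_le 2
  rwa [← pow_mul, show (d.B + 2) * 2 = 2 * d.B + 4 by ring] at h1

theorem oparb_L2 (h : d.OK) : (d.L + 1 : ℝ) ^ 2 ≤ (d.z : ℝ) ^ (2 * d.B + 4) := by
  have h1 := pow_le_pow_left₀ (by positivity) h.L_le 2
  rwa [← pow_mul, show (d.B + 2) * 2 = 2 * d.B + 4 by ring] at h1

theorem oparb_4Q2 (h : d.OK) : 4 * (d.p * (d.n + 1) : ℝ) ^ 2 ≤ (d.z : ℝ) ^ (2 * d.B + 5) := by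
  have h1 := h.oparb_Q2
  have h2 := h.oparb_z_big
  rw [show 2 * d.B + 5 = (2 * d.B + 4) + 1 by ring, pow_succ (d.z : ℝ), mul_comm]
  exact mul_le_mul h1 (by linarith) (by norm_num) (by positivity)

theorem oparb_L (h : d.OK) : (d.L : ℝ) ≤ (d.z : ℝ) ^ (d.B + 1) := by exact_mod_cast h.hL

theorem oparb_eps (h : d.OK) :
    1 / (d.z : ℝ) ^ (d.k0 + (d.m + 1) * (d.E + 1) + 1) ≤ d.ε := by
  have hz := h.oparb_z_pos
  unfold Dat.ε
  rw [pow_succ, ← div_div]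
  exact div_le_div_of_nonneg_right h.pmin_ge hz.le

theorem oparb_third (h : d.OK) :
    (d.p : ℝ) ^ ((3 * d.s + 1) * d.n1) / 2 ^ d.n0 ≤ Real.exp (-(d.z : ℝ)) := by
  have hw := h.oparb_w_pos
  have hw0 := h.w0
  have h1 : d.p * (3 * d.s + 1) ≤ d.z := by
    have h2 : (d.p : ℝ) * (3 * d.s + 1) ≤ d.w * (d.w * d.w) := by
      refine mul_le_mul h.wp ?_ (by positivity) hw.le
      have h3 := h.ws
      nlinarith
    have h4 := h.pow_w (i := 3) (by norm_num)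
    have h5 : (d.p : ℝ) * (3 * d.s + 1) ≤ d.z := by
      refine h2.trans (le_trans (le_of_eq ?_) h4)
      ring
    exact_mod_cast h5
  have hz3 : 3 ≤ d.z := le_trans (by norm_num) h.z_ge
  have h6 : d.p * ((3 * d.s + 1) * d.n1) + 2 * d.z ≤ d.n0 := by
    unfold Dat.n0 Dat.n1
    have h7 : 1 ≤ d.z ^ d.b := Nat.one_le_pow _ _ (by omega)
    have h8 : d.p * ((3 * d.s + 1) * d.z ^ d.b) ≤ d.z * d.z ^ d.b := by
      rw [← mul_assoc]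
      exact Nat.mul_le_mul_right _ h1
    have h9 : 2 * d.z ≤ 2 * (d.z * d.z ^ d.b) := Nat.mul_le_mul_left _ (Nat.le_mul_of_pos_right _ h7)
    have h10 : 3 * (d.z * d.z ^ d.b) ≤ d.z * (d.z * d.z ^ d.b) := Nat.mul_le_mul_right _ hz3
    have h11 : d.z * (d.z * d.z ^ d.b) ≤ d.z ^ (d.b + 7) := by
      rw [show d.z * (d.z * d.z ^ d.b) = d.z ^ (d.b + 2) by ring]
      exact Nat.pow_le_pow_right (by omega) (by omega)
    omega
  have h12 : d.p ^ ((3 * d.s + 1) * d.n1) * 4 ^ d.z ≤ 2 ^ d.n0 := by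
    have h13 : d.p ^ ((3 * d.s + 1) * d.n1) ≤ (2 ^ d.p) ^ ((3 * d.s + 1) * d.n1) :=
      Nat.pow_le_pow_left Nat.lt_two_pow_self.le _
    refine (Nat.mul_le_mul_right _ h13).trans ?_
    rw [← pow_mul, show (4 : ℕ) = 2 ^ 2 by norm_num, ← pow_mul, ← pow_add]
    exact Nat.pow_le_pow_right (by norm_num) h6
  have h14 : (d.p : ℝ) ^ ((3 * d.s + 1) * d.n1) * 4 ^ d.z ≤ 2 ^ d.n0 := by exact_mod_cast h12
  have h15 : Real.exp (d.z : ℝ) ≤ 4 ^ d.z := by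
    rw [← Real.exp_one_pow]
    refine pow_le_pow_left₀ (Real.exp_pos _).le ?_ _
    have := Real.exp_one_lt_d9
    linarith
  rw [Real.exp_neg, inv_eq_one_div, div_le_div_iff₀ (by positivity) (Real.exp_pos _), one_mul]
  exact (mul_le_mul_of_nonneg_left h15 (by positivity)).trans h14

theorem f_e3 (h : d.OK) :
    4 * (d.p * (d.n + 1) : ℝ) ^ 2 * Real.exp (-d.ζ) + Real.exp (-(d.n0 : ℝ)) +
    2 * (d.p : ℝ) ^ ((3 * d.s + 1) * d.n1) / 2 ^ d.n0 ≤ 2 * d.β := by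
  have hz := h.oparb_z_big
  have h1 : 4 * (d.p * (d.n + 1) : ℝ) ^ 2 * Real.exp (-d.ζ) ≤
      1 / (d.z : ℝ) ^ (d.j * d.k0 + 1 + 1) :=
    h.oparb_exp h.oparb_4Q2 (by rw [oparb_X]; omega)
  have h2 : 2 * Real.exp (-(d.z : ℝ)) ≤ 1 / (d.z : ℝ) ^ (d.j * d.k0 + 1 + 1) :=
    h.oparb_exp (N := 1) (by rw [pow_one]; linarith) (by rw [oparb_X]; omega)
  have h3 : Real.exp (-(d.n0 : ℝ)) ≤ Real.exp (-(d.z : ℝ)) := by
    refine Real.exp_le_exp.2 (neg_le_neg ?_)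
    have h4 : d.z ≤ d.n0 := Nat.le_self_pow (by omega) _
    exact_mod_cast h4
  have h5 := h.oparb_third
  have h6 := h.oparb_succ (a := 2) (by norm_num) (by norm_num) (d.j * d.k0 + 1)
  have h7 := h.β_ge
  have h8 := Real.exp_pos (-(d.z : ℝ))
  rw [mul_div_assoc]
  linarith

theorem f_tc (h : d.OK) :
    (4 * d.M : ℕ) * (d.r * d.τ) ^ (d.c1 + 1) ≤ d.pmin / 2 := by
  have hz := h.oparb_z_pos
  have h1 : (d.r : ℝ) * d.τ = 1 / d.z := by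
    unfold Dat.r Dat.τ
    push_cast
    field_simp
  have h2 : d.c1 + 1 = (d.k0 + (d.m + 1) * (d.E + 1) + 1) + (d.m + 1) := by
    show d.k0 + (d.m + 1) * (d.E + 2) + 1 = _
    ring
  have h3 := h.oparb_succ (a := 2) (by norm_num) (by norm_num) (d.k0 + (d.m + 1) * (d.E + 1))
  have h4 := h.pmin_ge
  have h5 : ((4 * d.M : ℕ) : ℝ) * (1 / (d.z : ℝ)) ^ (d.c1 + 1) ≤
      1 / (d.z : ℝ) ^ (d.k0 + (d.m + 1) * (d.E + 1) + 1) := by
    refine (mul_le_mul_of_nonneg_right h.M4_le (by positivity)).trans (le_of_eq ?_)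
    rw [h2, one_div_pow, pow_add (d.z : ℝ) _ (d.m + 1)]
    field_simp
  rw [h1]
  linarith

theorem f_tbig (h : d.OK) :
    400 * (d.p * (d.n + 1) : ℝ) ^ 2 * (d.L + 1) ^ 2 * d.p ^ 2 * (d.k + 1) * d.j * d.g * Real.exp (-d.ζ) ≤ d.ε * d.β := by
  have hz := h.oparb_z_pos
  have hw := h.oparb_w_pos
  have hw0 := h.w0
  have h1 : 400 * (d.p : ℝ) ^ 2 * (d.k + 1) * d.j * d.g ≤ d.z := by
    refine le_trans ?_ (h.pow_w (i := 6) (by norm_num))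
    rw [show d.w ^ 6 = d.w * d.w ^ 2 * d.w * d.w * d.w by ring]
    have h2 := h.wp
    have h3 := h.wk
    have h4 := h.wj'
    have h5 := h.wg
    gcongr
    linarith
  have h6 : 400 * (d.p * (d.n + 1) : ℝ) ^ 2 * (d.L + 1) ^ 2 * d.p ^ 2 * (d.k + 1) * d.j * d.g ≤
      (d.z : ℝ) ^ (4 * d.B + 9) := by
    rw [show (d.z : ℝ) ^ (4 * d.B + 9) = d.z * d.z ^ (2 * d.B + 4) * d.z ^ (2 * d.B + 4) by ring,
      show 400 * (d.p * (d.n + 1) : ℝ) ^ 2 * (d.L + 1) ^ 2 * d.p ^ 2 * (d.k + 1) * d.j * d.g =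
        400 * (d.p : ℝ) ^ 2 * (d.k + 1) * d.j * d.g * (d.p * (d.n + 1) : ℝ) ^ 2 * (d.L + 1) ^ 2
        by ring]
    have h7 := h.oparb_Q2
    have h8 := h.oparb_L2
    gcongr
  have h9 := h.oparb_exp (K := (d.k0 + (d.m + 1) * (d.E + 1) + 1) + (d.j * d.k0 + 1)) h6
    (by rw [oparb_X]; omega)
  refine h9.trans ?_
  rw [pow_add, ← one_div_mul_one_div]
  exact mul_le_mul h.oparb_eps h.β_ge (by positivity) (le_trans (by positivity) h.oparb_eps)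

theorem f_tg (h : d.OK) :
    48 * d.k * d.L ≤ d.β * 2 ^ d.g := by
  have hz := h.oparb_z_pos
  have hw := h.oparb_w_pos
  have hw0 := h.w0
  have h1 : (2 : ℝ) ^ d.g = (d.z : ℝ) ^ (d.j * d.k0 + 1) * (d.z * d.z ^ (d.B + 1)) := by
    rw [show (d.z : ℝ) ^ (d.j * d.k0 + 1) * (d.z * d.z ^ (d.B + 1)) =
      (d.z : ℝ) ^ (d.B + d.j * d.k0 + 3) by ring]
    unfold Dat.g Dat.z
    push_cast
    rw [← pow_mul, mul_comm]
  have h2 : 48 * (d.k : ℝ) ≤ d.z := by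
    refine le_trans ?_ (h.pow_w (i := 2) (by norm_num))
    have h3 := h.wk
    have h4 : (0 : ℝ) ≤ d.k := Nat.cast_nonneg _
    nlinarith
  have h5 : 48 * (d.k : ℝ) * d.L ≤ d.z * d.z ^ (d.B + 1) :=
    mul_le_mul h2 h.oparb_L (Nat.cast_nonneg _) hz.le
  refine h5.trans (le_trans (le_of_eq ?_) (mul_le_mul_of_nonneg_right h.β_ge (by positivity)))
  rw [h1]
  field_simp

theorem f_tμ (h : d.OK) :
    Real.exp (-d.μ / 8) ≤ d.β / 8 := by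
  have hz := h.oparb_z_big
  have h1 : (d.z : ℝ) ^ 2 ≤ d.μ :=
    (pow_le_pow_right₀ h.one_le_z (by unfold parA; omega)).trans h.μ_ge
  have h2 : Real.exp (-d.μ / 8) ≤ Real.exp (-(d.z : ℝ)) := by
    refine Real.exp_le_exp.2 ?_
    nlinarith
  have h3 : 1 * Real.exp (-(d.z : ℝ)) ≤ 1 / (d.z : ℝ) ^ (d.j * d.k0 + 1 + 1) :=
    h.oparb_exp (N := 0) (by rw [pow_zero]) (by rw [oparb_X]; omega)
  have h4 := h.oparb_succ (a := 8) (by norm_num) (by norm_num) (d.j * d.k0 + 1)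
  have h5 := h.β_ge
  linarith

theorem f_bv (h : d.OK) :
    2 * (1 / 2 : ℝ) ^ d.v ≤ (d.β / 2) ^ (2 ^ d.k) := by
  have hs : (1 : ℝ) ≤ d.s := by exact_mod_cast h.hs
  have h1 : 2 * (1 / 2 : ℝ) ^ d.v = ((1 / 2 : ℝ) ^ (d.j * (d.k + 1) + d.s + 3)) ^ (2 ^ d.k) := by
    unfold Dat.v
    rw [pow_succ, ← pow_mul, mul_comm (2 ^ d.k)]
    ring
  rw [h1]
  refine pow_le_pow_left₀ (by positivity) ?_ _
  unfold Dat.β
  have h2 : (d.s : ℝ) ≤ 2 ^ d.s := by exact_mod_cast Nat.lt_two_pow_self.le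
  have h3 : (1 / 2 : ℝ) ^ d.s ≤ 1 / d.s := by
    rw [one_div_pow]
    exact one_div_le_one_div_of_le (by positivity) h2
  rw [pow_add, pow_add]
  have h4 : (1 / 2 : ℝ) ^ (d.j * (d.k + 1)) / (4 * d.s) / 2 =
      (1 / 2 : ℝ) ^ (d.j * (d.k + 1)) * (1 / d.s) * (1 / 2) ^ 3 := by
    field_simp
    norm_num
  rw [h4]
  gcongr

theorem f_bQ (h : d.OK) :
    4 * (d.p * (d.n + 1) : ℝ) ^ 2 * Real.sqrt d.θ ^ d.C' ≤ 1 := by
  have hz := h.oparb_z_pos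
  have h0 := h.hθ0
  have h1 : Real.sqrt d.θ ≤ Real.exp (-((1 - d.θ) / 2)) := by
    have h2 := Real.add_one_le_exp (-((1 - d.θ) / 2))
    have h3 := Real.mul_self_sqrt h0
    nlinarith [sq_nonneg (Real.sqrt d.θ - 1)]
  have h4 : Real.sqrt d.θ ^ d.C' ≤ 1 / (d.z : ℝ) ^ parX d.s d.E1 d.k0 d.j := by
    refine (pow_le_pow_left₀ (Real.sqrt_nonneg _) h1 _).trans ?_
    rw [← Real.exp_nat_mul, show ((d.C' : ℕ) : ℝ) * -((1 - d.θ) / 2) = -((1 - d.θ) / 2 * d.z) by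
      unfold Dat.C'; ring, Real.exp_neg, inv_eq_one_div]
    exact one_div_le_one_div_of_le (by positivity) h.hexp
  have h5 : 4 * (d.p * (d.n + 1) : ℝ) ^ 2 ≤ (d.z : ℝ) ^ parX d.s d.E1 d.k0 d.j :=
    h.oparb_4Q2.trans (pow_le_pow_right₀ h.one_le_z (by rw [oparb_X]; omega))
  refine (mul_le_mul h5 h4 (pow_nonneg (Real.sqrt_nonneg _) _) (by positivity)).trans (le_of_eq ?_)
  field_simp

theorem f_fr (h : d.OK) :
    (d.L : ℝ) ^ 3 * Real.exp (-(d.r / 2 : ℝ)) ≤ 1 / 8 := by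
  have hz := h.oparb_z_big
  have h1 : Real.exp (-(d.r / 2 : ℝ)) ≤ Real.exp (-(d.z : ℝ)) := by
    refine Real.exp_le_exp.2 (neg_le_neg ?_)
    unfold Dat.r
    push_cast
    nlinarith
  have h2 : (d.L : ℝ) ^ 3 ≤ (d.z : ℝ) ^ ((d.B + 1) * 3) := by
    rw [pow_mul]
    exact pow_le_pow_left₀ (Nat.cast_nonneg _) h.oparb_L 3
  have h3 := h.oparb_exp (K := 0 + 1) h2 (by rw [oparb_X]; omega)
  have h4 := h.oparb_succ (a := 8) (by norm_num) (by norm_num) 0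
  rw [pow_zero, div_one] at h4
  exact (mul_le_mul_of_nonneg_left h1 (by positivity)).trans (h3.trans h4)

theorem f_fbig (h : d.OK) :
    40 * d.n' * (d.L + 1) ^ 2 * d.p ^ 2 * (d.p * (d.n + 1) : ℝ) ^ 2 * Real.exp (-d.ζ) ≤ d.ε := by
  have hz := h.oparb_z_pos
  have hw := h.oparb_w_pos
  have hw0 := h.w0
  have h1 : 40 * (d.n' : ℝ) * (d.p : ℝ) ^ 2 ≤ d.z := by
    refine le_trans ?_ (h.pow_w (i := 4) (by norm_num))
    rw [show d.w ^ 4 = d.w * d.w * d.w ^ 2 by ring]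
    have h2 := h.wp
    have h3 := h.wn
    gcongr
    linarith
  have h6 : 40 * d.n' * (d.L + 1) ^ 2 * d.p ^ 2 * (d.p * (d.n + 1) : ℝ) ^ 2 ≤
      (d.z : ℝ) ^ (4 * d.B + 9) := by
    rw [show (d.z : ℝ) ^ (4 * d.B + 9) = d.z * d.z ^ (2 * d.B + 4) * d.z ^ (2 * d.B + 4) by ring,
      show 40 * d.n' * (d.L + 1) ^ 2 * d.p ^ 2 * (d.p * (d.n + 1) : ℝ) ^ 2 =
        40 * (d.n' : ℝ) * (d.p : ℝ) ^ 2 * (d.p * (d.n + 1) : ℝ) ^ 2 * (d.L + 1) ^ 2 by ring]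
    have h7 := h.oparb_Q2
    have h8 := h.oparb_L2
    gcongr
  exact (h.oparb_exp h6 (by rw [oparb_X]; omega)).trans h.oparb_eps

theorem f_fdel (h : d.OK) :
    d.L * (10 * d.CH) * (10 * d.CH * d.ξ) ^ (d.c + 1) ≤ d.ξ * d.Ylo / (2048 * d.j) := by
  have hz := h.oparb_z_pos
  have hw := h.oparb_w_pos
  have hw0 := h.w0
  have hj : (1 : ℝ) ≤ d.j := by exact_mod_cast h.hj
  have h1 : 10 * (d.CH : ℝ) * d.ξ = 10 / (d.z : ℝ) ^ 2 := by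
    unfold Dat.CH Dat.ξ
    push_cast
    field_simp
  have h2 : d.ξ * (d.Ylo : ℝ) = (d.z : ℝ) ^ d.b := by
    unfold Dat.Ylo Dat.ξ
    push_cast
    rw [pow_add]
    field_simp
  have h3 : (d.CH : ℝ) = (d.z : ℝ) ^ 6 := by
    unfold Dat.CH
    push_cast
    rfl
  have h4 : 2048 * (d.j : ℝ) * 10 ^ (d.c + 2) ≤ d.z := by
    refine le_trans ?_ (h.pow_w (i := 4) (by norm_num))
    rw [show d.w ^ 4 = d.w * d.w * d.w * d.w by ring]
    have h5 := h.wj'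
    have h6 := h.wc
    gcongr
    nlinarith
  have h7 : (d.z : ℝ) * (d.z : ℝ) ^ (d.B + 1) * (d.z : ℝ) ^ 6 ≤
      (d.z : ℝ) ^ d.b * ((d.z : ℝ) ^ 2) ^ (d.c + 1) := by
    rw [← pow_mul, ← pow_add, show (d.z : ℝ) * (d.z : ℝ) ^ (d.B + 1) * (d.z : ℝ) ^ 6 =
      (d.z : ℝ) ^ (d.B + 8) by ring]
    refine pow_le_pow_right₀ h.one_le_z ?_
    have h8 : d.B = 9 * d.s + 8 + d.b := rfl
    have h9 := h.hc
    omega
  rw [h1, h2, h3, div_pow, ← mul_div_assoc, div_le_div_iff₀ (by positivity) (by positivity)]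
  refine le_trans ?_ h7
  rw [show (d.L : ℝ) * (10 * (d.z : ℝ) ^ 6) * 10 ^ (d.c + 1) * (2048 * d.j) =
    2048 * (d.j : ℝ) * 10 ^ (d.c + 2) * d.L * (d.z : ℝ) ^ 6 by ring]
  have h10 := h.oparb_L
  gcongr

theorem f_fn (h : d.OK) :
    (d.p * d.L : ℝ) ^ 2 * (1 - 4 / (3 * d.p : ℝ)) ^ d.n' < piK d.p d.n' := by
  have hz := h.oparb_z_big
  have hp : (2 : ℝ) ≤ d.p := by exact_mod_cast h.hp
  have hp0 : (0 : ℝ) < d.p := by linarith
  have h1 : (0 : ℝ) ≤ 1 - 4 / (3 * d.p : ℝ) := by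
    rw [sub_nonneg, div_le_one (by positivity)]
    linarith
  have h2 : (0 : ℝ) < 1 - 1 / (d.p : ℝ) := by
    rw [sub_pos, div_lt_one hp0]
    linarith
  have h3 : (0 : ℝ) ≤ 1 - 1 / (3 * d.p : ℝ) := by
    rw [sub_nonneg, div_le_one (by positivity)]
    linarith
  have h4 : 1 - 4 / (3 * d.p : ℝ) ≤ (1 - 1 / (d.p : ℝ)) * (1 - 1 / (3 * d.p : ℝ)) := by
    have h5 : (1 - 1 / (d.p : ℝ)) * (1 - 1 / (3 * d.p : ℝ)) =
        1 - 4 / (3 * d.p : ℝ) + 1 / (3 * (d.p : ℝ) ^ 2) := by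
      field_simp
      ring
    rw [h5]
    have h6 : (0 : ℝ) ≤ 1 / (3 * (d.p : ℝ) ^ 2) := by positivity
    linarith
  have h7 : (1 - 1 / (3 * d.p : ℝ)) ^ (3 * d.p) ≤ 1 / 2 := by
    have h8 : 1 - 1 / (3 * d.p : ℝ) ≤ Real.exp (-(1 / (3 * d.p : ℝ))) := by
      have := Real.add_one_le_exp (-(1 / (3 * d.p : ℝ)))
      linarith
    refine (pow_le_pow_left₀ h3 h8 _).trans ?_
    rw [← Real.exp_nat_mul, show ((3 * d.p : ℕ) : ℝ) * -(1 / (3 * d.p : ℝ)) = -1 by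
      push_cast; field_simp, Real.exp_neg, inv_eq_one_div]
    refine one_div_le_one_div_of_le (by norm_num) ?_
    have := Real.add_one_le_exp (1 : ℝ)
    linarith
  have h9 : (1 - 1 / (3 * d.p : ℝ)) ^ d.n' ≤ 1 / (d.z : ℝ) ^ (2 * d.B + 5) := by
    rw [show d.n' = 3 * d.p * (d.y * (2 * d.B + 5)) by unfold Dat.n'; ring, pow_mul]
    refine (pow_le_pow_left₀ (pow_nonneg h3 _) h7 _).trans (le_of_eq ?_)
    unfold Dat.z
    push_cast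
    rw [one_div_pow, pow_mul]
  have h10 : (d.p * d.L : ℝ) ^ 2 ≤ (d.z : ℝ) ^ (2 * d.B + 4) := by
    have h11 : (d.p : ℝ) ≤ d.z := by
      have h12 := h.pow_w (i := 1) (by norm_num)
      rw [pow_one] at h12
      exact h.wp.trans h12
    have h13 : (d.p * d.L : ℝ) ≤ d.z * (d.z : ℝ) ^ (d.B + 1) :=
      mul_le_mul h11 h.oparb_L (Nat.cast_nonneg _) (by positivity)
    refine (pow_le_pow_left₀ (by positivity) h13 2).trans (le_of_eq ?_)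
    ring
  have h14 : (d.p * d.L : ℝ) ^ 2 * (1 - 1 / (3 * d.p : ℝ)) ^ d.n' < 1 := by
    refine (mul_le_mul h10 h9 (pow_nonneg h3 _) (by positivity)).trans_lt ?_
    rw [mul_one_div, div_lt_one (by positivity)]
    exact pow_lt_pow_right₀ (by linarith) (by omega)
  have h15 := pow_le_pow_left₀ h1 h4 d.n'
  rw [mul_pow] at h15
  have h16 := pow_pos h2 d.n'
  unfold piK
  calc (d.p * d.L : ℝ) ^ 2 * (1 - 4 / (3 * d.p : ℝ)) ^ d.n'
      ≤ (d.p * d.L : ℝ) ^ 2 * ((1 - 1 / (d.p : ℝ)) ^ d.n' * (1 - 1 / (3 * d.p : ℝ)) ^ d.n') :=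
        mul_le_mul_of_nonneg_left h15 (by positivity)
    _ = (1 - 1 / (d.p : ℝ)) ^ d.n' * ((d.p * d.L : ℝ) ^ 2 * (1 - 1 / (3 * d.p : ℝ)) ^ d.n') := by
        ring
    _ < (1 - 1 / (d.p : ℝ)) ^ d.n' * 1 := mul_lt_mul_of_pos_left h14 h16
    _ = (1 - 1 / (d.p : ℝ)) ^ d.n' := mul_one _

end Dat.OK

end Pool.Agent.P.MP_85fe51_lc.OD
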