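import Pool.Agent.P.MP_85fe51_lc.OParD

set_option autoImplicit false

namespace Pool.Agent.P.MP_85fe51_lc.OD

namespace Dat.OK
variable {d : Dat}

theorem opc_z (h : d.OK) : (10 : ℝ) ^ 24 ≤ d.z := by
  have e : ((1000 ^ 8 : ℕ) : ℝ) ≤ d.z := Nat.cast_le.2 h.z_ge
  exact le_trans (by norm_num) e

theorem opc_N (h : d.OK) : (4 : ℝ) ≤ ((4 * d.M : ℕ) : ℝ) := by
  have e : 1 ≤ d.M := Nat.one_le_pow _ _ (lt_of_lt_of_le (by norm_num) h.z_ge)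
  exact_mod_cast (by omega : 4 ≤ 4 * d.M)

theorem opc_pow (h : d.OK) {a b : ℕ} (hab : a ≤ b) : (d.z : ℝ) ^ a ≤ (d.z : ℝ) ^ b :=
  pow_le_pow_right₀ h.one_le_z hab

theorem opc_Npow (h : d.OK) (a : ℕ) : ((4 * d.M : ℕ) : ℝ) ^ a ≤ (d.z : ℝ) ^ ((d.m + 1) * a) := by
  rw [pow_mul]
  exact pow_le_pow_left₀ (Nat.cast_nonneg _) h.M4_le a

theorem opc_key (h : d.OK) {x c : ℝ} (hx0 : 0 ≤ x) (hx : x ≤ 1 / (d.z : ℝ) ^ parD d.s d.E1)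
    (hc : c ≤ 10 ^ 24) {a : ℕ} (ha : a + 1 ≤ 3 * d.E + 30) :
    c * x * ((4 * d.M : ℕ) : ℝ) ^ a ≤ 1 := by
  have hz : (0 : ℝ) < d.z := lt_of_lt_of_le one_pos h.one_le_z
  have e1 : (d.m + 1) * a + 1 ≤ parD d.s d.E1 := by
    have e : (d.m + 2) * (a + 1) ≤ (d.m + 2) * (3 * d.E + 30) := Nat.mul_le_mul_left _ ha
    have e' : (d.m + 2) * (a + 1) = (d.m + 1) * a + 1 + (a + d.m + 1) := by ring
    change _ ≤ (d.m + 2) * (3 * d.E + 30)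
    omega
  have e2 := h.opc_Npow a
  have e3 := hc.trans h.opc_z
  calc _ = c * (x * ((4 * d.M : ℕ) : ℝ) ^ a) := by ring
    _ ≤ d.z * (x * ((4 * d.M : ℕ) : ℝ) ^ a) := by gcongr
    _ ≤ d.z * (1 / (d.z : ℝ) ^ parD d.s d.E1 * (d.z : ℝ) ^ ((d.m + 1) * a)) := by gcongr
    _ = (d.z : ℝ) ^ ((d.m + 1) * a + 1) / (d.z : ℝ) ^ parD d.s d.E1 := by ring
    _ ≤ 1 := (div_le_one (by positivity)).2 (h.opc_pow e1)

theorem opc_w (h : d.OK) {c x y : ℝ} (hc : c ≤ 10 ^ 9) (hx0 : 0 ≤ x) (hx : x ≤ d.w) (hy0 : 0 ≤ y)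
    (hy : y ≤ d.w) : c * x * y ≤ d.z := by
  have e0 := h.w0
  have e1 : c ≤ d.w ^ 3 := hc.trans (le_trans (by norm_num)
    (pow_le_pow_left₀ (by norm_num) e0 3))
  have e2 : (0 : ℝ) ≤ d.w := by linarith
  calc _ = c * (x * y) := by ring
    _ ≤ d.w ^ 3 * (d.w * d.w) := by
      refine le_trans (mul_le_mul_of_nonneg_right e1 (mul_nonneg hx0 hy0)) ?_
      gcongr
    _ = d.w ^ 5 := by ring
    _ ≤ _ := h.pow_w (by norm_num)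

theorem opc_pi1 (h : d.OK) : piK d.p d.k ≤ 1 :=
  h.pi_le.trans ((div_le_one (pow_pos (lt_of_lt_of_le one_pos h.one_le_z) _)).2
    (one_le_pow₀ h.one_le_z))

theorem opc_G : (d.CH : ℝ) * (d.M : ℝ) ^ 2 = (d.z : ℝ) ^ (6 + 2 * d.m) := by
  unfold Dat.CH Dat.M
  push_cast
  ring

theorem opc_t3 (h : d.OK) :
    3072 * piK d.p d.k * d.z * (5 * (d.z : ℝ) ^ (6 + 2 * d.m)) * d.t * d.q * d.L ≤ d.μ / 128 := by
  have hz : (0 : ℝ) < d.z := lt_of_lt_of_le one_pos h.one_le_z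
  have hπ := h.pi_pos
  have hN : (0 : ℝ) < ((4 * d.M : ℕ) : ℝ) := lt_of_lt_of_le (by norm_num) h.opc_N
  have hL : (d.L : ℝ) ≤ (d.z : ℝ) ^ (d.B + 1) := by exact_mod_cast h.hL
  have e1 : d.μ = (d.z : ℝ) ^ d.b * (piK d.p d.k / ((4 * d.M : ℕ) : ℝ) ^ (d.E + 1)) /
      (8 * (8 * (d.z : ℝ) ^ (6 + 2 * d.m)) * ((4 * d.M : ℕ) : ℝ)) := by
    unfold Dat.μ Dat.pmin Dat.n1
    rw [← opc_G, Nat.cast_pow, Nat.cast_mul (8 * d.CH), Nat.cast_mul 8, Nat.cast_pow,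
      Nat.cast_ofNat, mul_assoc (8 : ℝ) d.CH]
  have e2 : 125829120 * (d.t : ℝ) * 1 ≤ d.z :=
    h.opc_w (by norm_num) (Nat.cast_nonneg _) h.wt zero_le_one (by linarith [h.w0])
  have e3 : ((d.z : ℝ) ^ d.m) ^ 10 ≤ ((4 * d.M : ℕ) : ℝ) ^ 10 :=
    pow_le_pow_left₀ (by positivity) h.M4_ge 10
  have e4 : d.B + 15 + 4 * d.m ≤ d.b + d.m * 10 := by
    have := B_eq (d := d)
    have : d.m = 9 * d.s + 10 := rfl
    omega
  have e5 : 125829120 * (d.t : ℝ) * 1 * (d.z * ((d.z : ℝ) ^ (6 + 2 * d.m)) ^ 2 * d.L) ≤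
      (d.z : ℝ) ^ d.b * ((4 * d.M : ℕ) : ℝ) ^ 10 := by
    calc _ ≤ d.z * (d.z * ((d.z : ℝ) ^ (6 + 2 * d.m)) ^ 2 * (d.z : ℝ) ^ (d.B + 1)) := by gcongr
      _ = (d.z : ℝ) ^ (d.B + 15 + 4 * d.m) := by ring
      _ ≤ (d.z : ℝ) ^ (d.b + d.m * 10) := h.opc_pow e4
      _ = (d.z : ℝ) ^ d.b * ((d.z : ℝ) ^ d.m) ^ 10 := by ring
      _ ≤ _ := by gcongr
  rw [e1]
  unfold Dat.q
  generalize ((4 * d.M : ℕ) : ℝ) = N at hN e5 ⊢
  have hG : 0 < (d.z : ℝ) ^ (6 + 2 * d.m) := by positivity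
  generalize (d.z : ℝ) ^ (6 + 2 * d.m) = G at hG e5 ⊢
  calc _ = piK d.p d.k / (8192 * G * N ^ (d.E + 12)) *
        (125829120 * (d.t : ℝ) * 1 * (d.z * G ^ 2 * d.L)) := by field_simp; ring
    _ ≤ piK d.p d.k / (8192 * G * N ^ (d.E + 12)) * ((d.z : ℝ) ^ d.b * N ^ 10) := by gcongr
    _ = _ := by field_simp; ring

theorem opc_rho2 (h : d.OK) :
    (1 - 1 / (4 * d.j * d.k : ℝ)) ^ (d.r / 2) ≤ 1 / (d.z : ℝ) ^ parX d.s d.E1 d.k0 d.j := by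
  refine le_trans ?_ h.exp_le
  have hj : (1 : ℝ) ≤ d.j := by exact_mod_cast h.hj
  have hk : (1 : ℝ) ≤ d.k := by exact_mod_cast h.one_le_k
  have h1 : (1 : ℝ) ≤ 4 * d.j * d.k :=
    one_le_mul_of_one_le_of_one_le (by linarith) hk
  have h2 : 8 * (d.j : ℝ) * d.k ≤ d.z :=
    h.opc_w (by norm_num) (by linarith) h.wj' (by linarith) (by linarith [h.wk])
  have h3 : 8 * d.j * d.k ≤ d.z := by exact_mod_cast h2
  have h4 : 4 * d.j * d.k * d.z ≤ d.r / 2 := by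
    rw [Nat.le_div_iff_mul_le two_pos]
    calc _ = 8 * d.j * d.k * d.z := by ring
      _ ≤ d.z * d.z := Nat.mul_le_mul_right _ h3
      _ = d.r := (pow_two _).symm
  have h5 : 4 * (d.j : ℝ) * d.k * d.z ≤ ((d.r / 2 : ℕ) : ℝ) := by exact_mod_cast h4
  have h6 : 0 ≤ 1 - 1 / (4 * d.j * d.k : ℝ) := sub_nonneg.2 ((div_le_one (by linarith)).2 h1)
  calc _ ≤ Real.exp (-(1 / (4 * d.j * d.k : ℝ))) ^ (d.r / 2) :=
        pow_le_pow_left₀ h6 (Real.one_sub_le_exp_neg _) _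
    _ = Real.exp (-(((d.r / 2 : ℕ) : ℝ) / (4 * d.j * d.k))) := by
        rw [← Real.exp_nat_mul]
        congr 1
        ring
    _ ≤ _ := Real.exp_le_exp.2 (neg_le_neg ((le_div_iff₀ (by linarith)).2 (by linarith)))

theorem f_bq (h : d.OK) :
    4 * piK d.p d.k ≤ d.q := by
  have hN : (0 : ℝ) < ((4 * d.M : ℕ) : ℝ) := lt_of_lt_of_le (by norm_num) h.opc_N
  unfold Dat.q
  rw [le_div_iff₀ (by positivity)]
  exact h.opc_key h.pi_pos.le h.pi_le (by norm_num) (by omega)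

theorem f_bδ (h : d.OK) :
    6 * (((d.k + 1) * d.j + d.k : ℕ) : ℝ) * d.ε + 2 * (4 * d.M : ℕ) * piK d.p d.k ^ 2 ≤ d.pmin / 32 := by
  have hz : (0 : ℝ) < d.z := lt_of_lt_of_le one_pos h.one_le_z
  have hN : (0 : ℝ) < ((4 * d.M : ℕ) : ℝ) := lt_of_lt_of_le (by norm_num) h.opc_N
  have hπ := h.pi_pos
  have hp := h.pmin_pos
  have hj : (1 : ℝ) ≤ d.j := by exact_mod_cast h.hj
  have hk : (0 : ℝ) ≤ d.k := Nat.cast_nonneg _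
  have e1 : 768 * ((d.k : ℝ) + 1) * d.j ≤ d.z :=
    h.opc_w (by norm_num) (by linarith) h.wk (by linarith) h.wj'
  have e2 : (d.k : ℝ) + 1 ≤ ((d.k : ℝ) + 1) * d.j := le_mul_of_one_le_right (by linarith) hj
  have e3 : 6 * (((d.k + 1) * d.j + d.k : ℕ) : ℝ) ≤ d.z / 64 := by
    push_cast
    linarith
  have e4 : 6 * (((d.k + 1) * d.j + d.k : ℕ) : ℝ) * d.ε ≤ d.pmin / 64 := by
    unfold Dat.ε
    calc _ ≤ d.z / 64 * (d.pmin / d.z) := by gcongr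
      _ = _ := by field_simp
  have e5 := h.opc_key (c := 128) hπ.le h.pi_le (by norm_num) (a := d.E + 2) (by omega)
  have e6 : 2 * ((4 * d.M : ℕ) : ℝ) * piK d.p d.k ^ 2 ≤ d.pmin / 64 := by
    unfold Dat.pmin
    generalize ((4 * d.M : ℕ) : ℝ) = N at hN e5 ⊢
    calc _ = piK d.p d.k / N ^ (d.E + 1) / 64 * (128 * piK d.p d.k * N ^ (d.E + 2)) := by
          field_simp; ring
      _ ≤ piK d.p d.k / N ^ (d.E + 1) / 64 * 1 := by gcongr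
      _ = _ := mul_one _
  linarith

theorem f_bq2 (h : d.OK) :
    2 * (4 * piK d.p d.k / d.q) ^ 2 ≤ d.pmin / 64 := by
  have hN : (0 : ℝ) < ((4 * d.M : ℕ) : ℝ) := lt_of_lt_of_le (by norm_num) h.opc_N
  have hπ := h.pi_pos
  have e5 := h.opc_key (c := 2048) hπ.le h.pi_le (by norm_num) (a := 3 * d.E + 25) (by omega)
  unfold Dat.pmin Dat.q
  generalize ((4 * d.M : ℕ) : ℝ) = N at hN e5 ⊢
  calc _ = piK d.p d.k / N ^ (d.E + 1) / 64 * (2048 * piK d.p d.k * N ^ (3 * d.E + 25)) := by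
        field_simp; ring
    _ ≤ piK d.p d.k / N ^ (d.E + 1) / 64 * 1 := by gcongr
    _ = _ := mul_one _

theorem f_by1 (h : d.OK) :
    2 * ((8 * d.CH * d.M ^ 2 : ℕ) * d.v + 4 * piK d.p d.k *
    (6 * d.C' * ((4 * d.CH * d.M ^ 2 : ℕ) + 1) * (d.v + 64 * d.t * d.q * d.L + 2))) +
    2 * (d.v + 2) * ((4 * d.M : ℕ) : ℝ) ^ d.E1 / (1 - d.γ) ≤ d.μ / 64 := by
  have hz1 := h.one_le_z
  have hz : (0 : ℝ) < d.z := lt_of_lt_of_le one_pos hz1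
  have hπ := h.pi_pos
  have hπ1 := h.opc_pi1
  have hv := h.v_le
  have hv0 : (0 : ℝ) ≤ d.v := Nat.cast_nonneg _
  have hγ : 0 < 1 - d.γ := sub_pos.2 h.hγ1
  have hq : 0 ≤ d.q := by unfold Dat.q; positivity
  have t3 := h.opc_t3
  have hμ := h.μ_ge
  have hF := h.opc_Npow d.E1
  have a1 : ((8 * d.CH * d.M ^ 2 : ℕ) : ℝ) = 8 * (d.z : ℝ) ^ (6 + 2 * d.m) := by
    rw [← opc_G]; push_cast; ring
  have a2 : ((4 * d.CH * d.M ^ 2 : ℕ) : ℝ) = 4 * (d.z : ℝ) ^ (6 + 2 * d.m) := by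
    rw [← opc_G]; push_cast; ring
  have a3 : (d.C' : ℝ) = d.z := rfl
  have a4 : (d.z : ℝ) ^ parA d.s d.E1 d.k0 = (d.z : ℝ) ^ 4 * ((d.z : ℝ) ^ (d.k0 + 1) *
      (d.z : ℝ) ^ (6 + 2 * d.m) * (d.z : ℝ) ^ ((d.m + 1) * d.E1) * d.z) := by
    change (d.z : ℝ) ^ (d.k0 + 2 * d.m + 12 + (d.m + 1) * d.E1) = _
    ring
  have a5 : 1 / (1 - d.γ) ≤ d.z := by
    rw [div_le_iff₀ hγ]
    have e := h.pow_w (i := 1) (by norm_num)
    rw [pow_one] at e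
    calc _ ≤ (1 - d.γ) * d.w := h.wγ
      _ ≤ (1 - d.γ) * d.z := by gcongr
      _ = _ := mul_comm _ _
  have a6 : (10 : ℝ) ^ 24 ≤ (d.z : ℝ) ^ 4 := h.opc_z.trans (le_self_pow₀ hz1 (by norm_num))
  have hG1 : 1 ≤ (d.z : ℝ) ^ (6 + 2 * d.m) := one_le_pow₀ hz1
  have hF1 : 1 ≤ (d.z : ℝ) ^ ((d.m + 1) * d.E1) := one_le_pow₀ hz1
  have hN0 : (0 : ℝ) ≤ ((4 * d.M : ℕ) : ℝ) ^ d.E1 := by positivity
  rw [a1, a2, a3]
  rw [a4] at hμ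
  generalize ((4 * d.M : ℕ) : ℝ) ^ d.E1 = N at hN0 hF ⊢
  generalize (d.z : ℝ) ^ (6 + 2 * d.m) = G at hG1 hμ t3 ⊢
  generalize (d.z : ℝ) ^ ((d.m + 1) * d.E1) = F at hF1 hμ hF
  generalize (d.z : ℝ) ^ (d.k0 + 1) = V at hv hμ
  have hV : 0 ≤ V := by linarith
  have hG : 0 ≤ G := by linarith
  have hF0 : 0 ≤ F := by linarith
  have b1 : G * d.v ≤ V * G * F * d.z :=
    calc _ = d.v * G * 1 * 1 := by ring
      _ ≤ _ := by gcongr; linarith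
  have b2 : piK d.p d.k * (d.z * (4 * G + 1) * (d.v + 2)) ≤ 5 * (V * G * F * d.z) :=
    calc _ ≤ 1 * (d.z * (4 * G + G) * V) := by gcongr
      _ = 5 * (V * G * 1 * d.z) := by ring
      _ ≤ _ := by gcongr
  have b3 : 3072 * piK d.p d.k * d.z * (4 * G + 1) * d.t * d.q * d.L ≤ d.μ / 128 := by
    refine le_trans ?_ t3
    gcongr
    linarith
  have b4 : (d.v + 2) * N / (1 - d.γ) ≤ V * G * F * d.z :=
    calc _ = (d.v + 2) * 1 * N * (1 / (1 - d.γ)) := by ring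
      _ ≤ _ := by gcongr
  have b5 : 10 ^ 24 * (V * G * F * d.z) ≤ d.μ := le_trans (by gcongr) hμ
  have b6 : 0 ≤ V * G * F * d.z := by positivity
  calc _ = 16 * (G * d.v) + 48 * (piK d.p d.k * (d.z * (4 * G + 1) * (d.v + 2))) +
        3072 * piK d.p d.k * d.z * (4 * G + 1) * d.t * d.q * d.L +
        2 * ((d.v + 2) * N / (1 - d.γ)) := by ring
    _ ≤ _ := by linarith

theorem f_bk (h : d.OK) :
    d.k * d.v + 1 ≤ d.μ / 16 := by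
  have hz : (0 : ℝ) < d.z := lt_of_lt_of_le one_pos h.one_le_z
  have hk : (0 : ℝ) ≤ d.k := Nat.cast_nonneg _
  have hv0 : (0 : ℝ) ≤ d.v := Nat.cast_nonneg _
  have hv := h.v_le
  have e1 : 16 * ((d.k : ℝ) + 1) * 1 ≤ d.z :=
    h.opc_w (by norm_num) (by linarith) h.wk zero_le_one (by linarith [h.w0])
  have e2 : d.k0 + 2 ≤ parA d.s d.E1 d.k0 := by
    unfold parA
    omega
  have e3 : 16 * ((d.k : ℝ) + 1) * 1 * (d.v + 2) ≤ d.μ :=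
    calc _ ≤ d.z * (d.z : ℝ) ^ (d.k0 + 1) := by gcongr
      _ = (d.z : ℝ) ^ (d.k0 + 2) := by ring
      _ ≤ _ := (h.opc_pow e2).trans h.μ_ge
  have e4 : 16 * ((d.k : ℝ) + 1) * 1 * (d.v + 2) = 16 * (d.k * d.v) + 32 * d.k + 16 * d.v + 32 := by
    ring
  linarith

theorem f_fp (h : d.OK) :
    d.p' ≤ piK d.p d.k / ((4 * d.M : ℕ) : ℝ) ^ (2 * d.E1 + 1) -
    (4 * d.M : ℕ) * ((1 - 3 / (2 * d.p : ℝ)) ^ d.k + d.k * (1 - 1 / (4 * d.j * d.k : ℝ)) ^ (d.r / 2)) := by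
  have hz : (0 : ℝ) < d.z := lt_of_lt_of_le one_pos h.one_le_z
  have hN4 := h.opc_N
  have hN : (0 : ℝ) < ((4 * d.M : ℕ) : ℝ) := lt_of_lt_of_le (by norm_num) hN4
  have hπ := h.pi_pos
  have hp : (2 : ℝ) ≤ d.p := by exact_mod_cast h.hp
  have hp0 : (0 : ℝ) < d.p := by linarith
  have hk : (0 : ℝ) ≤ d.k := Nat.cast_nonneg _
  have hE : d.E = 2 * d.E1 + 1 + 1 := rfl
  have r0 : 0 ≤ 1 - 1 / (2 * d.p : ℝ) := sub_nonneg.2 ((div_le_one (by linarith)).2 (by linarith))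
  have r1 : (1 - 3 / (2 * d.p : ℝ)) ^ d.k ≤ piK d.p d.k * (1 - 1 / (2 * d.p : ℝ)) ^ d.k := by
    unfold piK
    rw [← mul_pow]
    refine pow_le_pow_left₀ (sub_nonneg.2 ((div_le_one (by linarith)).2 (by linarith))) ?_ _
    have e : (1 - 1 / (d.p : ℝ)) * (1 - 1 / (2 * d.p : ℝ)) =
        1 - 3 / (2 * d.p : ℝ) + 1 / (2 * (d.p : ℝ) ^ 2) := by field_simp; ring
    rw [e]
    exact le_add_of_nonneg_right (by positivity)
  have r2 := h.opc_key (c := 4) (pow_nonneg r0 d.k) h.ratio_le (by norm_num) (a := d.E) (by omega)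
  have r3 := h.opc_rho2
  have r4 : 4 * (d.k : ℝ) * 1 ≤ d.z :=
    h.opc_w (by norm_num) hk (by linarith [h.wk]) zero_le_one (by linarith [h.w0])
  have r5 : 1 + (d.m + 1) * d.E + d.k0 ≤ parX d.s d.E1 d.k0 d.j := by
    change _ ≤ 4 * parB d.s d.E1 d.k0 + 12 + d.k0 + (d.m + 1) * (d.E + 1) + d.j * d.k0
    rw [mul_add (d.m + 1) d.E 1]
    omega
  have r6 := h.opc_Npow d.E
  have r7 : 4 * (d.k : ℝ) * 1 * ((4 * d.M : ℕ) : ℝ) ^ d.E *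
      (1 - 1 / (4 * d.j * d.k : ℝ)) ^ (d.r / 2) ≤ piK d.p d.k := by
    refine le_trans ?_ h.pi_ge
    calc _ ≤ 4 * (d.k : ℝ) * 1 * ((4 * d.M : ℕ) : ℝ) ^ d.E *
          (1 / (d.z : ℝ) ^ parX d.s d.E1 d.k0 d.j) := by gcongr
      _ ≤ d.z * (d.z : ℝ) ^ ((d.m + 1) * d.E) *
          (1 / (d.z : ℝ) ^ (1 + (d.m + 1) * d.E + d.k0)) := by
        have := h.opc_pow r5
        gcongr
      _ = _ := by field_simp; ring
  unfold Dat.p'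
  rw [hE] at r2 r7 ⊢
  generalize ((4 * d.M : ℕ) : ℝ) = N at hN hN4 r2 r7 ⊢
  generalize (1 - 1 / (4 * d.j * d.k : ℝ)) ^ (d.r / 2) = ρ2 at r7 ⊢
  generalize (1 - 3 / (2 * d.p : ℝ)) ^ d.k = ρ1 at r1 ⊢
  generalize (1 - 1 / (2 * d.p : ℝ)) ^ d.k = ρ at r1 r2
  generalize 2 * d.E1 + 1 = a at r2 r7 ⊢
  have hS : 0 < piK d.p d.k / N ^ a := by positivity
  have s1 : piK d.p d.k / N ^ (a + 1) ≤ piK d.p d.k / N ^ a / 4 := by
    rw [pow_succ, ← div_div]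
    gcongr
  have s2 : N * ρ1 ≤ piK d.p d.k / N ^ a / 4 :=
    calc _ ≤ N * (piK d.p d.k * ρ) := by gcongr
      _ = piK d.p d.k / N ^ a / 4 * (4 * ρ * N ^ (a + 1)) := by field_simp; ring
      _ ≤ piK d.p d.k / N ^ a / 4 * 1 := by gcongr
      _ = _ := mul_one _
  have s3 : N * (d.k * ρ2) ≤ piK d.p d.k / N ^ a / 4 :=
    calc _ = 4 * (d.k : ℝ) * 1 * N ^ (a + 1) * ρ2 / N ^ a / 4 := by field_simp; ring
      _ ≤ _ := by gcongr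
  rw [mul_add]
  linarith

end Dat.OK

end Pool.Agent.P.MP_85fe51_lc.OD
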