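import Pool.Agent.P.MP_85fe51_lc.OParA
import Pool.Agent.P.MP_85fe51_lc.OParB
import Pool.Agent.P.MP_85fe51_lc.OParC

set_option autoImplicit false

namespace Pool.Agent.P.MP_85fe51_lc.OD

noncomputable def Dat.num (d : Dat) (h : d.OK) : Num d.p d.s d.n d.L d.c d.c1 d.j d.E1 d.θ d.γ where
  k := d.k
  CH := d.CH
  r := d.r
  M := d.M
  C' := d.C'
  g := d.g
  t := d.t
  v := d.v
  n' := d.n'
  n0 := d.n0
  n1 := d.n1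
  W := d.W
  Ylo := d.Ylo
  τ := d.τ
  ε := d.ε
  ζ := d.ζ
  q := d.q
  ξ := d.ξ
  pmin := d.pmin
  p' := d.p'
  β := d.β
  μ := d.μ
  hk := h.f_hk
  hr := h.f_hr
  hM := h.f_hM
  hC := h.f_hC
  hg1 := h.f_hg1
  ht1 := h.f_ht1
  ht := h.f_ht
  hn'1 := h.f_hn'1
  hn1 := h.f_hn1
  hW1 := h.f_hW1
  hτ0 := h.f_hτ0
  hτ1 := h.f_hτ1
  hε0 := h.f_hε0
  hεk := h.f_hεk
  hβ0 := h.β_pos
  hq0 := h.f_hq0
  hq1 := h.f_hq1
  hξ0 := h.f_hξ0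
  hξ1 := h.f_hξ1
  hp0 := h.f_hp0
  hpm := h.pmin_pos.le
  xA := h.f_xA
  xB := h.f_xB
  xW := h.f_xW
  xW2 := h.f_xW2
  e1 := h.f_e1
  e2 := h.f_e2
  e3 := h.f_e3
  tc := h.f_tc
  z1 := h.f_z1
  z2 := h.f_z2
  z3 := h.f_z3
  z4 := h.f_z4
  z5 := h.f_z5
  tbig := h.f_tbig
  tg := h.f_tg
  tμ := h.f_tμ
  hμ := h.f_hμ
  bv := h.f_bv
  bQ := h.f_bQ
  bq := h.f_bq
  bδ := h.f_bδ
  bq2 := h.f_bq2
  by1 := h.f_by1
  bk := h.f_bk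
  fm := h.f_fm
  fr := h.f_fr
  fbig := h.f_fbig
  fY := h.f_fY
  fdel := h.f_fdel
  fn := h.f_fn
  fp := h.f_fp

theorem opar_ev (k : ℕ) (A : ℝ) : ∀ᶠ y : ℕ in Filter.atTop, A * (y : ℝ) ^ k ≤ 2 ^ y := by
  have h := (tendsto_pow_const_div_const_pow_of_one_lt k (one_lt_two (α := ℝ))).const_mul A
  rw [mul_zero] at h
  filter_upwards [h.eventually (gt_mem_nhds (zero_lt_one (α := ℝ)))] with y hy
  have h2 : (0 : ℝ) < 2 ^ y := by positivity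
  rw [← mul_div_assoc, div_lt_one h2] at hy
  exact hy.le

theorem opar_k0 (p D : ℕ) (hp : 2 ≤ p) :
    ∃ k0 : ℕ, 1 ≤ k0 ∧ (1 - 1 / (2 * p : ℝ)) ^ k0 ≤ (1 / 2) ^ D := by
  have hp' : (2 : ℝ) ≤ p := by exact_mod_cast hp
  have h0 : (0 : ℝ) < 1 / (2 * p : ℝ) := by positivity
  have h1 : 1 / (2 * p : ℝ) ≤ 1 := by
    rw [div_le_one (by positivity)]; linarith
  obtain ⟨n, hn⟩ := exists_pow_lt_of_lt_one (x := (1 / 2 : ℝ) ^ D) (y := 1 - 1 / (2 * p : ℝ))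
    (by positivity) (by linarith)
  refine ⟨n + 1, by omega, le_trans ?_ hn.le⟩
  exact pow_le_pow_of_le_one (by linarith) (by linarith) (by omega)

theorem opar_exp (X y : ℕ) {θ : ℝ} (hθ : θ < 1)
    (h : 2 * X / (1 - θ) * (y : ℝ) ^ 1 ≤ 2 ^ y) :
    (((2 ^ y : ℕ) : ℝ)) ^ X ≤ Real.exp ((1 - θ) / 2 * ((2 ^ y : ℕ) : ℝ)) := by
  have h1 : (0 : ℝ) < 1 - θ := by linarith
  have h2 : (2 : ℝ) ≤ Real.exp 1 := by
    have := Real.add_one_le_exp (1 : ℝ)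
    linarith
  push_cast
  calc ((2 : ℝ) ^ y) ^ X ≤ ((Real.exp 1) ^ y) ^ X := by gcongr
    _ = Real.exp ((X : ℝ) * y) := by
        rw [← Real.exp_nat_mul, ← Real.exp_nat_mul, mul_one]
    _ ≤ Real.exp ((1 - θ) / 2 * 2 ^ y) := by
        apply Real.exp_le_exp.2
        rw [pow_one] at h
        have h3 : (X : ℝ) * y = (1 - θ) / 2 * (2 * X / (1 - θ) * y) := by field_simp
        rw [h3]
        exact mul_le_mul_of_nonneg_left h (by positivity)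

theorem exists_num (p s c j E1 : ℕ) (hp : 2 ≤ p) (hs : 1 ≤ s) (hc : 9 * s + 16 ≤ c) (hj : 1 ≤ j) :
    ∃ c1 : ℕ, ∀ θ γ : ℝ, 0 ≤ θ → θ < 1 → 0 ≤ γ → γ < 1 → ∃ B y0 : ℕ, 1 ≤ B ∧ ∀ y, y0 ≤ y →
      ∀ n L : ℕ, (2 ^ y) ^ B ≤ n → n ≤ (2 ^ y) ^ (B + 1) → L ≤ (2 ^ y) ^ (B + 1) →
        Nonempty (Num p s n L c c1 j E1 θ γ) := by
  obtain ⟨k0, hk0, hD⟩ := opar_k0 p (parD s E1) hp
  refine ⟨parC s E1 k0, fun θ γ hθ0 hθ1 hγ0 hγ1 => ?_⟩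
  have h1θ : (0 : ℝ) < 1 - θ := by linarith
  have h1γ : (0 : ℝ) < 1 - γ := by linarith
  obtain ⟨B, hB⟩ : ∃ B, B = parB s E1 k0 := ⟨_, rfl⟩
  obtain ⟨a, a0, ap, as, aj, ak, ag, at', an, ac, aθ, aγ⟩ : ∃ a : ℝ, 1000 ≤ a ∧ (p : ℝ) ≤ a ∧
      (s : ℝ) ≤ a ∧ (2 : ℝ) ^ j ≤ a ∧ (k0 : ℝ) + 1 ≤ a ∧ ((B + j * k0 + 3 : ℕ) : ℝ) ≤ a ∧
      (B : ℝ) + 2 ≤ a ∧ ((3 * p * (2 * B + 5) : ℕ) : ℝ) ≤ a ∧ (10 : ℝ) ^ (c + 2) ≤ a ∧
      1 / (1 - θ) ≤ a ∧ 1 / (1 - γ) ≤ a := by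
    have e := Filter.eventually_ge_atTop (α := ℝ)
    exact ((e _).and ((e _).and ((e _).and ((e _).and ((e _).and ((e _).and ((e _).and
      ((e _).and ((e _).and ((e _).and (e _))))))))))).exists
  obtain ⟨y0, hy0⟩ := Filter.eventually_atTop.1 ((opar_ev 8 (a ^ 8)).and
    ((opar_ev 1 (2 * (parX s E1 k0 j : ℕ) / (1 - θ))).and (Filter.eventually_gt_atTop c)))
  refine ⟨B, y0, ?_, fun y hy n L hn1 hn2 hL => ?_⟩
  · rw [hB]; unfold parB; omega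
  obtain ⟨e1, e2, e3⟩ := hy0 y hy
  have hy1 : (1 : ℝ) ≤ y := by exact_mod_cast (show 1 ≤ y by omega)
  have ha : (0 : ℝ) ≤ a := by linarith
  have hw : a ≤ a * y := le_mul_of_one_le_right ha hy1
  have hm : ∀ x : ℝ, x ≤ a → x * y ≤ a * y := fun x hx =>
    mul_le_mul_of_nonneg_right hx (by linarith)
  subst hB
  refine ⟨Dat.num ⟨p, s, n, L, c, j, E1, k0, y, θ, γ, a * y⟩
    { hp := hp, hs := hs, hc := hc, hj := hj, hk0 := hk0, hy := e3, hθ0 := hθ0, hθ1 := hθ1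
      hγ0 := hγ0, hγ1 := hγ1, hD := hD, hn1 := hn1, hn2 := hn2, hL := hL
      w0 := a0.trans hw, wp := ap.trans hw, ws := as.trans hw, wj := aj.trans hw
      wk := ?_, wg := ?_, wt := ?_, wn := ?_, wc := ac.trans hw, wθ := ?_, wγ := ?_, wz := ?_
      hexp := opar_exp _ y hθ1 e2 }⟩
  · show ((k0 * y : ℕ) : ℝ) + 1 ≤ a * y
    have := hm _ ak
    push_cast
    linarith
  · show (((parB s E1 k0 + j * k0 + 3) * y : ℕ) : ℝ) ≤ a * y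
    rw [Nat.cast_mul]
    exact hm _ ag
  · show (((parB s E1 k0 + 1) * y + 1 : ℕ) : ℝ) ≤ a * y
    have := hm _ at'
    push_cast
    linarith
  · show ((3 * p * (2 * parB s E1 k0 + 5) * y : ℕ) : ℝ) ≤ a * y
    rw [Nat.cast_mul]
    exact hm _ an
  · show 1 ≤ (1 - θ) * (a * y)
    have := aθ.trans hw
    rwa [div_le_iff₀' h1θ] at this
  · show 1 ≤ (1 - γ) * (a * y)
    have := aγ.trans hw
    rwa [div_le_iff₀' h1γ] at this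
  · show (a * y) ^ 8 ≤ ((2 ^ y : ℕ) : ℝ)
    rw [mul_pow]
    push_cast
    exact e1

end Pool.Agent.P.MP_85fe51_lc.OD
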