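import Pool.Agent.P.MP_85fe51_lc.OParD

set_option autoImplicit false

namespace Pool.Agent.P.MP_85fe51_lc.OD

namespace Dat.OK
variable {d : Dat}

theorem opa_z (h : d.OK) : 1000 ≤ d.z := le_trans (by norm_num) h.z_ge

theorem opa_Z (h : d.OK) : (1000 : ℝ) ≤ d.z := by exact_mod_cast h.opa_z

theorem opa_y (h : d.OK) : 1 ≤ d.y := by
  have := h.hy
  omega

theorem opa_w (h : d.OK) : (0 : ℝ) < d.w := lt_of_lt_of_le (by norm_num) h.w0

theorem opa_two (h : d.OK) {a x : ℝ} (ha : a ≤ 1000) (hx0 : 0 ≤ x) (hx : x ≤ d.w) :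
    a * x ≤ d.z := by
  have h1 := h.pow_w (i := 2) (by norm_num)
  have h2 := h.w0
  nlinarith

theorem opa_three (h : d.OK) {a x x' : ℝ} (ha : a ≤ 1000) (hx0 : 0 ≤ x) (hx : x ≤ d.w)
    (hx0' : 0 ≤ x') (hx' : x' ≤ d.w) : a * x * x' ≤ d.w ^ 3 := by
  have h2 := h.w0
  have h3 := h.opa_w
  calc a * x * x' ≤ d.w * x * x' := by gcongr; linarith
    _ ≤ d.w * d.w * d.w := by gcongr
    _ = d.w ^ 3 := by ring

theorem opa_key (h : d.OK) {a : ℝ} {i : ℕ} (hi : i + 1 ≤ 8) (ha0 : 0 ≤ a) (ha : a ≤ d.w ^ i) :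
    a ≤ (1 - d.θ) * d.z := by
  have h1 := h.pow_w hi
  have h2 := h.wθ
  have h3 := h.opa_w
  have h4 : 0 ≤ 1 - d.θ := by linarith [h.hθ1]
  calc a = a * 1 := (mul_one a).symm
    _ ≤ d.w ^ i * ((1 - d.θ) * d.w) := by gcongr
    _ = (1 - d.θ) * d.w ^ (i + 1) := by ring
    _ ≤ (1 - d.θ) * d.z := by gcongr

theorem opa_k (h : d.OK) : (d.k : ℝ) ≤ d.w := by linarith [h.wk]

theorem opa_k0 (h : d.OK) : (0 : ℝ) < d.k := by exact_mod_cast h.one_le_k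

theorem opa_j0 (h : d.OK) : (0 : ℝ) < d.j := by exact_mod_cast h.hj

theorem opa_L (h : d.OK) : d.L * d.z ≤ d.n1 * d.M := by
  calc d.L * d.z ≤ d.z ^ (d.B + 1) * d.z := Nat.mul_le_mul_right _ h.hL
    _ = d.z ^ (d.B + 2) := by ring
    _ = d.n1 * d.M := by rw [B_eq, pow_add, Dat.n1, Dat.M]

theorem opa_p (h : d.OK) : 124 * d.p ≤ d.z := by
  have := h.opa_two (a := 124) (by norm_num) (Nat.cast_nonneg d.p) h.wp
  exact_mod_cast this

theorem opa_s (h : d.OK) : 48 * d.s ≤ d.z := by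
  have := h.opa_two (a := 48) (by norm_num) (Nat.cast_nonneg d.s) h.ws
  exact_mod_cast this

theorem opa_M4 (h : d.OK) : (1 : ℝ) ≤ ((4 * d.M : ℕ) : ℝ) :=
  le_trans (one_le_pow₀ h.one_le_z) h.M4_ge

theorem opa_xB (h : d.OK) : 124 * d.p * d.CH * d.M * d.L ≤ d.CH * d.M ^ 2 * d.n1 := by
  calc 124 * d.p * d.CH * d.M * d.L ≤ d.z * d.CH * d.M * d.L := by gcongr; exact h.opa_p
    _ = d.CH * d.M * (d.L * d.z) := by ring
    _ ≤ d.CH * d.M * (d.n1 * d.M) := Nat.mul_le_mul_left _ h.opa_L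
    _ = _ := by ring

theorem f_hk (h : d.OK) :
    d.c < d.k := by
  have := Nat.mul_le_mul_right d.y h.hk0
  have h2 := h.hy
  unfold Dat.k
  omega

theorem f_hr (h : d.OK) :
    8 * d.r < d.CH := by
  have hz := h.opa_z
  have h1 : 0 < d.z ^ 2 := by positivity
  have h2 : d.z ≤ d.z ^ 4 := Nat.le_self_pow (by norm_num) _
  unfold Dat.r Dat.CH
  calc 8 * d.z ^ 2 < d.z ^ 4 * d.z ^ 2 := Nat.mul_lt_mul_of_pos_right (by omega) h1
    _ = d.z ^ 6 := by ring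

theorem f_hM (h : d.OK) :
    1 ≤ d.M :=
  Nat.one_le_pow _ _ (by have := h.opa_z; omega)

theorem f_hC (h : d.OK) :
    1 ≤ d.C' := by
  have := h.opa_z
  unfold Dat.C'
  omega

theorem f_hg1 (h : d.OK) :
    1 ≤ d.g :=
  Nat.mul_pos (Nat.succ_pos _) h.opa_y

theorem f_ht1 (h : d.OK) :
    1 ≤ d.t := by
  have _ := h.hp
  unfold Dat.t
  omega

theorem f_ht (h : d.OK) :
    d.L < 2 ^ d.t := by
  refine lt_of_le_of_lt h.hL ?_
  unfold Dat.z Dat.t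
  rw [← pow_mul, mul_comm d.y]
  exact Nat.pow_lt_pow_right (by norm_num) (Nat.lt_succ_self _)

theorem f_hn'1 (h : d.OK) :
    1 ≤ d.n' := by
  have h1 := h.hp
  exact Nat.mul_pos (Nat.mul_pos (Nat.mul_pos (by norm_num) (by omega)) (Nat.succ_pos _)) h.opa_y

theorem f_hn1 (h : d.OK) :
    1 ≤ d.n1 :=
  Nat.one_le_pow _ _ (by have := h.opa_z; omega)

theorem f_hW1 (h : d.OK) :
    1 ≤ d.W :=
  Nat.one_le_pow _ _ (by have := h.opa_z; omega)

theorem f_hτ0 (h : d.OK) :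
    0 ≤ d.τ := by
  have := h.opa_Z
  unfold Dat.τ
  positivity

theorem f_hτ1 (h : d.OK) :
    d.τ ≤ 1 / 2 := by
  have hz := h.opa_Z
  unfold Dat.τ
  refine one_div_le_one_div_of_le (by norm_num) ?_
  exact le_trans (by linarith) (le_self_pow₀ h.one_le_z (by norm_num))

theorem f_hε0 (h : d.OK) :
    0 < d.ε :=
  div_pos h.pmin_pos (by linarith [h.opa_Z])

theorem f_hεk (h : d.OK) :
    8 * (d.p : ℝ) ^ 2 * (d.k + 1) * d.ε ≤ 1 := by
  have hz : (0 : ℝ) < d.z := by linarith [h.opa_Z]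
  have h1 := h.opa_three (a := 8) (by norm_num) (Nat.cast_nonneg d.p) h.wp
    (Nat.cast_nonneg d.p) h.wp
  have h2 := h.pow_w (i := 4) (by norm_num)
  have h3 := h.opa_w
  have h4 : 8 * (d.p : ℝ) ^ 2 * (d.k + 1) ≤ d.z := by
    calc 8 * (d.p : ℝ) ^ 2 * (d.k + 1) = 8 * d.p * d.p * (d.k + 1) := by ring
      _ ≤ d.w ^ 3 * d.w := mul_le_mul h1 h.wk (by positivity) (by positivity)
      _ = d.w ^ 4 := by ring
      _ ≤ d.z := h2
  have h5 := h.pmin_pos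
  unfold Dat.ε
  rw [← mul_div_assoc, div_le_one hz]
  calc _ ≤ (d.z : ℝ) * 1 := mul_le_mul h4 h.pmin_le h5.le hz.le
    _ = _ := mul_one _

theorem f_hq0 (h : d.OK) :
    0 < d.q := by
  have := h.opa_M4
  unfold Dat.q
  positivity

theorem f_hq1 (h : d.OK) :
    d.q ≤ 1 := by
  have h1 := h.opa_M4
  unfold Dat.q
  rw [div_le_one (by positivity)]
  exact one_le_pow₀ h1

theorem f_hξ0 (h : d.OK) :
    0 < d.ξ := by
  have := h.opa_Z
  unfold Dat.ξ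
  positivity

theorem f_hξ1 (h : d.OK) :
    d.ξ ≤ 1 / 2 := by
  have hz := h.opa_Z
  unfold Dat.ξ
  refine one_div_le_one_div_of_le (by norm_num) ?_
  exact le_trans (by linarith) (le_self_pow₀ h.one_le_z (by norm_num))

theorem f_hp0 (h : d.OK) :
    0 < d.p' :=
  div_pos h.pi_pos (pow_pos (by linarith [h.opa_M4]) _)

theorem f_xA (h : d.OK) :
    4 * (31 * d.p * d.CH * d.M * d.L + 4 * d.CH * d.M ^ 2 * (3 * d.s * d.n1)) ≤ d.M ^ 2 * d.Ylo := by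
  have hz := h.opa_z
  have h1 := h.opa_xB
  have h2 : 48 * d.s * (d.CH * d.M ^ 2 * d.n1) ≤ d.z * (d.CH * d.M ^ 2 * d.n1) :=
    Nat.mul_le_mul_right _ h.opa_s
  have h3 : d.M ^ 2 * d.Ylo = d.z * d.z * (d.CH * d.M ^ 2 * d.n1) := by
    unfold Dat.Ylo Dat.CH Dat.n1
    ring
  have h4 : (1 + d.z) * (d.CH * d.M ^ 2 * d.n1) ≤ d.z * d.z * (d.CH * d.M ^ 2 * d.n1) :=
    Nat.mul_le_mul_right _ (by nlinarith)
  rw [h3]
  calc _ = 124 * d.p * d.CH * d.M * d.L + 48 * d.s * (d.CH * d.M ^ 2 * d.n1) := by ring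
    _ ≤ d.CH * d.M ^ 2 * d.n1 + d.z * (d.CH * d.M ^ 2 * d.n1) := Nat.add_le_add h1 h2
    _ = (1 + d.z) * (d.CH * d.M ^ 2 * d.n1) := by ring
    _ ≤ _ := h4

theorem f_xB (h : d.OK) :
    31 * d.p * d.CH * d.M * d.L ≤ 4 * d.CH * d.M ^ 2 * d.n1 := by
  calc 31 * d.p * d.CH * d.M * d.L ≤ 124 * d.p * d.CH * d.M * d.L := by gcongr; norm_num
    _ ≤ d.CH * d.M ^ 2 * d.n1 := h.opa_xB
    _ = 1 * d.CH * d.M ^ 2 * d.n1 := by ring
    _ ≤ _ := by gcongr; norm_num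

theorem f_xW (h : d.OK) :
    d.W ^ d.s * d.Ylo ≤ d.n := by
  refine le_trans (le_of_eq ?_) h.hn1
  unfold Dat.W Dat.Ylo Dat.B Dat.b parB
  ring

theorem f_xW2 (h : d.OK) :
    512 * (d.j : ℝ) ≤ 3 * d.W * d.ξ := by
  have hz : (0 : ℝ) < d.z := by linarith [h.opa_Z]
  have h1 := h.opa_two (a := 512) (by norm_num) (Nat.cast_nonneg d.j) h.wj'
  have h2 : 3 * (d.W : ℝ) * d.ξ = 3 * d.z := by
    unfold Dat.W Dat.ξ
    push_cast
    field_simp
  rw [h2]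
  linarith

theorem f_e1 (h : d.OK) :
    64 * d.j * d.n0 ≤ 3 * d.Ylo := by
  have h1 : 64 * d.j ≤ d.z := by
    have := h.opa_two (a := 64) (by norm_num) (Nat.cast_nonneg d.j) h.wj'
    exact_mod_cast this
  unfold Dat.n0 Dat.Ylo
  calc 64 * d.j * d.z ^ (d.b + 7) ≤ d.z * d.z ^ (d.b + 7) := Nat.mul_le_mul_right _ h1
    _ = 1 * d.z ^ (d.b + 8) := by ring
    _ ≤ _ := Nat.mul_le_mul_right _ (by norm_num)

theorem f_e2 (h : d.OK) :
    4 * d.s * d.β ≤ (1 / 2 : ℝ) ^ (d.j * (d.k + 1)) := by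
  have h1 : (0 : ℝ) < d.s := by exact_mod_cast h.hs
  unfold Dat.β
  rw [mul_div_cancel₀ _ (by positivity)]

theorem f_z1 (h : d.OK) :
    d.ζ ≤ d.τ / (4 * d.j * d.k) * (1 - d.θ) * d.CH / 2 := by
  have hz : (0 : ℝ) < d.z := by linarith [h.opa_Z]
  have hz1 := h.one_le_z
  have hj := h.opa_j0
  have hk := h.opa_k0
  have hθ : 0 ≤ 1 - d.θ := by linarith [h.hθ1]
  have h1 := h.opa_key (i := 3) (by norm_num) (by positivity)
    (h.opa_three (a := 8) (by norm_num) hj.le h.wj' hk.le h.opa_k)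
  have h2 : d.τ / (4 * d.j * d.k) * (1 - d.θ) * d.CH / 2 =
      (1 - d.θ) * d.z * d.z * d.z / (8 * d.j * d.k) := by
    unfold Dat.τ Dat.CH
    push_cast
    field_simp
    ring
  rw [h2, le_div_iff₀ (by positivity)]
  unfold Dat.ζ
  calc (d.z : ℝ) * (8 * d.j * d.k) = 8 * d.j * d.k * 1 * d.z := by ring
    _ ≤ _ := by gcongr

theorem f_z2 (h : d.OK) :
    d.ζ ≤ 1 / (4 * d.j * d.k) * (1 - d.θ) * d.r := by
  have hz : (0 : ℝ) < d.z := by linarith [h.opa_Z]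
  have hz1 := h.one_le_z
  have hj := h.opa_j0
  have hk := h.opa_k0
  have hθ : 0 ≤ 1 - d.θ := by linarith [h.hθ1]
  have h1 := h.opa_key (i := 3) (by norm_num) (by positivity)
    (h.opa_three (a := 4) (by norm_num) hj.le h.wj' hk.le h.opa_k)
  have h2 : 1 / (4 * d.j * d.k) * (1 - d.θ) * (d.r : ℝ) =
      (1 - d.θ) * d.z * d.z / (4 * d.j * d.k) := by
    unfold Dat.r
    push_cast
    field_simp
  rw [h2, le_div_iff₀ (by positivity)]
  unfold Dat.ζ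
  calc (d.z : ℝ) * (4 * d.j * d.k) = 4 * d.j * d.k * d.z := by ring
    _ ≤ _ := by gcongr

theorem f_z3 (h : d.OK) :
    d.ζ ≤ 1 / (4 * d.j * d.k) * (1 - d.θ) * d.CH / (4 * d.k * d.g : ℕ) := by
  have hz : (0 : ℝ) < d.z := by linarith [h.opa_Z]
  have hz1 := h.one_le_z
  have hj := h.opa_j0
  have hk := h.opa_k0
  have hθ : 0 ≤ 1 - d.θ := by linarith [h.hθ1]
  have hg : (0 : ℝ) < d.g := by exact_mod_cast h.f_hg1
  have hw := h.opa_w
  have h0 := h.opa_three (a := 16) (by norm_num) hj.le h.wj' hk.le h.opa_k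
  have h0' : 16 * (d.j : ℝ) * d.k * d.k * d.g ≤ d.w ^ 5 := by
    have h3 := h.opa_k
    have h4 := h.wg
    calc 16 * (d.j : ℝ) * d.k * d.k * d.g ≤ d.w ^ 3 * d.w * d.w := by gcongr
      _ = _ := by ring
  have h1 := h.opa_key (i := 5) (by norm_num) (by positivity) h0'
  have h2 : 1 / (4 * d.j * d.k) * (1 - d.θ) * (d.CH : ℝ) / (4 * d.k * d.g : ℕ) =
      (1 - d.θ) * d.z * d.z ^ 4 * d.z / (16 * d.j * d.k * d.k * d.g) := by
    unfold Dat.CH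
    push_cast
    field_simp
    ring
  have h5 : (1 : ℝ) ≤ (d.z : ℝ) ^ 4 := one_le_pow₀ hz1
  rw [h2, le_div_iff₀ (by positivity)]
  unfold Dat.ζ
  calc (d.z : ℝ) * (16 * d.j * d.k * d.k * d.g) = 16 * d.j * d.k * d.k * d.g * 1 * d.z := by ring
    _ ≤ _ := by gcongr

theorem f_z4 (h : d.OK) :
    d.ζ ≤ d.τ / (4 * d.j * d.k) / (8 * d.C') * d.CH := by
  have hz : (0 : ℝ) < d.z := by linarith [h.opa_Z]
  have hz1 := h.one_le_z
  have hj := h.opa_j0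
  have hk := h.opa_k0
  have hθ : 0 ≤ 1 - d.θ := by linarith [h.hθ1]
  have h1 := (h.opa_three (a := 32) (by norm_num) hj.le h.wj' hk.le h.opa_k).trans
    (h.pow_w (i := 3) (by norm_num))
  have h2 : d.τ / (4 * d.j * d.k) / (8 * d.C') * d.CH = d.z * d.z / (32 * d.j * d.k) := by
    unfold Dat.τ Dat.CH Dat.C'
    push_cast
    field_simp
    ring
  rw [h2, le_div_iff₀ (by positivity)]
  unfold Dat.ζ
  gcongr

theorem f_z5 (h : d.OK) :
    d.ζ ≤ 1 / (32 * d.j * d.n') * (1 - d.θ) * d.r := by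
  have hz : (0 : ℝ) < d.z := by linarith [h.opa_Z]
  have hz1 := h.one_le_z
  have hj := h.opa_j0
  have hk := h.opa_k0
  have hθ : 0 ≤ 1 - d.θ := by linarith [h.hθ1]
  have hn : (0 : ℝ) < d.n' := by exact_mod_cast h.f_hn'1
  have h1 := h.opa_key (i := 3) (by norm_num) (by positivity)
    (h.opa_three (a := 32) (by norm_num) hj.le h.wj' hn.le h.wn)
  have h2 : 1 / (32 * d.j * d.n') * (1 - d.θ) * (d.r : ℝ) =
      (1 - d.θ) * d.z * d.z / (32 * d.j * d.n') := by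
    unfold Dat.r
    push_cast
    field_simp
  rw [h2, le_div_iff₀ (by positivity)]
  unfold Dat.ζ
  calc (d.z : ℝ) * (32 * d.j * d.n') = 32 * d.j * d.n' * d.z := by ring
    _ ≤ _ := by gcongr

theorem f_hμ (h : d.OK) :
    8 * (8 * d.CH * d.M ^ 2 : ℕ) * (4 * d.M : ℕ) * d.μ ≤ d.n1 * d.pmin := by
  have h1 := h.opa_M4
  have hz := h.opa_z
  have h2 : (0 : ℝ) < ((8 * d.CH * d.M ^ 2 : ℕ) : ℝ) := by
    have h3 := h.f_hM
    have : 0 < 8 * d.CH * d.M ^ 2 := by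
      unfold Dat.CH
      positivity
    exact_mod_cast this
  unfold Dat.μ
  rw [mul_div_cancel₀ _ (by positivity)]

theorem f_fm (h : d.OK) :
    8 * d.L * d.pmin ≤ d.p' * d.n1 := by
  have h1 := h.opa_M4
  have hz := h.opa_z
  have h2 : 8 * d.L ≤ d.n1 * (4 * d.M) := by
    have h3 := h.opa_L
    have h4 : d.L * 2 ≤ d.L * d.z := Nat.mul_le_mul_left _ (by omega)
    nlinarith
  have h3 : 8 * (d.L : ℝ) ≤ d.n1 * ((4 * d.M : ℕ) : ℝ) := by exact_mod_cast h2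
  have h4 : d.p' = d.pmin * ((4 * d.M : ℕ) : ℝ) := by
    unfold Dat.p' Dat.pmin
    rw [pow_succ]
    field_simp
  have h5 := h.pmin_pos
  rw [h4]
  calc 8 * (d.L : ℝ) * d.pmin ≤ d.n1 * ((4 * d.M : ℕ) : ℝ) * d.pmin := by gcongr
    _ = _ := by ring

theorem f_fY (h : d.OK) :
    384 * (d.j : ℝ) ≤ d.ξ * d.Ylo := by
  have hz : (0 : ℝ) < d.z := by linarith [h.opa_Z]
  have h1 := h.opa_two (a := 384) (by norm_num) (Nat.cast_nonneg d.j) h.wj'
  have h2 : d.ξ * (d.Ylo : ℝ) = (d.z : ℝ) ^ d.b := by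
    unfold Dat.Ylo Dat.ξ
    push_cast
    field_simp
    ring
  have h3 : d.b ≠ 0 := by
    unfold Dat.b parb
    omega
  rw [h2]
  exact h1.trans (le_self_pow₀ h.one_le_z h3)

end Dat.OK

end Pool.Agent.P.MP_85fe51_lc.OD
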