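import Pool.Agent.P.MP_85fe51_lc.ONum

set_option autoImplicit false

namespace Pool.Agent.P.MP_85fe51_lc.OD

open Finset
open scoped Classical

/-- the data from which the parameters are computed. -/
structure Dat where
  p : ℕ
  s : ℕ
  n : ℕ
  L : ℕ
  c : ℕ
  j : ℕ
  E1 : ℕ
  k0 : ℕ
  y : ℕ
  θ : ℝ
  γ : ℝ
  w : ℝ

def parM (s : ℕ) : ℕ := 9 * s + 10

def parE (E1 : ℕ) : ℕ := 2 * E1 + 2

def parD (s E1 : ℕ) : ℕ := (parM s + 2) * (3 * parE E1 + 30)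

def parA (s E1 k0 : ℕ) : ℕ := k0 + 2 * parM s + 12 + (parM s + 1) * E1

def parb (s E1 k0 : ℕ) : ℕ := parA s E1 k0 + k0 + 2 * parM s + 7 + (parM s + 1) * (parE E1 + 2)

def parB (s E1 k0 : ℕ) : ℕ := 9 * s + 8 + parb s E1 k0

def parC (s E1 k0 : ℕ) : ℕ := k0 + (parM s + 1) * (parE E1 + 2)

def parX (s E1 k0 j : ℕ) : ℕ :=
  4 * parB s E1 k0 + 12 + k0 + (parM s + 1) * (parE E1 + 1) + j * k0

namespace Dat
variable (d : Dat)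

def m : ℕ := parM d.s
def E : ℕ := parE d.E1
def b : ℕ := parb d.s d.E1 d.k0
def B : ℕ := parB d.s d.E1 d.k0
def c1 : ℕ := parC d.s d.E1 d.k0
def z : ℕ := 2 ^ d.y
def k : ℕ := d.k0 * d.y
def CH : ℕ := d.z ^ 6
def r : ℕ := d.z ^ 2
def M : ℕ := d.z ^ d.m
def C' : ℕ := d.z
def g : ℕ := (d.B + d.j * d.k0 + 3) * d.y
def t : ℕ := (d.B + 1) * d.y + 1
def v : ℕ := 2 ^ d.k * (d.j * (d.k + 1) + d.s + 3) + 1
def n' : ℕ := 3 * d.p * (2 * d.B + 5) * d.y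
def n0 : ℕ := d.z ^ (d.b + 7)
def n1 : ℕ := d.z ^ d.b
def W : ℕ := d.z ^ 9
def Ylo : ℕ := d.z ^ (d.b + 8)
noncomputable def τ : ℝ := 1 / (d.z : ℝ) ^ 3
noncomputable def ξ : ℝ := 1 / (d.z : ℝ) ^ 8
noncomputable def p' : ℝ := piK d.p d.k / ((4 * d.M : ℕ) : ℝ) ^ d.E
noncomputable def pmin : ℝ := piK d.p d.k / ((4 * d.M : ℕ) : ℝ) ^ (d.E + 1)
noncomputable def ε : ℝ := d.pmin / d.z
noncomputable def ζ : ℝ := d.z
noncomputable def q : ℝ := 1 / ((4 * d.M : ℕ) : ℝ) ^ (d.E + 12)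
noncomputable def β : ℝ := (1 / 2 : ℝ) ^ (d.j * (d.k + 1)) / (4 * d.s)
noncomputable def μ : ℝ :=
  d.n1 * d.pmin / (8 * (8 * d.CH * d.M ^ 2 : ℕ) * (4 * d.M : ℕ))

/-- `w` dominates all small quantities and `z` is large. -/
structure OK : Prop where
  hp : 2 ≤ d.p
  hs : 1 ≤ d.s
  hc : 9 * d.s + 16 ≤ d.c
  hj : 1 ≤ d.j
  hk0 : 1 ≤ d.k0
  hy : d.c < d.y
  hθ0 : 0 ≤ d.θ
  hθ1 : d.θ < 1
  hγ0 : 0 ≤ d.γ
  hγ1 : d.γ < 1
  hD : (1 - 1 / (2 * d.p : ℝ)) ^ d.k0 ≤ (1 / 2) ^ parD d.s d.E1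
  hn1 : d.z ^ d.B ≤ d.n
  hn2 : d.n ≤ d.z ^ (d.B + 1)
  hL : d.L ≤ d.z ^ (d.B + 1)
  w0 : 1000 ≤ d.w
  wp : (d.p : ℝ) ≤ d.w
  ws : (d.s : ℝ) ≤ d.w
  wj : (2 : ℝ) ^ d.j ≤ d.w
  wk : (d.k : ℝ) + 1 ≤ d.w
  wg : (d.g : ℝ) ≤ d.w
  wt : (d.t : ℝ) ≤ d.w
  wn : (d.n' : ℝ) ≤ d.w
  wc : (10 : ℝ) ^ (d.c + 2) ≤ d.w
  wθ : 1 ≤ (1 - d.θ) * d.w
  wγ : 1 ≤ (1 - d.γ) * d.w
  wz : d.w ^ 8 ≤ d.z
  hexp : (d.z : ℝ) ^ parX d.s d.E1 d.k0 d.j ≤ Real.exp ((1 - d.θ) / 2 * d.z)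

variable {d}

namespace OK

theorem opard_w1 (h : d.OK) : (1 : ℝ) ≤ d.w := le_trans (by norm_num) h.w0

theorem opard_zc : (d.z : ℝ) = 2 ^ d.y := by
  unfold Dat.z
  push_cast
  rfl

theorem opard_p2 (h : d.OK) : (2 : ℝ) ≤ d.p := by exact_mod_cast h.hp

theorem wj' (h : d.OK) : (d.j : ℝ) ≤ d.w := by
  have h1 : d.j ≤ 2 ^ d.j := Nat.lt_two_pow_self.le
  have h2 : (d.j : ℝ) ≤ 2 ^ d.j := by exact_mod_cast h1
  exact h2.trans h.wj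

theorem pow_w (h : d.OK) {i : ℕ} (hi : i ≤ 8) : d.w ^ i ≤ d.z :=
  (pow_le_pow_right₀ h.opard_w1 hi).trans h.wz

theorem z_ge (h : d.OK) : 1000 ^ 8 ≤ d.z := by
  have h1 : (1000 : ℝ) ^ 8 ≤ d.w ^ 8 := pow_le_pow_left₀ (by norm_num) h.w0 8
  have h2 : (1000 : ℝ) ^ 8 ≤ d.z := h1.trans h.wz
  exact_mod_cast h2

theorem one_le_z (h : d.OK) : (1 : ℝ) ≤ d.z := by
  have h1 := h.pow_w (i := 0) (by norm_num)
  rwa [pow_zero] at h1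

theorem opard_z0 (h : d.OK) : (0 : ℝ) < d.z := lt_of_lt_of_le one_pos h.one_le_z

theorem opard_w_le (h : d.OK) : d.w ≤ d.z := by
  have h1 := h.pow_w (i := 1) (by norm_num)
  rwa [pow_one] at h1

theorem opard_z1000 (h : d.OK) : (1000 : ℝ) ≤ d.z := h.w0.trans h.opard_w_le

theorem one_le_k (h : d.OK) : 1 ≤ d.k := by
  have h1 : 1 ≤ d.y := by have := h.hy; omega
  unfold Dat.k
  exact Nat.one_le_iff_ne_zero.mpr (Nat.mul_ne_zero (by have := h.hk0; omega) (by omega))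

theorem two_pow_k : 2 ^ d.k = d.z ^ d.k0 := by
  unfold Dat.k Dat.z
  rw [← pow_mul, mul_comm]

theorem opard_two_pow_k : (2 : ℝ) ^ d.k = (d.z : ℝ) ^ d.k0 := by
  exact_mod_cast (two_pow_k (d := d))

theorem B_eq : d.B + 2 = d.b + d.m := by
  unfold Dat.B Dat.b Dat.m parB
  have : parM d.s = 9 * d.s + 10 := rfl
  omega

theorem opard_half (h : d.OK) : (1 / 2 : ℝ) ≤ 1 - 1 / (d.p : ℝ) := by
  have h1 : 1 / (d.p : ℝ) ≤ 1 / 2 := one_div_le_one_div_of_le (by norm_num) h.opard_p2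
  linarith

theorem pi_pos (h : d.OK) : 0 < piK d.p d.k := by
  unfold piK
  exact pow_pos (lt_of_lt_of_le (by norm_num) h.opard_half) _

theorem pi_ge (h : d.OK) : 1 / (d.z : ℝ) ^ d.k0 ≤ piK d.p d.k := by
  unfold piK
  rw [← opard_two_pow_k, ← one_div_pow]
  exact pow_le_pow_left₀ (by norm_num) h.opard_half _

theorem ratio_le (h : d.OK) :
    (1 - 1 / (2 * d.p : ℝ)) ^ d.k ≤ 1 / (d.z : ℝ) ^ parD d.s d.E1 := by
  have hp := h.opard_p2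
  have h0 : (0 : ℝ) ≤ 1 - 1 / (2 * d.p : ℝ) := by
    have h1 : 1 / (2 * d.p : ℝ) ≤ 1 / 1 := one_div_le_one_div_of_le (by norm_num) (by linarith)
    linarith
  have h1 : ((1 - 1 / (2 * d.p : ℝ)) ^ d.k0) ^ d.y ≤ ((1 / 2 : ℝ) ^ parD d.s d.E1) ^ d.y :=
    pow_le_pow_left₀ (pow_nonneg h0 _) h.hD _
  unfold Dat.k
  rw [pow_mul]
  refine h1.trans (le_of_eq ?_)
  rw [opard_zc, ← pow_mul, ← pow_mul, one_div_pow, mul_comm]

theorem pi_le (h : d.OK) : piK d.p d.k ≤ 1 / (d.z : ℝ) ^ parD d.s d.E1 := by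
  refine le_trans ?_ h.ratio_le
  unfold piK
  have hp := h.opard_p2
  refine pow_le_pow_left₀ (le_trans (by norm_num) h.opard_half) ?_ _
  have h1 : 1 / (2 * d.p : ℝ) ≤ 1 / (d.p : ℝ) :=
    one_div_le_one_div_of_le (by linarith) (by linarith)
  linarith

theorem opard_M4 : ((4 * d.M : ℕ) : ℝ) = 4 * (d.z : ℝ) ^ d.m := by
  unfold Dat.M
  push_cast
  rfl

theorem M4_ge (h : d.OK) : (d.z : ℝ) ^ d.m ≤ ((4 * d.M : ℕ) : ℝ) := by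
  rw [opard_M4]
  have := pow_pos h.opard_z0 d.m
  linarith

theorem M4_le (h : d.OK) : ((4 * d.M : ℕ) : ℝ) ≤ (d.z : ℝ) ^ (d.m + 1) := by
  rw [opard_M4, pow_succ']
  exact mul_le_mul_of_nonneg_right (le_trans (by norm_num) h.opard_z1000)
    (pow_pos h.opard_z0 _).le

theorem opard_M4_one (h : d.OK) : (1 : ℝ) ≤ ((4 * d.M : ℕ) : ℝ) :=
  (one_le_pow₀ h.one_le_z).trans h.M4_ge

theorem opard_M4_pos (h : d.OK) : (0 : ℝ) < ((4 * d.M : ℕ) : ℝ) :=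
  lt_of_lt_of_le one_pos h.opard_M4_one

theorem pmin_pos (h : d.OK) : 0 < d.pmin :=
  div_pos h.pi_pos (pow_pos h.opard_M4_pos _)

theorem pmin_le (h : d.OK) : d.pmin ≤ 1 := by
  unfold Dat.pmin
  rw [div_le_one (pow_pos h.opard_M4_pos _)]
  refine h.pi_le.trans (le_trans ?_ (one_le_pow₀ h.opard_M4_one))
  rw [div_le_one (pow_pos h.opard_z0 _)]
  exact one_le_pow₀ h.one_le_z

theorem pmin_ge (h : d.OK) : 1 / (d.z : ℝ) ^ (d.k0 + (d.m + 1) * (d.E + 1)) ≤ d.pmin := by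
  unfold Dat.pmin
  have h1 : ((4 * d.M : ℕ) : ℝ) ^ (d.E + 1) ≤ (d.z : ℝ) ^ ((d.m + 1) * (d.E + 1)) := by
    rw [pow_mul]
    exact pow_le_pow_left₀ h.opard_M4_pos.le h.M4_le _
  rw [pow_add, ← div_div]
  exact div_le_div₀ h.pi_pos.le h.pi_ge (pow_pos h.opard_M4_pos _) h1

theorem opard_s1 (h : d.OK) : (1 : ℝ) ≤ d.s := by exact_mod_cast h.hs

theorem β_pos (h : d.OK) : 0 < d.β := by
  unfold Dat.β
  have := h.opard_s1
  positivity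

theorem β_ge (h : d.OK) : 1 / (d.z : ℝ) ^ (d.j * d.k0 + 1) ≤ d.β := by
  unfold Dat.β
  have hs := h.opard_s1
  have hw := h.w0
  have h1 : (2 : ℝ) ^ (d.j * (d.k + 1)) = (d.z : ℝ) ^ (d.j * d.k0) * 2 ^ d.j := by
    rw [mul_add, mul_one, pow_add, mul_comm d.j d.k, pow_mul, opard_two_pow_k, ← pow_mul,
      mul_comm d.k0 d.j]
  have h2 : (2 : ℝ) ^ d.j * (4 * d.s) ≤ d.z := by
    refine le_trans ?_ (h.pow_w (i := 3) (by norm_num))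
    have h3 : (4 * d.s : ℝ) ≤ d.w * d.w :=
      mul_le_mul (by linarith) h.ws (by linarith) (by linarith)
    calc (2 : ℝ) ^ d.j * (4 * d.s) ≤ d.w * (d.w * d.w) :=
          mul_le_mul h.wj h3 (by linarith) (by linarith)
      _ = d.w ^ 3 := by ring
  rw [one_div_pow, div_div, h1, pow_succ, mul_assoc]
  refine one_div_le_one_div_of_le ?_ ?_
  · have := pow_pos h.opard_z0 (d.j * d.k0)
    positivity
  · exact mul_le_mul_of_nonneg_left h2 (pow_pos h.opard_z0 _).le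

theorem v_le (h : d.OK) : (d.v : ℝ) + 2 ≤ (d.z : ℝ) ^ (d.k0 + 1) := by
  have hw := h.w0
  have hv : (d.v : ℝ) = (d.z : ℝ) ^ d.k0 * (d.j * (d.k + 1) + d.s + 3) + 1 := by
    unfold Dat.v
    push_cast
    rw [opard_two_pow_k]
  have h1 : (1 : ℝ) ≤ (d.z : ℝ) ^ d.k0 := one_le_pow₀ h.one_le_z
  have h2 : (d.j : ℝ) * (d.k + 1) ≤ d.w * d.w :=
    mul_le_mul h.wj' h.wk (by positivity) (by linarith)
  have h3 : d.w ^ 3 ≤ d.z := h.pow_w (by norm_num)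
  have h4 : (d.j : ℝ) * (d.k + 1) + d.s + 6 ≤ d.z := by
    have h5 := h.ws
    have h6 : d.w * d.w * 1000 ≤ d.w * d.w * d.w :=
      mul_le_mul_of_nonneg_left hw (by positivity)
    have h7 : d.w * 1000 ≤ d.w * d.w := mul_le_mul_of_nonneg_left hw (by linarith)
    have h8 : d.w ^ 3 = d.w * d.w * d.w := by ring
    linarith
  have h5 : (d.z : ℝ) ^ d.k0 * (d.j * (d.k + 1) + d.s + 6) ≤ (d.z : ℝ) ^ d.k0 * d.z :=
    mul_le_mul_of_nonneg_left h4 (by linarith)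
  rw [hv, pow_succ]
  linarith

theorem Q_le (h : d.OK) : (d.p * (d.n + 1) : ℝ) ≤ (d.z : ℝ) ^ (d.B + 2) := by
  have hw := h.w0
  have h1 : (d.n : ℝ) ≤ (d.z : ℝ) ^ (d.B + 1) := by exact_mod_cast h.hn2
  have h2 : (1 : ℝ) ≤ (d.z : ℝ) ^ (d.B + 1) := one_le_pow₀ h.one_le_z
  have h3 : d.w ^ 2 ≤ d.z := h.pow_w (by norm_num)
  have h4 : (d.p : ℝ) * 2 ≤ d.z := by
    have h5 : d.w * 1000 ≤ d.w * d.w := mul_le_mul_of_nonneg_left hw (by linarith)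
    have h6 := h.wp
    have h7 : d.w ^ 2 = d.w * d.w := by ring
    linarith
  calc (d.p * (d.n + 1) : ℝ) ≤ d.p * (2 * (d.z : ℝ) ^ (d.B + 1)) :=
        mul_le_mul_of_nonneg_left (by linarith) (by positivity)
    _ = (d.p * 2) * (d.z : ℝ) ^ (d.B + 1) := by ring
    _ ≤ d.z * (d.z : ℝ) ^ (d.B + 1) := mul_le_mul_of_nonneg_right h4 (by linarith)
    _ = (d.z : ℝ) ^ (d.B + 2) := by ring

theorem L_le (h : d.OK) : (d.L : ℝ) + 1 ≤ (d.z : ℝ) ^ (d.B + 2) := by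
  have h1 : (d.L : ℝ) ≤ (d.z : ℝ) ^ (d.B + 1) := by exact_mod_cast h.hL
  have h2 : (1 : ℝ) ≤ (d.z : ℝ) ^ (d.B + 1) := one_le_pow₀ h.one_le_z
  have h3 : 2 * (d.z : ℝ) ^ (d.B + 1) ≤ d.z * (d.z : ℝ) ^ (d.B + 1) :=
    mul_le_mul_of_nonneg_right (le_trans (by norm_num) h.opard_z1000) (by linarith)
  have h4 : (d.z : ℝ) ^ (d.B + 2) = d.z * (d.z : ℝ) ^ (d.B + 1) := by ring
  linarith

theorem exp_le (h : d.OK) :
    Real.exp (-(d.z : ℝ)) ≤ 1 / (d.z : ℝ) ^ parX d.s d.E1 d.k0 d.j := by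
  rw [Real.exp_neg, ← one_div]
  refine one_div_le_one_div_of_le (pow_pos h.opard_z0 _) (h.hexp.trans ?_)
  refine Real.exp_le_exp.mpr ?_
  have h1 := h.hθ0
  have h2 : (1 - d.θ) / 2 * d.z ≤ 1 * (d.z : ℝ) :=
    mul_le_mul_of_nonneg_right (by linarith) h.opard_z0.le
  linarith

theorem μ_ge (h : d.OK) : (d.z : ℝ) ^ parA d.s d.E1 d.k0 ≤ d.μ := by
  have hz := h.opard_z0
  have hb : d.b = parA d.s d.E1 d.k0 + (1 + (6 + d.m * 2) + (d.m + 1)) +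
      (d.k0 + (d.m + 1) * (d.E + 1)) := by
    unfold Dat.b Dat.m Dat.E parb
    ring
  have hn : (d.n1 : ℝ) = (d.z : ℝ) ^ d.b := by
    unfold Dat.n1
    push_cast
    rfl
  have hK : ((8 * d.CH * d.M ^ 2 : ℕ) : ℝ) = 8 * (d.z : ℝ) ^ (6 + d.m * 2) := by
    unfold Dat.CH Dat.M
    push_cast
    rw [pow_add, pow_mul]
    ring
  have hden : 8 * ((8 * d.CH * d.M ^ 2 : ℕ) : ℝ) * ((4 * d.M : ℕ) : ℝ) ≤
      (d.z : ℝ) ^ (1 + (6 + d.m * 2) + (d.m + 1)) := by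
    rw [hK, pow_add _ (1 + (6 + d.m * 2)), pow_add _ 1, pow_one]
    refine mul_le_mul ?_ h.M4_le h.opard_M4_pos.le (by positivity)
    have h1 : 64 * (d.z : ℝ) ^ (6 + d.m * 2) ≤ d.z * (d.z : ℝ) ^ (6 + d.m * 2) :=
      mul_le_mul_of_nonneg_right (le_trans (by norm_num) h.opard_z1000) (by positivity)
    linarith
  have hpos : 0 < 8 * ((8 * d.CH * d.M ^ 2 : ℕ) : ℝ) * ((4 * d.M : ℕ) : ℝ) := by
    rw [hK]
    have := h.opard_M4_pos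
    positivity
  unfold Dat.μ
  rw [le_div_iff₀ hpos, hn]
  calc (d.z : ℝ) ^ parA d.s d.E1 d.k0 *
        (8 * ((8 * d.CH * d.M ^ 2 : ℕ) : ℝ) * ((4 * d.M : ℕ) : ℝ))
      ≤ (d.z : ℝ) ^ parA d.s d.E1 d.k0 * (d.z : ℝ) ^ (1 + (6 + d.m * 2) + (d.m + 1)) :=
        mul_le_mul_of_nonneg_left hden (by positivity)
    _ = (d.z : ℝ) ^ d.b * (1 / (d.z : ℝ) ^ (d.k0 + (d.m + 1) * (d.E + 1))) := by
        rw [hb, pow_add _ (parA d.s d.E1 d.k0 + (1 + (6 + d.m * 2) + (d.m + 1))),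
          pow_add _ (parA d.s d.E1 d.k0), mul_one_div, mul_div_assoc,
          div_self (pow_pos hz _).ne', mul_one]
    _ ≤ (d.z : ℝ) ^ d.b * d.pmin := mul_le_mul_of_nonneg_left h.pmin_ge (by positivity)

end OK

end Dat

end Pool.Agent.P.MP_85fe51_lc.OD
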