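import Pool.Agent.P.MP_85fe51_lc.OBias
import Pool.Agent.P.MP_85fe51_lc.OExp
import Pool.Agent.P.MP_85fe51_lc.OFin
import Pool.Agent.P.MP_85fe51_lc.OExt
import Pool.Agent.P.MP_85fe51_lc.ONum

set_option autoImplicit false

namespace Pool.Agent.P.MP_85fe51_lc.OD

open Finset
open scoped Classical

variable {p : ℕ} [Fact p.Prime] {X : Type} [Fintype X] [DecidableEq X] {T : Type} [Fintype T]
  {V0 N : Type} [AddCommGroup V0] [Fintype V0] [AddCommGroup N] [Fintype N]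

theorem ophase_size {A B m d d' δ D n1 Ylo : ℕ} (hB : 0 < B) (hm : 0 < m)
    (h : B * d' + m * δ ≤ A + B * d) (hd : d ≤ D) (xA : 4 * (A + B * D) ≤ m * Ylo)
    (xB : A ≤ B * n1) : 4 * δ ≤ Ylo ∧ d' ≤ d + n1 := by
  constructor
  · have h1 : B * d ≤ B * D := Nat.mul_le_mul_left _ hd
    have h2 : m * (4 * δ) ≤ m * Ylo := by
      have : m * (4 * δ) = 4 * (m * δ) := by ring
      omega
    exact Nat.le_of_mul_le_mul_left h2 hm
  · have h2 : B * d' ≤ B * (d + n1) := by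
      rw [Nat.mul_add]
      omega
    exact Nat.le_of_mul_le_mul_left h2 hB

theorem ophase_eps {k : ℕ} {ε : ℝ} (h0 : 0 < ε) (h : 8 * (p : ℝ) ^ 2 * (k + 1) * ε ≤ 1) :
    ε ≤ 1 / 12 := by
  have hp : (2 : ℝ) ≤ p := by exact_mod_cast (Fact.out : p.Prime).two_le
  have h1 : (4 : ℝ) ≤ (p : ℝ) ^ 2 := by nlinarith
  have h2 : (1 : ℝ) ≤ k + 1 := by linarith [Nat.cast_nonneg (α := ℝ) k]
  have h3 : 8 * 4 * 1 * ε ≤ 8 * (p : ℝ) ^ 2 * (k + 1) * ε := by gcongr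
  linarith

theorem ophase_norm {Ω G : Type} [AddCommGroup G] [Fintype G] (χ : AddChar G ℂ) (s : Finset Ω)
    (v : Ω → G) : ‖s.expect (fun x => χ (v x))‖ ≤ 1 := by
  refine (RCLike.norm_expect_le (K := ℂ)).trans ?_
  rcases s.eq_empty_or_nonempty with rfl | hs
  · simp
  · exact expect_le hs fun x _ => (AddChar.norm_apply χ (v x)).le

omit [Fintype X] [DecidableEq X] [Fintype N] in
theorem ophase_DS {V : Type} [AddCommGroup V] (q : N →+ V) {k j : ℕ} (P : Pat k j)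
    (lam : T → Vec p X) (phi : T → ZMod p → N) (x : Cp k j → Finset X) :
    q (DS P lam phi x) = DS P lam (fun t s => q (phi t s)) x := by
  unfold DS
  simp only [map_sum, map_zsmul]

/-- few terms are charged. -/
theorem ophase_charged {c c1 j E1 : ℕ} {θ γ : ℝ}
    (hθ : ThB p (Fintype.card N) c1 θ) (hγ : Gam p (Fintype.card N) γ) (hj1 : 1 ≤ j)
    (hE : 32 * j * ((p : ℝ) - 1) ^ E1 ≤ (p : ℝ) ^ E1)
    (ν : Num p (Fintype.card N) (Fintype.card X) (Fintype.card T) c c1 j E1 θ γ)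
    (σ : Ext p X T) (hCH : σ.CH = ν.CH) (hr : σ.r = ν.r) (hM4 : σ.M4 = 4 * ν.M)
    (hK1 : σ.K1 = 4 * ν.CH * ν.M ^ 2) (hK : σ.K = 8 * ν.CH * ν.M ^ 2)
    (phi : T → ZMod p → N) (f0 : Finset X → V0) (hf : DL ⊥ (fun _ => True) (c + 1) univ f0)
    (P : Pat ν.k j) (χ : AddChar (V0 × N) ℂ)
    (hb : ν.β ≤ Ew (fun _ : X => nu ν.k j ν.τ) (fun l =>
      ‖(Fintype.piFinset (fun a => Ker σ.U (atomSet σ.Y l a))).expect
        (fun x => χ (f0 (P.g.biUnion x), Sf σ.lam phi (P.g.biUnion x)))‖))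
    {V : Type} [AddCommGroup V] [Fintype V] (q : N →+ V) (ψ : AddChar V ℂ)
    (hV : ∀ v : V, Fintype.card N • v = 0) (hNV : NoP p V) (hq : ∀ n, ψ (q n) = χ (0, n))
    (hψ : ∀ v, ψ v = 1 → v = 0) (hphi : ∀ t, SZ (fun s => q (phi t s))) :
    (univ.filter (fun e => σ.Heavy e ∧
      ν.pmin ≤ σ.abar P (fun t s => q (phi t s)) ν.τ e)).card ≤ ν.n1 := by
  by_contra hcon
  have hCH1 : 1 ≤ ν.CH := by have := ν.hr; omega
  have hM1 := ν.hM
  have hKM : 0 < σ.K * σ.M4 := by rw [hK, hM4]; positivity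
  have hk1 : 1 ≤ ν.k := by have := ν.hk; omega
  obtain ⟨Seq, hsub, hS, hcard⟩ := σ.select (univ.filter (fun e => σ.Heavy e ∧
    ν.pmin ≤ σ.abar P (fun t s => q (phi t s)) ν.τ e)) (fun e he => (mem_filter.mp he).2.1) hKM
  have hn : (ν.n1 : ℝ) ≤ 8 * σ.K * σ.M4 * Seq.card := by
    exact_mod_cast (not_le.mp hcon).le.trans hcard
  have hμ : ν.μ ≤ Seq.card * ν.pmin := by
    have h1 := ν.hμ
    rw [← hK, ← hM4] at h1
    have h2 := mul_le_mul_of_nonneg_right hn ν.hpm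
    have h3 : (0 : ℝ) < 8 * σ.K * σ.M4 := by
      have : (0 : ℝ) < σ.K * σ.M4 := by exact_mod_cast hKM
      linarith
    refine le_of_mul_le_mul_left (h1.trans (h2.trans (le_of_eq ?_))) h3
    ring
  have hε := ophase_eps ν.hε0 ν.hεk
  obtain ⟨l, hl, hT⟩ := σ.exists_typ P (fun t s => q (phi t s)) hS hk1 hj1 hθ.1 hθ.2.1.le ν.hτ0
    (ν.hτ1.trans (by norm_num)) ν.hε0 (hε.trans (by norm_num)) ν.hC ν.hg1 ν.hβ0
    (fun e he => (mem_filter.mp (hsub he)).2.2) (by rw [hM4, hr]; exact ν.tc)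
    (by rw [hCH]; exact ν.z1) (by rw [hr]; exact ν.z2) (by rw [hCH]; exact ν.z3)
    (by rw [hCH]; exact ν.z4) ν.tbig ν.tg
    ((Real.exp_le_exp.mpr (by linarith)).trans ν.tμ) _ (fun l => ophase_norm χ _ _) hb
  have h1 := σ.bias_DS P l χ f0 hf ν.hk phi
  have h2 : (fun x => χ (0, DS P σ.lam phi x)) =
      fun x => ψ (DS P σ.lam (fun t s => q (phi t s)) x) := by
    funext x
    rw [← hq, ophase_DS]
  rw [h2] at h1
  have h3 := ν.bv.trans ((pow_le_pow_left₀ (by linarith [ν.hβ0]) hl _).trans h1)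
  have hE2 : 2 * ((p : ℝ) - 1) ^ E1 ≤ (p : ℝ) ^ E1 := by
    have hp : (1 : ℝ) ≤ p := by exact_mod_cast (Fact.out : p.Prime).one_le
    have hj : (1 : ℝ) ≤ j := by exact_mod_cast hj1
    exact (mul_le_mul_of_nonneg_right (by linarith) (pow_nonneg (by linarith) _)).trans hE
  exact σ.bias_contra P _ hphi hθ hγ hV hNV ψ hψ hS hT h3 ν.hε0.le ν.hεk ν.hC ν.bQ hE2 ν.hq0
    ν.hq1 ν.bq ν.ht1 ν.ht hμ (by rw [hM4]; exact ν.bδ) ν.bq2
    (by rw [hK, hK1, hM4]; exact ν.by1) ν.bk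

theorem phase {c c1 j E1 : ℕ} {θ γ : ℝ} (hN : Nat.Coprime (Fintype.card N) p)
    (hθ : ThB p (Fintype.card N) c1 θ) (hγ : Gam p (Fintype.card N) γ) (hj1 : 1 ≤ j)
    (hj : OlsJ c (Fintype.card (V0 × N)) j) (hE : 32 * j * ((p : ℝ) - 1) ^ E1 ≤ (p : ℝ) ^ E1)
    (ν : Num p (Fintype.card N) (Fintype.card X) (Fintype.card T) c c1 j E1 θ γ)
    (lam : T → Vec p X) (phi : T → ZMod p → N) (hphi : ∀ t, SZ (phi t)) (f0 : Finset X → V0)
    (hf : DL ⊥ (fun _ => True) (c + 1) univ f0)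
    (hno : ∀ A : Finset X, Sf lam phi A = Sf lam phi ∅ → f0 A = f0 ∅ → A = ∅)
    (Y : Finset X) (U : Sub p X) (N0 : AddSubgroup N) (hY : co Yᶜ ≤ U) (hYc : ν.Ylo ≤ Y.card)
    (hU : dO U Yᶜ ≤ 3 * Fintype.card N * ν.n1) (hS : DL N0 (KerP U) (c + 1) Y (Sf lam phi)) :
    ∃ (Y2 : Finset X) (U2 : Sub p X) (N2 : AddSubgroup N), N2 < N0 ∧ co Y2ᶜ ≤ U2 ∧
      Y.card ≤ ν.W * Y2.card ∧ dO U2 Y2ᶜ ≤ dO U Yᶜ + 3 * ν.n1 ∧
      DL N2 (KerP U2) (c + 1) Y2 (Sf lam phi) := by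
  obtain ⟨σ, hlam, hCH, hr, hM4, hK1, hK, hYs, hUs, hen⟩ := exists_ext lam Y U hY ν.hr ν.hM
  subst hlam
  have hCH1 : 1 ≤ ν.CH := by have := ν.hr; omega
  have hM1 := ν.hM
  have hk1 : 1 ≤ ν.k := by have := ν.hk; omega
  obtain ⟨hδ, hd⟩ := ophase_size (by positivity) (by positivity) hen hU ν.xA ν.xB
  have hcard := card_sdiff_add_card_eq_card hYs
  have hY3 : 3 * Y.card ≤ 4 * σ.Y.card := by omega
  have hS' : DL N0 (KerP σ.U) (c + 1) σ.Y (Sf σ.lam phi) :=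
    (hS.mono_set hYs).mono_pred fun A hA η hη => hA η (hUs hη)
  have hj0 : (0 : ℝ) < j := by exact_mod_cast hj1
  have hp1 : (1 : ℝ) ≤ p := by exact_mod_cast (Fact.out : p.Prime).one_le
  have hζ : ν.ζ ≤ 1 / (4 * j) * (1 - θ) * σ.CH := by
    have hk0 : (1 : ℝ) ≤ ν.k := by exact_mod_cast hk1
    have h1 : ν.τ / (4 * j * ν.k) ≤ 1 / (4 * j) :=
      div_le_div₀ zero_le_one (ν.hτ1.trans (by norm_num)) (by positivity)
        (le_mul_of_one_le_right (by positivity) hk0)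
    have h2 : 0 ≤ (1 - θ) * ν.CH := mul_nonneg (by linarith [hθ.2.1]) (Nat.cast_nonneg _)
    have h3 := mul_le_mul_of_nonneg_right h1 h2
    have h4 : 0 ≤ 1 / (4 * (j : ℝ)) * ((1 - θ) * ν.CH) := by positivity
    have h5 := ν.z1
    rw [hCH]
    linarith
  have hβ2 : 2 * (p : ℝ) ^ dO σ.U σ.Yᶜ / 2 ^ ν.n0 ≤
      2 * (p : ℝ) ^ ((3 * Fintype.card N + 1) * ν.n1) / 2 ^ ν.n0 := by
    have h1 : dO σ.U σ.Yᶜ ≤ (3 * Fintype.card N + 1) * ν.n1 := by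
      rw [Nat.add_mul, one_mul]
      omega
    have h2 := pow_le_pow_right₀ hp1 h1
    gcongr
  obtain ⟨P, χ, ⟨n, hn, hχ⟩, hb⟩ := σ.exists_bias (k := ν.k) f0 phi N0 hj hf hS' hθ.thC hk1 hj1
    ν.hτ0 (ν.hτ1.trans (by norm_num)) (n0 := ν.n0) (by
      have h1 := ν.e1
      have h2 : 64 * j * ν.n0 = 4 * (16 * j * ν.n0) := by ring
      omega) hζ ν.hβ0 ν.e2 (by linarith [ν.e3]) hno
  obtain ⟨V, _, _, q, ψ, hV, hq, hψ⟩ := faithful_quot (χ.compAddMonoidHom (AddMonoidHom.inr V0 N))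
  have hq' : ∀ n, ψ (q n) = χ (0, n) := fun n => hq n
  have hNV : NoP p V := noP_of_coprime hN hV
  have hphi' : ∀ t, SZ (fun s => q (phi t s)) := fun t => by
    unfold SZ
    rw [← map_sum, hphi t, map_zero]
  have hch := ophase_charged hθ hγ hj1 hE ν σ hCH hr hM4 hK1 hK phi f0 hf P χ hb q ψ hV hNV hq'
    hψ hphi'
  have hY2 : (ν.Ylo : ℝ) ≤ 2 * σ.Y.card := by
    exact_mod_cast (show ν.Ylo ≤ 2 * σ.Y.card by omega)
  have hξY := mul_le_mul_of_nonneg_left hY2 ν.hξ0.le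
  obtain ⟨Y2, U2, h1, h2, h3, h4, h5, h6⟩ := σ.finish P (fun t s => q (phi t s)) hphi' hNV hk1
    hj1 hθ.thC ν.hτ0 ν.hτ1 ν.hε0 (ophase_eps ν.hε0 ν.hεk) ν.hξ0 ν.hξ1 ν.hp0 (c := c) ν.hn1
    ν.hn'1 ν.fm (by rw [hr]; exact ν.fr) (by rw [hr]; exact ν.z5) ν.fbig (by linarith [ν.fY])
    (by
      rw [hCH]
      refine ν.fdel.trans ?_
      rw [div_le_div_iff₀ (by positivity) (by positivity)]
      have := mul_le_mul_of_nonneg_right hξY hj0.le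
      linarith) ν.fn hE (by rw [hM4, hr]; exact ν.fp) hch
  refine ⟨Y2, U2, N0 ⊓ q.ker, ?_, h3, ?_, by omega, ?_⟩
  · refine lt_of_le_of_ne inf_le_left fun h => hχ ?_
    have h7 : n ∈ N0 ⊓ q.ker := by rw [h]; exact hn
    rw [← hq', AddMonoidHom.mem_ker.mp h7.2, AddChar.map_zero_eq_one]
  · have a1 : (3 : ℝ) * Y.card ≤ 4 * σ.Y.card := by exact_mod_cast hY3
    rw [div_mul_eq_mul_div, div_le_iff₀ (by positivity)] at h4
    have a2 := mul_le_mul_of_nonneg_right ν.xW2 (Nat.cast_nonneg (α := ℝ) Y.card)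
    have a3 := mul_le_mul_of_nonneg_left a1
      (mul_nonneg (Nat.cast_nonneg (α := ℝ) ν.W) ν.hξ0.le)
    have a4 := mul_le_mul_of_nonneg_left h4 (Nat.cast_nonneg (α := ℝ) ν.W)
    have a5 : (512 * j : ℝ) * Y.card ≤ (512 * j : ℝ) * (ν.W * Y2.card) := by linarith
    exact_mod_cast le_of_mul_le_mul_left a5 (by positivity)
  · refine DL.inf ((hS'.mono_set h1).mono_pred fun A hA η hη => hA η (h2 hη)) (DL.ker q ?_)
    have e : (fun A => q (Sf σ.lam phi A)) = Sf σ.lam (fun t s => q (phi t s)) := by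
      funext A
      unfold Sf
      rw [map_sum]
    rw [e]
    exact h6

end Pool.Agent.P.MP_85fe51_lc.OD
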