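import Pool.Agent.P.MP_85fe51_lc.ODefs

set_option autoImplicit false

namespace Pool.Agent.P.MP_85fe51_lc.OD

open Finset
open scoped Classical

variable {p : ℕ} [Fact p.Prime] {X : Type} [Fintype X] [DecidableEq X]

theorem mem_supp {η : Vec p X} {i : X} : i ∈ supp η ↔ η i ≠ 0 := by
  simp [supp]

theorem mem_co {J : Finset X} {η : Vec p X} : η ∈ (co J : Sub p X) ↔ ∀ i, i ∉ J → η i = 0 := Iff.rfl

theorem mem_co_iff {J : Finset X} {η : Vec p X} : η ∈ (co J : Sub p X) ↔ supp η ⊆ J := by
  rw [mem_co]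
  constructor
  · intro h i hi
    by_contra hj
    exact mem_supp.1 hi (h i hj)
  · intro h i hi
    by_contra hne
    exact hi (h (mem_supp.2 hne))

theorem off_apply (J : Finset X) (η : Vec p X) (i : X) : off J η i = if i ∈ J then 0 else η i := rfl

theorem supp_off (J : Finset X) (η : Vec p X) : supp (off J η) = supp η \ J := by
  ext i
  rw [mem_sdiff, mem_supp, mem_supp, off_apply]
  by_cases h : i ∈ J <;> simp [h]

theorem sub_off_mem (J : Finset X) (η : Vec p X) : η - off J η ∈ (co J : Sub p X) := by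
  intro i hi
  rw [Pi.sub_apply, off_apply, if_neg hi, sub_self]

theorem co_mono {J J' : Finset X} (h : J ⊆ J') : (co J : Sub p X) ≤ co J' := by
  intro η hη i hi
  exact hη i (fun hj => hi (h hj))

theorem co_union (J J' : Finset X) : (co (J ∪ J') : Sub p X) = co J ⊔ co J' := by
  apply le_antisymm
  · intro η hη
    have e : η = (η - off J η) + off J η := by abel
    rw [e]
    refine Submodule.add_mem_sup (sub_off_mem J η) ?_
    intro i hi
    rw [off_apply]
    by_cases h : i ∈ J
    · rw [if_pos h]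
    · rw [if_neg h]
      exact hη i (by simp [h, hi])
  · exact sup_le (co_mono subset_union_left) (co_mono subset_union_right)

theorem finrank_co (J : Finset X) : Module.finrank (ZMod p) ↥(co J : Sub p X) = J.card := by
  let e : ↥(co J : Sub p X) ≃ₗ[ZMod p] (↥J → ZMod p) :=
    { toFun := fun η i => η.1 i.1
      map_add' := fun _ _ => rfl
      map_smul' := fun _ _ => rfl
      invFun := fun f => ⟨fun i => if h : i ∈ J then f ⟨i, h⟩ else 0, fun i hi => dif_neg hi⟩
      left_inv := by
        intro η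
        apply Subtype.ext
        funext i
        by_cases h : i ∈ J
        · exact dif_pos h
        · exact (dif_neg h).trans (η.2 i h).symm
      right_inv := by
        intro f
        funext i
        exact dif_pos i.2 }
  rw [e.finrank_eq, Module.finrank_fintype_fun_eq_card, Fintype.card_coe]

theorem orho_ker (J : Finset X) : LinearMap.ker (off J) = (co J : Sub p X) := by
  ext η
  rw [LinearMap.mem_ker, mem_co]
  constructor
  · intro h i hi
    have := congrFun h i
    rwa [off_apply, if_neg hi] at this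
  · intro h
    funext i
    rw [off_apply]
    by_cases hi : i ∈ J
    · rw [if_pos hi]; rfl
    · rw [if_neg hi, h i hi]; rfl

theorem orho_rank (H : Sub p X) (J : Finset X) :
    Module.finrank (ZMod p) ↥(H.map (off J)) + Module.finrank (ZMod p) ↥(H ⊓ co J) =
      Module.finrank (ZMod p) ↥H := by
  have h := LinearMap.finrank_range_add_finrank_ker ((off J).domRestrict H)
  rw [LinearMap.range_domRestrict, LinearMap.ker_domRestrict, orho_ker,
    ← Submodule.finrank_map_subtype_eq H, Submodule.map_comap_subtype] at h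
  exact h

theorem orho_off_off (J J' : Finset X) :
    (off (J ∪ J') : Vec p X →ₗ[ZMod p] Vec p X) = (off J').comp (off J) := by
  apply LinearMap.ext
  intro η
  funext i
  rw [LinearMap.comp_apply, off_apply, off_apply, off_apply]
  by_cases h : i ∈ J <;> by_cases h' : i ∈ J' <;> simp [h, h']

theorem orho_co_inter (J J' : Finset X) : (co (J ∩ J') : Sub p X) = co J ⊓ co J' :=
  le_antisymm (le_inf (co_mono inter_subset_left) (co_mono inter_subset_right)) (by
    intro η hη i hi
    by_cases h : i ∈ J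
    · exact hη.2 i (fun h' => hi (mem_inter.2 ⟨h, h'⟩))
    · exact hη.1 i h)

theorem map_off_sup_co (H : Sub p X) (J : Finset X) :
    (H ⊔ co J).map (off J) = H.map (off J) := by
  rw [Submodule.map_sup]
  have h : (co J : Sub p X).map (off J) = ⊥ := by
    rw [← orho_ker J]
    exact (Submodule.map_le_iff_le_comap.2 (le_of_eq (Submodule.comap_bot _).symm)).antisymm bot_le
  rw [h, sup_bot_eq]

theorem map_off_le (H : Sub p X) (J : Finset X) : H.map (off J) ≤ co Jᶜ := by
  rintro _ ⟨η, -, rfl⟩ i hi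
  rw [off_apply, if_pos (by simpa using hi)]

theorem off_mem_map_iff {H : Sub p X} {J : Finset X} {v : Vec p X} :
    off J v ∈ H.map (off J) ↔ v ∈ H ⊔ co J := by
  rw [← orho_ker J, ← Submodule.comap_map_eq]
  rfl

theorem dO_add_card (H : Sub p X) (J : Finset X) :
    dO H J + J.card = Module.finrank (ZMod p) ↥(H ⊔ co J) := by
  have h := orho_rank (H ⊔ co J) J
  rw [map_off_sup_co, inf_eq_right.2 le_sup_right, finrank_co] at h
  exact h

theorem dO_mono {H H' : Sub p X} (h : H ≤ H') (J : Finset X) : dO H J ≤ dO H' J := 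
  Submodule.finrank_mono (Submodule.map_mono h)

theorem dO_anti (H : Sub p X) {J J' : Finset X} (h : J ⊆ J') : dO H J' ≤ dO H J := by
  have e : J' = J ∪ J' := (union_eq_right.2 h).symm
  unfold dO
  rw [e, orho_off_off, Submodule.map_comp]
  exact Submodule.finrank_map_le _ _

theorem dO_le_card (H : Sub p X) (J : Finset X) : dO H J ≤ Fintype.card X := by
  have h := Submodule.finrank_le (H.map (off J))
  rw [Module.finrank_fintype_fun_eq_card] at h
  exact h

theorem dO_sup_co (H : Sub p X) {J J' : Finset X} (h : J' ⊆ J) : dO (H ⊔ co J') J = dO H J := by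
  unfold dO
  rw [← map_off_sup_co (H ⊔ co J') J, sup_assoc,
    (sup_eq_right.2 (co_mono h) : (co J' : Sub p X) ⊔ co J = co J), map_off_sup_co]

theorem dO_sup_span (H : Sub p X) (v : Vec p X) (J : Finset X) :
    dO (H ⊔ Submodule.span (ZMod p) {v}) J ≤ dO H J + 1 := by
  unfold dO
  rw [Submodule.map_sup, Submodule.map_span, Set.image_singleton]
  refine (Submodule.finrank_add_le_finrank_add_finrank _ _).trans ?_
  refine Nat.add_le_add_left ?_ _
  have h := finrank_span_le_card (R := ZMod p) ({off J v} : Set (Vec p X))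
  simpa using h

theorem dO_sup_span_of_mem {H : Sub p X} {v : Vec p X} {J : Finset X} (h : v ∈ H ⊔ co J) :
    dO (H ⊔ Submodule.span (ZMod p) {v}) J = dO H J := by
  unfold dO
  rw [Submodule.map_sup, Submodule.map_span, Set.image_singleton,
    sup_eq_left.2 ((Submodule.span_singleton_le_iff_mem _ _).2 (off_mem_map_iff.2 h))]

theorem dO_sup_span_of_not_mem {H : Sub p X} {v : Vec p X} {J : Finset X} (h : v ∉ H ⊔ co J) :
    dO (H ⊔ Submodule.span (ZMod p) {v}) J = dO H J + 1 := by
  refine le_antisymm (dO_sup_span H v J) ?_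
  have hlt : H.map (off J) < (H ⊔ Submodule.span (ZMod p) {v}).map (off J) := by
    refine lt_of_le_of_ne (Submodule.map_mono le_sup_left) ?_
    intro e
    apply h
    rw [← off_mem_map_iff, e]
    exact Submodule.mem_map_of_mem (Submodule.mem_sup_right (Submodule.mem_span_singleton_self v))
  exact Submodule.finrank_lt_finrank_of_lt hlt

theorem dO_union (H : Sub p X) (J J' : Finset X) :
    dO H (J ∪ J') + Module.finrank (ZMod p) ↥(H.map (off J) ⊓ co J') = dO H J := by
  unfold dO
  rw [orho_off_off, Submodule.map_comp]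
  exact orho_rank _ _

section
variable {T : Type}

theorem spn_empty (lam : T → Vec p X) : spn lam ∅ = ⊥ := by
  simp [spn]

theorem spn_insert (lam : T → Vec p X) (t : T) (F : Finset T) :
    spn lam (insert t F) = spn lam F ⊔ Submodule.span (ZMod p) {lam t} := by
  unfold spn
  rw [coe_insert, Set.image_insert_eq, Submodule.span_insert, sup_comm]

theorem spn_mono (lam : T → Vec p X) {F F' : Finset T} (h : F ⊆ F') : spn lam F ≤ spn lam F' := 
  Submodule.span_mono (Set.image_mono (coe_subset.2 h))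

theorem mem_spn (lam : T → Vec p X) {F : Finset T} {t : T} (h : t ∈ F) : lam t ∈ spn lam F := 
  Submodule.subset_span ⟨t, mem_coe.2 h, rfl⟩

theorem spn_le {lam : T → Vec p X} {F : Finset T} {H : Sub p X} (h : ∀ t ∈ F, lam t ∈ H) :
    spn lam F ≤ H := by
  refine Submodule.span_le.2 ?_
  rintro _ ⟨t, ht, rfl⟩
  exact h t (mem_coe.1 ht)

theorem dO_sup_spn (H : Sub p X) (lam : T → Vec p X) (F : Finset T) (J : Finset X) :
    dO (H ⊔ spn lam F) J ≤ dO H J + F.card := by
  induction F using Finset.induction_on with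
  | empty => rw [spn_empty, sup_bot_eq, card_empty, add_zero]
  | insert t F ht ih =>
    rw [spn_insert, ← sup_assoc, card_insert_of_notMem ht]
    have := dO_sup_span (H ⊔ spn lam F) (lam t) J
    omega

end

theorem fC_submod (C : ℕ) {H0 H1 H2 : Sub p X} (h1 : H0 ≤ H1) (h2 : H0 ≤ H2) (J1 J2 : Finset X) :
    fC C (H1 ⊔ H2) (J1 ∪ J2) + fC C H0 (J1 ∩ J2) ≤ fC C H1 J1 + fC C H2 J2 := by
  have a1 := dO_add_card H1 J1
  have a2 := dO_add_card H2 J2
  have a3 := dO_add_card (H1 ⊔ H2) (J1 ∪ J2)
  have a0 := dO_add_card H0 (J1 ∩ J2)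
  have hs := Submodule.finrank_sup_add_finrank_inf_eq (H1 ⊔ co J1) (H2 ⊔ co J2)
  have e : (H1 ⊔ co J1) ⊔ (H2 ⊔ co J2) = (H1 ⊔ H2) ⊔ co (J1 ∪ J2) := by
    rw [co_union, sup_sup_sup_comm]
  have hle : H0 ⊔ co (J1 ∩ J2) ≤ (H1 ⊔ co J1) ⊓ (H2 ⊔ co J2) :=
    le_inf (sup_le_sup h1 (co_mono inter_subset_left)) (sup_le_sup h2 (co_mono inter_subset_right))
  have hf := Submodule.finrank_mono hle
  have hc := card_union_add_card_inter J1 J2
  rw [e] at hs
  have hd : dO (H1 ⊔ H2) (J1 ∪ J2) + dO H0 (J1 ∩ J2) ≤ dO H1 J1 + dO H2 J2 := by omega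
  have hm := Nat.mul_le_mul_left C hd
  rw [mul_add, mul_add] at hm
  unfold fC
  omega

theorem rho_le (C : ℕ) (H : Sub p X) (J : Finset X) : rho C H ≤ fC C H J := 
  Nat.sInf_le ⟨J, rfl⟩

theorem exists_rho (C : ℕ) (H : Sub p X) : ∃ J, fC C H J = rho C H := 
  Nat.sInf_mem (s := {n | ∃ J, fC C H J = n}) ⟨fC C H ∅, ∅, rfl⟩

theorem orho_fC_mono (C : ℕ) {H H' : Sub p X} (h : H ≤ H') (J : Finset X) :
    fC C H J ≤ fC C H' J :=
  Nat.add_le_add_left (Nat.mul_le_mul_left C (dO_mono h J)) _

theorem rho_mono (C : ℕ) {H H' : Sub p X} (h : H ≤ H') : rho C H ≤ rho C H' := by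
  obtain ⟨J, hJ⟩ := exists_rho C H'
  rw [← hJ]
  exact (rho_le C H J).trans (orho_fC_mono C h J)

theorem rho_submod (C : ℕ) {H0 H1 H2 : Sub p X} (h1 : H0 ≤ H1) (h2 : H0 ≤ H2) :
    rho C (H1 ⊔ H2) + rho C H0 ≤ rho C H1 + rho C H2 := by
  obtain ⟨J1, e1⟩ := exists_rho C H1
  obtain ⟨J2, e2⟩ := exists_rho C H2
  have h := fC_submod C h1 h2 J1 J2
  have a := rho_le C (H1 ⊔ H2) (J1 ∪ J2)
  have b := rho_le C H0 (J1 ∩ J2)
  omega

theorem marg_add (C : ℕ) (H : Sub p X) (v : Vec p X) :
    rho C H + marg C H v = rho C (H ⊔ Submodule.span (ZMod p) {v}) := by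
  have h := rho_mono C (le_sup_left : H ≤ H ⊔ Submodule.span (ZMod p) {v})
  unfold marg
  omega

theorem marg_anti (C : ℕ) {H H' : Sub p X} (h : H ≤ H') (v : Vec p X) :
    marg C H' v ≤ marg C H v := by
  have a := marg_add C H v
  have b := marg_add C H' v
  have s := rho_submod C h (le_sup_left : H ≤ H ⊔ Submodule.span (ZMod p) {v})
  rw [← sup_assoc, sup_eq_left.2 h] at s
  omega

theorem marg_le (C : ℕ) (H : Sub p X) (v : Vec p X) : marg C H v ≤ C := by
  obtain ⟨J, e⟩ := exists_rho C H
  have a := marg_add C H v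
  have b := rho_le C (H ⊔ Submodule.span (ZMod p) {v}) J
  have c := Nat.mul_le_mul_left C (dO_sup_span H v J)
  rw [mul_add, mul_one] at c
  unfold fC at b e
  omega

theorem rho_spn_le {T : Type} (C : ℕ) (H : Sub p X) (lam : T → Vec p X) (E : Finset T) :
    rho C (H ⊔ spn lam E) ≤ rho C H + ∑ e ∈ E, marg C H (lam e) := by
  induction E using Finset.induction_on with
  | empty => rw [spn_empty, sup_bot_eq, sum_empty, add_zero]
  | insert t E ht ih =>
    rw [spn_insert, ← sup_assoc, sum_insert ht, ← marg_add]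
    have := marg_anti C (le_sup_left : H ≤ H ⊔ spn lam E) (lam t)
    omega

theorem rho_spn_ge {T : Type} (C : ℕ) (H : Sub p X) (lam : T → Vec p X) (E : Finset T)
    (h : ∀ e ∈ E, C ≤ marg C (H ⊔ spn lam (E.erase e)) (lam e)) :
    rho C H + C * E.card ≤ rho C (H ⊔ spn lam E) := by
  induction E using Finset.induction_on with
  | empty => rw [spn_empty, sup_bot_eq, card_empty, mul_zero, add_zero]
  | insert t E ht ih =>
    have h1 := h t (mem_insert_self t E)
    rw [erase_insert ht] at h1
    have h2 := ih (by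
      intro e he
      refine (h e (mem_insert_of_mem he)).trans (marg_anti C ?_ _)
      exact sup_le_sup_left (spn_mono lam (erase_subset_erase e (subset_insert t E))) H)
    rw [spn_insert, ← sup_assoc, card_insert_of_notMem ht, ← marg_add, mul_add, mul_one]
    omega

theorem min_union (C : ℕ) {H1 H2 : Sub p X} (h : H1 ≤ H2) {J1 J2 : Finset X}
    (h1 : fC C H1 J1 = rho C H1) (h2 : fC C H2 J2 = rho C H2) :
    fC C H2 (J1 ∪ J2) = rho C H2 := by
  have s := fC_submod C (le_refl H1) h J1 J2
  rw [sup_eq_right.2 h] at s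
  have a := rho_le C H2 (J1 ∪ J2)
  have b := rho_le C H1 (J1 ∩ J2)
  omega

theorem orho_mem_Jmax {C : ℕ} {H : Sub p X} {i : X} :
    i ∈ Jmax C H ↔ ∃ J, fC C H J = rho C H ∧ i ∈ J := by
  unfold Jmax
  rw [mem_filter]
  exact ⟨fun h => h.2, fun h => ⟨mem_univ i, h⟩⟩

theorem fC_Jmax (C : ℕ) (H : Sub p X) : fC C H (Jmax C H) = rho C H := by
  have key : ∀ S : Finset X, S ⊆ Jmax C H → ∃ J, fC C H J = rho C H ∧ S ⊆ J := by
    intro S
    induction S using Finset.induction_on with
    | empty =>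
      intro _
      obtain ⟨J, hJ⟩ := exists_rho C H
      exact ⟨J, hJ, empty_subset _⟩
    | insert i S _ ih =>
      intro hS
      obtain ⟨J, hJ, hSJ⟩ := ih ((subset_insert i S).trans hS)
      obtain ⟨J', hJ', hi⟩ := orho_mem_Jmax.1 (hS (mem_insert_self i S))
      refine ⟨J ∪ J', min_union C le_rfl hJ hJ', ?_⟩
      exact insert_subset (mem_union_right _ hi) (hSJ.trans subset_union_left)
  obtain ⟨J, hJ, hs⟩ := key _ subset_rfl
  have e : Jmax C H = J := subset_antisymm hs (fun i hi => orho_mem_Jmax.2 ⟨J, hJ, hi⟩)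
  rw [e, hJ]

theorem Jmax_mono (C : ℕ) {H H' : Sub p X} (h : H ≤ H') : Jmax C H ⊆ Jmax C H' := by
  intro i hi
  exact orho_mem_Jmax.2 ⟨_, min_union C h (fC_Jmax C H) (fC_Jmax C H'), mem_union_left _ hi⟩

theorem subset_Jmax {C : ℕ} (hC : 1 ≤ C) {H : Sub p X} {J0 : Finset X} (h : co J0 ≤ H) :
    J0 ⊆ Jmax C H := by
  intro i hi
  by_contra hn
  apply hn
  refine orho_mem_Jmax.2 ⟨Jmax C H ∪ {i}, ?_, mem_union_right _ (mem_singleton_self i)⟩
  have hu := dO_union H (Jmax C H) {i}
  have hle : (co {i} : Sub p X) ≤ H.map (off (Jmax C H)) ⊓ co {i} := by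
    refine le_inf ?_ le_rfl
    intro η hη
    refine ⟨η, h (co_mono (singleton_subset_iff.2 hi) hη), ?_⟩
    funext k
    rw [off_apply]
    by_cases hk : k ∈ Jmax C H
    · rw [if_pos hk]
      refine (hη k ?_).symm
      rw [mem_singleton]
      rintro rfl
      exact hn hk
    · rw [if_neg hk]
  have hf : Module.finrank (ZMod p) ↥(co {i} : Sub p X) ≤
      Module.finrank (ZMod p) ↥(H.map (off (Jmax C H)) ⊓ co {i}) := Submodule.finrank_mono hle
  rw [finrank_co, card_singleton] at hf
  have hc := card_union_le (Jmax C H) {i}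
  rw [card_singleton] at hc
  have a := rho_le C H (Jmax C H ∪ {i})
  have b := fC_Jmax C H
  have hd : dO H (Jmax C H ∪ {i}) + 1 ≤ dO H (Jmax C H) := by omega
  have hm := Nat.mul_le_mul_left C hd
  rw [mul_add, mul_one] at hm
  unfold fC at a b ⊢
  omega

end Pool.Agent.P.MP_85fe51_lc.OD
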