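import Pool.Agent.P.MP_85fe51_lc.ORho

set_option autoImplicit false

namespace Pool.Agent.P.MP_85fe51_lc.OD

open Finset
open scoped Classical

variable {p : ℕ} [Fact p.Prime] {X : Type} [Fintype X] [DecidableEq X]

theorem Safe.mono {C C' : ℕ} {H : Sub p X} (h : Safe C H) (hC : C' ≤ C) : Safe C' H := by
  intro J
  exact le_trans (Nat.mul_le_mul_right _ hC) (h J)

theorem Safe.sub {C : ℕ} {H H' : Sub p X} (h : Safe C H) (hH : H' ≤ H) : Safe C H' := by
  intro J
  exact le_trans (Nat.mul_le_mul_left _ (Submodule.finrank_mono (inf_le_inf_right _ hH))) (h J)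

theorem Safe.le_wt {C : ℕ} {H : Sub p X} (h : Safe C H) {η : Vec p X} (hη : η ∈ H) (h0 : η ≠ 0) :
    C ≤ wt η := by
  have h1 := h (supp η)
  have hm : η ∈ H ⊓ co (supp η) := ⟨hη, mem_co_iff.2 (Subset.refl _)⟩
  have h2 : 1 ≤ Module.finrank (ZMod p) ↥(H ⊓ co (supp η)) := by
    rw [Submodule.one_le_finrank_iff]
    intro hb
    rw [hb] at hm
    exact h0 ((Submodule.mem_bot _).1 hm)
  calc C = C * 1 := (Nat.mul_one C).symm
    _ ≤ C * Module.finrank (ZMod p) ↥(H ⊓ co (supp η)) := Nat.mul_le_mul_left _ h2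
    _ ≤ wt η := h1

theorem osafe_of_le {C : ℕ} {H : Sub p X} {J : Finset X}
    (h : ∀ J', J ⊆ J' → fC C H J ≤ fC C H J') : Safe C (H.map (off J)) := by
  intro J'
  have h1 := h (J ∪ J') subset_union_left
  have h2 := dO_union H J J'
  have h3 := card_union_le J J'
  unfold fC at h1
  rw [← h2, Nat.mul_add] at h1
  have h4 : C * Module.finrank (ZMod p) ↥(H.map (off J) ⊓ co J') ≤ J'.card := by omega
  exact h4

theorem safe_of_min {C : ℕ} {H : Sub p X} {J : Finset X} (h : fC C H J = rho C H) :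
    Safe C (H.map (off J)) := by
  exact osafe_of_le (fun J' _ => h ▸ rho_le C H J')

theorem safe_of_le {C : ℕ} {H : Sub p X} {J : Finset X}
    (h : ∀ J', J ⊆ J' → fC C H J ≤ fC C H J') : Safe C (H.map (off J)) := by
  exact osafe_of_le h

theorem osafe_card (J J' : Finset X) : (J ∪ J').card = J.card + (J' \ J).card := by
  rw [← card_union_of_disjoint disjoint_sdiff, union_sdiff_self_eq_union]

theorem osafe_drop {C : ℕ} {H : Sub p X} {J : Finset X} (h : Safe C (H.map (off J)))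
    (J' : Finset X) : ∃ f, dO H (J ∪ J') + f = dO H J ∧ C * f ≤ (J' \ J).card := by
  refine ⟨_, ?_, h (J' \ J)⟩
  have := dO_union H J (J' \ J)
  rwa [union_sdiff_self_eq_union] at this

theorem osafe_union_le {C : ℕ} (hC : 1 ≤ C) {H : Sub p X} {J : Finset X} (hJ : co J ≤ H)
    (J' : Finset X) : fC C H (J ∪ J') ≤ fC C H J' := by
  have h1 := dO_add_card H (J ∪ J')
  have h2 := dO_add_card H J'
  have h3 : H ⊔ co (J ∪ J') = H ⊔ co J' := by
    rw [co_union, ← sup_assoc, sup_eq_left.2 hJ]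
  rw [h3, ← h2] at h1
  have h4 : J'.card ≤ (J ∪ J').card := card_le_card subset_union_right
  obtain ⟨m, hm⟩ := Nat.exists_eq_add_of_le h4
  have h5 : dO H J' = dO H (J ∪ J') + m := by omega
  have h6 : m ≤ C * m := Nat.le_mul_of_pos_left m hC
  unfold fC
  rw [h5, Nat.mul_add]
  omega

theorem min_of_safe {C : ℕ} (hC : 1 ≤ C) {H : Sub p X} {J : Finset X} (hJ : co J ≤ H)
    (h : Safe C (H.map (off J))) : fC C H J = rho C H := by
  apply le_antisymm _ (rho_le C H J)
  obtain ⟨J', hJ'⟩ := exists_rho C H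
  rw [← hJ']
  refine le_trans ?_ (osafe_union_le hC hJ J')
  obtain ⟨f, h1, h2⟩ := osafe_drop h J'
  have h3 := osafe_card J J'
  unfold fC
  rw [← h1, Nat.mul_add]
  omega

theorem two_fC {C : ℕ} {H : Sub p X} {J : Finset X} (h : Safe (2 * C) (H.map (off J)))
    (J' : Finset X) : 2 * fC C H J + (J' \ J).card ≤ 2 * fC C H (J ∪ J') := by
  obtain ⟨f, h1, h2⟩ := osafe_drop h J'
  have h3 := osafe_card J J'
  unfold fC
  rw [← h1, Nat.mul_add C]
  rw [Nat.mul_assoc] at h2
  omega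

theorem card_Jmax {C : ℕ} (hC : 1 ≤ C) {U H : Sub p X} {J0 : Finset X} (hJ : co J0 ≤ U)
    (hs : Safe (2 * C) (U.map (off J0))) (hUH : U ≤ H) {y : ℕ} (hy : dO H J0 ≤ dO U J0 + y) :
    (Jmax C H \ J0).card ≤ 2 * C * y := by
  have h0 : J0 ⊆ Jmax C H := subset_Jmax hC (hJ.trans hUH)
  have h1 := two_fC hs (Jmax C H)
  rw [union_eq_right.2 h0] at h1
  have h2 := fC_Jmax C H
  have h3 := rho_le C H J0
  have h4 : C * dO U (Jmax C H) ≤ C * dO H (Jmax C H) := Nat.mul_le_mul_left _ (dO_mono hUH _)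
  have h5 : C * dO H J0 ≤ C * dO U J0 + C * y := by
    rw [← Nat.mul_add]
    exact Nat.mul_le_mul_left _ hy
  unfold fC at h1 h2 h3
  rw [Nat.mul_assoc]
  omega

theorem wt_add_le (a b : Vec p X) : wt (a + b) ≤ wt a + wt b := by
  refine le_trans (card_le_card ?_) (card_union_le (supp a) (supp b))
  intro i hi
  rw [mem_union, mem_supp, mem_supp]
  rw [mem_supp] at hi
  by_contra hc
  rw [not_or, not_not, not_not] at hc
  exact hi (by rw [Pi.add_apply, hc.1, hc.2, add_zero])

theorem osafe_supp_smul {u : ZMod p} (hu : u ≠ 0) (a : Vec p X) : supp (u • a) = supp a := by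
  ext i
  rw [mem_supp, mem_supp, Pi.smul_apply, smul_eq_mul, mul_ne_zero_iff]
  exact ⟨fun h => h.2, fun h => ⟨hu, h⟩⟩

theorem wt_smul {u : ZMod p} (hu : u ≠ 0) (a : Vec p X) : wt (u • a) = wt a := by
  unfold wt
  rw [osafe_supp_smul hu]

theorem supp_smul {u : ZMod p} (hu : u ≠ 0) (a : Vec p X) : supp (u • a) = supp a := by
  exact osafe_supp_smul hu a

theorem wt_neg (a : Vec p X) : wt (-a) = wt a := by
  rw [← neg_one_smul (ZMod p) a]
  exact wt_smul (neg_ne_zero.2 one_ne_zero) a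

theorem wt_sub_le (a b : Vec p X) : wt (a - b) ≤ wt a + wt b := by
  rw [sub_eq_add_neg, ← wt_neg b]
  exact wt_add_le a (-b)

theorem wtm_le {H : Sub p X} {v d : Vec p X} (h : v - d ∈ H) : wtm H v ≤ wt d := by
  refine Nat.sInf_le ⟨-(v - d), H.neg_mem h, ?_⟩
  congr 1
  abel

theorem osafe_rep (H : Sub p X) (v : Vec p X) : ∃ d, v - d ∈ H ∧ wt d = wtm H v := by
  have hne : ({n | ∃ η ∈ H, wt (v + η) = n} : Set ℕ).Nonempty := ⟨_, 0, H.zero_mem, rfl⟩
  obtain ⟨η, hη, hw⟩ := Nat.sInf_mem hne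
  refine ⟨v + η, ?_, hw⟩
  have : v - (v + η) = -η := by abel
  rw [this]
  exact H.neg_mem hη

theorem osafe_off {H : Sub p X} {J : Finset X} (hJ : co J ≤ H) {v d : Vec p X} (h : v - d ∈ H) :
    v - off J d ∈ H := by
  have : v - off J d = (v - d) + (d - off J d) := by abel
  rw [this]
  exact H.add_mem h (hJ (sub_off_mem J d))

theorem exists_rep {H : Sub p X} {J : Finset X} (hJ : co J ≤ H) (v : Vec p X) :
    ∃ d, v - d ∈ H ∧ Disjoint (supp d) J ∧ wt d = wtm H v := by
  obtain ⟨d, hd, hw⟩ := osafe_rep H v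
  have h1 : v - off J d ∈ H := osafe_off hJ hd
  refine ⟨off J d, h1, ?_, le_antisymm ?_ (wtm_le h1)⟩
  · rw [supp_off]
    exact sdiff_disjoint
  · rw [← hw]
    unfold wt
    rw [supp_off]
    exact card_le_card sdiff_subset

theorem wtm_anti {H H' : Sub p X} (h : H ≤ H') (v : Vec p X) : wtm H' v ≤ wtm H v := by
  obtain ⟨d, hd, hw⟩ := osafe_rep H v
  rw [← hw]
  exact wtm_le (h hd)

theorem osafe_smul_le (H : Sub p X) {u : ZMod p} (hu : u ≠ 0) (v : Vec p X) :
    wtm H (u • v) ≤ wtm H v := by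
  obtain ⟨d, hd, hw⟩ := osafe_rep H v
  rw [← hw, ← wt_smul hu d]
  apply wtm_le
  rw [← smul_sub]
  exact H.smul_mem u hd

theorem wtm_smul (H : Sub p X) {u : ZMod p} (hu : u ≠ 0) (v : Vec p X) :
    wtm H (u • v) = wtm H v := by
  apply le_antisymm (osafe_smul_le H hu v)
  have := osafe_smul_le H (inv_ne_zero hu) (u • v)
  rwa [smul_smul, inv_mul_cancel₀ hu, one_smul] at this

theorem wtm_add_le (H : Sub p X) (v v' : Vec p X) : wtm H (v + v') ≤ wtm H v + wtm H v' := by
  obtain ⟨d, hd, hw⟩ := osafe_rep H v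
  obtain ⟨d', hd', hw'⟩ := osafe_rep H v'
  rw [← hw, ← hw']
  refine le_trans (wtm_le ?_) (wt_add_le d d')
  have : v + v' - (d + d') = (v - d) + (v' - d') := by abel
  rw [this]
  exact H.add_mem hd hd'

theorem osafe_congr {H : Sub p X} {v v' : Vec p X} (h : v - v' ∈ H) : wtm H v ≤ wtm H v' := by
  obtain ⟨d, hd, hw⟩ := osafe_rep H v'
  rw [← hw]
  apply wtm_le
  have : v - d = (v - v') + (v' - d) := by abel
  rw [this]
  exact H.add_mem h hd

theorem wtm_congr {H : Sub p X} {v v' : Vec p X} (h : v - v' ∈ H) : wtm H v = wtm H v' := by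
  apply le_antisymm (osafe_congr h)
  apply osafe_congr
  rw [← neg_sub]
  exact H.neg_mem h

theorem wtm_eq_zero {H : Sub p X} {v : Vec p X} : wtm H v = 0 ↔ v ∈ H := by
  constructor
  · intro h
    obtain ⟨d, hd, hw⟩ := osafe_rep H v
    rw [h] at hw
    have h0 : d = 0 := by
      funext i
      by_contra hi
      have hm : i ∈ supp d := mem_supp.2 hi
      rw [card_eq_zero.1 hw] at hm
      exact notMem_empty i hm
    rwa [h0, sub_zero] at hd
  · intro h
    have h1 : wtm H v ≤ wt (0 : Vec p X) := wtm_le (by rwa [sub_zero])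
    have h2 : wt (0 : Vec p X) = 0 := by
      unfold wt
      rw [card_eq_zero, eq_empty_iff_forall_notMem]
      intro i hi
      exact mem_supp.1 hi rfl
    omega

theorem wtm_le_off {H : Sub p X} {J : Finset X} (hJ : co J ≤ H) (v : Vec p X) {η : Vec p X}
    (hη : η ∈ H.map (off J)) : wtm H v ≤ wt (off J v + η) := by
  obtain ⟨η0, h0, rfl⟩ := Submodule.mem_map.1 hη
  rw [← map_add]
  apply wtm_le
  apply osafe_off hJ
  have : v - (v + η0) = -η0 := by abel
  rw [this]
  exact H.neg_mem h0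

theorem wtm_drop {H : Sub p X} {J : Finset X} (hJ : co J ≤ H) {v d : Vec p X} (h : v - d ∈ H)
    (hd : ¬ Disjoint (supp d) J) : wtm H v < wt d := by
  refine lt_of_le_of_lt (wtm_le (osafe_off hJ h)) ?_
  unfold wt
  rw [supp_off]
  apply card_lt_card
  refine ⟨sdiff_subset, fun hc => hd ?_⟩
  rw [disjoint_left]
  intro i hi
  exact (mem_sdiff.1 (hc hi)).2

theorem osafe_wtm {H : Sub p X} {J J' : Finset X} (hJ : co J ≤ H) {v : Vec p X}
    (hv : v ∈ H ⊔ co (J ∪ J')) : wtm H v ≤ (J' \ J).card := by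
  obtain ⟨a, ha, c, hc, rfl⟩ := Submodule.mem_sup.1 hv
  have h1 : a + c - c ∈ H := by rwa [add_sub_cancel_right]
  refine le_trans (wtm_le (osafe_off hJ h1)) ?_
  unfold wt
  rw [supp_off]
  apply card_le_card
  intro i hi
  rw [mem_sdiff] at hi ⊢
  exact ⟨(mem_union.1 (mem_co_iff.1 hc hi.1)).resolve_left hi.2, hi.2⟩

theorem marg_eq_min {C : ℕ} (hC : 1 ≤ C) {H : Sub p X} {J : Finset X} (hJ : co J ≤ H)
    (hs : Safe (2 * C) (H.map (off J))) (v : Vec p X) : marg C H v = min C (wtm H v) := by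
  have hs1 : Safe C (H.map (off J)) := hs.mono (by omega)
  have hr := min_of_safe hC hJ hs1
  have ha := marg_add C H v
  apply le_antisymm
  · refine le_min (marg_le C H v) ?_
    obtain ⟨d, hd, -, hw⟩ := exists_rep hJ v
    have hv : v ∈ H ⊔ co (J ∪ supp d) := by
      have : v = (v - d) + d := by abel
      rw [this]
      exact Submodule.add_mem_sup hd (mem_co_iff.2 subset_union_right)
    have h1 := rho_le C (H ⊔ Submodule.span (ZMod p) {v}) (J ∪ supp d)
    have h2 := dO_sup_span_of_mem hv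
    have h3 : C * dO H (J ∪ supp d) ≤ C * dO H J :=
      Nat.mul_le_mul_left _ (dO_anti H subset_union_left)
    have h4 := card_union_le J (supp d)
    unfold fC at h1 hr
    unfold wt at hw
    rw [h2] at h1
    omega
  · obtain ⟨J1, hJ1⟩ := exists_rho C (H ⊔ Submodule.span (ZMod p) {v})
    have hm := min_union C (le_sup_left : H ≤ H ⊔ Submodule.span (ZMod p) {v}) hr hJ1
    by_cases hv : v ∈ H ⊔ co (J ∪ J1)
    · have h2 := dO_sup_span_of_mem hv
      have h3 := osafe_wtm hJ hv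
      obtain ⟨f, h4, h5⟩ := osafe_drop hs J1
      have h6 := osafe_card J J1
      unfold fC at hm hr
      rw [h2] at hm
      rw [← h4, Nat.mul_add] at hr
      rw [Nat.mul_assoc] at h5
      rcases Nat.eq_zero_or_pos f with h0 | h0
      · subst h0
        refine le_trans (min_le_right _ _) ?_
        omega
      · have h7 : C ≤ C * f := Nat.le_mul_of_pos_right C h0
        refine le_trans (min_le_left _ _) ?_
        omega
    · have h2 := dO_sup_span_of_not_mem hv
      have h3 := rho_le C H (J ∪ J1)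
      unfold fC at hm h3
      rw [h2, Nat.mul_add] at hm
      refine le_trans (min_le_left _ _) ?_
      omega

theorem marg_nbhd {C : ℕ} (hC : 1 ≤ C) {H : Sub p X} {J : Finset X} (hJ : co J ≤ H)
    (hs : Safe (2 * C) (H.map (off J))) (v v' : Vec p X)
    (h : ∀ i : ZMod p, 4 * C ≤ wtm H (v + i • v')) :
    marg C (H ⊔ Submodule.span (ZMod p) {v'}) v = C := by
  have hs1 : Safe C (H.map (off J)) := hs.mono (by omega)
  have hr := min_of_safe hC hJ hs1
  have ha := marg_add C (H ⊔ Submodule.span (ZMod p) {v'}) v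
  have ha' := marg_add C H v'
  have hl := marg_le C H v'
  apply le_antisymm (marg_le C _ v)
  obtain ⟨J1, hJ1⟩ := exists_rho C
    ((H ⊔ Submodule.span (ZMod p) {v'}) ⊔ Submodule.span (ZMod p) {v})
  have hle : H ≤ (H ⊔ Submodule.span (ZMod p) {v'}) ⊔ Submodule.span (ZMod p) {v} :=
    le_sup_left.trans le_sup_left
  have hm := min_union C hle hr hJ1
  by_cases hv : v ∈ (H ⊔ Submodule.span (ZMod p) {v'}) ⊔ co (J ∪ J1)
  · obtain ⟨a, ha1, c, hc, hac⟩ := Submodule.mem_sup.1 hv
    obtain ⟨b, hb, e, he, hbe⟩ := Submodule.mem_sup.1 ha1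
    obtain ⟨u, hu⟩ := Submodule.mem_span_singleton.1 he
    have hv' : v + (-u) • v' ∈ H ⊔ co (J ∪ J1) := by
      have : v + (-u) • v' = b + c := by
        rw [← hac, ← hbe, ← hu, neg_smul]
        abel
      rw [this]
      exact Submodule.add_mem_sup hb hc
    have h3 := osafe_wtm hJ hv'
    have h4 := h (-u)
    have h5 := two_fC hs J1
    have h6 := Nat.mul_le_mul_left C (dO_mono hle (J ∪ J1))
    unfold fC at hm hr h5
    omega
  · have h2 := dO_sup_span_of_not_mem hv
    have h3 := rho_le C (H ⊔ Submodule.span (ZMod p) {v'}) (J ∪ J1)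
    unfold fC at hm h3
    rw [h2, Nat.mul_add] at hm
    omega

theorem safe_sup_span {C : ℕ} {H : Sub p X} {J : Finset X} (hJ : co J ≤ H)
    (hs : Safe (2 * C) (H.map (off J))) {v : Vec p X} (h : 2 * C ≤ wtm H v) :
    Safe C ((H ⊔ Submodule.span (ZMod p) {v}).map (off J)) := by
  apply safe_of_le
  intro J' hJJ
  have h1 := Nat.mul_le_mul_left C (dO_sup_span H v J)
  have h2 := two_fC hs J'
  rw [union_eq_right.2 hJJ] at h2
  rw [Nat.mul_add] at h1
  by_cases hv : v ∈ H ⊔ co J'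
  · have h3 := dO_sup_span_of_mem hv
    have h4 : wtm H v ≤ (J' \ J).card := osafe_wtm hJ (by rwa [union_eq_right.2 hJJ])
    unfold fC at h2 ⊢
    rw [h3]
    omega
  · have h3 := dO_sup_span_of_not_mem hv
    unfold fC at h2 ⊢
    rw [h3, Nat.mul_add C]
    omega

theorem SafeOn.sub {a : Finset X} {C : ℕ} {H H' : Sub p X} (h : SafeOn a C H) (hH : H' ≤ H) :
    SafeOn a C H' := by
  intro N hN
  exact h N (hN.trans hH)

/-- restriction to `a` of a space that is safe on `a`. -/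
theorem SafeOn.restrict {a J : Finset X} {C : ℕ} (hC : 1 ≤ C) {H : Sub p X} (hJ : J ⊆ aᶜ)
    (h : SafeOn a C (H.map (off J))) : Safe C (H.map (off aᶜ)) ∧ dO H aᶜ = dO H J := by
  constructor
  · intro J'
    have h1 := h (H.map (off J) ⊓ (co J').comap (off aᶜ)) inf_le_left
    have h2 : H.map (off aᶜ) ⊓ co J' ≤
        (H.map (off J) ⊓ (co J').comap (off aᶜ)).map (off aᶜ) := by
      rintro η ⟨hη, hc⟩
      obtain ⟨g, hg, rfl⟩ := Submodule.mem_map.1 hη
      have he : off aᶜ (off J g) = off aᶜ g := by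
        funext i
        rw [off_apply, off_apply, off_apply]
        by_cases hi : i ∈ aᶜ
        · rw [if_pos hi, if_pos hi]
        · rw [if_neg hi, if_neg hi, if_neg (fun hj => hi (hJ hj))]
      refine Submodule.mem_map.2 ⟨off J g, ⟨Submodule.mem_map_of_mem hg, ?_⟩, he⟩
      show off aᶜ (off J g) ∈ (co J' : Sub p X)
      rw [he]
      exact hc
    have h3 := (Submodule.finrank_mono h2).trans (Submodule.finrank_map_le _ _)
    refine le_trans (Nat.mul_le_mul_left C h3) (h1.trans (card_le_card ?_))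
    intro i hi
    obtain ⟨hia, η, hη, hne⟩ := mem_filter.1 hi
    have h4 : off aᶜ η ∈ (co J' : Sub p X) := hη.2
    by_contra hc
    have h5 := mem_co.1 h4 i hc
    rw [off_apply, if_neg (fun hj => mem_compl.1 hj hia)] at h5
    exact hne h5
  · have h1 := h (H.map (off J) ⊓ co aᶜ) inf_le_left
    have h2 := dO_union H J aᶜ
    rw [union_eq_right.2 hJ] at h2
    have h3 : C * Module.finrank (ZMod p) ↥(H.map (off J) ⊓ co aᶜ) ≤ 0 := by
      refine h1.trans (le_of_eq ?_)
      rw [card_eq_zero, eq_empty_iff_forall_notMem]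
      intro i hi
      obtain ⟨hia, η, hη, hne⟩ := mem_filter.1 hi
      exact hne (mem_co.1 hη.2 i (fun hj => mem_compl.1 hj hia))
    have h4 := Nat.le_mul_of_pos_left
      (Module.finrank (ZMod p) ↥(H.map (off J) ⊓ co aᶜ)) hC
    omega

end Pool.Agent.P.MP_85fe51_lc.OD
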