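import Pool.Agent.P.MP_85fe51_lc.OFree
import Pool.Agent.P.MP_85fe51_lc.OFour
import Pool.Agent.P.MP_85fe51_lc.OVal

set_option autoImplicit false

namespace Pool.Agent.P.MP_85fe51_lc.OD

open Finset
open scoped Classical

variable {p : ℕ} [Fact p.Prime] {X : Type} [Fintype X] [DecidableEq X] {T : Type} [Fintype T]

theorem osurv_dom {Ω Ω' : Type} [DecidableEq Ω'] (s : Finset Ω) (S : Finset Ω') (Φ : Ω → Ω')
    (hΦ : ∀ x ∈ s, Φ x ∈ S) {c : ℝ}
    (hc : ∀ ω ∈ S, ((s.filter (fun x => Φ x = ω)).card : ℝ) * S.card ≤ c * s.card)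
    (hs : s.Nonempty) (G : Ω' → ℝ) (hG : ∀ ω ∈ S, 0 ≤ G ω) :
    s.expect (fun x => G (Φ x)) ≤ c * S.expect G := by
  have hS : S.Nonempty := by
    obtain ⟨x, hx⟩ := hs
    exact ⟨Φ x, hΦ x hx⟩
  have h1 : (0 : ℝ) < s.card := by exact_mod_cast hs.card_pos
  have h2 : (0 : ℝ) < S.card := by exact_mod_cast hS.card_pos
  rw [Finset.expect_eq_sum_div_card, Finset.expect_eq_sum_div_card,
    ← Finset.sum_fiberwise_of_maps_to hΦ, ← mul_div_assoc, div_le_div_iff₀ h1 h2,
    Finset.sum_mul, Finset.mul_sum, Finset.sum_mul]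
  refine Finset.sum_le_sum (fun ω hω => ?_)
  have h3 : ∑ x ∈ s.filter (fun x => Φ x = ω), G (Φ x) =
      ((s.filter (fun x => Φ x = ω)).card : ℝ) * G ω := by
    rw [Finset.sum_congr rfl (g := fun _ => G ω)
      (fun x hx => by rw [(Finset.mem_filter.1 hx).2]), Finset.sum_const, nsmul_eq_mul]
  rw [h3]
  have h4 := mul_le_mul_of_nonneg_right (hc ω hω) (hG ω hω)
  nlinarith [h4]

theorem osurv_coll {Ω : Type} (s : Finset Ω) (hs : s.Nonempty) (f : Ω → ZMod p) :
    s.expect (fun x => s.expect (fun y => if f x ≠ f y then (1 : ℝ) else 0)) ≤ 1 - 1 / (p : ℝ) := by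
  have hp : (0 : ℝ) < p := by exact_mod_cast (Fact.out : p.Prime).pos
  have h1 : (0 : ℝ) < s.card := by exact_mod_cast hs.card_pos
  set n : ZMod p → ℝ := fun c => ((s.filter (fun y => f y = c)).card : ℝ) with hn
  have hsum : ∑ c, n c = s.card := by
    have := Finset.card_eq_sum_card_fiberwise (s := s) (t := (univ : Finset (ZMod p))) (f := f)
      (fun x _ => Finset.mem_coe.2 (Finset.mem_univ _))
    rw [this]
    push_cast
    rfl
  have hin : ∀ x, s.expect (fun y => if f x ≠ f y then (1 : ℝ) else 0) = 1 - n (f x) / s.card := by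
    intro x
    rw [Finset.expect_eq_sum_div_card, eq_sub_iff_add_eq, ← add_div, div_eq_one_iff_eq h1.ne']
    have h2 : n (f x) = ∑ y ∈ s, if f y = f x then (1 : ℝ) else 0 := by
      rw [Finset.sum_boole]
    rw [h2, ← Finset.sum_add_distrib]
    rw [Finset.sum_congr rfl (g := fun _ => (1 : ℝ)) (fun y _ => by
      by_cases h : f y = f x
      · simp [h]
      · have h' : f x ≠ f y := fun e => h e.symm
        simp [h, h'])]
    simp
  have hsq : ∑ x ∈ s, n (f x) = ∑ c, n c ^ 2 := by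
    rw [← Finset.sum_fiberwise_of_maps_to (s := s) (t := (univ : Finset (ZMod p))) (g := f)
      (fun x _ => Finset.mem_univ _)]
    refine Finset.sum_congr rfl (fun c _ => ?_)
    rw [Finset.sum_congr rfl (g := fun _ => n c)
      (fun x hx => by rw [(Finset.mem_filter.1 hx).2]), Finset.sum_const, nsmul_eq_mul, sq]
  have hcs := sq_sum_le_card_mul_sum_sq (s := (univ : Finset (ZMod p))) (f := n)
  rw [hsum, Finset.card_univ, ZMod.card, ← hsq] at hcs
  simp only [hin]
  rw [Finset.expect_eq_sum_div_card, Finset.sum_sub_distrib, Finset.sum_const, nsmul_eq_mul,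
    mul_one, sub_div, div_self h1.ne', ← Finset.sum_div, div_div]
  have h3 : 1 / (p : ℝ) ≤ (∑ x ∈ s, n (f x)) / ((s.card : ℝ) * s.card) := by
    rw [div_le_div_iff₀ hp (mul_pos h1 h1)]
    nlinarith [hcs]
  linarith

theorem osurv_unif {ι : Type} [Fintype ι] [DecidableEq ι] (s : ι → ZMod p) :
    (univ : Finset (ι → ZMod p)).expect
      (fun s' => if ∀ t, s t ≠ s' t then (1 : ℝ) else 0) = (1 - 1 / (p : ℝ)) ^ Fintype.card ι := by
  have hp : (0 : ℝ) < p := by exact_mod_cast (Fact.out : p.Prime).pos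
  have hp1 : 1 ≤ p := (Fact.out : p.Prime).pos
  rw [Finset.expect_eq_sum_div_card, Finset.sum_boole]
  have h1 : (univ : Finset (ι → ZMod p)).filter (fun s' => ∀ t, s t ≠ s' t) =
      Fintype.piFinset (fun t => (univ : Finset (ZMod p)).erase (s t)) := by
    ext s'
    simp only [Finset.mem_filter, Finset.mem_univ, true_and, Fintype.mem_piFinset,
      Finset.mem_erase, and_true]
    exact forall_congr' (fun t => ne_comm)
  rw [h1, Fintype.card_piFinset]
  simp only [Finset.card_erase_of_mem (Finset.mem_univ _), Finset.card_univ, ZMod.card,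
    Finset.prod_const, Fintype.card_fun]
  push_cast [hp1]
  rw [← div_pow]
  congr 1
  field_simp

omit [Fintype T] in
theorem osurv_light (b : Finset X) (I : Finset T) (d : T → Vec p X)
    (hd : ∀ t ∈ I, ∀ t' ∈ I, t ≠ t' → Disjoint (supp (d t)) (supp (d t'))) :
    b.powerset.expect (fun Z => b.powerset.expect
      (fun Z' => ∏ t ∈ I, if dot (d t) Z ≠ dot (d t) Z' then (1 : ℝ) else 0)) ≤
      (1 - 1 / (p : ℝ)) ^ I.card := by
  have hi : ∀ t (A : Finset X), dot (d t) (A ∩ supp (d t)) = dot (d t) A :=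
    fun t A => dot_inter Finset.inter_subset_left
  have h1 : ∀ Z : Finset X, b.powerset.expect
      (fun Z' => ∏ t ∈ I, if dot (d t) Z ≠ dot (d t) Z' then (1 : ℝ) else 0) =
      ∏ t ∈ I, b.powerset.expect
        (fun Z' => if dot (d t) Z ≠ dot (d t) Z' then (1 : ℝ) else 0) := fun Z =>
    expect_powerset_prod b I (fun t => supp (d t)) hd
      (fun t Z' => if dot (d t) Z ≠ dot (d t) Z' then (1 : ℝ) else 0)
      (fun t _ A _ => by simp only [hi])
  simp only [h1]
  rw [expect_powerset_prod b I (fun t => supp (d t)) hd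
    (fun t Z => b.powerset.expect (fun Z' => if dot (d t) Z ≠ dot (d t) Z' then (1 : ℝ) else 0))
    (fun t _ A _ => by simp only [hi]), ← Finset.prod_const]
  refine Finset.prod_le_prod (fun t _ => ?_)
    (fun t _ => osurv_coll b.powerset (Finset.powerset_nonempty b) (fun Z => dot (d t) Z))
  exact Finset.expect_nonneg (fun Z _ => Finset.expect_nonneg (fun Z' _ => by
    split_ifs <;> norm_num))

theorem osurv_dot_co {J A B : Finset X} (h : A ∩ J = B ∩ J) {η : Vec p X}
    (hη : η ∈ (co J : Sub p X)) : dot η A = dot η B := by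
  have hs : supp η ⊆ J := mem_co_iff.1 hη
  rw [← dot_inter (Q := J) (A := A) (Finset.inter_subset_left.trans hs),
    ← dot_inter (Q := J) (A := B) (Finset.inter_subset_left.trans hs), h]

namespace Ext
variable (σ : Ext p X T)

theorem osurv_light_dot {A : Finset X} (hA : KerP σ.U A) (t : T) :
    dot (σ.lam t) A = dot (σ.dl t) A := by
  have h := hA _ (σ.repl t).1
  rw [dot_sub] at h
  exact sub_eq_zero.1 h

theorem osurv_dl_co {F : Finset T} {t : T} (ht : t ∈ F) (hl : σ.Lt t) :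
    σ.dl t ∈ (co (σ.JF F) : Sub p X) := by
  refine mem_co_iff.2 (fun i hi => ?_)
  exact Finset.mem_union_right _
    (Finset.mem_biUnion.2 ⟨t, Finset.mem_filter.2 ⟨ht, hl⟩, hi⟩)

theorem osurv_mem_fib {a A B : Finset X} {F : Finset T} (hA : A ∈ Ker σ.U a) (hB : B ∈ Ker σ.U a)
    (hJ : A ∩ σ.JF F = B ∩ σ.JF F)
    (hN : ∀ t ∈ F, ¬ σ.Lt t → dot (σ.lam t) A = dot (σ.lam t) B) :
    A ∈ fib ((σ.U ⊔ spn σ.lam F) ⊔ co (σ.JF F)) a B := by
  obtain ⟨hAa, hA⟩ := mem_Ker.1 hA
  obtain ⟨-, hB⟩ := mem_Ker.1 hB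
  refine mem_fib.2 ⟨hAa, ?_⟩
  let E : Sub p X :=
    { carrier := {η | dot η A = dot η B}
      add_mem' := by
        intro x y hx hy
        show dot (x + y) A = dot (x + y) B
        rw [dot_add, dot_add, hx, hy]
      zero_mem' := by
        show dot (0 : Vec p X) A = dot (0 : Vec p X) B
        rw [dot_zero, dot_zero]
      smul_mem' := by
        intro c x hx
        show dot (c • x) A = dot (c • x) B
        rw [dot_smul, dot_smul, hx] }
  have hle : (σ.U ⊔ spn σ.lam F) ⊔ co (σ.JF F) ≤ E := by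
    refine sup_le (sup_le (fun η hη => ?_) (spn_le (fun t ht => ?_))) (fun η hη => ?_)
    · show dot η A = dot η B
      rw [hA η hη, hB η hη]
    · show dot (σ.lam t) A = dot (σ.lam t) B
      by_cases hl : σ.Lt t
      · rw [σ.osurv_light_dot hA, σ.osurv_light_dot hB]
        exact osurv_dot_co hJ (σ.osurv_dl_co ht hl)
      · exact hN t ht hl
    · exact osurv_dot_co hJ hη
  exact fun η hη => hle hη

theorem osurv_card_fib {θ : ℝ} (hθ : ThC p θ) {a B : Finset X} (hB : B ⊆ a) {F : Finset T}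
    (hF : σ.Free F) :
    (p : ℝ) ^ (dO σ.U σ.Yᶜ + (F.filter (fun t => ¬ σ.Lt t)).card) *
      (fib ((σ.U ⊔ spn σ.lam F) ⊔ co (σ.JF F)) a B).card ≤
      enum θ (σ.HF F) a * 2 ^ (a \ σ.JF F).card := by
  rw [card_fib_off le_sup_right hB, map_off_sup_co, ← (σ.free_struct hF).2.2]
  have h := card_fib_le hθ ((σ.U ⊔ spn σ.lam F).map (off (σ.JF F))) (a \ σ.JF F) (B \ σ.JF F)
  rw [enum_sdiff] at h
  exact h

end Ext

end Pool.Agent.P.MP_85fe51_lc.OD
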