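import Pool.Agent.P.MP_85fe51_lc.OFree
import Pool.Agent.P.MP_85fe51_lc.OFour
import Pool.Agent.P.MP_85fe51_lc.OVal
import Pool.Agent.P.MP_85fe51_lc.OSurv0

set_option autoImplicit false

namespace Pool.Agent.P.MP_85fe51_lc.OD

open Finset
open scoped Classical

variable {p : ℕ} [Fact p.Prime] {X : Type} [Fintype X] [DecidableEq X] {T : Type} [Fintype T]
  {k j : ℕ}

namespace Ext
variable (σ : Ext p X T)

/-- two independent kernel sets differ on all members of a free family. -/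
theorem differ_le {θ ε : ℝ} (hθ : ThC p θ) (hε : ε ≤ 1 / 2) {a : Finset X} (ha : a ⊆ σ.Y)
    (h1 : enum θ σ.U' a ≤ 1 + ε) {F : Finset T} (hF : σ.Free F) :
    (Ker σ.U a).expect (fun A => pr (Ker σ.U a)
      (fun A' => ∀ t ∈ F, dot (σ.lam t) A ≠ dot (σ.lam t) A')) ≤
      (enum θ (σ.HF F) a / (1 - ε)) ^ 2 * (1 - 1 / (p : ℝ)) ^ F.card := by
  have hp : (0 : ℝ) < p := by exact_mod_cast (Fact.out : p.Prime).pos
  have hp1 : (0 : ℝ) ≤ 1 - 1 / (p : ℝ) := by
    have : (1 : ℝ) ≤ p := by exact_mod_cast (Fact.out : p.Prime).pos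
    rw [sub_nonneg, div_le_one hp]
    exact this
  have hε1 : (0 : ℝ) < 1 - ε := by linarith
  set N : Finset T := F.filter (fun t => ¬ σ.Lt t) with hN
  set I : Finset T := F.filter σ.Lt with hI
  set J : Finset X := σ.JF F with hJ
  set c : ℝ := enum θ (σ.HF F) a / (1 - ε) with hc
  have hc0 : 0 ≤ c := div_nonneg (le_trans zero_le_one (one_le_enum hθ.1 _ _)) hε1.le
  set S : Finset (Finset X × (↥N → ZMod p)) := (a ∩ J).powerset ×ˢ univ with hS
  set Φ : Finset X → Finset X × (↥N → ZMod p) :=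
    fun A => (A ∩ J, fun t => dot (σ.lam t.1) A) with hΦ
  have hK : (Ker σ.U a).Nonempty := ⟨∅, empty_mem_Ker _ _⟩
  have hmap : ∀ A ∈ Ker σ.U a, Φ A ∈ S := by
    intro A hA
    refine Finset.mem_product.2 ⟨Finset.mem_powerset.2 ?_, Finset.mem_univ _⟩
    exact Finset.inter_subset_inter_right (mem_Ker.1 hA).1
  have hScard : (S.card : ℝ) = 2 ^ (a ∩ J).card * (p : ℝ) ^ N.card := by
    rw [hS, Finset.card_product, Finset.card_powerset, Finset.card_univ, Fintype.card_fun,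
      ZMod.card, Fintype.card_coe]
    push_cast
    rfl
  have hKer : (1 - ε) * 2 ^ a.card ≤ (p : ℝ) ^ dO σ.U σ.Yᶜ * (Ker σ.U a).card := by
    refine le_trans (mul_le_mul_of_nonneg_right ?_ (by positivity)) (card_Ker_ge hθ σ.hY ha)
    have : enum θ (σ.U.map (off σ.Yᶜ)) a ≤ 1 + ε := h1
    linarith
  have hfib : ∀ ω ∈ S, (((Ker σ.U a).filter (fun x => Φ x = ω)).card : ℝ) * S.card ≤
      c * (Ker σ.U a).card := by
    intro ω _
    rcases ((Ker σ.U a).filter (fun x => Φ x = ω)).eq_empty_or_nonempty with h0 | ⟨B, hB⟩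
    · rw [h0]
      simp only [Finset.card_empty, Nat.cast_zero, zero_mul]
      positivity
    · obtain ⟨hBK, hBω⟩ := Finset.mem_filter.1 hB
      have hsub : (Ker σ.U a).filter (fun x => Φ x = ω) ⊆
          fib ((σ.U ⊔ spn σ.lam F) ⊔ co (σ.JF F)) a B := by
        intro A hA
        obtain ⟨hAK, hAω⟩ := Finset.mem_filter.1 hA
        have he : Φ A = Φ B := hAω.trans hBω.symm
        refine σ.osurv_mem_fib hAK hBK (congrArg Prod.fst he) (fun t ht hl => ?_)
        exact congrFun (congrArg Prod.snd he) ⟨t, Finset.mem_filter.2 ⟨ht, hl⟩⟩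
      have h2 : (((Ker σ.U a).filter (fun x => Φ x = ω)).card : ℝ) ≤
          (fib ((σ.U ⊔ spn σ.lam F) ⊔ co (σ.JF F)) a B).card := by
        exact_mod_cast Finset.card_le_card hsub
      have h3 := σ.osurv_card_fib hθ (mem_Ker.1 hBK).1 hF
      rw [← hN, ← hJ, pow_add] at h3
      rw [← hJ] at h2
      have h4 : (2 : ℝ) ^ a.card = 2 ^ (a \ J).card * 2 ^ (a ∩ J).card := by
        rw [← pow_add, Finset.card_sdiff_add_card_inter]
      have hD : (0 : ℝ) < (p : ℝ) ^ dO σ.U σ.Yᶜ := by positivity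
      have hce : enum θ (σ.HF F) a = c * (1 - ε) := by
        rw [hc, div_mul_cancel₀ _ hε1.ne']
      refine le_of_mul_le_mul_left ?_ hD
      rw [hScard]
      calc (p : ℝ) ^ dO σ.U σ.Yᶜ * ((((Ker σ.U a).filter (fun x => Φ x = ω)).card : ℝ) *
            (2 ^ (a ∩ J).card * (p : ℝ) ^ N.card))
          ≤ (p : ℝ) ^ dO σ.U σ.Yᶜ * (((fib ((σ.U ⊔ spn σ.lam F) ⊔ co J) a B).card : ℝ) *
            (2 ^ (a ∩ J).card * (p : ℝ) ^ N.card)) := by gcongr
        _ = ((p : ℝ) ^ dO σ.U σ.Yᶜ * (p : ℝ) ^ N.card *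
            ((fib ((σ.U ⊔ spn σ.lam F) ⊔ co J) a B).card : ℝ)) * 2 ^ (a ∩ J).card := by ring
        _ ≤ (enum θ (σ.HF F) a * 2 ^ (a \ J).card) * 2 ^ (a ∩ J).card := by gcongr
        _ = c * ((1 - ε) * 2 ^ a.card) := by rw [hce, h4]; ring
        _ ≤ c * ((p : ℝ) ^ dO σ.U σ.Yᶜ * (Ker σ.U a).card) := by gcongr
        _ = _ := by ring
  set G : Finset X × (↥N → ZMod p) → Finset X × (↥N → ZMod p) → ℝ := fun ω ω' =>
    (∏ t ∈ I, if dot (σ.dl t) ω.1 ≠ dot (σ.dl t) ω'.1 then (1 : ℝ) else 0) *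
      (if ∀ t, ω.2 t ≠ ω'.2 t then (1 : ℝ) else 0) with hG
  have hG0 : ∀ ω ω', 0 ≤ G ω ω' := by
    intro ω ω'
    refine mul_nonneg (Finset.prod_nonneg (fun t _ => ?_)) ?_ <;> split_ifs <;> norm_num
  have hstep : ∀ A ∈ Ker σ.U a, pr (Ker σ.U a)
      (fun A' => ∀ t ∈ F, dot (σ.lam t) A ≠ dot (σ.lam t) A') ≤ c * S.expect (G (Φ A)) := by
    intro A hA
    refine le_trans ?_ (osurv_dom (Ker σ.U a) S Φ hmap hfib hK (G (Φ A)) (fun ω _ => hG0 _ _))
    refine Finset.expect_le_expect (fun A' hA' => ?_)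
    split_ifs with h
    · have hl : ∀ t ∈ I, ∀ B ∈ Ker σ.U a, dot (σ.dl t) (B ∩ J) = dot (σ.lam t) B := by
        intro t ht B hB
        obtain ⟨htF, htl⟩ := Finset.mem_filter.1 ht
        rw [σ.osurv_light_dot (mem_Ker.1 hB).2]
        exact dot_inter (Finset.inter_subset_left.trans (mem_co_iff.1 (σ.osurv_dl_co htF htl)))
      have e1 : (∏ t ∈ I, if dot (σ.dl t) (A ∩ J) ≠ dot (σ.dl t) (A' ∩ J) then (1 : ℝ) else 0)
          = 1 := by
        refine Finset.prod_eq_one (fun t ht => if_pos ?_)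
        rw [hl t ht A hA, hl t ht A' hA']
        exact h t (Finset.mem_filter.1 ht).1
      have e2 : ∀ t : ↥N, dot (σ.lam t.1) A ≠ dot (σ.lam t.1) A' :=
        fun t => h t.1 (Finset.mem_filter.1 t.2).1
      show (1 : ℝ) ≤ (∏ t ∈ I, if dot (σ.dl t) (A ∩ J) ≠ dot (σ.dl t) (A' ∩ J) then (1 : ℝ) else 0) *
        (if ∀ t : ↥N, dot (σ.lam t.1) A ≠ dot (σ.lam t.1) A' then (1 : ℝ) else 0)
      rw [e1, if_pos e2, one_mul]
    · exact hG0 _ _
  have hin : ∀ ω : Finset X × (↥N → ZMod p), S.expect (G ω) =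
      (a ∩ J).powerset.expect (fun Z' =>
        ∏ t ∈ I, if dot (σ.dl t) ω.1 ≠ dot (σ.dl t) Z' then (1 : ℝ) else 0) *
        (1 - 1 / (p : ℝ)) ^ N.card := by
    intro ω
    rw [hS, Finset.expect_product, Finset.expect_mul]
    refine Finset.expect_congr rfl (fun Z' _ => ?_)
    have h5 := osurv_unif (p := p) ω.2
    rw [Fintype.card_coe] at h5
    rw [← h5, Finset.mul_expect]
  have hout : S.expect (fun ω => S.expect (G ω)) ≤ (1 - 1 / (p : ℝ)) ^ F.card := by
    simp only [hin]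
    rw [← Finset.expect_mul, hS, Finset.expect_product]
    have h6 : ∀ Z : Finset X, (univ : Finset (↥N → ZMod p)).expect (fun _ =>
        (a ∩ J).powerset.expect (fun Z' =>
          ∏ t ∈ I, if dot (σ.dl t) Z ≠ dot (σ.dl t) Z' then (1 : ℝ) else 0)) =
        (a ∩ J).powerset.expect (fun Z' =>
          ∏ t ∈ I, if dot (σ.dl t) Z ≠ dot (σ.dl t) Z' then (1 : ℝ) else 0) :=
      fun Z => Finset.expect_const Finset.univ_nonempty _
    simp only [h6]
    have h7 := osurv_light (a ∩ J) I σ.dl (fun t ht t' ht' hne =>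
      (σ.free_struct hF).1 t (Finset.mem_filter.1 ht).1 t' (Finset.mem_filter.1 ht').1
        (Finset.mem_filter.1 ht).2 (Finset.mem_filter.1 ht').2 hne)
    rw [← Finset.card_filter_add_card_filter_not (s := F) σ.Lt, pow_add]
    exact mul_le_mul_of_nonneg_right h7 (pow_nonneg hp1 _)
  calc _ ≤ (Ker σ.U a).expect (fun A => c * S.expect (G (Φ A))) := Finset.expect_le_expect hstep
    _ = c * (Ker σ.U a).expect (fun A => S.expect (G (Φ A))) := by rw [Finset.mul_expect]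
    _ ≤ c * (c * S.expect (fun ω => S.expect (G ω))) :=
      mul_le_mul_of_nonneg_left (osurv_dom (Ker σ.U a) S Φ hmap hfib hK
        (fun ω => S.expect (G ω)) (fun ω _ => Finset.expect_nonneg (fun ω' _ => hG0 _ _))) hc0
    _ ≤ c * (c * (1 - 1 / (p : ℝ)) ^ F.card) := by gcongr
    _ = _ := by ring

theorem surv_le (P : Pat k j) {θ ε : ℝ} (hθ : ThC p θ) (hε0 : 0 ≤ ε) (hε : ε ≤ 1 / 2)
    (hεk : 8 * k * ε ≤ 1) (l : X → Lab k j) (h1 : ∀ a, enum θ σ.U' (subSet σ.Y l a) ≤ 1 + ε)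
    (h4 : ∀ F : Finset T, σ.Free F → F.Nonempty → ∀ b,
      enum θ (σ.HF F) (atomSet σ.Y l (P.ab b)) ^ (4 * k) ≤ 2 ^ F.card)
    {F : Finset T} (hF : σ.Free F) :
    pr (σ.Om P l) (fun x => F ⊆ Rs P σ.lam x) ≤ (2 * piK p k) ^ F.card := by
  rcases F.eq_empty_or_nonempty with rfl | hne
  · simpa using pr_le_one (σ.Om P l) (fun x => (∅ : Finset T) ⊆ Rs P σ.lam x)
  have hε1 : (0 : ℝ) < 1 - ε := by linarith
  have hp : (0 : ℝ) < p := by exact_mod_cast (Fact.out : p.Prime).pos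
  have hp1 : (0 : ℝ) ≤ 1 - 1 / (p : ℝ) := by
    have : (1 : ℝ) ≤ p := by exact_mod_cast (Fact.out : p.Prime).pos
    rw [sub_nonneg, div_le_one hp]
    exact this
  set G : Fin k → Finset X → Finset X → ℝ := fun _ A A' =>
    @ite ℝ (∀ t ∈ F, dot (σ.lam t) A ≠ dot (σ.lam t) A') (Classical.propDecidable _) 1 0 with hG
  have e1 : pr (σ.Om P l) (fun x => F ⊆ Rs P σ.lam x) =
      (σ.Om P l).expect (fun x => ∏ b, G b (x (P.cp b false)) (x (P.cp b true))) := by
    refine Finset.expect_congr rfl (fun x _ => ?_)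
    by_cases h : F ⊆ Rs P σ.lam x
    · rw [if_pos h]
      refine (Finset.prod_eq_one (fun b _ => if_pos (fun t ht => ?_))).symm
      exact (Finset.mem_filter.1 (h ht)).2 b
    · rw [if_neg h]
      obtain ⟨t, ht, hn⟩ := Finset.not_subset.1 h
      have hn' : ¬ Surv P (σ.lam t) x := fun hs => hn (Finset.mem_filter.2 ⟨Finset.mem_univ _, hs⟩)
      obtain ⟨b, hb⟩ := not_forall.1 hn'
      exact (Finset.prod_eq_zero (Finset.mem_univ b) (if_neg (fun hh => hb (hh t ht)))).symm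
  have e2 := expect_prod_pairs (fun κ => Ker σ.U (cset P σ.Y l κ))
    (fun κ => ⟨∅, empty_mem_Ker _ _⟩) (fun b => P.cp b false) (fun b => P.cp b true)
    (fun b b' h => (P.cp_inj h).1) (fun b b' h => (P.cp_inj h).1)
    (fun b b' h => Bool.false_ne_true (P.cp_inj h).2) G
  set y : Fin k → ℝ := fun b => (enum θ (σ.HF F) (atomSet σ.Y l (P.ab b)) / (1 - ε)) ^ 2 with hy
  have e3 : ∀ b, (Ker σ.U (cset P σ.Y l (P.cp b false))).expect
      (fun A => (Ker σ.U (cset P σ.Y l (P.cp b true))).expect (fun A' => G b A A')) ≤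
      y b * (1 - 1 / (p : ℝ)) ^ F.card := by
    intro b
    have hc : ∀ e, cset P σ.Y l (P.cp b e) = atomSet σ.Y l (P.ab b) := fun e => by
      rw [cset, P.atm_cp]
    rw [hc, hc]
    exact σ.differ_le hθ hε (atomSet_subset σ.Y l (P.ab b))
      (le_trans (enum_anti hθ.1 hθ.2.1.le _ (subSet_subset _ _ _)) (h1 _)) hF
  have hy0 : ∀ b, 0 ≤ y b := fun b => sq_nonneg _
  have e4 : ∏ b, y b ≤ 2 ^ F.card := by
    rcases Nat.eq_zero_or_pos k with rfl | hk
    · simpa using one_le_pow₀ (n := F.card) (by norm_num : (1 : ℝ) ≤ 2)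
    have hb : (1 : ℝ) / 2 ≤ (1 - ε) ^ (4 * k) := by
      have h2 := one_add_mul_le_pow (a := -ε) (by linarith) (4 * k)
      push_cast at h2
      rw [← sub_eq_add_neg] at h2
      linarith
    have h5 : ∀ b, y b ^ (2 * k) ≤ (2 ^ F.card) ^ 2 := by
      intro b
      have h6 : y b ^ (2 * k) =
          enum θ (σ.HF F) (atomSet σ.Y l (P.ab b)) ^ (4 * k) / (1 - ε) ^ (4 * k) := by
        rw [hy, ← div_pow, ← pow_mul]
        congr 1
        ring
      have h7 : (2 : ℝ) ≤ 2 ^ F.card := by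
        calc (2 : ℝ) = 2 ^ 1 := by norm_num
          _ ≤ 2 ^ F.card := pow_le_pow_right₀ (by norm_num) hne.card_pos
      rw [h6, div_le_iff₀ (by positivity)]
      have h8 := h4 F hF hne b
      have h9 : (0 : ℝ) < 2 ^ F.card := by positivity
      calc _ ≤ (2 : ℝ) ^ F.card := h8
        _ ≤ (2 ^ F.card) ^ 2 * (1 / 2) := by nlinarith
        _ ≤ _ := by gcongr
    refine le_of_pow_le_pow_left₀ (n := 2 * k) (by omega) (by positivity) ?_
    rw [← Finset.prod_pow, pow_mul]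
    calc ∏ b, y b ^ (2 * k) ≤ ∏ _b : Fin k, ((2 : ℝ) ^ F.card) ^ 2 :=
          Finset.prod_le_prod (fun b _ => pow_nonneg (hy0 b) _) (fun b _ => h5 b)
      _ = _ := by simp
  rw [e1]
  refine le_trans (le_of_eq e2) ?_
  calc _ ≤ ∏ b, y b * (1 - 1 / (p : ℝ)) ^ F.card :=
        Finset.prod_le_prod (fun b _ => Finset.expect_nonneg (fun A _ =>
          Finset.expect_nonneg (fun A' _ => by
            simp only [hG]
            split_ifs <;> norm_num))) (fun b _ => e3 b)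
    _ = (∏ b, y b) * piK p k ^ F.card := by
        rw [Finset.prod_mul_distrib, Finset.prod_const, Finset.card_univ, Fintype.card_fin, piK,
          ← pow_mul, ← pow_mul, mul_comm k]
    _ ≤ 2 ^ F.card * piK p k ^ F.card :=
        mul_le_mul_of_nonneg_right e4 (pow_nonneg (piK_pos k).le _)
    _ = _ := by rw [mul_pow]

end Ext

end Pool.Agent.P.MP_85fe51_lc.OD
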