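import Pool.Agent.P.MP_85fe51_lc.OPhase
import Pool.Agent.P.MP_85fe51_lc.OPar
import Pool.Agent.P.MP_85fe51_lc.OMain
import Pool.Agent.P.MP_85fe51_lc.OBour

set_option autoImplicit false

namespace Pool.Agent.P.MP_85fe51_lc.OD

open Finset
open scoped Classical

theorem otop_E1 (p j : ℕ) (hp : 2 ≤ p) (hj : 1 ≤ j) :
    ∃ E1 : ℕ, 32 * j * ((p : ℝ) - 1) ^ E1 ≤ (p : ℝ) ^ E1 := by
  have hp0 : (0 : ℝ) < p := by exact_mod_cast (by omega : 0 < p)
  have hj0 : (0 : ℝ) < 32 * j := by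
    have : (0 : ℝ) < j := by exact_mod_cast (by omega : 0 < j)
    positivity
  obtain ⟨E1, hE⟩ := exists_pow_lt_of_lt_one (x := 1 / (32 * j : ℝ)) (y := ((p : ℝ) - 1) / p)
    (by positivity) ((div_lt_one hp0).2 (by linarith))
  refine ⟨E1, ?_⟩
  rw [div_pow, div_lt_div_iff₀ (by positivity) hj0] at hE
  linarith

theorem core (p : ℕ) [Fact p.Prime] : Core p := by
  intro N V0 _ _ _ _ hN c0
  have hp : 2 ≤ p := (Fact.out : p.Prime).two_le
  have hs : 1 ≤ Fintype.card N := Fintype.card_pos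
  obtain ⟨j, hj1, hj⟩ := exists_olsJ (max c0 (9 * Fintype.card N + 16)) (Fintype.card (V0 × N))
  obtain ⟨E1, hE⟩ := otop_E1 p j hp hj1
  obtain ⟨c1, hc1⟩ := exists_num p (Fintype.card N) (max c0 (9 * Fintype.card N + 16)) j E1 hp hs
    (le_max_right _ _) hj1
  obtain ⟨θ, hθ⟩ := exists_thB hN c1
  obtain ⟨γ, hγ⟩ := exists_gam hN
  obtain ⟨B, y0, hB, hnum⟩ := hc1 θ γ hθ.1 hθ.2.1 hγ.1 hγ.2.1
  refine ⟨B, y0, hB, fun y hy X T _ _ _ lam phi f0 hphi h1 h2 h3 hf => ?_⟩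
  obtain ⟨ν⟩ := hnum y hy _ _ h1 h2 h3
  by_contra hcon
  have hno : ∀ A : Finset X, Sf lam phi A = Sf lam phi ∅ → f0 A = f0 ∅ → A = ∅ := by
    intro A hA hA'
    by_contra hne
    exact hcon ⟨A, nonempty_iff_ne_empty.2 hne, hA, hA'⟩
  have hf' := hf.of_le clo_true (Nat.succ_le_succ (le_max_left c0 (9 * Fintype.card N + 16)))
  have key : ∀ i, i ≤ Fintype.card N → ∃ (Y : Finset X) (U : Sub p X) (N0 : AddSubgroup N),
      co Yᶜ ≤ U ∧ Fintype.card X ≤ ν.W ^ i * Y.card ∧ dO U Yᶜ ≤ 3 * i * ν.n1 ∧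
      DL N0 (KerP U) (max c0 (9 * Fintype.card N + 16) + 1) Y (Sf lam phi) ∧
      Nat.card N0 + i ≤ Fintype.card N := by
    intro i
    induction i with
    | zero =>
      intro _
      refine ⟨univ, ⊥, ⊤, fun η hη => ?_, by simp, ?_, ?_, by simp⟩
      · rw [Submodule.mem_bot]
        funext x
        exact hη x (by simp)
      · rw [dO, Submodule.map_bot, finrank_bot]
        exact Nat.zero_le _
      · exact DL_of_mem (fun _ _ h hA hB => kerP_union h hA hB) fun _ _ _ => AddSubgroup.mem_top _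
    | succ i ih =>
      intro hi
      obtain ⟨Y, U, N0, k1, k2, k3, k4, k5⟩ := ih (by omega)
      have hW : 0 < ν.W ^ Fintype.card N := pow_pos ν.hW1 _
      have hYc : ν.Ylo ≤ Y.card := by
        refine Nat.le_of_mul_le_mul_left (ν.xW.trans (k2.trans ?_)) hW
        exact Nat.mul_le_mul_right _ (Nat.pow_le_pow_right ν.hW1 (by omega))
      obtain ⟨Y2, U2, N2, l1, l2, l3, l4, l5⟩ := phase hN hθ hγ hj1 hj hE ν lam phi hphi f0 hf' hno
        Y U N0 k1 hYc (k3.trans (Nat.mul_le_mul_right _ (by omega))) k4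
      refine ⟨Y2, U2, N2, l2, k2.trans ?_, l4.trans ?_, l5, ?_⟩
      · rw [pow_succ, mul_assoc]
        exact Nat.mul_le_mul_left _ l3
      · rw [Nat.mul_succ, add_mul]
        exact Nat.add_le_add_right k3 _
      · have : Nat.card N2 < Nat.card N0 := by
          refine lt_of_not_ge fun h => l1.ne ?_
          exact AddSubgroup.eq_of_le_of_card_ge l1.le h
        omega
  obtain ⟨-, -, N0, -, -, -, -, h⟩ := key _ le_rfl
  have : 0 < Nat.card N0 := Nat.card_pos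
  omega

end Pool.Agent.P.MP_85fe51_lc.OD
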