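import Pool.Agent.P.MP_85fe51_lc.OSel
import Pool.Agent.P.MP_85fe51_lc.OCount

set_option autoImplicit false

namespace Pool.Agent.P.MP_85fe51_lc.OD

open Finset
open scoped Classical

variable {p : ℕ} [Fact p.Prime] {X : Type} [Fintype X] [DecidableEq X] {T : Type} [Fintype T]
  {k j : ℕ}

theorem otypa_union {ι L : Type} [Fintype L] {w : X → L → ℝ} (hw : IsW w) (I : Finset ι)
    (Q : ι → (X → L) → Prop) (R : (X → L) → Prop) {ε B : ℝ} (hε : 0 ≤ ε)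
    (hR : ∀ l, R l → ∃ i ∈ I, Q i l) (h : ∀ i ∈ I, ε * Pw w (Q i) ≤ B) :
    ε * Pw w R ≤ I.card * B := by
  have h1 : Pw w R ≤ ∑ i ∈ I, Pw w (Q i) :=
    (Pw_mono hw (fun l _ hl => hR l hl)).trans (Pw_exists_le hw I Q)
  calc ε * Pw w R ≤ ε * ∑ i ∈ I, Pw w (Q i) := mul_le_mul_of_nonneg_left h1 hε
    _ = ∑ i ∈ I, ε * Pw w (Q i) := Finset.mul_sum _ _ _
    _ ≤ ∑ _i ∈ I, B := Finset.sum_le_sum h
    _ = I.card * B := by rw [Finset.sum_const, nsmul_eq_mul]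

theorem otypa_subSet (Y : Finset X) (l : X → Lab k j) (a : Atom k j) :
    subSet Y l a = @Finset.filter X (fun i => (fun b : Lab k j => b = some (a, true)) (l i))
      (fun _ => Classical.propDecidable _) Y := by
  ext i
  simp only [subSet, mem_filter]

theorem otypa_atomSet (Y : Finset X) (l : X → Lab k j) (a : Atom k j) :
    atomSet Y l a = @Finset.filter X
      (fun i => (fun b : Lab k j => b = some (a, false) ∨ b = some (a, true)) (l i))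
      (fun _ => Classical.propDecidable _) Y := by
  ext i
  simp only [atomSet, mem_filter]

theorem otypa_nu_sub (hk : 1 ≤ k) (hj : 1 ≤ j) {τ : ℝ} (h0 : 0 ≤ τ) (a : Atom k j) :
    τ / (4 * j * k) ≤ ∑ b ∈ @Finset.filter (Lab k j) (fun b : Lab k j => b = some (a, true))
      (fun _ => Classical.propDecidable _) univ, nu k j τ b := by
  refine (nu_sub hk hj h0 a).trans (le_of_eq ?_)
  refine Finset.sum_congr ?_ (fun _ _ => rfl)
  ext b
  simp only [mem_filter]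

theorem otypa_nu_atom (hk : 1 ≤ k) (hj : 1 ≤ j) (τ : ℝ) (a : Atom k j) :
    1 / (4 * j * k : ℝ) ≤ ∑ b ∈ @Finset.filter (Lab k j)
      (fun b : Lab k j => b = some (a, false) ∨ b = some (a, true))
      (fun _ => Classical.propDecidable _) univ, nu k j τ b := by
  refine (nu_atom hk hj τ a).trans (le_of_eq ?_)
  refine Finset.sum_congr ?_ (fun _ _ => rfl)
  ext b
  simp only [mem_filter]

theorem otypa_one_le_Q : (1 : ℝ) ≤ (p * (Fintype.card X + 1) : ℝ) := by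
  have hp : (1 : ℝ) ≤ p := by exact_mod_cast (Fact.out : p.Prime).one_lt.le
  have hx : (0 : ℝ) ≤ Fintype.card X := Nat.cast_nonneg _
  nlinarith

/-- the enumerator of a safe space on the rare part of an atom. -/
theorem otypa_enum (hk : 1 ≤ k) (hj : 1 ≤ j) {θ τ ε ζ : ℝ} (hθ0 : 0 ≤ θ) (hθ1 : θ ≤ 1)
    (hτ0 : 0 ≤ τ) (hτ1 : τ ≤ 1) (hε : 0 ≤ ε) (Y : Finset X) {C : ℕ} (hC : 1 ≤ C) {H : Sub p X}
    (hs : Safe C H) (hY : H ≤ co Y) (hζ : ζ ≤ τ / (4 * j * k) * (1 - θ) * C)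
    (hQ : (p * (Fintype.card X + 1) : ℝ) * Real.exp (-ζ) ≤ 1 / 2) (a : Atom k j) :
    ε * Pw (fun _ : X => nu k j τ) (fun l => ε ≤ enum θ H (subSet Y l a) - 1) ≤
      2 * (p * (Fintype.card X + 1) : ℝ) ^ 2 * Real.exp (-ζ) := by
  have hw := isW_nu X hk hj hτ0 hτ1
  have hQ0 : (0 : ℝ) ≤ (p * (Fintype.card X + 1) : ℝ) := by positivity
  have hexp : Real.exp (-(τ / (4 * j * k) * (1 - θ)) * C) ≤ Real.exp (-ζ) := by
    apply Real.exp_le_exp.2
    linarith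
  have h1 := Ew_markov hw (fun l => enum θ H (subSet Y l a) - 1)
    (fun l => sub_nonneg.2 (one_le_enum hθ0 _ _)) ε
  have h2 := Ew_enum hw Y (fun b : Lab k j => b = some (a, true)) (ρ := τ / (4 * j * k))
    (by positivity) hθ0 hθ1 (fun _ _ => otypa_nu_sub hk hj hτ0 a) hC hs hY
    ((mul_le_mul_of_nonneg_left hexp hQ0).trans hQ)
  simp only [← otypa_subSet] at h2
  exact h1.trans (h2.trans (mul_le_mul_of_nonneg_left hexp (by positivity)))

theorem otypa_geom {ι : Type} [Fintype ι] {x : ℝ} (hx : 0 ≤ x) (h : Fintype.card ι * x ≤ 1) :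
    ∑ F ∈ (univ : Finset (Finset ι)).filter (fun F => F.Nonempty), x ^ F.card ≤
      2 * (Fintype.card ι * x) := by
  have h1 : ∑ F ∈ (univ : Finset (Finset ι)), x ^ F.card = (x + 1) ^ Fintype.card ι := by
    have := Finset.sum_pow_mul_eq_add_pow x 1 (univ : Finset ι)
    simpa using this
  have h2 := Finset.sum_filter_add_sum_filter_not (univ : Finset (Finset ι))
    (fun F => F.Nonempty) (fun F => x ^ F.card)
  have h3 : (univ : Finset (Finset ι)).filter (fun F => ¬ F.Nonempty) = {∅} := by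
    ext F
    simp
  rw [h3, Finset.sum_singleton, Finset.card_empty, pow_zero, h1] at h2
  have h4 : (x + 1) ^ Fintype.card ι ≤ Real.exp (Fintype.card ι * x) := by
    rw [Real.exp_nat_mul]
    exact pow_le_pow_left₀ (by linarith) (Real.add_one_le_exp x) _
  have hy : 0 ≤ (Fintype.card ι : ℝ) * x := by positivity
  have h5 := Real.abs_exp_sub_one_le (x := Fintype.card ι * x) (by rw [abs_of_nonneg hy]; exact h)
  rw [abs_of_nonneg hy] at h5
  have h6 := le_abs_self (Real.exp (Fintype.card ι * x) - 1)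
  linarith

namespace Ext
variable (σ : Ext p X T) (P : Pat k j) {Seq : Finset T} {θ τ ε ζ : ℝ}

theorem fail_t1 (hk : 1 ≤ k) (hj : 1 ≤ j) (hθ0 : 0 ≤ θ) (hθ1 : θ ≤ 1) (hτ0 : 0 ≤ τ) (hτ1 : τ ≤ 1)
    (hε : 0 < ε) (hζ : ζ ≤ τ / (4 * j * k) * (1 - θ) * σ.CH / 2)
    (hQ : (p * (Fintype.card X + 1) : ℝ) * Real.exp (-ζ) ≤ 1 / 2) :
    ε * Pw (fun _ : X => nu k j τ) (fun l => ¬ ∀ a, enum θ σ.U' (subSet σ.Y l a) ≤ 1 + ε) ≤
      (k + 1) * j * (2 * (p * (Fintype.card X + 1) : ℝ) ^ 2 * Real.exp (-ζ)) := by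
  have hw := isW_nu X hk hj hτ0 hτ1
  have hpos : 0 ≤ τ / (4 * j * k) * (1 - θ) * σ.CH := by
    have : 0 ≤ 1 - θ := by linarith
    positivity
  have h := otypa_union hw (univ : Finset (Atom k j))
    (fun a l => ε ≤ enum θ σ.U' (subSet σ.Y l a) - 1)
    (fun l => ¬ ∀ a, enum θ σ.U' (subSet σ.Y l a) ≤ 1 + ε) hε.le
    (fun l hl => by
      obtain ⟨a, ha⟩ := not_forall.1 hl
      exact ⟨a, mem_univ _, by linarith [not_le.1 ha]⟩)
    (fun a _ => otypa_enum hk hj hθ0 hθ1 hτ0 hτ1 hε.le σ.Y σ.one_le_CH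
      (σ.safe.mono (by omega)) σ.U'_le (by linarith) hQ a)
  refine h.trans (le_of_eq ?_)
  simp [Atom]

theorem fail_t2 (hS : σ.SeqOK Seq) (hk : 1 ≤ k) (hj : 1 ≤ j) (hθ0 : 0 ≤ θ) (hθ1 : θ ≤ 1)
    (hτ0 : 0 ≤ τ) (hτ1 : τ ≤ 1) (hε : 0 < ε) (hζ : ζ ≤ τ / (4 * j * k) * (1 - θ) * σ.CH / 2)
    (hQ : (p * (Fintype.card X + 1) : ℝ) * Real.exp (-ζ) ≤ 1 / 2) :
    ε * Pw (fun _ : X => nu k j τ) (fun l => ¬ ∀ i ∈ Seq, ∀ a,
      enum θ ((σ.Ht (σ.past Seq i) ⊔ Submodule.span (ZMod p) {σ.lam i}).map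
        (off (σ.Jt (σ.past Seq i)))) (subSet σ.Y l a) ≤ 1 + ε) ≤
      Fintype.card T * ((k + 1) * j * (2 * (p * (Fintype.card X + 1) : ℝ) ^ 2 * Real.exp (-ζ))) := by
  have hw := isW_nu X hk hj hτ0 hτ1
  have hpos : 0 ≤ τ / (4 * j * k) * (1 - θ) * σ.CH := by
    have : 0 ≤ 1 - θ := by linarith
    positivity
  have h := otypa_union hw (Seq ×ˢ (univ : Finset (Atom k j)))
    (fun q l => ε ≤ enum θ ((σ.Ht (σ.past Seq q.1) ⊔ Submodule.span (ZMod p) {σ.lam q.1}).map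
        (off (σ.Jt (σ.past Seq q.1)))) (subSet σ.Y l q.2) - 1)
    (fun l => ¬ ∀ i ∈ Seq, ∀ a,
      enum θ ((σ.Ht (σ.past Seq i) ⊔ Submodule.span (ZMod p) {σ.lam i}).map
        (off (σ.Jt (σ.past Seq i)))) (subSet σ.Y l a) ≤ 1 + ε) hε.le
    (fun l hl => by
      obtain ⟨i, hi⟩ := not_forall.1 hl
      obtain ⟨hi, hi'⟩ := Classical.not_imp.1 hi
      obtain ⟨a, ha⟩ := not_forall.1 hi'
      exact ⟨(i, a), mem_product.2 ⟨hi, mem_univ _⟩, by linarith [not_le.1 ha]⟩)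
    (fun q hq => otypa_enum hk hj hθ0 hθ1 hτ0 hτ1 hε.le σ.Y σ.one_le_CH
      (safe_sup_span (σ.co_Jt_le _) (σ.safe_Ht _)
        (le_trans (by omega) (σ.heavy_Ht (hS.not_moved_past (mem_product.1 hq).1))))
      ((map_off_le _ _).trans (co_mono (fun x hx => by
        by_contra hx'
        exact (mem_compl.1 hx) (σ.compl_subset_Jt _ (mem_compl.2 hx')))))
      (by linarith) hQ q.2)
  refine h.trans ?_
  have hc : ((Seq ×ˢ (univ : Finset (Atom k j))).card : ℝ) ≤ Fintype.card T * ((k + 1) * j) := by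
    rw [card_product, Nat.cast_mul]
    refine mul_le_mul (by exact_mod_cast card_le_univ Seq) (le_of_eq ?_) (by positivity)
      (by positivity)
    simp [Atom]
  calc _ ≤ (Fintype.card T * ((k + 1) * j) : ℝ) *
        (2 * (p * (Fintype.card X + 1) : ℝ) ^ 2 * Real.exp (-ζ)) :=
        mul_le_mul_of_nonneg_right hc (by positivity)
    _ = _ := by ring

theorem fail_t3 (hS : σ.SeqOK Seq) (hk : 1 ≤ k) (hj : 1 ≤ j) (hθ0 : 0 ≤ θ) (hθ1 : θ ≤ 1)
    (hτ0 : 0 ≤ τ) (hτ1 : τ ≤ 1) (hε : 0 < ε) (hζ : ζ ≤ τ / (4 * j * k) * (1 - θ) * σ.CH / 2)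
    (hζ' : ζ ≤ 1 / (4 * j * k) * (1 - θ) * σ.r)
    (hQ : (p * (Fintype.card X + 1) : ℝ) * Real.exp (-ζ) ≤ 1 / 2) :
    ε * Pw (fun _ : X => nu k j τ) (fun l => ¬ ∀ i ∈ Seq, ∀ t ∈ σ.Mid i, t ∉ σ.LCl i →
      ∀ u u' : ZMod p, (u ≠ 0 ∨ u' ≠ 0) → ∀ b,
        cenum θ (off (σ.Jt (σ.past Seq i)) (u • σ.lam i + u' • σ.lam t))
          ((σ.Ht (σ.past Seq i)).map (off (σ.Jt (σ.past Seq i)))) (atomSet σ.Y l (P.ab b)) ≤ ε) ≤
      (Fintype.card T : ℝ) ^ 2 * p ^ 2 * k *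
        (3 * (p * (Fintype.card X + 1) : ℝ) ^ 2 * Real.exp (-ζ)) := by
  have hw := isW_nu X hk hj hτ0 hτ1
  have hθ' : 0 ≤ 1 - θ := by linarith
  have hQ1 := otypa_one_le_Q (p := p) (X := X)
  have hQ0 : (0 : ℝ) ≤ (p * (Fintype.card X + 1) : ℝ) := by positivity
  have hρ : τ / (4 * j * k) * (1 - θ) * σ.CH / 2 ≤ 1 / (4 * j * k) * (1 - θ) * σ.CH / 2 := by
    gcongr
  have hexp : Real.exp (-(1 / (4 * j * k : ℝ) * (1 - θ)) * σ.CH / 2) ≤ Real.exp (-ζ) := by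
    apply Real.exp_le_exp.2
    linarith
  have hexp' : Real.exp (-(1 / (4 * j * k : ℝ) * (1 - θ)) * σ.r) ≤ Real.exp (-ζ) := by
    apply Real.exp_le_exp.2
    linarith
  have h := otypa_union (B := 3 * (p * (Fintype.card X + 1) : ℝ) ^ 2 * Real.exp (-ζ)) hw
    ((univ : Finset (T × T × ZMod p × ZMod p × Fin k)).filter
      (fun q => q.1 ∈ Seq ∧ q.2.1 ∈ σ.Mid q.1 ∧ q.2.1 ∉ σ.LCl q.1 ∧ (q.2.2.1 ≠ 0 ∨ q.2.2.2.1 ≠ 0)))
    (fun q l => ε ≤ cenum θ (off (σ.Jt (σ.past Seq q.1)) (q.2.2.1 • σ.lam q.1 + q.2.2.2.1 • σ.lam q.2.1))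
          ((σ.Ht (σ.past Seq q.1)).map (off (σ.Jt (σ.past Seq q.1)))) (atomSet σ.Y l (P.ab q.2.2.2.2)))
    (fun l => ¬ ∀ i ∈ Seq, ∀ t ∈ σ.Mid i, t ∉ σ.LCl i →
      ∀ u u' : ZMod p, (u ≠ 0 ∨ u' ≠ 0) → ∀ b,
        cenum θ (off (σ.Jt (σ.past Seq i)) (u • σ.lam i + u' • σ.lam t))
          ((σ.Ht (σ.past Seq i)).map (off (σ.Jt (σ.past Seq i)))) (atomSet σ.Y l (P.ab b)) ≤ ε) hε.le
    (fun l hl => by
      by_contra hcon
      apply hl
      intro i hi t ht ht' u u' hu b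
      by_contra hb
      exact hcon ⟨(i, t, u, u', b), mem_filter.2 ⟨mem_univ _, hi, ht, ht', hu⟩, (not_le.1 hb).le⟩)
    (fun q hq => by
      obtain ⟨i, t, u, u', b⟩ := q
      obtain ⟨-, hi, ht, ht', hu⟩ := mem_filter.1 hq
      have hJ : (σ.Jt (σ.past Seq i))ᶜ ⊆ σ.Y := fun x hx => by
        by_contra hx'
        exact (mem_compl.1 hx) (σ.compl_subset_Jt _ (mem_compl.2 hx'))
      have h1 := Ew_markov hw (fun l => cenum θ
        (off (σ.Jt (σ.past Seq i)) (u • σ.lam i + u' • σ.lam t))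
          ((σ.Ht (σ.past Seq i)).map (off (σ.Jt (σ.past Seq i)))) (atomSet σ.Y l (P.ab b)))
        (fun l => cenum_nonneg hθ0 _ _ _) ε
      have h2 := Ew_cenum hw σ.Y
        (fun c : Lab k j => c = some (P.ab b, false) ∨ c = some (P.ab b, true))
        (ρ := 1 / (4 * j * k : ℝ)) (by positivity) hθ0 hθ1
        (fun _ _ => otypa_nu_atom hk hj τ (P.ab b)) σ.one_le_CH
        ((σ.safe_Ht (σ.past Seq i)).mono (by omega))
        ((map_off_le _ _).trans (co_mono hJ))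
        ((mul_le_mul_of_nonneg_left hexp hQ0).trans hQ)
        (off (σ.Jt (σ.past Seq i)) (u • σ.lam i + u' • σ.lam t))
        (by
          rw [supp_off]
          intro x hx
          exact hJ (mem_compl.2 (mem_sdiff.1 hx).2))
        σ.r
        (fun η hη => (σ.far_Ht (hS i hi).1 (hS.not_moved_past hi) ht ht' u u' hu).le.trans
          (wtm_le_off (σ.co_Jt_le _) _ hη))
      simp only [← otypa_atomSet] at h2
      refine h1.trans (h2.trans ?_)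
      have h3 : (1 : ℝ) ≤ (p * (Fintype.card X + 1) : ℝ) ^ 2 := one_le_pow₀ hQ1
      have h4 := mul_le_mul_of_nonneg_left hexp
        (show (0 : ℝ) ≤ 2 * (p * (Fintype.card X + 1) : ℝ) ^ 2 by positivity)
      have h5 := mul_le_mul_of_nonneg_right h3 (Real.exp_pos (-ζ)).le
      linarith)
  refine h.trans (mul_le_mul_of_nonneg_right ?_ (by positivity))
  have hc := card_filter_le (univ : Finset (T × T × ZMod p × ZMod p × Fin k))
    (fun q => q.1 ∈ Seq ∧ q.2.1 ∈ σ.Mid q.1 ∧ q.2.1 ∉ σ.LCl q.1 ∧ (q.2.2.1 ≠ 0 ∨ q.2.2.2.1 ≠ 0))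
  refine (Nat.cast_le.2 hc).trans (le_of_eq ?_)
  simp only [card_univ, Fintype.card_prod, ZMod.card, Fintype.card_fin]
  push_cast
  ring

theorem fail_t4 (hk : 1 ≤ k) (hj : 1 ≤ j) (hθ0 : 0 ≤ θ) (hθ1 : θ ≤ 1) (hτ0 : 0 ≤ τ) (hτ1 : τ ≤ 1)
    {g : ℕ} (hg1 : 1 ≤ g) (hg : Fintype.card T ≤ 2 ^ g)
    (hζ : ζ ≤ 1 / (4 * j * k) * (1 - θ) * σ.CH / (4 * k * g : ℕ))
    (hQ : 2 * (p * (Fintype.card X + 1) : ℝ) ^ 2 * Real.exp (-ζ) ≤ 1 / (4 * k * g : ℕ)) :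
    Pw (fun _ : X => nu k j τ) (fun l => ¬ ∀ F : Finset T, σ.Free F → F.Nonempty → ∀ b,
      enum θ (σ.HF F) (atomSet σ.Y l (P.ab b)) ^ (4 * k) ≤ 2 ^ F.card) ≤
      6 * k * Fintype.card T / 2 ^ g := by
  have hw := isW_nu X hk hj hτ0 hτ1
  have hm : 1 ≤ 4 * k * g := Nat.mul_pos (by omega) hg1
  have hexp : Real.exp (-(1 / (4 * j * k : ℝ) * (1 - θ)) * σ.CH / (4 * k * g : ℕ)) ≤
      Real.exp (-ζ) := by
    apply Real.exp_le_exp.2
    rw [neg_mul, neg_div]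
    linarith
  have h2g : (0 : ℝ) < 2 ^ g := by positivity
  have hone : ∀ F : Finset T, ∀ b : Fin k,
      Pw (fun _ : X => nu k j τ) (fun l => σ.Free F ∧
        ¬ enum θ (σ.HF F) (atomSet σ.Y l (P.ab b)) ^ (4 * k) ≤ 2 ^ F.card) ≤
        3 * (1 / 2 ^ g) ^ F.card := by
    intro F b
    by_cases hF : σ.Free F
    · have h1 := Ew_markov hw (fun l => enum θ (σ.HF F) (atomSet σ.Y l (P.ab b)) ^ (4 * k * g))
        (fun l => pow_nonneg (zero_le_one.trans (one_le_enum hθ0 _ _)) _) ((2 ^ g) ^ F.card)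
      have h2 := Ew_enum_pow hw σ.Y
        (fun c : Lab k j => c = some (P.ab b, false) ∨ c = some (P.ab b, true))
        (ρ := 1 / (4 * j * k : ℝ)) (by positivity) hθ0 hθ1
        (fun _ _ => otypa_nu_atom hk hj τ (P.ab b)) σ.one_le_CH (σ.free_struct hF).2.1
        (σ.HF_le F) hm ((mul_le_mul_of_nonneg_left hexp (by positivity)).trans hQ)
      simp only [← otypa_atomSet] at h2
      have h3 := Pw_mono hw (P := fun l => σ.Free F ∧
          ¬ enum θ (σ.HF F) (atomSet σ.Y l (P.ab b)) ^ (4 * k) ≤ 2 ^ F.card)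
        (Q := fun l => ((2 : ℝ) ^ g) ^ F.card ≤
          enum θ (σ.HF F) (atomSet σ.Y l (P.ab b)) ^ (4 * k * g)) (fun l _ hl => by
          rw [← pow_mul, mul_comm g, pow_mul, pow_mul _ (4 * k) g]
          exact pow_le_pow_left₀ (by positivity) (not_le.1 hl.2).le _)
      have h4 : (0 : ℝ) < (2 ^ g) ^ F.card := by positivity
      rw [one_div, inv_pow, ← div_eq_mul_inv, le_div_iff₀ h4]
      have h5 := mul_le_mul_of_nonneg_left h3 h4.le
      linarith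
    · refine (Pw_mono hw (Q := fun _ => False) (fun l _ hl => hF hl.1)).trans ?_
      have : Pw (fun _ : X => nu k j τ) (fun _ => False) = 0 := by
        simp [Pw, Ew]
      rw [this]
      positivity
  have hU := Pw_exists_le hw
    (((univ : Finset (Finset T)).filter (fun F => F.Nonempty)) ×ˢ (univ : Finset (Fin k)))
    (fun q l => σ.Free q.1 ∧
      ¬ enum θ (σ.HF q.1) (atomSet σ.Y l (P.ab q.2)) ^ (4 * k) ≤ 2 ^ q.1.card)
  have hx : (Fintype.card T : ℝ) * (1 / 2 ^ g) ≤ 1 := by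
    rw [mul_one_div, div_le_one h2g]
    exact_mod_cast hg
  have hG := otypa_geom (ι := T) (x := 1 / 2 ^ g) (by positivity) hx
  refine (Pw_mono hw (fun l _ hl => ?_)).trans (hU.trans ?_)
  · by_contra hcon
    apply hl
    intro F hF hne b
    by_contra hb
    exact hcon ⟨(F, b), mem_product.2 ⟨mem_filter.2 ⟨mem_univ _, hne⟩, mem_univ _⟩, hF, hb⟩
  · refine (Finset.sum_le_sum (fun q _ => hone q.1 q.2)).trans ?_
    rw [Finset.sum_product]
    simp only [Finset.sum_const, card_univ, Fintype.card_fin, nsmul_eq_mul]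
    rw [← Finset.mul_sum, ← Finset.mul_sum]
    calc (k : ℝ) * (3 * ∑ F ∈ (univ : Finset (Finset T)).filter (fun F => F.Nonempty),
          ((1 : ℝ) / 2 ^ g) ^ F.card) ≤ k * (3 * (2 * (Fintype.card T * (1 / 2 ^ g)))) := by
          gcongr
      _ = _ := by ring

theorem fail_t5 (hS : σ.SeqOK Seq) (hk : 1 ≤ k) (hj : 1 ≤ j) (hτ0 : 0 ≤ τ) (hτ1 : τ ≤ 1) {C' : ℕ}
    (hC : 1 ≤ C') (hζ : ζ ≤ τ / (4 * j * k) / (8 * C') * σ.CH)
    (hQ : (p * (Fintype.card X + 1) : ℝ) * Real.exp (-ζ) ≤ 1 / 2) :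
    Pw (fun _ : X => nu k j τ) (fun l =>
      ¬ SafeOn (subSet σ.Y l P.a0) (2 * C') ((σ.U ⊔ spn σ.lam Seq).map (off σ.Yᶜ))) ≤
      4 * (p * (Fintype.card X + 1) : ℝ) ^ 2 * Real.exp (-ζ) := by
  have hw := isW_nu X hk hj hτ0 hτ1
  have hC' : (1 : ℝ) ≤ C' := by exact_mod_cast hC
  have hq0 : (0 : ℝ) ≤ 1 / (8 * C') := by positivity
  have hq1 : (1 : ℝ) / (8 * C') ≤ 1 := by
    rw [div_le_one (by positivity)]
    linarith
  have hb : (3 / 4 : ℝ) ≤ (1 - 1 / (8 * C')) ^ (2 * C') := by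
    have h := one_add_mul_le_pow (a := -(1 / (8 * C') : ℝ)) (by linarith) (2 * C')
    have e : (1 : ℝ) + (2 * C' : ℕ) * -(1 / (8 * C') : ℝ) = 3 / 4 := by
      push_cast
      field_simp
      ring
    rw [e, ← sub_eq_add_neg] at h
    exact h
  have h := otypa_enum (θ := 1 - 1 / (8 * C')) (ε := 1 / 2) (ζ := ζ) hk hj (by linarith)
    (by linarith) hτ0 hτ1 (by norm_num) σ.Y σ.one_le_CH hS.safe.1
    ((map_off_le _ _).trans (co_mono (by rw [compl_compl])))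
    (by
      refine hζ.trans (le_of_eq ?_)
      ring) hQ P.a0
  have h2 := Pw_mono hw (P := fun l =>
      ¬ SafeOn (subSet σ.Y l P.a0) (2 * C') ((σ.U ⊔ spn σ.lam Seq).map (off σ.Yᶜ)))
    (Q := fun l => (1 / 2 : ℝ) ≤ enum (1 - 1 / (8 * C'))
      ((σ.U ⊔ spn σ.lam Seq).map (off σ.Yᶜ)) (subSet σ.Y l P.a0) - 1) (fun l _ hl => by
      by_contra hcon
      exact hl (safeOn_of_enum (by linarith) (by linarith) hb (by linarith [not_le.1 hcon])))
  linarith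

end Ext

end Pool.Agent.P.MP_85fe51_lc.OD
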